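import Pool.Agent.W6h79.LD.Defs

open MeasureTheory Set Filter
open scoped ENNReal NNReal Topology

noncomputable section

namespace Pool.Agent.W6h79.LD

theorem sA.{v} : S_A.{v} := by
  intro Y _ _ ι _ φ c hc hφ
  classical
  by_contra hcon
  push Not at hcon
  -- the linear map into `ι → ℝ`
  let Φ : Y →ₗ[ℝ] (ι → ℝ) := LinearMap.pi (fun i => (φ i).toLinearMap)
  let K : Set (ι → ℝ) := Φ '' (Metric.closedBall (0 : Y) 1)
  let O : Set (ι → ℝ) := {v | ∀ i, c / 2 < v i}
  have hKconv : Convex ℝ K := (convex_closedBall (0 : Y) 1).linear_image Φ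
  have hOconv : Convex ℝ O := by
    have : O = ⋂ i, {v : ι → ℝ | c / 2 < v i} := by
      ext v; simp [O]
    rw [this]
    refine convex_iInter fun i => ?_
    intro x hx y hy a b ha hb hab
    simp only [mem_ofPred_eq, Pi.add_apply, Pi.smul_apply, smul_eq_mul] at *
    rcases eq_or_lt_of_le ha with h0 | h0
    · have hb1 : b = 1 := by linarith
      subst hb1; rw [← h0]; linarith
    · have h1 : a * (c / 2) < a * x i := by
        exact mul_lt_mul_of_pos_left hx h0
      have h2 : b * (c / 2) ≤ b * y i := mul_le_mul_of_nonneg_left hy.le hb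
      have h3 : a * (c / 2) + b * (c / 2) = c / 2 := by rw [← add_mul, hab, one_mul]
      linarith
  have hOopen : IsOpen O := by
    have : O = ⋂ i, {v : ι → ℝ | c / 2 < v i} := by
      ext v; simp [O]
    rw [this]
    exact isOpen_iInter_of_finite fun i => isOpen_lt continuous_const (continuous_apply i)
  have hdisj : Disjoint O K := by
    rw [Set.disjoint_left]
    rintro v hv ⟨y, hy, rfl⟩
    have hy1 : ‖y‖ ≤ 1 := by simpa using hy
    obtain ⟨i, hi⟩ := hcon y hy1
    have := hv i
    have h2 : Φ y i = φ i y := rfl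
    rw [h2] at this
    linarith
  obtain ⟨f, u, hfO, hfK⟩ := geometric_hahn_banach_open hOconv hOopen hKconv hdisj
  let a : ι → ℝ := fun i => f (Pi.single i 1)
  have hf : ∀ v : ι → ℝ, f v = ∑ i, a i * v i := by
    intro v
    have : v = ∑ i, v i • (Pi.single i (1 : ℝ) : ι → ℝ) := by
      ext j
      simp [Finset.sum_apply, Pi.single_apply]
    conv_lhs => rw [this]
    rw [map_sum]
    refine Finset.sum_congr rfl fun i _ => ?_
    rw [map_smul, smul_eq_mul, mul_comm]
  have ha : ∀ i, a i ≤ 0 := by
    intro i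
    by_contra hi
    push Not at hi
    set s : ℝ := ∑ j, a j * c with hs
    have hmem : ∀ t : ℝ, 0 ≤ t → (fun j => c + t * (Pi.single i (1 : ℝ) : ι → ℝ) j) ∈ O := by
      intro t ht j
      have : 0 ≤ (Pi.single i (1 : ℝ) : ι → ℝ) j := by
        by_cases hji : j = i
        · subst hji; simp
        · simp [Pi.single_eq_of_ne hji]
      have := mul_nonneg ht this
      show c / 2 < c + t * (Pi.single i (1 : ℝ) : ι → ℝ) j
      linarith
    have h1 := hfO _ (hmem (|u - s| / a i) (div_nonneg (abs_nonneg _) hi.le))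
    rw [hf] at h1
    have h2 : ∑ j, a j * (c + |u - s| / a i * (Pi.single i (1 : ℝ) : ι → ℝ) j)
        = s + |u - s| := by
      have : ∀ j, a j * (c + |u - s| / a i * (Pi.single i (1 : ℝ) : ι → ℝ) j)
          = a j * c + a j * (|u - s| / a i) * (Pi.single i (1 : ℝ) : ι → ℝ) j := by
        intro j; ring
      rw [Finset.sum_congr rfl fun j _ => this j, Finset.sum_add_distrib]
      congr 1
      rw [Finset.sum_eq_single i]
      · simp only [Pi.single_eq_same, mul_one]
        field_simp
      · intro j _ hj
        simp [Pi.single_eq_of_ne hj]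
      · intro h; exact absurd (Finset.mem_univ i) h
    rw [h2] at h1
    have := le_abs_self (u - s)
    linarith
  have habs : ∀ i, |a i| = - a i := fun i => abs_of_nonpos (ha i)
  -- the constant function `c` lies in `O`
  have hcO : (fun _ : ι => c) ∈ O := fun i => by show c / 2 < c; linarith
  have h1 := hfO _ hcO
  rw [hf] at h1
  have h1' : ∑ i, a i * c = - (c * ∑ i, |a i|) := by
    rw [Finset.mul_sum, ← Finset.sum_neg_distrib]
    refine Finset.sum_congr rfl fun i _ => ?_
    rw [habs i]; ring
  rw [h1'] at h1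
  have hg : ∀ y : Y, ‖y‖ ≤ 1 → u ≤ (∑ i, a i • φ i) y := by
    intro y hy
    have h := hfK (Φ y) ⟨y, by simpa using hy, rfl⟩
    rw [hf] at h
    have : (∑ i, a i • φ i) y = ∑ i, a i * φ i y := by
      simp
    rw [this]
    exact h
  have hu : 0 ≤ -u := by
    have := hg 0 (by simp)
    simp at this
    linarith
  have hnorm : ‖∑ i, a i • φ i‖ ≤ -u := by
    refine ContinuousLinearMap.opNorm_le_of_unit_norm hu ?_
    intro y hy
    rw [Real.norm_eq_abs, abs_le]
    constructor
    · have := hg y hy.le
      linarith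
    · have := hg (-y) (by rw [norm_neg]; exact hy.le)
      rw [map_neg] at this
      linarith
  have h3 := hφ a
  linarith

end Pool.Agent.W6h79.LD
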