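import Pool.Agent.W6h79.LD.Defs

/-! (B) Hahn decomposition for a functional on `L¹`. -/

open MeasureTheory Set Filter
open scoped ENNReal NNReal Topology symmDiff

noncomputable section

namespace Pool.Agent.W6h79.LD

theorem B.ind_eq.{u} {Ω : Type u} [MeasurableSpace Ω] {μ : Measure Ω} {A : Set Ω}
    (h : MeasurableSet A) (h' : μ A ≠ ∞) : ind μ A = indicatorConstLp 1 h h' (1 : ℝ) := by
  unfold ind
  rw [dif_pos ⟨h, h'⟩]

theorem B.ind_empty.{u} {Ω : Type u} [MeasurableSpace Ω] {μ : Measure Ω} : ind μ (∅ : Set Ω) = 0 := by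
  rw [B.ind_eq MeasurableSet.empty (by simp)]
  exact indicatorConstLp_empty

theorem B.ind_union.{u} {Ω : Type u} [MeasurableSpace Ω] {μ : Measure Ω} {A D : Set Ω}
    (hA : MeasurableSet A) (hA' : μ A ≠ ∞) (hD : MeasurableSet D) (hD' : μ D ≠ ∞)
    (h : Disjoint A D) : ind μ (A ∪ D) = ind μ A + ind μ D := by
  have hAD : μ (A ∪ D) ≠ ∞ := (measure_union_lt_top hA'.lt_top hD'.lt_top).ne
  rw [B.ind_eq hA hA', B.ind_eq hD hD', B.ind_eq (hA.union hD) hAD]
  exact indicatorConstLp_disjoint_union hA hD hA' hD' h 1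

theorem B.ind_null.{u} {Ω : Type u} [MeasurableSpace Ω] {μ : Measure Ω} {A : Set Ω}
    (h : μ A = 0) : ind μ A = 0 := by
  unfold ind
  split_ifs with h1
  · rw [← norm_eq_zero, norm_indicatorConstLp (by simp) (by simp), measureReal_def, h]
    simp
  · rfl

/-- Indicators are countably additive in `L¹` inside a set of finite measure. -/
theorem B.hasSum_ind.{u} {Ω : Type u} [MeasurableSpace Ω] {μ : Measure Ω} {A : Set Ω}
    (hA : MeasurableSet A) (hA' : μ A ≠ ∞) (f : ℕ → Set Ω) (hf : ∀ i, MeasurableSet (f i))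
    (hd : Pairwise (Function.onFun Disjoint f)) :
    HasSum (fun i => ind μ (A ∩ f i)) (ind μ (A ∩ ⋃ i, f i)) := by
  have hfin : ∀ B : Set Ω, μ (A ∩ B) ≠ ∞ := fun B =>
    ((measure_mono Set.inter_subset_left).trans_lt hA'.lt_top).ne
  have hsum : ∀ s : Finset ℕ, ∑ i ∈ s, ind μ (A ∩ f i) = ind μ (A ∩ ⋃ i ∈ s, f i) := by
    intro s
    induction s using Finset.induction_on with
    | empty => simp [B.ind_empty]
    | insert i s his ih =>
      rw [Finset.sum_insert his, ih, Finset.set_biUnion_insert, Set.inter_union_distrib_left,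
        B.ind_union (hA.inter (hf i)) (hfin _)
          (hA.inter (Finset.measurableSet_biUnion s fun j _ => hf j)) (hfin _)]
      rw [Set.disjoint_left]
      rintro x ⟨_, hx⟩ ⟨_, hx'⟩
      rw [Set.mem_iUnion₂] at hx'
      obtain ⟨j, hj, hxj⟩ := hx'
      have hij : i ≠ j := by rintro rfl; exact his hj
      exact (Set.disjoint_left.mp (hd hij)) hx hxj
  unfold HasSum
  simp only [SummationFilter.unconditional_filter]
  have e1 : (fun s : Finset ℕ => ∑ i ∈ s, ind μ (A ∩ f i)) = fun s : Finset ℕ =>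
      indicatorConstLp 1 (hA.inter (Finset.measurableSet_biUnion s fun j _ => hf j))
        (hfin (⋃ i ∈ s, f i)) (1 : ℝ) := by
    ext1 s
    rw [hsum s, B.ind_eq]
  rw [e1, B.ind_eq (hA.inter (MeasurableSet.iUnion hf)) (hfin _)]
  apply tendsto_indicatorConstLp_set (by simp)
  -- the measure of the rest tends to zero
  have hμ : HasSum (fun i => μ (A ∩ f i)) (μ (A ∩ ⋃ i, f i)) := by
    rw [Set.inter_iUnion, measure_iUnion]
    · exact ENNReal.summable.hasSum
    · intro i j hij
      exact (hd hij).mono Set.inter_subset_right Set.inter_subset_right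
    · exact fun i => hA.inter (hf i)
  have hμs : ∀ s : Finset ℕ, μ (A ∩ ⋃ i ∈ s, f i) = ∑ i ∈ s, μ (A ∩ f i) := by
    intro s
    rw [Set.inter_iUnion₂, measure_biUnion_finset]
    · intro i _ j _ hij
      exact (hd hij).mono Set.inter_subset_right Set.inter_subset_right
    · exact fun i _ => hA.inter (hf i)
  have hdiff : ∀ s : Finset ℕ, μ ((A ∩ ⋃ i ∈ s, f i) ∆ (A ∩ ⋃ i, f i)) =
      μ (A ∩ ⋃ i, f i) - ∑ i ∈ s, μ (A ∩ f i) := by
    intro s
    have hsub : (A ∩ ⋃ i ∈ s, f i) ⊆ (A ∩ ⋃ i, f i) := by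
      apply Set.inter_subset_inter_right
      exact Set.iUnion₂_subset fun i _ => Set.subset_iUnion f i
    rw [symmDiff_of_le hsub]
    rw [measure_sdiff hsub (hA.inter (Finset.measurableSet_biUnion s fun j _ => hf j)).nullMeasurableSet
      (hfin _), hμs]
  simp only [hdiff]
  have h0 : Tendsto (fun s : Finset ℕ => μ (A ∩ ⋃ i, f i) - ∑ i ∈ s, μ (A ∩ f i)) atTop
      (𝓝 (μ (A ∩ ⋃ i, f i) - μ (A ∩ ⋃ i, f i))) := by
    apply ENNReal.Tendsto.sub tendsto_const_nhds _ (Or.inl (hfin _))
    simpa [HasSum] using hμ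
  simpa using h0

theorem sB.{u} : S_B.{u} := by
  intro Ω _ μ L A t hA hA' hlt
  classical
  have hfin : ∀ B : Set Ω, μ (A ∩ B) ≠ ∞ := fun B =>
    ((measure_mono Set.inter_subset_left).trans_lt hA'.lt_top).ne
  let ν : SignedMeasure Ω :=
    { measureOf' := fun B => if MeasurableSet B then
        L (ind μ (A ∩ B)) - t * (μ (A ∩ B)).toReal else 0
      empty' := by simp [B.ind_empty]
      not_measurable' := fun B hB => by simp [hB]
      m_iUnion' := by
        intro f hf hd
        have h1 : HasSum (fun i => L (ind μ (A ∩ f i))) (L (ind μ (A ∩ ⋃ i, f i))) :=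
          L.hasSum (B.hasSum_ind hA hA' f hf hd)
        have h2 : HasSum (fun i => (μ (A ∩ f i)).toReal) (μ (A ∩ ⋃ i, f i)).toReal := by
          have hμ : μ (A ∩ ⋃ i, f i) = ∑' i, μ (A ∩ f i) := by
            rw [Set.inter_iUnion, measure_iUnion]
            · intro i j hij
              exact (hd hij).mono Set.inter_subset_right Set.inter_subset_right
            · exact fun i => hA.inter (hf i)
          rw [hμ, ENNReal.tsum_toReal_eq (fun i => hfin _)]
          apply Summable.hasSum
          apply ENNReal.summable_toReal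
          rw [← hμ]
          exact hfin _
        simp only [hf, MeasurableSet.iUnion hf, if_true]
        exact h1.sub (h2.mul_left t) }
  have hν : ∀ B : Set Ω, MeasurableSet B → ν B = L (ind μ (A ∩ B)) - t * (μ (A ∩ B)).toReal := by
    intro B hB
    change (if MeasurableSet B then L (ind μ (A ∩ B)) - t * (μ (A ∩ B)).toReal else 0) = _
    rw [if_pos hB]
  obtain ⟨i, hi, hpos, hneg⟩ := SignedMeasure.exists_compl_positive_negative ν
  have hsub : ∀ B ⊆ i, MeasurableSet B → 0 ≤ ν B := fun B hB _ => by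
    have := VectorMeasure.subset_le_of_restrict_le_restrict 0 ν hi hpos hB
    simpa using this
  have hcompl : ν iᶜ ≤ 0 := by
    have := VectorMeasure.subset_le_of_restrict_le_restrict ν 0 hi.compl hneg (le_refl _)
    simpa using this
  have htot : ν univ = ν i + ν iᶜ := by
    rw [← VectorMeasure.of_union disjoint_compl_right hi hi.compl, Set.union_compl_self]
  have hu : 0 < ν univ := by
    rw [hν univ MeasurableSet.univ, Set.inter_univ]
    linarith
  have hipos : 0 < ν i := by linarith
  refine ⟨A ∩ i, Set.inter_subset_left, hA.inter hi, ?_, ?_⟩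
  · rw [pos_iff_ne_zero]
    intro h0
    rw [hν i hi, B.ind_null h0, h0] at hipos
    simp at hipos
  · intro B hB hBm
    have h1 := hsub B (hB.trans Set.inter_subset_right) hBm
    rw [hν B hBm, Set.inter_eq_self_of_subset_right (hB.trans Set.inter_subset_left)] at h1
    linarith

end Pool.Agent.W6h79.LD
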