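import Pool.Agent.W6h79.LD.Defs

/-!
(C) From an isomorphic embedding of `L¹` of a nonatomic set in `Y*` to an `ℓ¹`-sequence in `Y`
(dyadic tree).
-/

open MeasureTheory Set Filter
open scoped ENNReal NNReal Topology

noncomputable section

namespace Pool.Agent.W6h79.LD

universe u v

namespace CTree

variable {Ω : Type u} [MeasurableSpace Ω] (μ : Measure Ω) (E : Set Ω)

/-- Level `n` of the tree. -/
structure Lvl (n : ℕ) where
  A : (Fin n → Bool) → Set Ω
  meas : ∀ s, MeasurableSet (A s)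
  pos : ∀ s, 0 < μ (A s)
  fin : ∀ s, μ (A s) < ∞
  sub : ∀ s, A s ⊆ E
  disj : ∀ s t, s ≠ t → Disjoint (A s) (A t)

/-- The relation between two levels. -/
def Rel {Y : Type v} [NormedAddCommGroup Y] [NormedSpace ℝ Y]
    (T : Lp ℝ 1 μ →L[ℝ] StrongDual ℝ Y) (c : ℝ) {n : ℕ} (L : Lvl μ E n) (L' : Lvl μ E (n + 1))
    (y : Y) : Prop :=
  ‖y‖ ≤ 1 ∧ ∀ s : Fin (n + 1) → Bool, L'.A s ⊆ L.A (fun i => s i.castSucc) ∧
    ∀ B ⊆ L'.A s, MeasurableSet B →
      c / 4 * (μ B).toReal ≤ sgn (s (Fin.last n)) * (T (ind μ B)) y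

lemma step (h : S_C1.{u, v}) {Y : Type v} [NormedAddCommGroup Y] [NormedSpace ℝ Y]
    (T : Lp ℝ 1 μ →L[ℝ] StrongDual ℝ Y) (c : ℝ) (hc : 0 < c) (hT : ∀ f, c * ‖f‖ ≤ ‖T f‖)
    (hE : ∀ A ⊆ E, ¬ AtomSet μ A) {n : ℕ} (L : Lvl μ E n) :
    ∃ (p : Lvl μ E (n + 1) × Y), Rel μ E T c L p.1 p.2 := by
  obtain ⟨y, P, hy, hP, hd, hin⟩ := h Ω μ Y T c hc hT (Fin n → Bool) L.A
    (fun i => ⟨L.meas i, L.pos i, L.fin i, hE _ (L.sub i)⟩) L.disj
  refine ⟨⟨⟨fun s => P (fun i => s i.castSucc) (s (Fin.last n)), ?_, ?_, ?_, ?_, ?_⟩, y⟩, hy, ?_⟩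
  · intro s
    exact (hP _ _).2.1
  · intro s
    exact (hP _ _).2.2
  · intro s
    exact lt_of_le_of_lt (measure_mono (hP _ _).1) (L.fin _)
  · intro s
    exact (hP _ _).1.trans (L.sub _)
  · intro s t hst
    by_cases h1 : (fun i : Fin n => s i.castSucc) = fun i => t i.castSucc
    · have h2 : s (Fin.last n) ≠ t (Fin.last n) := by
        intro h3
        apply hst
        funext i
        refine Fin.lastCases h3 (fun j => ?_) i
        exact congrFun h1 j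
      show Disjoint (P (fun i => s i.castSucc) (s (Fin.last n)))
        (P (fun i => t i.castSucc) (t (Fin.last n)))
      rw [h1]
      rcases hs : s (Fin.last n) with _ | _ <;> rcases ht : t (Fin.last n) with _ | _
      · exact absurd (hs.trans ht.symm) h2
      · exact (hd _).symm
      · exact hd _
      · exact absurd (hs.trans ht.symm) h2
    · exact (L.disj _ _ h1).mono (hP _ _).1 (hP _ _).1
  · intro s
    exact ⟨(hP _ _).1, hin _ _⟩

end CTree

open CTree in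
theorem sC (h : S_C1.{u, v}) : S_C.{u, v} := by
  intro Ω _ μ Y _ _ T c hc hT E hEm hEpos hEfin hE
  classical
  choose nxt hnxt using fun (n : ℕ) (L : Lvl μ E n) => step μ E h T c hc hT hE L
  let L0 : Lvl μ E 0 := ⟨fun _ => E, fun _ => hEm, fun _ => hEpos, fun _ => hEfin,
    fun _ => subset_rfl, fun s t hst => absurd (Subsingleton.elim s t) hst⟩
  let L : ∀ n, Lvl μ E n := fun n => Nat.rec L0 (fun n s => (nxt n s).1) n
  have hL : ∀ n, L (n + 1) = (nxt n (L n)).1 := fun n => rfl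
  have hR : ∀ n, Rel μ E T c (L n) (L (n + 1)) (nxt n (L n)).2 := by
    intro n
    rw [hL n]
    exact hnxt n (L n)
  refine ⟨fun n => (nxt n (L n)).2, c / (4 * (‖T‖ + 1)), by positivity, fun i => (hR i).1, ?_⟩
  intro J a
  set y : ℕ → Y := fun n => (nxt n (L n)).2 with hy
  let s : ℕ → Bool := fun i => decide (0 ≤ a i)
  let B : ℕ → Set Ω := fun n => (L n).A (fun i : Fin n => s i)
  have hB : ∀ n, B (n + 1) ⊆ B n := fun n => ((hR n).2 (fun i : Fin (n + 1) => s i)).1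
  have hanti : Antitone B := antitone_nat_of_succ_le hB
  let N : ℕ := J.sup id + 1
  have hBm : MeasurableSet (B N) := (L N).meas _
  have hBpos : 0 < μ (B N) := (L N).pos _
  have hBfin : μ (B N) ≠ ∞ := ((L N).fin _).ne
  have hm : 0 < (μ (B N)).toReal := ENNReal.toReal_pos hBpos.ne' hBfin
  have key : ∀ i ∈ J, c / 4 * (μ (B N)).toReal ≤ sgn (s i) * (T (ind μ (B N))) (y i) := by
    intro i hi
    have h1 : i + 1 ≤ N := Nat.succ_le_succ (Finset.le_sup (f := id) hi)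
    exact ((hR i).2 (fun j : Fin (i + 1) => s j)).2 (B N) (hanti h1) hBm
  have hnorm : ‖ind μ (B N)‖ = (μ (B N)).toReal := by
    unfold ind
    rw [dif_pos ⟨hBm, hBfin⟩, norm_indicatorConstLp one_ne_zero ENNReal.one_ne_top]
    simp [Measure.real]
  have habs : ∀ i, a i = |a i| * sgn (s i) := by
    intro i
    by_cases h0 : 0 ≤ a i
    · simp [s, sgn, h0, abs_of_nonneg h0]
    · simp [s, sgn, h0, abs_of_neg (lt_of_not_ge h0)]
  have h1 : (c / 4 * (μ (B N)).toReal) * ∑ i ∈ J, |a i| ≤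
      (T (ind μ (B N))) (∑ i ∈ J, a i • y i) := by
    rw [map_sum, Finset.mul_sum]
    refine Finset.sum_le_sum fun i hi => ?_
    rw [map_smul, smul_eq_mul]
    calc c / 4 * (μ (B N)).toReal * |a i| ≤
        (sgn (s i) * (T (ind μ (B N))) (y i)) * |a i| :=
          mul_le_mul_of_nonneg_right (key i hi) (abs_nonneg _)
      _ = a i * (T (ind μ (B N))) (y i) := by
          conv_rhs => rw [habs i]
          ring
  have h2 : (T (ind μ (B N))) (∑ i ∈ J, a i • y i) ≤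
      ‖T‖ * (μ (B N)).toReal * ‖∑ i ∈ J, a i • y i‖ := by
    calc (T (ind μ (B N))) (∑ i ∈ J, a i • y i) ≤ ‖(T (ind μ (B N))) (∑ i ∈ J, a i • y i)‖ :=
          Real.le_norm_self _
      _ ≤ ‖T (ind μ (B N))‖ * ‖∑ i ∈ J, a i • y i‖ := ContinuousLinearMap.le_opNorm _ _
      _ ≤ (‖T‖ * ‖ind μ (B N)‖) * ‖∑ i ∈ J, a i • y i‖ :=
          mul_le_mul_of_nonneg_right (ContinuousLinearMap.le_opNorm _ _) (norm_nonneg _)
      _ = _ := by rw [hnorm]
  have h3 : c / 4 * ∑ i ∈ J, |a i| ≤ ‖T‖ * ‖∑ i ∈ J, a i • y i‖ := by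
    have h4 : (c / 4 * ∑ i ∈ J, |a i|) * (μ (B N)).toReal ≤
        (‖T‖ * ‖∑ i ∈ J, a i • y i‖) * (μ (B N)).toReal := by
      linarith [h1.trans h2]
    exact le_of_mul_le_mul_right h4 hm
  have h5 : c / 4 * ∑ i ∈ J, |a i| ≤ (‖T‖ + 1) * ‖∑ i ∈ J, a i • y i‖ := by
    nlinarith [norm_nonneg (∑ i ∈ J, a i • y i)]
  have h6 : (0 : ℝ) < ‖T‖ + 1 := by positivity
  rw [show c / (4 * (‖T‖ + 1)) * ∑ i ∈ J, |a i| = (c / 4 * ∑ i ∈ J, |a i|) / (‖T‖ + 1) by
    field_simp]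
  rw [div_le_iff₀ h6]
  linarith

end Pool.Agent.W6h79.LD
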