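import Pool.Agent.W6h79.LD.Defs

/-!
# (C1) One step of the tree construction
-/

open MeasureTheory Set Filter
open scoped ENNReal NNReal Topology

noncomputable section

namespace Pool.Agent.W6h79.LD

universe u v

theorem ind_coe {Ω : Type u} [MeasurableSpace Ω] (μ : Measure Ω) {A : Set Ω}
    (hA : MeasurableSet A) (hf : μ A ≠ ∞) :
    (ind μ A : Ω → ℝ) =ᵐ[μ] A.indicator fun _ => (1 : ℝ) := by
  have e : ind μ A = indicatorConstLp 1 hA hf (1 : ℝ) := dif_pos ⟨hA, hf⟩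
  rw [e]
  exact indicatorConstLp_coeFn

/-- the norm of a combination of indicators of disjoint sets -/
theorem norm_sum_ind {Ω : Type u} [MeasurableSpace Ω] (μ : Measure Ω) {κ : Type} [Fintype κ]
    (Q : κ → Set Ω) (hQ : ∀ p, MeasurableSet (Q p) ∧ μ (Q p) ≠ ∞)
    (hd : ∀ p q, p ≠ q → Disjoint (Q p) (Q q)) (d : κ → ℝ) :
    ‖∑ p, d p • ind μ (Q p)‖ = ∑ p, |d p| * (μ (Q p)).toReal := by
  classical
  rw [L1.norm_eq_integral_norm]
  have h1 : ((∑ p, d p • ind μ (Q p) : Lp ℝ 1 μ) : Ω → ℝ) =ᵐ[μ]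
      fun ω => ∑ p, d p * (Q p).indicator (fun _ => (1 : ℝ)) ω := by
    have h2 := Lp.coeFn_finsetSum (p := 1) (μ := μ) Finset.univ (fun p => d p • ind μ (Q p))
    have h3 : ∀ p, ((d p • ind μ (Q p) : Lp ℝ 1 μ) : Ω → ℝ) =ᵐ[μ]
        fun ω => d p * (Q p).indicator (fun _ => (1 : ℝ)) ω := by
      intro p
      filter_upwards [Lp.coeFn_smul (d p) (ind μ (Q p)), ind_coe μ (hQ p).1 (hQ p).2] with ω h4 h5
      rw [h4, Pi.smul_apply, h5, smul_eq_mul]
    filter_upwards [h2, ae_all_iff.2 h3] with ω h4 h5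
    rw [h4, Finset.sum_apply]
    exact Finset.sum_congr rfl fun p _ => h5 p
  have h4 : ∫ ω, ‖(∑ p, d p • ind μ (Q p) : Lp ℝ 1 μ) ω‖ ∂μ =
      ∫ ω, ∑ p, |d p| * (Q p).indicator (fun _ => (1 : ℝ)) ω ∂μ := by
    apply integral_congr_ae
    filter_upwards [h1] with ω h5
    rw [h5, Real.norm_eq_abs]
    by_cases hω : ∃ p, ω ∈ Q p
    · obtain ⟨p, hp⟩ := hω
      have hne : ∀ q, q ≠ p → (Q q).indicator (fun _ => (1 : ℝ)) ω = 0 := by
        intro q hq
        apply indicator_of_notMem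
        intro hq'
        exact Set.disjoint_left.1 (hd q p hq) hq' hp
      rw [Finset.sum_eq_single p (fun q _ hq => by rw [hne q hq, mul_zero]) (by simp),
        Finset.sum_eq_single p (fun q _ hq => by rw [hne q hq, mul_zero]) (by simp),
        indicator_of_mem hp, mul_one, mul_one]
    · push Not at hω
      have hz : ∀ q, (Q q).indicator (fun _ => (1 : ℝ)) ω = 0 := fun q =>
        indicator_of_notMem (hω q) _
      simp [hz]
  rw [h4, integral_finsetSum]
  · refine Finset.sum_congr rfl fun p _ => ?_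
    rw [integral_const_mul, integral_indicator (hQ p).1]
    simp [Measure.real]
  · intro p _
    apply Integrable.const_mul
    rw [integrable_indicator_iff (hQ p).1]
    exact integrableOn_const (hQ p).2

theorem sC1 (hA : S_A.{v}) (hB : S_B.{u}) : S_C1.{u, v} := by
  intro Ω _ μ Y _ _ T c hc hT ι _ A hAi hAd
  classical
  -- split every set
  have hsplit : ∀ i, ∃ B ⊆ A i, MeasurableSet B ∧ μ B ≠ 0 ∧ μ (A i \ B) ≠ 0 := by
    intro i
    obtain ⟨h1, h2, h3, h4⟩ := hAi i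
    by_contra hcon
    push Not at hcon
    apply h4
    refine ⟨h1, h2, fun B hB hBm => ?_⟩
    by_cases h5 : μ B = 0
    · exact Or.inl h5
    · exact Or.inr (hcon B hB hBm h5)
  choose B hBA hBm hB0 hB1 using hsplit
  obtain ⟨Q, hQdef⟩ : ∃ Q : ι × Bool → Set Ω, ∀ p, Q p = if p.2 then B p.1 else A p.1 \ B p.1 :=
    ⟨_, fun p => rfl⟩
  have hQA : ∀ p, Q p ⊆ A p.1 := by
    intro p
    rw [hQdef]
    split_ifs
    · exact hBA _
    · exact diff_subset
  have hQm : ∀ p, MeasurableSet (Q p) := by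
    intro p
    rw [hQdef]
    split_ifs
    · exact hBm _
    · exact (hAi p.1).1.diff (hBm _)
  have hQf : ∀ p, μ (Q p) ≠ ∞ := fun p =>
    ((measure_mono (hQA p)).trans_lt (hAi p.1).2.2.1).ne
  have hQ0 : ∀ p, 0 < μ (Q p) := by
    intro p
    rw [hQdef]
    split_ifs
    · exact pos_iff_ne_zero.2 (hB0 _)
    · exact pos_iff_ne_zero.2 (hB1 _)
  have hQr : ∀ p, 0 < (μ (Q p)).toReal := fun p => ENNReal.toReal_pos (hQ0 p).ne' (hQf p)
  have hQd : ∀ p q, p ≠ q → Disjoint (Q p) (Q q) := by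
    rintro ⟨i, b⟩ ⟨j, b'⟩ hne
    by_cases hij : i = j
    · subst hij
      have hbb : b ≠ b' := fun h => hne (by rw [h])
      rw [hQdef, hQdef]
      cases b <;> cases b' <;> simp at hbb ⊢
      · exact disjoint_sdiff_left
      · exact disjoint_sdiff_right
    · exact (hAd i j hij).mono (hQA _) (hQA _)
  have hsgn : ∀ b, |sgn b| = 1 := by
    intro b
    cases b <;> simp [sgn]
  -- the functionals
  obtain ⟨φ, hφ⟩ : ∃ φ : ι × Bool → StrongDual ℝ Y,
      ∀ p, φ p = (sgn p.2 / (μ (Q p)).toReal) • T (ind μ (Q p)) := ⟨_, fun p => rfl⟩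
  have hlow : ∀ a : ι × Bool → ℝ, c * ∑ p, |a p| ≤ ‖∑ p, a p • φ p‖ := by
    intro a
    have h1 : ∑ p, a p • φ p = T (∑ p, (a p * (sgn p.2 / (μ (Q p)).toReal)) • ind μ (Q p)) := by
      rw [map_sum]
      refine Finset.sum_congr rfl fun p _ => ?_
      rw [hφ, map_smul, smul_smul]
    rw [h1]
    refine le_trans ?_ (hT _)
    rw [norm_sum_ind μ Q (fun p => ⟨hQm p, hQf p⟩) hQd]
    apply mul_le_mul_of_nonneg_left _ hc.le
    refine Finset.sum_le_sum fun p _ => le_of_eq ?_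
    rw [abs_mul, abs_div, hsgn, abs_of_pos (hQr p)]
    have := (hQr p).ne'
    field_simp
  obtain ⟨y, hy1, hy⟩ := hA Y (ι × Bool) φ c hc hlow
  have hval : ∀ p, c / 2 * (μ (Q p)).toReal ≤ sgn p.2 * (T (ind μ (Q p))) y := by
    intro p
    have h1 := hy p
    rw [hφ] at h1
    have h2 : (((sgn p.2 / (μ (Q p)).toReal) • T (ind μ (Q p))) : StrongDual ℝ Y) y =
        (sgn p.2 * (T (ind μ (Q p))) y) / (μ (Q p)).toReal := by
      rw [ContinuousLinearMap.smul_apply, smul_eq_mul]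
      ring
    rw [h2, le_div_iff₀ (hQr p)] at h1
    exact h1
  have hstep : ∀ p : ι × Bool, ∃ P : Set Ω, P ⊆ Q p ∧ MeasurableSet P ∧ 0 < μ P ∧
      ∀ B ⊆ P, MeasurableSet B → c / 4 * (μ B).toReal ≤ sgn p.2 * (T (ind μ B)) y := by
    intro p
    obtain ⟨P, h1, h2, h3, h4⟩ := hB Ω μ
      (sgn p.2 • ((ContinuousLinearMap.apply ℝ ℝ y).comp T)) (Q p) (c / 4) (hQm p) (hQf p) (by
        have := hval p
        have h5 := hQr p
        show c / 4 * (μ (Q p)).toReal < sgn p.2 * (T (ind μ (Q p))) y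
        nlinarith)
    exact ⟨P, h1, h2, h3, fun B hB hBm => h4 B hB hBm⟩
  choose P hP1 hP2 hP3 hP4 using hstep
  refine ⟨y, fun i b => P (i, b), hy1, fun i b => ⟨(hP1 (i, b)).trans (hQA (i, b)), hP2 _, hP3 _⟩,
    fun i => ?_, fun i b B hB hBm => hP4 (i, b) B hB hBm⟩
  exact (hQd (i, true) (i, false) (by simp)).mono (hP1 _) (hP1 _)

end Pool.Agent.W6h79.LD
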