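import Pool.Agent.W6h79.LD.Defs

/-!
# MP_3844f5_an : piece (E)

The family `v α k` (`α` a bit sequence, `k` a natural number): square-root upper estimates along `k`
and the exact lower `ℓ¹` estimate across different `α`.
-/

open MeasureTheory Set Filter
open scoped ENNReal NNReal Topology

noncomputable section

namespace Pool.Agent.W6h79.LD

namespace PE

/-- Finitely many bit sequences are separated by a finite initial segment. -/
theorem exists_sep (A : Finset (ℕ → Bool)) :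
    ∃ N : ℕ, ∀ α ∈ A, ∀ α' ∈ A,
      (fun j : Fin N => α j) = (fun j : Fin N => α' j) → α = α' := by
  classical
  have h1 : ∀ p : (ℕ → Bool) × (ℕ → Bool), ∃ n : ℕ, p.1 ≠ p.2 → p.1 n ≠ p.2 n := by
    intro p
    by_cases h : p.1 = p.2
    · exact ⟨0, fun h' => absurd h h'⟩
    · obtain ⟨n, hn⟩ := Function.ne_iff.1 h
      exact ⟨n, fun _ => hn⟩
  choose n hn using h1
  refine ⟨(A ×ˢ A).sup n + 1, ?_⟩
  intro α hα α' hα' he
  by_contra hne
  have hm : (α, α') ∈ A ×ˢ A := Finset.mem_product.2 ⟨hα, hα'⟩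
  have hle : n (α, α') ≤ (A ×ˢ A).sup n := Finset.le_sup (f := n) hm
  have := congrFun he ⟨n (α, α'), by omega⟩
  exact hn (α, α') hne this

/-- The index type of the test vectors. -/
abbrev Q : Type := Σ N : ℕ, ((Fin N → Bool) → ℕ × Bool)

theorem exists_inj : ∃ f : Q → ℕ, Function.Injective f := by
  have : Countable Q := inferInstance
  exact exists_injective_nat Q

/-- The value of the functional `x α β` at the test vector `q`. -/
def val (α β : ℕ → Bool) (q : Q) : ℝ :=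
  sgn (q.2 (fun j => α j)).2 * sgn (β (q.2 (fun j => α j)).1)

theorem abs_sgn (b : Bool) : |sgn b| = 1 := by
  cases b <;> simp [sgn]

theorem abs_val_le (α β : ℕ → Bool) (q : Q) : |val α β q| ≤ 1 := by
  rw [val, abs_mul, abs_sgn, abs_sgn, one_mul]

theorem mul_sgn (c : ℝ) : c * sgn (decide (0 ≤ c)) = |c| := by
  by_cases h : 0 ≤ c
  · simp [sgn, h, abs_of_nonneg h]
  · have h' : c < 0 := not_le.1 h
    simp [sgn, h, abs_of_neg h']

end PE

open PE in
theorem sE.{v} (h : S_E1.{v}) : S_E.{v} := by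
  classical
  intro Y _ _ y K hy hext
  obtain ⟨f, hf⟩ := exists_inj
  have h1 : ∀ α β : ℕ → Bool, ∃ x : StrongDual ℝ Y, ‖x‖ ≤ K ∧
      ∀ q : Q, x (y (f q)) = val α β q := by
    intro α β
    obtain ⟨x, hx, hx'⟩ := hext (Function.extend f (val α β) 0) (by
      intro i
      by_cases hi : ∃ q, f q = i
      · obtain ⟨q, rfl⟩ := hi
        rw [hf.extend_apply]
        exact abs_val_le α β q
      · rw [Function.extend_apply' _ _ _ hi]
        simp)
    refine ⟨x, hx, fun q => ?_⟩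
    rw [hx', hf.extend_apply]
  choose x hx hx' using h1
  have h2 : ∀ α : ℕ → Bool, ∃ v : ℕ → StrongDual ℝ Y,
      (∀ (J : Finset ℕ) (ε : ℕ → ℝ), (∀ k, |ε k| ≤ 1) →
        ‖∑ k ∈ J, ε k • v k‖ ≤ K * Real.sqrt J.card) ∧
      ∀ (y : Y) (s : ℝ) (m : ℕ), (∀ β, x α β y = s * sgn (β m)) →
        ∀ k, v k y = if k = m then s else 0 := fun α => h Y (x α) K (hx α)
  choose v hv1 hv2 using h2
  refine ⟨v, hv1, ?_⟩
  intro A k c
  obtain ⟨N, hN⟩ := exists_sep A
  -- the test function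
  have h3 : ∃ g : (Fin N → Bool) → ℕ × Bool, ∀ α ∈ A,
      g (fun j => α j) = (k α, decide (0 ≤ c α)) := by
    refine ⟨fun r => if hr : ∃ α ∈ A, (fun j : Fin N => α j) = r then
      (k hr.choose, decide (0 ≤ c hr.choose)) else (0, true), ?_⟩
    intro α hα
    have hr : ∃ α' ∈ A, (fun j : Fin N => α' j) = (fun j : Fin N => α j) := ⟨α, hα, rfl⟩
    have hc : hr.choose = α := hN _ hr.choose_spec.1 _ hα hr.choose_spec.2
    simp only
    rw [dif_pos hr, hc]
  obtain ⟨g, hg⟩ := h3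
  set q : Q := ⟨N, g⟩ with hq
  have h4 : ∀ α ∈ A, v α (k α) (y (f q)) = sgn (decide (0 ≤ c α)) := by
    intro α hα
    have := hv2 α (y (f q)) (sgn (decide (0 ≤ c α))) (k α) (by
      intro β
      rw [hx' α β q, val]
      have : q.2 (fun j => α j) = (k α, decide (0 ≤ c α)) := hg α hα
      rw [this]) (k α)
    simpa using this
  have h5 : (∑ α ∈ A, c α • v α (k α)) (y (f q)) = ∑ α ∈ A, |c α| := by
    rw [ContinuousLinearMap.sum_apply]
    refine Finset.sum_congr rfl fun α hα => ?_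
    rw [ContinuousLinearMap.smul_apply, h4 α hα, smul_eq_mul, mul_sgn]
  calc ∑ α ∈ A, |c α| = (∑ α ∈ A, c α • v α (k α)) (y (f q)) := h5.symm
    _ ≤ ‖(∑ α ∈ A, c α • v α (k α)) (y (f q))‖ := Real.le_norm_self _
    _ ≤ ‖∑ α ∈ A, c α • v α (k α)‖ * ‖y (f q)‖ := ContinuousLinearMap.le_opNorm _ _
    _ ≤ ‖∑ α ∈ A, c α • v α (k α)‖ * 1 :=
        mul_le_mul_of_nonneg_left (hy _) (norm_nonneg _)
    _ = ‖∑ α ∈ A, c α • v α (k α)‖ := mul_one _

end Pool.Agent.W6h79.LD
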