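import Pool.Agent.W6h79.LD.Defs

/-! Piece (F): a Schur-type lemma in `ℓ¹` (gliding hump). -/

open MeasureTheory Set Filter
open scoped ENNReal NNReal Topology

noncomputable section

namespace Pool.Agent.W6h79.LD

namespace PF

theorem exists_sqrt_lt {x C : ℝ} (hx : 0 < x) : ∃ m : ℕ, C * Real.sqrt m < x * m := by
  obtain ⟨n, hn⟩ := exists_nat_gt (|C| / x)
  refine ⟨(n + 1) ^ 2, ?_⟩
  have h0 : Real.sqrt (((n + 1) ^ 2 : ℕ) : ℝ) = n + 1 := by
    push_cast
    rw [Real.sqrt_sq (by positivity)]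
  rw [h0]
  push_cast
  rw [div_lt_iff₀ hx] at hn
  have h1 := le_abs_self C
  have h2 : C < x * (n + 1) := by nlinarith
  have h3 : (0 : ℝ) < n + 1 := by positivity
  nlinarith [mul_lt_mul_of_pos_right h2 h3]

section

variable {a : ℕ → ℕ → ℝ} {C : ℝ} (hs : ∀ k, Summable fun i => |a k i|)
  (h : ∀ (J : Finset ℕ) (ε : ℕ → ℝ), (∀ k, |ε k| ≤ 1) →
      ∑' i, |∑ k ∈ J, ε k * a k i| ≤ C * Real.sqrt J.card)

include hs in
theorem summable_comb (J : Finset ℕ) (ε : ℕ → ℝ) (hε : ∀ k, |ε k| ≤ 1) :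
    Summable fun i => |∑ k ∈ J, ε k * a k i| := by
  refine Summable.of_nonneg_of_le (fun i => abs_nonneg _) (fun i => ?_)
    (summable_sum (s := J) fun k _ => hs k)
  refine (Finset.abs_sum_le_sum_abs _ _).trans (Finset.sum_le_sum fun k _ => ?_)
  rw [abs_mul]
  exact mul_le_of_le_one_left (abs_nonneg _) (hε k)

include hs h in
theorem column (i : ℕ) : Tendsto (fun k => |a k i|) atTop (𝓝 0) := by
  rw [← Nat.cofinite_eq_atTop, Metric.tendsto_nhds]
  intro ρ hρ
  rw [Filter.eventually_cofinite]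
  by_contra hinf
  have hinf' : {k | ρ ≤ |a k i|}.Infinite := by
    refine Set.Infinite.mono ?_ hinf
    intro k hk
    simp only [mem_ofPred_eq, dist_zero_right, Real.norm_eq_abs, abs_abs, not_lt] at hk ⊢
    exact hk
  obtain ⟨m, hm⟩ := exists_sqrt_lt (C := C) hρ
  obtain ⟨J, hJ, hJm⟩ := hinf'.exists_subset_card_eq m
  have h1 := h J (fun k => if 0 ≤ a k i then 1 else -1) (fun k => by split_ifs <;> simp)
  have h2 := (summable_comb hs J (fun k => if 0 ≤ a k i then (1 : ℝ) else -1)
    (fun k => by split_ifs <;> simp)).le_tsum i (fun _ _ => abs_nonneg _)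
  have h3 : ∑ k ∈ J, (if 0 ≤ a k i then (1 : ℝ) else -1) * a k i = ∑ k ∈ J, |a k i| := by
    refine Finset.sum_congr rfl fun k _ => ?_
    split_ifs with hk
    · rw [one_mul, abs_of_nonneg hk]
    · rw [neg_one_mul, abs_of_neg (not_le.1 hk)]
  have h4 : ρ * m ≤ ∑ k ∈ J, |a k i| := by
    have := Finset.card_nsmul_le_sum J (fun k => |a k i|) ρ (fun k hk => hJ hk)
    rw [hJm, nsmul_eq_mul] at this
    linarith [mul_comm ρ (m : ℝ)]
  have h5 : ∑ k ∈ J, |a k i| ≤ |∑ k ∈ J, (if 0 ≤ a k i then (1 : ℝ) else -1) * a k i| := by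
    rw [h3]; exact le_abs_self _
  rw [hJm] at h1
  have h6 := h5.trans (h2.trans h1)
  linarith

include hs h in
theorem exists_small_head {η : ℝ} (hη : 0 < η) (n : ℕ) : ∃ k, ∑ i ∈ Finset.range n, |a k i| ≤ η := by
  have h1 : Tendsto (fun k => ∑ i ∈ Finset.range n, |a k i|) atTop
      (𝓝 (∑ i ∈ Finset.range n, (0 : ℝ))) :=
    tendsto_finsetSum _ fun i _ => column hs h i
  rw [Finset.sum_const_zero] at h1
  obtain ⟨k, hk⟩ := (h1.eventually (gt_mem_nhds hη)).exists
  exact ⟨k, hk.le⟩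

include hs in
theorem exists_tail {η : ℝ} (hη : 0 < η) (k n : ℕ) :
    ∃ N, n ≤ N ∧ (∑' i, |a k i|) - η ≤ ∑ i ∈ Finset.range N, |a k i| := by
  have h1 := (hs k).hasSum.tendsto_sum_nat
  have h2 := h1.eventually (lt_mem_nhds (show (∑' i, |a k i|) - η < ∑' i, |a k i| by linarith))
  obtain ⟨N, hN, hN'⟩ := ((eventually_ge_atTop n).and h2).exists
  exact ⟨N, hN, hN'.le⟩

end

/-- pointwise inequality for disjoint blocks -/
theorem pointwise {m : ℕ} (b : ℕ → ℝ) (B : ℕ → Prop) [DecidablePred B]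
    (hB : ∀ j < m, ∀ l < m, B j → B l → j = l) :
    ∑ j ∈ Finset.range m, ((if B j then 2 * |b j| else 0) - |b j|) ≤
      |∑ j ∈ Finset.range m, b j| := by
  by_cases hex : ∃ j ∈ Finset.range m, B j
  · obtain ⟨j, hj, hBj⟩ := hex
    rw [← Finset.add_sum_erase _ _ hj, ← Finset.add_sum_erase _ (fun j => b j) hj, if_pos hBj]
    have h1 : ∑ l ∈ (Finset.range m).erase j, ((if B l then 2 * |b l| else 0) - |b l|) =
        - ∑ l ∈ (Finset.range m).erase j, |b l| := by
      rw [← Finset.sum_neg_distrib]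
      refine Finset.sum_congr rfl fun l hl => ?_
      rw [Finset.mem_erase, Finset.mem_range] at hl
      rw [if_neg, zero_sub]
      intro hBl
      exact hl.1 (hB l hl.2 j (Finset.mem_range.1 hj) hBl hBj)
    rw [h1]
    have h2 := Finset.abs_sum_le_sum_abs (fun l => b l) ((Finset.range m).erase j)
    have h3 : |b j| ≤ |b j + ∑ l ∈ (Finset.range m).erase j, b l| +
        |∑ l ∈ (Finset.range m).erase j, b l| := by
      have := abs_sub (b j + ∑ l ∈ (Finset.range m).erase j, b l)
        (∑ l ∈ (Finset.range m).erase j, b l)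
      rwa [add_sub_cancel_right] at this
    linarith
  · push Not at hex
    refine le_trans (Finset.sum_nonpos fun j hj => ?_) (abs_nonneg _)
    rw [if_neg (hex j hj)]
    have := abs_nonneg (b j)
    linarith

end PF

open PF in
theorem sF : S_F := by
  intro a C hs h η hη
  by_contra hcon
  push Not at hcon
  have hη8 : 0 < η / 8 := by positivity
  choose κ hκ using fun n => exists_small_head hs h hη8 n
  choose N hN hN' using fun n => exists_tail hs hη8 (κ n) n
  let g : ℕ → ℕ := fun j => Nat.rec 0 (fun _ n => N n) j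
  have hg0 : g 0 = 0 := rfl
  have hgs : ∀ j, g (j + 1) = N (g j) := fun j => rfl
  have hmono : Monotone g := monotone_nat_of_le_succ fun j => by rw [hgs]; exact hN _
  -- distinct rows
  have hinj : Function.Injective fun j => κ (g j) := by
    have key : ∀ j l, j < l → κ (g j) ≠ κ (g l) := by
      intro j l hjl heq
      have h1 := hκ (g l)
      have h2 := hN' (g j)
      have h3 := hcon (κ (g j))
      rw [← hgs] at h2
      have h4 : ∑ i ∈ Finset.range (g (j + 1)), |a (κ (g j)) i| ≤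
          ∑ i ∈ Finset.range (g l), |a (κ (g j)) i| :=
        Finset.sum_le_sum_of_subset_of_nonneg
          (Finset.range_subset_range.2 (hmono (Nat.succ_le_of_lt hjl))) fun _ _ _ => abs_nonneg _
      rw [← heq] at h1
      linarith
    intro j l hjl
    rcases lt_trichotomy j l with h1 | h1 | h1
    · exact absurd hjl (key j l h1)
    · exact h1
    · exact absurd hjl.symm (key l j h1)
  -- the block mass
  have hblock : ∀ j, (∑' i, |a (κ (g j)) i|) - η / 4 ≤
      ∑ i ∈ Finset.Ico (g j) (g (j + 1)), |a (κ (g j)) i| := by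
    intro j
    have h1 := hκ (g j)
    have h2 := hN' (g j)
    rw [← hgs] at h2
    have h3 := Finset.sum_range_add_sum_Ico (fun i => |a (κ (g j)) i|)
      (hmono (Nat.le_succ j) : g j ≤ g (j + 1))
    linarith
  obtain ⟨m, hm⟩ := exists_sqrt_lt (x := η / 2) (C := C) (by positivity)
  have h1 := h ((Finset.range m).image fun j => κ (g j)) (fun _ => 1) (fun _ => by simp)
  rw [Finset.card_image_of_injective _ hinj, Finset.card_range] at h1
  have h2 : ∀ i, ∑ k ∈ (Finset.range m).image (fun j => κ (g j)), (1 : ℝ) * a k i =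
      ∑ j ∈ Finset.range m, a (κ (g j)) i := by
    intro i
    rw [Finset.sum_image fun x _ y _ hxy => hinj hxy]
    simp
  have hsum := summable_comb hs ((Finset.range m).image fun j => κ (g j)) (fun _ => (1 : ℝ))
    (fun _ => by simp)
  simp only [h2] at h1 hsum
  -- the lower bound
  have hB : ∀ i, ∀ j < m, ∀ l < m, (i ∈ Finset.Ico (g j) (g (j + 1))) →
      (i ∈ Finset.Ico (g l) (g (l + 1))) → j = l := by
    intro i j _ l _ hj hl
    rw [Finset.mem_Ico] at hj hl
    by_contra hne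
    rcases lt_or_gt_of_ne hne with hlt | hlt
    · have := hmono (Nat.succ_le_of_lt hlt)
      simp only [Nat.succ_eq_add_one] at this
      omega
    · have := hmono (Nat.succ_le_of_lt hlt)
      simp only [Nat.succ_eq_add_one] at this
      omega
  have h3 : ∀ i, ∑ j ∈ Finset.range m,
      ((if i ∈ Finset.Ico (g j) (g (j + 1)) then 2 * |a (κ (g j)) i| else 0) - |a (κ (g j)) i|) ≤
      |∑ j ∈ Finset.range m, a (κ (g j)) i| := fun i =>
    pointwise (fun j => a (κ (g j)) i) (fun j => i ∈ Finset.Ico (g j) (g (j + 1))) (hB i)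
  have hf : ∀ j, HasSum (fun i => if i ∈ Finset.Ico (g j) (g (j + 1)) then
      2 * |a (κ (g j)) i| else 0) (∑ i ∈ Finset.Ico (g j) (g (j + 1)), 2 * |a (κ (g j)) i|) := by
    intro j
    have h7 : ∑ i ∈ Finset.Ico (g j) (g (j + 1)), 2 * |a (κ (g j)) i| =
        ∑ i ∈ Finset.Ico (g j) (g (j + 1)), (if i ∈ Finset.Ico (g j) (g (j + 1)) then
          2 * |a (κ (g j)) i| else 0) :=
      Finset.sum_congr rfl fun i hi => by rw [if_pos hi]
    rw [h7]
    exact hasSum_sum_of_ne_finset_zero fun i hi => by rw [if_neg hi]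
  have h4 : HasSum (fun i => ∑ j ∈ Finset.range m,
      ((if i ∈ Finset.Ico (g j) (g (j + 1)) then 2 * |a (κ (g j)) i| else 0) - |a (κ (g j)) i|))
      (∑ j ∈ Finset.range m, ((∑ i ∈ Finset.Ico (g j) (g (j + 1)), 2 * |a (κ (g j)) i|) -
        ∑' i, |a (κ (g j)) i|)) :=
    hasSum_sum fun j _ => (hf j).sub (hs _).hasSum
  have h5 := hasSum_le h3 h4 hsum.hasSum
  have h6 : (η / 2) * m ≤ ∑ j ∈ Finset.range m,
      ((∑ i ∈ Finset.Ico (g j) (g (j + 1)), 2 * |a (κ (g j)) i|) - ∑' i, |a (κ (g j)) i|) := by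
    have := Finset.card_nsmul_le_sum (Finset.range m) (fun j =>
      (∑ i ∈ Finset.Ico (g j) (g (j + 1)), 2 * |a (κ (g j)) i|) - ∑' i, |a (κ (g j)) i|) (η / 2)
      (fun j _ => by
        have e1 := hblock j
        have e2 := hcon (κ (g j))
        rw [← Finset.mul_sum]
        linarith)
    rw [Finset.card_range, nsmul_eq_mul] at this
    linarith [mul_comm (η / 2) (m : ℝ)]
  linarith

end Pool.Agent.W6h79.LD
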