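import Pool.Agent.W6h79.LD.Defs

/-!
# MP_3844f5_an, piece (G): exhaustion
-/

open MeasureTheory Set Filter
open scoped ENNReal NNReal Topology

noncomputable section

namespace Pool.Agent.W6h79.LD

namespace GG

universe u

variable {Ω : Type u} [MeasurableSpace Ω]

/-- a countable subfamily exhausts a family up to null sets -/
lemma exists_countable (ν : Measure Ω) [IsFiniteMeasure ν] (𝓢 : Set (Set Ω))
    (h𝓢 : ∀ S ∈ 𝓢, MeasurableSet S) :
    ∃ 𝓣 ⊆ 𝓢, 𝓣.Countable ∧ ∀ S ∈ 𝓢, ν (S \ ⋃₀ 𝓣) = 0 := by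
  classical
  set P : Set (Set (Set Ω)) := {𝓣 | 𝓣 ⊆ 𝓢 ∧ 𝓣.Countable} with hP
  have hPne : P.Nonempty := ⟨∅, empty_subset _, countable_empty⟩
  obtain ⟨x, -, hx, hxP⟩ := exists_seq_tendsto_sSup
    (S := (fun 𝓣 : Set (Set Ω) => ν (⋃₀ 𝓣)) '' P) (hPne.image _) (OrderTop.bddAbove _)
  choose T hT hTx using hxP
  have hsub : (⋃ n, T n) ⊆ 𝓢 := iUnion_subset fun n => (hT n).1
  have hcou : (⋃ n, T n).Countable := countable_iUnion fun n => (hT n).2
  refine ⟨⋃ n, T n, hsub, hcou, fun S hS => ?_⟩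
  set U := ⋃₀ (⋃ n, T n) with hU
  have h1 : sSup ((fun 𝓣 : Set (Set Ω) => ν (⋃₀ 𝓣)) '' P) ≤ ν U := by
    refine le_of_tendsto' hx fun n => ?_
    rw [← hTx n]
    exact measure_mono (sUnion_subset_sUnion (subset_iUnion T n))
  have h2 : ν (U ∪ S) ≤ sSup ((fun 𝓣 : Set (Set Ω) => ν (⋃₀ 𝓣)) '' P) := by
    refine le_sSup ⟨insert S (⋃ n, T n), ⟨insert_subset hS hsub, hcou.insert S⟩, ?_⟩
    simp only [sUnion_insert]
    rw [union_comm, hU]
  have hUm : MeasurableSet U := MeasurableSet.sUnion hcou fun t ht => h𝓢 t (hsub ht)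
  have h3 : ν (U ∪ S) = ν U + ν (S \ U) := by
    rw [← union_diff_self, measure_union disjoint_sdiff_right ((h𝓢 S hS).diff hUm)]
  have h4 : ν U + ν (S \ U) ≤ ν U + 0 := by
    rw [add_zero, ← h3]
    exact h2.trans h1
  exact le_zero_iff.1 ((ENNReal.add_le_add_iff_left (measure_ne_top ν U)).1 h4)

end GG

open GG in
/-- (G) -/
theorem sG.{u} : S_G.{u} := by
  intro Ω _ μ 𝓢 hcov0 z
  obtain ⟨h𝓢, hcov⟩ := hcov0
  classical
  have hzm : ∀ k, Measurable (z k : Ω → ℝ) := fun k => (Lp.stronglyMeasurable (z k)).measurable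
  have hzi : ∀ k, Integrable (z k : Ω → ℝ) μ := fun k => L1.integrable_coeFn (z k)
  set D : ℕ × ℕ → Set Ω := fun p => {ω | (1:ℝ) / ((p.2 : ℝ) + 1) ≤ ‖z p.1 ω‖} with hD
  have hDm : ∀ p, MeasurableSet (D p) := fun p => measurableSet_le measurable_const (hzm _).norm
  have hDf : ∀ p, μ (D p) < ∞ := fun p =>
    (hzi p.1).measure_norm_ge_lt_top (by positivity)
  set Z : Set Ω := ⋃ p, D p with hZ
  have hZz : ∀ k ω, z k ω ≠ 0 → ω ∈ Z := by
    intro k ω h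
    obtain ⟨n, hn⟩ := exists_nat_one_div_lt (norm_pos_iff.2 h)
    exact mem_iUnion.2 ⟨(k, n), hn.le⟩
  have hZm : MeasurableSet Z := MeasurableSet.iUnion hDm
  haveI : ∀ p, IsFiniteMeasure (μ.restrict (D p)) := fun p =>
    ⟨by rw [Measure.restrict_apply_univ]; exact hDf p⟩
  set κ : Measure Ω := Measure.sum fun p : ℕ × ℕ => μ.restrict (D p) with hκ
  set ν : Measure Ω := κ.toFinite with hν
  have hν0 : ∀ E, MeasurableSet E → (ν E = 0 ↔ μ (E ∩ Z) = 0) := by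
    intro E hE
    have e1 : ν E = 0 ↔ κ E = 0 :=
      ⟨fun h => absolutelyContinuous_toFinite κ h, fun h => toFinite_absolutelyContinuous κ h⟩
    have e2 : κ E = 0 ↔ ∀ p, μ (E ∩ D p) = 0 := by
      rw [hκ, Measure.sum_apply_eq_zero' hE]
      exact forall_congr' fun p => by rw [Measure.restrict_apply hE]
    rw [e1, e2, hZ, inter_iUnion, measure_iUnion_null_iff]
  obtain ⟨𝓣, h𝓣, hcT, hST⟩ := exists_countable ν 𝓢 (fun S hS => (h𝓢 S hS).1)
  have hTm : MeasurableSet (⋃₀ 𝓣) := MeasurableSet.sUnion hcT fun t ht => (h𝓢 t (h𝓣 ht)).1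
  -- a maximal disjoint family of atoms
  set 𝒢 : Set (Set Ω) := {A | AtomSet μ A ∧ μ A < ∞ ∧ A ⊆ Z \ ⋃₀ 𝓣} with h𝒢
  set F : Set (Set (Set Ω)) := {𝒜 | 𝒜 ⊆ 𝒢 ∧ 𝒜.PairwiseDisjoint id} with hF
  obtain ⟨𝒜, h𝒜⟩ := zorn_subset F (fun c hc hchain =>
    ⟨⋃₀ c, ⟨sUnion_subset fun s hs => (hc hs).1,
      (pairwiseDisjoint_sUnion hchain.directedOn).2 fun s hs => (hc hs).2⟩,
      fun s hs => subset_sUnion_of_mem hs⟩)
  have hG : ∀ A ∈ 𝒜, A ∈ 𝒢 := fun A hA => h𝒜.prop.1 hA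
  have hdis : Pairwise (Function.onFun Disjoint (fun a : 𝒜 => (a : Set Ω))) := by
    intro a b hab
    exact h𝒜.prop.2 a.2 b.2 (fun h => hab (Subtype.ext h))
  have hpos : ∀ A ∈ 𝒜, 0 < ν A := by
    intro A hA
    rw [pos_iff_ne_zero]
    intro h0
    have hAG := hG A hA
    rw [hν0 A hAG.1.1] at h0
    have h1 : A ∩ Z = A := inter_eq_left.2 fun ω hω => (hAG.2.2 hω).1
    rw [h1] at h0
    exact hAG.1.2.1.ne' h0
  haveI hcount : Countable 𝒜 := by
    have h1 := Measure.countable_meas_pos_of_disjoint_iUnion (μ := ν)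
      (As := fun a : 𝒜 => (a : Set Ω)) (fun a => (hG a a.2).1.1) hdis
    have h2 : {i : 𝒜 | 0 < ν (i : Set Ω)} = univ := eq_univ_of_forall fun a => hpos a a.2
    rw [h2] at h1
    exact countable_univ_iff.1 h1
  have hAm : MeasurableSet (⋃₀ 𝒜) :=
    MeasurableSet.sUnion (Set.countable_coe_iff.1 hcount) fun t ht => (hG t ht).1.1
  letI : Encodable 𝒜 := Encodable.ofCountable 𝒜
  set V : Set Ω := (Z \ ⋃₀ 𝓣) \ ⋃₀ 𝒜 with hV
  have hVm : MeasurableSet V := (hZm.diff hTm).diff hAm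
  have hV0 : μ V = 0 := by
    by_contra hne
    obtain ⟨p, hp⟩ : ∃ p, μ (V ∩ D p) ≠ 0 := by
      by_contra hcon
      push Not at hcon
      have h1 : V = V ∩ Z := (inter_eq_left.2 fun ω hω => hω.1.1).symm
      apply hne
      rw [h1, hZ, inter_iUnion, measure_iUnion_null_iff]
      exact hcon
    obtain ⟨A, hAE, hA⟩ := hcov (V ∩ D p) (hVm.inter (hDm p)) (pos_iff_ne_zero.2 hp)
      ((measure_mono inter_subset_right).trans_lt (hDf p)) (fun S hS => by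
        have h1 := hST S hS
        rw [hν0 _ ((h𝓢 S hS).1.diff hTm)] at h1
        refine measure_mono_null ?_ h1
        rintro ω ⟨⟨hω, -⟩, hωS⟩
        exact ⟨⟨hωS, hω.1.2⟩, hω.1.1⟩)
    have hAV : A ⊆ V := hAE.trans inter_subset_left
    have hAG : A ∈ 𝒢 := ⟨hA, (measure_mono (hAE.trans inter_subset_right)).trans_lt (hDf p),
      hAV.trans diff_subset⟩
    have hins : insert A 𝒜 ∈ F := by
      refine ⟨insert_subset hAG h𝒜.prop.1, ?_⟩
      refine h𝒜.prop.2.insert fun B hB _ => ?_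
      rw [id, id, disjoint_left]
      intro ω hω hωB
      exact (hAV hω).2 (mem_sUnion.2 ⟨B, hB, hωB⟩)
    have hAin : A ∈ 𝒜 := h𝒜.le_of_ge hins (subset_insert _ _) (mem_insert _ _)
    have hemp : A = ∅ := by
      rw [eq_empty_iff_forall_notMem]
      intro ω hω
      exact (hAV hω).2 (mem_sUnion.2 ⟨A, hAin, hω⟩)
    exact hA.2.1.ne' (by rw [hemp, measure_empty])
  refine ⟨𝓣, fun n => ⋃ b ∈ Encodable.decode₂ 𝒜 n, (b : Set Ω), hcT, h𝓣, ?_, ?_, ?_⟩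
  · intro i j hij
    exact Encodable.iUnion_decode₂_disjoint_on hdis hij
  · intro n
    refine Encodable.iUnion_decode₂_cases
      (C := fun B => MeasurableSet B ∧ (B = ∅ ∨ (AtomSet μ B ∧ μ B < ∞)) ∧ Disjoint B (⋃₀ 𝓣))
      ⟨MeasurableSet.empty, Or.inl rfl, empty_disjoint _⟩ (fun b => ?_)
    have hb := hG b b.2
    refine ⟨hb.1.1, Or.inr ⟨hb.1, hb.2.1⟩, ?_⟩
    rw [disjoint_left]
    intro ω hω
    exact (hb.2.2 hω).2
  · intro k
    have h1 : ∀ᵐ ω ∂μ, ω ∉ V := measure_eq_zero_iff_ae_notMem.1 hV0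
    filter_upwards [h1] with ω hω hz0
    rw [Encodable.iUnion_decode₂, ← sUnion_eq_iUnion]
    by_contra hcon
    rw [mem_union, not_or] at hcon
    exact hω ⟨⟨hZz k ω hz0, hcon.1⟩, hcon.2⟩

end Pool.Agent.W6h79.LD
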