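import Pool.Agent.W6h79.LD.Defs

/-!
# MP_3844f5_an, piece (H)
-/

open MeasureTheory Set Filter
open scoped ENNReal NNReal Topology

noncomputable section

namespace Pool.Agent.W6h79.LD

namespace HH

variable {Ω : Type*} [MeasurableSpace Ω] {μ : Measure Ω}

/-- the integral over a set as a function on `L¹` -/
def II (μ : Measure Ω) (A : Set Ω) (f : Lp ℝ 1 μ) : ℝ := ∫ ω in A, f ω ∂μ

lemma integrable (f : Lp ℝ 1 μ) : Integrable (fun ω => f ω) μ := L1.integrable_coeFn f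

lemma II_add (A : Set Ω) (f g : Lp ℝ 1 μ) : II μ A (f + g) = II μ A f + II μ A g := by
  unfold II
  rw [← integral_add (integrable f).integrableOn (integrable g).integrableOn]
  apply integral_congr_ae
  filter_upwards [ae_restrict_of_ae (Lp.coeFn_add f g)] with ω h
  simpa using h

lemma II_smul (A : Set Ω) (c : ℝ) (f : Lp ℝ 1 μ) : II μ A (c • f) = c * II μ A f := by
  unfold II
  rw [← integral_const_mul]
  apply integral_congr_ae
  filter_upwards [ae_restrict_of_ae (Lp.coeFn_smul c f)] with ω h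
  simpa using h

lemma II_zero (A : Set Ω) : II μ A (0 : Lp ℝ 1 μ) = 0 := by
  have := II_smul A 0 (0 : Lp ℝ 1 μ)
  simpa using this

lemma II_sum (A : Set Ω) (J : Finset ℕ) (ε : ℕ → ℝ) (z : ℕ → Lp ℝ 1 μ) :
    II μ A (∑ k ∈ J, ε k • z k) = ∑ k ∈ J, ε k * II μ A (z k) := by
  classical
  induction J using Finset.induction_on with
  | empty => simp [II_zero]
  | insert a s ha ih => rw [Finset.sum_insert ha, Finset.sum_insert ha, II_add, II_smul, ih]

lemma norm_eq (f : Lp ℝ 1 μ) : ‖f‖ = ∫ ω, |f ω| ∂μ := by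
  rw [L1.norm_eq_integral_norm]
  simp [Real.norm_eq_abs]

/-- on an atom the modulus of the integral is the integral of the modulus -/
lemma abs_atom {A : Set Ω} (hA : AtomSet μ A) (f : Lp ℝ 1 μ) :
    |II μ A f| = ∫ ω in A, |f ω| ∂μ := by
  have hm : Measurable (fun ω => f ω) := (Lp.stronglyMeasurable f).measurable
  have hB : MeasurableSet (A ∩ {ω | 0 < f ω}) :=
    hA.1.inter (measurableSet_lt measurable_const hm)
  unfold II
  rcases hA.2.2 _ inter_subset_left hB with h | h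
  · have h1 : ∀ᵐ ω ∂(μ.restrict A), f ω ≤ 0 := by
      rw [ae_restrict_iff' hA.1]
      have h2 : ∀ᵐ ω ∂μ, ω ∉ A ∩ {ω | 0 < f ω} := measure_eq_zero_iff_ae_notMem.1 h
      filter_upwards [h2] with ω h3 h4
      by_contra h5
      exact h3 ⟨h4, not_le.1 h5⟩
    have h2 : ∫ ω in A, |f ω| ∂μ = - ∫ ω in A, f ω ∂μ := by
      rw [← integral_neg]
      apply integral_congr_ae
      filter_upwards [h1] with ω h3
      exact abs_of_nonpos h3
    rw [h2, abs_of_nonpos]
    exact integral_nonpos_of_ae h1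
  · have h1 : ∀ᵐ ω ∂(μ.restrict A), 0 ≤ f ω := by
      rw [ae_restrict_iff' hA.1]
      have h2 : ∀ᵐ ω ∂μ, ω ∉ A \ (A ∩ {ω | 0 < f ω}) := measure_eq_zero_iff_ae_notMem.1 h
      filter_upwards [h2] with ω h3 h4
      by_contra h5
      exact h3 ⟨h4, fun h6 => h5 (le_of_lt h6.2)⟩
    have h2 : ∫ ω in A, |f ω| ∂μ = ∫ ω in A, f ω ∂μ := by
      apply integral_congr_ae
      filter_upwards [h1] with ω h3
      exact abs_of_nonneg h3
    rw [h2, abs_of_nonneg]
    exact integral_nonneg_of_ae h1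

lemma hasSum_abs {A : ℕ → Set Ω} (hm : ∀ i, MeasurableSet (A i))
    (hd : ∀ i j, i ≠ j → Disjoint (A i) (A j)) (f : Lp ℝ 1 μ) :
    HasSum (fun i => ∫ ω in A i, |f ω| ∂μ) (∫ ω in ⋃ i, A i, |f ω| ∂μ) :=
  hasSum_integral_iUnion hm (fun i j h => hd i j h) (integrable f).abs.integrableOn

lemma abs_II_le (A : Set Ω) (f : Lp ℝ 1 μ) : |II μ A f| ≤ ∫ ω in A, |f ω| ∂μ :=
  abs_integral_le_integral_abs

lemma summable_II {A : ℕ → Set Ω} (hm : ∀ i, MeasurableSet (A i))
    (hd : ∀ i j, i ≠ j → Disjoint (A i) (A j)) (f : Lp ℝ 1 μ) :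
    Summable fun i => |II μ (A i) f| :=
  Summable.of_nonneg_of_le (fun _ => abs_nonneg _) (fun i => abs_II_le (A i) f)
    (hasSum_abs hm hd f).summable

lemma tsum_II_le {A : ℕ → Set Ω} (hm : ∀ i, MeasurableSet (A i))
    (hd : ∀ i j, i ≠ j → Disjoint (A i) (A j)) (f : Lp ℝ 1 μ) :
    ∑' i, |II μ (A i) f| ≤ ‖f‖ := by
  calc ∑' i, |II μ (A i) f| ≤ ∑' i, ∫ ω in A i, |f ω| ∂μ :=
        (summable_II hm hd f).tsum_le_tsum (fun i => abs_II_le (A i) f)
          (hasSum_abs hm hd f).summable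
    _ = ∫ ω in ⋃ i, A i, |f ω| ∂μ := (hasSum_abs hm hd f).tsum_eq
    _ ≤ ∫ ω, |f ω| ∂μ :=
        setIntegral_le_integral (integrable f).abs (Eventually.of_forall fun _ => abs_nonneg _)
    _ = ‖f‖ := (norm_eq f).symm

/-- finitely many sets and a bound suffice -/
lemma exists_fin (𝓣 : Set (Set Ω)) (hc : 𝓣.Countable) (hT : ∀ S ∈ 𝓣, MeasurableSet S)
    (f : Lp ℝ 1 μ) (η : ℝ) (hη : ∫ ω in (⋃₀ 𝓣)ᶜ, |f ω| ∂μ < η) :
    ∃ (F : Finset (Set Ω)) (M : ℕ), (↑F : Set (Set Ω)) ⊆ 𝓣 ∧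
      ∫ ω in ((⋃₀ (↑F : Set (Set Ω))) ∩ {ω | |f ω| ≤ (M : ℝ)})ᶜ, |f ω| ∂μ ≤ η := by
  classical
  rcases 𝓣.eq_empty_or_nonempty with h0 | hne
  · refine ⟨∅, 0, by simp, ?_⟩
    subst h0
    have : ((⋃₀ (↑(∅ : Finset (Set Ω)) : Set (Set Ω))) ∩ {ω | |f ω| ≤ ((0 : ℕ) : ℝ)})ᶜ =
        (⋃₀ (∅ : Set (Set Ω)))ᶜ := by simp
    rw [this]
    exact hη.le
  · obtain ⟨g, hg⟩ := hc.exists_eq_range hne
    have hgT : ∀ i, g i ∈ 𝓣 := fun i => by rw [hg]; exact mem_range_self i
    have hm : Measurable (fun ω => f ω) := (Lp.stronglyMeasurable f).measurable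
    set F : ℕ → Finset (Set Ω) := fun n => (Finset.range n).image g with hF
    set W : ℕ → Set Ω := fun n => (⋃₀ (↑(F n) : Set (Set Ω))) ∩ {ω | |f ω| ≤ (n : ℝ)} with hW
    have hFT : ∀ n, (↑(F n) : Set (Set Ω)) ⊆ 𝓣 := by
      intro n S hS
      simp only [hF, Finset.coe_image, mem_image] at hS
      obtain ⟨i, -, rfl⟩ := hS
      exact hgT i
    have hWm : ∀ n, MeasurableSet (W n) := by
      intro n
      refine MeasurableSet.inter ?_ (measurableSet_le hm.abs measurable_const)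
      exact MeasurableSet.sUnion (F n).countable_toSet (fun S hS => hT S (hFT n hS))
    have hWmono : Monotone W := by
      intro a b hab
      refine inter_subset_inter ?_ ?_
      · apply sUnion_subset_sUnion
        simp only [hF, Finset.coe_image]
        apply image_mono
        intro x hx
        simp only [Finset.coe_range, mem_Iio] at hx ⊢
        exact lt_of_lt_of_le hx hab
      · intro ω hω
        simp only [mem_ofPred_eq] at hω ⊢
        exact hω.trans (by exact_mod_cast hab)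
    have hWU : ⋃ n, W n = ⋃₀ 𝓣 := by
      apply Subset.antisymm
      · apply iUnion_subset
        intro n
        exact inter_subset_left.trans (sUnion_subset_sUnion (hFT n))
      · intro ω hω
        obtain ⟨S, hS, hωS⟩ := hω
        rw [hg] at hS
        obtain ⟨i, rfl⟩ := hS
        obtain ⟨N, hN⟩ := exists_nat_ge |f ω|
        refine mem_iUnion.2 ⟨max (i + 1) N, ⟨g i, ?_, hωS⟩, ?_⟩
        · simp only [hF, Finset.coe_image, mem_image]
          refine ⟨i, ?_, rfl⟩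
          simp only [Finset.coe_range, mem_Iio]
          exact lt_of_lt_of_le (Nat.lt_succ_self i) (le_max_left _ _)
        · simp only [mem_ofPred_eq]
          refine hN.trans ?_
          exact_mod_cast le_max_right _ _
    have hlim : Tendsto (fun n => ∫ ω in (W n)ᶜ, |f ω| ∂μ) atTop
        (𝓝 (∫ ω in ⋂ n, (W n)ᶜ, |f ω| ∂μ)) := by
      apply tendsto_setIntegral_of_antitone (fun n => (hWm n).compl)
      · intro a b hab
        exact compl_subset_compl.2 (hWmono hab)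
      · exact ⟨0, (integrable f).abs.integrableOn⟩
    rw [← compl_iUnion, hWU] at hlim
    obtain ⟨n, hn⟩ := (hlim.eventually_lt_const hη).exists
    exact ⟨F n, n, hFT n, hn.le⟩

end HH

open HH in
theorem sH.{u} (hF : S_F) (hG : S_G.{u}) : S_H.{u} := by
  intro Ω _ μ 𝓢 hcov z C hz η hη
  obtain ⟨𝓣, A, hTc, hTS, hd, hA, hsupp⟩ := hG Ω μ 𝓢 hcov z
  have hAm : ∀ i, MeasurableSet (A i) := fun i => (hA i).1
  have habs : ∀ k i, |II μ (A i) (z k)| = ∫ ω in A i, |z k ω| ∂μ := by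
    intro k i
    rcases (hA i).2.1 with h | h
    · rw [h]
      simp [II]
    · exact abs_atom h.1 (z k)
  obtain ⟨k, hk⟩ := hF (fun k i => II μ (A i) (z k)) C (fun k => summable_II hAm hd (z k))
    (by
      intro J ε hε
      have h1 := tsum_II_le hAm hd (∑ k ∈ J, ε k • z k)
      simp only [II_sum] at h1
      exact h1.trans (hz J ε hε)) (η / 2) (by linarith)
  have hTm : ∀ S ∈ 𝓣, MeasurableSet S := fun S hS => (hcov.1 S (hTS hS)).1
  have hk2 : ∫ ω in ⋃ i, A i, |z k ω| ∂μ ≤ η / 2 := by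
    rw [← (hasSum_abs hAm hd (z k)).tsum_eq]
    simp only [habs] at hk
    exact hk
  have hk3 : ∫ ω in (⋃₀ 𝓣)ᶜ, |z k ω| ∂μ ≤ ∫ ω in ⋃ i, A i, |z k ω| ∂μ := by
    have hTM : MeasurableSet (⋃₀ 𝓣) := MeasurableSet.sUnion hTc hTm
    rw [← integral_indicator hTM.compl, ← integral_indicator (MeasurableSet.iUnion hAm)]
    apply integral_mono_ae ((integrable (z k)).abs.indicator hTM.compl)
      ((integrable (z k)).abs.indicator (MeasurableSet.iUnion hAm))
    filter_upwards [hsupp k] with ω hω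
    by_cases h0 : z k ω = 0
    · simp [indicator, h0]
    · have h1 := hω h0
      by_cases h2 : ω ∈ ⋃₀ 𝓣
      · have h3 : ω ∉ (⋃₀ 𝓣)ᶜ := fun h => h h2
        rw [indicator_of_notMem h3]
        exact indicator_nonneg (fun _ _ => abs_nonneg _) _
      · have h3 : ω ∈ ⋃ i, A i := h1.resolve_left h2
        rw [indicator_of_mem h3, indicator_of_mem (show ω ∈ (⋃₀ 𝓣)ᶜ from h2)]
  obtain ⟨F, M, hFT, hFM⟩ := exists_fin 𝓣 hTc hTm (z k) η (by linarith)
  exact ⟨k, F, M, hFT.trans hTS, hFM⟩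

end Pool.Agent.W6h79.LD

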