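import Pool.Agent.W6h79.LD.Defs

/-!
# Random signs (piece (I) for helper79), written by helper74
-/

open MeasureTheory Set Filter
open scoped ENNReal NNReal Topology

noncomputable section

namespace Pool.Agent.W6h79.LD

namespace PI

universe u

variable {Ω : Type u} [MeasurableSpace Ω]

/-- bounded measurable functions which vanish outside `G` -/
def Nice (G : Set Ω) (F : Ω → ℝ) : Prop :=
  Measurable F ∧ (∃ B : ℝ, ∀ ω, |F ω| ≤ B) ∧ ∀ ω, ω ∉ G → F ω = 0

theorem Nice.integrable {μ : Measure Ω} {G : Set Ω} (hGf : μ G < ∞) {F : Ω → ℝ}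
    (h : Nice G F) : Integrable F μ := by
  obtain ⟨h1, ⟨B, hB⟩, h3⟩ := h
  have h4 : Function.support F ⊆ G := by
    intro ω hω
    by_contra hc
    exact hω (h3 ω hc)
  rw [← integrableOn_iff_integrable_of_support_subset h4]
  exact Measure.integrableOn_of_bounded hGf.ne h1.aestronglyMeasurable
    (Eventually.of_forall fun ω => by simpa using hB ω)

theorem Nice.add {G : Set Ω} {F F' : Ω → ℝ} (h : Nice G F) (h' : Nice G F') :
    Nice G (fun ω => F ω + F' ω) := by
  obtain ⟨h1, ⟨B, hB⟩, h3⟩ := h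
  obtain ⟨h1', ⟨B', hB'⟩, h3'⟩ := h'
  exact ⟨h1.add h1', ⟨B + B', fun ω => (abs_add_le _ _).trans (add_le_add (hB ω) (hB' ω))⟩,
    fun ω hω => by simp [h3 ω hω, h3' ω hω]⟩

theorem Nice.mul {G : Set Ω} {F F' : Ω → ℝ} (h : Nice G F) (h' : Nice G F') :
    Nice G (fun ω => F ω * F' ω) := by
  obtain ⟨h1, ⟨B, hB⟩, h3⟩ := h
  obtain ⟨h1', ⟨B', hB'⟩, h3'⟩ := h'
  refine ⟨h1.mul h1', ⟨B * B', fun ω => ?_⟩, fun ω hω => by simp [h3 ω hω]⟩
  simp only [abs_mul]
  exact mul_le_mul (hB ω) (hB' ω) (abs_nonneg _) ((abs_nonneg _).trans (hB ω))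

theorem Nice.const {G : Set Ω} {F : Ω → ℝ} (c : ℝ) (h : Nice G F) :
    Nice G (fun ω => c * F ω) := by
  obtain ⟨h1, ⟨B, hB⟩, h3⟩ := h
  refine ⟨h1.const_mul c, ⟨|c| * B, fun ω => ?_⟩, fun ω hω => by simp [h3 ω hω]⟩
  simp only [abs_mul]
  exact mul_le_mul_of_nonneg_left (hB ω) (abs_nonneg _)

theorem Nice.zero (G : Set Ω) : Nice G (fun _ => 0) :=
  ⟨measurable_const, ⟨0, fun _ => by simp⟩, fun _ _ => rfl⟩

theorem Nice.sum {G : Set Ω} {ι : Type} (s : Finset ι) {F : ι → Ω → ℝ} (h : ∀ i, Nice G (F i)) :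
    Nice G (fun ω => ∑ i ∈ s, F i ω) := by
  classical
  induction s using Finset.induction_on with
  | empty => simpa using Nice.zero G
  | insert i s hi ih =>
    simp only [Finset.sum_insert hi]
    exact (h i).add ih

theorem sq_le {μ : Measure Ω} {G : Set Ω} (hG : MeasurableSet G) (hGf : μ G < ∞) {M : ℝ}
    {F : Ω → ℝ} (h : Nice G F) (hb : ∀ ω, |F ω| ≤ M) :
    ∫ ω, F ω * F ω ∂μ ≤ M ^ 2 * (μ G).toReal := by
  have h1 : ∫ ω, F ω * F ω ∂μ ≤ ∫ ω, G.indicator (fun _ => M ^ 2) ω ∂μ := by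
    refine integral_mono ((h.mul h).integrable hGf) ?_ fun ω => ?_
    · exact (integrable_indicator_iff hG).2 (integrableOn_const hGf.ne)
    · by_cases hω : ω ∈ G
      · simp only [indicator_of_mem hω]
        have := hb ω
        have h2 := abs_nonneg (F ω)
        calc F ω * F ω = |F ω| * |F ω| := (abs_mul_abs_self _).symm
          _ ≤ M * M := mul_le_mul this this h2 (h2.trans this)
          _ = M ^ 2 := (sq M).symm
      · simp only [indicator_of_notMem hω, h.2.2 ω hω, mul_zero, le_refl]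
  refine h1.trans (le_of_eq ?_)
  rw [integral_indicator hG, setIntegral_const, smul_eq_mul, mul_comm]
  rfl

theorem greedy {μ : Measure Ω} {G : Set Ω} (hG : MeasurableSet G) (hGf : μ G < ∞) (M : ℝ) :
    ∀ (m : ℕ) (g : Fin m → Ω → ℝ), (∀ j, Nice G (g j)) → (∀ j ω, |g j ω| ≤ M) →
      ∃ ε : Fin m → ℝ, (∀ j, ε j = 1 ∨ ε j = -1) ∧
        ∫ ω, (∑ j, ε j * g j ω) * (∑ j, ε j * g j ω) ∂μ ≤ m * (M ^ 2 * (μ G).toReal) := by
  intro m
  induction m with
  | zero =>
    intro g _ _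
    exact ⟨fun _ => 1, fun _ => Or.inl rfl, by simp⟩
  | succ m ih =>
    intro g hg hb
    obtain ⟨ε, hε, hI⟩ := ih (fun j => g j.castSucc) (fun j => hg _) (fun j ω => hb _ ω)
    set h : Ω → ℝ := fun ω => ∑ j, ε j * g j.castSucc ω with hh
    have hn : Nice G h := Nice.sum _ fun j => (hg j.castSucc).const (ε j)
    set f := g (Fin.last m) with hf
    have hfn : Nice G f := hg _
    have hff := sq_le hG hGf hfn (hb _)
    have key : ∀ t : ℝ, ∫ ω, (h ω + t * f ω) * (h ω + t * f ω) ∂μ =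
        ∫ ω, h ω * h ω ∂μ + 2 * t * ∫ ω, h ω * f ω ∂μ + t ^ 2 * ∫ ω, f ω * f ω ∂μ := by
      intro t
      have e1 : (fun ω => (h ω + t * f ω) * (h ω + t * f ω)) = fun ω =>
          (h ω * h ω + (2 * t) * (h ω * f ω)) + t ^ 2 * (f ω * f ω) := by
        funext ω; ring
      rw [e1, integral_add, integral_add, integral_const_mul, integral_const_mul]
      · exact (hn.mul hn).integrable hGf
      · exact ((hn.mul hfn).const (2 * t)).integrable hGf
      · exact ((hn.mul hn).add ((hn.mul hfn).const (2 * t))).integrable hGf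
      · exact ((hfn.mul hfn).const (t ^ 2)).integrable hGf
    obtain ⟨t, ht, hle⟩ : ∃ t : ℝ, (t = 1 ∨ t = -1) ∧ 2 * t * ∫ ω, h ω * f ω ∂μ ≤ 0 := by
      rcases le_total (∫ ω, h ω * f ω ∂μ) 0 with hs | hs
      · exact ⟨1, Or.inl rfl, by linarith⟩
      · exact ⟨-1, Or.inr rfl, by linarith⟩
    have ht2 : t ^ 2 = 1 := by rcases ht with rfl | rfl <;> norm_num
    refine ⟨Fin.snoc ε t, fun j => ?_, ?_⟩
    · refine Fin.lastCases ?_ (fun j => ?_) j
      · rw [Fin.snoc_last]; exact ht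
      · rw [Fin.snoc_castSucc]; exact hε j
    · have e2 : (fun ω => (∑ j : Fin (m + 1), (Fin.snoc ε t : Fin (m + 1) → ℝ) j * g j ω) *
          (∑ j : Fin (m + 1), (Fin.snoc ε t : Fin (m + 1) → ℝ) j * g j ω)) =
          fun ω => (h ω + t * f ω) * (h ω + t * f ω) := by
        funext ω
        simp only [Fin.sum_univ_castSucc, Fin.snoc_castSucc, Fin.snoc_last, hh, hf]
      rw [e2, key, ht2]
      push_cast
      have hI' : ∫ ω, h ω * h ω ∂μ ≤ m * (M ^ 2 * (μ G).toReal) := hI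
      linarith

end PI

open PI in
theorem sI : S_I := by
  intro Ω _ μ G hG hGf M m g hg hb h0
  have hn : ∀ j, Nice G (g j) := fun j => ⟨hg j, ⟨M, hb j⟩, h0 j⟩
  obtain ⟨ε, hε, hI⟩ := greedy hG hGf M m g hn hb
  refine ⟨ε, hε, ?_⟩
  have hμ : 0 ≤ (μ G).toReal := ENNReal.toReal_nonneg
  rcases Nat.eq_zero_or_pos m with rfl | hm
  · simp
  rcases lt_or_ge 0 M with hM | hM
  · set c : ℝ := M * Real.sqrt m with hc
    have hm' : (0 : ℝ) < m := by exact_mod_cast hm
    have hsq : 0 < Real.sqrt m := Real.sqrt_pos.2 hm'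
    have hc0 : 0 < c := mul_pos hM hsq
    set F : Ω → ℝ := fun ω => ∑ j, ε j * g j ω with hF
    have hFn : Nice G F := Nice.sum _ fun j => (hn j).const (ε j)
    have h1 : ∫ ω, |F ω| ∂μ ≤ ∫ ω, ((2 * c)⁻¹ * (F ω * F ω) + G.indicator (fun _ => c / 2) ω) ∂μ := by
      refine integral_mono (hFn.integrable hGf).abs ?_ fun ω => ?_
      · refine (((hFn.mul hFn).const ((2 * c)⁻¹)).integrable hGf).add ?_
        exact (integrable_indicator_iff hG).2 (integrableOn_const hGf.ne)
      · by_cases hω : ω ∈ G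
        · simp only [indicator_of_mem hω]
          have h2 : 0 ≤ (|F ω| - c) ^ 2 := sq_nonneg _
          have h3 : F ω * F ω = |F ω| ^ 2 := by rw [sq_abs, sq]
          rw [h3]
          have h4 : (2 * c)⁻¹ * |F ω| ^ 2 + c / 2 - |F ω| = (2 * c)⁻¹ * (|F ω| - c) ^ 2 := by
            field_simp
            ring
          have h5 : 0 ≤ (2 * c)⁻¹ * (|F ω| - c) ^ 2 := by positivity
          linarith
        · simp only [indicator_of_notMem hω, hFn.2.2 ω hω, mul_zero, abs_zero, add_zero, le_refl]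
    refine h1.trans ?_
    rw [integral_add, integral_const_mul, integral_indicator hG, setIntegral_const, smul_eq_mul]
    · have h6 : (2 * c)⁻¹ * ∫ ω, F ω * F ω ∂μ ≤ (2 * c)⁻¹ * (m * (M ^ 2 * (μ G).toReal)) :=
        mul_le_mul_of_nonneg_left hI (by positivity)
      have h7 : (2 * c)⁻¹ * (m * (M ^ 2 * (μ G).toReal)) = c / 2 * (μ G).toReal := by
        have h8 : (m : ℝ) * M ^ 2 = c ^ 2 := by
          rw [hc, mul_pow, Real.sq_sqrt hm'.le]; ring
        rw [← mul_assoc (m : ℝ), h8]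
        field_simp
      have h9 : μ.real G * (c / 2) = c / 2 * (μ G).toReal := mul_comm _ _
      rw [h9]
      have h10 : M * (μ G).toReal * Real.sqrt m = c / 2 * (μ G).toReal + c / 2 * (μ G).toReal := by
        rw [hc]; ring
      rw [h10]
      linarith
    · exact ((hFn.mul hFn).const ((2 * c)⁻¹)).integrable hGf
    · exact (integrable_indicator_iff hG).2 (integrableOn_const hGf.ne)
  · have hg0 : ∀ j ω, g j ω = 0 := fun j ω =>
      abs_eq_zero.1 (le_antisymm ((hb j ω).trans hM) (abs_nonneg _))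
    simp only [hg0, mul_zero, Finset.sum_const_zero, abs_zero, integral_zero]
    rcases isEmpty_or_nonempty Ω with hΩ | ⟨⟨ω⟩⟩
    · have : μ G = 0 := by
        rw [Set.eq_empty_of_isEmpty G, measure_empty]
      rw [this]
      simp
    · have : 0 ≤ M := (abs_nonneg _).trans (hb ⟨0, hm⟩ ω)
      have : M = 0 := le_antisymm hM this
      rw [this]
      simp

end Pool.Agent.W6h79.LD
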