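import Pool.Agent.W6h79.LD.Defs

/-!
# MP_3844f5_an : piece (J)

Complex `L¹(μ)` is, as a real Banach space, isomorphic to real `L¹` of two copies of `μ`.
-/

open MeasureTheory Set Filter
open scoped ENNReal NNReal Topology

noncomputable section

namespace Pool.Agent.W6h79.LD

namespace PJ

universe u

variable {Ω : Type u} [MeasurableSpace Ω] (μ : Measure Ω)

/-- Two copies of `μ`. -/
def dbl : Measure (Ω ⊕ Ω) := μ.map (Sum.inl : Ω → Ω ⊕ Ω) + μ.map (Sum.inr : Ω → Ω ⊕ Ω)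

variable {μ}

theorem emb_inl : MeasurableEmbedding (Sum.inl : Ω → Ω ⊕ Ω) :=
  ⟨Sum.inl_injective, measurable_inl, fun _ hs => measurableSet_inl_image.2 hs⟩

theorem emb_inr : MeasurableEmbedding (Sum.inr : Ω → Ω ⊕ Ω) :=
  ⟨Sum.inr_injective, measurable_inr, fun _ hs => measurableSet_inr_image.2 hs⟩

theorem ae_dbl {p : Ω ⊕ Ω → Prop} :
    (∀ᵐ x ∂(dbl μ), p x) ↔ (∀ᵐ ω ∂μ, p (Sum.inl ω)) ∧ (∀ᵐ ω ∂μ, p (Sum.inr ω)) := by
  rw [dbl, ae_add_measure_iff, emb_inl.ae_map_iff,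
    emb_inr.ae_map_iff]

theorem lintegral_dbl (g : Ω ⊕ Ω → ℝ≥0∞) :
    ∫⁻ x, g x ∂(dbl μ) = ∫⁻ ω, g (Sum.inl ω) ∂μ + ∫⁻ ω, g (Sum.inr ω) ∂μ := by
  rw [dbl, lintegral_add_measure, emb_inl.lintegral_map,
    emb_inr.lintegral_map]

theorem meas (f : Lp ℂ 1 μ) :
    Measurable (Sum.elim (fun ω => (f ω).re) (fun ω => (f ω).im) : Ω ⊕ Ω → ℝ) := by
  have hf : Measurable (fun ω => f ω) := (Lp.stronglyMeasurable f).measurable
  exact Measurable.sumElim (Complex.measurable_re.comp hf) (Complex.measurable_im.comp hf)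

theorem bound (f : Lp ℂ 1 μ) :
    eLpNorm (Sum.elim (fun ω => (f ω).re) (fun ω => (f ω).im) : Ω ⊕ Ω → ℝ) 1 (dbl μ)
      ≤ 2 * eLpNorm f 1 μ := by
  rw [eLpNorm_one_eq_lintegral_enorm, eLpNorm_one_eq_lintegral_enorm, lintegral_dbl, two_mul]
  refine add_le_add (lintegral_mono fun ω => ?_) (lintegral_mono fun ω => ?_)
  · simp only [Sum.elim_inl]
    rw [enorm_le_iff_norm_le]
    simpa using Complex.abs_re_le_norm (f ω)
  · simp only [Sum.elim_inr]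
    rw [enorm_le_iff_norm_le]
    simpa using Complex.abs_im_le_norm (f ω)

theorem memLp_fwd (f : Lp ℂ 1 μ) :
    MemLp (Sum.elim (fun ω => (f ω).re) (fun ω => (f ω).im) : Ω ⊕ Ω → ℝ) 1 (dbl μ) :=
  ⟨(meas f).aestronglyMeasurable, lt_of_le_of_lt (bound f)
    (ENNReal.mul_lt_top (by simp) (Lp.eLpNorm_lt_top f))⟩

theorem memLp_bwd (g : Lp ℝ 1 (dbl μ)) :
    MemLp (fun ω => ((g (Sum.inl ω) : ℝ) : ℂ) + ((g (Sum.inr ω) : ℝ) : ℂ) * Complex.I) 1 μ := by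
  have hg : Measurable (fun x => g x) := (Lp.stronglyMeasurable g).measurable
  have h1 : Measurable (fun ω : Ω => g (Sum.inl ω)) := hg.comp measurable_inl
  have h2 : Measurable (fun ω : Ω => g (Sum.inr ω)) := hg.comp measurable_inr
  have hfin : ∫⁻ x, ‖g x‖ₑ ∂(dbl μ) < ∞ := by
    have := Lp.eLpNorm_lt_top g
    rwa [eLpNorm_one_eq_lintegral_enorm] at this
  rw [lintegral_dbl] at hfin
  have hf1 : ∫⁻ ω, ‖g (Sum.inl ω)‖ₑ ∂μ < ∞ := lt_of_le_of_lt le_self_add hfin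
  have hf2 : ∫⁻ ω, ‖g (Sum.inr ω)‖ₑ ∂μ < ∞ := lt_of_le_of_lt le_add_self hfin
  have m1 : MemLp (fun ω => g (Sum.inl ω)) 1 μ :=
    ⟨h1.aestronglyMeasurable, by rwa [eLpNorm_one_eq_lintegral_enorm]⟩
  have m2 : MemLp (fun ω => g (Sum.inr ω)) 1 μ :=
    ⟨h2.aestronglyMeasurable, by rwa [eLpNorm_one_eq_lintegral_enorm]⟩
  have m1' : MemLp (fun ω => ((g (Sum.inl ω) : ℝ) : ℂ)) 1 μ := m1.ofReal
  have m2' : MemLp (fun ω => ((g (Sum.inr ω) : ℝ) : ℂ)) 1 μ := m2.ofReal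
  exact m1'.add (m2'.mul_const Complex.I)

theorem coe_fwd (f : Lp ℂ 1 μ) :
    (∀ᵐ ω ∂μ, (memLp_fwd f).toLp _ (Sum.inl ω) = (f ω).re) ∧
    (∀ᵐ ω ∂μ, (memLp_fwd f).toLp _ (Sum.inr ω) = (f ω).im) := by
  have h := (memLp_fwd f).coeFn_toLp
  exact ae_dbl.1 h

/-- The linear equivalence. -/
def lin (μ : Measure Ω) : Lp ℂ 1 μ ≃ₗ[ℝ] Lp ℝ 1 (dbl μ) where
  toFun f := (memLp_fwd f).toLp _
  invFun g := (memLp_bwd g).toLp _
  map_add' f f' := by
    refine Lp.ext (ae_dbl.2 ?_)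
    have h0 := coe_fwd (f + f')
    have h1 := coe_fwd f
    have h2 := coe_fwd f'
    have h3 := ae_dbl.1 (Lp.coeFn_add ((memLp_fwd f).toLp _) ((memLp_fwd f').toLp _))
    have h4 := Lp.coeFn_add f f'
    constructor
    · filter_upwards [h0.1, h1.1, h2.1, h3.1, h4] with ω a0 a1 a2 a3 a4
      rw [a0, a3, Pi.add_apply, a1, a2, a4, Pi.add_apply, Complex.add_re]
    · filter_upwards [h0.2, h1.2, h2.2, h3.2, h4] with ω a0 a1 a2 a3 a4
      rw [a0, a3, Pi.add_apply, a1, a2, a4, Pi.add_apply, Complex.add_im]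
  map_smul' c f := by
    refine Lp.ext (ae_dbl.2 ?_)
    have h0 := coe_fwd (c • f)
    have h1 := coe_fwd f
    have h3 := ae_dbl.1 (Lp.coeFn_smul c ((memLp_fwd f).toLp _))
    have h4 := Lp.coeFn_smul c f
    constructor
    · filter_upwards [h0.1, h1.1, h3.1, h4] with ω a0 a1 a3 a4
      rw [a0, RingHom.id_apply, a3, Pi.smul_apply, a1, a4, Pi.smul_apply, Complex.real_smul,
        Complex.re_ofReal_mul, smul_eq_mul]
    · filter_upwards [h0.2, h1.2, h3.2, h4] with ω a0 a1 a3 a4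
      rw [a0, RingHom.id_apply, a3, Pi.smul_apply, a1, a4, Pi.smul_apply, Complex.real_smul,
        Complex.im_ofReal_mul, smul_eq_mul]
  left_inv f := by
    refine Lp.ext ?_
    have h0 := coe_fwd f
    have h1 := (memLp_bwd ((memLp_fwd f).toLp _)).coeFn_toLp
    filter_upwards [h0.1, h0.2, h1] with ω a0 a1 a2
    rw [a2, a0, a1, Complex.re_add_im]
  right_inv g := by
    refine Lp.ext (ae_dbl.2 ?_)
    have h0 := coe_fwd ((memLp_bwd g).toLp _)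
    have h1 := (memLp_bwd g).coeFn_toLp
    constructor
    · filter_upwards [h0.1, h1] with ω a0 a1
      rw [a0, a1]; simp
    · filter_upwards [h0.2, h1] with ω a0 a1
      rw [a0, a1]; simp

theorem norm_lin (f : Lp ℂ 1 μ) : ‖lin μ f‖ ≤ 2 * ‖f‖ := by
  have h := bound f
  change ‖(memLp_fwd f).toLp _‖ ≤ _
  rw [Lp.norm_toLp, Lp.norm_def]
  have h2 : (2 : ℝ) * (eLpNorm f 1 μ).toReal = (2 * eLpNorm f 1 μ).toReal := by
    rw [ENNReal.toReal_mul]; simp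
  rw [h2]
  exact ENNReal.toReal_mono (ENNReal.mul_ne_top (by simp) (Lp.eLpNorm_lt_top f).ne) h

end PJ

open PJ in
theorem sJ.{u} : S_J.{u} := by
  intro Ω _ μ
  have hc : Continuous (lin μ) := by
    have : Continuous ((lin μ).toLinearMap.mkContinuous 2 (fun f => norm_lin f)) :=
      ContinuousLinearMap.continuous _
    exact this
  exact ⟨(lin μ).toContinuousLinearEquivOfContinuous hc⟩

end Pool.Agent.W6h79.LD
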