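import Pool.Agent.W6h79.LD.Defs

/-!
# (K2) `ℓ¹(Γ)` is the dual of `c₀(Γ)`
-/

open MeasureTheory Set Filter
open scoped ENNReal NNReal Topology ZeroAtInfty

noncomputable section

namespace Pool.Agent.W6h79.LD

universe u

namespace K2

variable {Γ : Type u} [TopologicalSpace Γ] [DiscreteTopology Γ]

open Classical in
/-- finitely supported functions -/
def fin0 (F : Finset Γ) (c : Γ → ℝ) : C₀(Γ, ℝ) where
  toFun γ := if γ ∈ F then c γ else 0
  continuous_toFun := continuous_of_discreteTopology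
  zero_at_infty' := by
    rw [cocompact_eq_cofinite]
    apply tendsto_const_nhds.congr'
    have h : ∀ᶠ γ in cofinite, γ ∉ (F : Set Γ) := F.finite_toSet.eventually_cofinite_notMem
    filter_upwards [h] with γ hγ
    have : γ ∉ F := fun h => hγ (by simpa using h)
    simp [this]

open Classical in
theorem fin0_apply (F : Finset Γ) (c : Γ → ℝ) (γ : Γ) :
    fin0 F c γ = if γ ∈ F then c γ else 0 := rfl

theorem abs_le_norm (f : C₀(Γ, ℝ)) (γ : Γ) : |f γ| ≤ ‖f‖ := by
  rw [← ZeroAtInftyContinuousMap.norm_toBCF_eq_norm]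
  exact f.toBCF.norm_coe_le_norm γ

theorem norm_le_of (f : C₀(Γ, ℝ)) {M : ℝ} (hM : 0 ≤ M) (h : ∀ γ, |f γ| ≤ M) : ‖f‖ ≤ M := by
  rw [← ZeroAtInftyContinuousMap.norm_toBCF_eq_norm]
  exact (BoundedContinuousFunction.norm_le hM).2 h

theorem lp_summable (a : lp (fun _ : Γ => ℝ) 1) : Summable fun γ => |a γ| := by
  have := (lp.memℓp a).summable (by simp)
  simpa using this

theorem lp_norm (a : lp (fun _ : Γ => ℝ) 1) : ‖a‖ = ∑' γ, |a γ| := by
  rw [lp.norm_eq_tsum_rpow (by simp)]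
  simp

theorem mul_summable (a : lp (fun _ : Γ => ℝ) 1) (f : C₀(Γ, ℝ)) :
    Summable fun γ => a γ * f γ := by
  apply Summable.of_norm
  refine Summable.of_nonneg_of_le (fun _ => norm_nonneg _) (fun γ => ?_)
    ((lp_summable a).mul_right ‖f‖)
  rw [norm_mul]
  exact mul_le_mul_of_nonneg_left (abs_le_norm f γ) (abs_nonneg _)

/-- the pairing -/
def pair (a : lp (fun _ : Γ => ℝ) 1) : C₀(Γ, ℝ) →ₗ[ℝ] ℝ where
  toFun f := ∑' γ, a γ * f γ
  map_add' f g := by
    rw [← (mul_summable a f).tsum_add (mul_summable a g)]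
    congr 1
    funext γ
    rw [ZeroAtInftyContinuousMap.add_apply]
    ring
  map_smul' r f := by
    rw [RingHom.id_apply, smul_eq_mul, ← tsum_mul_left]
    congr 1
    funext γ
    rw [ZeroAtInftyContinuousMap.smul_apply, smul_eq_mul]
    ring

theorem pair_le (a : lp (fun _ : Γ => ℝ) 1) (f : C₀(Γ, ℝ)) : ‖pair a f‖ ≤ ‖a‖ * ‖f‖ := by
  show ‖∑' γ, a γ * f γ‖ ≤ _
  have h1 : Summable fun γ => ‖a γ * f γ‖ := (mul_summable a f).norm
  refine (norm_tsum_le_tsum_norm h1).trans ?_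
  rw [lp_norm, ← tsum_mul_right]
  refine h1.tsum_le_tsum (fun γ => ?_) ((lp_summable a).mul_right ‖f‖)
  rw [norm_mul]
  exact mul_le_mul_of_nonneg_left (abs_le_norm f γ) (abs_nonneg _)

theorem pair_fin0 (a : lp (fun _ : Γ => ℝ) 1) (F : Finset Γ) (c : Γ → ℝ) :
    pair a (fin0 F c) = ∑ γ ∈ F, a γ * c γ := by
  show ∑' γ, a γ * fin0 F c γ = _
  rw [tsum_eq_sum (s := F)]
  · refine Finset.sum_congr rfl fun γ hγ => ?_
    rw [fin0_apply, if_pos hγ]
  · intro γ hγ
    rw [fin0_apply, if_neg hγ, mul_zero]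

open Classical in
theorem fin0_single (b γ : Γ) :
    fin0 {b} (fun _ => (1 : ℝ)) γ = if γ = b then 1 else 0 := by
  rw [fin0_apply]
  by_cases h : γ = b
  · rw [if_pos h, if_pos (by simp [h])]
  · rw [if_neg h, if_neg (by simpa using h)]

theorem sum_apply (F : Finset Γ) (g : Γ → C₀(Γ, ℝ)) (γ : Γ) :
    (∑ γ' ∈ F, g γ') γ = ∑ γ' ∈ F, g γ' γ := by
  classical
  induction F using Finset.induction_on with
  | empty => simp
  | insert a s ha ih =>
    rw [Finset.sum_insert ha, Finset.sum_insert ha, ZeroAtInftyContinuousMap.add_apply, ih]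

theorem sum_fin0 (F : Finset Γ) (c : Γ → ℝ) :
    fin0 F c = ∑ γ ∈ F, c γ • fin0 {γ} (fun _ => (1 : ℝ)) := by
  classical
  ext γ
  rw [sum_apply, fin0_apply]
  simp only [ZeroAtInftyContinuousMap.smul_apply, smul_eq_mul]
  by_cases hγ : γ ∈ F
  · rw [if_pos hγ, Finset.sum_eq_single γ]
    · rw [fin0_single, if_pos rfl, mul_one]
    · intro b _ hb
      rw [fin0_single, if_neg (Ne.symm hb), mul_zero]
    · intro h; exact absurd hγ h
  · rw [if_neg hγ]
    symm
    apply Finset.sum_eq_zero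
    intro b hb
    have hne : γ ≠ b := fun h => hγ (by rw [h]; exact hb)
    rw [fin0_single, if_neg hne, mul_zero]

theorem norm_sign_fin0 (F : Finset Γ) (a : Γ → ℝ) :
    ‖fin0 F (fun γ => (SignType.sign (a γ) : ℝ))‖ ≤ 1 := by
  apply norm_le_of _ zero_le_one
  intro γ
  rw [fin0_apply]
  split_ifs
  · rcases lt_trichotomy (a γ) 0 with h | h | h
    · simp [sign_neg h]
    · simp [h]
    · simp [sign_pos h]
  · simp

theorem approx (f : C₀(Γ, ℝ)) {ε : ℝ} (hε : 0 < ε) : ∃ F : Finset Γ, ‖f - fin0 F f‖ ≤ ε := by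
  have h1 : Tendsto f cofinite (𝓝 0) := by
    rw [← cocompact_eq_cofinite]
    exact f.zero_at_infty'
  have h2 : ∀ᶠ γ in cofinite, |f γ| < ε := by
    have := h1.eventually (Metric.ball_mem_nhds (0 : ℝ) hε)
    filter_upwards [this] with γ hγ
    simpa [Metric.mem_ball, dist_eq_norm] using hγ
  have h3 : {γ | ¬ |f γ| < ε}.Finite := h2
  refine ⟨h3.toFinset, norm_le_of _ hε.le fun γ => ?_⟩
  rw [ZeroAtInftyContinuousMap.sub_apply, fin0_apply]
  split_ifs with h
  · simp [hε.le]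
  · have : |f γ| < ε := by
      by_contra hc
      exact h (by simpa using hc)
    rw [sub_zero]
    exact this.le

end K2

open K2

theorem sK2 : S_K2.{u} := by
  intro Γ
  let _ : TopologicalSpace Γ := ⊥
  have _ : DiscreteTopology Γ := ⟨rfl⟩
  refine ⟨C₀(Γ, ℝ), inferInstance, inferInstance, inferInstance, ⟨?_⟩⟩
  have hJle : ∀ a : lp (fun _ : Γ => ℝ) 1, ‖(pair a).mkContinuous ‖a‖ (pair_le a)‖ ≤ ‖a‖ := fun a =>
    LinearMap.mkContinuous_norm_le _ (norm_nonneg _) _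
  have hJ : ∀ (a : lp (fun _ : Γ => ℝ) 1) (f : C₀(Γ, ℝ)),
      (pair a).mkContinuous ‖a‖ (pair_le a) f = ∑' γ, a γ * f γ := fun a f => rfl
  let J : lp (fun _ : Γ => ℝ) 1 →ₗ[ℝ] StrongDual ℝ C₀(Γ, ℝ) :=
    { toFun := fun a => (pair a).mkContinuous ‖a‖ (pair_le a)
      map_add' := by
        intro a b
        ext f
        rw [add_apply, hJ, hJ, hJ,
          ← (mul_summable a f).tsum_add (mul_summable b f)]
        congr 1
        funext γ
        rw [lp.coeFn_add, Pi.add_apply]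
        ring
      map_smul' := by
        intro r a
        ext f
        rw [RingHom.id_apply, smul_apply, hJ, hJ, smul_eq_mul,
          ← tsum_mul_left]
        congr 1
        funext γ
        rw [lp.coeFn_smul, Pi.smul_apply, smul_eq_mul]
        ring }
  have hiso : ∀ a, ‖J a‖ = ‖a‖ := by
    intro a
    refine le_antisymm (hJle a) ?_
    rw [lp_norm]
    refine (lp_summable a).tsum_le_of_sum_le fun F => ?_
    have h1 : J a (fin0 F (fun γ => (SignType.sign (a γ) : ℝ))) = ∑ γ ∈ F, |a γ| := by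
      show pair a _ = _
      rw [pair_fin0]
      refine Finset.sum_congr rfl fun γ _ => ?_
      rw [mul_comm]
      exact sign_mul_self (a γ)
    rw [← h1]
    calc J a (fin0 F (fun γ => (SignType.sign (a γ) : ℝ)))
        ≤ ‖J a (fin0 F (fun γ => (SignType.sign (a γ) : ℝ)))‖ := Real.le_norm_self _
      _ ≤ ‖J a‖ * ‖fin0 F (fun γ => (SignType.sign (a γ) : ℝ))‖ := (J a).le_opNorm _
      _ ≤ ‖J a‖ * 1 := mul_le_mul_of_nonneg_left (norm_sign_fin0 F _) (by positivity)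
      _ = ‖J a‖ := mul_one _
  let JI : lp (fun _ : Γ => ℝ) 1 →ₗᵢ[ℝ] StrongDual ℝ C₀(Γ, ℝ) := ⟨J, hiso⟩
  refine LinearIsometryEquiv.ofSurjective JI ?_
  intro x
  -- the coefficients
  have hsum : Summable fun γ : Γ => |x (fin0 {γ} (fun _ => (1 : ℝ)))| := by
    apply summable_of_sum_le (c := ‖x‖) (fun _ => abs_nonneg _)
    intro F
    obtain ⟨b, hb⟩ : ∃ b : Γ → ℝ, b = fun γ => x (fin0 {γ} (fun _ => (1 : ℝ))) := ⟨_, rfl⟩
    have h1 : x (fin0 F (fun γ => (SignType.sign (b γ) : ℝ))) = ∑ γ ∈ F, |b γ| := by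
      rw [sum_fin0, map_sum]
      refine Finset.sum_congr rfl fun γ _ => ?_
      rw [map_smul, smul_eq_mul]
      have : x (fin0 {γ} (fun _ => (1 : ℝ))) = b γ := by rw [hb]
      rw [this]
      exact sign_mul_self (b γ)
    have h2 : ∑ γ ∈ F, |x (fin0 {γ} (fun _ => (1 : ℝ)))| = ∑ γ ∈ F, |b γ| := by rw [hb]
    rw [h2, ← h1]
    calc x (fin0 F (fun γ => (SignType.sign (b γ) : ℝ)))
        ≤ ‖x (fin0 F (fun γ => (SignType.sign (b γ) : ℝ)))‖ := Real.le_norm_self _
      _ ≤ ‖x‖ * ‖fin0 F (fun γ => (SignType.sign (b γ) : ℝ))‖ := x.le_opNorm _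
      _ ≤ ‖x‖ * 1 := mul_le_mul_of_nonneg_left (norm_sign_fin0 F _) (norm_nonneg _)
      _ = ‖x‖ := mul_one _
  have hmem : Memℓp (fun γ : Γ => x (fin0 {γ} (fun _ => (1 : ℝ)))) 1 := by
    apply memℓp_gen
    simpa using hsum
  let a : lp (fun _ : Γ => ℝ) 1 := ⟨_, hmem⟩
  have ha : ∀ γ, a γ = x (fin0 {γ} (fun _ => (1 : ℝ))) := fun _ => rfl
  refine ⟨a, ?_⟩
  show J a = x
  have hfin : ∀ (F : Finset Γ) (c : Γ → ℝ), J a (fin0 F c) = x (fin0 F c) := by
    intro F c
    show pair a _ = _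
    rw [pair_fin0, sum_fin0, map_sum]
    refine Finset.sum_congr rfl fun γ _ => ?_
    rw [map_smul, smul_eq_mul, ha, mul_comm]
  ext f
  have hle : ∀ ε : ℝ, 0 < ε → |J a f - x f| ≤ ‖J a - x‖ * ε := by
    intro ε hε
    obtain ⟨F, hF⟩ := approx f hε
    have h1 : J a f - x f = (J a - x) (f - fin0 F f) := by
      rw [map_sub, sub_apply, sub_apply, hfin]
      ring
    rw [h1]
    exact ((J a - x).le_opNorm _).trans (mul_le_mul_of_nonneg_left hF (norm_nonneg _))
  by_contra hne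
  have hpos : 0 < |J a f - x f| := abs_pos.2 (sub_ne_zero.2 hne)
  have h1 := hle (|J a f - x f| / (2 * (‖J a - x‖ + 1))) (by positivity)
  have h2 : ‖J a - x‖ * (|J a f - x f| / (2 * (‖J a - x‖ + 1))) ≤ |J a f - x f| / 2 := by
    rw [mul_div_assoc', div_le_div_iff₀ (by positivity) (by norm_num)]
    nlinarith [norm_nonneg (J a - x)]
  linarith

end Pool.Agent.W6h79.LD
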