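import Pool.Agent.W6h79.LD.Defs

open MeasureTheory Set Filter
open scoped ENNReal NNReal Topology

noncomputable section

namespace Pool.Agent.W6h79.LD

universe u v

lemma L1_norm_eq {Ω : Type u} [MeasurableSpace Ω] {μ : Measure Ω} (f : Lp ℝ 1 μ) :
    ‖f‖ = ∫ ω, |f ω| ∂μ := by
  rw [L1.norm_eq_integral_norm]
  simp only [Real.norm_eq_abs]

lemma sgnsum_est (hI : S_I.{u}) {Ω : Type u} [MeasurableSpace Ω] (μ : Measure Ω) (G : Set Ω)
    (hG : MeasurableSet G) (hGfin : μ G < ∞) (M : ℝ) (hM : 0 ≤ M) (m : ℕ) (η : ℝ)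
    (z : Fin m → Lp ℝ 1 μ)
    (hz : ∀ j, ∫ ω in (G ∩ {ω | |z j ω| ≤ M})ᶜ, |z j ω| ∂μ ≤ η) :
    ∃ ε : Fin m → ℝ, (∀ j, ε j = 1 ∨ ε j = -1) ∧
      ‖∑ j, ε j • z j‖ ≤ M * (μ G).toReal * Real.sqrt m + m * η := by
  classical
  set R : Fin m → Set Ω := fun j => G ∩ {ω | |z j ω| ≤ M} with hR
  have hzm : ∀ j, Measurable (z j : Ω → ℝ) := fun j => (Lp.stronglyMeasurable (z j)).measurable
  have hRm : ∀ j, MeasurableSet (R j) := fun j =>
    hG.inter (measurableSet_le ((hzm j).abs) measurable_const)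
  set g : Fin m → Ω → ℝ := fun j => (R j).indicator (z j) with hg
  obtain ⟨ε, hε, hI1⟩ := hI Ω μ G hG hGfin M m g (fun j => (hzm j).indicator (hRm j))
    (by
      intro j ω
      by_cases h : ω ∈ R j
      · simp only [hg, indicator_of_mem h]; exact h.2
      · simp only [hg, indicator_of_notMem h, abs_zero]; exact hM)
    (by
      intro j ω h
      have : ω ∉ R j := fun h' => h h'.1
      simp only [hg, indicator_of_notMem this])
  refine ⟨ε, hε, ?_⟩
  have hzi : ∀ j, Integrable (z j : Ω → ℝ) μ := fun j => L1.integrable_coeFn (z j)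
  have hgi : ∀ j, Integrable (g j) μ := fun j => (hzi j).indicator (hRm j)
  have hdi : ∀ j, Integrable ((R j)ᶜ.indicator (z j : Ω → ℝ)) μ := fun j =>
    (hzi j).indicator (hRm j).compl
  have hdec : ∀ j ω, z j ω = g j ω + (R j)ᶜ.indicator (z j : Ω → ℝ) ω := by
    intro j ω
    simp only [hg]
    have := congrFun (Set.indicator_self_add_compl (R j) (z j : Ω → ℝ)) ω
    simpa using this.symm
  have hcoe : ((∑ j, ε j • z j : Lp ℝ 1 μ) : Ω → ℝ) =ᵐ[μ] fun ω => ∑ j, ε j * z j ω := by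
    have h1 : ((∑ j, ε j • z j : Lp ℝ 1 μ) : Ω → ℝ) =ᵐ[μ]
        ∑ j, ((ε j • z j : Lp ℝ 1 μ) : Ω → ℝ) := by
      exact Lp.coeFn_fun_finsetSum  _ _ |>.trans (by
        filter_upwards with ω
        simp)
    have h2 : ∀ᵐ ω ∂μ, ∀ j, (ε j • z j : Lp ℝ 1 μ) ω = ε j * z j ω := by
      rw [ae_all_iff]
      intro j
      filter_upwards [Lp.coeFn_smul (ε j) (z j)] with ω hω
      rw [hω]; rfl
    filter_upwards [h1, h2] with ω h1 h2
    rw [h1, Finset.sum_apply]
    exact Finset.sum_congr rfl (fun j _ => h2 j)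
  rw [L1_norm_eq]
  have e1 : ∫ ω, |(∑ j, ε j • z j : Lp ℝ 1 μ) ω| ∂μ = ∫ ω, |∑ j, ε j * z j ω| ∂μ := by
    apply integral_congr_ae
    filter_upwards [hcoe] with ω hω
    rw [hω]
  rw [e1]
  have hεabs : ∀ j, |ε j| = 1 := by
    intro j; rcases hε j with h | h <;> rw [h] <;> simp
  calc ∫ ω, |∑ j, ε j * z j ω| ∂μ
      ≤ ∫ ω, (|∑ j, ε j * g j ω| + ∑ j, |(R j)ᶜ.indicator (z j : Ω → ℝ) ω|) ∂μ := by
        apply integral_mono_of_nonneg
        · exact Eventually.of_forall (fun ω => abs_nonneg _)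
        · exact (integrable_finsetSum _ (fun j _ => (hgi j).const_mul (ε j))).abs.add
            (integrable_finsetSum _ (fun j _ => (hdi j).abs))
        · refine Eventually.of_forall (fun ω => ?_)
          show |∑ j, ε j * z j ω| ≤ |∑ j, ε j * g j ω| + ∑ j, |(R j)ᶜ.indicator (z j : Ω → ℝ) ω|
          have : ∑ j, ε j * z j ω = ∑ j, ε j * g j ω +
              ∑ j, ε j * (R j)ᶜ.indicator (z j : Ω → ℝ) ω := by
            rw [← Finset.sum_add_distrib]
            refine Finset.sum_congr rfl (fun j _ => ?_)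
            rw [← mul_add, ← hdec j ω]
          rw [this]
          refine (abs_add_le _ _).trans ?_
          gcongr
          refine (Finset.abs_sum_le_sum_abs _ _).trans ?_
          refine Finset.sum_le_sum (fun j _ => ?_)
          rw [abs_mul, hεabs j, one_mul]
    _ = ∫ ω, |∑ j, ε j * g j ω| ∂μ + ∑ j, ∫ ω, |(R j)ᶜ.indicator (z j : Ω → ℝ) ω| ∂μ := by
        rw [integral_add, integral_finsetSum]
        · exact fun j _ => (hdi j).abs
        · exact (integrable_finsetSum _ (fun j _ => (hgi j).const_mul (ε j))).abs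
        · exact (integrable_finsetSum _ (fun j _ => (hdi j).abs))
    _ ≤ M * (μ G).toReal * Real.sqrt m + m * η := by
        gcongr
        calc ∑ j, ∫ ω, |(R j)ᶜ.indicator (z j : Ω → ℝ) ω| ∂μ
            ≤ ∑ j : Fin m, η := by
              refine Finset.sum_le_sum (fun j _ => ?_)
              have : ∀ ω, |(R j)ᶜ.indicator (z j : Ω → ℝ) ω| =
                  (R j)ᶜ.indicator (fun ω => |z j ω|) ω := by
                intro ω
                by_cases h : ω ∈ (R j)ᶜ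
                · rw [indicator_of_mem h, indicator_of_mem h]
                · rw [indicator_of_notMem h, indicator_of_notMem h, abs_zero]
              simp_rw [this]
              rw [integral_indicator (hRm j).compl]
              exact hz j
          _ = m * η := by simp

lemma card_aux {X : Type u} (hX : Cardinal.mk X < Cardinal.continuum) :
    Cardinal.mk (Finset X × ℕ) < Cardinal.continuum := by
  rw [Cardinal.mk_prod]
  simp only [Cardinal.lift_id, Cardinal.mk_eq_aleph0, Cardinal.lift_aleph0]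
  apply Cardinal.mul_lt_of_lt Cardinal.aleph0_le_continuum _ (by
    simpa using Cardinal.aleph0_lt_continuum)
  rw [Cardinal.lift_uzero]
  rcases finite_or_infinite X with h | h
  · have : Finite (Finset X) := by
      have := Fintype.ofFinite X
      infer_instance
    exact (Cardinal.lt_aleph0_of_finite _).trans Cardinal.aleph0_lt_continuum
  · rw [Cardinal.mk_finset_of_infinite]
    exact hX

/-- Embedding version of the main theorem. -/
def S_Main2.{u1, u2, v1} : Prop := ∀ (Ω : Type u1) [MeasurableSpace Ω] (μ : Measure Ω)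
    (𝓢 : Set (Set Ω)), Covers μ 𝓢 → Cardinal.mk 𝓢 < Cardinal.continuum →
    ∀ (Y : Type v1) [NormedAddCommGroup Y] [NormedSpace ℝ Y]
      (U : StrongDual ℝ Y →L[ℝ] Lp ℝ 1 μ) (b : ℝ), 0 < b → (∀ x, b * ‖x‖ ≤ ‖U x‖) →
    ∀ (Ω' : Type u2) [MeasurableSpace Ω'] (ρ : Measure Ω')
      (T : Lp ℝ 1 ρ →L[ℝ] StrongDual ℝ Y) (c : ℝ), 0 < c → (∀ f, c * ‖f‖ ≤ ‖T f‖) →
    ∀ E : Set Ω', MeasurableSet E → 0 < ρ E → ρ E < ∞ → ∃ A ⊆ E, AtomSet ρ A

theorem sMain2.{u1, u2, v1} (hC : S_C.{u2, v1}) (hD : S_D.{v1}) (hE : S_E.{v1})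
    (hH : S_H.{u1}) (hI : S_I.{u1}) : S_Main2.{u1, u2, v1} := by
  intro Ω _ μ 𝓢 hcov hcard Y _ _ U b hb hU Ω' _ ρ T c hc hT E hEm hpos hfin
  classical
  by_contra hno
  push Not at hno
  set B : ℝ := ‖U‖ + 1 with hBdef
  have hBpos : 0 < B := by positivity
  have hUle : ∀ x, ‖U x‖ ≤ B * ‖x‖ := by
    intro x
    refine (U.le_opNorm x).trans ?_
    gcongr
    linarith
  obtain ⟨y, δ, hδ, hy1, hy⟩ := hC Ω' ρ Y T c hc hT E hEm hpos hfin
    (fun A hA hA' => hno A hA hA')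
  have hext := hD Y y δ hδ hy
  obtain ⟨w, hw1, hw2⟩ := hE Y y (1 / δ) hy1 hext
  have hz : ∀ α, ∀ η : ℝ, 0 < η → ∃ (k : ℕ) (F : Finset (Set Ω)) (M : ℕ),
      (↑F : Set (Set Ω)) ⊆ 𝓢 ∧
      ∫ ω in ((⋃₀ (↑F : Set (Set Ω))) ∩ {ω | |(U (w α k)) ω| ≤ (M : ℝ)})ᶜ,
        |(U (w α k)) ω| ∂μ ≤ η := by
    intro α
    refine hH Ω μ 𝓢 hcov (fun k => U (w α k)) (B * (1 / δ)) ?_
    intro J ε hε
    have h1 : ∑ k ∈ J, ε k • U (w α k) = U (∑ k ∈ J, ε k • w α k) := by
      rw [map_sum]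
      simp only [map_smul]
    rw [h1]
    refine (hUle _).trans ?_
    rw [mul_assoc]
    gcongr
    exact hw1 α J ε hε
  set η : ℝ := b / 2 with hη
  have hηpos : 0 < η := by positivity
  choose k F M hF hint using fun α => hz α η hηpos
  -- fibre
  let f : ULift.{u1} (ℕ → Bool) → Finset 𝓢 × ℕ := fun α =>
    ((F α.down).subtype (· ∈ 𝓢), M α.down)
  have hcard2 : Cardinal.mk (Finset 𝓢 × ℕ) < Cardinal.mk (ULift.{u1} (ℕ → Bool)) := by
    have : Cardinal.mk (ULift.{u1} (ℕ → Bool)) = Cardinal.continuum := by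
      rw [Cardinal.mk_uLift]
      simp
    rw [this]
    exact card_aux hcard
  have hinfty : Infinite (Finset 𝓢 × ℕ) := inferInstance
  obtain ⟨⟨F₀, M₀⟩, hfib⟩ := Cardinal.exists_infinite_fiber f hcard2
  let X : Set (ℕ → Bool) := {α | (F α).subtype (· ∈ 𝓢) = F₀ ∧ M α = M₀}
  have hX : X.Infinite := by
    have h1 : (f ⁻¹' {(F₀, M₀)}).Infinite := Set.infinite_coe_iff.1 hfib
    have h2 : ULift.down '' (f ⁻¹' {(F₀, M₀)}) ⊆ X := by
      rintro α ⟨a, ha, rfl⟩
      have : f a = (F₀, M₀) := ha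
      simp only [f, Prod.mk.injEq] at this
      exact this
    exact (h1.image ULift.down_injective.injOn).mono h2
  let Fm : Finset (Set Ω) := F₀.map (Function.Embedding.subtype _)
  have hFX : ∀ α ∈ X, F α = Fm := by
    intro α hα
    have : (F α).subtype (· ∈ 𝓢) = F₀ := hα.1
    rw [show Fm = F₀.map (Function.Embedding.subtype _) from rfl, ← this,
      Finset.subtype_map]
    rw [Finset.filter_true_of_mem]
    intro x hx
    exact hF α hx
  set G : Set Ω := ⋃₀ (↑Fm : Set (Set Ω)) with hGdef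
  have hFmS : (↑Fm : Set (Set Ω)) ⊆ 𝓢 := by
    obtain ⟨α, hα⟩ := hX.nonempty
    rw [← hFX α hα]
    exact hF α
  have hGm : MeasurableSet G :=
    MeasurableSet.sUnion (Fm.countable_toSet) (fun S hS' => (hcov.1 S (hFmS hS')).1)
  have hGfin : μ G < ∞ := by
    rw [hGdef, Set.sUnion_eq_biUnion]
    refine (measure_biUnion_lt_top Fm.finite_toSet ?_)
    intro S hS'
    exact (hcov.1 S (hFmS hS')).2
  -- the main estimate
  have main : ∀ m : ℕ, b * (m : ℝ) ≤ (M₀ : ℝ) * (μ G).toReal * Real.sqrt m + m * η := by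
    intro m
    obtain ⟨t, htX, htcard⟩ := hX.exists_subset_card_eq m
    let ι : Fin m ≃ t := (Fintype.equivFinOfCardEq (by simpa using htcard)).symm
    obtain ⟨ε, hε, hle⟩ := sgnsum_est hI μ G hGm hGfin (M₀ : ℝ) (by positivity) m η
      (fun j => U (w (ι j) (k (ι j))))
      (by
        intro j
        have hj : (ι j : ℕ → Bool) ∈ X := htX (ι j).2
        have := hint (ι j)
        rw [hFX _ hj, hj.2] at this
        exact this)
    have h1 : ∑ j, ε j • U (w (ι j) (k (ι j))) =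
        U (∑ j, ε j • w (ι j) (k (ι j))) := by
      rw [map_sum]
      simp only [map_smul]
    have h2 : (m : ℝ) ≤ ‖∑ j, ε j • w (ι j) (k (ι j))‖ := by
      let c : (ℕ → Bool) → ℝ := fun α => if h : α ∈ t then ε (ι.symm ⟨α, h⟩) else 0
      have h3 := hw2 t k c
      have h4 : ∑ α ∈ t, |c α| = m := by
        have : ∀ α ∈ t, |c α| = 1 := by
          intro α hα
          simp only [c, dif_pos hα]
          rcases hε (ι.symm ⟨α, hα⟩) with h | h <;> rw [h] <;> simp
        rw [Finset.sum_congr rfl this]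
        simp [htcard]
      have h5 : ∑ α ∈ t, c α • w α (k α) = ∑ j, ε j • w (ι j) (k (ι j)) := by
        rw [← Finset.sum_coe_sort t (fun α => c α • w α (k α))]
        rw [← ι.sum_comp]
        refine Finset.sum_congr rfl (fun j _ => ?_)
        simp only [c]
        rw [dif_pos (ι j).2]
        simp
      rw [h4, h5] at h3
      exact h3
    calc b * (m : ℝ) ≤ b * ‖∑ j, ε j • w (ι j) (k (ι j))‖ := by gcongr
      _ ≤ ‖U (∑ j, ε j • w (ι j) (k (ι j)))‖ := hU _
      _ ≤ (M₀ : ℝ) * (μ G).toReal * Real.sqrt m + m * η := by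
        rw [← h1]
        exact hle
  -- contradiction
  set Q : ℝ := (M₀ : ℝ) * (μ G).toReal with hQ
  have hQ0 : 0 ≤ Q := by positivity
  obtain ⟨N, hN⟩ := exists_nat_gt (2 * Q / b)
  have hN0 : (0 : ℝ) < N := lt_of_le_of_lt (by positivity) hN
  have hN' : 2 * Q < N * b := (div_lt_iff₀ hb).1 hN
  have h := main (N ^ 2)
  have hsq : Real.sqrt ((N ^ 2 : ℕ) : ℝ) = N := by
    push_cast
    exact Real.sqrt_sq hN0.le
  rw [hsq] at h
  push_cast at h
  have h' : b / 2 * (N : ℝ) ^ 2 ≤ Q * N := by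
    rw [hη] at h
    linarith
  nlinarith

theorem sMain_of_sMain2 (h : S_Main2.{u, u, v}) : S_Main.{u, v} := by
  intro Ω _ μ 𝓢 hcov hcard Y _ _ e
  set T : Lp ℝ 1 μ →L[ℝ] StrongDual ℝ Y := (e : Lp ℝ 1 μ →L[ℝ] StrongDual ℝ Y) with hT
  set S : StrongDual ℝ Y →L[ℝ] Lp ℝ 1 μ := (e.symm : StrongDual ℝ Y →L[ℝ] Lp ℝ 1 μ) with hS
  set D : ℝ := ‖T‖ + 1 with hDdef
  set B : ℝ := ‖S‖ + 1 with hBdef
  have hDpos : 0 < D := by positivity
  have hBpos : 0 < B := by positivity
  refine h Ω μ 𝓢 hcov hcard Y S (1 / D) (by positivity) ?_ Ω μ T (1 / B) (by positivity) ?_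
  · intro x
    have := T.le_opNorm (e.symm x)
    have h2 : ‖T (e.symm x)‖ = ‖x‖ := by
      show ‖e (e.symm x)‖ = ‖x‖
      rw [e.apply_symm_apply]
    rw [h2] at this
    rw [one_div, inv_mul_le_iff₀ hDpos]
    refine this.trans ?_
    show ‖T‖ * ‖e.symm x‖ ≤ D * ‖e.symm x‖
    gcongr
    linarith
  · intro f
    have := S.le_opNorm (e f)
    have h2 : ‖S (e f)‖ = ‖f‖ := by
      show ‖e.symm (e f)‖ = ‖f‖
      rw [e.symm_apply_apply]
    rw [h2] at this
    rw [one_div, inv_mul_le_iff₀ hBpos]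
    refine this.trans ?_
    show ‖S‖ * ‖e f‖ ≤ B * ‖e f‖
    gcongr
    linarith

end Pool.Agent.W6h79.LD
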