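import Pool.Agent.W6h79.LD.A
import Pool.Agent.W6h79.LD.B
import Pool.Agent.W6h79.LD.C1
import Pool.Agent.W6h79.LD.C
import Pool.Agent.W6h79.LD.D
import Pool.Agent.W6h79.LD.E1
import Pool.Agent.W6h79.LD.E
import Pool.Agent.W6h79.LD.F
import Pool.Agent.W6h79.LD.G
import Pool.Agent.W6h79.LD.H
import Pool.Agent.W6h79.LD.I
import Pool.Agent.W6h79.LD.J
import Pool.Agent.W6h79.LD.K2
import Pool.Agent.W6h79.LD.Main

noncomputable section

namespace Pool.Agent.W6h79.LD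

theorem main2.{u1, u2, v1} : S_Main2.{u1, u2, v1} :=
  sMain2 (sC (sC1 sA sB)) sD (sE sE1) (sH sF sG) sI

theorem main1.{u, v} : S_Main.{u, v} := sMain_of_sMain2 main2

end Pool.Agent.W6h79.LD
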