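import Pool.Agent.W6h79.LD.Defs3

/-!
# (CX): complexification
-/

open MeasureTheory Set Filter
open scoped ENNReal NNReal Topology

noncomputable section

namespace Pool.Agent.W6h79.LD

namespace CX

/-- The complexification of a real normed space, as the space of real linear maps on `ℂ`. -/
def CZ.{v} (Z : Type v) [NormedAddCommGroup Z] [NormedSpace ℝ Z] : Type v := ℂ →L[ℝ] Z

section
universe v
variable (Z : Type v) [NormedAddCommGroup Z] [NormedSpace ℝ Z]

instance : NormedAddCommGroup (CZ Z) := inferInstanceAs (NormedAddCommGroup (ℂ →L[ℝ] Z))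

instance [CompleteSpace Z] : CompleteSpace (CZ Z) := inferInstanceAs (CompleteSpace (ℂ →L[ℝ] Z))

variable {Z}

/-- the underlying map -/
def un (T : CZ Z) : ℂ →L[ℝ] Z := T

/-- the element of the complexification -/
def mk' (T : ℂ →L[ℝ] Z) : CZ Z := T

theorem un_ext {S T : CZ Z} (h : ∀ w, un S w = un T w) : S = T :=
  ContinuousLinearMap.ext (f := un S) (g := un T) h

theorem un_add (S T : CZ Z) (w : ℂ) : un (S + T) w = un S w + un T w := rfl

theorem norm_un (T : CZ Z) : ‖un T‖ = ‖T‖ := rfl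

instance : SMul ℂ (CZ Z) := ⟨fun c T => mk' ((un T).comp (ContinuousLinearMap.mul ℝ ℂ c))⟩

theorem un_smul (c : ℂ) (T : CZ Z) (w : ℂ) : un (c • T) w = un T (c * w) := rfl

instance : Module ℂ (CZ Z) where
  one_smul T := un_ext fun w => by rw [un_smul, one_mul]
  mul_smul c d T := un_ext fun w => by rw [un_smul, un_smul, un_smul]; congr 1; ring
  smul_zero c := un_ext fun w => by rw [un_smul]; rfl
  smul_add c S T := un_ext fun w => by rw [un_smul, un_add, un_add, un_smul, un_smul]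
  add_smul c d T := un_ext fun w => by rw [un_smul, un_add, un_smul, un_smul, add_mul, map_add]
  zero_smul T := un_ext fun w => by
    rw [un_smul, zero_mul, map_zero]; rfl

instance : NormedSpace ℂ (CZ Z) where
  norm_smul_le c T := by
    have h : ‖(un T).comp (ContinuousLinearMap.mul ℝ ℂ c)‖ ≤
        ‖un T‖ * ‖ContinuousLinearMap.mul ℝ ℂ c‖ := ContinuousLinearMap.opNorm_comp_le _ _
    rw [ContinuousLinearMap.opNorm_mul_apply, norm_un, mul_comm] at h
    exact h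

/-- the real points -/
def io (z : Z) : CZ Z := mk' (Complex.reCLM.smulRight z)

theorem un_io (z : Z) (w : ℂ) : un (io z) w = w.re • z := rfl

theorem io_norm (z : Z) : ‖io z‖ ≤ ‖z‖ := by
  refine ContinuousLinearMap.opNorm_le_bound _ (norm_nonneg z) fun w => ?_
  show ‖w.re • z‖ ≤ _
  rw [norm_smul, mul_comm]
  exact mul_le_mul_of_nonneg_left (Complex.abs_re_le_norm w) (norm_nonneg z)

theorem io_add (z z' : Z) : io (z + z') = io z + io z' :=
  un_ext fun w => by rw [un_add, un_io, un_io, un_io, smul_add]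

theorem io_smul (r : ℝ) (z : Z) : io (r • z) = (r : ℂ) • io z :=
  un_ext fun w => by
    rw [un_smul, un_io, un_io, smul_smul, Complex.re_ofReal_mul, mul_comm]

theorem decomp (T : CZ Z) : T = io (un T 1) - Complex.I • io (un T Complex.I) :=
  un_ext fun w => by
    have h1 : un (io (un T 1) - Complex.I • io (un T Complex.I)) w =
        un (io (un T 1)) w - un (Complex.I • io (un T Complex.I)) w := rfl
    rw [h1, un_smul, un_io, un_io]
    have h2 : w = w.re • (1 : ℂ) + w.im • Complex.I := by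
      apply Complex.ext <;> simp
    have h3 : (Complex.I * w).re = - w.im := by simp
    conv_lhs => rw [h2]
    rw [map_add, map_smul, map_smul, h3, neg_smul, sub_neg_eq_add]

end

section
universe u v
variable {Ω : Type u} [MeasurableSpace Ω] {μ : Measure Ω} {Z : Type v}
    [NormedAddCommGroup Z] [NormedSpace ℝ Z]

/-- real part -/
def RE (μ : Measure Ω) : Lp ℂ 1 μ →L[ℝ] Lp ℝ 1 μ := Complex.reCLM.compLpL 1 μ
/-- imaginary part -/
def IM (μ : Measure Ω) : Lp ℂ 1 μ →L[ℝ] Lp ℝ 1 μ := Complex.imCLM.compLpL 1 μ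
/-- inclusion of the real functions -/
def OF (μ : Measure Ω) : Lp ℝ 1 μ →L[ℝ] Lp ℂ 1 μ := Complex.ofRealCLM.compLpL 1 μ

theorem RE_ae (F : Lp ℂ 1 μ) : (RE μ F : Ω → ℝ) =ᵐ[μ] fun x => (F x).re :=
  ContinuousLinearMap.coeFn_compLpL _ F
theorem IM_ae (F : Lp ℂ 1 μ) : (IM μ F : Ω → ℝ) =ᵐ[μ] fun x => (F x).im :=
  ContinuousLinearMap.coeFn_compLpL _ F
theorem OF_ae (f : Lp ℝ 1 μ) : (OF μ f : Ω → ℂ) =ᵐ[μ] fun x => (f x : ℂ) :=
  ContinuousLinearMap.coeFn_compLpL _ f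

theorem RE_smul (c : ℂ) (F : Lp ℂ 1 μ) : RE μ (c • F) = c.re • RE μ F - c.im • IM μ F := by
  refine Lp.ext ?_
  filter_upwards [RE_ae (c • F), RE_ae F, IM_ae F, Lp.coeFn_smul c F,
    Lp.coeFn_sub (c.re • RE μ F) (c.im • IM μ F), Lp.coeFn_smul c.re (RE μ F),
    Lp.coeFn_smul c.im (IM μ F)] with x h1 h2 h3 h4 h5 h6 h7
  rw [h1, h4, h5, Pi.sub_apply, h6, h7, Pi.smul_apply, Pi.smul_apply, Pi.smul_apply, h2, h3]
  simp

theorem IM_smul (c : ℂ) (F : Lp ℂ 1 μ) : IM μ (c • F) = c.re • IM μ F + c.im • RE μ F := by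
  refine Lp.ext ?_
  filter_upwards [IM_ae (c • F), RE_ae F, IM_ae F, Lp.coeFn_smul c F,
    Lp.coeFn_add (c.re • IM μ F) (c.im • RE μ F), Lp.coeFn_smul c.re (IM μ F),
    Lp.coeFn_smul c.im (RE μ F)] with x h1 h2 h3 h4 h5 h6 h7
  rw [h1, h4, h5, Pi.add_apply, h6, h7, Pi.smul_apply, Pi.smul_apply, Pi.smul_apply, h2, h3]
  simp

theorem RE_OF (f : Lp ℝ 1 μ) : RE μ (OF μ f) = f := by
  refine Lp.ext ?_
  filter_upwards [RE_ae (OF μ f), OF_ae f] with x h1 h2
  rw [h1, h2, Complex.ofReal_re]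

theorem IM_OF (f : Lp ℝ 1 μ) : IM μ (OF μ f) = 0 := by
  refine Lp.ext ?_
  filter_upwards [IM_ae (OF μ f), OF_ae f, Lp.coeFn_zero ℝ 1 μ] with x h1 h2 h3
  rw [h1, h2, Complex.ofReal_im, h3]
  rfl

theorem eq_zero (F : Lp ℂ 1 μ) (h1 : RE μ F = 0) (h2 : IM μ F = 0) : F = 0 := by
  refine Lp.ext ?_
  have h3 := RE_ae F
  have h4 := IM_ae F
  rw [h1] at h3
  rw [h2] at h4
  filter_upwards [h3, h4, Lp.coeFn_zero ℝ 1 μ, Lp.coeFn_zero ℂ 1 μ] with x h5 h6 h7 h8
  rw [h8]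
  rw [h7] at h5 h6
  exact Complex.ext h5.symm h6.symm

variable (e : Lp ℝ 1 μ ≃L[ℝ] StrongDual ℝ Z)

/-- the pairing -/
def br (F : Lp ℂ 1 μ) (z : Z) : ℂ := (e (RE μ F) z : ℂ) + Complex.I * (e (IM μ F) z : ℂ)

theorem br_add (F G : Lp ℂ 1 μ) (z : Z) : br e (F + G) z = br e F z + br e G z := by
  unfold br
  simp only [map_add, add_apply]
  push_cast
  ring

theorem br_smul (c : ℂ) (F : Lp ℂ 1 μ) (z : Z) : br e (c • F) z = c * br e F z := by
  unfold br
  rw [RE_smul, IM_smul]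
  simp only [map_add, map_sub, map_smul, add_apply, sub_apply, smul_apply, smul_eq_mul]
  push_cast
  conv_rhs => rw [← Complex.re_add_im c]
  ring_nf
  rw [Complex.I_sq]
  ring

theorem br_add' (F : Lp ℂ 1 μ) (z z' : Z) : br e F (z + z') = br e F z + br e F z' := by
  unfold br
  simp only [map_add]
  push_cast
  ring

theorem br_smul' (F : Lp ℂ 1 μ) (r : ℝ) (z : Z) : br e F (r • z) = r * br e F z := by
  unfold br
  simp only [map_smul, smul_eq_mul]
  push_cast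
  ring

theorem br_zero' (F : Lp ℂ 1 μ) : br e F 0 = 0 := by
  have := br_smul' e F 0 0
  simpa using this

theorem br_norm (F : Lp ℂ 1 μ) (z : Z) :
    ‖br e F z‖ ≤ ‖(e : Lp ℝ 1 μ →L[ℝ] StrongDual ℝ Z)‖ * (‖RE μ‖ + ‖IM μ‖) * ‖F‖ * ‖z‖ := by
  have h : ∀ g : Lp ℝ 1 μ, ‖((e g z : ℝ) : ℂ)‖ ≤
      ‖(e : Lp ℝ 1 μ →L[ℝ] StrongDual ℝ Z)‖ * ‖g‖ * ‖z‖ := by
    intro g
    rw [Complex.norm_real]
    exact ((e g).le_opNorm z).trans (mul_le_mul_of_nonneg_right
      ((e : Lp ℝ 1 μ →L[ℝ] StrongDual ℝ Z).le_opNorm g) (norm_nonneg _))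
  have hN : 0 ≤ ‖(e : Lp ℝ 1 μ →L[ℝ] StrongDual ℝ Z)‖ := ContinuousLinearMap.opNorm_nonneg _
  calc ‖br e F z‖ ≤ ‖((e (RE μ F) z : ℝ) : ℂ)‖ + ‖Complex.I * ((e (IM μ F) z : ℝ) : ℂ)‖ :=
        norm_add_le _ _
    _ = ‖((e (RE μ F) z : ℝ) : ℂ)‖ + ‖((e (IM μ F) z : ℝ) : ℂ)‖ := by
        rw [norm_mul, Complex.norm_I, one_mul]
    _ ≤ ‖(e : Lp ℝ 1 μ →L[ℝ] StrongDual ℝ Z)‖ * (‖RE μ‖ * ‖F‖) * ‖z‖ +
        ‖(e : Lp ℝ 1 μ →L[ℝ] StrongDual ℝ Z)‖ * (‖IM μ‖ * ‖F‖) * ‖z‖ := by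
        refine add_le_add ((h _).trans ?_) ((h _).trans ?_)
        · exact mul_le_mul_of_nonneg_right (mul_le_mul_of_nonneg_left ((RE μ).le_opNorm F) hN)
            (norm_nonneg _)
        · exact mul_le_mul_of_nonneg_right (mul_le_mul_of_nonneg_left ((IM μ).le_opNorm F) hN)
            (norm_nonneg _)
    _ = _ := by ring

/-- the functional of `F` -/
def ph (F : Lp ℂ 1 μ) : CZ Z →ₗ[ℂ] ℂ where
  toFun T := br e F (un T 1) - Complex.I * br e F (un T Complex.I)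
  map_add' S T := by
    rw [un_add, un_add, br_add', br_add']
    ring
  map_smul' c T := by
    rw [un_smul, un_smul, RingHom.id_apply, mul_one]
    have h1 : un T c = c.re • un T 1 + c.im • un T Complex.I := by
      rw [← map_smul, ← map_smul, ← map_add]
      congr 1
      apply Complex.ext <;> simp
    have h2 : un T (c * Complex.I) = c.re • un T Complex.I + (- c.im) • un T 1 := by
      rw [← map_smul, ← map_smul, ← map_add]
      congr 1
      apply Complex.ext <;> simp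
    rw [h1, h2, br_add', br_add', br_smul', br_smul', br_smul', br_smul', smul_eq_mul]
    conv_rhs => rw [← Complex.re_add_im c]
    push_cast
    ring_nf
    rw [Complex.I_sq]
    ring

theorem ph_norm (F : Lp ℂ 1 μ) (T : CZ Z) : ‖ph e F T‖ ≤
    2 * (‖(e : Lp ℝ 1 μ →L[ℝ] StrongDual ℝ Z)‖ * (‖RE μ‖ + ‖IM μ‖)) * ‖F‖ * ‖T‖ := by
  have hN : 0 ≤ ‖(e : Lp ℝ 1 μ →L[ℝ] StrongDual ℝ Z)‖ * (‖RE μ‖ + ‖IM μ‖) * ‖F‖ := by positivity
  have h1 : ‖un T 1‖ ≤ ‖T‖ := by
    have := (un T).le_opNorm 1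
    rwa [norm_one, mul_one, norm_un] at this
  have h2 : ‖un T Complex.I‖ ≤ ‖T‖ := by
    have := (un T).le_opNorm Complex.I
    rwa [Complex.norm_I, mul_one, norm_un] at this
  calc ‖ph e F T‖ ≤ ‖br e F (un T 1)‖ + ‖Complex.I * br e F (un T Complex.I)‖ := norm_sub_le _ _
    _ = ‖br e F (un T 1)‖ + ‖br e F (un T Complex.I)‖ := by
        rw [norm_mul, Complex.norm_I, one_mul]
    _ ≤ ‖(e : Lp ℝ 1 μ →L[ℝ] StrongDual ℝ Z)‖ * (‖RE μ‖ + ‖IM μ‖) * ‖F‖ * ‖T‖ +
        ‖(e : Lp ℝ 1 μ →L[ℝ] StrongDual ℝ Z)‖ * (‖RE μ‖ + ‖IM μ‖) * ‖F‖ * ‖T‖ :=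
        add_le_add ((br_norm e F _).trans (mul_le_mul_of_nonneg_left h1 hN))
          ((br_norm e F _).trans (mul_le_mul_of_nonneg_left h2 hN))
    _ = _ := by ring

/-- the map -/
def Psi : Lp ℂ 1 μ →L[ℂ] StrongDual ℂ (CZ Z) :=
  LinearMap.mkContinuous₂
    (LinearMap.mk₂ ℂ (fun F T => ph e F T)
      (fun F G T => by
        show br e (F + G) _ - _ * br e (F + G) _ = _
        rw [br_add, br_add]
        show _ = (br e F _ - _ * br e F _) + (br e G _ - _ * br e G _)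
        ring)
      (fun c F T => by
        show br e (c • F) _ - _ * br e (c • F) _ = _
        rw [br_smul, br_smul]
        show _ = c * (br e F _ - _ * br e F _)
        ring)
      (fun F S T => map_add _ _ _)
      (fun c F T => map_smul _ _ _))
    (2 * (‖(e : Lp ℝ 1 μ →L[ℝ] StrongDual ℝ Z)‖ * (‖RE μ‖ + ‖IM μ‖)))
    (fun F T => ph_norm e F T)

theorem Psi_apply (F : Lp ℂ 1 μ) (T : CZ Z) :
    Psi e F T = br e F (un T 1) - Complex.I * br e F (un T Complex.I) := rfl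

theorem Psi_io (F : Lp ℂ 1 μ) (z : Z) : Psi e F (io z) = br e F z := by
  rw [Psi_apply, un_io, un_io, Complex.one_re, one_smul, Complex.I_re, zero_smul, br_zero',
    mul_zero, sub_zero]

theorem Psi_inj : Function.Injective (Psi e) := by
  rw [injective_iff_map_eq_zero]
  intro F hF
  have h1 : ∀ z, br e F z = 0 := fun z => by
    rw [← Psi_io, hF]; rfl
  have h2 : ∀ z, e (RE μ F) z = 0 ∧ e (IM μ F) z = 0 := by
    intro z
    have h3 := h1 z
    unfold br at h3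
    constructor
    · have := congrArg Complex.re h3
      simpa using this
    · have := congrArg Complex.im h3
      simpa using this
  refine eq_zero F ?_ ?_
  · exact e.injective (by rw [map_zero]; exact ContinuousLinearMap.ext fun z => (h2 z).1)
  · exact e.injective (by rw [map_zero]; exact ContinuousLinearMap.ext fun z => (h2 z).2)

theorem Psi_surj : Function.Surjective (Psi e) := by
  intro Φ
  let ιL : Z →ₗ[ℝ] ℂ :=
    { toFun := fun z => Φ (io z)
      map_add' := fun z z' => by rw [io_add, map_add]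
      map_smul' := fun r z => by rw [io_smul, map_smul]; rfl }
  let ι : Z →L[ℝ] ℂ := ιL.mkContinuous ‖Φ‖ (fun z =>
    (Φ.le_opNorm (io z)).trans (mul_le_mul_of_nonneg_left (io_norm z) (norm_nonneg _)))
  let f : StrongDual ℝ Z := Complex.reCLM.comp ι
  let g : StrongDual ℝ Z := Complex.imCLM.comp ι
  let F : Lp ℂ 1 μ := OF μ (e.symm f) + Complex.I • OF μ (e.symm g)
  have hRE : RE μ F = e.symm f := by
    show RE μ (OF μ (e.symm f) + Complex.I • OF μ (e.symm g)) = _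
    rw [map_add, RE_smul, RE_OF, RE_OF, IM_OF]
    simp
  have hIM : IM μ F = e.symm g := by
    show IM μ (OF μ (e.symm f) + Complex.I • OF μ (e.symm g)) = _
    rw [map_add, IM_smul, RE_OF, IM_OF, IM_OF]
    simp
  have hbr : ∀ z, br e F z = Φ (io z) := by
    intro z
    unfold br
    rw [hRE, hIM, e.apply_symm_apply, e.apply_symm_apply]
    have h1 : (f z : ℂ) = ((Φ (io z)).re : ℂ) := rfl
    have h2 : (g z : ℂ) = ((Φ (io z)).im : ℂ) := rfl
    rw [h1, h2, mul_comm]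
    exact Complex.re_add_im _
  refine ⟨F, ContinuousLinearMap.ext fun T => ?_⟩
  rw [Psi_apply, hbr, hbr]
  conv_rhs => rw [decomp T, map_sub, map_smul]
  rfl

end

end CX

theorem sCX.{u, v} : S_CX.{u, v} := by
  intro Ω _ μ Z _ _ _ h
  obtain ⟨e⟩ := h
  refine ⟨CX.CZ Z, inferInstance, inferInstance, inferInstance, ⟨?_⟩⟩
  exact ContinuousLinearEquiv.ofBijective (CX.Psi e)
    (LinearMap.ker_eq_bot.2 (CX.Psi_inj e)) (LinearMap.range_eq_top.2 (CX.Psi_surj e))

end Pool.Agent.W6h79.LD
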