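import Pool.Agent.W6h79.LD.Defs2

/-!
# Sums of continuum many or more copies of `L¹[0,1]` are dual spaces (piece (Dual))

Written by helper74.
-/

open MeasureTheory Set Filter
open scoped ENNReal NNReal Topology

noncomputable section

namespace Pool.Agent.W6h79.LD

universe u

namespace PD

/-- products with small sets -/
theorem prod_equiv (K : Type u) (I : Type) (hK : Cardinal.continuum ≤ Cardinal.mk K)
    (hI : Cardinal.mk I ≤ Cardinal.continuum) (hne : Nonempty I) : Nonempty (K × I ≃ K) := by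
  rw [← Cardinal.eq, Cardinal.mk_prod, Cardinal.lift_uzero]
  have h1 : Cardinal.lift.{u} (Cardinal.mk I) ≤ Cardinal.continuum := by
    rw [← Cardinal.lift_continuum.{u, 0}]
    exact Cardinal.lift_le.2 hI
  have h2 : Cardinal.lift.{u} (Cardinal.mk I) ≠ 0 := by
    rw [Ne, Cardinal.lift_eq_zero]
    exact Cardinal.mk_ne_zero I
  exact Cardinal.mul_eq_left (Cardinal.aleph0_le_continuum.trans hK) (h1.trans hK) h2

theorem prod_le (K : Type u) (I : Type) (hK : Cardinal.continuum ≤ Cardinal.mk K)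
    (hI : Cardinal.mk I ≤ Cardinal.continuum) : Cardinal.mk (K × I) ≤ Cardinal.mk K := by
  rw [Cardinal.mk_prod, Cardinal.lift_uzero]
  have h1 : Cardinal.lift.{u} (Cardinal.mk I) ≤ Cardinal.continuum := by
    rw [← Cardinal.lift_continuum.{u, 0}]
    exact Cardinal.lift_le.2 hI
  exact (mul_le_mul' le_rfl (h1.trans hK)).trans
    (Cardinal.mul_eq_self (Cardinal.aleph0_le_continuum.trans hK)).le

end PD

open PD in
theorem sDual (hN : S_N.{u, 0}) (hK2 : S_K2.{u}) (hM6 : S_M6) (hL1' : S_L1'.{u, 0, 0})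
    (hL2 : S_L2.{u, 0, 0}) (hL3 : S_L3.{u, 0, 0}) (hL4 : S_L4.{u, u, 0}) (hL7 : S_L7.{u}) :
    S_Dual.{u} := by
  intro K Γ hK
  obtain ⟨I, Γ₀, hI, hIc, hΓc, ⟨eM⟩⟩ := hM6
  obtain ⟨Z, i1, i2, i3, ⟨eN⟩⟩ := hN K C(UI, ℝ)
  obtain ⟨e1⟩ := hL1' K (StrongDual ℝ C(UI, ℝ))
    (lp (fun _ : I => LL) 1 × lp (fun _ : Γ₀ => ℝ) 1) ⟨eM⟩
  obtain ⟨e2⟩ := hL2 K (lp (fun _ : I => LL) 1) (lp (fun _ : Γ₀ => ℝ) 1)
  obtain ⟨e3⟩ := hL3 K I LL
  obtain ⟨e4⟩ := hL3 K Γ₀ ℝ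
  obtain ⟨eKI⟩ := prod_equiv K I hK hIc hI
  obtain ⟨e5⟩ := hL4 (K × I) K eKI LL
  have hinf : Infinite K := Cardinal.infinite_iff.2 (Cardinal.aleph0_le_continuum.trans hK)
  obtain ⟨e6⟩ := hL7 K (K × Γ₀) hinf (prod_le K Γ₀ hK hΓc)
  let E : StrongDual ℝ Z ≃L[ℝ] lp (fun _ : K => LL) 1 :=
    (((eN.trans e1).trans e2).trans ((e3.trans e5).prodCongr e4)).trans e6
  obtain ⟨Y, j1, j2, j3, ⟨eY⟩⟩ := hK2 Γ
  refine ⟨Z × Y, inferInstance, inferInstance, inferInstance, ⟨?_⟩⟩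
  exact (E.symm.prodCongr eY.toContinuousLinearEquiv).trans
    (ContinuousLinearMap.coprodEquivL (𝕜 := ℝ) (E := Z) (F := Y) (G := ℝ) ℝ)

end Pool.Agent.W6h79.LD
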