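import Pool.Agent.W6h79.LD.Main
import Pool.Agent.W6h79.LD.J

open MeasureTheory Set Filter
open scoped ENNReal NNReal Topology

noncomputable section

namespace Pool.Agent.W6h79.LD

universe u v

/-- Embedding version of the main theorem, complex scalars. -/
def S_Main2C.{u1, u2, v1} : Prop := ∀ (Ω : Type u1) [MeasurableSpace Ω] (μ : Measure Ω)
    (𝓢 : Set (Set Ω)), Covers μ 𝓢 → Cardinal.mk 𝓢 < Cardinal.continuum →
    ∀ (Y : Type v1) [NormedAddCommGroup Y] [NormedSpace ℂ Y]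
      (U : StrongDual ℂ Y →L[ℂ] Lp ℂ 1 μ) (b : ℝ), 0 < b → (∀ x, b * ‖x‖ ≤ ‖U x‖) →
    ∀ (Ω' : Type u2) [MeasurableSpace Ω'] (ρ : Measure Ω')
      (T : Lp ℂ 1 ρ →L[ℂ] StrongDual ℂ Y) (c : ℝ), 0 < c → (∀ f, c * ‖f‖ ≤ ‖T f‖) →
    ∀ E : Set Ω', MeasurableSet E → 0 < ρ E → ρ E < ∞ → ∃ A ⊆ E, AtomSet ρ A

section dbl

variable {Ω : Type u} [MeasurableSpace Ω] (μ : Measure Ω)

lemma dbl_inl (S : Set Ω) (hS : MeasurableSet S) :
    (μ.map (Sum.inl : Ω → Ω ⊕ Ω) + μ.map (Sum.inr : Ω → Ω ⊕ Ω)) (Sum.inl '' S) = μ S := by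
  rw [Measure.add_apply, Measure.map_apply measurable_inl (measurableSet_inl_image.2 hS),
    Measure.map_apply measurable_inr (measurableSet_inl_image.2 hS),
    Set.preimage_image_eq _ Sum.inl_injective]
  have : (Sum.inr : Ω → Ω ⊕ Ω) ⁻¹' (Sum.inl '' S) = ∅ := by
    ext x; simp
  rw [this]; simp

lemma dbl_inr (S : Set Ω) (hS : MeasurableSet S) :
    (μ.map (Sum.inl : Ω → Ω ⊕ Ω) + μ.map (Sum.inr : Ω → Ω ⊕ Ω)) (Sum.inr '' S) = μ S := by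
  rw [Measure.add_apply, Measure.map_apply measurable_inl (measurableSet_inr_image.2 hS),
    Measure.map_apply measurable_inr (measurableSet_inr_image.2 hS),
    Set.preimage_image_eq _ Sum.inr_injective]
  have : (Sum.inl : Ω → Ω ⊕ Ω) ⁻¹' (Sum.inr '' S) = ∅ := by
    ext x; simp
  rw [this]; simp

lemma atom_inl {A : Set Ω} (hA : AtomSet μ A) :
    AtomSet (μ.map (Sum.inl : Ω → Ω ⊕ Ω) + μ.map (Sum.inr : Ω → Ω ⊕ Ω)) (Sum.inl '' A) := by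
  refine ⟨measurableSet_inl_image.2 hA.1, by rw [dbl_inl μ A hA.1]; exact hA.2.1, ?_⟩
  intro B hB hBm
  have hB' : B = Sum.inl '' ((Sum.inl : Ω → Ω ⊕ Ω) ⁻¹' B) := by
    rw [Set.image_preimage_eq_of_subset]
    exact hB.trans (Set.image_subset_range _ _)
  have hm : MeasurableSet ((Sum.inl : Ω → Ω ⊕ Ω) ⁻¹' B) := measurable_inl hBm
  have hsub : (Sum.inl : Ω → Ω ⊕ Ω) ⁻¹' B ⊆ A := by
    intro x hx
    obtain ⟨a, ha, hax⟩ := hB hx
    rwa [← Sum.inl_injective hax]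
  rcases hA.2.2 _ hsub hm with h | h
  · left
    rw [hB', dbl_inl μ _ hm]; exact h
  · right
    rw [hB', ← Set.image_sdiff Sum.inl_injective, dbl_inl μ _ (hA.1.diff hm)]
    exact h

lemma atom_inr {A : Set Ω} (hA : AtomSet μ A) :
    AtomSet (μ.map (Sum.inl : Ω → Ω ⊕ Ω) + μ.map (Sum.inr : Ω → Ω ⊕ Ω)) (Sum.inr '' A) := by
  refine ⟨measurableSet_inr_image.2 hA.1, by rw [dbl_inr μ A hA.1]; exact hA.2.1, ?_⟩
  intro B hB hBm
  have hB' : B = Sum.inr '' ((Sum.inr : Ω → Ω ⊕ Ω) ⁻¹' B) := by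
    rw [Set.image_preimage_eq_of_subset]
    exact hB.trans (Set.image_subset_range _ _)
  have hm : MeasurableSet ((Sum.inr : Ω → Ω ⊕ Ω) ⁻¹' B) := measurable_inr hBm
  have hsub : (Sum.inr : Ω → Ω ⊕ Ω) ⁻¹' B ⊆ A := by
    intro x hx
    obtain ⟨a, ha, hax⟩ := hB hx
    rwa [← Sum.inr_injective hax]
  rcases hA.2.2 _ hsub hm with h | h
  · left
    rw [hB', dbl_inr μ _ hm]; exact h
  · right
    rw [hB', ← Set.image_sdiff Sum.inr_injective, dbl_inr μ _ (hA.1.diff hm)]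
    exact h

/-- The doubled cover. -/
def dblCover (𝓢 : Set (Set Ω)) : Set (Set (Ω ⊕ Ω)) :=
  (fun S => Sum.inl '' S) '' 𝓢 ∪ (fun S => Sum.inr '' S) '' 𝓢

lemma covers_dbl {𝓢 : Set (Set Ω)} (h : Covers μ 𝓢) :
    Covers (μ.map (Sum.inl : Ω → Ω ⊕ Ω) + μ.map (Sum.inr : Ω → Ω ⊕ Ω)) (dblCover 𝓢) := by
  constructor
  · rintro _ (⟨S, hS, rfl⟩ | ⟨S, hS, rfl⟩)
    · exact ⟨measurableSet_inl_image.2 (h.1 S hS).1, by
        show _ < _
        simp only []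
        rw [dbl_inl μ S (h.1 S hS).1]; exact (h.1 S hS).2⟩
    · exact ⟨measurableSet_inr_image.2 (h.1 S hS).1, by
        show _ < _
        simp only []
        rw [dbl_inr μ S (h.1 S hS).1]; exact (h.1 S hS).2⟩
  · intro E hE hpos hfin hz
    have hE1 : MeasurableSet ((Sum.inl : Ω → Ω ⊕ Ω) ⁻¹' E) := measurable_inl hE
    have hE2 : MeasurableSet ((Sum.inr : Ω → Ω ⊕ Ω) ⁻¹' E) := measurable_inr hE
    have hval : (μ.map (Sum.inl : Ω → Ω ⊕ Ω) + μ.map (Sum.inr : Ω → Ω ⊕ Ω)) E =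
        μ ((Sum.inl : Ω → Ω ⊕ Ω) ⁻¹' E) + μ ((Sum.inr : Ω → Ω ⊕ Ω) ⁻¹' E) := by
      rw [Measure.add_apply, Measure.map_apply measurable_inl hE,
        Measure.map_apply measurable_inr hE]
    rw [hval] at hpos hfin
    have hf1 : μ ((Sum.inl : Ω → Ω ⊕ Ω) ⁻¹' E) < ∞ := lt_of_le_of_lt le_self_add hfin
    have hf2 : μ ((Sum.inr : Ω → Ω ⊕ Ω) ⁻¹' E) < ∞ := lt_of_le_of_lt le_add_self hfin
    by_cases h1 : μ ((Sum.inl : Ω → Ω ⊕ Ω) ⁻¹' E) = 0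
    · have h2 : 0 < μ ((Sum.inr : Ω → Ω ⊕ Ω) ⁻¹' E) := by
        rw [h1, zero_add] at hpos; exact hpos
      obtain ⟨A, hA, hAt⟩ := h.2 _ hE2 h2 hf2 (by
        intro S hS
        have := hz (Sum.inr '' S) (Or.inr ⟨S, hS, rfl⟩)
        have h3 : Sum.inr '' ((Sum.inr : Ω → Ω ⊕ Ω) ⁻¹' E ∩ S) ⊆ E ∩ Sum.inr '' S := by
          rintro _ ⟨x, ⟨hx1, hx2⟩, rfl⟩
          exact ⟨hx1, x, hx2, rfl⟩
        have h4 := measure_mono_null h3 this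
        rwa [dbl_inr μ _ (hE2.inter (h.1 S hS).1)] at h4)
      exact ⟨Sum.inr '' A, by rintro _ ⟨x, hx, rfl⟩; exact hA hx, atom_inr μ hAt⟩
    · obtain ⟨A, hA, hAt⟩ := h.2 _ hE1 (pos_iff_ne_zero.2 h1) hf1 (by
        intro S hS
        have := hz (Sum.inl '' S) (Or.inl ⟨S, hS, rfl⟩)
        have h3 : Sum.inl '' ((Sum.inl : Ω → Ω ⊕ Ω) ⁻¹' E ∩ S) ⊆ E ∩ Sum.inl '' S := by
          rintro _ ⟨x, ⟨hx1, hx2⟩, rfl⟩
          exact ⟨hx1, x, hx2, rfl⟩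
        have h4 := measure_mono_null h3 this
        rwa [dbl_inl μ _ (hE1.inter (h.1 S hS).1)] at h4)
      exact ⟨Sum.inl '' A, by rintro _ ⟨x, hx, rfl⟩; exact hA hx, atom_inl μ hAt⟩

omit [MeasurableSpace Ω] in
lemma card_dblCover {𝓢 : Set (Set Ω)} (h : Cardinal.mk 𝓢 < Cardinal.continuum) :
    Cardinal.mk (dblCover 𝓢) < Cardinal.continuum := by
  refine (Cardinal.mk_union_le _ _).trans_lt ?_
  refine (add_le_add Cardinal.mk_image_le Cardinal.mk_image_le).trans_lt ?_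
  exact Cardinal.add_lt_of_lt Cardinal.aleph0_le_continuum h h

end dbl

/-- Real `L¹` in complex `L¹`. -/
lemma norm_ofReal_L1 {Ω : Type u} [MeasurableSpace Ω] (μ : Measure Ω) (f : Lp ℝ 1 μ) :
    ‖Complex.ofRealCLM.compLpL 1 μ f‖ = ‖f‖ := by
  rw [L1.norm_eq_integral_norm, L1.norm_eq_integral_norm]
  apply integral_congr_ae
  have h := Complex.ofRealCLM.coeFn_compLpL (p := 1) (μ := μ) f
  filter_upwards [h] with ω hω
  rw [hω]
  simp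

theorem sMain2C.{u1, u2, v1} (h : S_Main2.{u1, u2, v1}) (hJ : S_J.{u1}) :
    S_Main2C.{u1, u2, v1} := by
  intro Ω _ μ 𝓢 hcov hcard Y _ _ U b hb hU Ω' _ ρ T c hc hT
  obtain ⟨V⟩ := hJ Ω μ
  let R : StrongDual ℝ Y ≃ₗᵢ[ℝ] StrongDual ℂ Y := StrongDual.extendRCLikeₗᵢ
  set W : Lp ℝ 1 (μ.map (Sum.inl : Ω → Ω ⊕ Ω) + μ.map (Sum.inr : Ω → Ω ⊕ Ω)) →L[ℝ] Lp ℂ 1 μ :=
    V.symm.toContinuousLinearMap with hW
  set B : ℝ := ‖W‖ + 1 with hB
  have hBpos : 0 < B := by positivity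
  have hV : ∀ g, ‖g‖ ≤ B * ‖V g‖ := by
    intro g
    have h1 := W.le_opNorm (V g)
    have h2 : ‖W (V g)‖ = ‖g‖ := by
      show ‖V.symm (V g)‖ = ‖g‖
      rw [V.symm_apply_apply]
    rw [h2] at h1
    refine h1.trans ?_
    gcongr
    linarith
  let U' : StrongDual ℝ Y →L[ℝ] Lp ℝ 1 (μ.map (Sum.inl : Ω → Ω ⊕ Ω) +
      μ.map (Sum.inr : Ω → Ω ⊕ Ω)) :=
    (V.toContinuousLinearMap.comp (U.restrictScalars ℝ)).comp
      R.toContinuousLinearEquiv.toContinuousLinearMap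
  let T' : Lp ℝ 1 ρ →L[ℝ] StrongDual ℝ Y :=
    (R.symm.toContinuousLinearEquiv.toContinuousLinearMap.comp
      (T.restrictScalars ℝ)).comp (Complex.ofRealCLM.compLpL 1 ρ)
  refine h (Ω ⊕ Ω) _ (dblCover 𝓢) (covers_dbl μ hcov) (card_dblCover hcard) Y U'
    (b / B) (by positivity) ?_ Ω' ρ T' c hc ?_
  · intro x
    have h1 : ‖U (R x)‖ ≤ B * ‖U' x‖ := hV (U (R x))
    have h2 : b * ‖x‖ ≤ ‖U (R x)‖ := by
      have := hU (R x)
      rwa [R.norm_map] at this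
    rw [div_mul_eq_mul_div, div_le_iff₀ hBpos]
    linarith
  · intro f
    have h1 : ‖T' f‖ = ‖T (Complex.ofRealCLM.compLpL 1 ρ f)‖ := by
      show ‖R.symm (T (Complex.ofRealCLM.compLpL 1 ρ f))‖ = _
      rw [R.symm.norm_map]
    rw [h1, ← norm_ofReal_L1 ρ f]
    exact hT _

end Pool.Agent.W6h79.LD
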