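import Pool.Agent.W6h79.LD.Defs3
import Pool.Agent.W6h79.LD.Cplx
import Pool.Agent.W6h79.LD.Main

open MeasureTheory Set Filter
open scoped ENNReal NNReal Topology

noncomputable section

namespace Pool.Agent.W6h79.LD

/-- `X` is isomorphic (as a Banach space over `𝕜`) to the dual of a Banach space over `𝕜`. -/
def IsoToDual.{u} (𝕜 : Type) [RCLike 𝕜] (X : Type u) [NormedAddCommGroup X] [NormedSpace 𝕜 X] :
    Prop :=
  ∃ (Z : Type u) (_ : NormedAddCommGroup Z) (_ : NormedSpace 𝕜 Z) (_ : CompleteSpace Z),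
    Nonempty (X ≃L[𝕜] StrongDual 𝕜 Z)

/-- Every measurable set of finite positive measure contains an atom. -/
def PurelyAtomic.{u} {Ω : Type u} [MeasurableSpace Ω] (μ : Measure Ω) : Prop :=
  ∀ E : Set Ω, MeasurableSet E → 0 < μ E → μ E < ∞ → ∃ A ⊆ E, AtomSet μ A

/-- `L¹(μ|E)` is separable for every measurable `E` of finite measure. -/
def LocallySeparable.{u} {Ω : Type u} [MeasurableSpace Ω] (μ : Measure Ω) : Prop :=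
  ∀ E : Set Ω, MeasurableSet E → μ E < ∞ →
    TopologicalSpace.SeparableSpace (Lp ℝ 1 (μ.restrict E))

/-- Bounded below operators from an isomorphism. -/
lemma bdd_below {𝕜 : Type} [RCLike 𝕜] {X Y : Type*} [NormedAddCommGroup X] [NormedSpace 𝕜 X]
    [NormedAddCommGroup Y] [NormedSpace 𝕜 Y] (e : X ≃L[𝕜] Y) :
    ∃ b : ℝ, 0 < b ∧ ∀ x, b * ‖x‖ ≤ ‖e.toContinuousLinearMap x‖ := by
  set D : ℝ := ‖e.symm.toContinuousLinearMap‖ + 1 with hD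
  have hDpos : 0 < D := by positivity
  refine ⟨1 / D, by positivity, fun x => ?_⟩
  have h1 := e.symm.toContinuousLinearMap.le_opNorm (e x)
  have h2 : ‖e.symm.toContinuousLinearMap (e x)‖ = ‖x‖ := by
    show ‖e.symm (e x)‖ = ‖x‖
    rw [e.symm_apply_apply]
  rw [h2] at h1
  rw [one_div, inv_mul_le_iff₀ hDpos]
  refine h1.trans ?_
  show ‖e.symm.toContinuousLinearMap‖ * ‖e x‖ ≤ D * ‖e x‖
  gcongr
  linarith

/-- Necessity, real scalars. -/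
theorem nec_real.{u, v} (h : S_Main2.{u, u, v}) {Ω : Type u} [MeasurableSpace Ω] (μ : Measure Ω)
    (𝓢 : Set (Set Ω)) (hc : Covers μ 𝓢) (hcard : Cardinal.mk 𝓢 < Cardinal.continuum)
    (Y : Type v) [NormedAddCommGroup Y] [NormedSpace ℝ Y] (e : Lp ℝ 1 μ ≃L[ℝ] StrongDual ℝ Y) :
    PurelyAtomic μ := by
  obtain ⟨b, hb, hb'⟩ := bdd_below e
  obtain ⟨c, hc1, hc'⟩ := bdd_below e.symm
  exact h Ω μ 𝓢 hc hcard Y e.symm.toContinuousLinearMap c hc1 hc' Ω μ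
    e.toContinuousLinearMap b hb hb'

/-- Necessity, complex scalars. -/
theorem nec_complex.{u, v} (h : S_Main2C.{u, u, v}) {Ω : Type u} [MeasurableSpace Ω]
    (μ : Measure Ω)
    (𝓢 : Set (Set Ω)) (hc : Covers μ 𝓢) (hcard : Cardinal.mk 𝓢 < Cardinal.continuum)
    (Y : Type v) [NormedAddCommGroup Y] [NormedSpace ℂ Y] (e : Lp ℂ 1 μ ≃L[ℂ] StrongDual ℂ Y) :
    PurelyAtomic μ := by
  obtain ⟨b, hb, hb'⟩ := bdd_below e
  obtain ⟨c, hc1, hc'⟩ := bdd_below e.symm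
  exact h Ω μ 𝓢 hc hcard Y e.symm.toContinuousLinearMap c hc1 hc' Ω μ
    e.toContinuousLinearMap b hb hb'

/-- Sufficiency of pure atomicity. -/
theorem suf_atomic.{u} (hK1 : S_K1.{u}) (hK2 : S_K2.{u}) {Ω : Type u} [MeasurableSpace Ω]
    (μ : Measure Ω) (h : PurelyAtomic μ) : IsoToDual ℝ (Lp ℝ 1 μ) := by
  obtain ⟨Γ, ⟨e⟩⟩ := hK1 Ω μ h
  obtain ⟨Y, i1, i2, i3, ⟨e2⟩⟩ := hK2 Γ
  exact ⟨Y, i1, i2, i3, ⟨(e.trans e2).toContinuousLinearEquiv⟩⟩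

/-- Sufficiency when the nonatomic part is large. -/
theorem suf_big.{u} (hR : S_R5.{u}) (hD : S_Dual.{u}) {Ω : Type u} [MeasurableSpace Ω]
    (μ : Measure Ω) (hs : LocallySeparable μ)
    (h : ∀ 𝓢 : Set (Set Ω), Covers μ 𝓢 → Cardinal.continuum ≤ Cardinal.mk 𝓢) :
    IsoToDual ℝ (Lp ℝ 1 μ) := by
  obtain ⟨𝓢, Γ, hc, ⟨e⟩⟩ := hR Ω μ hs
  obtain ⟨Z, i1, i2, i3, ⟨e2⟩⟩ := hD 𝓢 Γ (h 𝓢 hc)
  exact ⟨Z, i1, i2, i3, ⟨e.trans e2⟩⟩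

/-- From real to complex scalars. -/
theorem complexify.{u} (hCX : S_CX.{u, u}) {Ω : Type u} [MeasurableSpace Ω]
    (μ : Measure Ω) (h : IsoToDual ℝ (Lp ℝ 1 μ)) : IsoToDual ℂ (Lp ℂ 1 μ) := by
  obtain ⟨Z, i1, i2, i3, he⟩ := h
  exact hCX Ω μ Z he

theorem fin_all.{u, v, w}
    (m2 : S_Main2.{u, w, v}) (m2' : S_Main2.{u, u, u}) (m2C : S_Main2C.{u, w, v})
    (m2C' : S_Main2C.{u, u, u})
    (hK1 : S_K1.{u}) (hK2 : S_K2.{u}) (hR : S_R5.{u}) (hD : S_Dual.{u}) (hCX : S_CX.{u, u}) :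
    (∀ (Ω : Type u) [MeasurableSpace Ω] (μ : Measure Ω), LocallySeparable μ →
      ((IsoToDual ℝ (Lp ℝ 1 μ) ↔
        PurelyAtomic μ ∨ ∀ 𝓢 : Set (Set Ω), Covers μ 𝓢 → Cardinal.continuum ≤ Cardinal.mk 𝓢) ∧
      (IsoToDual ℂ (Lp ℂ 1 μ) ↔
        PurelyAtomic μ ∨ ∀ 𝓢 : Set (Set Ω), Covers μ 𝓢 → Cardinal.continuum ≤ Cardinal.mk 𝓢))) ∧
    (∀ (Ω : Type u) [MeasurableSpace Ω] (μ : Measure Ω) (𝓢 : Set (Set Ω)),
      Covers μ 𝓢 → Cardinal.mk 𝓢 < Cardinal.continuum →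
      (IsoToDual ℝ (Lp ℝ 1 μ) ↔ PurelyAtomic μ) ∧ (IsoToDual ℂ (Lp ℂ 1 μ) ↔ PurelyAtomic μ)) ∧
    S_Main2.{u, w, v} ∧ S_Main2C.{u, w, v} := by
  refine ⟨?_, ?_, m2, m2C⟩
  · intro Ω _ μ hs
    refine ⟨⟨?_, ?_⟩, ⟨?_, ?_⟩⟩
    · rintro ⟨Z, i1, i2, i3, ⟨e⟩⟩
      by_cases hcov : ∀ 𝓢 : Set (Set Ω), Covers μ 𝓢 → Cardinal.continuum ≤ Cardinal.mk 𝓢
      · exact Or.inr hcov
      · push Not at hcov
        obtain ⟨𝓢, hc, hcard⟩ := hcov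
        exact Or.inl (nec_real m2' μ 𝓢 hc hcard Z e)
    · rintro (h | h)
      · exact suf_atomic hK1 hK2 μ h
      · exact suf_big hR hD μ hs h
    · rintro ⟨Z, i1, i2, i3, ⟨e⟩⟩
      by_cases hcov : ∀ 𝓢 : Set (Set Ω), Covers μ 𝓢 → Cardinal.continuum ≤ Cardinal.mk 𝓢
      · exact Or.inr hcov
      · push Not at hcov
        obtain ⟨𝓢, hc, hcard⟩ := hcov
        exact Or.inl (nec_complex m2C' μ 𝓢 hc hcard Z e)
    · rintro (h | h)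
      · exact complexify hCX μ (suf_atomic hK1 hK2 μ h)
      · exact complexify hCX μ (suf_big hR hD μ hs h)
  · intro Ω _ μ 𝓢 hc hcard
    refine ⟨⟨?_, fun h => suf_atomic hK1 hK2 μ h⟩,
      ⟨?_, fun h => complexify hCX μ (suf_atomic hK1 hK2 μ h)⟩⟩
    · rintro ⟨Z, i1, i2, i3, ⟨e⟩⟩
      exact nec_real m2' μ 𝓢 hc hcard Z e
    · rintro ⟨Z, i1, i2, i3, ⟨e⟩⟩
      exact nec_complex m2C' μ 𝓢 hc hcard Z e

end Pool.Agent.W6h79.LD
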