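import Pool.Agent.W6h79.LD.Defs

/-!
# (K1) If every set of finite positive measure contains an atom, `L¹(μ)` is `ℓ¹(Γ)`
-/

open MeasureTheory Set Filter
open scoped ENNReal NNReal Topology

noncomputable section

namespace Pool.Agent.W6h79.LD

namespace K1

universe u

variable {Ω : Type u} [MeasurableSpace Ω] {μ : Measure Ω}

/-- A maximal a.e. disjoint family of atoms of finite measure. -/
theorem exists_family (μ : Measure Ω) : ∃ 𝒜 : Set (Set Ω),
    (∀ A ∈ 𝒜, AtomSet μ A ∧ μ A < ∞) ∧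
    (∀ A ∈ 𝒜, ∀ B ∈ 𝒜, A ≠ B → μ (A ∩ B) = 0) ∧
    ∀ B : Set Ω, AtomSet μ B → μ B < ∞ → (∀ A ∈ 𝒜, μ (A ∩ B) = 0) → False := by
  obtain ⟨m, hm⟩ := zorn_subset {𝒜 : Set (Set Ω) | (∀ A ∈ 𝒜, AtomSet μ A ∧ μ A < ∞) ∧
    (∀ A ∈ 𝒜, ∀ B ∈ 𝒜, A ≠ B → μ (A ∩ B) = 0)} (by
      intro c hc hch
      refine ⟨⋃₀ c, ⟨?_, ?_⟩, fun s hs => subset_sUnion_of_mem hs⟩
      · rintro A ⟨s, hs, hA⟩
        exact (hc hs).1 A hA
      · rintro A ⟨s, hs, hA⟩ B ⟨t, ht, hB⟩ hAB
        rcases hch.total hs ht with h | h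
        · exact (hc ht).2 A (h hA) B hB hAB
        · exact (hc hs).2 A hA B (h hB) hAB)
  refine ⟨m, hm.prop.1, hm.prop.2, ?_⟩
  intro B hB hB' hd
  have h1 : insert B m ∈ {𝒜 : Set (Set Ω) | (∀ A ∈ 𝒜, AtomSet μ A ∧ μ A < ∞) ∧
      (∀ A ∈ 𝒜, ∀ B ∈ 𝒜, A ≠ B → μ (A ∩ B) = 0)} := by
    refine ⟨?_, ?_⟩
    · rintro A (rfl | hA)
      · exact ⟨hB, hB'⟩
      · exact hm.prop.1 A hA
    · rintro A (rfl | hA) D (rfl | hD) hAD
      · exact absurd rfl hAD
      · rw [inter_comm]; exact hd D hD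
      · exact hd A hA
      · exact hm.prop.2 A hA D hD hAD
  have h2 := hm.2 h1 (subset_insert _ _)
  have h3 : B ∈ m := h2 (mem_insert _ _)
  have h4 := hd B h3
  rw [inter_self] at h4
  exact absurd h4 hB.2.1.ne'

/-- On an atom the modulus of the integral is the integral of the modulus. -/
theorem norm_integral_atom {A : Set Ω} (hA : AtomSet μ A) {f : Ω → ℝ}
    (hf : StronglyMeasurable f) : ‖∫ x in A, f x ∂μ‖ = ∫ x in A, ‖f x‖ ∂μ := by
  have hm : MeasurableSet (A ∩ {x | 0 ≤ f x}) :=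
    hA.1.inter (measurableSet_le measurable_const hf.measurable)
  rcases hA.2.2 (A ∩ {x | 0 ≤ f x}) inter_subset_left hm with h | h
  · have h1 : ∀ᵐ x ∂(μ.restrict A), f x ≤ 0 := by
      rw [ae_restrict_iff' hA.1]
      have : ∀ᵐ x ∂μ, x ∉ A ∩ {x | 0 ≤ f x} := measure_eq_zero_iff_ae_notMem.1 h
      filter_upwards [this] with x hx hxA
      by_contra hc
      exact hx ⟨hxA, (not_le.1 hc).le⟩
    have h2 : ∫ x in A, ‖f x‖ ∂μ = ∫ x in A, -f x ∂μ := by
      apply integral_congr_ae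
      filter_upwards [h1] with x hx
      rw [Real.norm_eq_abs, abs_of_nonpos hx]
    rw [h2, integral_neg, Real.norm_eq_abs, abs_of_nonpos]
    exact integral_nonpos_of_ae h1
  · have h1 : ∀ᵐ x ∂(μ.restrict A), 0 ≤ f x := by
      rw [ae_restrict_iff' hA.1]
      have : ∀ᵐ x ∂μ, x ∉ A \ (A ∩ {x | 0 ≤ f x}) := measure_eq_zero_iff_ae_notMem.1 h
      filter_upwards [this] with x hx hxA
      by_contra hc
      exact hx ⟨hxA, fun h => hc h.2⟩
    have h2 : ∫ x in A, ‖f x‖ ∂μ = ∫ x in A, f x ∂μ := by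
      apply integral_congr_ae
      filter_upwards [h1] with x hx
      rw [Real.norm_eq_abs, abs_of_nonneg hx]
    rw [h2, Real.norm_eq_abs, abs_of_nonneg]
    exact integral_nonneg_of_ae h1

/-- The mass of `f` is the sum of the masses on the members of the family. -/
theorem tsum_lintegral {𝒜 : Set (Set Ω)}
    (hE : ∀ E : Set Ω, MeasurableSet E → 0 < μ E → μ E < ∞ → ∃ A ⊆ E, AtomSet μ A)
    (h1 : ∀ A ∈ 𝒜, AtomSet μ A ∧ μ A < ∞)
    (h2 : ∀ A ∈ 𝒜, ∀ B ∈ 𝒜, A ≠ B → μ (A ∩ B) = 0)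
    (h3 : ∀ B : Set Ω, AtomSet μ B → μ B < ∞ → (∀ A ∈ 𝒜, μ (A ∩ B) = 0) → False)
    {f : Ω → ℝ} (hf : StronglyMeasurable f) (hi : Integrable f μ) :
    ∑' A : 𝒜, ∫⁻ x in A.1, ‖f x‖ₑ ∂μ = ∫⁻ x, ‖f x‖ₑ ∂μ := by
  set ν : Measure Ω := μ.withDensity (fun x => ‖f x‖ₑ) with hν
  have hνA : ∀ A : Set Ω, MeasurableSet A → ν A = ∫⁻ x in A, ‖f x‖ₑ ∂μ := fun A hA =>
    withDensity_apply _ hA
  have hac : ν ≪ μ := withDensity_absolutelyContinuous _ _
  have hfin : IsFiniteMeasure ν := by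
    refine ⟨?_⟩
    rw [hνA _ MeasurableSet.univ, Measure.restrict_univ]
    exact hi.2
  have hmA : ∀ A : 𝒜, MeasurableSet A.1 := fun A => (h1 A.1 A.2).1.1
  have hdis : Pairwise (Function.onFun (AEDisjoint ν) (fun A : 𝒜 => A.1)) := by
    intro A B hAB
    exact hac (h2 A.1 A.2 B.1 B.2 (fun h => hAB (Subtype.ext h)))
  have hcount : Set.Countable {A : 𝒜 | 0 < ν A.1} :=
    Measure.countable_meas_pos_of_disjoint_iUnion₀ (fun A => (hmA A).nullMeasurableSet) hdis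
  set C : Set 𝒜 := {A : 𝒜 | 0 < ν A.1} with hC
  have : Countable C := hcount.to_subtype
  have hU : ν (⋃ A : C, A.1.1) = ∑' A : C, ν A.1.1 := by
    apply measure_iUnion₀
    · intro A B hAB
      exact hdis (fun h => hAB (Subtype.ext h))
    · intro A
      exact (hmA A.1).nullMeasurableSet
  have hsum : ∑' A : C, ν A.1.1 = ∑' A : 𝒜, ν A.1 := by
    apply tsum_subtype_eq_of_support_subset (f := fun A : 𝒜 => ν A.1)
    intro A hA
    exact pos_iff_ne_zero.2 hA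
  set R : Set Ω := (⋃ A : C, A.1.1)ᶜ with hR
  have hRm : MeasurableSet R := (MeasurableSet.iUnion fun A : C => hmA A.1).compl
  have hR0 : ν R = 0 := by
    by_contra hne
    rw [hνA R hRm] at hne
    have hpos : μ (R ∩ {x | f x ≠ 0}) ≠ 0 := by
      intro h0
      apply hne
      rw [lintegral_eq_zero_iff' hf.enorm.aemeasurable.restrict]
      rw [Filter.EventuallyEq, ae_restrict_iff' hRm]
      have : ∀ᵐ x ∂μ, x ∉ R ∩ {x | f x ≠ 0} := measure_eq_zero_iff_ae_notMem.1 h0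
      filter_upwards [this] with x hx hxR
      have : f x = 0 := by
        by_contra hc
        exact hx ⟨hxR, hc⟩
      simp [this]
    have hcover : R ∩ {x | f x ≠ 0} ⊆ ⋃ n : ℕ, R ∩ {x | 1 / ((n : ℝ) + 1) ≤ ‖f x‖} := by
      rintro x ⟨hxR, hx⟩
      obtain ⟨n, hn⟩ := exists_nat_one_div_lt (norm_pos_iff.2 hx)
      exact mem_iUnion.2 ⟨n, hxR, hn.le⟩
    obtain ⟨n, hn⟩ : ∃ n : ℕ, μ (R ∩ {x | 1 / ((n : ℝ) + 1) ≤ ‖f x‖}) ≠ 0 := by
      by_contra hall
      push Not at hall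
      apply hpos
      apply measure_mono_null hcover
      exact measure_iUnion_null hall
    have hmn : MeasurableSet (R ∩ {x | 1 / ((n : ℝ) + 1) ≤ ‖f x‖}) :=
      hRm.inter (measurableSet_le measurable_const hf.norm.measurable)
    have hfn : μ (R ∩ {x | 1 / ((n : ℝ) + 1) ≤ ‖f x‖}) < ∞ := by
      apply lt_of_le_of_lt (measure_mono inter_subset_right)
      exact hi.measure_norm_ge_lt_top (by positivity)
    obtain ⟨B, hBs, hB⟩ := hE _ hmn (pos_iff_ne_zero.2 hn) hfn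
    refine h3 B hB (lt_of_le_of_lt (measure_mono hBs) hfn) ?_
    intro A hA
    by_cases hAC : (⟨A, hA⟩ : 𝒜) ∈ C
    · have : A ∩ B = ∅ := by
        rw [Set.eq_empty_iff_forall_notMem]
        rintro x ⟨hxA, hxB⟩
        have hxR := (hBs hxB).1
        apply hxR
        exact mem_iUnion.2 ⟨⟨⟨A, hA⟩, hAC⟩, hxA⟩
      rw [this]; simp
    · have h0 : ν A = 0 := by
        by_contra hc
        exact hAC (pos_iff_ne_zero.2 hc)
      rw [hνA A (h1 A hA).1.1, lintegral_eq_zero_iff' hf.enorm.aemeasurable.restrict,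
        Filter.EventuallyEq, ae_restrict_iff' (h1 A hA).1.1, ae_iff] at h0
      apply measure_mono_null _ h0
      rintro x ⟨hxA, hxB⟩
      have hx := (hBs hxB).2
      simp only [Set.mem_ofPred_eq] at hx ⊢
      intro hcon
      have h5 := hcon hxA
      simp only [Pi.zero_apply, enorm_eq_zero] at h5
      rw [h5] at hx
      have : (0 : ℝ) < 1 / ((n : ℝ) + 1) := by positivity
      simp at hx
      linarith
  have huniv : ν univ = ν (⋃ A : C, A.1.1) := by
    apply le_antisymm _ (measure_mono (subset_univ _))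
    calc ν univ ≤ ν ((⋃ A : C, A.1.1) ∪ R) := measure_mono (by rw [hR, union_compl_self])
      _ ≤ ν (⋃ A : C, A.1.1) + ν R := measure_union_le _ _
      _ = ν (⋃ A : C, A.1.1) := by rw [hR0, add_zero]
  calc ∑' A : 𝒜, ∫⁻ x in A.1, ‖f x‖ₑ ∂μ = ∑' A : 𝒜, ν A.1 := by
        congr 1; funext A; rw [hνA _ (hmA A)]
    _ = ν univ := by rw [← hsum, ← hU, ← huniv]
    _ = ∫⁻ x, ‖f x‖ₑ ∂μ := by rw [hνA _ MeasurableSet.univ, Measure.restrict_univ]

end K1

open K1 in
theorem sK1 : S_K1 := by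
  intro Ω _ μ hE
  obtain ⟨𝒜, h1, h2, h3⟩ := exists_family μ
  refine ⟨𝒜, ?_⟩
  -- the coordinates
  have hint : ∀ (f : Lp ℝ 1 μ), Integrable f μ := fun f => L1.integrable_coeFn f
  have hsm : ∀ (f : Lp ℝ 1 μ), StronglyMeasurable f := fun f => Lp.stronglyMeasurable f
  have hen : ∀ (f : Lp ℝ 1 μ) (A : 𝒜), ‖∫ x in A.1, f x ∂μ‖ₑ = ∫⁻ x in A.1, ‖f x‖ₑ ∂μ := by
    intro f A
    rw [← ofReal_norm, norm_integral_atom (h1 A.1 A.2).1 (hsm f),
      ofReal_integral_norm_eq_lintegral_enorm (hint f).integrableOn]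
  have htsum : ∀ (f : Lp ℝ 1 μ), ∑' A : 𝒜, ‖∫ x in A.1, f x ∂μ‖ₑ = ENNReal.ofReal ‖f‖ := by
    intro f
    simp_rw [hen f]
    rw [tsum_lintegral hE h1 h2 h3 (hsm f) (hint f), L1.norm_eq_integral_norm,
      ofReal_integral_norm_eq_lintegral_enorm (hint f)]
  have hsumm : ∀ (f : Lp ℝ 1 μ), Summable (fun A : 𝒜 => ‖∫ x in A.1, f x ∂μ‖) := by
    intro f
    have hne : ∑' A : 𝒜, ‖∫ x in A.1, f x ∂μ‖ₑ ≠ ∞ := by rw [htsum]; exact ENNReal.ofReal_ne_top
    have := ENNReal.summable_toReal hne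
    simpa using this
  have hnorm : ∀ (f : Lp ℝ 1 μ), ∑' A : 𝒜, ‖∫ x in A.1, f x ∂μ‖ = ‖f‖ := by
    intro f
    have h := htsum f
    have h' : ENNReal.ofReal (∑' A : 𝒜, ‖∫ x in A.1, f x ∂μ‖) = ENNReal.ofReal ‖f‖ := by
      rw [ENNReal.ofReal_tsum_of_nonneg (fun A => norm_nonneg _) (hsumm f), ← h]
      congr 1; funext A; rw [ofReal_norm]
    have h5 := (ENNReal.ofReal_eq_ofReal_iff (tsum_nonneg fun A => norm_nonneg _)
      (norm_nonneg _)).1 h'
    exact h5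
  have hmem : ∀ (f : Lp ℝ 1 μ), Memℓp (fun A : 𝒜 => ∫ x in A.1, f x ∂μ) 1 := by
    intro f
    apply memℓp_gen
    simpa using hsumm f
  let T : Lp ℝ 1 μ →ₗᵢ[ℝ] lp (fun _ : 𝒜 => ℝ) 1 :=
    { toFun := fun f => ⟨fun A : 𝒜 => ∫ x in A.1, f x ∂μ, hmem f⟩
      map_add' := by
        intro f g
        apply lp.ext
        funext A
        simp only [lp.coeFn_add, Pi.add_apply]
        rw [← integral_add (hint f).integrableOn (hint g).integrableOn]
        apply integral_congr_ae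
        exact ae_restrict_of_ae (Lp.coeFn_add f g)
      map_smul' := by
        intro c f
        apply lp.ext
        funext A
        simp only [lp.coeFn_smul, Pi.smul_apply, RingHom.id_apply]
        rw [← integral_smul]
        apply integral_congr_ae
        exact ae_restrict_of_ae (Lp.coeFn_smul c f)
      norm_map' := by
        intro f
        rw [lp.norm_eq_tsum_rpow (by norm_num)]
        simpa using hnorm f }
  refine ⟨LinearIsometryEquiv.ofSurjective T ?_⟩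
  -- surjectivity
  classical
  have hTA : ∀ A : 𝒜, ∃ g : Lp ℝ 1 μ, T g = lp.single 1 A (1 : ℝ) := by
    intro A
    have hA := h1 A.1 A.2
    refine ⟨(μ A.1).toReal⁻¹ • indicatorConstLp 1 hA.1.1 hA.2.ne (1 : ℝ), ?_⟩
    rw [map_smul]
    apply lp.ext
    funext B
    simp only [lp.coeFn_smul, Pi.smul_apply, smul_eq_mul]
    have hval : T (indicatorConstLp 1 hA.1.1 hA.2.ne (1 : ℝ)) B = (μ (A.1 ∩ B.1)).toReal := by
      show ∫ x in B.1, (indicatorConstLp 1 hA.1.1 hA.2.ne (1 : ℝ)) x ∂μ = _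
      rw [integral_congr_ae (ae_restrict_of_ae indicatorConstLp_coeFn),
        integral_indicator hA.1.1, Measure.restrict_restrict hA.1.1]
      simp [Measure.real]
    rw [hval]
    by_cases hAB : A = B
    · subst hAB
      rw [inter_self, lp.single_apply_self]
      apply inv_mul_cancel₀
      exact (ENNReal.toReal_pos hA.1.2.1.ne' hA.2.ne).ne'
    · rw [h2 A.1 A.2 B.1 B.2 (fun h => hAB (Subtype.ext h)), lp.single_apply_ne _ _ _ (Ne.symm hAB)]
      simp
  intro c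
  have hclosed : IsClosed (Set.range T) := T.isometry.isClosedEmbedding.isClosed_range
  have hs : HasSum (fun A : 𝒜 => lp.single 1 A (c A)) c := lp.hasSum_single (by norm_num) c
  have hmemF : ∀ F : Finset 𝒜, ∑ A ∈ F, lp.single (E := fun _ : 𝒜 => ℝ) 1 A (c A) ∈ Set.range T := by
    intro F
    have : ∀ A ∈ F, lp.single (E := fun _ : 𝒜 => ℝ) 1 A (c A) ∈ LinearMap.range T.toLinearMap := by
      intro A _
      obtain ⟨g, hg⟩ := hTA A
      refine ⟨c A • g, ?_⟩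
      show T (c A • g) = _
      rw [map_smul, hg, ← lp.single_smul]
      simp
    have h5 := Submodule.sum_mem _ this
    exact h5
  exact hclosed.mem_of_tendsto hs (Filter.Eventually.of_forall hmemF)

end Pool.Agent.W6h79.LD
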