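import Pool.Agent.W6h79.LD.Defs2

/-!
# Piece (L1): isometries of the summands of an `ℓ¹`-sum
-/

open MeasureTheory Set Filter
open scoped ENNReal NNReal Topology

set_option linter.unusedSectionVars false

noncomputable section

universe u v w

namespace Pool.Agent.W6h79.LD

namespace LM

variable {K : Type u} {A : K → Type v} {B : K → Type w}
  [∀ i, NormedAddCommGroup (A i)] [∀ i, NormedSpace ℝ (A i)]
  [∀ i, NormedAddCommGroup (B i)] [∀ i, NormedSpace ℝ (B i)]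

theorem mem1 {f : ∀ i, A i} : Memℓp f 1 ↔ Summable fun i => ‖f i‖ := by
  rw [memℓp_gen_iff (by norm_num)]
  simp

theorem norm1 (f : lp A 1) : ‖f‖ = ∑' i, ‖f i‖ := by
  rw [lp.norm_eq_tsum_rpow (by norm_num)]
  simp

theorem summ1 (f : lp A 1) : Summable fun i => ‖f i‖ := mem1.1 (lp.memℓp f)

theorem memMap (e : ∀ i, A i →ₗ[ℝ] B i) (C : ℝ) (he : ∀ i x, ‖e i x‖ ≤ C * ‖x‖) (f : lp A 1) :
    Memℓp (fun i => e i (f i)) 1 :=
  mem1.2 (Summable.of_nonneg_of_le (fun _ => norm_nonneg _) (fun i => he i (f i))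
    ((summ1 f).mul_left C))

/-- The linear map of `ℓ¹`-sums given by bounded maps of the summands. -/
def mapl (e : ∀ i, A i →ₗ[ℝ] B i) (C : ℝ) (he : ∀ i x, ‖e i x‖ ≤ C * ‖x‖) :
    lp A 1 →ₗ[ℝ] lp B 1 where
  toFun f := ⟨fun i => e i (f i), memMap e C he f⟩
  map_add' f g := by
    ext i
    simp
  map_smul' c f := by
    ext i
    simp

@[simp] theorem mapl_apply (e : ∀ i, A i →ₗ[ℝ] B i) (C : ℝ) (he : ∀ i x, ‖e i x‖ ≤ C * ‖x‖)
    (f : lp A 1) (i : K) : mapl e C he f i = e i (f i) := rfl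

theorem norm_mapl (e : ∀ i, A i →ₗ[ℝ] B i) (C : ℝ) (he : ∀ i x, ‖e i x‖ ≤ C * ‖x‖)
    (f : lp A 1) : ‖mapl e C he f‖ ≤ C * ‖f‖ := by
  rw [norm1, norm1, ← tsum_mul_left]
  exact Summable.tsum_le_tsum (fun i => he i (f i)) (summ1 _) ((summ1 f).mul_left C)

/-- The continuous linear map of `ℓ¹`-sums given by bounded maps of the summands. -/
def mapL (e : ∀ i, A i →ₗ[ℝ] B i) (C : ℝ) (he : ∀ i x, ‖e i x‖ ≤ C * ‖x‖) :
    lp A 1 →L[ℝ] lp B 1 :=
  (mapl e C he).mkContinuous C (norm_mapl e C he)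

@[simp] theorem mapL_apply (e : ∀ i, A i →ₗ[ℝ] B i) (C : ℝ) (he : ∀ i x, ‖e i x‖ ≤ C * ‖x‖)
    (f : lp A 1) (i : K) : mapL e C he f i = e i (f i) := rfl

end LM

open LM in
/-- (L1) -/
theorem sL1 : S_L1.{u, v, w} := by
  intro K A B _ _ _ _ h
  let e : ∀ i, A i ≃ₗᵢ[ℝ] B i := fun i => (h i).some
  have h1 : ∀ i x, ‖(e i).toLinearEquiv.toLinearMap x‖ ≤ 1 * ‖x‖ := fun i x => by
    rw [one_mul]
    exact ((e i).norm_map x).le
  have h2 : ∀ i x, ‖(e i).symm.toLinearEquiv.toLinearMap x‖ ≤ 1 * ‖x‖ := fun i x => by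
    rw [one_mul]
    exact ((e i).symm.norm_map x).le
  refine ⟨⟨LinearEquiv.ofLinearMap (mapl _ 1 h1) (mapl _ 1 h2) ?_ ?_, ?_⟩⟩
  · ext f i
    simp
  · ext f i
    simp
  · intro f
    change ‖mapl _ 1 h1 f‖ = ‖f‖
    rw [norm1, norm1]
    exact tsum_congr fun i => (e i).norm_map (f i)

end Pool.Agent.W6h79.LD
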