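import Pool.Agent.W6h79.LD.L1

/-!
# Piece (L1'): isomorphism of a constant summand
-/

open MeasureTheory Set Filter
open scoped ENNReal NNReal Topology

noncomputable section

universe u v w

namespace Pool.Agent.W6h79.LD

open LM in
/-- (L1') -/
theorem sL1p : S_L1'.{u, v, w} := by
  intro K A B _ _ _ _ h
  obtain ⟨e⟩ := h
  have h1 : ∀ (_ : K) (x : A), ‖(e.toContinuousLinearMap : A →ₗ[ℝ] B) x‖ ≤
      ‖e.toContinuousLinearMap‖ * ‖x‖ := fun _ x => e.toContinuousLinearMap.le_opNorm x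
  have h2 : ∀ (_ : K) (x : B), ‖(e.symm.toContinuousLinearMap : B →ₗ[ℝ] A) x‖ ≤
      ‖e.symm.toContinuousLinearMap‖ * ‖x‖ := fun _ x => e.symm.toContinuousLinearMap.le_opNorm x
  refine ⟨ContinuousLinearEquiv.equivOfInverse
    (mapL (K := K) (A := fun _ => A) (B := fun _ => B) _ _ h1)
    (mapL (K := K) (A := fun _ => B) (B := fun _ => A) _ _ h2) ?_ ?_⟩
  · intro f
    ext i
    simp
  · intro f
    ext i
    simp

end Pool.Agent.W6h79.LD
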