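import Pool.Agent.W6h79.LD.L1

/-!
# Piece (L2): `ℓ¹`-sums of products
-/

open MeasureTheory Set Filter
open scoped ENNReal NNReal Topology

noncomputable section

universe u v w

namespace Pool.Agent.W6h79.LD

open LM in
/-- (L2) -/
theorem sL2 : S_L2.{u, v, w} := by
  intro K A B _ _ _ _
  have h1 : ∀ (_ : K) (x : A × B), ‖LinearMap.fst ℝ A B x‖ ≤ 1 * ‖x‖ := fun _ x => by
    rw [one_mul]
    exact norm_fst_le x
  have h2 : ∀ (_ : K) (x : A × B), ‖LinearMap.snd ℝ A B x‖ ≤ 1 * ‖x‖ := fun _ x => by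
    rw [one_mul]
    exact norm_snd_le x
  have h3 : ∀ (_ : K) (x : A), ‖LinearMap.inl ℝ A B x‖ ≤ 1 * ‖x‖ := fun _ x => by
    rw [one_mul]
    simp [Prod.norm_def]
  have h4 : ∀ (_ : K) (x : B), ‖LinearMap.inr ℝ A B x‖ ≤ 1 * ‖x‖ := fun _ x => by
    rw [one_mul]
    simp [Prod.norm_def]
  let F : lp (fun _ : K => A × B) 1 →L[ℝ] lp (fun _ : K => A) 1 :=
    mapL (K := K) (A := fun _ => A × B) (B := fun _ => A) _ _ h1
  let G : lp (fun _ : K => A × B) 1 →L[ℝ] lp (fun _ : K => B) 1 :=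
    mapL (K := K) (A := fun _ => A × B) (B := fun _ => B) _ _ h2
  let P : lp (fun _ : K => A) 1 →L[ℝ] lp (fun _ : K => A × B) 1 :=
    mapL (K := K) (A := fun _ => A) (B := fun _ => A × B) _ _ h3
  let Q : lp (fun _ : K => B) 1 →L[ℝ] lp (fun _ : K => A × B) 1 :=
    mapL (K := K) (A := fun _ => B) (B := fun _ => A × B) _ _ h4
  refine ⟨ContinuousLinearEquiv.equivOfInverse (F.prod G)
    (P.comp (ContinuousLinearMap.fst ℝ _ _) + Q.comp (ContinuousLinearMap.snd ℝ _ _)) ?_ ?_⟩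
  · intro f
    ext i
    · simp [F, G, P, Q]
    · simp [F, G, P, Q]
  · intro f
    ext i
    · simp [F, G, P, Q]
    · simp [F, G, P, Q]

end Pool.Agent.W6h79.LD
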