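import Pool.Agent.W6h79.LD.Defs2

/-!
# (L3) Iterated `ℓ¹`-sums
-/

open MeasureTheory Set Filter
open scoped ENNReal NNReal Topology

noncomputable section

namespace Pool.Agent.W6h79.LD.L3

universe u v w

theorem mem_iff {K : Type u} {E : K → Type v} [∀ k, NormedAddCommGroup (E k)]
    (f : ∀ k, E k) : Memℓp f 1 ↔ Summable fun k => ‖f k‖ := by
  rw [memℓp_gen_iff (by norm_num)]
  simp

theorem norm_eq {K : Type u} {E : K → Type v} [∀ k, NormedAddCommGroup (E k)]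
    (f : lp E 1) : ‖f‖ = ∑' k, ‖f k‖ := by
  rw [lp.norm_eq_tsum_rpow (by norm_num)]
  simp

variable {K : Type u} {I : Type v} {A : Type w} [NormedAddCommGroup A] [NormedSpace ℝ A]

theorem fwd_mem (f : lp (fun _ : K => lp (fun _ : I => A) 1) 1) :
    Memℓp (fun p : K × I => (f p.1 : ∀ _ : I, A) p.2) 1 := by
  rw [mem_iff]
  refine (summable_prod_of_nonneg (f := fun p : K × I => ‖(f p.1 : ∀ _ : I, A) p.2‖)
    (fun _ => norm_nonneg _)).2 ⟨fun k => (mem_iff _).1 (f k).2, ?_⟩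
  have := (mem_iff _).1 f.2
  refine this.congr fun k => ?_
  exact norm_eq (f k)

theorem bwd_mem1 (g : lp (fun _ : K × I => A) 1) (k : K) :
    Memℓp (fun i : I => (g : ∀ _ : K × I, A) (k, i)) 1 := by
  rw [mem_iff]
  have := (summable_prod_of_nonneg (f := fun p : K × I => ‖(g : ∀ _ : K × I, A) p‖)
    (fun _ => norm_nonneg _)).1 ((mem_iff _).1 g.2)
  exact this.1 k

theorem bwd_mem2 (g : lp (fun _ : K × I => A) 1) :
    Memℓp (fun k : K => (⟨fun i : I => (g : ∀ _ : K × I, A) (k, i), bwd_mem1 g k⟩ :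
      lp (fun _ : I => A) 1)) 1 := by
  rw [mem_iff]
  have := (summable_prod_of_nonneg (f := fun p : K × I => ‖(g : ∀ _ : K × I, A) p‖)
    (fun _ => norm_nonneg _)).1 ((mem_iff _).1 g.2)
  refine this.2.congr fun k => ?_
  exact (norm_eq (⟨fun i : I => (g : ∀ _ : K × I, A) (k, i), bwd_mem1 g k⟩ :
      lp (fun _ : I => A) 1)).symm

/-- The linear equivalence. -/
def lin : lp (fun _ : K => lp (fun _ : I => A) 1) 1 ≃ₗ[ℝ] lp (fun _ : K × I => A) 1 where
  toFun f := ⟨fun p => (f p.1 : ∀ _ : I, A) p.2, fwd_mem f⟩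
  invFun g := ⟨fun k => ⟨fun i : I => (g : ∀ _ : K × I, A) (k, i), bwd_mem1 g k⟩, bwd_mem2 g⟩
  left_inv f := by
    ext k i
    rfl
  right_inv g := by
    ext p
    rfl
  map_add' f g := by
    ext p
    rfl
  map_smul' c f := by
    ext p
    rfl

/-- The isometry. -/
def iso : lp (fun _ : K => lp (fun _ : I => A) 1) 1 ≃ₗᵢ[ℝ] lp (fun _ : K × I => A) 1 where
  toLinearEquiv := lin
  norm_map' f := by
    rw [norm_eq, norm_eq]
    have h1 : Summable fun p : K × I => ‖(f p.1 : ∀ _ : I, A) p.2‖ := (mem_iff _).1 (fwd_mem f)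
    have h2 := h1.tsum_prod' (fun k => (mem_iff _).1 (f k).2)
    calc ∑' p : K × I, ‖(f p.1 : ∀ _ : I, A) p.2‖ = _ := h2
      _ = ∑' k, ‖f k‖ := by
        refine tsum_congr fun k => ?_
        exact (norm_eq (f k)).symm

end Pool.Agent.W6h79.LD.L3

namespace Pool.Agent.W6h79.LD

theorem sL3.{u, v, w} : S_L3.{u, v, w} := fun _ _ _ _ _ => ⟨L3.iso.toContinuousLinearEquiv⟩

end Pool.Agent.W6h79.LD
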