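import Pool.Agent.W6h79.LD.Defs2

/-! Piece (L4): reindexing an `ℓ¹`-sum. -/

open MeasureTheory Set Filter
open scoped ENNReal NNReal Topology

noncomputable section

namespace Pool.Agent.W6h79.LD

namespace PL4

theorem mem_iff {α : Type*} {E : α → Type*} [∀ i, NormedAddCommGroup (E i)] {f : ∀ i, E i} :
    Memℓp f 1 ↔ Summable fun i => ‖f i‖ := by
  rw [memℓp_gen_iff (by simp)]
  simp

theorem norm_eq {α : Type*} {E : α → Type*} [∀ i, NormedAddCommGroup (E i)] (f : lp E 1) :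
    ‖f‖ = ∑' i, ‖f i‖ := by
  rw [lp.norm_eq_tsum_rpow (by simp)]
  simp

/-- reindexing -/
def re {K K' A : Type*} [NormedAddCommGroup A] [NormedSpace ℝ A] (e : K ≃ K') :
    lp (fun _ : K => A) 1 ≃ₗ[ℝ] lp (fun _ : K' => A) 1 where
  toFun f := ⟨fun j => f (e.symm j),
    mem_iff.2 ((e.symm.summable_iff (f := fun i => ‖f i‖)).2 (mem_iff.1 f.2))⟩
  invFun g := ⟨fun i => g (e i),
    mem_iff.2 ((e.summable_iff (f := fun i => ‖g i‖)).2 (mem_iff.1 g.2))⟩
  map_add' f g := by ext j; rfl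
  map_smul' c f := by ext j; rfl
  left_inv f := by ext i; simp
  right_inv g := by ext j; simp

theorem norm_re {K K' A : Type*} [NormedAddCommGroup A] [NormedSpace ℝ A] (e : K ≃ K')
    (f : lp (fun _ : K => A) 1) : ‖re e f‖ = ‖f‖ := by
  rw [norm_eq, norm_eq]
  exact e.symm.tsum_eq fun i => ‖f i‖

end PL4

open PL4 in
theorem sL4.{u, v, w} : S_L4.{u, v, w} := by
  intro K K' e A _ _
  exact ⟨(LinearIsometryEquiv.mk (re e) (norm_re e)).toContinuousLinearEquiv⟩

end Pool.Agent.W6h79.LD
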