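import Pool.Agent.W6h79.LD.Defs2

/-! Pieces (L5), (L5'): splitting the index set of an `ℓ¹`-sum. -/

open MeasureTheory Set Filter
open scoped ENNReal NNReal Topology

noncomputable section

namespace Pool.Agent.W6h79.LD

namespace PL5

theorem mem_iff {α : Type*} {E : α → Type*} [∀ i, NormedAddCommGroup (E i)] {f : ∀ i, E i} :
    Memℓp f 1 ↔ Summable fun i => ‖f i‖ := by
  rw [memℓp_gen_iff (by simp)]
  simp

theorem norm_eq {α : Type*} {E : α → Type*} [∀ i, NormedAddCommGroup (E i)] (f : lp E 1) :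
    ‖f‖ = ∑' i, ‖f i‖ := by
  rw [lp.norm_eq_tsum_rpow (by simp)]
  simp

/-- a linear equivalence onto a product which is additive for the norm is an isomorphism -/
theorem nonempty_of {X Y Z : Type*} [NormedAddCommGroup X] [NormedSpace ℝ X]
    [NormedAddCommGroup Y] [NormedSpace ℝ Y] [NormedAddCommGroup Z] [NormedSpace ℝ Z]
    (e : X ≃ₗ[ℝ] (Y × Z)) (h : ∀ x, ‖x‖ = ‖(e x).1‖ + ‖(e x).2‖) : Nonempty (X ≃L[ℝ] (Y × Z)) := by
  refine ⟨e.toContinuousLinearEquivOfBounds 1 2 (fun x => ?_) (fun y => ?_)⟩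
  · rw [one_mul, h x, Prod.norm_def]
    exact max_le (le_add_of_nonneg_right (norm_nonneg _)) (le_add_of_nonneg_left (norm_nonneg _))
  · rw [h (e.symm y), LinearEquiv.apply_symm_apply, Prod.norm_def]
    have h1 := le_max_left ‖y.1‖ ‖y.2‖
    have h2 := le_max_right ‖y.1‖ ‖y.2‖
    linarith

section

variable {K K' A : Type*} [NormedAddCommGroup A] [NormedSpace ℝ A]

/-- splitting a sum type -/
def spl : lp (fun _ : K ⊕ K' => A) 1 ≃ₗ[ℝ] (lp (fun _ : K => A) 1 × lp (fun _ : K' => A) 1) where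
  toFun f := (⟨fun i => f (Sum.inl i), mem_iff.2 ((mem_iff.1 f.2).comp_injective Sum.inl_injective)⟩,
    ⟨fun i => f (Sum.inr i), mem_iff.2 ((mem_iff.1 f.2).comp_injective Sum.inr_injective)⟩)
  invFun g := ⟨fun x => Sum.elim (fun i => g.1 i) (fun i => g.2 i) x, mem_iff.2 (by
    have h1 := (mem_iff.1 g.1.2).hasSum
    have h2 := (mem_iff.1 g.2.2).hasSum
    exact (HasSum.sum (f := fun x : K ⊕ K' => ‖Sum.elim (fun i => g.1 i) (fun i => g.2 i) x‖)
      h1 h2).summable)⟩
  map_add' f g := rfl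
  map_smul' c f := rfl
  left_inv f := by
    ext x
    rcases x with x | x <;> rfl
  right_inv g := rfl

theorem norm_spl (f : lp (fun _ : K ⊕ K' => A) 1) : ‖f‖ = ‖(spl f).1‖ + ‖(spl f).2‖ := by
  rw [norm_eq, norm_eq, norm_eq]
  have h1 := (mem_iff.1 (spl f).1.2).hasSum
  have h2 := (mem_iff.1 (spl f).2.2).hasSum
  exact (HasSum.sum (f := fun x : K ⊕ K' => ‖f x‖) h1 h2).tsum_eq

end

section

variable {K : Type*} (p : K → Prop) {A : K → Type*} [∀ i, NormedAddCommGroup (A i)]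
  [∀ i, NormedSpace ℝ (A i)]

open Classical in
/-- splitting by a predicate -/
def spp : lp A 1 ≃ₗ[ℝ]
    (lp (fun i : {i // p i} => A i) 1 × lp (fun i : {i // ¬ p i} => A i) 1) where
  toFun f := (⟨fun i => f i.1, mem_iff.2 ((mem_iff.1 f.2).comp_injective Subtype.val_injective)⟩,
    ⟨fun i => f i.1, mem_iff.2 ((mem_iff.1 f.2).comp_injective Subtype.val_injective)⟩)
  invFun g := ⟨fun i => if h : p i then g.1 ⟨i, h⟩ else g.2 ⟨i, h⟩, mem_iff.2 (by
    rw [← summable_subtype_and_compl (s := {i | p i})]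
    refine ⟨(mem_iff.1 g.1.2).congr fun i => ?_, (mem_iff.1 g.2.2).congr fun i => ?_⟩
    · rw [dif_pos i.2]
    · rw [dif_neg i.2])⟩
  map_add' f g := rfl
  map_smul' c f := rfl
  left_inv f := by
    ext i
    by_cases h : p i
    · simp [h]
    · simp [h]
  right_inv g := by
    refine Prod.ext ?_ ?_
    · ext i
      simp [i.2]
    · ext i
      simp [i.2]

theorem norm_spp (f : lp A 1) : ‖f‖ = ‖(spp p f).1‖ + ‖(spp p f).2‖ := by
  rw [norm_eq, norm_eq, norm_eq]
  exact ((mem_iff.1 f.2).tsum_subtype_add_tsum_subtype_compl {i | p i}).symm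

end

end PL5

open PL5 in
theorem sL5.{u, v, w} : S_L5.{u, v, w} := by
  intro K K' A _ _
  exact nonempty_of spl norm_spl

open PL5 in
theorem sL5p.{u, v} : S_L5'.{u, v} := by
  intro K p A _ _
  exact nonempty_of (spp p) (norm_spp p)

end Pool.Agent.W6h79.LD
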