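import Pool.Agent.W6h79.LD.Defs2

/-!
# MP_3844f5_an, piece (L6): `L¹[0,1]` has a one-dimensional summand
-/

open MeasureTheory Set Filter
open scoped ENNReal NNReal Topology

noncomputable section

namespace Pool.Agent.W6h79.LD

/-- a nonzero normed space has a one-dimensional summand -/
lemma exists_summand (V : Type) [NormedAddCommGroup V] [NormedSpace ℝ V] (e : V) (he : e ≠ 0) :
    ∃ (A : Type) (_ : NormedAddCommGroup A) (_ : NormedSpace ℝ A),
      Nonempty (V ≃L[ℝ] (ℝ × A)) := by
  have hn : ‖e‖ ≠ 0 := norm_ne_zero_iff.2 he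
  obtain ⟨g, -, hg⟩ := exists_dual_vector ℝ e hn
  refine ⟨LinearMap.ker (g : V →ₗ[ℝ] ℝ), inferInstance, inferInstance,
    ⟨ContinuousLinearEquiv.equivOfRightInverse g
      (ContinuousLinearMap.toSpanSingleton ℝ (‖e‖⁻¹ • e)) fun t => ?_⟩⟩
  rw [ContinuousLinearMap.toSpanSingleton_apply, map_smul, map_smul, hg]
  simp [hn]

/-- (L6) -/
theorem sL6 : S_L6 := by
  refine exists_summand LL (indicatorConstLp 1 (measurableSet_Icc (a := (0:ℝ)) (b := 1))
    (by rw [Measure.restrict_apply measurableSet_Icc]; simp) (1 : ℝ)) fun h => ?_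
  have h1 := congrArg norm h
  rw [norm_indicatorConstLp one_ne_zero ENNReal.one_ne_top, norm_zero] at h1
  simp [Measure.real] at h1

end Pool.Agent.W6h79.LD
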