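import Pool.Agent.W6h79.LD.Defs2

/-!
# MP_3844f5_an, piece (L7): absorption of an `ℓ¹`-sum of lines
-/

open MeasureTheory Set Filter
open scoped ENNReal NNReal Topology

noncomputable section

namespace Pool.Agent.W6h79.LD

/-- (L7) -/
theorem sL7.{u} (h1 : S_L1'.{u, 0, 0}) (h2 : S_L2.{u, 0, 0}) (h4 : S_L4.{u, u, 0})
    (h5 : S_L5.{u, u, 0}) (h6 : S_L6) : S_L7.{u} := by
  intro K G hK hG
  obtain ⟨A, iA, iA', ⟨e⟩⟩ := h6
  obtain ⟨e1⟩ := h1 K LL (ℝ × A) ⟨e⟩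
  obtain ⟨e2⟩ := h2 K ℝ A
  have hcard : Cardinal.mk (K ⊕ G) = Cardinal.mk K := by
    rw [← Cardinal.add_def]
    exact Cardinal.add_eq_left (Cardinal.aleph0_le_mk K) hG
  obtain ⟨e3⟩ := Cardinal.eq.1 hcard
  obtain ⟨e4⟩ := h4 (K ⊕ G) K e3 ℝ
  obtain ⟨e5⟩ := h5 K G ℝ
  have e6 : lp (fun _ : K => LL) 1 ≃L[ℝ] (lp (fun _ : K => ℝ) 1 × lp (fun _ : K => A) 1) :=
    e1.trans e2
  have e7 : ((lp (fun _ : K => ℝ) 1 × lp (fun _ : K => A) 1) × lp (fun _ : G => ℝ) 1) ≃L[ℝ]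
      ((lp (fun _ : K => ℝ) 1 × lp (fun _ : G => ℝ) 1) × lp (fun _ : K => A) 1) :=
    (ContinuousLinearEquiv.prodAssoc ℝ _ _ _).trans
      (((ContinuousLinearEquiv.refl ℝ _).prodCongr (ContinuousLinearEquiv.prodComm ℝ _ _)).trans
        (ContinuousLinearEquiv.prodAssoc ℝ _ _ _).symm)
  exact ⟨(e6.prodCongr (ContinuousLinearEquiv.refl ℝ _)).trans (e7.trans
    (((e5.symm.trans e4).prodCongr (ContinuousLinearEquiv.refl ℝ _)).trans e6.symm))⟩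

end Pool.Agent.W6h79.LD
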