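import Pool.Agent.W6h79.LD.Defs2
import Pool.Agent.H731R2.Riesz

/-!
# (M1) Riesz representation of a bounded functional on `C[0,1]` by a difference of two measures
-/

open MeasureTheory Set Filter
open scoped ENNReal NNReal Topology

namespace Pool.Agent.W6h79.LD

theorem sM1 : S_M1 := by
  intro φ
  let R : C(UI, ℂ) →L[ℝ] C(UI, ℝ) := Complex.reCLM.compLeftContinuous ℝ UI
  let Φ : StrongDual ℂ C(UI, ℂ) := StrongDual.extendRCLike (φ ∘L R)
  obtain ⟨μ, hμ, -, u, hu⟩ := Pool.Agent.H731R2.exists_density Φ
  have hum : Measurable fun x => (u x).re :=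
    Complex.measurable_re.comp (Lp.stronglyMeasurable u).measurable
  have hui : Integrable (fun x => u x) μ :=
    MemLp.integrable (q := 2) (by norm_num) (Lp.memLp u)
  have hvi : Integrable (fun x => (u x).re) μ := hui.re
  have hbd : ∀ g : C(UI, ℝ), ∀ᵐ x ∂μ, ‖g x‖ ≤ ‖g‖ := fun g =>
    ae_of_all _ fun x => g.norm_coe_le_norm x
  have hgm : ∀ g : C(UI, ℝ), AEStronglyMeasurable (fun x => g x) μ := fun g =>
    g.continuous.aestronglyMeasurable
  have hrep : ∀ g : C(UI, ℝ), φ g = ∫ x, g x * (u x).re ∂μ := by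
    intro g
    let gc : C(UI, ℂ) := ⟨fun x => (g x : ℂ), by fun_prop⟩
    have hR : R gc = g := by
      ext x
      simp [R, gc]
    have h1 : (Φ gc).re = φ g := by
      have h2 := StrongDual.re_extendRCLike_apply (𝕜 := ℂ) (φ ∘L R) gc
      have h3 : (φ ∘L R) gc = φ g := by
        rw [ContinuousLinearMap.comp_apply, hR]
      rw [h3] at h2
      exact h2
    rw [← h1, hu gc]
    have h4 : Integrable (fun x => gc x * u x) μ := by
      refine hui.bdd_mul (c := ‖g‖) gc.continuous.aestronglyMeasurable ?_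
      filter_upwards [hbd g] with x hx
      simpa [gc] using hx
    have h5 : (∫ x, gc x * u x ∂μ).re = ∫ x, (gc x * u x).re ∂μ :=
      (integral_re h4).symm
    rw [h5]
    refine integral_congr_ae (ae_of_all _ fun x => ?_)
    simp [gc]
  refine ⟨μ.withDensity fun x => ENNReal.ofReal (u x).re,
    μ.withDensity fun x => ENNReal.ofReal (-(u x).re),
    isFiniteMeasure_withDensity_ofReal hvi.2, isFiniteMeasure_withDensity_ofReal hvi.neg.2, ?_⟩
  intro g
  rw [hrep g, integral_withDensity_eq_integral_toReal_smul (by fun_prop)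
    (ae_of_all _ fun x => ENNReal.ofReal_lt_top),
    integral_withDensity_eq_integral_toReal_smul (by fun_prop)
    (ae_of_all _ fun x => ENNReal.ofReal_lt_top), ← integral_sub]
  · refine integral_congr_ae (ae_of_all _ fun x => ?_)
    simp only [ENNReal.toReal_ofReal', smul_eq_mul]
    rcases le_total 0 (u x).re with h | h
    · rw [max_eq_left h, max_eq_right (by linarith)]
      ring
    · rw [max_eq_right h, max_eq_left (by linarith)]
      ring
  · simp only [ENNReal.toReal_ofReal', smul_eq_mul]
    exact hvi.pos_part.mul_bdd (c := ‖g‖) (hgm g) (hbd g)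
  · simp only [ENNReal.toReal_ofReal', smul_eq_mul]
    exact hvi.neg_part.mul_bdd (c := ‖g‖) (hgm g) (hbd g)

end Pool.Agent.W6h79.LD
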