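import Pool.Agent.W6h79.LD.Defs2

/-!
# The norm of a density as a functional on `C[0,1]` (piece (M2)), written by helper74
-/

open MeasureTheory Set Filter
open scoped ENNReal NNReal Topology

noncomputable section

namespace Pool.Agent.W6h79.LD

theorem sM2 : S_M2 := by
  intro m hm f hf ε hε
  obtain ⟨h, hh, hhi⟩ := hf.exists_boundedContinuous_integral_sub_le (ε := ε / 3) (by positivity)
  set c : ℝ := m.real univ with hc
  have hc0 : 0 ≤ c := measureReal_nonneg
  set δ : ℝ := ε / (3 * (c + 1)) with hδ
  have hδ0 : 0 < δ := by positivity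
  have hδc : δ * c ≤ ε / 3 := by
    rw [hδ, div_mul_eq_mul_div, div_le_div_iff₀ (by positivity) (by positivity)]
    nlinarith
  let g : C(UI, ℝ) := ⟨fun x => h x / (|h x| + δ), by
    refine h.continuous.div (h.continuous.abs.add continuous_const) fun x => ?_
    have := abs_nonneg (h x)
    positivity⟩
  have hgx : ∀ x, g x = h x / (|h x| + δ) := fun x => rfl
  have hg1 : ∀ x, |g x| ≤ 1 := by
    intro x
    have h1 := abs_nonneg (h x)
    have h2 : 0 < |h x| + δ := by positivity
    rw [hgx, abs_div, abs_of_pos h2, div_le_one h2]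
    linarith
  refine ⟨g, (ContinuousMap.norm_le g zero_le_one).2 fun x => hg1 x, ?_⟩
  have hgm : Integrable (fun x => g x * f x) m := by
    refine hf.bdd_mul (c := 1) g.continuous.aestronglyMeasurable ?_
    exact Eventually.of_forall fun x => hg1 x
  have hint : Integrable (fun x => |f x| - 2 * |f x - h x| - δ) m :=
    ((hf.abs).sub ((hf.sub hhi).abs.const_mul 2)).sub (integrable_const δ)
  have hle : ∫ x, (|f x| - 2 * |f x - h x| - δ) ∂m ≤ ∫ x, g x * f x ∂m := by
    refine integral_mono hint hgm fun x => ?_
    have h1 := abs_nonneg (h x)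
    have h2 : 0 < |h x| + δ := by positivity
    -- `g h ≥ |h| - δ`
    have h3 : |h x| - δ ≤ g x * h x := by
      rw [hgx, div_mul_eq_mul_div, le_div_iff₀ h2]
      have h4 : h x * h x = |h x| * |h x| := (abs_mul_abs_self _).symm
      rw [h4]
      nlinarith
    have h5 : -|f x - h x| ≤ g x * (f x - h x) := by
      have h6 : |g x * (f x - h x)| ≤ |f x - h x| := by
        rw [abs_mul]
        calc |g x| * |f x - h x| ≤ 1 * |f x - h x| :=
              mul_le_mul_of_nonneg_right (hg1 x) (abs_nonneg _)
          _ = |f x - h x| := one_mul _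
      linarith [neg_abs_le (g x * (f x - h x))]
    have h7 : |f x| ≤ |h x| + |f x - h x| := by
      have := abs_add_le (h x) (f x - h x)
      rw [add_sub_cancel] at this
      exact this
    have h8 : g x * f x = g x * h x + g x * (f x - h x) := by ring
    change |f x| - 2 * |f x - h x| - δ ≤ g x * f x
    rw [h8]
    linarith
  refine le_trans ?_ hle
  rw [integral_sub, integral_sub, integral_const_mul, integral_const, smul_eq_mul]
  · have h9 : ∫ x, |f x - h x| ∂m ≤ ε / 3 := hh
    have h10 : m.real univ * δ ≤ ε / 3 := by rw [mul_comm]; exact hδc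
    linarith
  · exact hf.abs
  · exact (hf.sub hhi).abs.const_mul 2
  · exact (hf.abs).sub ((hf.sub hhi).abs.const_mul 2)
  · exact integrable_const δ

end Pool.Agent.W6h79.LD
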