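import Pool.Agent.W6h79.LD.Defs2

/-!
# (M3) Existence of a maximal family of pairwise singular probability measures
-/

open MeasureTheory Set Filter
open scoped ENNReal NNReal Topology

noncomputable section

namespace Pool.Agent.W6h79.LD

/-- **(M3)** There is a maximal family of pairwise singular probability measures on `[0,1]`, each
a Dirac measure or nonatomic, containing a nonatomic one. -/
theorem sM3 : S_M3 := by
  let P : Set (Set (Measure UI)) := {𝓕 |
      (∀ ν ∈ 𝓕, IsProbabilityMeasure ν ∧ ((∃ x, ν = Measure.dirac x) ∨ ∀ x, ν {x} = 0)) ∧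
      (∀ ν ∈ 𝓕, ∀ ν' ∈ 𝓕, ν ≠ ν' → ν ⟂ₘ ν')}
  have h0 : ({(volume : Measure UI)} : Set (Measure UI)) ∈ P := by
    refine ⟨?_, ?_⟩
    · intro ν hν
      rw [mem_singleton_iff] at hν
      subst hν
      exact ⟨inferInstance, Or.inr fun x => measure_singleton x⟩
    · intro ν hν ν' hν' hne
      rw [mem_singleton_iff] at hν hν'
      exact absurd (hν.trans hν'.symm) hne
  obtain ⟨𝓕, hsub, h𝓕⟩ := zorn_subset_nonempty P (by
    intro c hc hchain _
    refine ⟨⋃₀ c, ⟨?_, ?_⟩, fun s hs => subset_sUnion_of_mem hs⟩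
    · rintro ν ⟨t, ht, hν⟩
      exact (hc ht).1 ν hν
    · rintro ν ⟨t, ht, hν⟩ ν' ⟨t', ht', hν'⟩ hne
      rcases hchain.total ht ht' with h | h
      · exact (hc ht').2 ν (h hν) ν' hν' hne
      · exact (hc ht).2 ν hν ν' (h hν') hne) _ h0
  have hins : ∀ ρ : Measure UI, IsProbabilityMeasure ρ →
      ((∃ x, ρ = Measure.dirac x) ∨ ∀ x, ρ {x} = 0) → (∀ ν ∈ 𝓕, ρ ⟂ₘ ν) → ρ ∈ 𝓕 := by
    intro ρ hρ hρ' hρs
    have hmem : insert ρ 𝓕 ∈ P := by
      refine ⟨?_, ?_⟩
      · intro ν hν
        rcases mem_insert_iff.1 hν with rfl | hν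
        · exact ⟨hρ, hρ'⟩
        · exact h𝓕.prop.1 ν hν
      · intro ν hν ν' hν' hne
        rcases mem_insert_iff.1 hν with h1 | h1
        · rcases mem_insert_iff.1 hν' with h2 | h2
          · exact absurd (h1.trans h2.symm) hne
          · rw [h1]
            exact hρs ν' h2
        · rcases mem_insert_iff.1 hν' with h2 | h2
          · rw [h2]
            exact (hρs ν h1).symm
          · exact h𝓕.prop.2 ν h1 ν' h2 hne
    exact h𝓕.le_of_ge hmem (subset_insert _ _) (mem_insert _ _)
  refine ⟨𝓕, ⟨h𝓕.prop.1, h𝓕.prop.2, ?_⟩, volume, hsub (mem_singleton _),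
    fun x => measure_singleton x⟩
  intro m hm hms
  by_contra hm0
  by_cases hat : ∃ x, m {x} ≠ 0
  · obtain ⟨x, hx⟩ := hat
    have h1 : Measure.dirac x ∈ 𝓕 := by
      apply hins _ inferInstance (Or.inl ⟨x, rfl⟩)
      intro ν hν
      obtain ⟨s, hs, hs1, hs2⟩ := hms ν hν
      have hxs : x ∉ s := by
        intro h
        exact hx (measure_mono_null (singleton_subset_iff.2 h) hs1)
      refine ⟨s, hs, ?_, hs2⟩
      rw [Measure.dirac_apply' x hs, indicator_of_notMem hxs]
    obtain ⟨s, hs, hs1, hs2⟩ := hms _ h1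
    have hxs : x ∈ s := by
      by_contra h
      rw [Measure.dirac_apply' x hs.compl, indicator_of_mem (show x ∈ sᶜ from h)] at hs2
      exact one_ne_zero hs2
    exact hx (measure_mono_null (singleton_subset_iff.2 hxs) hs1)
  · push Not at hat
    have hmu : m univ ≠ 0 := by
      intro h
      exact hm0 (Measure.measure_univ_eq_zero.1 h)
    have h1 : (m univ)⁻¹ • m ∈ 𝓕 := by
      apply hins
      · refine ⟨?_⟩
        rw [Measure.smul_apply, smul_eq_mul]
        exact ENNReal.inv_mul_cancel hmu (measure_ne_top m univ)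
      · right
        intro x
        rw [Measure.smul_apply, hat x, smul_zero]
      · intro ν hν
        exact (hms ν hν).smul _
    obtain ⟨s, hs, hs1, hs2⟩ := hms _ h1
    rw [Measure.smul_apply, smul_eq_mul, mul_eq_zero] at hs2
    have h2 : m sᶜ = 0 := hs2.resolve_left (ENNReal.inv_ne_zero.2 (measure_ne_top m univ))
    apply hmu
    rw [← union_compl_self s]
    exact measure_union_null hs1 h2

end Pool.Agent.W6h79.LD
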