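import Pool.Agent.W6h79.LD.Defs2

open MeasureTheory Set Filter
open scoped ENNReal NNReal Topology

noncomputable section

namespace Pool.Agent.W6h79.LD

namespace M5

/-- The `ℓ¹`-sum. -/
abbrev XX (𝓕 : Set (Measure UI)) : Type := lp (fun ν : 𝓕 => Lp ℝ 1 (ν : Measure UI)) 1

theorem norm_summable {𝓕 : Set (Measure UI)} (F : XX 𝓕) : Summable (fun ν => ‖F ν‖) := by
  have h := (lp.memℓp F).summable (by norm_num)
  simpa using h

theorem norm_eq {𝓕 : Set (Measure UI)} (F : XX 𝓕) : ‖F‖ = ∑' ν, ‖F ν‖ := by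
  rw [lp.norm_eq_tsum_rpow (by norm_num)]
  simp

theorem int_mul {ν : Measure UI} (g : C(UI, ℝ)) (f : Lp ℝ 1 ν) :
    Integrable (fun x => g x * f x) ν := by
  have hf : Integrable (fun x => f x) ν := L1.integrable_coeFn f
  refine hf.bdd_mul (c := ‖g‖) g.continuous.aestronglyMeasurable ?_
  exact ae_of_all _ fun x => g.norm_coe_le_norm x

theorem int_bound {ν : Measure UI} (g : C(UI, ℝ)) (f : Lp ℝ 1 ν) :
    |∫ x, g x * f x ∂ν| ≤ ‖f‖ * ‖g‖ := by
  rw [L1.norm_eq_integral_norm, ← integral_mul_const]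
  have h0 := norm_integral_le_integral_norm (μ := ν) (fun x => g x * f x)
  rw [Real.norm_eq_abs] at h0
  refine h0.trans ?_
  refine integral_mono (int_mul g f).norm ((L1.integrable_coeFn f).norm.mul_const _) fun x => ?_
  simp only [norm_mul]
  rw [mul_comm]
  exact mul_le_mul_of_nonneg_left (g.norm_coe_le_norm x) (norm_nonneg _)

theorem summable_T {𝓕 : Set (Measure UI)} (F : XX 𝓕) (g : C(UI, ℝ)) :
    Summable (fun ν : 𝓕 => ∫ x, g x * F ν x ∂(ν : Measure UI)) := by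
  refine Summable.of_norm_bounded ((norm_summable F).mul_right ‖g‖) fun ν => ?_
  exact int_bound g (F ν)

/-- The bilinear map. -/
def B (𝓕 : Set (Measure UI)) : XX 𝓕 →ₗ[ℝ] C(UI, ℝ) →ₗ[ℝ] ℝ :=
  LinearMap.mk₂ ℝ (fun F g => ∑' ν : 𝓕, ∫ x, g x * F ν x ∂(ν : Measure UI))
    (by
      intro F G g
      rw [← (summable_T F g).tsum_add (summable_T G g)]
      congr 1
      ext ν
      rw [← integral_add (int_mul g (F ν)) (int_mul g (G ν))]
      refine integral_congr_ae ?_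
      filter_upwards [Lp.coeFn_add (F ν) (G ν)] with x hx
      have : (F + G) ν = F ν + G ν := rfl
      rw [this, hx]
      simp only [Pi.add_apply]
      ring)
    (by
      intro c F g
      rw [smul_eq_mul, ← tsum_mul_left]
      congr 1
      ext ν
      rw [← integral_const_mul]
      refine integral_congr_ae ?_
      filter_upwards [Lp.coeFn_smul c (F ν)] with x hx
      have : (c • F) ν = c • F ν := rfl
      rw [this, hx]
      simp only [Pi.smul_apply, smul_eq_mul]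
      ring)
    (by
      intro F g h
      rw [← (summable_T F g).tsum_add (summable_T F h)]
      congr 1
      ext ν
      rw [← integral_add (int_mul g (F ν)) (int_mul h (F ν))]
      refine integral_congr_ae (ae_of_all _ fun x => ?_)
      simp only [ContinuousMap.add_apply]
      ring)
    (by
      intro c F g
      rw [smul_eq_mul, ← tsum_mul_left]
      congr 1
      ext ν
      rw [← integral_const_mul]
      refine integral_congr_ae (ae_of_all _ fun x => ?_)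
      simp only [ContinuousMap.smul_apply, smul_eq_mul]
      ring)

theorem B_apply {𝓕 : Set (Measure UI)} (F : XX 𝓕) (g : C(UI, ℝ)) :
    B 𝓕 F g = ∑' ν : 𝓕, ∫ x, g x * F ν x ∂(ν : Measure UI) := rfl

theorem B_bound {𝓕 : Set (Measure UI)} (F : XX 𝓕) (g : C(UI, ℝ)) :
    ‖B 𝓕 F g‖ ≤ 1 * ‖F‖ * ‖g‖ := by
  rw [B_apply, one_mul, norm_eq, ← tsum_mul_right]
  exact tsum_of_norm_bounded ((norm_summable F).mul_right ‖g‖).hasSum fun ν => int_bound g (F ν)

/-- The abstract step. -/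
theorem gen.{u, v} {E : Type u} {X : Type v} [NormedAddCommGroup E] [NormedSpace ℝ E]
    [NormedAddCommGroup X] [NormedSpace ℝ X] [CompleteSpace X]
    (B : X →ₗ[ℝ] E →ₗ[ℝ] ℝ) (hB : ∀ x e, ‖B x e‖ ≤ 1 * ‖x‖ * ‖e‖)
    (hlow : ∀ x, ∀ ε : ℝ, 0 < ε → ∃ g : E, ‖g‖ ≤ 1 ∧ ‖x‖ - ε ≤ B x g)
    (hsurj : ∀ φ : StrongDual ℝ E, ∃ x, ∀ g, B x g = φ g) : Nonempty (X ≃L[ℝ] StrongDual ℝ E) := by
  let T : X →L[ℝ] StrongDual ℝ E := B.mkContinuous₂ 1 hB
  have hT : ∀ x g, T x g = B x g := fun x g => rfl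
  have hlow' : ∀ x, ‖x‖ ≤ ‖T x‖ := by
    intro x
    refine le_of_forall_pos_le_add fun ε hε => ?_
    obtain ⟨g, hg, h⟩ := hlow x ε hε
    have h1 : B x g ≤ ‖T x‖ := by
      rw [← hT]
      refine (le_abs_self _).trans (((T x).le_opNorm g).trans ?_)
      exact mul_le_of_le_one_right (norm_nonneg _) hg
    linarith
  have hinj : Function.Injective T := by
    rw [injective_iff_map_eq_zero]
    intro x hx
    have h3 := hlow' x
    rw [hx, norm_zero] at h3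
    exact norm_le_zero_iff.1 h3
  have hs : Function.Surjective T := by
    intro φ
    obtain ⟨x, hx⟩ := hsurj φ
    exact ⟨x, ContinuousLinearMap.ext fun g => by rw [hT, hx]⟩
  exact ⟨ContinuousLinearEquiv.ofBijective T (LinearMap.ker_eq_bot.2 hinj)
    (LinearMap.range_eq_top.2 hs)⟩

/-- Separation of finitely many pairwise singular measures. -/
theorem sep {𝓕 : Set (Measure UI)} (h𝓕 : ∀ ν ∈ 𝓕, ∀ ν' ∈ 𝓕, ν ≠ ν' → ν ⟂ₘ ν') (J : Finset 𝓕) :
    ∃ S : 𝓕 → Set UI, (∀ ν, MeasurableSet (S ν)) ∧ (∀ ν ∈ J, (ν : Measure UI) (S ν)ᶜ = 0) ∧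
      ∀ ν ∈ J, ∀ ν' ∈ J, ν ≠ ν' → (ν' : Measure UI) (S ν) = 0 := by
  classical
  have h : ∀ ν : 𝓕, ∃ S : Set UI, MeasurableSet S ∧ (ν : Measure UI) Sᶜ = 0 ∧
      ∀ ν' ∈ J, ν ≠ ν' → (ν' : Measure UI) S = 0 := by
    intro ν
    have h1 : (ν : Measure UI) ⟂ₘ Measure.sum (fun ν' : {ν' // ν' ∈ J ∧ ν ≠ ν'} =>
        ((ν' : 𝓕) : Measure UI)) := by
      have : Finite {ν' // ν' ∈ J ∧ ν ≠ ν'} :=
        (J.finite_toSet.subset (fun x hx => hx.1) : Set.Finite {ν' | ν' ∈ J ∧ ν ≠ ν'})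
      rw [Measure.MutuallySingular.sum_right]
      intro ν'
      exact h𝓕 _ ν.2 _ ν'.1.2 fun h => ν'.2.2 (Subtype.ext h)
    obtain ⟨s, hs, h2, h3⟩ := h1
    refine ⟨sᶜ, hs.compl, by simpa using h2, fun ν' hν' hne => ?_⟩
    rw [Measure.sum_apply _ hs.compl] at h3
    rw [ENNReal.tsum_eq_zero] at h3
    exact h3 ⟨ν', hν', hne⟩
  choose S h1 h2 h3 using h
  exact ⟨S, h1, fun ν _ => h2 ν, fun ν _ ν' hν' hne => h3 ν ν' hν' hne⟩

/-- Lower bound on finite partial sums. -/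
theorem lower_fin (h2 : S_M2) {𝓕 : Set (Measure UI)} (h𝓕 : MaxFam 𝓕) (F : XX 𝓕) (J : Finset 𝓕)
    {ε : ℝ} (hε : 0 < ε) : ∃ g : C(UI, ℝ), ‖g‖ ≤ 1 ∧
      ∑ ν ∈ J, ‖F ν‖ - ε ≤ ∑ ν ∈ J, ∫ x, g x * F ν x ∂(ν : Measure UI) := by
  classical
  obtain ⟨S, hS, hS1, hS2⟩ := sep h𝓕.2.1 J
  set m : Measure UI := ∑ ν ∈ J, (ν : Measure UI) with hm
  set f : UI → ℝ := fun x => ∑ ν ∈ J, (S ν).indicator (fun x => F ν x) x with hf
  have : ∀ ν : 𝓕, IsProbabilityMeasure (ν : Measure UI) := fun ν => (h𝓕.1 _ ν.2).1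
  have hmf : IsFiniteMeasure m := by
    rw [hm]
    infer_instance
  have hfae : ∀ ν ∈ J, f =ᵐ[(ν : Measure UI)] fun x => F ν x := by
    intro ν hν
    have h3 : ∀ ν' ∈ J, ∀ᵐ x ∂(ν : Measure UI), (S ν').indicator (fun x => F ν' x) x =
        if ν' = ν then F ν x else 0 := by
      intro ν' hν'
      by_cases h : ν' = ν
      · subst h
        have : ∀ᵐ x ∂(ν' : Measure UI), x ∈ S ν' := by
          rw [ae_iff]
          exact hS1 ν' hν
        filter_upwards [this] with x hx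
        rw [indicator_of_mem hx, if_pos rfl]
      · have : ∀ᵐ x ∂(ν : Measure UI), x ∉ S ν' := by
          rw [ae_iff]
          simpa using hS2 ν' hν' ν hν h
        filter_upwards [this] with x hx
        rw [indicator_of_notMem hx, if_neg h]
    have h4 : ∀ᵐ x ∂(ν : Measure UI), ∀ ν' ∈ J, (S ν').indicator (fun x => F ν' x) x =
        if ν' = ν then F ν x else 0 := (Finset.eventually_all J).2 h3
    filter_upwards [h4] with x hx
    rw [hf]
    simp only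
    rw [Finset.sum_congr rfl hx, Finset.sum_ite_eq' J ν, if_pos hν]
  have hfi : ∀ ν ∈ J, Integrable f (ν : Measure UI) := fun ν hν =>
    (L1.integrable_coeFn (F ν)).congr (hfae ν hν).symm
  have hfm : Integrable f m := by
    rw [hm]
    exact integrable_finsetSum_measure.2 hfi
  obtain ⟨g, hg, h⟩ := h2 m hmf f hfm ε hε
  refine ⟨g, hg, ?_⟩
  have e1 : ∫ x, |f x| ∂m = ∑ ν ∈ J, ‖F ν‖ := by
    rw [hm, integral_finsetSum_measure fun ν hν => (hfi ν hν).abs]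
    refine Finset.sum_congr rfl fun ν hν => ?_
    rw [L1.norm_eq_integral_norm]
    refine integral_congr_ae ?_
    filter_upwards [hfae ν hν] with x hx
    rw [hx, Real.norm_eq_abs]
  have e2 : ∫ x, g x * f x ∂m = ∑ ν ∈ J, ∫ x, g x * F ν x ∂(ν : Measure UI) := by
    have : ∀ ν ∈ J, (fun x => g x * f x) =ᵐ[(ν : Measure UI)] fun x => g x * F ν x := by
      intro ν hν
      filter_upwards [hfae ν hν] with x hx
      rw [hx]
    rw [hm, integral_finsetSum_measure fun ν hν => (int_mul g (F ν)).congr (this ν hν).symm]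
    exact Finset.sum_congr rfl fun ν hν => integral_congr_ae (this ν hν)
  rw [← e1, ← e2]
  exact h

/-- The operator is bounded below. -/
theorem lower (h2 : S_M2) {𝓕 : Set (Measure UI)} (h𝓕 : MaxFam 𝓕) (F : XX 𝓕) (ε : ℝ)
    (hε : 0 < ε) : ∃ g : C(UI, ℝ), ‖g‖ ≤ 1 ∧ ‖F‖ - ε ≤ B 𝓕 F g := by
  classical
  have hs := norm_summable F
  have h3 : ∃ J : Finset 𝓕, ‖F‖ - ε / 3 ≤ ∑ ν ∈ J, ‖F ν‖ := by
    have := hs.hasSum.eventually (lt_mem_nhds (show (∑' ν, ‖F ν‖) - ε / 3 < ∑' ν, ‖F ν‖ by linarith))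
    obtain ⟨J, hJ⟩ := this.exists
    exact ⟨J, by rw [norm_eq]; exact hJ.le⟩
  obtain ⟨J, hJ⟩ := h3
  obtain ⟨g, hg, h⟩ := lower_fin h2 h𝓕 F J (ε := ε / 3) (by positivity)
  refine ⟨g, hg, ?_⟩
  have h5 := (summable_T F g).sum_add_tsum_compl (s := J)
  have h6 := hs.sum_add_tsum_compl (s := J)
  have h7 : |∑' ν : ↑(↑J : Set 𝓕)ᶜ, ∫ x, g x * F ν x ∂((ν : 𝓕) : Measure UI)| ≤
      ∑' ν : ↑(↑J : Set 𝓕)ᶜ, ‖F ν‖ := by
    have h10 : ∀ ν : ↑(↑J : Set 𝓕)ᶜ, ‖∫ x, g x * F ν x ∂((ν : 𝓕) : Measure UI)‖ ≤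
        ‖F ν‖ := fun ν =>
      (int_bound g (F ν)).trans (mul_le_of_le_one_right (norm_nonneg (F ν)) hg)
    exact tsum_of_norm_bounded (hs.subtype _).hasSum h10
  rw [B_apply, ← h5]
  rw [← norm_eq] at h6
  have h9 := abs_le.1 h7
  linarith [h9.1]

/-- Finite measures are in the range. -/
theorem range_meas (h4 : S_M4) {𝓕 : Set (Measure UI)} (h𝓕 : MaxFam 𝓕) (m : Measure UI)
    (hm : IsFiniteMeasure m) : ∃ F : XX 𝓕, ∀ g : C(UI, ℝ), B 𝓕 F g = ∫ x, g x ∂m := by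
  obtain ⟨f, hf, hms⟩ := h4 𝓕 h𝓕 m hm
  have hsum : ∑' ν : 𝓕, ∫⁻ x, f ν x ∂(ν : Measure UI) = m univ := by
    conv_rhs => rw [hms]
    rw [Measure.sum_apply _ MeasurableSet.univ]
    congr 1
    ext ν
    rw [withDensity_apply _ MeasurableSet.univ, Measure.restrict_univ]
  have hfin : ∑' ν : 𝓕, ∫⁻ x, f ν x ∂(ν : Measure UI) ≠ ∞ := by
    rw [hsum]
    exact measure_ne_top m _
  have hfin1 : ∀ ν : 𝓕, ∫⁻ x, f ν x ∂(ν : Measure UI) ≠ ∞ := fun ν =>
    ENNReal.ne_top_of_tsum_ne_top hfin ν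
  have hint : ∀ ν : 𝓕, Integrable (fun x => (f ν x).toReal) (ν : Measure UI) := fun ν =>
    integrable_toReal_of_lintegral_ne_top (hf ν).aemeasurable (hfin1 ν)
  have hlt : ∀ ν : 𝓕, ∀ᵐ x ∂(ν : Measure UI), f ν x < ∞ := fun ν =>
    ae_lt_top (hf ν) (hfin1 ν)
  let F0 : (ν : 𝓕) → Lp ℝ 1 (ν : Measure UI) := fun ν => (hint ν).toL1 _
  have hnorm : ∀ ν : 𝓕, ‖F0 ν‖ = (∫⁻ x, f ν x ∂(ν : Measure UI)).toReal := by
    intro ν
    rw [L1.norm_eq_integral_norm, ← integral_toReal (hf ν).aemeasurable (hlt ν)]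
    refine integral_congr_ae ?_
    filter_upwards [(hint ν).coeFn_toL1] with x hx
    rw [hx, Real.norm_of_nonneg ENNReal.toReal_nonneg]
  have hmem : Memℓp F0 1 := by
    refine memℓp_gen ?_
    simp only [ENNReal.toReal_one, Real.rpow_one]
    simp_rw [hnorm]
    exact ENNReal.summable_toReal hfin
  refine ⟨⟨F0, hmem⟩, fun g => ?_⟩
  rw [B_apply]
  have hgi : Integrable (fun x => g x) m := by
    refine Integrable.of_bound g.continuous.aestronglyMeasurable ‖g‖ ?_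
    exact ae_of_all _ fun x => g.norm_coe_le_norm x
  have h10 : ∫ x, g x ∂m = ∑' ν : 𝓕, ∫ x, g x ∂((ν : Measure UI).withDensity (f ν)) := by
    conv_lhs => rw [hms]
    rw [integral_sum_measure]
    rw [← hms]
    exact hgi
  rw [h10]
  congr 1
  ext ν
  rw [integral_withDensity_eq_integral_toReal_smul (hf ν) (hlt ν)]
  refine integral_congr_ae ?_
  filter_upwards [(hint ν).coeFn_toL1] with x hx
  rw [hx, smul_eq_mul, mul_comm]

end M5

open M5 in
/-- (M5) -/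
theorem sM5 (h1 : S_M1) (h2 : S_M2) (h4 : S_M4) : S_M5 := by
  intro 𝓕 h𝓕
  have hsurj : ∀ φ : StrongDual ℝ C(UI, ℝ), ∃ F : XX 𝓕, ∀ g, B 𝓕 F g = φ g := by
    intro φ
    obtain ⟨m₁, m₂, hm₁, hm₂, h⟩ := h1 φ
    obtain ⟨F₁, hF₁⟩ := range_meas h4 h𝓕 m₁ hm₁
    obtain ⟨F₂, hF₂⟩ := range_meas h4 h𝓕 m₂ hm₂
    refine ⟨F₁ - F₂, fun g => ?_⟩
    rw [map_sub, LinearMap.sub_apply, hF₁, hF₂, h]
  exact gen (E := C(UI, ℝ)) (X := XX 𝓕) (B 𝓕) B_bound (lower h2 h𝓕) hsurj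

end Pool.Agent.W6h79.LD
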