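import Pool.Agent.W6h79.LD.Defs2

/-!
The dual of `C[0,1]`, final form.
-/

set_option autoImplicit false

open MeasureTheory Set Filter
open scoped ENNReal NNReal Topology

noncomputable section

namespace Pool.Agent.W6h79.LD

namespace M6P

theorem int_dirac (x : UI) (f : Lp ℝ 1 (Measure.dirac x)) :
    ∫ y, f y ∂(Measure.dirac x) = f x := integral_dirac _ _

theorem norm_dirac (x : UI) (f : Lp ℝ 1 (Measure.dirac x)) : ‖f‖ = ‖f x‖ := by
  rw [L1.norm_eq_integral_norm, integral_dirac]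

/-- `L¹` of a Dirac measure. -/
theorem dirac_equiv (x : UI) : Nonempty (Lp ℝ 1 (Measure.dirac x) ≃ₗᵢ[ℝ] ℝ) := by
  let T : Lp ℝ 1 (Measure.dirac x) →ₗ[ℝ] ℝ := (L1.integralCLM (α := UI) (E := ℝ)
    (μ := Measure.dirac x) : Lp ℝ 1 (Measure.dirac x) →L[ℝ] ℝ)
  have hT : ∀ f, T f = f x := by
    intro f
    have h1 : T f = L1.integral f := (L1.integral_eq f).symm
    rw [h1, L1.integral_eq_integral, int_dirac]
  let T' : Lp ℝ 1 (Measure.dirac x) →ₗᵢ[ℝ] ℝ := ⟨T, fun f => by rw [hT, norm_dirac]⟩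
  refine ⟨LinearIsometryEquiv.ofSurjective T' fun c => ?_⟩
  refine ⟨indicatorConstLp 1 (MeasurableSet.univ) (measure_ne_top _ _) c, ?_⟩
  change T _ = c
  have h1 : T (indicatorConstLp 1 (μ := Measure.dirac x) (MeasurableSet.univ)
      (measure_ne_top _ _) c) = L1.integral (indicatorConstLp 1 (μ := Measure.dirac x)
      (MeasurableSet.univ) (measure_ne_top _ _) c) := (L1.integral_eq _).symm
  rw [h1, L1.integral_eq_integral, integral_congr_ae indicatorConstLp_coeFn, integral_dirac]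
  simp

end M6P

open M6P

theorem sM6 (h3 : S_M3) (h5 : S_M5) (h7 : S_M7) (hP : S_P6) (hL : S_L1.{0, 0, 0})
    (hL' : S_L5'.{0, 0}) : S_M6 := by
  classical
  obtain ⟨𝓕, hF, ν0, hν0, hν0'⟩ := h3
  have hc := h7 𝓕 fun ν hν => (hF.1 ν hν).1
  let p : 𝓕 → Prop := fun ν => ∀ x, (ν : Measure UI) {x} = 0
  refine ⟨{i : 𝓕 // p i}, {i : 𝓕 // ¬ p i}, ⟨⟨⟨ν0, hν0⟩, hν0'⟩⟩,
    (Cardinal.mk_subtype_le _).trans hc, (Cardinal.mk_subtype_le _).trans hc, ?_⟩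
  obtain ⟨e1⟩ := h5 𝓕 hF
  obtain ⟨e2⟩ := hL' 𝓕 p (fun ν : 𝓕 => Lp ℝ 1 (ν : Measure UI))
  obtain ⟨e3⟩ := hL {i : 𝓕 // p i} (fun i => Lp ℝ 1 ((i : 𝓕) : Measure UI)) (fun _ => LL)
    (fun i => hP _ (hF.1 _ (i : 𝓕).2).1 i.2)
  obtain ⟨e4⟩ := hL {i : 𝓕 // ¬ p i} (fun i => Lp ℝ 1 ((i : 𝓕) : Measure UI)) (fun _ => ℝ)
    (fun i => by
      rcases (hF.1 _ (i : 𝓕).2).2 with ⟨x, hx⟩ | h
      · rw [hx]
        exact dirac_equiv x
      · exact absurd h i.2)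
  exact ⟨(e1.symm.trans e2).trans
    (e3.toContinuousLinearEquiv.prodCongr e4.toContinuousLinearEquiv)⟩

end Pool.Agent.W6h79.LD
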