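import Pool.Agent.W6h79.LD.Defs2

/-!
# Cardinality of families of probability measures on `[0,1]` (piece (M7)), written by helper74
-/

open MeasureTheory Set Filter
open scoped ENNReal NNReal Topology

noncomputable section

namespace Pool.Agent.W6h79.LD

theorem sM7 : S_M7 := by
  intro 𝓕 h𝓕
  let φ : 𝓕 → (ℚ × ℚ → ℝ) := fun ν p =>
    ((ν : Measure UI).map (Subtype.val : UI → ℝ) (Ioo (p.1 : ℝ) (p.2 : ℝ))).toReal
  have hemb : MeasurableEmbedding (Subtype.val : UI → ℝ) :=
    MeasurableEmbedding.subtype_coe measurableSet_Icc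
  have hinj : Function.Injective φ := by
    rintro ⟨ν, hν⟩ ⟨ν', hν'⟩ h
    have h1 : IsProbabilityMeasure ν := h𝓕 ν hν
    have h2 : IsProbabilityMeasure ν' := h𝓕 ν' hν'
    have h3 : IsProbabilityMeasure (ν.map (Subtype.val : UI → ℝ)) :=
      Measure.isProbabilityMeasure_map measurable_subtype_coe.aemeasurable
    have h4 : IsProbabilityMeasure (ν'.map (Subtype.val : UI → ℝ)) :=
      Measure.isProbabilityMeasure_map measurable_subtype_coe.aemeasurable
    have h5 : ν.map (Subtype.val : UI → ℝ) = ν'.map (Subtype.val : UI → ℝ) := by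
      refine Real.measure_ext_Ioo_rat fun p q => ?_
      have h6 := congrFun h (p, q)
      exact (ENNReal.toReal_eq_toReal_iff' (measure_ne_top _ _) (measure_ne_top _ _)).1 h6
    exact Subtype.ext (hemb.map_injective h5)
  refine (Cardinal.mk_le_of_injective hinj).trans (le_of_eq ?_)
  rw [← Cardinal.power_def, Cardinal.mk_real, Cardinal.mk_eq_aleph0 (ℚ × ℚ),
    Cardinal.continuum_power_aleph0]

end Pool.Agent.W6h79.LD
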