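import Pool.Agent.W6h79.LD.Defs2

/-!
# (N): the dual of the `c₀`-sum of copies of `Y` is the `ℓ¹`-sum of copies of `Y*`
-/

open scoped ENNReal NNReal

noncomputable section

namespace Pool.Agent.W6h79.LD

universe u v

namespace NDual

variable (K : Type u) (Y : Type v) [NormedAddCommGroup Y] [NormedSpace ℝ Y]

open Classical in
/-- One coordinate. -/
def sng (i : K) : Y →L[ℝ] lp (fun _ : K => Y) ∞ :=
  LinearMap.mkContinuous
    { toFun := fun y => lp.single (E := fun _ : K => Y) ∞ i y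
      map_add' := fun y y' => lp.single_add (E := fun _ : K => Y) ∞ i y y'
      map_smul' := fun r y => lp.single_smul (E := fun _ : K => Y) ∞ i r y } 1 fun y => by
        rw [one_mul]
        exact (lp.norm_single (E := fun _ : K => Y) (by simp) i y).le

/-- The `c₀`-sum. -/
def csum : Submodule ℝ (lp (fun _ : K => Y) ∞) :=
  (Submodule.span ℝ {x | ∃ i y, x = sng K Y i y}).topologicalClosure

/-- One coordinate, as an element of the `c₀`-sum. -/
def csng (i : K) : Y →L[ℝ] csum K Y :=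
  (sng K Y i).codRestrict (csum K Y) fun y =>
    Submodule.le_topologicalClosure _ (Submodule.subset_span ⟨i, y, rfl⟩)

theorem id_norm_le (_ : K) : ‖ContinuousLinearMap.id ℝ (StrongDual ℝ Y)‖ ≤ ((1 : ℝ≥0) : ℝ) := by
  rw [NNReal.coe_one]
  exact ContinuousLinearMap.norm_id_le

/-- The pairing of `ℓ¹(Y*)` with `ℓ^∞(Y)`. -/
def pairL : lp (fun _ : K => StrongDual ℝ Y) 1 →L[ℝ] lp (fun _ : K => Y) ∞ →L[ℝ] ℝ :=
  lp.dualPairing 1 ∞ (fun _ => ContinuousLinearMap.id ℝ (StrongDual ℝ Y)) (K := 1)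
    (id_norm_le K Y)

variable {K Y}

theorem pairL_apply (a : lp (fun _ : K => StrongDual ℝ Y) 1) (y : lp (fun _ : K => Y) ∞) :
    pairL K Y a y = ∑' i, a i (y i) := rfl

theorem sng_self (i : K) (y : Y) : (sng K Y i y : ∀ _ : K, Y) i = y := by
  classical
  exact lp.single_apply_self (E := fun _ : K => Y) ∞ i y

theorem sng_ne {i j : K} (h : j ≠ i) (y : Y) : (sng K Y i y : ∀ _ : K, Y) j = 0 := by
  classical
  exact lp.single_apply_ne (E := fun _ : K => Y) ∞ i y h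

theorem pairL_sng (a : lp (fun _ : K => StrongDual ℝ Y) 1) (i : K) (y : Y) :
    pairL K Y a (sng K Y i y) = a i y := by
  rw [pairL_apply, tsum_eq_single i]
  · rw [sng_self]
  · intro j hj
    rw [sng_ne hj, map_zero]

theorem pairL_le (a : lp (fun _ : K => StrongDual ℝ Y) 1) : ‖pairL K Y a‖ ≤ ‖a‖ := by
  have h1 : ‖pairL K Y‖ ≤ ((1 : ℝ≥0) : ℝ) := lp.norm_dualPairing _ (id_norm_le K Y)
  rw [NNReal.coe_one] at h1
  calc ‖pairL K Y a‖ ≤ ‖pairL K Y‖ * ‖a‖ := (pairL K Y).le_opNorm a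
    _ ≤ 1 * ‖a‖ := mul_le_mul_of_nonneg_right h1 (norm_nonneg a)
    _ = ‖a‖ := one_mul _

theorem sum_sng_le (c : K → Y) (hc : ∀ i, ‖c i‖ ≤ 1) (s : Finset K) :
    ‖∑ i ∈ s, csng K Y i (c i)‖ ≤ 1 := by
  classical
  have h1 : ((∑ i ∈ s, csng K Y i (c i) : csum K Y) : lp (fun _ : K => Y) ∞) =
      ∑ i ∈ s, sng K Y i (c i) := by
    rw [Submodule.coe_sum]
    rfl
  change ‖((∑ i ∈ s, csng K Y i (c i) : csum K Y) : lp (fun _ : K => Y) ∞)‖ ≤ 1
  rw [h1]
  refine lp.norm_le_of_forall_le zero_le_one fun j => ?_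
  rw [lp.coeFn_sum, Finset.sum_apply]
  have h2 : ∀ i, (sng K Y i (c i) : lp (fun _ : K => Y) ∞) j = if j = i then c j else 0 := by
    intro i
    split_ifs with h
    · rw [← h, sng_self]
    · rw [sng_ne h]
  rw [Finset.sum_congr rfl fun i _ => h2 i, Finset.sum_ite_eq]
  split_ifs with h
  · exact hc j
  · rw [norm_zero]
    exact zero_le_one

theorem exists_near (f : StrongDual ℝ Y) {δ : ℝ} (hδ : 0 < δ) :
    ∃ y : Y, ‖y‖ ≤ 1 ∧ ‖f‖ - δ ≤ f y := by
  obtain ⟨x, hx, h⟩ := f.exists_lt_apply_of_lt_opNorm (show ‖f‖ - δ < ‖f‖ by linarith)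
  rcases le_total 0 (f x) with h0 | h0
  · refine ⟨x, hx.le, ?_⟩
    rw [Real.norm_eq_abs, abs_of_nonneg h0] at h
    exact h.le
  · refine ⟨-x, by rw [norm_neg]; exact hx.le, ?_⟩
    rw [Real.norm_eq_abs, abs_of_nonpos h0] at h
    rw [map_neg]
    exact h.le

theorem sum_norm_le (φ : StrongDual ℝ (csum K Y)) (s : Finset K) :
    ∑ i ∈ s, ‖φ.comp (csng K Y i)‖ ≤ ‖φ‖ := by
  refine le_of_forall_pos_le_add fun ε hε => ?_
  have hδ : 0 < ε / (s.card + 1) := by positivity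
  choose c hc1 hc2 using fun i => exists_near (φ.comp (csng K Y i)) hδ
  have h1 := φ.le_opNorm (∑ i ∈ s, csng K Y i (c i))
  have h2 : φ (∑ i ∈ s, csng K Y i (c i)) = ∑ i ∈ s, (φ.comp (csng K Y i)) (c i) := by
    rw [map_sum]
    rfl
  have h3 : ∑ i ∈ s, (‖φ.comp (csng K Y i)‖ - ε / (s.card + 1)) ≤
      ∑ i ∈ s, (φ.comp (csng K Y i)) (c i) := Finset.sum_le_sum fun i _ => hc2 i
  rw [Finset.sum_sub_distrib, Finset.sum_const, nsmul_eq_mul] at h3
  have h4 : (s.card : ℝ) * (ε / (s.card + 1)) ≤ ε := by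
    rw [mul_div_assoc', div_le_iff₀ (by positivity)]
    nlinarith
  have h5 : φ (∑ i ∈ s, csng K Y i (c i)) ≤ ‖φ‖ := by
    calc φ (∑ i ∈ s, csng K Y i (c i)) ≤ ‖φ (∑ i ∈ s, csng K Y i (c i))‖ := le_abs_self _
      _ ≤ ‖φ‖ * ‖∑ i ∈ s, csng K Y i (c i)‖ := h1
      _ ≤ ‖φ‖ * 1 := mul_le_mul_of_nonneg_left (sum_sng_le _ hc1 s) (norm_nonneg φ)
      _ = ‖φ‖ := mul_one _
  rw [h2] at h5
  linarith

/-- The map from `ℓ¹(Y*)` to the dual of the `c₀`-sum. -/
def toDual : lp (fun _ : K => StrongDual ℝ Y) 1 →ₗ[ℝ] StrongDual ℝ (csum K Y) where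
  toFun a := (pairL K Y a).comp (csum K Y).subtypeL
  map_add' a b := by rw [map_add, ContinuousLinearMap.add_comp]
  map_smul' r a := by rw [map_smul, ContinuousLinearMap.smul_comp, RingHom.id_apply]

theorem toDual_csng (a : lp (fun _ : K => StrongDual ℝ Y) 1) (i : K) :
    (toDual a).comp (csng K Y i) = a i := by
  ext y
  exact pairL_sng a i y

theorem norm_toDual (a : lp (fun _ : K => StrongDual ℝ Y) 1) : ‖toDual a‖ = ‖a‖ := by
  apply le_antisymm
  · refine ContinuousLinearMap.opNorm_le_bound _ (norm_nonneg a) fun y => ?_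
    change ‖pairL K Y a (y : lp (fun _ : K => Y) ∞)‖ ≤ _
    calc ‖pairL K Y a (y : lp (fun _ : K => Y) ∞)‖
        ≤ ‖pairL K Y a‖ * ‖(y : lp (fun _ : K => Y) ∞)‖ := (pairL K Y a).le_opNorm _
      _ ≤ ‖a‖ * ‖(y : lp (fun _ : K => Y) ∞)‖ :=
          mul_le_mul_of_nonneg_right (pairL_le a) (norm_nonneg _)
  · refine lp.norm_le_of_forall_sum_le (E := fun _ : K => StrongDual ℝ Y)
      (show 0 < (1 : ℝ≥0∞).toReal by simp) (norm_nonneg (toDual a)) fun s => ?_
    simp only [ENNReal.toReal_one, Real.rpow_one]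
    have h1 := sum_norm_le (toDual a) s
    simpa only [toDual_csng] using h1

theorem toDual_surjective : Function.Surjective (toDual (K := K) (Y := Y)) := by
  intro φ
  have hmem : Memℓp (fun i : K => φ.comp (csng K Y i)) 1 := by
    refine memℓp_gen' (C := ‖φ‖) fun s => ?_
    simp only [ENNReal.toReal_one, Real.rpow_one]
    exact sum_norm_le φ s
  refine ⟨⟨fun i => φ.comp (csng K Y i), hmem⟩, ?_⟩
  set a : lp (fun _ : K => StrongDual ℝ Y) 1 := ⟨fun i => φ.comp (csng K Y i), hmem⟩ with ha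
  obtain ⟨ψ, hψ, -⟩ := exists_extension_norm_eq (csum K Y) φ
  have h1 : csum K Y ≤ LinearMap.ker ((pairL K Y a - ψ : lp (fun _ : K => Y) ∞ →L[ℝ] ℝ) :
      lp (fun _ : K => Y) ∞ →ₗ[ℝ] ℝ) := by
    refine Submodule.topologicalClosure_minimal _ ?_
      (isClosed_singleton.preimage (pairL K Y a - ψ).continuous)
    rw [Submodule.span_le]
    rintro - ⟨i, y, rfl⟩
    change (pairL K Y a - ψ) (sng K Y i y) = 0
    rw [sub_apply, pairL_sng, sub_eq_zero]
    exact (hψ (csng K Y i y)).symm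
  ext y
  have h2 := h1 y.2
  have h3 : (pairL K Y a - ψ) (y : lp (fun _ : K => Y) ∞) = 0 := h2
  rw [sub_apply, sub_eq_zero, hψ] at h3
  exact h3

end NDual

theorem sN : S_N.{u, v} := by
  intro K Y _ _ _
  refine ⟨NDual.csum K Y, inferInstance, inferInstance, ?_, ⟨?_⟩⟩
  · exact (Submodule.isClosed_topologicalClosure _).completeSpace_coe
  · exact (LinearIsometryEquiv.ofSurjective
      (⟨NDual.toDual, NDual.norm_toDual⟩ : lp (fun _ : K => StrongDual ℝ Y) 1 →ₗᵢ[ℝ]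
        StrongDual ℝ (NDual.csum K Y)) NDual.toDual_surjective).toContinuousLinearEquiv.symm

end Pool.Agent.W6h79.LD
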