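import Pool.Agent.W6h79.LD.Defs2

/-!
# (P3): `L¹` of a nonatomic probability measure on the line is `L¹[0,1]`
-/

open MeasureTheory Set Filter ProbabilityTheory
open scoped ENNReal NNReal Topology

noncomputable section

namespace Pool.Agent.W6h79.LD

namespace P3

variable (ν : Measure ℝ)

theorem cdf_cont [IsProbabilityMeasure ν] (h : ∀ x, ν {x} = 0) : Continuous (cdf ν) := by
  rw [continuous_iff_continuousAt]
  intro x
  rw [(monotone_cdf ν).continuousAt_iff_leftLim_eq_rightLim, StieltjesFunction.rightLim_eq]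
  have h1 : (cdf ν).measure {x} = 0 := by rw [measure_cdf, h x]
  rw [StieltjesFunction.measure_singleton, ENNReal.ofReal_eq_zero] at h1
  have h2 := (monotone_cdf ν).leftLim_le (le_refl x)
  linarith

/-- the level sets of the cdf -/
theorem meas_le [IsProbabilityMeasure ν] (h : ∀ x, ν {x} = 0) (a : ℝ) (h0 : 0 < a) (h1 : a < 1) :
    ν {x | cdf ν x ≤ a} = ENNReal.ofReal a := by
  have hc := cdf_cont ν h
  set S : Set ℝ := {x | cdf ν x ≤ a} with hS
  have hne : S.Nonempty := by
    have := (tendsto_cdf_atBot ν).eventually (gt_mem_nhds h0)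
    obtain ⟨x, hx⟩ := this.exists
    exact ⟨x, hx.le⟩
  have hbd : BddAbove S := by
    have := (tendsto_cdf_atTop ν).eventually (lt_mem_nhds h1)
    obtain ⟨x, hx⟩ := this.exists
    refine ⟨x, fun y hy => ?_⟩
    by_contra hlt
    have h2 := monotone_cdf ν (not_le.1 hlt).le
    have h3 : cdf ν y ≤ a := hy
    linarith
  have hcl : IsClosed S := isClosed_le hc continuous_const
  have hmem : sSup S ∈ S := hcl.csSup_mem hne hbd
  have hSeq : S = Iic (sSup S) := by
    ext y
    refine ⟨fun hy => le_csSup hbd hy, fun hy => ?_⟩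
    exact (monotone_cdf ν hy).trans hmem
  have hval : cdf ν (sSup S) = a := by
    refine le_antisymm hmem ?_
    by_contra hlt
    have h2 : ∀ᶠ y in 𝓝 (sSup S), cdf ν y < a :=
      (hc.continuousAt (x := sSup S)).eventually (gt_mem_nhds (not_le.1 hlt))
    have h3 : ∀ᶠ y in 𝓝[>] (sSup S), cdf ν y < a := h2.filter_mono nhdsWithin_le_nhds
    obtain ⟨y, hy1, hy2⟩ := (h3.and self_mem_nhdsWithin).exists
    exact absurd (le_csSup hbd (show y ∈ S from hy1.le)) (not_le.2 hy2)
  rw [hSeq, ← ofReal_cdf, hval]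

theorem map_cdf [IsProbabilityMeasure ν] (h : ∀ x, ν {x} = 0) : ν.map (cdf ν) = lam := by
  have hm : Measurable (cdf ν) := (monotone_cdf ν).measurable
  have : IsProbabilityMeasure (ν.map (cdf ν)) := Measure.isProbabilityMeasure_map hm.aemeasurable
  refine Measure.ext_of_Iic _ _ fun a => ?_
  rw [Measure.map_apply hm measurableSet_Iic]
  have h3 : lam (Iic a) = volume (Iic a ∩ Icc 0 1) := Measure.restrict_apply measurableSet_Iic
  rw [h3]
  have hpre : (cdf ν) ⁻¹' (Iic a) = {x | cdf ν x ≤ a} := rfl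
  rw [hpre]
  rcases lt_or_ge a 0 with ha | ha
  · have e1 : {x | cdf ν x ≤ a} = ∅ := by
      ext x
      simp only [Set.mem_ofPred_eq, mem_empty_iff_false, iff_false, not_le]
      exact ha.trans_le (cdf_nonneg ν x)
    have e2 : Iic a ∩ Icc (0 : ℝ) 1 = ∅ := by
      ext x
      simp only [mem_inter_iff, mem_Iic, mem_Icc, mem_empty_iff_false, iff_false]
      rintro ⟨h1, h2, -⟩
      linarith
    rw [e1, e2]
    simp
  rcases le_or_gt 1 a with ha1 | ha1
  · have e1 : {x | cdf ν x ≤ a} = univ := by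
      ext x
      simp only [Set.mem_ofPred_eq, mem_univ, iff_true]
      exact (cdf_le_one ν x).trans ha1
    have e2 : Iic a ∩ Icc (0 : ℝ) 1 = Icc 0 1 := by
      ext x
      simp only [mem_inter_iff, mem_Iic, mem_Icc, and_iff_right_iff_imp]
      rintro ⟨-, h2⟩
      linarith
    rw [e1, e2]
    simp
  have e2 : Iic a ∩ Icc (0 : ℝ) 1 = Icc 0 a := by
    ext x
    simp only [mem_inter_iff, mem_Iic, mem_Icc]
    constructor
    · rintro ⟨h1, h2, -⟩
      exact ⟨h2, h1⟩
    · rintro ⟨h1, h2⟩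
      exact ⟨h2, h1, by linarith⟩
  rw [e2, Real.volume_Icc, sub_zero]
  rcases eq_or_lt_of_le ha with h0 | h0
  · rw [← h0, ENNReal.ofReal_zero]
    refine le_antisymm (le_of_forall_gt fun c hc => ?_) zero_le
    obtain ⟨ε, hε0, hε1⟩ := ENNReal.lt_iff_exists_real_btwn.1 hc
    have hpos : 0 < ε := by
      have := hε1.1
      exact ENNReal.ofReal_pos.1 this
    set δ := min ε (1 / 2) with hδ
    have hδ0 : 0 < δ := lt_min hpos (by norm_num)
    have hδ1 : δ < 1 := lt_of_le_of_lt (min_le_right _ _) (by norm_num)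
    calc ν {x | cdf ν x ≤ 0} ≤ ν {x | cdf ν x ≤ δ} :=
          measure_mono fun x (hx : cdf ν x ≤ 0) => le_trans hx hδ0.le
      _ = ENNReal.ofReal δ := meas_le ν h δ hδ0 hδ1
      _ ≤ ENNReal.ofReal ε := ENNReal.ofReal_le_ofReal (min_le_left _ _)
      _ < c := hε1.2
  · exact meas_le ν h a h0 ha1

theorem mp_cdf [IsProbabilityMeasure ν] (h : ∀ x, ν {x} = 0) : MeasurePreserving (cdf ν) ν lam :=
  ⟨(monotone_cdf ν).measurable, map_cdf ν h⟩

/-- every Borel set is, up to a null set, the inverse image of a Borel set -/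
theorem exists_pre [IsProbabilityMeasure ν] (h : ∀ x, ν {x} = 0) (A : Set ℝ)
    (hA : MeasurableSet A) : ∃ B : Set ℝ, MeasurableSet B ∧ (cdf ν) ⁻¹' B =ᵐ[ν] A := by
  have hm : Measurable (cdf ν) := (monotone_cdf ν).measurable
  rw [borel_eq_generateFrom_Iic ℝ |> (BorelSpace.measurable_eq (α := ℝ)).trans] at hA
  induction A, hA using MeasurableSpace.generateFrom_induction with
  | hC t ht _ =>
    obtain ⟨x, rfl⟩ := ht
    refine ⟨Iic (cdf ν x), measurableSet_Iic, ?_⟩
    have hsub : Iic x ⊆ (cdf ν) ⁻¹' (Iic (cdf ν x)) := fun y hy => monotone_cdf ν hy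
    have h1 : ν ((cdf ν) ⁻¹' (Iic (cdf ν x))) ≤ ν (Iic x) := by
      rw [← Measure.map_apply hm measurableSet_Iic, map_cdf ν h,
        Measure.restrict_apply measurableSet_Iic, ← ofReal_cdf]
      calc volume (Iic (cdf ν x) ∩ Icc 0 1) ≤ volume (Icc 0 (cdf ν x)) :=
            measure_mono fun y hy => ⟨hy.2.1, hy.1⟩
        _ = ENNReal.ofReal (cdf ν x) := by rw [Real.volume_Icc, sub_zero]
    exact (ae_eq_of_subset_of_measure_ge hsub h1 nullMeasurableSet_Iic
      (measure_ne_top _ _)).symm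
  | empty => exact ⟨∅, MeasurableSet.empty, by simp⟩
  | compl t _ ih =>
    obtain ⟨B, hB, hB2⟩ := ih
    exact ⟨Bᶜ, hB.compl, by rw [preimage_compl]; exact hB2.compl⟩
  | iUnion s _ ih =>
    choose B hB hB2 using ih
    refine ⟨⋃ n, B n, MeasurableSet.iUnion hB, ?_⟩
    rw [preimage_iUnion]
    exact Filter.EventuallyEq.countable_iUnion hB2

end P3

theorem sP3 : S_P3 := by
  intro ν hν h
  have hmp := P3.mp_cdf ν h
  let T : LL →ₗᵢ[ℝ] Lp ℝ 1 ν := Lp.compMeasurePreservingₗᵢ ℝ (cdf ν) hmp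
  have hcl : IsClosed (Set.range T) := T.isometry.isClosedEmbedding.isClosed_range
  have hsurj : Function.Surjective T := by
    intro f
    refine Lp.induction ENNReal.one_ne_top (fun f => f ∈ Set.range T) ?_ ?_ hcl f
    · intro c A hA hA1
      obtain ⟨B, hB, hB2⟩ := P3.exists_pre ν h A hA
      refine ⟨indicatorConstLp 1 hB (measure_ne_top _ _) c, ?_⟩
      have h1 : T (indicatorConstLp 1 hB (measure_ne_top _ _) c) =
          indicatorConstLp 1 (hmp.measurable hB) (measure_ne_top _ _) c :=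
        Lp.indicatorConstLp_compMeasurePreserving hB (measure_ne_top _ _) c hmp
      rw [h1, Lp.simpleFunc.coe_indicatorConst]
      exact Lp.ext (indicatorConstLp_coeFn.trans
        ((indicator_ae_eq_of_ae_eq_set hB2).trans indicatorConstLp_coeFn.symm))
    · rintro f g hf hg - ⟨a, ha⟩ ⟨b, hb⟩
      exact ⟨a + b, by rw [map_add, ha, hb]⟩
  exact ⟨(LinearIsometryEquiv.ofSurjective T hsurj).symm⟩

end Pool.Agent.W6h79.LD
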