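import Pool.Agent.W6h79.LD.Defs2

/-!
# MP_3844f5_an : piece (P4)

Reduction of a separable nonatomic finite measure to the line.
-/

open MeasureTheory Set Filter
open scoped ENNReal NNReal Topology

noncomputable section

namespace Pool.Agent.W6h79.LD

namespace PP4

universe u

variable {Ω : Type u} [MeasurableSpace Ω] (μ : Measure Ω) [IsFiniteMeasure μ]

/-- Indicator of a measurable set in `L¹`. -/
def ic (A : {A : Set Ω // MeasurableSet A}) : Lp ℝ 1 μ :=
  indicatorConstLp 1 A.2 (measure_ne_top μ A.1) (1 : ℝ)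

theorem exists_seq [TopologicalSpace.SeparableSpace (Lp ℝ 1 μ)] :
    ∃ A : ℕ → {A : Set Ω // MeasurableSet A},
      Set.range (ic μ) ⊆ closure (Set.range fun n => ic μ (A n)) := by
  obtain ⟨t, ht1, ht2, ht3⟩ :=
    (TopologicalSpace.IsSeparable.of_separableSpace
      (Set.range (ic μ))).exists_countable_dense_subset
  have hne : t.Nonempty := by
    by_contra hc
    rw [Set.not_nonempty_iff_eq_empty] at hc
    have := ht3 ⟨⟨∅, MeasurableSet.empty⟩, rfl⟩
    rw [hc, closure_empty] at this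
    exact this
  obtain ⟨f, hf⟩ := ht2.exists_eq_range hne
  have h1 : ∀ n, ∃ A, ic μ A = f n := fun n => ht1 (hf ▸ ⟨n, rfl⟩)
  choose A hA using h1
  refine ⟨A, ?_⟩
  have : (fun n => ic μ (A n)) = f := funext hA
  rw [this, ← hf]
  exact ht3

/-- The coding map. -/
def code (A : ℕ → {A : Set Ω // MeasurableSet A}) (ω : Ω) : ℝ :=
  open Classical in embeddingReal (ℕ → Bool) (fun n => decide (ω ∈ (A n).1))

theorem measurable_code (A : ℕ → {A : Set Ω // MeasurableSet A}) : Measurable (code A) := by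
  classical
  refine (measurableEmbedding_embeddingReal (ℕ → Bool)).measurable.comp ?_
  rw [measurable_pi_iff]
  intro n
  refine measurable_to_bool ?_
  convert (A n).2 using 1
  ext ω
  simp

theorem exists_preimage (A : ℕ → {A : Set Ω // MeasurableSet A}) (n : ℕ) :
    ∃ B : Set ℝ, MeasurableSet B ∧ code A ⁻¹' B = (A n).1 := by
  classical
  have he := measurableEmbedding_embeddingReal (ℕ → Bool)
  refine ⟨embeddingReal (ℕ → Bool) '' {s | s n = true}, ?_, ?_⟩
  · refine he.measurableSet_image' ?_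
    have h : MeasurableSet ((fun s : ℕ → Bool => s n) ⁻¹' {true}) :=
      (measurable_pi_apply n) (measurableSet_singleton true)
    exact h
  · ext ω
    simp only [Set.mem_preimage, code]
    rw [he.injective.mem_set_image]
    simp

theorem surj (A : ℕ → {A : Set Ω // MeasurableSet A})
    (hA : Set.range (ic μ) ⊆ closure (Set.range fun n => ic μ (A n)))
    (hp : MeasurePreserving (code A) μ (μ.map (code A))) :
    Function.Surjective (Lp.compMeasurePreservingₗᵢ (E := ℝ) (p := 1) ℝ (code A) hp) := by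
  set T := Lp.compMeasurePreservingₗᵢ (E := ℝ) (p := 1) ℝ (code A) hp with hT
  have hcl : IsClosed (Set.range T) := T.isometry.isClosedEmbedding.isClosed_range
  have h1 : ∀ n, ic μ (A n) ∈ Set.range T := by
    intro n
    obtain ⟨B, hB, hB'⟩ := exists_preimage A n
    refine ⟨indicatorConstLp 1 hB (measure_ne_top _ _) (1 : ℝ), ?_⟩
    refine Lp.ext ?_
    have e1 : T (indicatorConstLp 1 hB (measure_ne_top _ _) (1 : ℝ)) =ᵐ[μ]
        (indicatorConstLp 1 hB (measure_ne_top (μ.map (code A)) B) (1 : ℝ)) ∘ code A :=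
      Lp.coeFn_compMeasurePreserving _ hp
    have e2 : (indicatorConstLp 1 hB (measure_ne_top (μ.map (code A)) B) (1 : ℝ))
        =ᵐ[μ.map (code A)] B.indicator (fun _ => (1 : ℝ)) := indicatorConstLp_coeFn
    have e3 := hp.quasiMeasurePreserving.ae_eq_comp e2
    have e4 : ic μ (A n) =ᵐ[μ] (A n).1.indicator (fun _ => (1 : ℝ)) := indicatorConstLp_coeFn
    filter_upwards [e1, e3, e4] with ω a1 a3 a4
    rw [a1, a3, a4]
    have hmem : ω ∈ (A n).1 ↔ code A ω ∈ B := by rw [← hB']; rfl
    rw [Function.comp_apply]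
    by_cases hB2 : code A ω ∈ B
    · rw [Set.indicator_of_mem hB2, Set.indicator_of_mem (hmem.2 hB2)]
    · rw [Set.indicator_of_notMem hB2, Set.indicator_of_notMem (fun h => hB2 (hmem.1 h))]
  have h2 : ∀ A', ic μ A' ∈ Set.range T := by
    intro A'
    have : closure (Set.range fun n => ic μ (A n)) ⊆ Set.range T := by
      refine closure_minimal ?_ hcl
      rintro _ ⟨n, rfl⟩
      exact h1 n
    exact this (hA ⟨A', rfl⟩)
  intro f
  change f ∈ Set.range T
  refine Lp.induction (by simp) (motive := fun f => f ∈ Set.range T) ?_ ?_ hcl f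
  · intro c s hs hμs
    obtain ⟨g, hg⟩ := h2 ⟨s, hs⟩
    refine ⟨c • g, ?_⟩
    rw [map_smul, hg, Lp.simpleFunc.coe_indicatorConst]
    refine Lp.ext ?_
    have e1 := Lp.coeFn_smul c (ic μ ⟨s, hs⟩)
    have e2 : ic μ ⟨s, hs⟩ =ᵐ[μ] s.indicator (fun _ => (1 : ℝ)) := indicatorConstLp_coeFn
    have e3 : indicatorConstLp 1 hs hμs.ne c =ᵐ[μ] s.indicator (fun _ => c) :=
      indicatorConstLp_coeFn
    filter_upwards [e1, e2, e3] with ω a1 a2 a3
    rw [a1, a3, Pi.smul_apply, a2]
    by_cases h : ω ∈ s <;> simp [h]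
  · rintro f g hf hg - ⟨f', hf'⟩ ⟨g', hg'⟩
    exact ⟨f' + g', by rw [map_add, hf', hg']⟩

end PP4

open PP4 in
theorem sP4.{u} : S_P4.{u} := by
  intro Ω _ μ hfin hne hsep hat
  obtain ⟨A, hA⟩ := exists_seq μ
  have hm := measurable_code A
  have hp : MeasurePreserving (code A) μ (μ.map (code A)) := ⟨hm, rfl⟩
  have hs := surj μ A hA hp
  refine ⟨μ.map (code A), inferInstance, ?_, ?_, ?_⟩
  · intro h0
    apply hne
    rw [← Measure.measure_univ_eq_zero]
    have : (μ.map (code A)) univ = 0 := by rw [h0]; simp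
    rwa [Measure.map_apply hm MeasurableSet.univ, preimage_univ] at this
  · intro x
    by_contra hx
    rw [Measure.map_apply hm (measurableSet_singleton x)] at hx
    refine hat (code A ⁻¹' {x}) ⟨hm (measurableSet_singleton x), pos_iff_ne_zero.2 hx, ?_⟩
    intro B hB hBm
    obtain ⟨g, hg⟩ := hs (ic μ ⟨B, hBm⟩)
    have e1 : Lp.compMeasurePreservingₗᵢ (E := ℝ) (p := 1) ℝ (code A) hp g =ᵐ[μ] g ∘ code A :=
      Lp.coeFn_compMeasurePreserving _ hp
    have e2 : ic μ ⟨B, hBm⟩ =ᵐ[μ] B.indicator (fun _ => (1 : ℝ)) := indicatorConstLp_coeFn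
    rw [hg] at e1
    have e3 : ∀ᵐ ω ∂μ, g (code A ω) = B.indicator (fun _ => (1 : ℝ)) ω := by
      filter_upwards [e1, e2] with ω a1 a2
      rw [← a2, a1, Function.comp_apply]
    by_cases hx1 : g x = 1
    · right
      have : ∀ᵐ ω ∂μ, ω ∉ (code A ⁻¹' {x}) \ B := by
        filter_upwards [e3] with ω a hω
        have h1 : code A ω = x := hω.1
        rw [h1, hx1, Set.indicator_of_notMem hω.2] at a
        exact one_ne_zero a
      rw [ae_iff] at this
      simpa only [not_not, Set.ofPred_mem_eq] using this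
    · left
      have : ∀ᵐ ω ∂μ, ω ∉ B := by
        filter_upwards [e3] with ω a hω
        have h1 : code A ω = x := hB hω
        rw [h1, Set.indicator_of_mem hω] at a
        exact hx1 a
      simpa [ae_iff] using this
  · exact ⟨(LinearIsometryEquiv.ofSurjective _ hs).symm⟩

end Pool.Agent.W6h79.LD
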