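import Pool.Agent.W6h79.LD.Defs2

/-!
# (P6): nonatomic probability measures on the unit interval
-/

open MeasureTheory Set Filter
open scoped ENNReal NNReal Topology

noncomputable section

namespace Pool.Agent.W6h79.LD

namespace P6

/-- Composition with a measure preserving map is onto if every measurable set is a preimage up to
a null set. -/
theorem iso_of_pre {α β : Type*} [MeasurableSpace α] [MeasurableSpace β] {μ : Measure α}
    {μb : Measure β} [IsFiniteMeasure μ] (f : α → β) (hmp : MeasurePreserving f μ μb)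
    (hpre : ∀ A : Set α, MeasurableSet A → ∃ B : Set β, MeasurableSet B ∧ f ⁻¹' B =ᵐ[μ] A) :
    Nonempty (Lp ℝ 1 μ ≃ₗᵢ[ℝ] Lp ℝ 1 μb) := by
  let T : Lp ℝ 1 μb →ₗᵢ[ℝ] Lp ℝ 1 μ := Lp.compMeasurePreservingₗᵢ ℝ f hmp
  have hcl : IsClosed (Set.range T) := T.isometry.isClosedEmbedding.isClosed_range
  have hsurj : Function.Surjective T := by
    intro f'
    refine Lp.induction ENNReal.one_ne_top (fun g => g ∈ Set.range T) ?_ ?_ hcl f'
    · intro c A hA hA1
      obtain ⟨B, hB, hB2⟩ := hpre A hA
      have hBf : μb B ≠ ∞ := by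
        rw [← hmp.measure_preimage hB.nullMeasurableSet]
        exact measure_ne_top _ _
      refine ⟨indicatorConstLp 1 hB hBf c, ?_⟩
      have h1 : T (indicatorConstLp 1 hB hBf c) =
          indicatorConstLp 1 (hmp.measurable hB) (measure_ne_top _ _) c :=
        Lp.indicatorConstLp_compMeasurePreserving hB hBf c hmp
      rw [h1, Lp.simpleFunc.coe_indicatorConst]
      exact Lp.ext (indicatorConstLp_coeFn.trans
        ((indicator_ae_eq_of_ae_eq_set hB2).trans indicatorConstLp_coeFn.symm))
    · rintro f g hf hg - ⟨a, ha⟩ ⟨b, hb⟩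
      exact ⟨a + b, by rw [map_add, ha, hb]⟩
  exact ⟨(LinearIsometryEquiv.ofSurjective T hsurj).symm⟩

end P6

theorem sP6 (h : S_P3) : S_P6 := by
  intro ν hν hat
  have hemb : MeasurableEmbedding (Subtype.val : UI → ℝ) :=
    MeasurableEmbedding.subtype_coe measurableSet_Icc
  have hmp : MeasurePreserving (Subtype.val : UI → ℝ) ν (ν.map Subtype.val) :=
    ⟨hemb.measurable, rfl⟩
  have hp : IsProbabilityMeasure (ν.map (Subtype.val : UI → ℝ)) :=
    Measure.isProbabilityMeasure_map hemb.measurable.aemeasurable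
  have h0 : ∀ x, ν.map (Subtype.val : UI → ℝ) {x} = 0 := by
    intro x
    rw [hemb.map_apply]
    by_cases hx : x ∈ unitInterval
    · have : (Subtype.val : UI → ℝ) ⁻¹' {x} = {⟨x, hx⟩} := by
        ext y
        simp only [mem_preimage, mem_singleton_iff, Subtype.ext_iff]
      rw [this]
      exact hat _
    · have : (Subtype.val : UI → ℝ) ⁻¹' {x} = ∅ := by
        ext y
        simp only [mem_preimage, mem_singleton_iff, mem_empty_iff_false, iff_false]
        rintro rfl
        exact hx y.2
      rw [this, measure_empty]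
  obtain ⟨e2⟩ := h _ hp h0
  obtain ⟨e1⟩ := P6.iso_of_pre (μ := ν) _ hmp (fun A hA =>
    ⟨Subtype.val '' A, hemb.measurableSet_image.2 hA, by
      rw [preimage_image_eq _ Subtype.val_injective]⟩)
  exact ⟨e1.trans e2⟩

end Pool.Agent.W6h79.LD
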