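import Pool.Agent.W6h79.LD.Defs2

/-!
# (P7): separable nonatomic finite measures
-/

open MeasureTheory Set Filter
open scoped ENNReal NNReal Topology

noncomputable section

namespace Pool.Agent.W6h79.LD

theorem sP7.{u} (h3 : S_P3) (h4 : S_P4.{u}) (h5 : S_P5.{0}) : S_P7.{u} := by
  intro Ω _ μ hf h0 hs hat
  obtain ⟨ν, hν, hν0, hνa, ⟨e1⟩⟩ := h4 Ω μ hf h0 hs hat
  have hu0 : ν univ ≠ 0 := by
    rw [Ne, Measure.measure_univ_eq_zero]
    exact hν0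
  have hu : ν univ ≠ ∞ := measure_ne_top ν univ
  obtain ⟨e2⟩ := h5 ℝ ν (ν univ)⁻¹ (ENNReal.inv_ne_zero.2 hu) (ENNReal.inv_ne_top.2 hu0)
  have hp : IsProbabilityMeasure ((ν univ)⁻¹ • ν) := ⟨by
    rw [Measure.smul_apply, smul_eq_mul, ENNReal.inv_mul_cancel hu0 hu]⟩
  obtain ⟨e3⟩ := h3 ((ν univ)⁻¹ • ν) hp (fun x => by
    rw [Measure.smul_apply, hνa x, smul_zero])
  exact ⟨(e1.trans e2).trans e3⟩

end Pool.Agent.W6h79.LD
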