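import Pool.Agent.W6h79.LD.Defs2

/-!
# (R1) Existence of a maximal decomposition
-/

open MeasureTheory Set Filter
open scoped ENNReal NNReal Topology

noncomputable section

namespace Pool.Agent.W6h79.LD

universe u

/-- **(R1)** Every measure has a maximal almost disjoint family of sets of finite positive
measure, each of which is an atom or free of atoms. -/
theorem sR1 : S_R1.{u} := by
  intro Ω _ μ
  obtain ⟨𝓔, h𝓔⟩ := zorn_subset {𝓔 : Set (Set Ω) |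
      (∀ E ∈ 𝓔, MeasurableSet E ∧ 0 < μ E ∧ μ E < ∞ ∧
        (AtomSet μ E ∨ ∀ A ⊆ E, ¬ AtomSet μ A)) ∧
      (∀ E ∈ 𝓔, ∀ E' ∈ 𝓔, E ≠ E' → μ (E ∩ E') = 0)} (by
    intro c hc hchain
    refine ⟨⋃₀ c, ⟨?_, ?_⟩, fun s hs => subset_sUnion_of_mem hs⟩
    · rintro E ⟨t, ht, hE⟩
      exact (hc ht).1 E hE
    · rintro E ⟨t, ht, hE⟩ E' ⟨t', ht', hE'⟩ hne
      rcases hchain.total ht ht' with h | h
      · exact (hc ht').2 E (h hE) E' hE' hne
      · exact (hc ht).2 E hE E' (h hE') hne)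
  refine ⟨𝓔, h𝓔.prop.1, h𝓔.prop.2, ?_⟩
  intro F hF hF0 hFt
  by_contra hcon
  push Not at hcon
  have hnull : ∀ E ∈ 𝓔, μ (F ∩ E) = 0 := fun E hE => nonpos_iff_eq_zero.1 (hcon E hE)
  obtain ⟨E', hE'F, hE'm, hE'0, hE'a⟩ : ∃ E' ⊆ F, MeasurableSet E' ∧ 0 < μ E' ∧
      (AtomSet μ E' ∨ ∀ A ⊆ E', ¬ AtomSet μ A) := by
    by_cases h : ∃ A ⊆ F, AtomSet μ A
    · obtain ⟨A, hAF, hA⟩ := h
      exact ⟨A, hAF, hA.1, hA.2.1, Or.inl hA⟩
    · push Not at h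
      exact ⟨F, Subset.rfl, hF, hF0, Or.inr h⟩
  have hmem : insert E' 𝓔 ∈ {𝓔 : Set (Set Ω) |
      (∀ E ∈ 𝓔, MeasurableSet E ∧ 0 < μ E ∧ μ E < ∞ ∧
        (AtomSet μ E ∨ ∀ A ⊆ E, ¬ AtomSet μ A)) ∧
      (∀ E ∈ 𝓔, ∀ E' ∈ 𝓔, E ≠ E' → μ (E ∩ E') = 0)} := by
    refine ⟨?_, ?_⟩
    · intro E hE
      rcases mem_insert_iff.1 hE with rfl | hE
      · exact ⟨hE'm, hE'0, lt_of_le_of_lt (measure_mono hE'F) hFt, hE'a⟩
      · exact h𝓔.prop.1 E hE
    · intro E hE E₂ hE₂ hne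
      rcases mem_insert_iff.1 hE with h1 | h1
      · rcases mem_insert_iff.1 hE₂ with h2 | h2
        · exact absurd (h1.trans h2.symm) hne
        · rw [h1]
          exact measure_mono_null (inter_subset_inter_left _ hE'F) (hnull E₂ h2)
      · rcases mem_insert_iff.1 hE₂ with h2 | h2
        · rw [h2, inter_comm]
          exact measure_mono_null (inter_subset_inter_left _ hE'F) (hnull E h1)
        · exact h𝓔.prop.2 E h1 E₂ h2 hne
  have hin : E' ∈ 𝓔 := h𝓔.le_of_ge hmem (subset_insert _ _) (mem_insert _ _)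
  have h1 := hnull E' hin
  rw [inter_eq_self_of_subset_right hE'F] at h1
  exact hE'0.ne' h1

end Pool.Agent.W6h79.LD
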