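import Pool.Agent.W6h79.LD.Defs2

/-!
# (R2) `L¹(μ)` is the `ℓ¹`-sum of the spaces `L¹(μ|E)` over a maximal decomposition
-/

open MeasureTheory Set Filter
open scoped ENNReal NNReal Topology

noncomputable section

namespace Pool.Agent.W6h79.LD

namespace PR2

universe u

variable {Ω : Type u} [MeasurableSpace Ω] {μ : Measure Ω}

/-- The mass of `f` is the sum of the masses on the members of the family. -/
theorem tsum_lintegral {𝓔 : Set (Set Ω)}
    (h1 : ∀ E ∈ 𝓔, MeasurableSet E)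
    (h2 : ∀ A ∈ 𝓔, ∀ B ∈ 𝓔, A ≠ B → μ (A ∩ B) = 0)
    (h3 : ∀ F, MeasurableSet F → 0 < μ F → μ F < ∞ → ∃ E ∈ 𝓔, 0 < μ (F ∩ E))
    {f : Ω → ℝ} (hf : StronglyMeasurable f) (hi : Integrable f μ) :
    ∑' A : 𝓔, ∫⁻ x in A.1, ‖f x‖ₑ ∂μ = ∫⁻ x, ‖f x‖ₑ ∂μ := by
  set ν : Measure Ω := μ.withDensity (fun x => ‖f x‖ₑ) with hν
  have hνA : ∀ A : Set Ω, MeasurableSet A → ν A = ∫⁻ x in A, ‖f x‖ₑ ∂μ := fun A hA =>
    withDensity_apply _ hA
  have hac : ν ≪ μ := withDensity_absolutelyContinuous _ _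
  have hfin : IsFiniteMeasure ν := by
    refine ⟨?_⟩
    rw [hνA _ MeasurableSet.univ, Measure.restrict_univ]
    exact hi.2
  have hmA : ∀ A : 𝓔, MeasurableSet A.1 := fun A => h1 A.1 A.2
  have hdis : Pairwise (Function.onFun (AEDisjoint ν) (fun A : 𝓔 => A.1)) := by
    intro A B hAB
    exact hac (h2 A.1 A.2 B.1 B.2 (fun h => hAB (Subtype.ext h)))
  have hcount : Set.Countable {A : 𝓔 | 0 < ν A.1} :=
    Measure.countable_meas_pos_of_disjoint_iUnion₀ (fun A => (hmA A).nullMeasurableSet) hdis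
  set C : Set 𝓔 := {A : 𝓔 | 0 < ν A.1} with hC
  have : Countable C := hcount.to_subtype
  have hU : ν (⋃ A : C, A.1.1) = ∑' A : C, ν A.1.1 := by
    apply measure_iUnion₀
    · intro A B hAB
      exact hdis (fun h => hAB (Subtype.ext h))
    · intro A
      exact (hmA A.1).nullMeasurableSet
  have hsum : ∑' A : C, ν A.1.1 = ∑' A : 𝓔, ν A.1 := by
    apply tsum_subtype_eq_of_support_subset (f := fun A : 𝓔 => ν A.1)
    intro A hA
    exact pos_iff_ne_zero.2 hA
  set R : Set Ω := (⋃ A : C, A.1.1)ᶜ with hR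
  have hRm : MeasurableSet R := (MeasurableSet.iUnion fun A : C => hmA A.1).compl
  have hR0 : ν R = 0 := by
    by_contra hne
    rw [hνA R hRm] at hne
    have hpos : μ (R ∩ {x | f x ≠ 0}) ≠ 0 := by
      intro h0
      apply hne
      rw [lintegral_eq_zero_iff' hf.enorm.aemeasurable.restrict]
      rw [Filter.EventuallyEq, ae_restrict_iff' hRm]
      have : ∀ᵐ x ∂μ, x ∉ R ∩ {x | f x ≠ 0} := measure_eq_zero_iff_ae_notMem.1 h0
      filter_upwards [this] with x hx hxR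
      have : f x = 0 := by
        by_contra hc
        exact hx ⟨hxR, hc⟩
      simp [this]
    have hcover : R ∩ {x | f x ≠ 0} ⊆ ⋃ n : ℕ, R ∩ {x | 1 / ((n : ℝ) + 1) ≤ ‖f x‖} := by
      rintro x ⟨hxR, hx⟩
      obtain ⟨n, hn⟩ := exists_nat_one_div_lt (norm_pos_iff.2 hx)
      exact mem_iUnion.2 ⟨n, hxR, hn.le⟩
    obtain ⟨n, hn⟩ : ∃ n : ℕ, μ (R ∩ {x | 1 / ((n : ℝ) + 1) ≤ ‖f x‖}) ≠ 0 := by
      by_contra hall
      push Not at hall
      apply hpos
      apply measure_mono_null hcover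
      exact measure_iUnion_null hall
    have hmn : MeasurableSet (R ∩ {x | 1 / ((n : ℝ) + 1) ≤ ‖f x‖}) :=
      hRm.inter (measurableSet_le measurable_const hf.norm.measurable)
    have hfn : μ (R ∩ {x | 1 / ((n : ℝ) + 1) ≤ ‖f x‖}) < ∞ := by
      apply lt_of_le_of_lt (measure_mono inter_subset_right)
      exact hi.measure_norm_ge_lt_top (by positivity)
    obtain ⟨E, hE, hpE⟩ := h3 _ hmn (pos_iff_ne_zero.2 hn) hfn
    by_cases hAC : (⟨E, hE⟩ : 𝓔) ∈ C
    · have : R ∩ {x | 1 / ((n : ℝ) + 1) ≤ ‖f x‖} ∩ E = ∅ := by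
        rw [Set.eq_empty_iff_forall_notMem]
        rintro x ⟨⟨hxR, _⟩, hxE⟩
        apply hxR
        exact mem_iUnion.2 ⟨⟨⟨E, hE⟩, hAC⟩, hxE⟩
      rw [this] at hpE
      simp at hpE
    · have h0 : ν E = 0 := by
        by_contra hc
        exact hAC (pos_iff_ne_zero.2 hc)
      rw [hνA E (h1 E hE), lintegral_eq_zero_iff' hf.enorm.aemeasurable.restrict,
        Filter.EventuallyEq, ae_restrict_iff' (h1 E hE), ae_iff] at h0
      apply hpE.ne'
      apply measure_mono_null _ h0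
      rintro x ⟨⟨hxR, hx⟩, hxE⟩
      simp only [Set.mem_ofPred_eq] at hx ⊢
      intro hcon
      have h5 := hcon hxE
      simp only [Pi.zero_apply, enorm_eq_zero] at h5
      rw [h5] at hx
      have : (0 : ℝ) < 1 / ((n : ℝ) + 1) := by positivity
      simp at hx
      linarith
  have huniv : ν univ = ν (⋃ A : C, A.1.1) := by
    apply le_antisymm _ (measure_mono (subset_univ _))
    calc ν univ ≤ ν ((⋃ A : C, A.1.1) ∪ R) := measure_mono (by rw [hR, union_compl_self])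
      _ ≤ ν (⋃ A : C, A.1.1) + ν R := measure_union_le _ _
      _ = ν (⋃ A : C, A.1.1) := by rw [hR0, add_zero]
  calc ∑' A : 𝓔, ∫⁻ x in A.1, ‖f x‖ₑ ∂μ = ∑' A : 𝓔, ν A.1 := by
        congr 1; funext A; rw [hνA _ (hmA A)]
    _ = ν univ := by rw [← hsum, ← hU, ← huniv]
    _ = ∫⁻ x, ‖f x‖ₑ ∂μ := by rw [hνA _ MeasurableSet.univ, Measure.restrict_univ]

end PR2

open PR2 in
theorem sR2 : S_R2 := by
  intro Ω _ μ 𝓔 hM
  obtain ⟨h1, h2, h3⟩ := hM
  have hint : ∀ (f : Lp ℝ 1 μ), Integrable f μ := fun f => L1.integrable_coeFn f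
  have hsm : ∀ (f : Lp ℝ 1 μ), StronglyMeasurable f := fun f => Lp.stronglyMeasurable f
  -- the restrictions
  let r : ∀ E : 𝓔, Lp ℝ 1 μ →L[ℝ] Lp ℝ 1 (μ.restrict E.1) := fun E =>
    LpToLpRestrictCLM Ω ℝ ℝ μ 1 E.1
  have hr : ∀ (E : 𝓔) (f : Lp ℝ 1 μ), r E f =ᵐ[μ.restrict E.1] f := fun E f =>
    LpToLpRestrictCLM_coeFn ℝ E.1 f
  have hen : ∀ (f : Lp ℝ 1 μ) (E : 𝓔), ‖r E f‖ₑ = ∫⁻ x in E.1, ‖f x‖ₑ ∂μ := by
    intro f E
    rw [← ofReal_norm, L1.norm_eq_integral_norm,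
      ofReal_integral_norm_eq_lintegral_enorm (L1.integrable_coeFn _)]
    apply lintegral_congr_ae
    filter_upwards [hr E f] with x hx
    rw [hx]
  have htsum : ∀ (f : Lp ℝ 1 μ), ∑' E : 𝓔, ‖r E f‖ₑ = ENNReal.ofReal ‖f‖ := by
    intro f
    simp_rw [hen f]
    rw [tsum_lintegral (fun E hE => (h1 E hE).1) h2 h3 (hsm f) (hint f),
      L1.norm_eq_integral_norm, ofReal_integral_norm_eq_lintegral_enorm (hint f)]
  have hsumm : ∀ (f : Lp ℝ 1 μ), Summable (fun E : 𝓔 => ‖r E f‖) := by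
    intro f
    have hne : ∑' E : 𝓔, ‖r E f‖ₑ ≠ ∞ := by rw [htsum]; exact ENNReal.ofReal_ne_top
    have := ENNReal.summable_toReal hne
    simpa using this
  have hnorm : ∀ (f : Lp ℝ 1 μ), ∑' E : 𝓔, ‖r E f‖ = ‖f‖ := by
    intro f
    have h := htsum f
    have h' : ENNReal.ofReal (∑' E : 𝓔, ‖r E f‖) = ENNReal.ofReal ‖f‖ := by
      rw [ENNReal.ofReal_tsum_of_nonneg (fun A => norm_nonneg _) (hsumm f), ← h]
      congr 1; funext A; rw [ofReal_norm]
    exact (ENNReal.ofReal_eq_ofReal_iff (tsum_nonneg fun A => norm_nonneg _)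
      (norm_nonneg _)).1 h'
  have hmem : ∀ (f : Lp ℝ 1 μ), Memℓp (fun E : 𝓔 => r E f) 1 := by
    intro f
    apply memℓp_gen
    simpa using hsumm f
  let T : Lp ℝ 1 μ →ₗᵢ[ℝ] lp (fun E : 𝓔 => Lp ℝ 1 (μ.restrict (E : Set Ω))) 1 :=
    { toFun := fun f => ⟨fun E : 𝓔 => r E f, hmem f⟩
      map_add' := by
        intro f g
        apply lp.ext
        funext E
        simp only [lp.coeFn_add, Pi.add_apply]
        exact map_add (r E) f g
      map_smul' := by
        intro c f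
        apply lp.ext
        funext E
        simp only [lp.coeFn_smul, Pi.smul_apply, RingHom.id_apply]
        exact map_smul (r E) c f
      norm_map' := by
        intro f
        rw [lp.norm_eq_tsum_rpow (by norm_num)]
        simpa using hnorm f }
  refine ⟨LinearIsometryEquiv.ofSurjective T ?_⟩
  classical
  -- surjectivity
  have hTA : ∀ (E : 𝓔) (u : Lp ℝ 1 (μ.restrict (E : Set Ω))), ∃ g : Lp ℝ 1 μ,
      T g = lp.single (E := fun E : 𝓔 => Lp ℝ 1 (μ.restrict (E : Set Ω))) 1 E u := by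
    intro E u
    have hEm := (h1 E.1 E.2).1
    have hmemu : MemLp (E.1.indicator u) 1 μ :=
      (memLp_indicator_iff_restrict hEm).2 (Lp.memLp u)
    refine ⟨hmemu.toLp _, ?_⟩
    apply lp.ext
    funext E'
    have hco : (r E' (hmemu.toLp _) : Ω → ℝ) =ᵐ[μ.restrict E'.1] E.1.indicator u :=
      (hr E' _).trans (ae_restrict_of_ae hmemu.coeFn_toLp)
    show r E' (hmemu.toLp _) = _
    by_cases hEE : E' = E
    · subst hEE
      rw [lp.single_apply_self]
      apply Lp.ext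
      refine hco.trans ?_
      filter_upwards [ae_restrict_mem hEm] with x hx
      rw [indicator_of_mem hx]
    · rw [lp.single_apply_ne _ _ _ hEE]
      apply Lp.ext
      refine hco.trans ?_
      have h0 : μ (E.1 ∩ E'.1) = 0 := h2 E.1 E.2 E'.1 E'.2 (fun h => hEE (Subtype.ext h).symm)
      have h5 : ∀ᵐ x ∂(μ.restrict E'.1), x ∉ E.1 := by
        rw [ae_restrict_iff' (h1 E'.1 E'.2).1]
        have := measure_eq_zero_iff_ae_notMem.1 h0
        filter_upwards [this] with x hx hx' hxE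
        exact hx ⟨hxE, hx'⟩
      filter_upwards [h5, Lp.coeFn_zero ℝ 1 (μ.restrict E'.1)] with x hx hx0
      rw [indicator_of_notMem hx, hx0]
      rfl
  intro c
  have hclosed : IsClosed (Set.range T) := T.isometry.isClosedEmbedding.isClosed_range
  have hs : HasSum (fun E : 𝓔 => lp.single 1 E (c E)) c := lp.hasSum_single (by norm_num) c
  have hmemF : ∀ F : Finset 𝓔, ∑ E ∈ F,
      lp.single (E := fun E : 𝓔 => Lp ℝ 1 (μ.restrict (E : Set Ω))) 1 E (c E) ∈ Set.range T := by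
    intro F
    have : ∀ E ∈ F, lp.single (E := fun E : 𝓔 => Lp ℝ 1 (μ.restrict (E : Set Ω))) 1 E (c E) ∈
        LinearMap.range T.toLinearMap := by
      intro E _
      obtain ⟨g, hg⟩ := hTA E (c E)
      exact ⟨g, hg⟩
    exact Submodule.sum_mem _ this
  exact hclosed.mem_of_tendsto hs (Filter.Eventually.of_forall hmemF)

end Pool.Agent.W6h79.LD
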