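import Pool.Agent.W6h79.LD.Defs2

/-!
# (R3) `L¹` of an atom is a line
-/

open MeasureTheory Set Filter
open scoped ENNReal NNReal Topology

noncomputable section

namespace Pool.Agent.W6h79.LD.R3

universe u

theorem ae_const {Ω : Type u} [MeasurableSpace Ω] {μ : Measure Ω} {E : Set Ω} (hE : AtomSet μ E)
    {f : Ω → ℝ} (hf : Measurable f) : ∃ c : ℝ, ∀ᵐ ω ∂(μ.restrict E), f ω = c := by
  obtain ⟨h1, -, h3⟩ := hE
  obtain ⟨a, ha⟩ := exists_eventuallyEq_const_of_forall_separating (l := ae (μ.restrict E))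
    (f := f) (MeasurableSet : Set ℝ → Prop) (fun U hU => by
      have hB : MeasurableSet (E ∩ f ⁻¹' U) := h1.inter (hf hU)
      rcases h3 (E ∩ f ⁻¹' U) inter_subset_left hB with h | h
      · right
        rw [ae_restrict_iff' h1, ae_iff]
        refine measure_mono_null ?_ h
        intro x hx
        simp only [mem_ofPred_eq, Classical.not_imp, not_not] at hx
        exact ⟨hx.1, hx.2⟩
      · left
        rw [ae_restrict_iff' h1, ae_iff]
        refine measure_mono_null ?_ h
        intro x hx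
        simp only [mem_ofPred_eq, Classical.not_imp] at hx
        exact ⟨hx.1, fun h => hx.2 h.2⟩)
  exact ⟨a, ha⟩

end Pool.Agent.W6h79.LD.R3

namespace Pool.Agent.W6h79.LD

theorem sR3.{u} : S_R3.{u} := by
  intro Ω _ μ E hE hfin
  set ν := μ.restrict E with hν
  have hf : IsFiniteMeasure ν := ⟨by rw [hν, Measure.restrict_apply_univ]; exact hfin⟩
  have hm : ν.real univ ≠ 0 := by
    rw [Measure.real, hν, Measure.restrict_apply_univ]
    exact (ENNReal.toReal_pos hE.2.1.ne' hfin.ne).ne'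
  have hnz : NeZero ν := ⟨by
    intro h
    apply hm
    rw [h]
    simp⟩
  have hmpos : 0 < ν.real univ := lt_of_le_of_ne measureReal_nonneg hm.symm
  let T : ℝ →ₗᵢ[ℝ] Lp ℝ 1 ν :=
    { toLinearMap := (ν.real univ)⁻¹ • (Lp.constₗ 1 ν ℝ : ℝ →ₗ[ℝ] Lp ℝ 1 ν)
      norm_map' := fun c => by
        have e1 : ((ν.real univ)⁻¹ • (Lp.constₗ 1 ν ℝ : ℝ →ₗ[ℝ] Lp ℝ 1 ν)) c =
          (ν.real univ)⁻¹ • Lp.const 1 ν c := rfl
        rw [e1, norm_smul, Lp.norm_const (p := 1) (μ := ν) (c := c) one_ne_zero]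
        rw [Real.norm_eq_abs, abs_of_pos (inv_pos.2 hmpos)]
        simp
        field_simp }
  have hT : Function.Surjective T := by
    intro f
    obtain ⟨c, hc⟩ := R3.ae_const hE (Lp.stronglyMeasurable f).measurable
    refine ⟨ν.real univ * c, ?_⟩
    have e1 : T (ν.real univ * c) = (ν.real univ)⁻¹ • Lp.const 1 ν (ν.real univ * c) := rfl
    rw [e1]
    refine Lp.ext ?_
    filter_upwards [hc, Lp.coeFn_smul (ν.real univ)⁻¹ (Lp.const 1 ν (ν.real univ * c)),
      Lp.coeFn_const (p := 1) (μ := ν) (ν.real univ * c)] with ω h1 h2 h3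
    rw [h2, Pi.smul_apply, h3, h1]
    simp only [Function.const_apply, smul_eq_mul]
    field_simp
  exact ⟨(LinearIsometryEquiv.ofSurjective T hT).symm⟩

end Pool.Agent.W6h79.LD
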