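import Pool.Agent.W6h79.LD.All1
import Pool.Agent.W6h79.LD.K1
import Pool.Agent.W6h79.LD.Fin
import Pool.Agent.W6h79.LD.CX
import Pool.Agent.W6h79.LD.L1
import Pool.Agent.W6h79.LD.L1p
import Pool.Agent.W6h79.LD.L2
import Pool.Agent.W6h79.LD.L3
import Pool.Agent.W6h79.LD.L4
import Pool.Agent.W6h79.LD.L5
import Pool.Agent.W6h79.LD.L6
import Pool.Agent.W6h79.LD.L7
import Pool.Agent.W6h79.LD.P3
import Pool.Agent.W6h79.LD.P4
import Pool.Agent.W6h79.LD.P5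
import Pool.Agent.W6h79.LD.P6
import Pool.Agent.W6h79.LD.P7
import Pool.Agent.W6h79.LD.M1
import Pool.Agent.W6h79.LD.M2
import Pool.Agent.W6h79.LD.M3
import Pool.Agent.W6h79.LD.M4
import Pool.Agent.W6h79.LD.M5
import Pool.Agent.W6h79.LD.M6
import Pool.Agent.W6h79.LD.M7
import Pool.Agent.W6h79.LD.N
import Pool.Agent.W6h79.LD.Dual
import Pool.Agent.W6h79.LD.R1
import Pool.Agent.W6h79.LD.R2
import Pool.Agent.W6h79.LD.R3
import Pool.Agent.W6h79.LD.R5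

noncomputable section

namespace Pool.Agent.W6h79.LD

theorem hM6 : S_M6 :=
  sM6 sM3 (sM5 sM1 sM2 sM4) sM7 (sP6 sP3) sL1 sL5p

theorem hP7.{u} : S_P7.{u} := sP7 sP3 sP4 sP5

theorem hL7.{u} : S_L7.{u} := sL7 sL1p sL2 sL4 sL5 sL6

theorem hDual.{u} : S_Dual.{u} := sDual sN sK2 hM6 sL1p sL2 sL3 sL4 hL7

theorem hR5.{u} : S_R5.{u} := sR5 sR1 sR2 sR3 hP7 sL1 sL4 sL5p

end Pool.Agent.W6h79.LD
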