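import Pool.Agent.W6h79.LD.Defs4

/-!
# (D1) A Delta-system lemma for countable sets
-/

open Set

universe u

namespace Pool.Agent.W6h79.LD

namespace D1P

open Cardinal

/-- The iteration. -/
noncomputable def it {A W : Type u} [LinearOrder W] [WellFoundedLT W] (X : Set A → Set A) :
    W → Set A :=
  wellFounded_lt.fix fun i ih =>
    ⋃ R : {t : Set A // t ⊆ (⋃ j : Iio i, ih j.1 j.2) ∧ #t ≤ ℵ₀}, X R.1

theorem it_eq {A W : Type u} [LinearOrder W] [WellFoundedLT W] (X : Set A → Set A) (i : W) :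
    it X i = ⋃ R : {t : Set A // t ⊆ (⋃ j : Iio i, it X j.1) ∧ #t ≤ ℵ₀}, X R.1 := by
  conv_lhs => rw [it, WellFounded.fix_eq]
  rfl

theorem it_card {A W : Type u} [LinearOrder W] [WellFoundedLT W] (X : Set A → Set A)
    {κ : Cardinal.{u}} (hκ : CInacc κ) (hω : ℵ₀ < κ) (hW : #W < κ)
    (hX : ∀ R : Set A, R.Countable → #(X R) < κ) (i : W) : #(it X i) < κ := by
  induction i using WellFoundedLT.induction with
  | ind i ih =>
    rw [it_eq]
    have h1 : #(⋃ j : Iio i, it X j.1 : Set A) < κ := by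
      rw [card_iUnion_lt_iff_forall_of_isRegular hκ.1 ((mk_set_le _).trans_lt hW)]
      exact fun j => ih j.1 j.2
    rw [card_iUnion_lt_iff_forall_of_isRegular hκ.1]
    · intro R
      exact hX _ (Cardinal.mk_le_aleph0_iff.1 R.2.2)
    · refine (mk_bounded_subset_le _ _).trans_lt (hκ.2 _ (max_lt h1 hω))

/-- The closure under a set function with values of size `< κ`. -/
theorem closure {A : Type u} (hκ : CInacc #A) (X : Set A → Set A)
    (hX : ∀ R : Set A, R.Countable → #(X R) < #A) :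
    ∃ M : Set A, #M < #A ∧ ∀ R ⊆ M, R.Countable → X R ⊆ M := by
  have h2 : (2 : Cardinal.{u}) < #A := (natCast_lt_aleph0 (n := 2)).trans_le hκ.1.aleph0_le
  have h3 : (2 : Cardinal.{u}) ^ ℵ₀ < #A := hκ.2 _ h2
  have hω : ℵ₀ < #A := (cantor _).trans h3
  have h1 : ℵ₁ ≤ (2 : Cardinal.{u}) ^ ℵ₀ := by
    rw [← succ_aleph0]
    exact Order.succ_le_of_lt (cantor _)
  have hW : #((ℵ₁ : Cardinal.{u}).ord.ToType) < #A := by
    rw [mk_ord_toType]
    exact h1.trans_lt h3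
  refine ⟨⋃ i : (ℵ₁ : Cardinal.{u}).ord.ToType, it X i, ?_, ?_⟩
  · rw [card_iUnion_lt_iff_forall_of_isRegular hκ.1 hW]
    exact it_card X hκ hω hW hX
  · intro R hR hRc
    -- a bound for the indices
    have hb : ∃ i : (ℵ₁ : Cardinal.{u}).ord.ToType, R ⊆ ⋃ j : Iio i, it X j.1 := by
      by_contra hc
      push Not at hc
      have h4 : ∀ r : R, ∃ j : (ℵ₁ : Cardinal.{u}).ord.ToType, (r : A) ∈ it X j := fun r =>
        mem_iUnion.1 (hR r.2)
      choose f hf using h4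
      have h5 : ∀ i : (ℵ₁ : Cardinal.{u}).ord.ToType, ∃ r : R, i ≤ f r := by
        intro i
        by_contra hci
        push Not at hci
        exact hc i fun r hr => mem_iUnion.2 ⟨⟨f ⟨r, hr⟩, hci ⟨r, hr⟩⟩, hf ⟨r, hr⟩⟩
      have h6 : (univ : Set (ℵ₁ : Cardinal.{u}).ord.ToType) ⊆ ⋃ r : R, Iic (f r) := fun i _ => by
        obtain ⟨r, hr⟩ := h5 i
        exact mem_iUnion.2 ⟨r, hr⟩
      have h7 : (⋃ r : R, Iic (f r)).Countable := by
        have : Countable R := hRc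
        refine countable_iUnion fun r => ?_
        have h8 : (Iic (f r)) = insert (f r) (Iio (f r)) := by
          rw [Iio_insert]
        rw [h8]
        refine Countable.insert _ ?_
        have h9 : #(Iio (f r)) < ℵ₁ := mk_Iio_toType_ord_lt (f r)
        have h10 : #(Iio (f r)) < Order.succ ℵ₀ := h9.trans_eq succ_aleph0.symm
        exact Cardinal.mk_le_aleph0_iff.1 (Order.lt_succ_iff.1 h10)
      have h8 := h7.mono h6
      have h9 : #((ℵ₁ : Cardinal.{u}).ord.ToType) ≤ ℵ₀ := by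
        rw [← mk_univ]
        exact Cardinal.mk_le_aleph0_iff.2 h8
      rw [mk_ord_toType, ← succ_aleph0] at h9
      exact absurd (Order.lt_succ ℵ₀) (not_lt.2 h9)
    obtain ⟨i, hi⟩ := hb
    intro x hx
    rw [mem_iUnion]
    refine ⟨i, ?_⟩
    rw [it_eq]
    exact mem_iUnion.2 ⟨⟨R, hi, Cardinal.mk_le_aleph0_iff.2 hRc⟩, hx⟩

end D1P

open Cardinal in
/-- (D1) -/
theorem sD1 : S_D1.{u} := by
  intro A hκ I hI
  have h2 : (2 : Cardinal.{u}) < #A := (natCast_lt_aleph0 (n := 2)).trans_le hκ.1.aleph0_le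
  have h3 : (2 : Cardinal.{u}) ^ ℵ₀ < #A := hκ.2 _ h2
  have hω : ℵ₀ < #A := (cantor _).trans h3
  -- a good countable set
  have hgood : ∃ R : Set A, R.Countable ∧ ∀ X : Set A, #X < #A →
      ∃ a, a ∉ R ∧ R ⊆ I a ∧ Disjoint (I a \ R) X := by
    by_contra hc
    push Not at hc
    choose! X hX1 hX2 using hc
    obtain ⟨M, hM1, hM2⟩ := D1P.closure hκ X hX1
    have h4 : ∃ a, a ∉ M := by
      by_contra h5
      push Not at h5
      have h6 : M = Set.univ := eq_univ_of_forall h5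
      rw [h6, mk_univ] at hM1
      exact lt_irrefl _ hM1
    obtain ⟨a, ha⟩ := h4
    have h5 : (I a ∩ M).Countable := (hI a).1.mono inter_subset_left
    refine hX2 (I a ∩ M) h5 a (fun h => ha h.2) inter_subset_left ?_
    rw [Set.disjoint_left]
    intro x hx hx2
    exact hx.2 ⟨hx.1, hM2 _ inter_subset_right h5 hx2⟩
  obtain ⟨R, hR, hgood⟩ := hgood
  obtain ⟨B, hB⟩ := zorn_subset {B : Set A | (∀ a ∈ B, R ⊆ I a ∧ a ∉ R) ∧
    (∀ a ∈ B, ∀ b ∈ B, a ≠ b → I a ∩ I b ⊆ R)} (by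
      intro c hc hchain
      refine ⟨⋃₀ c, ⟨?_, ?_⟩, fun s hs => subset_sUnion_of_mem hs⟩
      · rintro a ⟨s, hs, has⟩
        exact (hc hs).1 a has
      · rintro a ⟨s, hs, has⟩ b ⟨t, ht, hbt⟩ hab
        rcases hchain.total hs ht with h | h
        · exact (hc ht).2 a (h has) b hbt hab
        · exact (hc hs).2 a has b (h hbt) hab)
  refine ⟨R, B, hR, ?_, hB.prop.1, hB.prop.2⟩
  by_contra hne
  have hlt : #B < #A := lt_of_le_of_ne (mk_set_le B) hne
  have hX : #(⋃ b : B, I b : Set A) < #A := by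
    rw [card_iUnion_lt_iff_forall_of_isRegular hκ.1 hlt]
    exact fun b => (Cardinal.mk_le_aleph0_iff.2 (hI b).1).trans_lt hω
  obtain ⟨a, ha1, ha2, ha3⟩ := hgood _ hX
  rw [Set.disjoint_left] at ha3
  have haB : a ∉ B := fun h => ha3 ⟨(hI a).2, ha1⟩ (mem_iUnion.2 ⟨⟨a, h⟩, (hI a).2⟩)
  have hab : ∀ b ∈ B, I a ∩ I b ⊆ R := by
    intro b hb x hx
    by_contra hxR
    exact ha3 ⟨hx.1, hxR⟩ (mem_iUnion.2 ⟨⟨b, hb⟩, hx.2⟩)
  have hins : insert a B ∈ {B : Set A | (∀ a ∈ B, R ⊆ I a ∧ a ∉ R) ∧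
      (∀ a ∈ B, ∀ b ∈ B, a ≠ b → I a ∩ I b ⊆ R)} := by
    refine ⟨?_, ?_⟩
    · rintro b (rfl | hb)
      · exact ⟨ha2, ha1⟩
      · exact hB.prop.1 b hb
    · rintro b (rfl | hb) c (rfl | hc) hbc
      · exact absurd rfl hbc
      · exact hab c hc
      · rw [inter_comm]
        exact hab b hb
      · exact hB.prop.2 b hb c hc hbc
  exact haB (hB.le_of_ge hins (subset_insert a B) (mem_insert a B))

end Pool.Agent.W6h79.LD
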