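import Pool.Agent.W6h79.LD.Defs4

/-!
# Measurable functions depend on countably many coordinates
-/

open MeasureTheory Set Filter
open scoped ENNReal NNReal Topology

noncomputable section

namespace Pool.Agent.W6h79.LD

/-- the sets which depend on countably many coordinates -/
def cylD2.{u} (A : Type u) : MeasurableSpace (A → Bool) where
  MeasurableSet' S := ∃ I : Set A, I.Countable ∧
    ∀ x y : A → Bool, (∀ i ∈ I, x i = y i) → (x ∈ S ↔ y ∈ S)
  measurableSet_empty := ⟨∅, countable_empty, fun _ _ _ => Iff.rfl⟩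
  measurableSet_compl S hS := by
    obtain ⟨I, hI, h⟩ := hS
    exact ⟨I, hI, fun x y hxy => not_congr (h x y hxy)⟩
  measurableSet_iUnion s hs := by
    choose I hI h using hs
    refine ⟨⋃ n, I n, countable_iUnion hI, fun x y hxy => ?_⟩
    simp only [mem_iUnion]
    exact exists_congr fun n => h n x y fun i hi => hxy i (mem_iUnion.mpr ⟨n, hi⟩)

theorem pi_le_cylD2.{u} (A : Type u) :
    (MeasurableSpace.pi : MeasurableSpace (A → Bool)) ≤ cylD2 A := by
  refine iSup_le fun a => ?_
  rintro S ⟨t, -, rfl⟩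
  refine ⟨{a}, countable_singleton a, fun x y hxy => ?_⟩
  rw [mem_preimage, mem_preimage, hxy a rfl]

theorem sD2.{u} : S_D2.{u} := by
  intro A f hf
  have h : ∀ q : ℚ, ∃ I : Set A, I.Countable ∧
      ∀ x y : A → Bool, (∀ i ∈ I, x i = y i) → (f x < q ↔ f y < q) := by
    intro q
    have hm : MeasurableSet {x : A → Bool | f x < q} := measurableSet_lt hf measurable_const
    exact pi_le_cylD2 A _ hm
  choose I hI h using h
  refine ⟨⋃ q, I q, countable_iUnion hI, fun x y hxy => ?_⟩
  have h2 : ∀ q : ℚ, f x < q ↔ f y < q := fun q =>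
    h q x y fun i hi => hxy i (mem_iUnion.mpr ⟨q, hi⟩)
  rcases lt_trichotomy (f x) (f y) with h3 | h3 | h3
  · obtain ⟨q, hq1, hq2⟩ := exists_rat_btwn h3
    exact absurd ((h2 q).mp hq1) (not_lt.mpr hq2.le)
  · exact h3
  · obtain ⟨q, hq1, hq2⟩ := exists_rat_btwn h3
    exact absurd ((h2 q).mpr hq1) (not_lt.mpr hq2.le)

end Pool.Agent.W6h79.LD
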