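import Pool.Agent.W6h79.LD.Defs4
import Pool.Agent.R275.LOne

/-!
# (D3) Density of a functional on `L¹`
-/

open MeasureTheory Set Filter
open scoped ENNReal NNReal Topology

noncomputable section

namespace Pool.Agent.W6h79.LD

theorem sD3.{u} : S_D3.{u} := by
  intro Ω _ μ hμ L
  obtain ⟨g, hgm, hgb, hg⟩ := Pool.Agent.R275.exists_density L
  refine ⟨fun ω => max (-‖L‖) (min ‖L‖ (g ω)), ?_, ?_, ?_⟩
  · exact measurable_const.max (measurable_const.min hgm)
  · intro ω
    have h0 : 0 ≤ ‖L‖ := norm_nonneg L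
    rw [abs_le]
    exact ⟨le_max_left _ _, max_le (by linarith) (min_le_left _ _)⟩
  · intro h
    rw [hg h]
    refine integral_congr_ae ?_
    filter_upwards [hgb] with ω hω
    have h1 := abs_le.1 hω
    rw [min_eq_right h1.2, max_eq_right h1.1]

end Pool.Agent.W6h79.LD
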