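import Pool.Agent.W6h79.LD.Defs4

/-! (D4) of MP_3844f5_an, part 3. -/

open MeasureTheory Set Filter
open scoped ENNReal NNReal Topology

noncomputable section

namespace Pool.Agent.W6h79.LD

namespace D4

theorem mrg_meas.{u} {A : Type u} (J : Set A) :
    Measurable (fun p : (A → Bool) × (A → Bool) => mrg J p.1 p.2) := by
  rw [measurable_pi_iff]
  intro i
  unfold mrg
  by_cases h : i ∈ J
  · simp only [h, if_true]
    exact (measurable_pi_apply i).comp measurable_snd
  · simp only [h, if_false]
    exact (measurable_pi_apply i).comp measurable_fst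

/-- the set of points at which `g` oscillates in the coordinates `J` -/
def WS.{u} {A : Type u} (J : Set A) (g : (A → Bool) → ℝ) (p q : ℝ) : Set (A → Bool) :=
  {x | 0 < coins A {y | q < g (mrg J x y)} ∧ 0 < coins A {y | g (mrg J x y) < p}}

theorem WS_meas.{u} {A : Type u} (J : Set A) (g : (A → Bool) → ℝ) (hg : Measurable g)
    (p q : ℝ) : MeasurableSet (WS J g p q) := by
  have h1 : MeasurableSet {z : (A → Bool) × (A → Bool) | q < g (mrg J z.1 z.2)} :=
    measurableSet_lt measurable_const (hg.comp (mrg_meas J))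
  have h2 : MeasurableSet {z : (A → Bool) × (A → Bool) | g (mrg J z.1 z.2) < p} :=
    measurableSet_lt (hg.comp (mrg_meas J)) measurable_const
  have h3 : Measurable fun x => coins A {y | q < g (mrg J x y)} :=
    measurable_measure_prodMk_left h1
  have h4 : Measurable fun x => coins A {y | g (mrg J x y) < p} :=
    measurable_measure_prodMk_left h2
  exact (measurableSet_lt measurable_const h3).inter (measurableSet_lt measurable_const h4)

theorem WS_dep.{u} {A : Type u} (J R : Set A) (g : (A → Bool) → ℝ) (p q : ℝ)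
    (hdep : ∀ x y : A → Bool, (∀ i ∈ J ∪ R, x i = y i) → g x = g y) (x x' : A → Bool)
    (hx : ∀ i ∈ R, x i = x' i) : x ∈ WS J g p q ↔ x' ∈ WS J g p q := by
  have h : ∀ y, g (mrg J x y) = g (mrg J x' y) := fun y => hdep _ _ (fun i hi => by
    unfold mrg
    by_cases h : i ∈ J
    · simp [h]
    · simp only [h, if_false]
      exact hx i (hi.resolve_left h))
  show (0 < coins A {y | q < g (mrg J x y)} ∧ 0 < coins A {y | g (mrg J x y) < p}) ↔
    (0 < coins A {y | q < g (mrg J x' y)} ∧ 0 < coins A {y | g (mrg J x' y) < p})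
  simp only [h]

open Classical in
/-- extension by `false` -/
def ext0.{u} {A : Type u} (R : Set A) (z : R → Bool) : A → Bool :=
  fun i => if h : i ∈ R then z ⟨i, h⟩ else false

theorem ext0_meas.{u} {A : Type u} (R : Set A) : Measurable (ext0 R) := by
  rw [measurable_pi_iff]
  intro i
  unfold ext0
  by_cases h : i ∈ R
  · simp only [h, dif_pos]
    exact measurable_pi_apply _
  · simp only [h, dif_neg, not_false_eq_true]
    exact measurable_const

theorem card_meas.{u} {A : Type u} (R : Set A) (hR : R.Countable) :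
    Cardinal.mk {V : Set (R → Bool) | MeasurableSet V} ≤ Cardinal.continuum := by
  have : Countable R := hR.to_subtype
  obtain ⟨b, hb, hg⟩ := MeasurableSpace.CountablyGenerated.isCountablyGenerated
    (α := (R → Bool))
  have h := MeasurableSpace.cardinal_measurableSet_le_continuum
    (s := b) ((Cardinal.le_aleph0_iff_set_countable.2 hb).trans Cardinal.aleph0_le_continuum)
  rw [hg]
  exact h

end D4

theorem sD4.{u} (h1 : S_D1.{u}) (h2 : S_D2.{u}) (hn : S_D4n.{u}) (hi : S_D4i.{u}) :
    S_D4.{u} := by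
  classical
  intro A hA f hfm hfb hfi
  choose I0 hI0c hI0d using fun a => h2 A (f a) (hfm a)
  obtain ⟨R, B, hRc, hBc, hBR, hBd⟩ := h1 A hA (fun a => insert a (I0 a))
    (fun a => ⟨(hI0c a).insert a, mem_insert _ _⟩)
  -- the sets `J a`
  have hJ : ∀ a ∈ B, ∃ p q : ℚ, p < q ∧
      0 < coins A (D4.WS (insert a (I0 a) \ R) (f a) p q) := fun a ha =>
    hn A (insert a (I0 a) \ R) a (f a) ⟨mem_insert _ _, (hBR a ha).2⟩ (hfm a) (hfb a) (hfi a)
  choose! p q hpq hW using hJ
  have hdep : ∀ a ∈ B, ∀ x x' : A → Bool, (∀ i ∈ R, x i = x' i) →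
      (x ∈ D4.WS (insert a (I0 a) \ R) (f a) (p a) (q a) ↔
        x' ∈ D4.WS (insert a (I0 a) \ R) (f a) (p a) (q a)) := fun a ha x x' hx => by
    refine D4.WS_dep _ R (f a) _ _ (fun x y hxy => hI0d a x y (fun i hi => hxy i ?_)) x x' hx
    by_cases hiR : i ∈ R
    · exact Or.inr hiR
    · exact Or.inl ⟨mem_insert_of_mem _ hi, hiR⟩
  -- pigeonhole
  let V : A → Set (R → Bool) := fun a =>
    D4.ext0 R ⁻¹' D4.WS (insert a (I0 a) \ R) (f a) (p a) (q a)
  have hVm : ∀ a, MeasurableSet (V a) := fun a => D4.ext0_meas R (D4.WS_meas _ _ (hfm a) _ _)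
  let Φ : B → ℚ × ℚ × {V : Set (R → Bool) | MeasurableSet V} := fun a =>
    (p a, q a, ⟨V a, hVm a⟩)
  have hκ0 : Cardinal.aleph0 ≤ Cardinal.mk A := hA.1.aleph0_le
  have hcont : Cardinal.continuum.{u} < Cardinal.mk A := by
    have h2' : (2 : Cardinal.{u}) < Cardinal.aleph0 := by
      exact_mod_cast Cardinal.natCast_lt_aleph0 (n := 2)
    have h := hA.2 2 (h2'.trans_le hκ0)
    rwa [Cardinal.two_power_aleph0] at h
  have hcard : Cardinal.mk (ℚ × ℚ × {V : Set (R → Bool) | MeasurableSet V}) <
      (Cardinal.mk A).ord.cof := by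
    rw [hA.1.cof_ord]
    refine lt_of_le_of_lt ?_ hcont
    simp only [Cardinal.mk_prod, Cardinal.lift_uzero, Cardinal.mk_eq_aleph0,
      Cardinal.lift_aleph0]
    have h3 := D4.card_meas R hRc
    calc _ ≤ Cardinal.continuum * (Cardinal.continuum * Cardinal.continuum) := by
          gcongr
          · exact Cardinal.aleph0_le_continuum
          · exact Cardinal.aleph0_le_continuum
      _ = Cardinal.continuum := by simp
  obtain ⟨⟨p0, q0, V0⟩, hfib⟩ := Cardinal.infinite_pigeonhole_card Φ (Cardinal.mk A)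
    hBc.ge hκ0 hcard
  let B' : Set A := {a | ∃ h : a ∈ B, Φ ⟨a, h⟩ = (p0, q0, V0)}
  have hB'c : Cardinal.mk B' = Cardinal.mk A := by
    refine le_antisymm (Cardinal.mk_set_le _) (hfib.trans ?_)
    refine Cardinal.mk_le_of_injective (f := fun x => (⟨x.1.1, x.1.2, x.2⟩ : B')) ?_
    intro x y hxy
    have h : x.1.1 = y.1.1 := congrArg (fun t : B' => t.1) hxy
    exact Subtype.ext (Subtype.ext h)
  have hB'B : ∀ a ∈ B', a ∈ B := fun a ha => ha.1
  have hB'p : ∀ a ∈ B', p a = p0 := fun a ha => by
    obtain ⟨h, e⟩ := ha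
    exact congrArg Prod.fst e
  have hB'q : ∀ a ∈ B', q a = q0 := fun a ha => by
    obtain ⟨h, e⟩ := ha
    exact congrArg (fun t => t.2.1) e
  have hB'V : ∀ a ∈ B', V a = V0.1 := fun a ha => by
    obtain ⟨h, e⟩ := ha
    exact congrArg (fun t => t.2.2.1) e
  -- the common set
  let W : Set (A → Bool) := (fun x (i : R) => x i.1) ⁻¹' V0.1
  have hWeq : ∀ a ∈ B', D4.WS (insert a (I0 a) \ R) (f a) (p a) (q a) = W := fun a ha => by
    ext x
    show _ ↔ (fun i : R => x i.1) ∈ V0.1
    rw [← hB'V a ha]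
    refine hdep a (hB'B a ha) x _ (fun i hi => ?_)
    simp [D4.ext0, hi]
  have hne : B'.Nonempty := by
    rw [← Set.nonempty_coe_sort, ← Cardinal.mk_ne_zero_iff, hB'c]
    exact (Cardinal.aleph0_pos.trans_le hκ0).ne'
  obtain ⟨a0, ha0⟩ := hne
  have hWm : MeasurableSet W := by
    rw [← hWeq a0 ha0]
    exact D4.WS_meas _ _ (hfm a0) _ _
  have hWpos : 0 < coins A W := by
    rw [← hWeq a0 ha0]
    exact hW a0 (hB'B a0 ha0)
  have hWdep : ∀ x x' : A → Bool, (∀ i ∈ R, x i = x' i) → (x ∈ W ↔ x' ∈ W) := fun x x' hx => by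
    rw [← hWeq a0 ha0]
    exact hdep a0 (hB'B a0 ha0) x x' hx
  refine ⟨B', p0, q0, hB'c, ?_, ?_⟩
  · have h := hpq a0 (hB'B a0 ha0)
    rw [hB'p a0 ha0, hB'q a0 ha0] at h
    exact_mod_cast h
  intro F s hF
  have key : ∀ F : Finset A, (↑F : Set A) ⊆ B' → 0 < coins A (W ∩ {x | ∀ a ∈ F,
      (s a = true → (q0 : ℝ) < f a x) ∧ (s a = false → f a x < (p0 : ℝ))}) := by
    intro F
    induction F using Finset.induction_on with
    | empty =>
      intro _
      simpa using hWpos
    | insert b F hbF ih =>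
      intro hF
      have hbB : b ∈ B' := hF (by simp)
      have hFB : (↑F : Set A) ⊆ B' := fun a ha => hF (by simp [Finset.mem_coe.1 ha])
      have hE := ih hFB
      have hcm : ∀ a, MeasurableSet {x | (s a = true → (q0 : ℝ) < f a x) ∧
          (s a = false → f a x < (p0 : ℝ))} := fun a => by
        cases hs : s a
        · simp only [Bool.false_eq_true, false_imp_iff, true_imp_iff, true_and]
          exact measurableSet_lt (hfm a) measurable_const
        · simp only [Bool.true_eq_false, false_imp_iff, true_imp_iff, and_true]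
          exact measurableSet_lt measurable_const (hfm a)
      have hEm : MeasurableSet (W ∩ {x | ∀ a ∈ F,
          (s a = true → (q0 : ℝ) < f a x) ∧ (s a = false → f a x < (p0 : ℝ))}) := by
        refine hWm.inter ?_
        have : {x | ∀ a ∈ F, (s a = true → (q0 : ℝ) < f a x) ∧ (s a = false → f a x < (p0 : ℝ))}
            = ⋂ a ∈ F, {x | (s a = true → (q0 : ℝ) < f a x) ∧
              (s a = false → f a x < (p0 : ℝ))} := by
          ext x
          simp
        rw [this]
        exact Finset.measurableSet_biInter F (fun a _ => hcm a)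
      have h := hi A (insert b (I0 b) \ R) _ _ hEm (hcm b) ?_ ?_ hE
      · refine h.trans_le (measure_mono ?_)
        rintro x ⟨⟨hx1, hx2⟩, hx3⟩
        refine ⟨hx1, fun a ha => ?_⟩
        rcases Finset.mem_insert.1 ha with rfl | ha
        · exact hx3
        · exact hx2 a ha
      · intro x y
        have e1 : mrg (insert b (I0 b) \ R) x y ∈ W ↔ x ∈ W :=
          hWdep _ _ (fun i hi => by simp [mrg, hi])
        have e2 : ∀ a ∈ F, f a (mrg (insert b (I0 b) \ R) x y) = f a x := fun a ha => by
          refine hI0d a _ _ (fun i hi => ?_)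
          have hab : a ≠ b := fun h => hbF (h ▸ ha)
          have hnot : i ∉ insert b (I0 b) \ R := fun h =>
            h.2 (hBd a (hB'B a (hFB ha)) b (hB'B b hbB) hab ⟨mem_insert_of_mem _ hi, h.1⟩)
          simp only [mrg, hnot, if_false]
        constructor
        · rintro ⟨hx1, hx2⟩
          refine ⟨e1.1 hx1, fun a ha => ?_⟩
          have := hx2 a ha
          rwa [e2 a ha] at this
        · rintro ⟨hx1, hx2⟩
          refine ⟨e1.2 hx1, fun a ha => ?_⟩
          rw [e2 a ha]
          exact hx2 a ha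
      · rintro x ⟨hxW, -⟩
        rw [← hWeq b hbB] at hxW
        obtain ⟨w1, w2⟩ := hxW
        rw [hB'q b hbB] at w1
        rw [hB'p b hbB] at w2
        cases hs : s b
        · simpa [hs] using w2
        · simpa [hs] using w1
  exact (key F hF).trans_le (measure_mono inter_subset_right)

end Pool.Agent.W6h79.LD
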