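import Pool.Agent.W6h79.LD.Defs4

/-! (D4i) Induction step. -/

open MeasureTheory Set Filter
open scoped ENNReal NNReal Topology

noncomputable section

namespace Pool.Agent.W6h79.LD

universe u

theorem sD4i (h : S_D4m.{u}) : S_D4i.{u} := by
  intro A J E G hE hG hEJ hpos hE0
  have hmp := h A J
  rw [pos_iff_ne_zero]
  intro h0
  have h1 : ((coins A).prod (coins A))
      ((fun p : (A → Bool) × (A → Bool) => mrg J p.1 p.2) ⁻¹' (E ∩ G)) = 0 := by
    rw [hmp.measure_preimage (hE.inter hG).nullMeasurableSet]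
    exact h0
  rw [Measure.measure_prod_null (hmp.measurable (hE.inter hG))] at h1
  have h2 : E ⊆ {x | ¬ ((fun x => coins A (Prod.mk x ⁻¹'
      ((fun p : (A → Bool) × (A → Bool) => mrg J p.1 p.2) ⁻¹' (E ∩ G)))) x =
        (0 : (A → Bool) → ℝ≥0∞) x)} := by
    intro x hx h3
    have h4 := hpos x hx
    have e : Prod.mk x ⁻¹' ((fun p : (A → Bool) × (A → Bool) => mrg J p.1 p.2) ⁻¹' (E ∩ G)) =
        {y | mrg J x y ∈ G} := by
      ext y
      simp only [mem_preimage, mem_inter_iff, mem_setOf_eq]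
      exact ⟨fun h => h.2, fun h => ⟨(hEJ x y).2 hx, h⟩⟩
    simp only [Pi.zero_apply] at h3
    rw [e] at h3
    exact h4.ne' h3
  exact hE0.ne' (measure_mono_null h2 (ae_iff.1 h1))

end Pool.Agent.W6h79.LD
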