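import Pool.Agent.W6h79.LD.Defs4

/-!
# MP_3844f5_an : piece (D4m), resampling the coordinates in `J` preserves the product of fair coins
-/

open MeasureTheory Set Filter
open scoped ENNReal NNReal Topology

noncomputable section

namespace Pool.Agent.W6h79.LD

namespace PD4m

universe u

variable {A : Type u}

theorem measurable_mrg (J : Set A) :
    Measurable (fun p : (A → Bool) × (A → Bool) => mrg J p.1 p.2) := by
  classical
  rw [measurable_pi_iff]
  intro i
  by_cases hi : i ∈ J
  · have : (fun p : (A → Bool) × (A → Bool) => mrg J p.1 p.2 i) = fun p => p.2 i := by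
      funext p; simp [mrg, hi]
    rw [this]
    exact (measurable_pi_apply i).comp measurable_snd
  · have : (fun p : (A → Bool) × (A → Bool) => mrg J p.1 p.2 i) = fun p => p.1 i := by
      funext p; simp [mrg, hi]
    rw [this]
    exact (measurable_pi_apply i).comp measurable_fst

end PD4m

open PD4m in
theorem sD4m.{u} : S_D4m.{u} := by
  classical
  intro A J
  have hm := measurable_mrg J
  refine ⟨hm, ?_⟩
  rw [coins]
  refine Measure.eq_infinitePi _ ?_
  intro s t ht
  have hms : MeasurableSet (Set.pi (↑s : Set A) t) :=
    MeasurableSet.pi s.countable_toSet fun i _ => ht i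
  rw [Measure.map_apply hm hms]
  have hpre : (fun p : (A → Bool) × (A → Bool) => mrg J p.1 p.2) ⁻¹' (Set.pi (↑s : Set A) t) =
      (Set.pi (↑(s.filter (fun i => i ∉ J)) : Set A) t) ×ˢ
        (Set.pi (↑(s.filter (fun i => i ∈ J)) : Set A) t) := by
    ext p
    simp only [Set.mem_preimage, Set.mem_pi, Finset.mem_coe, Set.mem_prod, Finset.mem_filter,
      and_imp]
    constructor
    · intro h
      refine ⟨fun i hi hiJ => ?_, fun i hi hiJ => ?_⟩
      · have := h i hi
        simpa [mrg, hiJ] using this
      · have := h i hi
        simpa [mrg, hiJ] using this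
    · rintro ⟨h1, h2⟩ i hi
      by_cases hiJ : i ∈ J
      · have := h2 i hi hiJ
        simpa [mrg, hiJ] using this
      · have := h1 i hi hiJ
        simpa [mrg, hiJ] using this
  rw [hpre, Measure.prod_prod, Measure.infinitePi_pi _ (fun i _ => ht i),
    Measure.infinitePi_pi _ (fun i _ => ht i), mul_comm]
  exact Finset.prod_filter_mul_prod_filter_not s (fun i => i ∈ J) (fun i => coin (t i))

end Pool.Agent.W6h79.LD
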