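import Pool.Agent.W6h79.LD.Defs4

/-!
# (D4n): a function correlated with the coordinate `a` is not degenerate
-/

open MeasureTheory Set Filter
open scoped ENNReal NNReal Topology

noncomputable section

namespace Pool.Agent.W6h79.LD

namespace D4nx

/-- the mean of the sign of the fair coin is zero -/
theorem int_sgn_coin : ∫ b, sgn b ∂coin = 0 := by
  rw [coin, integral_smul_measure, integral_count]
  simp [sgn]

theorem measurable_sgn : Measurable sgn := measurable_from_top

theorem int_sgn {A : Type*} (a : A) : ∫ y : A → Bool, sgn (y a) ∂(coins A) = 0 := by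
  have h := (measurePreserving_eval_infinitePi (fun _ : A => coin) a)
  rw [← int_sgn_coin, ← h.map_eq,
    integral_map h.measurable.aemeasurable measurable_sgn.aestronglyMeasurable]
  rfl

theorem abs_sgn (b : Bool) : |sgn b| = 1 := by
  cases b <;> simp [sgn]

/-- the dichotomy implies almost everywhere constant -/
theorem ae_const {X : Type*} [MeasurableSpace X] (μ : Measure X) [IsProbabilityMeasure μ]
    (g : X → ℝ) (C : ℝ) (hC : ∀ x, |g x| ≤ C)
    (h : ∀ p q : ℚ, p < q → μ {y | (q : ℝ) < g y} = 0 ∨ μ {y | g y < (p : ℝ)} = 0) :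
    ∃ c : ℝ, ∀ᵐ y ∂μ, g y = c := by
  set S : Set ℝ := {r | μ {y | g y < r} = 0} with hS
  have hne : -C ∈ S := by
    have : {y | g y < -C} = ∅ := by
      ext y
      simp only [mem_setOf_eq, mem_empty_iff_false, iff_false, not_lt]
      exact (abs_le.1 (hC y)).1
    simp [hS, this]
  have hbd : BddAbove S := by
    refine ⟨C + 1, fun r hr => ?_⟩
    by_contra hcon
    push Not at hcon
    have h1 : {y | g y < r} = univ := by
      ext y
      simp only [mem_setOf_eq, mem_univ, iff_true]
      have := (abs_le.1 (hC y)).2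
      linarith
    have hr : μ {y | g y < r} = 0 := hr
    rw [h1, measure_univ] at hr
    exact one_ne_zero hr
  refine ⟨sSup S, ?_⟩
  have hlow : ∀ᵐ y ∂μ, ∀ p : ℚ, (p : ℝ) < sSup S → ¬ g y < (p : ℝ) := by
    refine ae_all_iff.2 fun p => ?_
    by_cases hp : (p : ℝ) < sSup S
    · obtain ⟨r, hr, hpr⟩ := exists_lt_of_lt_csSup ⟨_, hne⟩ hp
      have h0 : μ {y | g y < (p : ℝ)} = 0 :=
        measure_mono_null (fun y (hy : g y < p) => show g y < r from hy.trans hpr) hr
      filter_upwards [measure_eq_zero_iff_ae_notMem.1 h0] with y hy _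
      exact hy
    · exact Eventually.of_forall fun y h' => absurd h' hp
  have hup : ∀ᵐ y ∂μ, ∀ q : ℚ, sSup S < (q : ℝ) → ¬ (q : ℝ) < g y := by
    refine ae_all_iff.2 fun q => ?_
    by_cases hq : sSup S < (q : ℝ)
    · obtain ⟨p, hp1, hp2⟩ := exists_rat_btwn hq
      have h0 : μ {y | (q : ℝ) < g y} = 0 := by
        rcases h p q (by exact_mod_cast hp2) with h' | h'
        · exact h'
        · exact absurd (le_csSup hbd (show (p : ℝ) ∈ S from h')) (not_le_of_gt hp1)
      filter_upwards [measure_eq_zero_iff_ae_notMem.1 h0] with y hy _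
      exact hy
    · exact Eventually.of_forall fun y h' => absurd h' hq
  filter_upwards [hlow, hup] with y h1 h2
  apply le_antisymm
  · by_contra hcon
    push Not at hcon
    obtain ⟨q, hq1, hq2⟩ := exists_rat_btwn hcon
    exact h2 q hq1 hq2
  · by_contra hcon
    push Not at hcon
    obtain ⟨q, hq1, hq2⟩ := exists_rat_btwn hcon
    exact h1 q hq2 hq1

end D4nx

theorem sD4n.{u} (h : S_D4m.{u}) : S_D4n.{u} := by
  intro A J a f ha hf hC hne
  obtain ⟨C, hC⟩ := hC
  by_contra hcon
  apply hne
  have hmp := h A J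
  have hmg : Measurable fun p : (A → Bool) × (A → Bool) => mrg J p.1 p.2 := hmp.measurable
  -- for almost every `x` the section is a.e. constant
  have h1 : ∀ᵐ x ∂(coins A), ∃ c : ℝ, ∀ᵐ y ∂(coins A), f (mrg J x y) = c := by
    have h2 : ∀ᵐ x ∂(coins A), ∀ p q : ℚ, p < q →
        ¬ (0 < coins A {y | (q : ℝ) < f (mrg J x y)} ∧
          0 < coins A {y | f (mrg J x y) < (p : ℝ)}) := by
      refine ae_all_iff.2 fun p => ae_all_iff.2 fun q => ?_
      by_cases hpq : p < q
      · have h0 : coins A {x | 0 < coins A {y | (q : ℝ) < f (mrg J x y)} ∧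
            0 < coins A {y | f (mrg J x y) < (p : ℝ)}} = 0 := by
          by_contra h3
          exact hcon ⟨p, q, hpq, pos_iff_ne_zero.2 h3⟩
        filter_upwards [measure_eq_zero_iff_ae_notMem.1 h0] with x hx _
        exact hx
      · exact Eventually.of_forall fun x h' => absurd h' hpq
    filter_upwards [h2] with x hx
    refine D4nx.ae_const (coins A) _ C (fun y => hC _) fun p q hpq => ?_
    by_contra h3
    push Not at h3
    exact hx p q hpq ⟨pos_iff_ne_zero.2 h3.1, pos_iff_ne_zero.2 h3.2⟩
  have hF : Measurable fun x : A → Bool => f x * sgn (x a) :=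
    hf.mul (D4nx.measurable_sgn.comp (measurable_pi_apply a))
  have h4 : ∫ x, f x * sgn (x a) ∂(coins A) =
      ∫ z, f (mrg J z.1 z.2) * sgn (mrg J z.1 z.2 a) ∂((coins A).prod (coins A)) := by
    conv_lhs => rw [← hmp.map_eq]
    rw [integral_map hmg.aemeasurable hF.aestronglyMeasurable]
  have hint : Integrable (fun z : (A → Bool) × (A → Bool) =>
      f (mrg J z.1 z.2) * sgn (mrg J z.1 z.2 a)) ((coins A).prod (coins A)) := by
    refine Integrable.of_bound (hF.comp hmg).aestronglyMeasurable C
      (Eventually.of_forall fun z => ?_)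
    rw [Real.norm_eq_abs, abs_mul, D4nx.abs_sgn, mul_one]
    exact hC _
  rw [h4, integral_prod _ hint]
  refine integral_eq_zero_of_ae ?_
  filter_upwards [h1] with x hx
  obtain ⟨c, hc⟩ := hx
  have h5 : ∫ y, f (mrg J x y) * sgn (mrg J x y a) ∂(coins A) =
      ∫ y, c * sgn (y a) ∂(coins A) := by
    refine integral_congr_ae ?_
    filter_upwards [hc] with y hy
    have h6 : mrg J x y a = y a := by simp [mrg, ha]
    rw [hy, h6]
  show ∫ y, f (mrg J x y) * sgn (mrg J x y a) ∂(coins A) = 0
  rw [h5, integral_const_mul, D4nx.int_sgn, mul_zero]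

end Pool.Agent.W6h79.LD
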