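import Pool.Agent.W6h79.LD.Defs4

/-!
# (D5) `L¹({0,1}^κ) ⊂ Y*` implies `ℓ¹(κ) ⊂ Y`
-/

set_option autoImplicit false

open MeasureTheory Set Filter
open scoped ENNReal NNReal Topology

noncomputable section

namespace Pool.Agent.W6h79.LD

namespace PD5

theorem abs_sgn (b : Bool) : |sgn b| = 1 := by
  cases b <;> simp [sgn]

theorem measurable_sgn_coord {A : Type*} (a : A) : Measurable fun x : A → Bool => sgn (x a) :=
  (measurable_of_countable sgn).comp (measurable_pi_apply a)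

theorem memLp_sgn {A : Type*} (a : A) :
    MemLp (fun x : A → Bool => sgn (x a)) 1 (coins A) :=
  MemLp.of_bound (measurable_sgn_coord a).aestronglyMeasurable 1
    (Eventually.of_forall fun x => by rw [Real.norm_eq_abs, abs_sgn])

/-- a vector of the ball on which `T r_a` does not vanish -/
theorem exists_y {A : Type*} {Y : Type*} [NormedAddCommGroup Y] [NormedSpace ℝ Y]
    (T : Lp ℝ 1 (coins A) →L[ℝ] StrongDual ℝ Y) (c : ℝ) (hc : 0 < c)
    (hT : ∀ f, c * ‖f‖ ≤ ‖T f‖) (a : A) :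
    ∃ y : Y, ‖y‖ ≤ 1 ∧ T (memLp_sgn a).toLp y ≠ 0 := by
  have h1 : T ((memLp_sgn a).toLp _) ≠ 0 := by
    intro h0
    have h2 := hT ((memLp_sgn a).toLp _)
    rw [h0, norm_zero] at h2
    have h3 : (memLp_sgn a).toLp _ = 0 := by
      rw [← norm_eq_zero]
      have := norm_nonneg ((memLp_sgn a).toLp _)
      by_contra h
      have h4 : 0 < ‖(memLp_sgn a).toLp _‖ := lt_of_le_of_ne this (Ne.symm h)
      have := mul_pos hc h4
      linarith
    have h5 := (Lp.eq_zero_iff_ae_eq_zero).1 h3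
    have h6 := (memLp_sgn a).coeFn_toLp
    obtain ⟨x, hx1, hx2⟩ := (h5.and h6).exists
    rw [hx1] at hx2
    have hx3 : (0 : ℝ) = sgn (x a) := hx2
    have h7 := abs_sgn (x a)
    rw [← hx3] at h7
    simp at h7
  have h2 : ∃ y, T ((memLp_sgn a).toLp _) y ≠ 0 := by
    by_contra hno
    push Not at hno
    exact h1 (ContinuousLinearMap.ext fun y => by simpa using hno y)
  obtain ⟨y, hy⟩ := h2
  have hy0 : y ≠ 0 := by
    rintro rfl
    exact hy (map_zero _)
  have hn : ‖y‖ ≠ 0 := norm_ne_zero_iff.2 hy0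
  refine ⟨‖y‖⁻¹ • y, ?_, ?_⟩
  · rw [norm_smul, norm_inv, norm_norm, inv_mul_cancel₀ hn]
  · rw [map_smul, smul_eq_mul]
    exact mul_ne_zero (inv_ne_zero hn) hy

/-- the normalised indicator -/
def nu {Ω : Type*} [MeasurableSpace Ω] (μ : Measure Ω) [IsFiniteMeasure μ] (S : Set Ω)
    (hS : MeasurableSet S) : Lp ℝ 1 μ :=
  (μ.real S)⁻¹ • indicatorConstLp 1 hS (measure_ne_top μ S) (1 : ℝ)

theorem norm_nu {Ω : Type*} [MeasurableSpace Ω] (μ : Measure Ω) [IsFiniteMeasure μ] (S : Set Ω)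
    (hS : MeasurableSet S) (h0 : 0 < μ S) : ‖nu μ S hS‖ ≤ 1 := by
  have h1 : 0 < μ.real S := ENNReal.toReal_pos h0.ne' (measure_ne_top _ _)
  rw [nu, norm_smul, norm_indicatorConstLp one_ne_zero ENNReal.one_ne_top, norm_inv,
    Real.norm_of_nonneg h1.le]
  simp [h1.ne']

theorem int_nu {Ω : Type*} [MeasurableSpace Ω] (μ : Measure Ω) [IsFiniteMeasure μ] (S : Set Ω)
    (hS : MeasurableSet S) (f : Ω → ℝ) :
    ∫ ω, f ω * nu μ S hS ω ∂μ = (μ.real S)⁻¹ * ∫ ω in S, f ω ∂μ := by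
  have h1 : (nu μ S hS : Ω → ℝ) =ᵐ[μ] fun ω => (μ.real S)⁻¹ * S.indicator (fun _ => (1 : ℝ)) ω := by
    filter_upwards [Lp.coeFn_smul (μ.real S)⁻¹ (indicatorConstLp 1 hS (measure_ne_top μ S) (1 : ℝ)),
      indicatorConstLp_coeFn (p := 1) (hs := hS) (hμs := measure_ne_top μ S) (c := (1 : ℝ))]
      with ω h2 h3
    rw [nu, h2, Pi.smul_apply, h3, smul_eq_mul]
  rw [integral_congr_ae (g := fun ω => (μ.real S)⁻¹ * S.indicator f ω)]
  · rw [integral_const_mul, integral_indicator hS]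
  · filter_upwards [h1] with ω h2
    rw [h2]
    by_cases hω : ω ∈ S
    · simp [hω, mul_comm]
    · simp [hω]

theorem avg_ge {Ω : Type*} [MeasurableSpace Ω] (μ : Measure Ω) [IsFiniteMeasure μ] (S : Set Ω)
    (hS : MeasurableSet S) (h0 : 0 < μ S) (f : Ω → ℝ) (hf : Integrable f μ) (q : ℝ)
    (hq : ∀ ω ∈ S, q ≤ f ω) : q ≤ (μ.real S)⁻¹ * ∫ ω in S, f ω ∂μ := by
  have h1 : 0 < μ.real S := ENNReal.toReal_pos h0.ne' (measure_ne_top _ _)
  have h2 : ∫ _ω in S, q ∂μ ≤ ∫ ω in S, f ω ∂μ :=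
    setIntegral_mono_on (integrable_const q).integrableOn hf.integrableOn hS hq
  rw [setIntegral_const, smul_eq_mul] at h2
  calc q = (μ.real S)⁻¹ * (μ.real S * q) := by field_simp
    _ ≤ _ := mul_le_mul_of_nonneg_left h2 (by positivity)

theorem avg_le {Ω : Type*} [MeasurableSpace Ω] (μ : Measure Ω) [IsFiniteMeasure μ] (S : Set Ω)
    (hS : MeasurableSet S) (h0 : 0 < μ S) (f : Ω → ℝ) (hf : Integrable f μ) (p : ℝ)
    (hp : ∀ ω ∈ S, f ω ≤ p) : (μ.real S)⁻¹ * ∫ ω in S, f ω ∂μ ≤ p := by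
  have h1 : 0 < μ.real S := ENNReal.toReal_pos h0.ne' (measure_ne_top _ _)
  have h2 : ∫ ω in S, f ω ∂μ ≤ ∫ _ω in S, p ∂μ :=
    setIntegral_mono_on hf.integrableOn (integrable_const p).integrableOn hS hp
  rw [setIntegral_const, smul_eq_mul] at h2
  calc _ ≤ (μ.real S)⁻¹ * (μ.real S * p) := mul_le_mul_of_nonneg_left h2 (by positivity)
    _ = p := by field_simp

/-- the set with prescribed signs -/
def HS {A Ω : Type*} (f : A → Ω → ℝ) (p q : ℝ) (F : Finset A) (s : A → Bool) : Set Ω :=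
  {x | ∀ a ∈ F, (s a = true → q < f a x) ∧ (s a = false → f a x < p)}

theorem meas_HS {A Ω : Type*} [MeasurableSpace Ω] (f : A → Ω → ℝ) (hf : ∀ a, Measurable (f a))
    (p q : ℝ) (F : Finset A) (s : A → Bool) : MeasurableSet (HS f p q F s) := by
  have : HS f p q F s = ⋂ a ∈ F, {x | (s a = true → q < f a x) ∧ (s a = false → f a x < p)} := by
    ext x; simp [HS]
  rw [this]
  refine Finset.measurableSet_biInter F fun a _ => ?_
  cases h : s a with
  | true => simpa using measurableSet_lt measurable_const (hf a)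
  | false => simpa using measurableSet_lt (hf a) measurable_const

end PD5

open PD5 in
theorem sD5.{u, v} (h3 : S_D3.{u}) (h4 : S_D4.{u}) : S_D5.{u, v} := by
  classical
  intro A hA Y _ _ T c hc hT
  choose y hy1 hy2 using exists_y T c hc hT
  let L : A → Lp ℝ 1 (coins A) →L[ℝ] ℝ := fun a =>
    (ContinuousLinearMap.apply ℝ ℝ (y a)).comp T
  have hL : ∀ a g, L a g = T g (y a) := fun a g => rfl
  choose f hfm hfb hfi using fun a => h3 (A → Bool) (coins A) inferInstance (L a)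
  have hne : ∀ a, ∫ x, f a x * sgn (x a) ∂(coins A) ≠ 0 := by
    intro a
    have h5 := hfi a ((memLp_sgn a).toLp _)
    have h6 : ∫ x, f a x * ((memLp_sgn a).toLp _ : Lp ℝ 1 (coins A)) x ∂(coins A) =
        ∫ x, f a x * sgn (x a) ∂(coins A) := by
      refine integral_congr_ae ?_
      filter_upwards [(memLp_sgn a).coeFn_toLp] with x hx
      rw [hx]
    rw [← h6, ← h5, hL]
    exact hy2 a
  obtain ⟨B, p, q, hB, hpq, hind⟩ := h4 A hA f hfm (fun a => ⟨‖L a‖, hfb a⟩) hne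
  obtain ⟨e⟩ := Cardinal.eq.1 hB.symm
  have hint : ∀ a, Integrable (f a) (coins A) := fun a =>
    (MemLp.of_bound (hfm a).aestronglyMeasurable ‖L a‖
      (Eventually.of_forall fun x => by rw [Real.norm_eq_abs]; exact hfb a x) :
      MemLp (f a) 1 (coins A)).integrable le_rfl
  have hinj : Function.Injective fun i => (e i : A) :=
    Subtype.val_injective.comp e.injective
  have hTn : 0 ≤ ‖T‖ := norm_nonneg T
  refine ⟨fun i => y (e i), (q - p) / (2 * ‖T‖ + 1), by
    apply div_pos (by linarith) (by linarith), fun i => hy1 _, fun J a => ?_⟩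
  let s : A → Bool := Function.extend (fun i => (e i : A)) (fun i => decide (0 ≤ a i))
    (fun _ => false)
  have hs : ∀ i, s (e i) = decide (0 ≤ a i) := fun i =>
    hinj.extend_apply (fun i => decide (0 ≤ a i)) (fun _ => false) i
  let F : Finset A := J.image fun i => (e i : A)
  have hF : (↑F : Set A) ⊆ B := by
    intro b hb
    obtain ⟨i, -, rfl⟩ := Finset.mem_image.1 (Finset.mem_coe.1 hb)
    exact (e i).2
  have hm1 := meas_HS f hfm p q F s
  have hm2 := meas_HS f hfm p q F fun b => !s b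
  have hp1 : 0 < coins A (HS f p q F s) := hind F s hF
  have hp2 : 0 < coins A (HS f p q F fun b => !s b) := hind F (fun b => !s b) hF
  let g : Lp ℝ 1 (coins A) := nu (coins A) _ hm1 - nu (coins A) _ hm2
  have hg : ‖g‖ ≤ 2 := by
    calc ‖g‖ ≤ ‖nu (coins A) _ hm1‖ + ‖nu (coins A) _ hm2‖ := norm_sub_le _ _
      _ ≤ 1 + 1 := add_le_add (norm_nu _ _ _ hp1) (norm_nu _ _ _ hp2)
      _ = 2 := by norm_num
  have hval : ∀ i ∈ J, (q - p) * |a i| ≤ a i * T g (y (e i)) := by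
    intro i hi
    have h7 : T g (y (e i)) = ((coins A).real (HS f p q F s))⁻¹ *
        ∫ ω in HS f p q F s, f (e i) ω ∂(coins A) -
        ((coins A).real (HS f p q F fun b => !s b))⁻¹ *
        ∫ ω in HS f p q F fun b => !s b, f (e i) ω ∂(coins A) := by
      rw [← hL, show g = nu (coins A) _ hm1 - nu (coins A) _ hm2 from rfl, map_sub, hfi, hfi,
        int_nu, int_nu]
    have hiF : (e i : A) ∈ F := Finset.mem_image_of_mem _ hi
    rw [h7]
    by_cases h0 : 0 ≤ a i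
    · have hsi : s (e i) = true := by rw [hs]; simpa using h0
      have h8 := avg_ge (coins A) _ hm1 hp1 (f (e i)) (hint _) q fun ω hω =>
        ((hω _ hiF).1 hsi).le
      have h9 := avg_le (coins A) _ hm2 hp2 (f (e i)) (hint _) p fun ω hω =>
        ((hω _ hiF).2 (by simp [hsi])).le
      rw [abs_of_nonneg h0, mul_comm]
      exact mul_le_mul_of_nonneg_left (by linarith) h0
    · have hsi : s (e i) = false := by rw [hs]; simpa using h0
      have h8 := avg_le (coins A) _ hm1 hp1 (f (e i)) (hint _) p fun ω hω =>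
        ((hω _ hiF).2 hsi).le
      have h9 := avg_ge (coins A) _ hm2 hp2 (f (e i)) (hint _) q fun ω hω =>
        ((hω _ hiF).1 (by simp [hsi])).le
      push Not at h0
      rw [abs_of_neg h0]
      nlinarith
  have hsum : (q - p) * ∑ i ∈ J, |a i| ≤ T g (∑ i ∈ J, a i • y (e i)) := by
    rw [map_sum, Finset.mul_sum]
    refine Finset.sum_le_sum fun i hi => ?_
    rw [map_smul, smul_eq_mul]
    exact hval i hi
  have hup : T g (∑ i ∈ J, a i • y (e i)) ≤ (2 * ‖T‖ + 1) * ‖∑ i ∈ J, a i • y (e i)‖ := by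
    calc T g (∑ i ∈ J, a i • y (e i)) ≤ ‖T g (∑ i ∈ J, a i • y (e i))‖ := le_abs_self _
      _ ≤ ‖T g‖ * ‖∑ i ∈ J, a i • y (e i)‖ := (T g).le_opNorm _
      _ ≤ (2 * ‖T‖ + 1) * ‖∑ i ∈ J, a i • y (e i)‖ := by
        refine mul_le_mul_of_nonneg_right ?_ (norm_nonneg _)
        calc ‖T g‖ ≤ ‖T‖ * ‖g‖ := T.le_opNorm _
          _ ≤ ‖T‖ * 2 := mul_le_mul_of_nonneg_left hg hTn
          _ ≤ 2 * ‖T‖ + 1 := by linarith
  rw [div_mul_eq_mul_div, div_le_iff₀ (by linarith : (0:ℝ) < 2 * ‖T‖ + 1)]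
  calc (q - p) * ∑ i ∈ J, |a i| ≤ _ := hsum
    _ ≤ _ := hup
    _ = _ := by ring

end Pool.Agent.W6h79.LD

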