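import Pool.Agent.W6h79.LD.Defs4

/-!
# (DA) Hahn-Banach extension, arbitrary index type
-/

open MeasureTheory Set Filter
open scoped ENNReal NNReal Topology

noncomputable section

namespace Pool.Agent.W6h79.LD

universe u v

theorem sDA : S_DA.{u, v} := by
  intro A Y _ _ y δ hδ hy φ hφ
  classical
  -- the linear map `c ↦ ∑ c i • y i` on finitely supported functions
  let L : (A →₀ ℝ) →ₗ[ℝ] Y := Finsupp.linearCombination ℝ y
  let Φ : (A →₀ ℝ) →ₗ[ℝ] ℝ := Finsupp.linearCombination ℝ φ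
  have hL : ∀ c : A →₀ ℝ, L c = ∑ i ∈ c.support, c i • y i := fun c => by
    simp [L, Finsupp.linearCombination_apply, Finsupp.sum]
  have hΦ : ∀ c : A →₀ ℝ, Φ c = ∑ i ∈ c.support, c i * φ i := fun c => by
    simp [Φ, Finsupp.linearCombination_apply, Finsupp.sum]
  have hlow : ∀ c : A →₀ ℝ, δ * ∑ i ∈ c.support, |c i| ≤ ‖L c‖ := fun c => by
    rw [hL]; exact hy c.support c
  have hbd : ∀ c : A →₀ ℝ, |Φ c| ≤ ∑ i ∈ c.support, |c i| := by
    intro c
    rw [hΦ]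
    refine (Finset.abs_sum_le_sum_abs _ _).trans (Finset.sum_le_sum fun i _ => ?_)
    rw [abs_mul]
    calc |c i| * |φ i| ≤ |c i| * 1 := mul_le_mul_of_nonneg_left (hφ i) (abs_nonneg _)
      _ = |c i| := mul_one _
  have hle : ∀ c : A →₀ ℝ, |Φ c| ≤ 1 / δ * ‖L c‖ := by
    intro c
    have h1 := hlow c
    have h2 := hbd c
    rw [div_mul_eq_mul_div, one_mul, le_div_iff₀ hδ]
    nlinarith
  have hker : LinearMap.ker L ≤ LinearMap.ker Φ := by
    intro c hc
    rw [LinearMap.mem_ker] at hc ⊢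
    have := hle c
    rw [hc, norm_zero, mul_zero] at this
    exact abs_eq_zero.1 (le_antisymm this (abs_nonneg _))
  -- the functional on the range
  let e := L.quotKerEquivRange
  let Ψ : LinearMap.range L →ₗ[ℝ] ℝ := (LinearMap.ker L).liftQ Φ hker ∘ₗ e.symm.toLinearMap
  have hΨ : ∀ c : A →₀ ℝ, ∀ h : L c ∈ LinearMap.range L, Ψ ⟨L c, h⟩ = Φ c := by
    intro c h
    have h1 : e.symm ⟨L c, h⟩ = (LinearMap.ker L).mkQ c := by
      rw [LinearEquiv.symm_apply_eq]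
      rfl
    show (LinearMap.ker L).liftQ Φ hker (e.symm ⟨L c, h⟩) = Φ c
    rw [h1]
    simp
  have hΨb : ∀ z : LinearMap.range L, ‖Ψ z‖ ≤ 1 / δ * ‖z‖ := by
    rintro ⟨z, hz⟩
    obtain ⟨c, hc⟩ := LinearMap.mem_range.1 hz
    have h1 : (⟨z, hz⟩ : LinearMap.range L) = ⟨L c, LinearMap.mem_range_self L c⟩ :=
      Subtype.ext hc.symm
    rw [h1, hΨ c (LinearMap.mem_range_self L c), Real.norm_eq_abs]
    exact hle c
  let g : StrongDual ℝ (LinearMap.range L) := Ψ.mkContinuous (1 / δ) hΨb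
  obtain ⟨x, hx, hxn⟩ := exists_extension_norm_eq (𝕜 := ℝ) (LinearMap.range L) g
  refine ⟨x, ?_, fun i => ?_⟩
  · rw [hxn]
    exact Ψ.mkContinuous_norm_le (by positivity) hΨb
  · have h1 : L (Finsupp.single i 1) = y i := by simp [L]
    have h2 : Φ (Finsupp.single i 1) = φ i := by simp [Φ]
    have h3 : y i ∈ LinearMap.range L := ⟨_, h1⟩
    have h4 := hx ⟨y i, h3⟩
    rw [show x (y i) = g ⟨y i, h3⟩ from h4]
    show Ψ ⟨y i, h3⟩ = φ i
    have h5 := hΨ (Finsupp.single i 1) (h1 ▸ h3)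
    rw [h2] at h5
    rw [← h5]
    congr 1
    exact Subtype.ext h1.symm

end Pool.Agent.W6h79.LD
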