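import Pool.Agent.W6h79.LD.Defs4

/-!
Rademacher averages of a bounded family in a dual space, arbitrary index type.
-/

set_option autoImplicit false

open MeasureTheory Set Filter
open scoped ENNReal NNReal Topology

noncomputable section

namespace Pool.Agent.W6h79.LD

namespace E1AP

open Classical

universe u v

variable {A : Type u}

/-- weak-star limits along an ultrafilter -/
theorem exists_lim {ι : Type u} {Y : Type v} [NormedAddCommGroup Y] [NormedSpace ℝ Y] (U : Ultrafilter ι)
    (f : ι → StrongDual ℝ Y) (C : ℝ) (hf : ∀ n, ‖f n‖ ≤ C) :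
    ∃ g : StrongDual ℝ Y, ∀ y, Tendsto (fun n => f n y) U (𝓝 (g y)) := by
  have hc := WeakDual.isCompact_closedBall (𝕜 := ℝ) (E := Y) 0 C
  obtain ⟨g, -, hg⟩ := hc.ultrafilter_le_nhds (U.map fun n => StrongDual.toWeakDual (f n)) (by
    rw [Ultrafilter.coe_map, le_principal_iff, mem_map]
    refine Filter.univ_mem' fun n => ?_
    simpa using hf n)
  refine ⟨WeakDual.toStrongDual g, fun y => ?_⟩
  have h1 : Tendsto (fun n => StrongDual.toWeakDual (f n)) (U : Filter ι) (𝓝 g) := hg
  exact ((WeakDual.eval_continuous y).tendsto g).comp h1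

/-- extension of a finite family of bits -/
def ext (n : Finset A) (b : n → Bool) : A → Bool := fun i => if h : i ∈ n then b ⟨i, h⟩ else false

/-- the Rademacher functions -/
def rad (n : Finset A) (k : A) (b : n → Bool) : ℝ := if k ∈ n then sgn (ext n b k) else 0

theorem sgn_sq (b : Bool) : sgn b * sgn b = 1 := by
  cases b <;> simp [sgn]

theorem sgn_not (b : Bool) : sgn (!b) = - sgn b := by
  cases b <;> simp [sgn]

theorem rad_mem {n : Finset A} {k : A} (h : k ∈ n) (b : n → Bool) : rad n k b = sgn (b ⟨k, h⟩) := by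
  simp [rad, ext, h]

theorem rad_orth (n : Finset A) (k m : A) : ∑ b : n → Bool, rad n k b * rad n m b =
    if k = m ∧ k ∈ n then (2 : ℝ) ^ n.card else 0 := by
  by_cases hk : k ∈ n
  swap
  · rw [if_neg (fun h => hk h.2)]
    exact Finset.sum_eq_zero fun b _ => by simp [rad, hk]
  by_cases hm : m ∈ n
  swap
  · rw [if_neg (by rintro ⟨rfl, h⟩; exact hm h)]
    exact Finset.sum_eq_zero fun b _ => by simp [rad, hm]
  by_cases hkm : k = m
  · subst hkm
    rw [if_pos ⟨rfl, hk⟩]
    have : ∀ b : n → Bool, rad n k b * rad n k b = 1 := by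
      intro b
      rw [rad_mem hk, sgn_sq]
    simp [this]
  · rw [if_neg (fun h => hkm h.1)]
    let φ : (n → Bool) → (n → Bool) := fun b => Function.update b ⟨k, hk⟩ (!b ⟨k, hk⟩)
    have hφ : Function.Involutive φ := by
      intro b
      funext i
      by_cases hi : i = ⟨k, hk⟩
      · subst hi; simp [φ]
      · simp [φ, hi]
    have h1 : ∀ b, rad n k (φ b) * rad n m (φ b) = -(rad n k b * rad n m b) := by
      intro b
      rw [rad_mem hk, rad_mem hm, rad_mem hk, rad_mem hm]
      have e1 : φ b ⟨k, hk⟩ = !b ⟨k, hk⟩ := by simp [φ]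
      have e2 : φ b ⟨m, hm⟩ = b ⟨m, hm⟩ := by
        have : (⟨m, hm⟩ : n) ≠ ⟨k, hk⟩ := fun h => hkm (Subtype.mk.inj h).symm
        simp [φ, this]
      rw [e1, e2, sgn_not]; ring
    have h2 : ∑ b : n → Bool, rad n k b * rad n m b =
        ∑ b : n → Bool, rad n k (φ b) * rad n m (φ b) :=
      (Equiv.sum_comp (hφ.toPerm φ) (fun b => rad n k b * rad n m b)).symm
    have h3 : ∑ b : n → Bool, rad n k (φ b) * rad n m (φ b) =
        - ∑ b : n → Bool, rad n k b * rad n m b := by
      rw [← Finset.sum_neg_distrib]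
      exact Finset.sum_congr rfl fun b _ => h1 b
    linarith

theorem rad_sq (n : Finset A) (J : Finset A) (ε : A → ℝ) (hε : ∀ k, |ε k| ≤ 1) :
    ∑ b : n → Bool, (∑ k ∈ J, ε k * rad n k b) ^ 2 ≤ 2 ^ n.card * J.card := by
  have h1 : ∀ b : n → Bool, (∑ k ∈ J, ε k * rad n k b) ^ 2 =
      ∑ k ∈ J, ∑ m ∈ J, ε k * ε m * (rad n k b * rad n m b) := by
    intro b
    rw [sq, Finset.sum_mul_sum]
    exact Finset.sum_congr rfl fun k _ => Finset.sum_congr rfl fun m _ => by ring
  rw [Finset.sum_congr rfl fun b _ => h1 b, Finset.sum_comm]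
  have h2 : ∀ k ∈ J, ∑ b : n → Bool, ∑ m ∈ J, ε k * ε m * (rad n k b * rad n m b) ≤
      2 ^ n.card := by
    intro k hk
    rw [Finset.sum_comm]
    have h3 : ∀ m ∈ J, ∑ b : n → Bool, ε k * ε m * (rad n k b * rad n m b) =
        if k = m then (if k ∈ n then ε k * ε k * 2 ^ n.card else 0) else 0 := by
      intro m _
      rw [← Finset.mul_sum, rad_orth]
      by_cases hkm : k = m
      · subst hkm
        by_cases hkn : k ∈ n
        · simp [hkn]
        · simp [hkn]
      · simp [hkm]
    rw [Finset.sum_congr rfl h3, Finset.sum_ite_eq, if_pos hk]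
    have h4 : (0 : ℝ) ≤ 2 ^ n.card := by positivity
    split_ifs
    · have h5 : ε k * ε k ≤ 1 := by
        have := abs_le.1 (hε k)
        nlinarith [this.1, this.2]
      nlinarith
    · exact h4
  calc ∑ k ∈ J, ∑ b : n → Bool, ∑ m ∈ J, ε k * ε m * (rad n k b * rad n m b)
      ≤ ∑ k ∈ J, (2 : ℝ) ^ n.card := Finset.sum_le_sum h2
    _ = 2 ^ n.card * J.card := by rw [Finset.sum_const, nsmul_eq_mul]; ring

theorem rad_abs (n : Finset A) (J : Finset A) (ε : A → ℝ) (hε : ∀ k, |ε k| ≤ 1) :
    ∑ b : n → Bool, |∑ k ∈ J, ε k * rad n k b| ≤ 2 ^ n.card * Real.sqrt J.card := by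
  have h1 := sq_sum_le_card_mul_sum_sq (s := (Finset.univ : Finset (n → Bool)))
    (f := fun b => |∑ k ∈ J, ε k * rad n k b|)
  simp only [sq_abs] at h1
  have h2 : ((Finset.univ : Finset (n → Bool)).card : ℝ) = 2 ^ n.card := by simp
  rw [h2] at h1
  have h3 := rad_sq n J ε hε
  have h4 : (0 : ℝ) ≤ 2 ^ n.card := by positivity
  have h5 : (∑ b : n → Bool, |∑ k ∈ J, ε k * rad n k b|) ^ 2 ≤
      (2 ^ n.card * Real.sqrt J.card) ^ 2 := by
    rw [mul_pow, Real.sq_sqrt (Nat.cast_nonneg _)]
    calc _ ≤ _ := h1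
      _ ≤ 2 ^ n.card * (2 ^ n.card * J.card) := mul_le_mul_of_nonneg_left h3 h4
      _ = _ := by ring
  exact le_of_sq_le_sq h5 (by positivity)

end E1AP

open E1AP

open Classical in
theorem sE1A.{u, v} : S_E1A.{u, v} := by
  intro A Y _ _ x K hx
  have hK : 0 ≤ K := (norm_nonneg _).trans (hx fun _ => false)
  let w : Finset A → A → StrongDual ℝ Y := fun n k =>
    ((2 : ℝ) ^ n.card)⁻¹ • ∑ b : n → Bool, rad n k b • x (ext n b)
  have hw : ∀ n (J : Finset A) (ε : A → ℝ), (∀ k, |ε k| ≤ 1) →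
      ‖∑ k ∈ J, ε k • w n k‖ ≤ K * Real.sqrt J.card := by
    intro n J ε hε
    have e : ∑ k ∈ J, ε k • w n k = ((2 : ℝ) ^ n.card)⁻¹ •
        ∑ b : n → Bool, (∑ k ∈ J, ε k * rad n k b) • x (ext n b) := by
      have h1 : ∀ k, ε k • w n k = ((2 : ℝ) ^ n.card)⁻¹ •
          ∑ b : n → Bool, (ε k * rad n k b) • x (ext n b) := by
        intro k
        change ε k • (((2 : ℝ) ^ n.card)⁻¹ • ∑ b : n → Bool, rad n k b • x (ext n b)) = _
        rw [smul_comm, Finset.smul_sum]
        congr 1
        exact Finset.sum_congr rfl fun b _ => by rw [smul_smul]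
      rw [Finset.sum_congr rfl fun k _ => h1 k, ← Finset.smul_sum, Finset.sum_comm]
      congr 1
      exact Finset.sum_congr rfl fun b _ => by rw [Finset.sum_smul]
    rw [e, norm_smul]
    have h2 : (0 : ℝ) < 2 ^ n.card := by positivity
    have h3 : ‖∑ b : n → Bool, (∑ k ∈ J, ε k * rad n k b) • x (ext n b)‖ ≤
        2 ^ n.card * Real.sqrt J.card * K := by
      calc ‖∑ b : n → Bool, (∑ k ∈ J, ε k * rad n k b) • x (ext n b)‖
          ≤ ∑ b : n → Bool, ‖(∑ k ∈ J, ε k * rad n k b) • x (ext n b)‖ := norm_sum_le _ _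
        _ ≤ ∑ b : n → Bool, |∑ k ∈ J, ε k * rad n k b| * K := by
            refine Finset.sum_le_sum fun b _ => ?_
            rw [norm_smul, Real.norm_eq_abs]
            exact mul_le_mul_of_nonneg_left (hx _) (abs_nonneg _)
        _ = (∑ b : n → Bool, |∑ k ∈ J, ε k * rad n k b|) * K := by rw [Finset.sum_mul]
        _ ≤ _ := mul_le_mul_of_nonneg_right (rad_abs n J ε hε) hK
    rw [norm_inv, Real.norm_of_nonneg h2.le]
    calc ((2 : ℝ) ^ n.card)⁻¹ * ‖∑ b : n → Bool, (∑ k ∈ J, ε k * rad n k b) • x (ext n b)‖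
        ≤ ((2 : ℝ) ^ n.card)⁻¹ * (2 ^ n.card * Real.sqrt J.card * K) :=
          mul_le_mul_of_nonneg_left h3 (by positivity)
      _ = K * Real.sqrt J.card := by field_simp
  have hw1 : ∀ k n, ‖w n k‖ ≤ K := by
    intro k n
    have := hw n {k} (fun _ => 1) (fun _ => by simp)
    simpa using this
  let U : Ultrafilter (Finset A) := Ultrafilter.of atTop
  have hU : (U : Filter (Finset A)) ≤ atTop := Ultrafilter.of_le _
  choose v hv using fun k => exists_lim U (fun n => w n k) K (hw1 k)
  refine ⟨v, ?_, ?_⟩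
  · intro J ε hε
    refine ContinuousLinearMap.opNorm_le_bound _ (by positivity) fun y => ?_
    have h1 : Tendsto (fun n => (∑ k ∈ J, ε k • w n k) y) U (𝓝 ((∑ k ∈ J, ε k • v k) y)) := by
      have h2 : Tendsto (fun n => ∑ k ∈ J, ε k * (w n k y)) U (𝓝 (∑ k ∈ J, ε k * (v k y))) :=
        tendsto_finsetSum _ fun k _ => (hv k y).const_mul _
      convert h2 using 2
      · rename_i n
        simp
      · simp
    refine le_of_tendsto h1.norm (Filter.Eventually.of_forall fun n => ?_)
    exact ((∑ k ∈ J, ε k • w n k).le_opNorm y).trans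
      (mul_le_mul_of_nonneg_right (hw n J ε hε) (norm_nonneg _))
  · intro y s m hs k
    have h1 : ∀ᶠ n in (U : Filter (Finset A)), w n k y = if k = m then s else 0 := by
      refine hU (eventually_atTop.2 ⟨{k, m}, fun n hn => ?_⟩)
      have hkn : k ∈ n := hn (by simp)
      have hmn : m ∈ n := hn (by simp)
      change (((2 : ℝ) ^ n.card)⁻¹ • ∑ b : n → Bool, rad n k b • x (ext n b)) y = _
      rw [ContinuousLinearMap.smul_apply, ContinuousLinearMap.sum_apply]
      have h2 : ∀ b : n → Bool, (rad n k b • x (ext n b)) y =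
          s * (rad n k b * rad n m b) := by
        intro b
        rw [ContinuousLinearMap.smul_apply, hs, smul_eq_mul]
        have : sgn (ext n b m) = rad n m b := by simp [rad, hmn]
        rw [this]; ring
      rw [Finset.sum_congr rfl fun b _ => h2 b, ← Finset.mul_sum, rad_orth]
      by_cases hkm : k = m
      · subst hkm
        simp only [hkn, and_self, if_true]
        have h3 : ((2 : ℝ) ^ n.card) ≠ 0 := by positivity
        rw [smul_eq_mul]
        field_simp
      · simp [hkm]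
    exact tendsto_nhds_unique (hv k y) (Tendsto.congr' (h1.mono fun n hn => hn.symm)
      tendsto_const_nhds)

end Pool.Agent.W6h79.LD
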