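import Pool.Agent.W6h79.LD.Defs4

/-!
# MP_3844f5_an : piece (EA)

The family `v α k` (`α : A → Bool`, `k : A`), `A` any infinite type (adapted from piece (E)).
-/

open MeasureTheory Set Filter
open scoped ENNReal NNReal Topology

noncomputable section

namespace Pool.Agent.W6h79.LD

namespace PEA

universe u

variable {A : Type u}

/-- Finitely many functions are separated by a finite set. -/
theorem exists_sep (S : Finset (A → Bool)) :
    ∃ N : Finset A, ∀ α ∈ S, ∀ α' ∈ S,
      (fun j : {i // i ∈ N} => α j) = (fun j : {i // i ∈ N} => α' j) → α = α' := by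
  classical
  by_cases hS : S = ∅
  · exact ⟨∅, fun α hα => absurd hα (by rw [hS]; exact Finset.notMem_empty α)⟩
  by_cases hA : Nonempty A
  · obtain ⟨a0⟩ := hA
    have h1 : ∀ p : (A → Bool) × (A → Bool), ∃ n : A, p.1 ≠ p.2 → p.1 n ≠ p.2 n := by
      intro p
      by_cases h : p.1 = p.2
      · exact ⟨a0, fun h' => absurd h h'⟩
      · obtain ⟨n, hn⟩ := Function.ne_iff.1 h
        exact ⟨n, fun _ => hn⟩
    choose n hn using h1
    refine ⟨(S ×ˢ S).image n, ?_⟩
    intro α hα α' hα' he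
    by_contra hne
    have hm : (α, α') ∈ S ×ˢ S := Finset.mem_product.2 ⟨hα, hα'⟩
    have := congrFun he ⟨n (α, α'), Finset.mem_image_of_mem n hm⟩
    exact hn (α, α') hne this
  · refine ⟨∅, fun α _ α' _ _ => ?_⟩
    funext a
    exact absurd ⟨a⟩ hA

/-- The index type of the test vectors. -/
abbrev Q (A : Type u) : Type u := Σ N : Finset A, (({i // i ∈ N} → Bool) → A × Bool)

theorem mk_Q_le (hA : Infinite A) : Cardinal.mk (Q A) ≤ Cardinal.mk A := by
  classical
  have hinf : Cardinal.aleph0 ≤ Cardinal.mk A := Cardinal.aleph0_le_mk A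
  have h1 : Cardinal.mk (A × Bool) = Cardinal.mk A := by
    have h2 : Cardinal.mk (A × Bool) = Cardinal.mk A * 2 := by simp
    rw [h2]
    exact Cardinal.mul_eq_left hinf ((Cardinal.nat_lt_aleph0 2).le.trans hinf) two_ne_zero
  rw [Cardinal.mk_sigma]
  calc Cardinal.sum (fun N : Finset A => Cardinal.mk (({i // i ∈ N} → Bool) → A × Bool))
      ≤ Cardinal.sum (fun _ : Finset A => Cardinal.mk A) := by
        refine Cardinal.sum_le_sum _ _ fun N => ?_
        rw [← Cardinal.power_def, h1, Cardinal.mk_fintype ({i // i ∈ N} → Bool)]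
        exact Cardinal.power_nat_le hinf
    _ = Cardinal.mk (Finset A) * Cardinal.mk A := Cardinal.sum_const' _ _
    _ = Cardinal.mk A := by
        rw [Cardinal.mk_finset_of_infinite, Cardinal.mul_eq_self hinf]

theorem exists_inj (hA : Infinite A) : ∃ f : Q A → A, Function.Injective f := by
  obtain ⟨f⟩ := (Cardinal.le_def _ _).1 (mk_Q_le hA)
  exact ⟨f, f.injective⟩

/-- The value of the functional `x α β` at the test vector `q`. -/
def val (α β : A → Bool) (q : Q A) : ℝ :=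
  sgn (q.2 (fun j => α j)).2 * sgn (β (q.2 (fun j => α j)).1)

theorem abs_sgn (b : Bool) : |sgn b| = 1 := by
  cases b <;> simp [sgn]

theorem abs_val_le (α β : A → Bool) (q : Q A) : |val α β q| ≤ 1 := by
  rw [val, abs_mul, abs_sgn, abs_sgn, one_mul]

theorem mul_sgn (c : ℝ) : c * sgn (decide (0 ≤ c)) = |c| := by
  by_cases h : 0 ≤ c
  · simp [sgn, h, abs_of_nonneg h]
  · have h' : c < 0 := not_le.1 h
    simp [sgn, h, abs_of_neg h']

end PEA

open PEA in
theorem sEA.{u, v} (h : S_E1A.{u, v}) : S_EA.{u, v} := by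
  classical
  intro A hA Y _ _ y K hy hext
  obtain ⟨f, hf⟩ := exists_inj hA
  have h1 : ∀ α β : A → Bool, ∃ x : StrongDual ℝ Y, ‖x‖ ≤ K ∧
      ∀ q : Q A, x (y (f q)) = val α β q := by
    intro α β
    obtain ⟨x, hx, hx'⟩ := hext (Function.extend f (val α β) 0) (by
      intro i
      by_cases hi : ∃ q, f q = i
      · obtain ⟨q, rfl⟩ := hi
        rw [hf.extend_apply]
        exact abs_val_le α β q
      · rw [Function.extend_apply' _ _ _ hi]
        simp)
    refine ⟨x, hx, fun q => ?_⟩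
    rw [hx', hf.extend_apply]
  choose x hx hx' using h1
  have h2 : ∀ α : A → Bool, ∃ v : A → StrongDual ℝ Y,
      (∀ (J : Finset A) (ε : A → ℝ), (∀ k, |ε k| ≤ 1) →
        ‖∑ k ∈ J, ε k • v k‖ ≤ K * Real.sqrt J.card) ∧
      ∀ (y : Y) (s : ℝ) (m : A), (∀ β, x α β y = s * sgn (β m)) → v m y = s := by
    intro α
    obtain ⟨v, hv1, hv2⟩ := h A Y (x α) K (hx α)
    exact ⟨v, hv1, fun y s m hb => by rw [hv2 y s m hb m, if_pos rfl]⟩
  choose v hv1 hv2 using h2
  refine ⟨v, hv1, ?_⟩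
  intro S k c
  obtain ⟨N, hN⟩ := exists_sep S
  -- the test function
  have h3 : ∃ g : ({i // i ∈ N} → Bool) → A × Bool, ∀ α ∈ S,
      g (fun j => α j) = (k α, decide (0 ≤ c α)) := by
    refine ⟨fun r => if hr : ∃ α ∈ S, (fun j : {i // i ∈ N} => α j) = r then
      (k hr.choose, decide (0 ≤ c hr.choose)) else (Classical.arbitrary A, true), ?_⟩
    intro α hα
    have hr : ∃ α' ∈ S, (fun j : {i // i ∈ N} => α' j) = (fun j : {i // i ∈ N} => α j) :=
      ⟨α, hα, rfl⟩
    have hc : hr.choose = α := hN _ hr.choose_spec.1 _ hα hr.choose_spec.2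
    simp only
    rw [dif_pos hr, hc]
  obtain ⟨g, hg⟩ := h3
  set q : Q A := ⟨N, g⟩ with hq
  have h4 : ∀ α ∈ S, v α (k α) (y (f q)) = sgn (decide (0 ≤ c α)) := by
    intro α hα
    refine hv2 α (y (f q)) (sgn (decide (0 ≤ c α))) (k α) fun β => ?_
    rw [hx' α β q, val]
    have : q.2 (fun j => α j) = (k α, decide (0 ≤ c α)) := hg α hα
    rw [this]
  have h5 : (∑ α ∈ S, c α • v α (k α)) (y (f q)) = ∑ α ∈ S, |c α| := by
    rw [ContinuousLinearMap.sum_apply]
    refine Finset.sum_congr rfl fun α hα => ?_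
    rw [ContinuousLinearMap.smul_apply, h4 α hα, smul_eq_mul, mul_sgn]
  calc ∑ α ∈ S, |c α| = (∑ α ∈ S, c α • v α (k α)) (y (f q)) := h5.symm
    _ ≤ ‖(∑ α ∈ S, c α • v α (k α)) (y (f q))‖ := Real.le_norm_self _
    _ ≤ ‖∑ α ∈ S, c α • v α (k α)‖ * ‖y (f q)‖ := ContinuousLinearMap.le_opNorm _ _
    _ ≤ ‖∑ α ∈ S, c α • v α (k α)‖ * 1 :=
        mul_le_mul_of_nonneg_left (hy _) (norm_nonneg _)
    _ = ‖∑ α ∈ S, c α • v α (k α)‖ := mul_one _

end Pool.Agent.W6h79.LD
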