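import Pool.Agent.W6h79.LD.Defs4
import Pool.Agent.W6h79.LD.Main

open MeasureTheory Set Filter
open scoped ENNReal NNReal Topology

noncomputable section

namespace Pool.Agent.W6h79.LD

universe u v

lemma card_auxK {X A : Type u} (hA : Cardinal.aleph0 ≤ Cardinal.mk A)
    (hX : Cardinal.mk X < 2 ^ Cardinal.mk A) :
    Cardinal.mk (Finset X × ℕ) < 2 ^ Cardinal.mk A := by
  have h1 : Cardinal.aleph0.{u} < 2 ^ Cardinal.mk A :=
    hA.trans_lt (Cardinal.cantor _)
  rw [Cardinal.mk_prod]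
  simp only [Cardinal.mk_eq_aleph0, Cardinal.lift_aleph0]
  apply Cardinal.mul_lt_of_lt h1.le _ h1
  rw [Cardinal.lift_uzero]
  rcases finite_or_infinite X with h | h
  · have : Finite (Finset X) := by
      have := Fintype.ofFinite X
      infer_instance
    exact (Cardinal.lt_aleph0_of_finite _).trans h1
  · rw [Cardinal.mk_finset_of_infinite]
    exact hX

theorem sMainK (h5 : S_D5.{u, v}) (hDA : S_DA.{u, v}) (hEA : S_EA.{u, v}) (hHA : S_HA.{u})
    (hI : S_I.{u}) : S_MainK.{u, v} := by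
  intro A hA Ω _ μ 𝓢 hcov hcard Y _ _ U b hb hU T c hc hT
  classical
  have hA0 : Cardinal.aleph0 ≤ Cardinal.mk A := hA.1.aleph0_le
  have hAinf : Infinite A := Cardinal.infinite_iff.2 hA0
  set B : ℝ := ‖U‖ + 1 with hBdef
  have hBpos : 0 < B := by positivity
  have hUle : ∀ x, ‖U x‖ ≤ B * ‖x‖ := by
    intro x
    refine (U.le_opNorm x).trans ?_
    gcongr
    linarith
  obtain ⟨y, δ, hδ, hy1, hy⟩ := h5 A hA Y T c hc hT
  have hext := hDA A Y y δ hδ hy
  obtain ⟨w, hw1, hw2⟩ := hEA A hAinf Y y (1 / δ) hy1 hext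
  have hz : ∀ α, ∀ η : ℝ, 0 < η → ∃ (k : A) (F : Finset (Set Ω)) (M : ℕ),
      (↑F : Set (Set Ω)) ⊆ 𝓢 ∧
      ∫ ω in ((⋃₀ (↑F : Set (Set Ω))) ∩ {ω | |(U (w α k)) ω| ≤ (M : ℝ)})ᶜ,
        |(U (w α k)) ω| ∂μ ≤ η := by
    intro α
    refine hHA Ω μ 𝓢 A hA.1 hcov (fun k => U (w α k)) (B * (1 / δ)) ?_
    intro J ε hε
    have h1 : ∑ k ∈ J, ε k • U (w α k) = U (∑ k ∈ J, ε k • w α k) := by
      rw [map_sum]
      simp only [map_smul]
    rw [h1]
    refine (hUle _).trans ?_
    rw [mul_assoc]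
    gcongr
    exact hw1 α J ε hε
  set η : ℝ := b / 2 with hη
  have hηpos : 0 < η := by positivity
  choose k F M hF hint using fun α => hz α η hηpos
  -- fibre
  let f : (A → Bool) → Finset 𝓢 × ℕ := fun α =>
    ((F α).subtype (· ∈ 𝓢), M α)
  have hcard2 : Cardinal.mk (Finset 𝓢 × ℕ) < Cardinal.mk (A → Bool) := by
    have : Cardinal.mk (A → Bool) = 2 ^ Cardinal.mk A := by
      simp
    rw [this]
    exact card_auxK hA0 hcard
  have hinfty : Infinite (Finset 𝓢 × ℕ) := inferInstance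
  obtain ⟨⟨F₀, M₀⟩, hfib⟩ := Cardinal.exists_infinite_fiber f hcard2
  let X : Set (A → Bool) := {α | (F α).subtype (· ∈ 𝓢) = F₀ ∧ M α = M₀}
  have hX : X.Infinite := by
    have h1 : (f ⁻¹' {(F₀, M₀)}).Infinite := Set.infinite_coe_iff.1 hfib
    have h2 : f ⁻¹' {(F₀, M₀)} ⊆ X := by
      intro a ha
      have : f a = (F₀, M₀) := ha
      simp only [f, Prod.mk.injEq] at this
      exact this
    exact h1.mono h2
  let Fm : Finset (Set Ω) := F₀.map (Function.Embedding.subtype _)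
  have hFX : ∀ α ∈ X, F α = Fm := by
    intro α hα
    have : (F α).subtype (· ∈ 𝓢) = F₀ := hα.1
    rw [show Fm = F₀.map (Function.Embedding.subtype _) from rfl, ← this,
      Finset.subtype_map]
    rw [Finset.filter_true_of_mem]
    intro x hx
    exact hF α hx
  set G : Set Ω := ⋃₀ (↑Fm : Set (Set Ω)) with hGdef
  have hFmS : (↑Fm : Set (Set Ω)) ⊆ 𝓢 := by
    obtain ⟨α, hα⟩ := hX.nonempty
    rw [← hFX α hα]
    exact hF α
  have hGm : MeasurableSet G :=
    MeasurableSet.sUnion (Fm.countable_toSet) (fun S hS' => (hcov.1 S (hFmS hS')).1)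
  have hGfin : μ G < ∞ := by
    rw [hGdef, Set.sUnion_eq_biUnion]
    refine (measure_biUnion_lt_top Fm.finite_toSet ?_)
    intro S hS'
    exact (hcov.1 S (hFmS hS')).2
  -- the main estimate
  have main : ∀ m : ℕ, b * (m : ℝ) ≤ (M₀ : ℝ) * (μ G).toReal * Real.sqrt m + m * η := by
    intro m
    obtain ⟨t, htX, htcard⟩ := hX.exists_subset_card_eq m
    let ι : Fin m ≃ t := (Fintype.equivFinOfCardEq (by simpa using htcard)).symm
    obtain ⟨ε, hε, hle⟩ := sgnsum_est hI μ G hGm hGfin (M₀ : ℝ) (by positivity) m η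
      (fun j => U (w (ι j) (k (ι j))))
      (by
        intro j
        have hj : (ι j : A → Bool) ∈ X := htX (ι j).2
        have := hint (ι j)
        rw [hFX _ hj, hj.2] at this
        exact this)
    have h1 : ∑ j, ε j • U (w (ι j) (k (ι j))) =
        U (∑ j, ε j • w (ι j) (k (ι j))) := by
      rw [map_sum]
      simp only [map_smul]
    have h2 : (m : ℝ) ≤ ‖∑ j, ε j • w (ι j) (k (ι j))‖ := by
      let c : (A → Bool) → ℝ := fun α => if h : α ∈ t then ε (ι.symm ⟨α, h⟩) else 0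
      have h3 := hw2 t k c
      have h4 : ∑ α ∈ t, |c α| = m := by
        have : ∀ α ∈ t, |c α| = 1 := by
          intro α hα
          simp only [c, dif_pos hα]
          rcases hε (ι.symm ⟨α, hα⟩) with h | h <;> rw [h] <;> simp
        rw [Finset.sum_congr rfl this]
        simp [htcard]
      have h5 : ∑ α ∈ t, c α • w α (k α) = ∑ j, ε j • w (ι j) (k (ι j)) := by
        rw [← Finset.sum_coe_sort t (fun α => c α • w α (k α))]
        rw [← ι.sum_comp]
        refine Finset.sum_congr rfl (fun j _ => ?_)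
        simp only [c]
        rw [dif_pos (ι j).2]
        simp
      rw [h4, h5] at h3
      exact h3
    calc b * (m : ℝ) ≤ b * ‖∑ j, ε j • w (ι j) (k (ι j))‖ := by gcongr
      _ ≤ ‖U (∑ j, ε j • w (ι j) (k (ι j)))‖ := hU _
      _ ≤ (M₀ : ℝ) * (μ G).toReal * Real.sqrt m + m * η := by
        rw [← h1]
        exact hle
  -- contradiction
  set Q : ℝ := (M₀ : ℝ) * (μ G).toReal with hQ
  have hQ0 : 0 ≤ Q := by positivity
  obtain ⟨N, hN⟩ := exists_nat_gt (2 * Q / b)
  have hN0 : (0 : ℝ) < N := lt_of_le_of_lt (by positivity) hN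
  have hN' : 2 * Q < N * b := (div_lt_iff₀ hb).1 hN
  have h := main (N ^ 2)
  have hsq : Real.sqrt ((N ^ 2 : ℕ) : ℝ) = N := by
    push_cast
    exact Real.sqrt_sq hN0.le
  rw [hsq] at h
  push_cast at h
  have h' : b / 2 * (N : ℝ) ^ 2 ≤ Q * N := by
    rw [hη] at h
    linarith
  nlinarith

end Pool.Agent.W6h79.LD
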