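import Pool.Agent.W6h79.LD.Defs5
import Pool.Agent.W6h79.LD.MainK
import Pool.Agent.W6h79.LD.Fin
import Pool.Agent.W6h79.LD.J

open MeasureTheory Set Filter
open scoped ENNReal NNReal Topology

noncomputable section

namespace Pool.Agent.W6h79.LD

universe u v

/-- Real scalars. -/
theorem finK_real (h : S_MainK.{u, u}) (A : Type u) (hA : CInacc (Cardinal.mk A))
    (Ω : Type u) [MeasurableSpace Ω] (μ : Measure Ω) (hd : IsoToDual ℝ (Lp ℝ 1 μ))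
    (V : Lp ℝ 1 (coins A) →L[ℝ] Lp ℝ 1 μ) (c : ℝ) (hc : 0 < c) (hV : ∀ f, c * ‖f‖ ≤ ‖V f‖)
    (𝓢 : Set (Set Ω)) (hcov : CoversK (Cardinal.mk A) μ 𝓢) :
    2 ^ Cardinal.mk A ≤ Cardinal.mk 𝓢 := by
  by_contra hcard
  rw [not_le] at hcard
  obtain ⟨Z, i1, i2, i3, ⟨e⟩⟩ := hd
  obtain ⟨b, hb, hb'⟩ := bdd_below e
  obtain ⟨c1, hc1, hc'⟩ := bdd_below e.symm
  refine h A hA Ω μ 𝓢 hcov hcard Z e.symm.toContinuousLinearMap c1 hc1 hc'
    (e.toContinuousLinearMap.comp V) (b * c) (by positivity) ?_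
  intro f
  calc b * c * ‖f‖ = b * (c * ‖f‖) := by ring
    _ ≤ b * ‖V f‖ := by gcongr; exact hV f
    _ ≤ ‖e.toContinuousLinearMap (V f)‖ := hb' _

/-- Complex scalars. -/
theorem finK_complex (h : S_MainK.{u, u}) (hJ : S_J.{u}) (hK : S_KC.{u}) (A : Type u)
    (hA : CInacc (Cardinal.mk A))
    (Ω : Type u) [MeasurableSpace Ω] (μ : Measure Ω) (hd : IsoToDual ℂ (Lp ℂ 1 μ))
    (V : Lp ℝ 1 (coins A) →L[ℝ] Lp ℝ 1 μ) (c : ℝ) (hc : 0 < c) (hV : ∀ f, c * ‖f‖ ≤ ‖V f‖)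
    (𝓢 : Set (Set Ω)) (hcov : CoversK (Cardinal.mk A) μ 𝓢) :
    2 ^ Cardinal.mk A ≤ Cardinal.mk 𝓢 := by
  by_contra hcard
  rw [not_le] at hcard
  have hA0 : Cardinal.aleph0 ≤ Cardinal.mk A := hA.1.aleph0_le
  obtain ⟨Z, i1, i2, i3, ⟨e⟩⟩ := hd
  obtain ⟨b, hb, hb'⟩ := bdd_below e
  obtain ⟨c1, hc1, hc'⟩ := bdd_below e.symm
  obtain ⟨W⟩ := hJ Ω μ
  obtain ⟨w, hw, hw'⟩ := bdd_below W
  let R : StrongDual ℝ Z ≃ₗᵢ[ℝ] StrongDual ℂ Z := StrongDual.extendRCLikeₗᵢ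
  let U' : StrongDual ℝ Z →L[ℝ] Lp ℝ 1 (μ.map (Sum.inl : Ω → Ω ⊕ Ω) +
      μ.map (Sum.inr : Ω → Ω ⊕ Ω)) :=
    (W.toContinuousLinearMap.comp (e.symm.toContinuousLinearMap.restrictScalars ℝ)).comp
      R.toContinuousLinearEquiv.toContinuousLinearMap
  let T' : Lp ℝ 1 (coins A) →L[ℝ] StrongDual ℝ Z :=
    ((R.symm.toContinuousLinearEquiv.toContinuousLinearMap.comp
      (e.toContinuousLinearMap.restrictScalars ℝ)).comp (Complex.ofRealCLM.compLpL 1 μ)).comp V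
  have hcard' : Cardinal.mk (dblCover 𝓢) < 2 ^ Cardinal.mk A := by
    refine (Cardinal.mk_union_le _ _).trans_lt ?_
    refine (add_le_add Cardinal.mk_image_le Cardinal.mk_image_le).trans_lt ?_
    exact Cardinal.add_lt_of_lt (hA0.trans (Cardinal.cantor _).le) hcard hcard
  refine h A hA (Ω ⊕ Ω) _ (dblCover 𝓢) (hK _ hA0 Ω μ 𝓢 hcov) hcard' Z U'
    (w * c1) (by positivity) ?_ T' (b * c) (by positivity) ?_
  · intro x
    have h1 : w * ‖e.symm (R x)‖ ≤ ‖U' x‖ := hw' (e.symm (R x))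
    have h2 : c1 * ‖x‖ ≤ ‖e.symm (R x)‖ := by
      have := hc' (R x)
      rwa [R.norm_map] at this
    calc w * c1 * ‖x‖ = w * (c1 * ‖x‖) := by ring
      _ ≤ w * ‖e.symm (R x)‖ := by gcongr
      _ ≤ _ := h1
  · intro f
    have h1 : ‖T' f‖ = ‖e (Complex.ofRealCLM.compLpL 1 μ (V f))‖ := by
      show ‖R.symm (e (Complex.ofRealCLM.compLpL 1 μ (V f)))‖ = _
      rw [R.symm.norm_map]
    rw [h1]
    calc b * c * ‖f‖ = b * (c * ‖f‖) := by ring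
      _ ≤ b * ‖V f‖ := by gcongr; exact hV f
      _ = b * ‖Complex.ofRealCLM.compLpL 1 μ (V f)‖ := by rw [norm_ofReal_L1]
      _ ≤ _ := hb' _

end Pool.Agent.W6h79.LD
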