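import Pool.Agent.W6h79.LD.Defs6
import Pool.Agent.W6h79.LD.FinK

open MeasureTheory Set Filter
open scoped ENNReal NNReal Topology

noncomputable section

namespace Pool.Agent.W6h79.LD

universe u

theorem aleph0_lt_of_CInacc {κ : Cardinal.{u}} (h : CInacc κ) : Cardinal.aleph0 < κ := by
  have h0 : Cardinal.aleph0 ≤ κ := h.1.aleph0_le
  have h2 : (2 : Cardinal.{u}) < κ := (Cardinal.nat_lt_aleph0 2).trans_le h0
  exact (Cardinal.cantor _).trans (h.2 2 h2)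

/-- (Mah) from its pieces. -/
theorem sMah (h1 : S_Mh1.{u}) (h2 : S_Mh2.{u}) (h3 : S_Mh3.{u}) (h4 : S_Mh4.{u}) : S_Mah.{u} := by
  intro A hreg hA0 Ω _ μ E hE hfin hd
  obtain ⟨E', hE'E, hE'm, hE'pos, hthick⟩ := h1 _ hreg hA0 Ω μ E hE hfin hd
  have hE'fin : μ E' < ∞ := (measure_mono hE'E).trans_lt hfin
  have hfm : IsFiniteMeasure (μ.restrict E') := ⟨by
    rw [Measure.restrict_apply_univ]; exact hE'fin⟩
  have hthick' : ∀ F, MeasurableSet F → 0 < μ.restrict E' F →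
      ¬ DensLt (Cardinal.mk A) (Lp ℝ 1 ((μ.restrict E').restrict F)) := by
    intro F hF hpos
    rw [Measure.restrict_restrict hF]
    refine hthick (F ∩ E') inter_subset_right (hF.inter hE'm) ?_
    rwa [Measure.restrict_apply hF] at hpos
  obtain ⟨R, hRm, hR⟩ := h4 A hreg hA0 Ω (μ.restrict E') hfm (by
    intro 𝒞 h𝒞 hcard
    have hnow := h3 _ hA0 Ω (μ.restrict E') hfm hthick' 𝒞 h𝒞 hcard
    have hle : MeasurableSpace.generateFrom 𝒞 ≤ ‹MeasurableSpace Ω› :=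
      MeasurableSpace.generateFrom_le h𝒞
    exact h2 Ω _ _ (μ.restrict E') hle hfm hnow)
  refine ⟨E', hE'E, hE'm, hE'pos, hE'fin, R, hRm, ?_⟩
  intro F s
  have h := hR F s
  have hm : MeasurableSet (⋂ a ∈ F, if s a = true then R a else (R a)ᶜ) := by
    refine Finset.measurableSet_biInter F (fun a _ => ?_)
    split_ifs
    · exact hRm a
    · exact (hRm a).compl
  rw [Measure.restrict_apply hm, Measure.restrict_apply_univ, inter_comm] at h
  exact h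

/-- Final form of the necessary condition for higher types. -/
theorem finM (hK : S_MainK.{u, u}) (hJ : S_J.{u}) (hKC : S_KC.{u}) (hInd : S_Ind.{u})
    (hMah : S_Mah.{u}) (κ : Cardinal.{u}) (hκ : CInacc κ) (Ω : Type u) [MeasurableSpace Ω]
    (μ : Measure Ω) (hd : IsoToDual ℝ (Lp ℝ 1 μ) ∨ IsoToDual ℂ (Lp ℂ 1 μ)) :
    (∀ E, MeasurableSet E → μ E < ∞ → DensLt κ (Lp ℝ 1 (μ.restrict E))) ∨
      ∀ 𝓢 : Set (Set Ω), CoversK κ μ 𝓢 → 2 ^ κ ≤ Cardinal.mk 𝓢 := by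
  by_contra hcon
  push Not at hcon
  obtain ⟨⟨E, hE, hfin, hdens⟩, 𝓢, hcov, hlt⟩ := hcon
  have hA : Cardinal.mk κ.out = κ := Cardinal.mk_out κ
  have hκ0 := aleph0_lt_of_CInacc hκ
  obtain ⟨E', -, hHal⟩ := hMah κ.out (by rw [hA]; exact hκ.1) (by rw [hA]; exact hκ0) Ω μ E hE
    hfin (by rw [hA]; exact hdens)
  obtain ⟨V, c, hc, hV⟩ := hInd Ω μ κ.out E' hHal
  have hcov' : CoversK (Cardinal.mk κ.out) μ 𝓢 := by rw [hA]; exact hcov
  have hCI : CInacc (Cardinal.mk κ.out) := by rw [hA]; exact hκ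
  have key : 2 ^ Cardinal.mk κ.out ≤ Cardinal.mk 𝓢 := by
    rcases hd with hd | hd
    · exact finK_real hK κ.out hCI Ω μ hd V c hc hV 𝓢 hcov'
    · exact finK_complex hK hJ hKC κ.out hCI Ω μ hd V c hc hV 𝓢 hcov'
  rw [hA] at key
  exact absurd key (not_le.2 hlt)

end Pool.Agent.W6h79.LD
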