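import Pool.Agent.W6h79.LD.Defs4
import Pool.Agent.W6h79.LD.H

/-!
# MP_3844f5_an, piece (HA)
-/

open MeasureTheory Set Filter
open scoped ENNReal NNReal Topology

noncomputable section

namespace Pool.Agent.W6h79.LD

namespace HAx

variable {Ω : Type*} [MeasurableSpace Ω] {μ : Measure Ω}

/-- the measure with density `|f|` -/
def nu (f : Lp ℝ 1 μ) : Measure Ω := μ.withDensity (fun ω => ENNReal.ofReal |f ω|)

instance (f : Lp ℝ 1 μ) : IsFiniteMeasure (nu f) :=
  isFiniteMeasure_withDensity_ofReal (HH.integrable f).abs.2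

lemma nu_real (f : Lp ℝ 1 μ) {S : Set Ω} (hS : MeasurableSet S) :
    (nu f).real S = ∫ ω in S, |f ω| ∂μ := by
  unfold nu
  rw [Measure.real, withDensity_apply _ hS,
    ← ofReal_integral_eq_lintegral_ofReal (HH.integrable f).abs.integrableOn
      (Eventually.of_forall fun _ => abs_nonneg _),
    ENNReal.toReal_ofReal (integral_nonneg fun _ => abs_nonneg _)]

lemma nu_null (f : Lp ℝ 1 μ) {S : Set Ω} (h : μ S = 0) : nu f S = 0 :=
  withDensity_absolutelyContinuous μ _ h

lemma exists_G (f : Lp ℝ 1 μ) (U : Set Ω) (hU : MeasurableSet U) {δ : ℝ} (hδ : 0 < δ) :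
    ∃ G, MeasurableSet G ∧ μ G < ∞ ∧ G ⊆ {ω | f ω ≠ 0} \ U ∧ (nu f).real (Uᶜ \ G) ≤ δ := by
  have hm : Measurable (fun ω => |f ω|) := (Lp.stronglyMeasurable f).measurable.abs
  set G : ℕ → Set Ω := fun n => {ω | 1 / ((n : ℝ) + 1) ≤ |f ω|} \ U with hG
  have hpos : ∀ n : ℕ, (0 : ℝ) < 1 / ((n : ℝ) + 1) := fun n => by positivity
  have hGm : ∀ n, MeasurableSet (G n) := fun n =>
    (measurableSet_le measurable_const hm).diff hU
  have hmono : Monotone G := by
    intro a b hab
    refine sdiff_le_sdiff_right ?_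
    intro ω hω
    have h1 : 1 / ((b : ℝ) + 1) ≤ 1 / ((a : ℝ) + 1) := by
      apply one_div_le_one_div_of_le (by positivity)
      have : (a : ℝ) ≤ b := by exact_mod_cast hab
      linarith
    exact h1.trans hω
  have hlim := tendsto_measure_iInter_atTop (μ := nu f) (s := fun n => Uᶜ \ G n)
    (fun n => (hU.compl.diff (hGm n)).nullMeasurableSet)
    (fun a b hab => sdiff_le_sdiff_left (hmono hab)) ⟨0, measure_ne_top _ _⟩
  have hzero : nu f (⋂ n, Uᶜ \ G n) = 0 := by
    have hS : MeasurableSet {ω | |f ω| = 0} := hm (measurableSet_singleton 0)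
    have h1 : nu f {ω | |f ω| = 0} = 0 := by
      unfold nu
      rw [withDensity_apply _ hS, setLIntegral_congr_fun (g := fun _ => 0) hS]
      · simp
      · intro ω hω
        have : |f ω| = 0 := hω
        simp only [this, ENNReal.ofReal_zero]
    refine measure_mono_null ?_ h1
    intro ω hω
    rw [mem_iInter] at hω
    by_contra hne
    have hp : 0 < |f ω| := lt_of_le_of_ne (abs_nonneg _) (fun h => hne h.symm)
    obtain ⟨n, hn⟩ := exists_nat_one_div_lt hp
    exact (hω n).2 ⟨hn.le, (hω n).1⟩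
  rw [hzero] at hlim
  have h2 : (0 : ℝ≥0∞) < ENNReal.ofReal δ := ENNReal.ofReal_pos.2 hδ
  obtain ⟨n, hn⟩ := (hlim.eventually_lt_const h2).exists
  refine ⟨G n, hGm n, ?_, ?_, ?_⟩
  · refine lt_of_le_of_lt (measure_mono sdiff_subset) ?_
    have h3 := (HH.integrable f).measure_norm_ge_lt_top (hpos n)
    simpa [Real.norm_eq_abs] using h3
  · rintro ω ⟨h3, h4⟩
    refine ⟨?_, h4⟩
    intro h5
    have h6 : 1 / ((n : ℝ) + 1) ≤ |f ω| := h3
    rw [h5, abs_zero] at h6
    exact absurd (hpos n) (not_lt.2 h6)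
  · have h3 : (nu f) (Uᶜ \ G n) ≤ ENNReal.ofReal δ := le_of_lt hn
    exact ENNReal.toReal_le_of_le_ofReal hδ.le h3

lemma coe_sum (s : Finset ℕ) (z : ℕ → Lp ℝ 1 μ) :
    ∀ᵐ ω ∂μ, (∑ i ∈ s, z i : Lp ℝ 1 μ) ω = ∑ i ∈ s, z i ω := by
  classical
  induction s using Finset.induction_on with
  | empty =>
    filter_upwards [Lp.coeFn_zero ℝ 1 μ] with ω h
    simpa using h
  | insert a s ha ih =>
    rw [Finset.sum_insert ha]
    filter_upwards [ih, Lp.coeFn_add (z a) (∑ i ∈ s, z i)] with ω h1 h2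
    rw [h2, Pi.add_apply, h1, Finset.sum_insert ha]

lemma hump (m : ℕ) (z : ℕ → Lp ℝ 1 μ) (G : ℕ → Set Ω) (hG : ∀ i, MeasurableSet (G i))
    (δ e : ℝ) (hδ : 0 ≤ δ) (h1 : ∀ j, e ≤ (nu (z j)).real (G j))
    (h2 : ∀ i j, i < j → (nu (z j)).real (G i) ≤ δ)
    (h3 : ∀ i j, i < j → (nu (z i)).real (G j \ G i) ≤ δ) :
    (m : ℝ) * (e - 2 * m * δ) ≤ ‖∑ i ∈ Finset.range m, z i‖ := by
  classical
  set H : ℕ → Set Ω := fun j => G j \ ⋃ i ∈ Finset.range j, G i with hH
  have hHm : ∀ j, MeasurableSet (H j) := fun j =>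
    (hG j).diff (Finset.measurableSet_biUnion _ fun i _ => hG i)
  have hHG : ∀ j, H j ⊆ G j := fun j => sdiff_subset
  have hHn : ∀ i j, i < j → H j ⊆ G j \ G i := by
    intro i j hij ω hω
    refine ⟨hω.1, fun h => hω.2 ?_⟩
    exact mem_biUnion (Finset.mem_coe.2 (Finset.mem_range.2 hij)) h
  have hd : ∀ i j, i ≠ j → Disjoint (H i) (H j) := by
    have key : ∀ i j, i < j → Disjoint (H i) (H j) := by
      intro i j hij
      rw [disjoint_left]
      intro ω h4 h5
      exact (hHn i j hij h5).2 (hHG i h4)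
    intro i j hij
    rcases lt_or_gt_of_ne hij with h | h
    · exact key i j h
    · exact (key j i h).symm
  set g : Lp ℝ 1 μ := ∑ i ∈ Finset.range m, z i with hg
  have hint : ∀ i, Integrable (fun ω => |z i ω|) μ := fun i => (HH.integrable (z i)).abs
  -- (4)
  have e4 : ∀ j, e - j * δ ≤ (nu (z j)).real (H j) := by
    intro j
    have h5 : (nu (z j)).real (G j) ≤
        (nu (z j)).real (H j) + (nu (z j)).real (⋃ i ∈ Finset.range j, G i) := by
      refine (measureReal_mono ?_).trans (measureReal_union_le _ _)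
      intro ω hω
      by_cases h : ω ∈ ⋃ i ∈ Finset.range j, G i
      · exact Or.inr h
      · exact Or.inl ⟨hω, h⟩
    have h6 : (nu (z j)).real (⋃ i ∈ Finset.range j, G i) ≤ j * δ := by
      refine (measureReal_biUnion_finset_le _ _).trans ?_
      calc ∑ i ∈ Finset.range j, (nu (z j)).real (G i) ≤ ∑ i ∈ Finset.range j, δ :=
            Finset.sum_le_sum fun i hi => h2 i j (Finset.mem_range.1 hi)
        _ = j * δ := by simp
    linarith [h1 j]
  have e3 : ∀ i j, i ≠ j → (nu (z i)).real (H j) ≤ δ := by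
    intro i j hij
    rcases lt_or_gt_of_ne hij with h | h
    · exact (measureReal_mono (hHn i j h)).trans (h3 i j h)
    · exact (measureReal_mono (hHG j)).trans (h2 j i h)
  have e2 : ∀ j ∈ Finset.range m, e - 2 * m * δ ≤ ∫ ω in H j, |g ω| ∂μ := by
    intro j hj
    have h5 : ∫ ω in H j, (|z j ω| - ∑ i ∈ (Finset.range m).erase j, |z i ω|) ∂μ ≤
        ∫ ω in H j, |g ω| ∂μ := by
      apply integral_mono_ae
      · exact ((hint j).sub (integrable_finsetSum _ fun i _ => hint i)).integrableOn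
      · exact (HH.integrable g).abs.integrableOn
      · filter_upwards [ae_restrict_of_ae (coe_sum (Finset.range m) z)] with ω hω
        rw [hω, ← Finset.add_sum_erase _ _ hj]
        have h6 : |∑ i ∈ (Finset.range m).erase j, z i ω| ≤
            ∑ i ∈ (Finset.range m).erase j, |z i ω| := Finset.abs_sum_le_sum_abs _ _
        have h7 : |z j ω| ≤ |z j ω + ∑ i ∈ (Finset.range m).erase j, z i ω| +
            |∑ i ∈ (Finset.range m).erase j, z i ω| := by
          have := abs_sub (z j ω + ∑ i ∈ (Finset.range m).erase j, z i ω)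
            (∑ i ∈ (Finset.range m).erase j, z i ω)
          rwa [add_sub_cancel_right] at this
        linarith
    rw [integral_sub (hint j).integrableOn
      (integrable_finsetSum _ fun i _ => (hint i)).integrableOn,
      integral_finsetSum _ fun i _ => (hint i).integrableOn, ← nu_real _ (hHm j)] at h5
    have h6 : ∑ i ∈ (Finset.range m).erase j, ∫ ω in H j, |z i ω| ∂μ ≤ m * δ := by
      calc ∑ i ∈ (Finset.range m).erase j, ∫ ω in H j, |z i ω| ∂μ
          ≤ ∑ i ∈ (Finset.range m).erase j, δ := by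
            refine Finset.sum_le_sum fun i hi => ?_
            rw [← nu_real _ (hHm j)]
            exact e3 i j (Finset.ne_of_mem_erase hi)
        _ = ((Finset.range m).erase j).card * δ := by simp
        _ ≤ m * δ := by
            gcongr
            exact (Finset.card_erase_le).trans (by simp)
    have h7 : (j : ℝ) * δ ≤ m * δ := by
      gcongr
      exact (Finset.mem_range.1 hj).le
    linarith [e4 j]
  calc (m : ℝ) * (e - 2 * m * δ) = ∑ j ∈ Finset.range m, (e - 2 * m * δ) := by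
        rw [Finset.sum_const, Finset.card_range, nsmul_eq_mul]
    _ ≤ ∑ j ∈ Finset.range m, ∫ ω in H j, |g ω| ∂μ := Finset.sum_le_sum e2
    _ = ∫ ω in ⋃ j ∈ Finset.range m, H j, |g ω| ∂μ :=
        (integral_biUnion_finset _ (fun j _ => hHm j) (fun i _ j _ hij => hd i j hij)
          (fun j _ => (HH.integrable g).abs.integrableOn)).symm
    _ ≤ ∫ ω, |g ω| ∂μ :=
        setIntegral_le_integral (HH.integrable g).abs (Eventually.of_forall fun _ => abs_nonneg _)
    _ = ‖g‖ := (HH.norm_eq g).symm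

end HAx

open HAx in
/-- **(HA)** -/
theorem sHA.{u} (h0 : S_HA0.{u}) (h1 : S_HA1.{u}) : S_HA.{u} := by
  classical
  intro Ω _ μ 𝓢 A hreg hcov z C hz η hη
  by_cases hc : ∃ k, ∃ 𝓣 : Set (Set Ω), 𝓣.Countable ∧ 𝓣 ⊆ 𝓢 ∧
      ∫ ω in (⋃₀ 𝓣)ᶜ, |z k ω| ∂μ < η
  · obtain ⟨k, 𝓣, hTc, hTS, hk⟩ := hc
    obtain ⟨F, M, hF, hFM⟩ := HH.exists_fin 𝓣 hTc (fun S hS => (hcov.1 S (hTS hS)).1) (z k) η hk
    exact ⟨k, F, M, hF.trans hTS, hFM⟩
  exfalso
  push Not at hc
  obtain ⟨m, hm⟩ := exists_nat_gt ((2 * |C| / η) ^ 2)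
  have hm0 : (0 : ℝ) < m := lt_of_le_of_lt (sq_nonneg _) hm
  have hsq : 2 * |C| / η < √(m : ℝ) := (Real.lt_sqrt (by positivity)).2 hm
  have hCm : C * √(m : ℝ) < m * (η / 2) := by
    have h2 : |C| < √(m : ℝ) * (η / 2) := by
      rw [div_lt_iff₀ hη] at hsq
      linarith
    calc C * √(m : ℝ) ≤ |C| * √(m : ℝ) := by gcongr; exact le_abs_self C
      _ < (√(m : ℝ) * (η / 2)) * √(m : ℝ) := by
          apply mul_lt_mul_of_pos_right h2 (Real.sqrt_pos.2 hm0)
      _ = (√(m : ℝ) * √(m : ℝ)) * (η / 2) := by ring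
      _ = m * (η / 2) := by rw [Real.mul_self_sqrt hm0.le]
  set δ : ℝ := η / (2 * (2 * m + 1)) with hδdef
  have hδ : 0 < δ := by positivity
  choose 𝓣 hTc hTS hTn using fun k => h0 Ω μ 𝓢 hcov.1 (z k)
  have hUm : ∀ k, MeasurableSet (⋃₀ (𝓣 k)) := fun k =>
    MeasurableSet.sUnion (hTc k) fun S hS => (hcov.1 S (hTS k hS)).1
  choose G hGm hGf hGs hGδ using fun k => exists_G (z k) (⋃₀ (𝓣 k)) (hUm k) hδ
  have hGS : ∀ k, ∀ S ∈ 𝓢, μ (G k ∩ S) = 0 := fun k S hS =>
    measure_mono_null (inter_subset_inter_left _ (hGs k)) (hTn k S hS)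
  have hcard : ∀ k, Cardinal.mk {k' | δ < (nu (z k')).real (G k)} < Cardinal.mk A := by
    intro k
    have h2 := h1 Ω μ A hreg (G k) (hGm k) (hGf k) (hcov.2 (G k) (hGm k) (hGf k) (hGS k)) z C hz δ hδ
    simp only [nu_real _ (hGm k)]
    exact h2
  have hinf : Cardinal.aleph0 ≤ Cardinal.mk A := hreg.aleph0_le
  have hfin : ∀ s : Finset A, Cardinal.mk {y | ∃ x ∈ s, x = y ∨ δ < (nu (z y)).real (G x)} <
      Cardinal.mk A := by
    intro s
    induction s using Finset.induction_on with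
    | empty =>
      have h2 : {y : A | ∃ x ∈ (∅ : Finset A), x = y ∨ δ < (nu (z y)).real (G x)} = ∅ := by
        ext y
        simp
      rw [h2, Cardinal.mk_eq_zero]
      exact lt_of_lt_of_le Cardinal.aleph0_pos hinf
    | insert a s ha ih =>
      have h2 : {y : A | ∃ x ∈ insert a s, x = y ∨ δ < (nu (z y)).real (G x)} ⊆
          ({a} ∪ {y | δ < (nu (z y)).real (G a)}) ∪
            {y | ∃ x ∈ s, x = y ∨ δ < (nu (z y)).real (G x)} := by
        rintro y ⟨x, hx, hxy⟩
        rcases Finset.mem_insert.1 hx with rfl | hx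
        · rcases hxy with rfl | hxy
          · exact Or.inl (Or.inl rfl)
          · exact Or.inl (Or.inr hxy)
        · exact Or.inr ⟨x, hx, hxy⟩
      refine lt_of_le_of_lt (Cardinal.mk_le_mk_of_subset h2) ?_
      refine lt_of_le_of_lt (Cardinal.mk_union_le _ _) (Cardinal.add_lt_of_lt hinf ?_ ih)
      refine lt_of_le_of_lt (Cardinal.mk_union_le _ _) (Cardinal.add_lt_of_lt hinf ?_ (hcard a))
      rw [Cardinal.mk_singleton]
      exact lt_of_lt_of_le Cardinal.one_lt_aleph0 hinf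
  obtain ⟨f, -, hf⟩ := exists_seq_of_forall_finset_exists (fun _ : A => True)
    (fun x y => x ≠ y ∧ (nu (z y)).real (G x) ≤ δ) (by
      intro s _
      by_contra hcon
      push Not at hcon
      have h2 : {y | ∃ x ∈ s, x = y ∨ δ < (nu (z y)).real (G x)} = univ := by
        rw [eq_univ_iff_forall]
        intro y
        obtain ⟨x, hx, hxy⟩ := hcon y trivial
        by_cases h : x = y
        · exact ⟨x, hx, Or.inl h⟩
        · exact ⟨x, hx, Or.inr (hxy h)⟩
      have h3 := hfin s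
      rw [h2, Cardinal.mk_univ] at h3
      exact lt_irrefl _ h3)
  have hfi : Function.Injective f := by
    intro i j hij
    by_contra hne
    rcases lt_or_gt_of_ne hne with h | h
    · exact (hf i j h).1 hij
    · exact (hf j i h).1 hij.symm
  have hlow := hump m (fun i => z (f i)) (fun i => G (f i)) (fun i => hGm (f i)) δ (η - δ) hδ.le
    (by
      intro j
      have h2 := hc (f j) (𝓣 (f j)) (hTc _) (hTS _)
      rw [← nu_real _ (hUm _).compl] at h2
      have h3 : (nu (z (f j))).real (⋃₀ (𝓣 (f j)))ᶜ ≤ (nu (z (f j))).real (G (f j)) +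
          (nu (z (f j))).real ((⋃₀ (𝓣 (f j)))ᶜ \ G (f j)) := by
        refine (measureReal_mono ?_).trans (measureReal_union_le _ _)
        intro ω hω
        by_cases h : ω ∈ G (f j)
        · exact Or.inl h
        · exact Or.inr ⟨hω, h⟩
      linarith [hGδ (f j)])
    (fun i j hij => (hf i j hij).2)
    (by
      intro i j hij
      have h2 : nu (z (f i)) (G (f j) ∩ ⋃₀ (𝓣 (f i))) = 0 := by
        apply nu_null
        rw [sUnion_eq_biUnion, inter_iUnion₂]
        refine (measure_biUnion_null_iff (hTc (f i))).2 fun S hS => ?_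
        exact hGS (f j) S (hTS (f i) hS)
      have h3 : (nu (z (f i))).real (G (f j) ∩ ⋃₀ (𝓣 (f i))) = 0 := by
        rw [Measure.real, h2, ENNReal.toReal_zero]
      have h4 : (nu (z (f i))).real (G (f j) \ G (f i)) ≤
          (nu (z (f i))).real (G (f j) ∩ ⋃₀ (𝓣 (f i))) +
            (nu (z (f i))).real ((⋃₀ (𝓣 (f i)))ᶜ \ G (f i)) := by
        refine (measureReal_mono ?_).trans (measureReal_union_le _ _)
        intro ω hω
        by_cases h : ω ∈ ⋃₀ (𝓣 (f i))
        · exact Or.inl ⟨hω.1, h⟩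
        · exact Or.inr ⟨h, hω.2⟩
      linarith [hGδ (f i)])
  have hup := hz ((Finset.range m).image f) (fun _ => 1) (fun _ => by simp)
  rw [Finset.card_image_of_injective _ hfi, Finset.card_range,
    Finset.sum_image (fun i _ j _ hij => hfi hij)] at hup
  simp only [one_smul] at hup
  have h5 : (m : ℝ) * (η - δ - 2 * m * δ) = m * (η / 2) := by
    rw [hδdef]
    have : (2 * (m : ℝ) + 1) ≠ 0 := by positivity
    field_simp
    ring
  rw [h5] at hlow
  linarith

end Pool.Agent.W6h79.LD
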