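import Pool.Agent.W6h79.LD.Defs4

/-!
# On a set of small density most members of the sequence are small
-/

open MeasureTheory Set Filter
open scoped ENNReal NNReal Topology

noncomputable section

namespace Pool.Agent.W6h79.LD

theorem sHA1.{u} : S_HA1.{u} := by
  intro Ω _ μ A hreg G hG hGf ⟨D, hD, hDc⟩ z C hz ρ hρ
  by_contra hcon
  push Not at hcon
  set Rr := LpToLpRestrictCLM Ω ℝ ℝ μ 1 G with hRr
  have hnorm : ∀ k, ‖Rr (z k)‖ = ∫ ω in G, |z k ω| ∂μ := by
    intro k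
    rw [L1.norm_eq_integral_norm]
    refine integral_congr_ae ?_
    filter_upwards [LpToLpRestrictCLM_coeFn ℝ G (z k)] with ω hω
    rw [hRr, hω, Real.norm_eq_abs]
  have hch : ∀ k : {k | ρ < ∫ ω in G, |z k ω| ∂μ}, ∃ d : D, ‖Rr (z k) - d‖ < ρ / 4 := by
    intro k
    obtain ⟨d, hd1, hd2⟩ := Metric.dense_iff.mp hD (Rr (z k)) (ρ / 4) (by positivity)
    refine ⟨⟨d, hd2⟩, ?_⟩
    rw [Metric.mem_ball, dist_comm, dist_eq_norm] at hd1
    exact hd1
  choose d hd using hch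
  obtain ⟨e, he⟩ := Cardinal.infinite_pigeonhole_card d (Cardinal.mk A) hcon hreg.aleph0_le
    (by rw [hreg.cof_ord]; exact hDc)
  have hinf : (d ⁻¹' {e}).Infinite := by
    rw [← Set.infinite_coe_iff, ← Cardinal.aleph0_le_mk_iff]
    exact hreg.aleph0_le.trans he
  -- the bound for m members
  have key : ∀ m : ℕ, m * (ρ / 2) ≤ C * Real.sqrt m := by
    intro m
    obtain ⟨J, hJ1, hJ2⟩ := hinf.exists_subset_card_eq m
    have hJe : ∀ k ∈ J, ‖Rr (z k) - e‖ < ρ / 4 := by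
      intro k hk
      have h1 : d k = e := hJ1 hk
      rw [← h1]
      exact hd k
    have hbound := hz (J.map (Function.Embedding.subtype _)) (fun _ => 1) (fun k => by simp)
    rw [Finset.card_map, hJ2, Finset.sum_map] at hbound
    simp only [one_smul, Function.Embedding.subtype_apply] at hbound
    refine le_trans ?_ hbound
    have h2 : ‖Rr (∑ k ∈ J, z k)‖ ≤ ‖∑ k ∈ J, z k‖ := norm_Lp_toLp_restrict_le G _
    refine le_trans ?_ h2
    rw [map_sum]
    rcases J.eq_empty_or_nonempty with hJ0 | ⟨k0, hk0⟩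
    · subst hJ0
      simp at hJ2
      subst hJ2
      simp
    · have h3 : ρ - ρ / 4 ≤ ‖(e : Lp ℝ 1 (μ.restrict G))‖ := by
        have h4 := hJe k0 hk0
        have h5 : ρ < ‖Rr (z k0)‖ := by rw [hnorm]; exact k0.2
        have h6 := norm_sub_norm_le (Rr (z k0)) (e : Lp ℝ 1 (μ.restrict G))
        linarith
      have h7 : ∑ k ∈ J, Rr (z k) = (m : ℝ) • (e : Lp ℝ 1 (μ.restrict G)) +
          ∑ k ∈ J, (Rr (z k) - e) := by
        rw [Finset.sum_sub_distrib, Finset.sum_const, hJ2, Nat.cast_smul_eq_nsmul]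
        abel
      rw [h7]
      have h8 : ‖∑ k ∈ J, (Rr (z k) - e)‖ ≤ m * (ρ / 4) := by
        refine (norm_sum_le _ _).trans ((Finset.sum_le_card_nsmul J _ (ρ / 4)
          fun k hk => (hJe k hk).le).trans ?_)
        rw [hJ2, nsmul_eq_mul]
      have h9 : ‖(m : ℝ) • (e : Lp ℝ 1 (μ.restrict G))‖ = m * ‖(e : Lp ℝ 1 (μ.restrict G))‖ := by
        rw [norm_smul, Real.norm_of_nonneg (Nat.cast_nonneg m)]
      have h10 := norm_sub_norm_le ((m : ℝ) • (e : Lp ℝ 1 (μ.restrict G)))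
        (-∑ k ∈ J, (Rr (z k) - e))
      rw [norm_neg, sub_neg_eq_add, h9] at h10
      have h11 : (m : ℝ) * (ρ - ρ / 4) ≤ m * ‖(e : Lp ℝ 1 (μ.restrict G))‖ :=
        mul_le_mul_of_nonneg_left h3 (Nat.cast_nonneg m)
      have h12 : (0 : ℝ) ≤ m := Nat.cast_nonneg m
      nlinarith
  -- contradiction
  obtain ⟨m, hm⟩ := exists_nat_gt ((2 * C / ρ) ^ 2 + 1)
  have hm0 : (0 : ℝ) < m := by nlinarith [sq_nonneg (2 * C / ρ)]
  have h1 := key m
  have h2 : Real.sqrt m * Real.sqrt m = m := Real.mul_self_sqrt hm0.le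
  have h3 : 0 < Real.sqrt m := Real.sqrt_pos.mpr hm0
  have h4 : Real.sqrt m * (ρ / 2) ≤ C := by
    have h5 : Real.sqrt m * (Real.sqrt m * (ρ / 2)) ≤ Real.sqrt m * C := by
      nlinarith
    exact le_of_mul_le_mul_left h5 h3
  have h6 : Real.sqrt m ≤ 2 * C / ρ := by
    rw [le_div_iff₀ hρ]
    linarith
  have h7 : (m : ℝ) ≤ (2 * C / ρ) ^ 2 := by
    rw [← h2]
    nlinarith
  linarith

end Pool.Agent.W6h79.LD
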