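import Pool.Agent.W6h79.LD.Defs4

/-!
# (Ind) Independent halving sets give a copy of `L¹({0,1}^A)`
-/

open MeasureTheory Set Filter
open scoped ENNReal NNReal Topology

noncomputable section

namespace Pool.Agent.W6h79.LD

namespace IndAux

universe u

lemma coin_single (b : Bool) : coin {b} = (2⁻¹ : ℝ≥0∞) := by
  simp [coin]

open Classical in
/-- The coding map. -/
def phi {Ω A : Type u} (R : A → Set Ω) (ω : Ω) : A → Bool := fun a => decide (ω ∈ R a)

lemma phi_measurable {Ω A : Type u} [MeasurableSpace Ω] (R : A → Set Ω)
    (hR : ∀ a, MeasurableSet (R a)) : Measurable (phi R) := by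
  refine measurable_pi_iff.2 fun a => ?_
  refine measurable_to_bool ?_
  have : (fun x => phi R x a) ⁻¹' {true} = R a := by
    ext ω; simp [phi]
  rw [this]; exact hR a

open Classical in
lemma map_phi {Ω A : Type u} [MeasurableSpace Ω] (μ : Measure Ω) (E : Set Ω)
    (hE : MeasurableSet E) (h0 : 0 < μ E) (h1 : μ E < ∞) (R : A → Set Ω)
    (hR : ∀ a, MeasurableSet (R a))
    (hI : ∀ (F : Finset A) (s : A → Bool),
      μ (E ∩ ⋂ a ∈ F, if s a = true then R a else (R a)ᶜ) = (2⁻¹ : ℝ≥0∞) ^ F.card * μ E) :
    (μ.restrict E).map (phi R) = μ E • coins A := by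
  have key : (μ E)⁻¹ • (μ.restrict E).map (phi R) = coins A := by
    unfold coins
    refine Measure.eq_infinitePi _ fun s t ht => ?_
    have hpi : MeasurableSet (Set.pi (↑s : Set A) t) :=
      MeasurableSet.pi s.countable_toSet fun a _ => ht a
    rw [Measure.smul_apply, Measure.map_apply (phi_measurable R hR) hpi,
      Measure.restrict_apply (phi_measurable R hR hpi), smul_eq_mul]
    by_cases hex : ∃ a ∈ s, t a = ∅
    · obtain ⟨a, ha, hta⟩ := hex
      have h1 : Set.pi (↑s : Set A) t = ∅ := by
        rw [Set.pi_eq_empty_iff']
        exact ⟨a, ha, hta⟩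
      rw [h1, Finset.prod_eq_zero ha (by simp [hta])]
      simp
    · push Not at hex
      set s' : Finset A := s.filter fun a => t a ≠ univ with hs'
      -- on `s'` the sets are singletons
      have hsing : ∀ a ∈ s', ∃ b : Bool, t a = {b} := by
        intro a ha
        rw [hs', Finset.mem_filter] at ha
        obtain ⟨b, hb⟩ := hex a ha.1
        refine ⟨b, ?_⟩
        ext c
        simp only [mem_singleton_iff]
        constructor
        · intro hc
          by_contra hcb
          apply ha.2
          rw [eq_univ_iff_forall]
          intro d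
          have : d = b ∨ d = c := by
            cases d <;> cases b <;> cases c <;> simp_all
          rcases this with rfl | rfl
          · exact hb
          · exact hc
        · rintro rfl; exact hb
      choose! b hb using hsing
      have hset : phi R ⁻¹' (Set.pi (↑s : Set A) t) ∩ E =
          E ∩ ⋂ a ∈ s', if b a = true then R a else (R a)ᶜ := by
        rw [inter_comm]
        congr 1
        ext ω
        simp only [mem_preimage, Set.mem_pi, mem_iInter, Finset.mem_coe]
        constructor
        · intro h a ha
          have ha' := (Finset.mem_filter.1 ha)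
          have := h a ha'.1
          rw [hb a ha, mem_singleton_iff] at this
          by_cases hba : b a = true
          · rw [if_pos hba]
            rw [hba] at this
            simpa [phi] using this
          · rw [if_neg hba]
            rw [Bool.not_eq_true] at hba
            rw [hba] at this
            simpa [phi] using this
        · intro h a ha
          by_cases hta : t a = univ
          · rw [hta]; trivial
          · have ha' : a ∈ s' := Finset.mem_filter.2 ⟨ha, hta⟩
            have := h a ha'
            rw [hb a ha', mem_singleton_iff]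
            by_cases hba : b a = true
            · rw [if_pos hba] at this
              rw [hba]
              simpa [phi] using this
            · rw [if_neg hba] at this
              rw [Bool.not_eq_true] at hba
              rw [hba]
              simpa [phi] using this
      rw [hset, hI]
      have hprod : ∏ i ∈ s, coin (t i) = (2⁻¹ : ℝ≥0∞) ^ s'.card := by
        have h2 : ∏ i ∈ s, coin (t i) = ∏ i ∈ s', coin (t i) := by
          rw [hs', Finset.prod_filter]
          refine Finset.prod_congr rfl fun a _ => ?_
          by_cases hta : t a = univ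
          · rw [if_neg (not_not.2 hta), hta, measure_univ]
          · rw [if_pos hta]
        rw [h2, Finset.prod_congr rfl (fun a ha => by rw [hb a ha, coin_single]),
          Finset.prod_const]
      rw [hprod, mul_comm, mul_assoc, ENNReal.mul_inv_cancel h0.ne' h1.ne, mul_one]
  rw [← key, smul_smul, ENNReal.mul_inv_cancel h0.ne' h1.ne, one_smul]

end IndAux

open IndAux in
/-- (Ind) Independent halving sets give a copy of `L¹({0,1}^A)`. -/
theorem sInd.{u} : S_Ind.{u} := by
  intro Ω _ μ A E hH
  obtain ⟨hE, h0, h1, R, hR, hI⟩ := hH
  have hφ : Measurable (phi R) := phi_measurable R hR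
  have hmap := map_phi μ E hE h0 h1 R hR hI
  have hae : ∀ {f g : (A → Bool) → ℝ}, f =ᵐ[coins A] g →
      E.indicator (f ∘ phi R) =ᵐ[μ] E.indicator (g ∘ phi R) := by
    intro f g hfg
    rw [← ae_eq_restrict_iff_indicator_ae_eq hE]
    have h2 : f =ᵐ[(μ.restrict E).map (phi R)] g := by
      rw [hmap]
      exact Measure.ae_smul_measure hfg (μ E)
    exact ae_eq_comp hφ.aemeasurable h2
  have hsm : ∀ f : Lp ℝ 1 (coins A),
      AEStronglyMeasurable (f : (A → Bool) → ℝ) ((μ.restrict E).map (phi R)) := by
    intro f
    rw [hmap]
    exact (Lp.aestronglyMeasurable f).smul_measure _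
  have hnorm : ∀ f : Lp ℝ 1 (coins A),
      eLpNorm (E.indicator (f ∘ phi R)) 1 μ = μ E * eLpNorm f 1 (coins A) := by
    intro f
    rw [eLpNorm_indicator_eq_eLpNorm_restrict hE, ← eLpNorm_map_measure (hsm f) hφ.aemeasurable,
      hmap, eLpNorm_one_smul_measure]
  have hmem : ∀ f : Lp ℝ 1 (coins A), MemLp (E.indicator (f ∘ phi R)) 1 μ := by
    intro f
    refine ⟨?_, ?_⟩
    · rw [aestronglyMeasurable_indicator_iff hE]
      exact (hsm f).comp_measurable hφ
    · rw [hnorm f]
      exact ENNReal.mul_lt_top h1 (Lp.memLp f).2
  let V0 : Lp ℝ 1 (coins A) →ₗ[ℝ] Lp ℝ 1 μ :=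
    { toFun := fun f => (hmem f).toLp _
      map_add' := by
        intro f g
        rw [← MemLp.toLp_add]
        refine MemLp.toLp_congr _ _ ?_
        refine (hae (Lp.coeFn_add f g)).trans (Eventually.of_forall fun ω => ?_)
        by_cases hω : ω ∈ E <;> simp [hω]
      map_smul' := by
        intro c f
        simp only [RingHom.id_apply]
        rw [← MemLp.toLp_const_smul]
        refine MemLp.toLp_congr _ _ ?_
        refine (hae (Lp.coeFn_smul c f)).trans (Eventually.of_forall fun ω => ?_)
        by_cases hω : ω ∈ E <;> simp [hω] }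
  have hV : ∀ f, ‖V0 f‖ = (μ E).toReal * ‖f‖ := by
    intro f
    change ‖(hmem f).toLp _‖ = _
    rw [Lp.norm_toLp, hnorm f, ENNReal.toReal_mul, Lp.norm_def]
  refine ⟨V0.mkContinuous (μ E).toReal fun f => (hV f).le, (μ E).toReal,
    ENNReal.toReal_pos h0.ne' h1.ne, fun f => ?_⟩
  rw [LinearMap.mkContinuous_apply, hV f]

end Pool.Agent.W6h79.LD
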