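import Pool.Agent.W6h79.LD.Defs5

/-! (KC) Doubling a cover. -/

open MeasureTheory Set Filter
open scoped ENNReal NNReal Topology

noncomputable section

namespace Pool.Agent.W6h79.LD

namespace KCx

universe u

variable {Ω : Type u} [MeasurableSpace Ω]

theorem nd {X : Type*} [MeasurableSpace X] (m : Measure X) (a b : X → ℝ) (ha : Integrable a m)
    (hb : Integrable b m) : ‖ha.toL1 a - hb.toL1 b‖ = ∫ x, ‖a x - b x‖ ∂m := by
  rw [← Integrable.toL1_sub _ _ ha hb, L1.norm_eq_integral_norm]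
  apply integral_congr_ae
  filter_upwards [Integrable.coeFn_toL1 (ha.sub hb)] with x hx
  rw [hx]
  simp

theorem int_elim (μ1 μ2 : Measure Ω) (f g : Ω → ℝ) (hf : StronglyMeasurable f)
    (hg : StronglyMeasurable g) (hf1 : Integrable f μ1) (hg1 : Integrable g μ2) :
    Integrable (Sum.elim f g) (μ1.map (Sum.inl : Ω → Ω ⊕ Ω) + μ2.map (Sum.inr : Ω → Ω ⊕ Ω)) := by
  have hm : Measurable (Sum.elim f g) := hf.measurable.sumElim hg.measurable
  rw [integrable_add_measure]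
  constructor
  · rw [integrable_map_measure hm.aestronglyMeasurable measurable_inl.aemeasurable]
    exact hf1
  · rw [integrable_map_measure hm.aestronglyMeasurable measurable_inr.aemeasurable]
    exact hg1

theorem densK {κ : Cardinal.{u}} (hκ : Cardinal.aleph0 ≤ κ) (μ1 μ2 : Measure Ω)
    (h1 : DensLt κ (Lp ℝ 1 μ1)) (h2 : DensLt κ (Lp ℝ 1 μ2)) :
    DensLt κ (Lp ℝ 1 (μ1.map (Sum.inl : Ω → Ω ⊕ Ω) + μ2.map (Sum.inr : Ω → Ω ⊕ Ω))) := by
  obtain ⟨D, hD, hDκ⟩ := h1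
  obtain ⟨D', hD', hDκ'⟩ := h2
  let Φ : D × D' → Lp ℝ 1 (μ1.map (Sum.inl : Ω → Ω ⊕ Ω) + μ2.map (Sum.inr : Ω → Ω ⊕ Ω)) :=
    fun p => (int_elim μ1 μ2 (p.1 : Lp ℝ 1 μ1) (p.2 : Lp ℝ 1 μ2) (Lp.stronglyMeasurable _)
      (Lp.stronglyMeasurable _) (L1.integrable_coeFn _) (L1.integrable_coeFn _)).toL1 _
  refine ⟨Set.range Φ, ?_, ?_⟩
  · rw [Metric.dense_iff]
    intro F ε hε
    have hF : Integrable (F : Ω ⊕ Ω → ℝ) _ := L1.integrable_coeFn F
    have hFm : StronglyMeasurable (F : Ω ⊕ Ω → ℝ) := Lp.stronglyMeasurable F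
    have hF1 : Integrable (fun x => F (Sum.inl x)) μ1 := by
      have := hF.left_of_add_measure
      rwa [integrable_map_measure hFm.aestronglyMeasurable measurable_inl.aemeasurable] at this
    have hF2 : Integrable (fun x => F (Sum.inr x)) μ2 := by
      have := hF.right_of_add_measure
      rwa [integrable_map_measure hFm.aestronglyMeasurable measurable_inr.aemeasurable] at this
    obtain ⟨f, hf, hfd⟩ := hD.exists_dist_lt (hF1.toL1 _) (half_pos hε)
    obtain ⟨g, hg, hgd⟩ := hD'.exists_dist_lt (hF2.toL1 _) (half_pos hε)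
    refine ⟨Φ (⟨f, hf⟩, ⟨g, hg⟩), ?_, Set.mem_range_self _⟩
    have hfi : Integrable (f : Ω → ℝ) μ1 := L1.integrable_coeFn f
    have hgi : Integrable (g : Ω → ℝ) μ2 := L1.integrable_coeFn g
    have hfm : StronglyMeasurable (f : Ω → ℝ) := Lp.stronglyMeasurable f
    have hgm : StronglyMeasurable (g : Ω → ℝ) := Lp.stronglyMeasurable g
    have hE := int_elim μ1 μ2 f g hfm hgm hfi hgi
    have hm : Measurable (Sum.elim (f : Ω → ℝ) g) := hfm.measurable.sumElim hgm.measurable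
    have eF : hF.toL1 F = F := Integrable.toL1_coeFn F hF
    have ef : hfi.toL1 f = f := Integrable.toL1_coeFn f hfi
    have eg : hgi.toL1 g = g := Integrable.toL1_coeFn g hgi
    rw [Metric.mem_ball, dist_eq_norm]
    have e1 : ‖Φ (⟨f, hf⟩, ⟨g, hg⟩) - F‖ = (∫ x, ‖f x - F (Sum.inl x)‖ ∂μ1) +
        ∫ x, ‖g x - F (Sum.inr x)‖ ∂μ2 := by
      have e2 : Φ (⟨f, hf⟩, ⟨g, hg⟩) = hE.toL1 (Sum.elim f g) := rfl
      have e5 : ‖Φ (⟨f, hf⟩, ⟨g, hg⟩) - F‖ = ‖hE.toL1 (Sum.elim f g) - hF.toL1 F‖ := by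
        rw [e2, eF]
      have hmm : Measurable (fun z => ‖Sum.elim (f : Ω → ℝ) g z - F z‖) :=
        (hm.sub hFm.measurable).norm
      have hint : Integrable (fun z => ‖Sum.elim (f : Ω → ℝ) g z - F z‖) _ := (hE.sub hF).norm
      rw [e5, nd _ _ _ hE hF, integral_add_measure hint.left_of_add_measure
        hint.right_of_add_measure, integral_map measurable_inl.aemeasurable
          hmm.aestronglyMeasurable,
        integral_map measurable_inr.aemeasurable hmm.aestronglyMeasurable]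
      rfl
    rw [e1]
    have e3 : (∫ x, ‖f x - F (Sum.inl x)‖ ∂μ1) < ε / 2 := by
      rw [dist_comm, dist_eq_norm, ← ef, nd _ _ _ hfi hF1] at hfd
      exact hfd
    have e4 : (∫ x, ‖g x - F (Sum.inr x)‖ ∂μ2) < ε / 2 := by
      rw [dist_comm, dist_eq_norm, ← eg, nd _ _ _ hgi hF2] at hgd
      exact hgd
    linarith
  · refine Cardinal.mk_range_le.trans_lt ?_
    rw [Cardinal.mk_prod, Cardinal.lift_id, Cardinal.lift_id]
    exact Cardinal.mul_lt_of_lt hκ hDκ hDκ'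

end KCx

universe u

theorem sKC : S_KC.{u} := by
  intro κ hκ Ω _ μ 𝓢 h
  constructor
  · rintro _ (⟨S, hS, rfl⟩ | ⟨S, hS, rfl⟩)
    · exact ⟨measurableSet_inl_image.2 (h.1 S hS).1, by
        show _ < _
        simp only []
        rw [dbl_inl μ S (h.1 S hS).1]; exact (h.1 S hS).2⟩
    · exact ⟨measurableSet_inr_image.2 (h.1 S hS).1, by
        show _ < _
        simp only []
        rw [dbl_inr μ S (h.1 S hS).1]; exact (h.1 S hS).2⟩
  · intro E hE hfin hz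
    have hE1 : MeasurableSet ((Sum.inl : Ω → Ω ⊕ Ω) ⁻¹' E) := measurable_inl hE
    have hE2 : MeasurableSet ((Sum.inr : Ω → Ω ⊕ Ω) ⁻¹' E) := measurable_inr hE
    have hval : (μ.map (Sum.inl : Ω → Ω ⊕ Ω) + μ.map (Sum.inr : Ω → Ω ⊕ Ω)) E =
        μ ((Sum.inl : Ω → Ω ⊕ Ω) ⁻¹' E) + μ ((Sum.inr : Ω → Ω ⊕ Ω) ⁻¹' E) := by
      rw [Measure.add_apply, Measure.map_apply measurable_inl hE,
        Measure.map_apply measurable_inr hE]
    rw [hval] at hfin
    have hf1 : μ ((Sum.inl : Ω → Ω ⊕ Ω) ⁻¹' E) < ∞ := lt_of_le_of_lt le_self_add hfin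
    have hf2 : μ ((Sum.inr : Ω → Ω ⊕ Ω) ⁻¹' E) < ∞ := lt_of_le_of_lt le_add_self hfin
    have hA := h.2 _ hE1 hf1 (by
        intro S hS
        have := hz (Sum.inl '' S) (Or.inl ⟨S, hS, rfl⟩)
        have h3 : Sum.inl '' ((Sum.inl : Ω → Ω ⊕ Ω) ⁻¹' E ∩ S) ⊆ E ∩ Sum.inl '' S := by
          rintro _ ⟨x, ⟨hx1, hx2⟩, rfl⟩
          exact ⟨hx1, x, hx2, rfl⟩
        have h4 := measure_mono_null h3 this
        rwa [dbl_inl μ _ (hE1.inter (h.1 S hS).1)] at h4)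
    have hB := h.2 _ hE2 hf2 (by
        intro S hS
        have := hz (Sum.inr '' S) (Or.inr ⟨S, hS, rfl⟩)
        have h3 : Sum.inr '' ((Sum.inr : Ω → Ω ⊕ Ω) ⁻¹' E ∩ S) ⊆ E ∩ Sum.inr '' S := by
          rintro _ ⟨x, ⟨hx1, hx2⟩, rfl⟩
          exact ⟨hx1, x, hx2, rfl⟩
        have h4 := measure_mono_null h3 this
        rwa [dbl_inr μ _ (hE2.inter (h.1 S hS).1)] at h4)
    have hν : (μ.map (Sum.inl : Ω → Ω ⊕ Ω) + μ.map (Sum.inr : Ω → Ω ⊕ Ω)).restrict E =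
        (μ.restrict ((Sum.inl : Ω → Ω ⊕ Ω) ⁻¹' E)).map Sum.inl +
          (μ.restrict ((Sum.inr : Ω → Ω ⊕ Ω) ⁻¹' E)).map Sum.inr := by
      rw [Measure.restrict_add, Measure.restrict_map measurable_inl hE,
        Measure.restrict_map measurable_inr hE]
    rw [hν]
    exact KCx.densK hκ _ _ hA hB

end Pool.Agent.W6h79.LD
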