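import Pool.Agent.W6h79.LD.Defs6

/-!
# (Mh1) The thick part

Written by helper68.
-/

open MeasureTheory Set Filter
open scoped ENNReal NNReal Topology

namespace Pool.Agent.W6h79.LD

universe u

namespace PMh1

/-- density character less than `κ`, with functions -/
def Pf (κ : Cardinal.{u}) {Ω : Type u} [MeasurableSpace Ω] (μ : Measure Ω) (F : Set Ω) : Prop :=
  ∃ D : Set (Ω → ℝ), Cardinal.mk D < κ ∧ (∀ d ∈ D, Integrable d μ) ∧
    ∀ g : Ω → ℝ, Integrable g μ → ∀ ε : ℝ≥0∞, 0 < ε → ∃ d ∈ D, ∫⁻ ω in F, ‖g ω - d ω‖ₑ ∂μ < ε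

variable {κ : Cardinal.{u}} {Ω : Type u} [MeasurableSpace Ω] {μ : Measure Ω}

theorem dens_pf {F : Set Ω} (hF : MeasurableSet F) (h : DensLt κ (Lp ℝ 1 (μ.restrict F))) :
    Pf κ μ F := by
  obtain ⟨D, hD, hc⟩ := h
  refine ⟨(fun f : Lp ℝ 1 (μ.restrict F) => F.indicator (f : Ω → ℝ)) '' D,
    Cardinal.mk_image_le.trans_lt hc, ?_, ?_⟩
  · rintro _ ⟨f, -, rfl⟩
    rw [integrable_indicator_iff hF]
    exact L1.integrable_coeFn f
  · intro g hg ε hε
    have hgF : Integrable g (μ.restrict F) := hg.restrict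
    obtain ⟨d, hd, hde⟩ := EMetric.mem_closure_iff.1 (hD (hgF.toL1 g)) ε hε
    refine ⟨_, ⟨d, hd, rfl⟩, ?_⟩
    rw [Lp.edist_def, eLpNorm_one_eq_lintegral_enorm] at hde
    refine lt_of_eq_of_lt ?_ hde
    have h1 : ∀ᵐ ω ∂(μ.restrict F), hgF.toL1 g ω = g ω := hgF.coeFn_toL1
    have h2 : ∀ᵐ ω ∂(μ.restrict F), ω ∈ F := ae_restrict_mem hF
    refine lintegral_congr_ae ?_
    filter_upwards [h1, h2] with ω h3 h4
    simp only [Pi.sub_apply]
    rw [h3, indicator_of_mem h4]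

theorem pf_dens {F : Set Ω} (hF : MeasurableSet F) (h : Pf κ μ F) :
    DensLt κ (Lp ℝ 1 (μ.restrict F)) := by
  obtain ⟨D, hc, hi, hD⟩ := h
  refine ⟨range fun d : D => ((hi d d.2).restrict (s := F)).toL1 d.1, ?_,
    Cardinal.mk_range_le.trans_lt hc⟩
  intro f
  refine EMetric.mem_closure_iff.2 fun ε hε => ?_
  have hg : Integrable (F.indicator (f : Ω → ℝ)) μ := by
    rw [integrable_indicator_iff hF]
    exact L1.integrable_coeFn f
  obtain ⟨d, hd, hde⟩ := hD _ hg ε hε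
  refine ⟨_, ⟨⟨d, hd⟩, rfl⟩, ?_⟩
  rw [Lp.edist_def, eLpNorm_one_eq_lintegral_enorm]
  refine lt_of_eq_of_lt ?_ hde
  have h1 := ((hi d hd).restrict (s := F)).coeFn_toL1
  have h2 : ∀ᵐ ω ∂(μ.restrict F), ω ∈ F := ae_restrict_mem hF
  refine lintegral_congr_ae ?_
  filter_upwards [h1, h2] with ω h3 h4
  simp only [Pi.sub_apply]
  rw [h3, indicator_of_mem h4]

theorem pf_null (hκ : Cardinal.aleph0 < κ) {F : Set Ω} (h : μ F = 0) : Pf κ μ F := by
  refine ⟨{fun _ => 0}, ?_, ?_, ?_⟩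
  · rw [Cardinal.mk_singleton]
    exact Cardinal.one_lt_aleph0.trans hκ
  · intro d hd
    rw [mem_singleton_iff] at hd
    rw [hd]
    exact integrable_zero _ _ _
  · intro g _ ε hε
    refine ⟨_, rfl, ?_⟩
    rw [setLIntegral_measure_zero F _ h]
    exact hε

theorem pf_union (hκ : Cardinal.aleph0 < κ) {F G : Set Ω} (hF : MeasurableSet F)
    (hG : MeasurableSet G) (h1 : Pf κ μ F) (h2 : Pf κ μ G) : Pf κ μ (F ∪ G) := by
  obtain ⟨D1, hc1, hi1, hD1⟩ := h1
  obtain ⟨D2, hc2, hi2, hD2⟩ := h2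
  refine ⟨image2 (fun d d' : Ω → ℝ => F.indicator d + Fᶜ.indicator d') D1 D2, ?_, ?_, ?_⟩
  · have h3 : image2 (fun d d' : Ω → ℝ => F.indicator d + Fᶜ.indicator d') D1 D2 =
        (fun p : (Ω → ℝ) × (Ω → ℝ) => F.indicator p.1 + Fᶜ.indicator p.2) '' (D1 ×ˢ D2) := by
      exact (image_prod _).symm
    rw [h3]
    refine Cardinal.mk_image_le.trans_lt ?_
    rw [Cardinal.mk_setProd]
    exact Cardinal.mul_lt_of_lt hκ.le hc1 hc2
  · rintro _ ⟨d, hd, d', hd', rfl⟩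
    exact ((hi1 d hd).indicator hF).add ((hi2 d' hd').indicator hF.compl)
  · intro g hg ε hε
    obtain ⟨d, hd, hde⟩ := hD1 g hg (ε / 2) (ENNReal.half_pos hε.ne')
    obtain ⟨d', hd', hde'⟩ := hD2 g hg (ε / 2) (ENNReal.half_pos hε.ne')
    refine ⟨_, ⟨d, hd, d', hd', rfl⟩, ?_⟩
    have h3 : F ∪ G = F ∪ (G \ F) := by rw [union_sdiff_self]
    rw [h3, lintegral_union (hG.diff hF) disjoint_sdiff_right]
    have h4 : ∫⁻ ω in F, ‖g ω - (F.indicator d + Fᶜ.indicator d') ω‖ₑ ∂μ =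
        ∫⁻ ω in F, ‖g ω - d ω‖ₑ ∂μ := by
      refine setLIntegral_congr_fun hF fun ω hω => ?_
      simp only [Pi.add_apply]
      rw [indicator_of_mem hω, indicator_of_notMem (by simpa using hω), add_zero]
    have h5 : ∫⁻ ω in G \ F, ‖g ω - (F.indicator d + Fᶜ.indicator d') ω‖ₑ ∂μ ≤
        ∫⁻ ω in G, ‖g ω - d' ω‖ₑ ∂μ := by
      refine le_trans (le_of_eq ?_) (lintegral_mono_set (s := G \ F) (t := G) sdiff_subset)
      refine setLIntegral_congr_fun (hG.diff hF) fun ω hω => ?_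
      simp only [Pi.add_apply]
      rw [indicator_of_notMem hω.2, indicator_of_mem (show ω ∈ Fᶜ from hω.2), zero_add]
    rw [h4]
    calc _ < ε / 2 + ε / 2 := ENNReal.add_lt_add hde (h5.trans_lt hde')
      _ = ε := ENNReal.add_halves ε

theorem pf_inc (hκ : Cardinal.aleph0 < κ) (hr : κ.IsRegular) {F : ℕ → Set Ω}
    (hF : ∀ n, MeasurableSet (F n)) (hm : Monotone F) (h : ∀ n, Pf κ μ (F n)) :
    Pf κ μ (⋃ n, F n) := by
  choose D hc hi hD using h
  refine ⟨⋃ i : ULift.{u} ℕ, (fun d : Ω → ℝ => (F i.down).indicator d) '' (D i.down), ?_, ?_, ?_⟩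
  · rw [Cardinal.card_iUnion_lt_iff_forall_of_isRegular hr (by simpa using hκ)]
    intro i
    exact Cardinal.mk_image_le.trans_lt (hc i.down)
  · intro d hd
    obtain ⟨i, d', hd', rfl⟩ := mem_iUnion.1 hd
    exact (hi i.down d' hd').indicator (hF i.down)
  · intro g hg ε hε
    set ν : Measure Ω := μ.withDensity fun ω => ‖g ω‖ₑ with hν
    have hUm : MeasurableSet (⋃ n, F n) := MeasurableSet.iUnion hF
    have hfin : IsFiniteMeasure ν := ⟨by
      rw [hν, withDensity_apply _ MeasurableSet.univ, Measure.restrict_univ]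
      exact hg.2⟩
    have ht : Tendsto (fun n => ν (F n)) atTop (𝓝 (ν (⋃ n, F n))) := tendsto_measure_iUnion_atTop hm
    have hε2 : 0 < ε / 2 := ENNReal.half_pos hε.ne'
    obtain ⟨n, hn⟩ : ∃ n, ν ((⋃ n, F n) \ F n) < ε / 2 := by
      have h1 : Tendsto (fun n => ν (⋃ n, F n) - ν (F n)) atTop (𝓝 0) := by
        have h2 := ENNReal.Tendsto.sub (tendsto_const_nhds (x := ν (⋃ n, F n))) ht
          (Or.inl (measure_ne_top ν _))
        rwa [tsub_self] at h2
      obtain ⟨n, hn⟩ := (h1.eventually (gt_mem_nhds hε2)).exists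
      refine ⟨n, ?_⟩
      rwa [measure_sdiff (subset_iUnion F n) (hF n).nullMeasurableSet (measure_ne_top ν _)]
    obtain ⟨d, hd, hde⟩ := hD n g hg (ε / 2) hε2
    refine ⟨_, mem_iUnion.2 ⟨⟨n⟩, d, hd, rfl⟩, ?_⟩
    have h3 : (⋃ n, F n) = F n ∪ ((⋃ n, F n) \ F n) := by
      rw [union_sdiff_self, union_eq_right.2 (subset_iUnion F n)]
    rw [h3, lintegral_union (hUm.diff (hF n)) disjoint_sdiff_right]
    have h4 : ∫⁻ ω in F n, ‖g ω - (F n).indicator d ω‖ₑ ∂μ = ∫⁻ ω in F n, ‖g ω - d ω‖ₑ ∂μ := by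
      refine setLIntegral_congr_fun (hF n) fun ω hω => ?_
      rw [indicator_of_mem hω]
    have h5 : ∫⁻ ω in (⋃ n, F n) \ F n, ‖g ω - (F n).indicator d ω‖ₑ ∂μ =
        ν ((⋃ n, F n) \ F n) := by
      rw [hν, withDensity_apply _ (hUm.diff (hF n))]
      refine setLIntegral_congr_fun (hUm.diff (hF n)) fun ω hω => ?_
      rw [indicator_of_notMem hω.2, sub_zero]
    rw [h4, h5]
    calc _ < ε / 2 + ε / 2 := ENNReal.add_lt_add hde hn
      _ = ε := ENNReal.add_halves ε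

end PMh1

open PMh1 in
theorem sMh1 : S_Mh1.{u} := by
  intro κ hr hκ Ω _ μ E hE hEf hnot
  set P : Set ℝ≥0∞ := μ '' {F | F ⊆ E ∧ MeasurableSet F ∧ Pf κ μ F} with hP
  have hne : P.Nonempty := ⟨_, ⟨∅, ⟨empty_subset _, MeasurableSet.empty,
    pf_null hκ measure_empty⟩, rfl⟩⟩
  obtain ⟨w, -, hw, hwP⟩ := exists_seq_tendsto_sSup hne (OrderTop.bddAbove P)
  choose F hF hFw using hwP
  have hacc : ∀ n, MeasurableSet (accumulate F n) ∧ Pf κ μ (accumulate F n) := by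
    intro n
    induction n with
    | zero => simpa [accumulate_def] using (hF 0).2
    | succ n ih =>
      rw [accumulate_succ]
      exact ⟨ih.1.union (hF (n + 1)).2.1, pf_union hκ ih.1 (hF (n + 1)).2.1 ih.2 (hF (n + 1)).2.2⟩
  obtain ⟨N, hN⟩ : ∃ N : Set Ω, N = ⋃ n, F n := ⟨_, rfl⟩
  have hNm : MeasurableSet N := by
    rw [hN]
    exact MeasurableSet.iUnion fun n => (hF n).2.1
  have hNE : N ⊆ E := by
    rw [hN]
    exact iUnion_subset fun n => (hF n).1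
  have hNP : Pf κ μ N := by
    rw [hN, ← iUnion_accumulate]
    exact pf_inc hκ hr (fun n => (hacc n).1) monotone_accumulate fun n => (hacc n).2
  have hle : sSup P ≤ μ N := by
    refine le_of_tendsto hw (Eventually.of_forall fun n => ?_)
    rw [← hFw n, hN]
    exact measure_mono (subset_iUnion F n)
  have hNf : μ N ≠ ∞ := ((measure_mono hNE).trans_lt hEf).ne
  refine ⟨E \ N, sdiff_subset, hE.diff hNm, ?_, ?_⟩
  · rw [pos_iff_ne_zero]
    intro h0
    apply hnot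
    refine pf_dens hE ?_
    have h1 : E = N ∪ (E \ N) := by rw [union_sdiff_self, union_eq_right.2 hNE]
    rw [h1]
    exact pf_union hκ hNm (hE.diff hNm) hNP (pf_null hκ h0)
  · intro G hG hGm hGpos hGd
    have h1 : Pf κ μ (N ∪ G) := pf_union hκ hNm hGm hNP (dens_pf hGm hGd)
    have h2 : μ (N ∪ G) ≤ μ N := by
      have h3 : μ (N ∪ G) ∈ P := ⟨N ∪ G, ⟨union_subset hNE (hG.trans sdiff_subset),
        hNm.union hGm, h1⟩, rfl⟩
      exact (le_sSup h3).trans hle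
    have hd : Disjoint N G := by
      rw [Set.disjoint_left]
      intro ω h4 h5
      exact (hG h5).2 h4
    rw [measure_union hd hGm] at h2
    have h4 : μ N + μ G ≤ μ N + 0 := by rwa [add_zero]
    exact hGpos.ne' (le_antisymm ((ENNReal.add_le_add_iff_left hNf).1 h4) zero_le)

end Pool.Agent.W6h79.LD
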