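import Pool.Agent.W6h79.LD.Defs6

open MeasureTheory Set Filter
open scoped ENNReal NNReal Topology

namespace Pool.Agent.W6h79.LD

theorem mh2_hahn {Ω : Type*} {m : MeasurableSpace Ω} (ν ρ : Measure Ω) [IsFiniteMeasure ν]
    [IsFiniteMeasure ρ] (hle : ρ ≤ ν) {B0 : Set Ω} (hB0 : MeasurableSet B0)
    (hlt : ρ B0 < ν B0) : ∃ ε : ℝ≥0, 0 < ε ∧ ∃ E, MeasurableSet E ∧ 0 < ν E ∧
      ∀ A, MeasurableSet A → ρ (A ∩ E) + ε * ν (A ∩ E) ≤ ν (A ∩ E) := by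
  have hsub : ν - ρ ≤ ν := Measure.sub_le
  have hB : 0 < (ν - ρ) B0 := by
    rw [Measure.sub_apply hB0 hle]
    exact tsub_pos_of_lt hlt
  have hns : ¬ (ν - ρ) ⟂ₘ ν := by
    intro hs
    have h0 : ν - ρ = 0 :=
      Measure.eq_zero_of_absolutelyContinuous_of_mutuallySingular hsub.absolutelyContinuous hs
    rw [h0] at hB
    simp at hB
  have : IsFiniteMeasure (ν - ρ) := isFiniteMeasure_of_le ν hsub
  obtain ⟨ε, hε, E, hE, hνE, h⟩ := Measure.exists_positive_of_not_mutuallySingular (ν - ρ) ν hns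
  refine ⟨ε, hε, E, hE, hνE, fun A hA => ?_⟩
  have h1 := h A hA
  rw [Measure.sub_apply (hA.inter hE) hle] at h1
  have h2 : ρ (A ∩ E) ≤ ν (A ∩ E) := hle _
  calc ρ (A ∩ E) + ε * ν (A ∩ E) ≤ ρ (A ∩ E) + (ν (A ∩ E) - ρ (A ∩ E)) := by gcongr
    _ = ν (A ∩ E) := add_tsub_cancel_of_le h2

theorem mh2_max {Ω : Type*} (m m0 : MeasurableSpace Ω) (μ : @Measure Ω m0)
    [@IsFiniteMeasure Ω m0 μ] (hm : m ≤ m0) :
    ∃ R : Set Ω, (MeasurableSet[m0] R ∧ ∀ B, MeasurableSet[m] B → 2 * μ (R ∩ B) ≤ μ B) ∧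
      ∀ R' : Set Ω, (MeasurableSet[m0] R' ∧ ∀ B, MeasurableSet[m] B → 2 * μ (R' ∩ B) ≤ μ B) →
        R ⊆ R' → μ R' ≤ μ R := by
  set P : Set Ω → Prop := fun R => MeasurableSet[m0] R ∧
    ∀ B, MeasurableSet[m] B → 2 * μ (R ∩ B) ≤ μ B with hP
  have hP0 : P ∅ := ⟨@MeasurableSet.empty Ω m0, fun B _ => by simp⟩
  let s : Set Ω → ℝ≥0∞ := fun R => ⨆ (R' : Set Ω) (_ : P R' ∧ R ⊆ R'), μ R'
  have hs : ∀ R, s R ≠ ∞ := by
    intro R
    refine ne_top_of_le_ne_top (measure_ne_top μ univ) ?_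
    exact iSup₂_le fun R' _ => measure_mono (subset_univ _)
  have hle : ∀ R R', P R' → R ⊆ R' → μ R' ≤ s R := fun R R' h1 h2 =>
    le_iSup₂_of_le R' ⟨h1, h2⟩ le_rfl
  have step : ∀ (n : ℕ) (R : {R // P R}), ∃ R' : {R // P R}, R.1 ⊆ R'.1 ∧
      s R.1 ≤ μ R'.1 + ((n : ℝ≥0∞) + 1)⁻¹ := by
    intro n R
    by_contra hcon
    push Not at hcon
    have hε : ((n : ℝ≥0∞) + 1)⁻¹ ≠ 0 := by
      rw [Ne, ENNReal.inv_eq_zero]
      exact ENNReal.add_ne_top.2 ⟨ENNReal.natCast_ne_top n, ENNReal.one_ne_top⟩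
    have h1 : s R.1 ≤ s R.1 - ((n : ℝ≥0∞) + 1)⁻¹ := by
      refine iSup₂_le fun R' h => ?_
      have := (hcon ⟨R', h.1⟩ h.2).le
      exact ENNReal.le_sub_of_add_le_right (by simp) this
    have h2 : s R.1 ≠ 0 := by
      have := hcon R (subset_refl _)
      exact (lt_of_le_of_lt zero_le this).ne'
    exact absurd h1 (not_le.2 (ENNReal.sub_lt_self (hs _) h2 hε))
  choose f hf1 hf2 using step
  let R : ℕ → {R // P R} := fun n => Nat.rec ⟨∅, hP0⟩ (fun n r => f n r) n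
  have hR : ∀ n, R (n + 1) = f n (R n) := fun n => rfl
  have hmono : Monotone fun n => (R n).1 := monotone_nat_of_le_succ fun n => by
    rw [hR]
    exact hf1 n (R n)
  refine ⟨⋃ n, (R n).1, ⟨MeasurableSet.iUnion fun n => (R n).2.1, fun B hB => ?_⟩, ?_⟩
  · rw [iUnion_inter, Monotone.measure_iUnion (fun i j hij => inter_subset_inter_left _ (hmono hij)),
      ENNReal.mul_iSup]
    exact iSup_le fun n => (R n).2.2 B hB
  · intro R' hR' hsub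
    refine ENNReal.le_of_forall_pos_le_add fun ε hε _ => ?_
    obtain ⟨n, hn⟩ := ENNReal.exists_inv_nat_lt (a := (ε : ℝ≥0∞)) (by exact_mod_cast hε.ne')
    have h1 : μ R' ≤ s (R n).1 := hle _ _ hR' ((subset_iUnion (fun n => (R n).1) n).trans hsub)
    have h2 := hf2 n (R n)
    rw [← hR] at h2
    calc μ R' ≤ μ (R (n + 1)).1 + ((n : ℝ≥0∞) + 1)⁻¹ := h1.trans h2
      _ ≤ μ (⋃ n, (R n).1) + ε := by
          refine add_le_add (measure_mono (subset_iUnion (fun n => (R n).1) (n + 1))) ?_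
          refine le_trans ?_ hn.le
          exact ENNReal.inv_le_inv.2 le_self_add

theorem sMh2.{u} (h : S_Mh2a.{u}) : S_Mh2.{u} := by
  intro Ω m m0 μ hm hfin hno
  have := hfin
  obtain ⟨R, ⟨hRm, hR⟩, hmax⟩ := mh2_max m m0 μ hm
  refine ⟨R, hRm, ?_⟩
  by_contra hcon
  push Not at hcon
  obtain ⟨B0, hB0, hne⟩ := hcon
  have hlt : 2 * μ (R ∩ B0) < μ B0 := by
    refine lt_of_le_of_ne (hR B0 hB0) fun he => hne ?_
    rw [← he, ← mul_assoc, ENNReal.inv_mul_cancel (by norm_num) (by norm_num), one_mul]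
  -- the measures on `m`
  have key : ∃ ε : ℝ≥0, 0 < ε ∧ ∃ E, MeasurableSet[m] E ∧ 0 < μ E ∧
      ∀ A, MeasurableSet[m] A → 2 * μ (R ∩ (A ∩ E)) + ε * μ (A ∩ E) ≤ μ (A ∩ E) := by
    have e1 : ∀ A, MeasurableSet[m] A → (μ.trim hm) A = μ A := fun A hA =>
      trim_measurableSet_eq hm hA
    have e2 : ∀ A, MeasurableSet[m] A →
        ((μ.restrict R).trim hm + (μ.restrict R).trim hm) A = 2 * μ (R ∩ A) := by
      intro A hA
      rw [Measure.add_apply, trim_measurableSet_eq hm hA, Measure.restrict_apply (hm _ hA),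
        inter_comm, two_mul]
    have : IsFiniteMeasure (μ.trim hm) := isFiniteMeasure_trim hm
    have : IsFiniteMeasure ((μ.restrict R).trim hm) := isFiniteMeasure_trim hm
    obtain ⟨ε, hε, E, hE, hE0, h1⟩ := @mh2_hahn Ω m (μ.trim hm)
      ((μ.restrict R).trim hm + (μ.restrict R).trim hm) _ _
      (Measure.le_iff.2 fun A hA => by rw [e1 A hA, e2 A hA]; exact hR A hA) B0 hB0
      (by rw [e1 B0 hB0, e2 B0 hB0]; exact hlt)
    refine ⟨ε, hε, E, hE, by rwa [e1 E hE] at hE0, fun A hA => ?_⟩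
    have := h1 A hA
    rwa [e1 _ (hA.inter hE), e2 _ (hA.inter hE)] at this
  obtain ⟨ε, hε, E, hE, hE0, hεE⟩ := key
  obtain ⟨n, hn⟩ : ∃ n : ℕ, 2 * (2⁻¹ : ℝ≥0∞) ^ n ≤ ε := by
    have ht : Tendsto (fun n : ℕ => 2 * (2⁻¹ : ℝ≥0∞) ^ n) atTop (𝓝 (2 * 0)) :=
      ENNReal.Tendsto.const_mul (ENNReal.tendsto_pow_atTop_nhds_zero_of_lt_one (by norm_num))
        (Or.inr (by norm_num))
    rw [mul_zero] at ht
    have hε' : (0 : ℝ≥0∞) < ε := by exact_mod_cast hε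
    exact ((ht.eventually (gt_mem_nhds hε')).exists).imp fun n hn => le_of_lt hn
  have hF : 0 < μ (E \ R) := by
    have h1 := hR E hE
    have h2 : μ E ≤ μ (R ∩ E) + μ (E \ R) := by
      calc μ E = μ ((R ∩ E) ∪ (E \ R)) := by rw [inter_comm, inter_union_diff]
        _ ≤ _ := measure_union_le _ _
    by_contra h3
    have h4 : μ (E \ R) = 0 := le_antisymm (not_lt.1 h3) zero_le
    rw [h4, add_zero] at h2
    have h5 : 2 * μ E ≤ μ E := le_trans (by gcongr) h1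
    rw [two_mul] at h5
    have h6 : μ E ≤ 0 := by
      have := (ENNReal.add_le_add_iff_left (measure_ne_top μ E) (b := μ E) (c := 0)).1
        (by simpa using h5)
      exact this
    exact hE0.ne' (le_antisymm h6 zero_le)
  obtain ⟨C, hCF, hCm, hC0, hC⟩ := h Ω m m0 μ hm hfin hno (E \ R) ((hm _ hE).diff hRm) hF n
  have hdisj : Disjoint R C := disjoint_left.2 fun x hx hxC => (hCF hxC).2 hx
  have hR' : MeasurableSet[m0] (R ∪ C) ∧ ∀ B, MeasurableSet[m] B → 2 * μ ((R ∪ C) ∩ B) ≤ μ B := by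
    refine ⟨hRm.union hCm, fun B hB => ?_⟩
    have s1 : (R ∪ C) ∩ B ⊆ (R ∩ (B ∩ E)) ∪ (R ∩ (B \ E)) ∪ (C ∩ (B ∩ E)) := by
      rintro x ⟨hx | hx, hxB⟩
      · by_cases hxE : x ∈ E
        · exact Or.inl (Or.inl ⟨hx, hxB, hxE⟩)
        · exact Or.inl (Or.inr ⟨hx, hxB, hxE⟩)
      · exact Or.inr ⟨hx, hxB, (hCF hx).1⟩
    have s2 : μ ((R ∪ C) ∩ B) ≤ μ (R ∩ (B ∩ E)) + μ (R ∩ (B \ E)) + μ (C ∩ (B ∩ E)) :=
      (measure_mono s1).trans ((measure_union_le _ _).trans (by gcongr; exact measure_union_le _ _))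
    have s3 := hεE B hB
    have s4 := hR (B \ E) (hB.diff hE)
    have s5 := hC (B ∩ E) (hB.inter hE)
    have s6 : μ (B ∩ E) + μ (B \ E) = μ B := measure_inter_add_diff B (hm _ hE)
    calc 2 * μ ((R ∪ C) ∩ B) ≤ 2 * (μ (R ∩ (B ∩ E)) + μ (R ∩ (B \ E)) + μ (C ∩ (B ∩ E))) := by
          gcongr
      _ = 2 * μ (R ∩ (B ∩ E)) + 2 * μ (C ∩ (B ∩ E)) + 2 * μ (R ∩ (B \ E)) := by ring
      _ ≤ 2 * μ (R ∩ (B ∩ E)) + 2 * ((2⁻¹ : ℝ≥0∞) ^ n * μ (B ∩ E)) + μ (B \ E) := by gcongr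
      _ = 2 * μ (R ∩ (B ∩ E)) + (2 * (2⁻¹ : ℝ≥0∞) ^ n) * μ (B ∩ E) + μ (B \ E) := by ring
      _ ≤ 2 * μ (R ∩ (B ∩ E)) + ε * μ (B ∩ E) + μ (B \ E) := by gcongr
      _ ≤ μ (B ∩ E) + μ (B \ E) := by gcongr
      _ = μ B := s6
  have h7 := hmax (R ∪ C) hR' subset_union_left
  rw [measure_union hdisj hCm] at h7
  have h8 : μ C ≤ 0 := by
    have := (ENNReal.add_le_add_iff_left (measure_ne_top μ R) (b := μ C) (c := 0)).1
      (by simpa using h7)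
    exact this
  exact hC0.ne' (le_antisymm h8 zero_le)

end Pool.Agent.W6h79.LD
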