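import Pool.Agent.W6h79.LD.Defs6

/-!
# (Mh2a) Small pieces
-/

open MeasureTheory Set
open scoped ENNReal

universe u

namespace Pool.Agent.W6h79.LD

/-- (Mh2a) -/
theorem sMh2a : S_Mh2a.{u} := by
  intro Ω m m0 μ hm hfin hN F hF hF0 n
  induction n with
  | zero =>
    refine ⟨F, subset_rfl, hF, hF0, fun B _ => ?_⟩
    rw [pow_zero, one_mul]
    exact measure_mono inter_subset_right
  | succ n ih =>
    obtain ⟨C₀, hC₀F, hC₀, hC₀0, hC₀B⟩ := ih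
    obtain ⟨C, hCC₀, hC, hCB⟩ := hN C₀ hC₀ hC₀0
    obtain ⟨H, hH, hH1, hH2⟩ := @hahn_decomposition Ω m ((μ.restrict C).trim hm)
      ((μ.restrict (C₀ \ C)).trim hm) inferInstance inferInstance
    have e1 : ∀ B, MeasurableSet[m] B → (μ.restrict C).trim hm B = μ (C ∩ B) := by
      intro B hB
      rw [trim_measurableSet_eq hm hB, Measure.restrict_apply (hm B hB), inter_comm]
    have e2 : ∀ B, MeasurableSet[m] B →
        (μ.restrict (C₀ \ C)).trim hm B = μ ((C₀ \ C) ∩ B) := by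
      intro B hB
      rw [trim_measurableSet_eq hm hB, Measure.restrict_apply (hm B hB), inter_comm]
    -- the two halves of `C₀`
    have e3 : ∀ B, MeasurableSet[m] B → μ (C ∩ B) + μ ((C₀ \ C) ∩ B) = μ (C₀ ∩ B) := by
      intro B hB
      have h1 : C₀ ∩ B = (C ∩ B) ∪ ((C₀ \ C) ∩ B) := by
        rw [← union_inter_distrib_right, union_diff_cancel hCC₀]
      rw [h1, measure_union _ ((hC₀.diff hC).inter (hm B hB))]
      exact (disjoint_sdiff_right.mono inter_subset_left inter_subset_left)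
    set D : Set Ω := ((C₀ \ C) ∩ H) ∪ (C \ H) with hD
    have hDm : MeasurableSet D :=
      ((hC₀.diff hC).inter (hm H hH)).union (hC.diff (hm H hH))
    refine ⟨D, ?_, hDm, ?_, ?_⟩
    · rintro x (hx | hx)
      · exact hC₀F hx.1.1
      · exact hC₀F (hCC₀ hx.1)
    · have h1 : symmDiff C (H ∩ C₀) = D := by
        ext x
        rw [mem_symmDiff, hD]
        constructor
        · rintro (⟨h1, h2⟩ | ⟨⟨h1, h2⟩, h3⟩)
          · exact Or.inr ⟨h1, fun h => h2 ⟨h, hCC₀ h1⟩⟩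
          · exact Or.inl ⟨⟨h2, h3⟩, h1⟩
        · rintro (⟨⟨h1, h2⟩, h3⟩ | ⟨h1, h2⟩)
          · exact Or.inr ⟨⟨h3, h1⟩, h2⟩
          · exact Or.inl ⟨h1, fun h => h2 h.1⟩
      rw [← h1]
      exact hCB H hH
    · intro B hB
      have hBH : MeasurableSet[m] (B ∩ H) := @MeasurableSet.inter Ω m B H hB hH
      have hBH' : MeasurableSet[m] (B \ H) := @MeasurableSet.diff Ω m B H hB hH
      have h1 : μ ((C₀ \ C) ∩ (B ∩ H)) ≤ μ (C ∩ (B ∩ H)) := by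
        have := hH1 _ hBH inter_subset_right
        rwa [e1 _ hBH, e2 _ hBH] at this
      have h2 : μ (C ∩ (B \ H)) ≤ μ ((C₀ \ C) ∩ (B \ H)) := by
        have := hH2 _ hBH' (fun x hx => hx.2)
        rwa [e1 _ hBH', e2 _ hBH'] at this
      have h3 : 2 * μ ((C₀ \ C) ∩ (B ∩ H)) ≤ (2⁻¹ : ℝ≥0∞) ^ n * μ (B ∩ H) := by
        rw [two_mul]
        calc μ ((C₀ \ C) ∩ (B ∩ H)) + μ ((C₀ \ C) ∩ (B ∩ H))
            ≤ μ (C ∩ (B ∩ H)) + μ ((C₀ \ C) ∩ (B ∩ H)) := by gcongr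
          _ = μ (C₀ ∩ (B ∩ H)) := e3 _ hBH
          _ ≤ _ := hC₀B _ hBH
      have h4 : 2 * μ (C ∩ (B \ H)) ≤ (2⁻¹ : ℝ≥0∞) ^ n * μ (B \ H) := by
        rw [two_mul]
        calc μ (C ∩ (B \ H)) + μ (C ∩ (B \ H))
            ≤ μ (C ∩ (B \ H)) + μ ((C₀ \ C) ∩ (B \ H)) := by gcongr
          _ = μ (C₀ ∩ (B \ H)) := e3 _ hBH'
          _ ≤ _ := hC₀B _ hBH'
      have h5 : μ (D ∩ B) ≤ μ ((C₀ \ C) ∩ (B ∩ H)) + μ (C ∩ (B \ H)) := by
        refine (measure_mono ?_).trans (measure_union_le _ _)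
        rintro x ⟨(⟨hx1, hx2⟩ | ⟨hx1, hx2⟩), hxB⟩
        · exact Or.inl ⟨hx1, hxB, hx2⟩
        · exact Or.inr ⟨hx1, hxB, hx2⟩
      have h6 : 2 * μ (D ∩ B) ≤ (2⁻¹ : ℝ≥0∞) ^ n * μ B := by
        calc 2 * μ (D ∩ B) ≤ 2 * (μ ((C₀ \ C) ∩ (B ∩ H)) + μ (C ∩ (B \ H))) := by gcongr
          _ = 2 * μ ((C₀ \ C) ∩ (B ∩ H)) + 2 * μ (C ∩ (B \ H)) := by rw [mul_add]
          _ ≤ (2⁻¹ : ℝ≥0∞) ^ n * μ (B ∩ H) + (2⁻¹ : ℝ≥0∞) ^ n * μ (B \ H) := by gcongr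
          _ = (2⁻¹ : ℝ≥0∞) ^ n * μ B := by
            rw [← mul_add, measure_inter_add_diff B (hm H hH)]
      calc μ (D ∩ B) = 2⁻¹ * (2 * μ (D ∩ B)) := by
            rw [← mul_assoc, ENNReal.inv_mul_cancel two_ne_zero ENNReal.ofNat_ne_top, one_mul]
        _ ≤ 2⁻¹ * ((2⁻¹ : ℝ≥0∞) ^ n * μ B) := by gcongr
        _ = (2⁻¹ : ℝ≥0∞) ^ (n + 1) * μ B := by rw [pow_succ, ← mul_assoc, mul_comm (2⁻¹ : ℝ≥0∞)]

end Pool.Agent.W6h79.LD
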