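import Pool.Agent.W6h79.LD.Defs6

/-!
# MP_3844f5_an, part 4, (Mh3): few sets do not generate a thick measure
-/

open MeasureTheory Set Filter
open scoped ENNReal NNReal Topology

noncomputable section

namespace Pool.Agent.W6h79.LD

namespace PMh3

universe u

/-- the shapes of the terms -/
def Br (X : Type u) : X ⊕ Fin 3 → Type
  | .inl _ => Empty
  | .inr i => Fin (i : ℕ)

instance (X : Type u) (a : X ⊕ Fin 3) : Finite (Br X a) := by
  cases a with
  | inl x => exact inferInstanceAs (Finite Empty)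
  | inr i => exact inferInstanceAs (Finite (Fin (i : ℕ)))

/-- the value of a term -/
def ev {Ω : Type u} (𝒞 : Set (Set Ω)) : WType (Br 𝒞) → Set Ω
  | ⟨.inl x, _⟩ => x.1
  | ⟨.inr i, f⟩ => if i = 1 then (⋃ j, ev 𝒞 (f j))ᶜ else ⋃ j, ev 𝒞 (f j)

theorem sub_range {Ω : Type u} (𝒞 : Set (Set Ω)) : generateSetAlgebra 𝒞 ⊆ range (ev 𝒞) := by
  intro s hs
  induction hs with
  | base s hs => exact ⟨⟨.inl ⟨s, hs⟩, fun j => j.elim⟩, by rw [ev]⟩
  | empty =>
    refine ⟨⟨.inr 0, fun j => Fin.elim0 j⟩, ?_⟩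
    rw [ev, if_neg (by decide)]
    ext x
    simp only [mem_iUnion, mem_empty_iff_false, iff_false]
    rintro ⟨j, _⟩
    exact Fin.elim0 j
  | compl s _ ih =>
    obtain ⟨w, hw⟩ := ih
    refine ⟨⟨.inr 1, fun _ => w⟩, ?_⟩
    rw [ev, if_pos rfl]
    congr 1
    ext x
    simp only [mem_iUnion, hw]
    exact ⟨fun ⟨_, h⟩ => h, fun h => ⟨(0 : Fin 1), h⟩⟩
  | union s t _ _ ihs iht =>
    obtain ⟨w, hw⟩ := ihs
    obtain ⟨v, hv⟩ := iht
    let g : Fin 2 → WType (Br 𝒞) := fun j => if j = 0 then w else v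
    have hev : ∀ f : Br 𝒞 (.inr 2) → WType (Br 𝒞), ev 𝒞 ⟨.inr 2, f⟩ = ⋃ j, ev 𝒞 (f j) := by
      intro f
      rw [ev, if_neg (by decide)]
    refine ⟨⟨.inr 2, g⟩, (hev g).trans ?_⟩
    change (⋃ j : Fin 2, ev 𝒞 (g j)) = s ∪ t
    ext x
    simp only [mem_iUnion, mem_union]
    constructor
    · rintro ⟨j, hj⟩
      by_cases h : j = 0
      · rw [show g j = w from if_pos h, hw] at hj
        exact Or.inl hj
      · rw [show g j = v from if_neg h, hv] at hj
        exact Or.inr hj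
    · rintro (h | h)
      · refine ⟨0, ?_⟩
        rw [show g 0 = w from if_pos rfl, hw]
        exact h
      · refine ⟨1, ?_⟩
        rw [show g 1 = v from if_neg (by decide), hv]
        exact h

theorem card_alg {Ω : Type u} (𝒞 : Set (Set Ω)) (κ : Cardinal.{u}) (hκ : Cardinal.aleph0 < κ)
    (hC : Cardinal.mk 𝒞 < κ) : Cardinal.mk (generateSetAlgebra 𝒞) < κ := by
  have h1 : Cardinal.mk (generateSetAlgebra 𝒞) ≤ Cardinal.mk (WType (Br 𝒞)) :=
    (Cardinal.mk_le_mk_of_subset (sub_range 𝒞)).trans Cardinal.mk_range_le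
  have h2 := WType.cardinalMk_le_max_aleph0_of_finite' (β := Br 𝒞)
  refine (h1.trans h2).trans_lt (max_lt ?_ hκ)
  rw [Cardinal.lift_id', Cardinal.mk_sum]
  refine Cardinal.add_lt_of_lt hκ.le ?_ ?_
  · simpa using hC
  · refine lt_of_lt_of_le ?_ hκ.le
    simp

section

variable {Ω : Type u} [m0 : MeasurableSpace Ω] (ν : Measure Ω) [IsFiniteMeasure ν]
  {𝒜 : Set (Set Ω)} (h𝒜 : ν.MeasureDense 𝒜)

/-- rational combinations of indicators -/
def Phi (h𝒜 : ν.MeasureDense 𝒜) (L : List (𝒜 × ℚ)) : Lp ℝ 1 ν :=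
  (L.map fun x => indicatorConstLp 1 (h𝒜.measurable x.1.1 x.1.2) (measure_ne_top ν _)
    (x.2 : ℝ)).sum

theorem dense_Phi : Dense (range (Phi ν h𝒜)) := by
  let M : AddSubmonoid (Lp ℝ 1 ν) :=
    { carrier := range (Phi ν h𝒜)
      zero_mem' := ⟨[], rfl⟩
      add_mem' := by
        rintro _ _ ⟨L, rfl⟩ ⟨L', rfl⟩
        exact ⟨L ++ L', by simp [Phi]⟩ }
  have : Fact ((1 : ℝ≥0∞) ≠ ∞) := ⟨by simp⟩
  have hM : ∀ f : Lp ℝ 1 ν, f ∈ M.topologicalClosure := by
    refine Lp.induction (by simp) _ ?_ ?_ ?_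
    · intro c s hs hμs
      have hcont : Continuous fun c : ℝ => indicatorConstLp (μ := ν) 1 hs hμs.ne c := by
        have hl : LipschitzWith (Real.toNNReal (ν.real s)) fun c : ℝ =>
            indicatorConstLp (μ := ν) 1 hs hμs.ne c := by
          refine LipschitzWith.of_dist_le_mul fun a b => ?_
          rw [dist_eq_norm, indicatorConstLp_sub, Real.coe_toNNReal _ measureReal_nonneg,
            dist_eq_norm]
          refine norm_indicatorConstLp_le.trans (le_of_eq ?_)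
          simp [mul_comm]
        exact hl.continuous
      have hcl : IsClosed {c : ℝ | indicatorConstLp (μ := ν) 1 hs hμs.ne c ∈
          (M.topologicalClosure : Set (Lp ℝ 1 ν))} :=
        M.isClosed_topologicalClosure.preimage hcont
      have hq : ∀ q : ℚ, (q : ℝ) ∈ {c : ℝ | indicatorConstLp (μ := ν) 1 hs hμs.ne c ∈
          (M.topologicalClosure : Set (Lp ℝ 1 ν))} := by
        intro q
        have h := h𝒜.indicatorConstLp_subset_closure 1 (q : ℝ) ⟨s, hs, hμs.ne, rfl⟩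
        refine closure_mono ?_ h
        rintro _ ⟨t, ht, hμt, rfl⟩
        exact ⟨[(⟨t, ht⟩, q)], by simp [Phi]⟩
      have := (Rat.denseRange_cast (𝕜 := ℝ)).induction_on (p := fun c : ℝ => c ∈ {c : ℝ |
        indicatorConstLp (μ := ν) 1 hs hμs.ne c ∈ (M.topologicalClosure : Set (Lp ℝ 1 ν))})
        c hcl hq
      exact this
    · intro f g hf hg _ h1 h2
      exact M.topologicalClosure.add_mem h1 h2
    · exact M.isClosed_topologicalClosure
  intro f
  exact hM f

theorem card_Phi (κ : Cardinal.{u}) (hκ : Cardinal.aleph0 < κ) (h : Cardinal.mk 𝒜 < κ) :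
    Cardinal.mk (range (Phi ν h𝒜)) < κ := by
  refine Cardinal.mk_range_le.trans_lt ((Cardinal.mk_list_le_max _).trans_lt (max_lt hκ ?_))
  rw [Cardinal.mk_prod]
  refine Cardinal.mul_lt_of_lt hκ.le ?_ ?_
  · simpa using h
  · simpa using hκ

end

end PMh3

open PMh3 in
theorem sMh3.{u} : S_Mh3.{u} := by
  intro κ hκ Ω m0 μ hfin hthick 𝒞 hC hcard
  by_contra hN
  unfold Nowhere at hN
  push Not at hN
  obtain ⟨F, hF, hF0, hFC⟩ := hN
  refine hthick F hF hF0 ?_
  set 𝒜 := generateSetAlgebra 𝒞 with h𝒜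
  have halg : IsSetAlgebra 𝒜 := isSetAlgebra_generateSetAlgebra
  have hgen : MeasurableSpace.generateFrom 𝒞 = MeasurableSpace.generateFrom 𝒜 :=
    generateFrom_generateSetAlgebra_eq.symm
  have hm : MeasurableSpace.generateFrom 𝒞 ≤ m0 := MeasurableSpace.generateFrom_le hC
  have hft : @IsFiniteMeasure Ω (MeasurableSpace.generateFrom 𝒞) (μ.trim hm) :=
    isFiniteMeasure_trim hm
  have hd := @Measure.MeasureDense.of_generateFrom_isSetAlgebra_finite Ω
    (MeasurableSpace.generateFrom 𝒞) (μ.trim hm) 𝒜 hft halg hgen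
  have hmt : ∀ t ∈ 𝒜, MeasurableSet[MeasurableSpace.generateFrom 𝒞] t := fun t ht =>
    @Measure.MeasureDense.measurable Ω (MeasurableSpace.generateFrom 𝒞) (μ.trim hm) 𝒜 hd t ht
  have hD : (μ.restrict F).MeasureDense 𝒜 := by
    refine ⟨fun t ht => hm _ (hmt t ht), fun s hs _ ε hε => ?_⟩
    obtain ⟨B, hB, hB0⟩ := hFC (s ∩ F) inter_subset_right (hs.inter hF)
    obtain ⟨t, ht, htε⟩ := @Measure.MeasureDense.approx Ω (MeasurableSpace.generateFrom 𝒞)
      (μ.trim hm) 𝒜 hd B hB (@measure_ne_top Ω (MeasurableSpace.generateFrom 𝒞) (μ.trim hm) hft B)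
      ε hε
    refine ⟨t, ht, ?_⟩
    rw [trim_measurableSet_eq hm (@MeasurableSet.symmDiff Ω (MeasurableSpace.generateFrom 𝒞)
      B t hB (hmt t ht))] at htε
    have hB0' : μ (symmDiff (s ∩ F) (B ∩ F)) = 0 := by simpa using hB0
    rw [Measure.restrict_apply (hs.symmDiff (hm _ (hmt t ht)))]
    calc μ (symmDiff s t ∩ F) ≤ μ (symmDiff (s ∩ F) (B ∩ F) ∪ symmDiff B t) := by
          refine measure_mono ?_
          rintro x ⟨hx, hxF⟩
          simp only [mem_symmDiff, mem_union, mem_inter_iff] at hx ⊢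
          tauto
      _ ≤ μ (symmDiff (s ∩ F) (B ∩ F)) + μ (symmDiff B t) := measure_union_le _ _
      _ = μ (symmDiff B t) := by rw [hB0', zero_add]
      _ < ENNReal.ofReal ε := htε
  exact ⟨range (Phi (μ.restrict F) hD), dense_Phi (μ.restrict F) hD,
    card_Phi (μ.restrict F) hD κ hκ (card_alg 𝒞 κ hκ hcard)⟩

end Pool.Agent.W6h79.LD
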