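import Pool.Agent.W6h79.LD.I
import Pool.Agent.W6h79.LD.J
import Pool.Agent.W6h79.LD.FinM
import Pool.Agent.W6h79.LD.D1
import Pool.Agent.W6h79.LD.D2
import Pool.Agent.W6h79.LD.D3
import Pool.Agent.W6h79.LD.D4m
import Pool.Agent.W6h79.LD.D4n
import Pool.Agent.W6h79.LD.D4i
import Pool.Agent.W6h79.LD.D4
import Pool.Agent.W6h79.LD.D5
import Pool.Agent.W6h79.LD.DA
import Pool.Agent.W6h79.LD.E1A
import Pool.Agent.W6h79.LD.EA
import Pool.Agent.W6h79.LD.HA0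
import Pool.Agent.W6h79.LD.HA1
import Pool.Agent.W6h79.LD.HA
import Pool.Agent.W6h79.LD.Ind
import Pool.Agent.W6h79.LD.KC
import Pool.Agent.W6h79.LD.Mh1
import Pool.Agent.W6h79.LD.Mh2a
import Pool.Agent.W6h79.LD.Mh2
import Pool.Agent.W6h79.LD.Mh3
import Pool.Agent.W6h79.LD.Mh4

noncomputable section

namespace Pool.Agent.W6h79.LD

theorem hMainK.{u, v} : S_MainK.{u, v} :=
  sMainK (sD5 sD3 (sD4 sD1 sD2 (sD4n sD4m) (sD4i sD4m))) sDA (sEA sE1A) (sHA sHA0 sHA1) sI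

theorem hMah.{u} : S_Mah.{u} := sMah sMh1 (sMh2 sMh2a) sMh3 sMh4

end Pool.Agent.W6h79.LD
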