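import Pool.Agent.W6h79.LD.Defs7
import Pool.Agent.W6h79.LD.FinM

open MeasureTheory Set Filter
open scoped ENNReal NNReal Topology

noncomputable section

namespace Pool.Agent.W6h79.LD

universe u

lemma atomSet_restrict {Ω : Type u} [MeasurableSpace Ω] {μ : Measure Ω} {E A : Set Ω}
    (hA : AtomSet μ A) (hAE : A ⊆ E) : AtomSet (μ.restrict E) A := by
  refine ⟨hA.1, ?_, ?_⟩
  · rw [Measure.restrict_apply hA.1, inter_eq_left.2 hAE]
    exact hA.2.1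
  · intro B hB hBm
    rcases hA.2.2 B hB hBm with h | h
    · left
      exact le_antisymm ((Measure.restrict_apply_le _ _).trans h.le) zero_le
    · right
      exact le_antisymm ((Measure.restrict_apply_le _ _).trans h.le) zero_le

lemma coversK_of_covers (h13 : S_T13.{u}) {κ : Cardinal.{u}} (hκ : Cardinal.aleph0 < κ)
    {Ω : Type u} [MeasurableSpace Ω] {μ : Measure Ω} {𝓢 : Set (Set Ω)} (h : Covers μ 𝓢) :
    CoversK κ μ 𝓢 := by
  refine ⟨h.1, ?_⟩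
  intro E hE hfin hz
  have hfm : IsFiniteMeasure (μ.restrict E) := ⟨by
    rw [Measure.restrict_apply_univ]; exact hfin⟩
  have hsep := h13 Ω (μ.restrict E) hfm (by
    intro F hF hpos
    rw [Measure.restrict_apply hF] at hpos
    obtain ⟨A, hA, hAt⟩ := h.2 (F ∩ E) (hF.inter hE) hpos
      ((measure_mono inter_subset_right).trans_lt hfin) (by
        intro S hS
        refine measure_mono_null ?_ (hz S hS)
        rintro x ⟨⟨-, hx⟩, hx'⟩
        exact ⟨hx, hx'⟩)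
    exact ⟨A, hA.trans inter_subset_left, atomSet_restrict hAt (hA.trans inter_subset_right)⟩)
  obtain ⟨D, hDc, hDd⟩ := hsep.exists_countable_dense
  exact ⟨D, hDd, (Cardinal.mk_le_aleph0_iff.2 hDc.to_subtype).trans_lt hκ⟩

/-- Complete answer for homogeneous measures. -/
theorem fin7 (hK : S_MainK.{u, u}) (hJ : S_J.{u}) (hKC : S_KC.{u}) (hInd : S_Ind.{u})
    (hMah : S_Mah.{u}) (h13 : S_T13.{u}) (h10 : S_T10.{u}) (h11 : S_T11.{u})
    (hK1 : S_K1.{u}) (hK2 : S_K2.{u}) (hCX : S_CX.{u, u})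
    (κ : Cardinal.{u}) (hκ : CInacc κ) (Ω : Type u) [MeasurableSpace Ω]
    (μ : Measure Ω) (hH : Homog κ μ) :
    (IsoToDual ℝ (Lp ℝ 1 μ) ↔
      PurelyAtomic μ ∨ ∀ 𝓢 : Set (Set Ω), Covers μ 𝓢 → 2 ^ κ ≤ Cardinal.mk 𝓢) ∧
    (IsoToDual ℂ (Lp ℂ 1 μ) ↔
      PurelyAtomic μ ∨ ∀ 𝓢 : Set (Set Ω), Covers μ 𝓢 → 2 ^ κ ≤ Cardinal.mk 𝓢) := by
  have hκ0 := aleph0_lt_of_CInacc hκ
  have nec : (IsoToDual ℝ (Lp ℝ 1 μ) ∨ IsoToDual ℂ (Lp ℂ 1 μ)) →
      PurelyAtomic μ ∨ ∀ 𝓢 : Set (Set Ω), Covers μ 𝓢 → 2 ^ κ ≤ Cardinal.mk 𝓢 := by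
    intro hd
    rcases finM hK hJ hKC hInd hMah κ hκ Ω μ hd with h | h
    · left
      intro E hE hpos hfin
      by_contra hno
      push Not at hno
      exact (hH E hE hpos hfin (fun A hA hA' => hno A hA hA')).2 (h E hE hfin)
    · right
      exact fun 𝓢 h𝓢 => h 𝓢 (coversK_of_covers h13 hκ0 h𝓢)
  have suf : (PurelyAtomic μ ∨ ∀ 𝓢 : Set (Set Ω), Covers μ 𝓢 → 2 ^ κ ≤ Cardinal.mk 𝓢) →
      IsoToDual ℝ (Lp ℝ 1 μ) := by
    rintro (h | h)
    · exact suf_atomic hK1 hK2 μ h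
    · have hA : Cardinal.mk κ.out = κ := Cardinal.mk_out κ
      obtain ⟨𝓢, Γ, hc, he⟩ := h11 κ.out (by rw [hA]; exact hκ.1) (by rw [hA]; exact hκ0) Ω μ
        (by rw [hA]; exact hH)
      have hbig := h 𝓢 hc
      have hinf : Infinite 𝓢 := Cardinal.infinite_iff.2
        ((hκ0.le.trans (Cardinal.cantor κ).le).trans hbig)
      obtain ⟨e⟩ := he hinf
      have hAinf : Infinite κ.out := Cardinal.infinite_iff.2 (by rw [hA]; exact hκ0.le)
      obtain ⟨Z, i1, i2, i3, ⟨e2⟩⟩ := h10 κ.out 𝓢 Γ hAinf (by rw [hA]; exact hbig)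
      exact ⟨Z, i1, i2, i3, ⟨e.trans e2⟩⟩
  exact ⟨⟨fun h => nec (Or.inl h), suf⟩, ⟨fun h => nec (Or.inr h), fun h => complexify hCX μ (suf h)⟩⟩

end Pool.Agent.W6h79.LD
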