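import Pool.Agent.W6h79.LD.Defs8
import Pool.Agent.W6h79.LD.Fin7

open MeasureTheory Set Filter
open scoped ENNReal NNReal Topology

noncomputable section

namespace Pool.Agent.W6h79.LD

universe u

/-- The condition of the theorem. -/
def CondAll {Ω : Type u} [MeasurableSpace Ω] (μ : Measure Ω) : Prop :=
  (PurelyAtomic μ ∨ ∀ 𝓢 : Set (Set Ω), Covers μ 𝓢 → Cardinal.continuum ≤ Cardinal.mk 𝓢) ∧
  ∀ κ : Cardinal.{u}, CInacc κ → CondAt κ μ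

/-- Necessity for every measure. -/
theorem nec8 (m2 : S_Main2.{u, u, u}) (m2C : S_Main2C.{u, u, u}) (hK : S_MainK.{u, u})
    (hJ : S_J.{u}) (hKC : S_KC.{u}) (hInd : S_Ind.{u}) (hMah : S_Mah.{u})
    (Ω : Type u) [MeasurableSpace Ω] (μ : Measure Ω)
    (hd : IsoToDual ℝ (Lp ℝ 1 μ) ∨ IsoToDual ℂ (Lp ℂ 1 μ)) : CondAll μ := by
  refine ⟨?_, fun κ hκ => finM hK hJ hKC hInd hMah κ hκ Ω μ hd⟩
  by_cases hcov : ∀ 𝓢 : Set (Set Ω), Covers μ 𝓢 → Cardinal.continuum ≤ Cardinal.mk 𝓢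
  · exact Or.inr hcov
  · push Not at hcov
    obtain ⟨𝓢, hc, hcard⟩ := hcov
    left
    rcases hd with ⟨Z, i1, i2, i3, ⟨e⟩⟩ | ⟨Z, i1, i2, i3, ⟨e⟩⟩
    · exact nec_real m2 μ 𝓢 hc hcard Z e
    · exact nec_complex m2C μ 𝓢 hc hcard Z e

/-- Sufficiency when all types are good. -/
theorem suf8 (h7 : S_W7.{u}) (h8 : S_W8.{u}) (h10 : S_W10.{u}) (h11 : S_W11.{u})
    (hR2 : S_R2.{u}) (hR3 : S_R3.{u}) (hK2 : S_K2.{u}) (hL1 : S_L1.{u, u, 0})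
    (hL5 : S_L5'.{u, u})
    (Ω : Type u) [MeasurableSpace Ω] (μ : Measure Ω) (hg : GoodTypes μ) (hc : CondAll μ) :
    IsoToDual ℝ (Lp ℝ 1 μ) := by
  obtain ⟨𝓔, hM, hhom⟩ := h7 Ω μ
  obtain ⟨e2⟩ := hR2 Ω μ 𝓔 hM
  have hM' := hM
  obtain ⟨hE, hdis, hmax⟩ := hM'
  let p : 𝓔 → Prop := fun E => ¬ AtomSet μ (E : Set Ω)
  obtain ⟨e5⟩ := hL5 𝓔 p (fun E : 𝓔 => Lp ℝ 1 (μ.restrict (E : Set Ω)))
  -- types
  have hex : ∀ i : {E : 𝓔 // ¬ AtomSet μ (E : Set Ω)}, ∃ κ : Cardinal.{u},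
      Cardinal.aleph0 ≤ κ ∧ HomOn κ μ (i.1 : Set Ω) := fun i => hhom i.1 i.1.2 i.2
  choose t ht0 ht using hex
  have hfree : ∀ i : {E : 𝓔 // ¬ AtomSet μ (E : Set Ω)}, ∀ A ⊆ (i.1 : Set Ω), ¬ AtomSet μ A := by
    intro i
    rcases (hE i.1 i.1.2).2.2.2 with h | h
    · exact absurd h i.2
    · exact h
  have hgood : ∀ i, GoodType (t i) := fun i =>
    hg (i.1 : Set Ω) (t i) (hE i.1 i.1.2).1 (hE i.1 i.1.2).2.1 (hE i.1 i.1.2).2.2.1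
      (hfree i) (ht i)
  have hcount := h11 Ω μ 𝓔 hM t ht hgood (hc.1.symm) hc.2
  have hCE : ∀ i : {E : 𝓔 // ¬ AtomSet μ (E : Set Ω)},
      CE (XC (t i).out) (Lp ℝ 1 (μ.restrict (i.1 : Set Ω))) ∧
      CE (Lp ℝ 1 (μ.restrict (i.1 : Set Ω))) (XC (t i).out) := by
    intro i
    have hcard : Cardinal.mk (t i).out = t i := Cardinal.mk_out (t i)
    exact h8 (t i).out (by rw [hcard]; exact hgood i) Ω μ (i.1 : Set Ω) (hE i.1 i.1.2).1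
      (hE i.1 i.1.2).2.1 (hE i.1 i.1.2).2.2.1 (hfree i) (by rw [hcard]; exact ht i)
  obtain ⟨Z, i1, i2, i3, ⟨eZ⟩⟩ := h10 {E : 𝓔 // ¬ AtomSet μ (E : Set Ω)} t
    (fun i => Lp ℝ 1 (μ.restrict (i.1 : Set Ω))) ht0 hCE hcount
  -- atoms
  have hat : ∀ i : {E : 𝓔 // ¬ p E}, Nonempty (Lp ℝ 1 (μ.restrict (i.1 : Set Ω)) ≃ₗᵢ[ℝ] ℝ) :=
    fun i => hR3 Ω μ (i.1 : Set Ω) (not_not.1 i.2) (hE i.1 i.1.2).2.2.1
  obtain ⟨eA⟩ := hL1 {E : 𝓔 // ¬ p E} (fun i => Lp ℝ 1 (μ.restrict (i.1 : Set Ω)))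
    (fun _ => ℝ) hat
  obtain ⟨Y, j1, j2, j3, ⟨eY⟩⟩ := hK2 {E : 𝓔 // ¬ p E}
  refine ⟨Z × Y, inferInstance, inferInstance, inferInstance, ⟨?_⟩⟩
  exact ((e2.toContinuousLinearEquiv.trans e5).trans
    (eZ.prodCongr (eA.trans eY).toContinuousLinearEquiv)).trans
    (ContinuousLinearMap.coprodEquivL (𝕜 := ℝ) (E := Z) (F := Y) (G := ℝ) ℝ)

end Pool.Agent.W6h79.LD
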