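import Pool.Agent.W6h79.LD.Defs7
import Pool.Agent.W6h79.LD.L1

/-!
# Piece (T1): `ℓ¹`-sums of contractively complemented subspaces
-/

open MeasureTheory Set Filter
open scoped ENNReal NNReal Topology

noncomputable section

universe u v w

namespace Pool.Agent.W6h79.LD

open LM in
/-- (T1) -/
theorem sT1 : S_T1.{u, v, w} := by
  intro K X Y _ _ _ _ h
  let i : ∀ k, X k →L[ℝ] Y k := fun k => (h k).choose
  have hi : ∀ k, ∃ P : Y k →L[ℝ] X k, (∀ x, P (i k x) = x) ∧ ‖i k‖ ≤ 1 ∧ ‖P‖ ≤ 1 :=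
    fun k => (h k).choose_spec
  let P : ∀ k, Y k →L[ℝ] X k := fun k => (hi k).choose
  have hP : ∀ k, (∀ x, P k (i k x) = x) ∧ ‖i k‖ ≤ 1 ∧ ‖P k‖ ≤ 1 := fun k => (hi k).choose_spec
  have h1 : ∀ k x, ‖(i k : X k →ₗ[ℝ] Y k) x‖ ≤ 1 * ‖x‖ := fun k x =>
    (i k).le_of_opNorm_le (hP k).2.1 x
  have h2 : ∀ k x, ‖(P k : Y k →ₗ[ℝ] X k) x‖ ≤ 1 * ‖x‖ := fun k x =>
    (P k).le_of_opNorm_le (hP k).2.2 x
  refine ⟨mapL (fun k => (i k : X k →ₗ[ℝ] Y k)) 1 h1,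
    mapL (fun k => (P k : Y k →ₗ[ℝ] X k)) 1 h2, ?_, ?_, ?_⟩
  · intro f
    ext k
    simp [(hP k).1]
  · exact LinearMap.mkContinuous_norm_le _ zero_le_one _
  · exact LinearMap.mkContinuous_norm_le _ zero_le_one _

end Pool.Agent.W6h79.LD
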