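import Pool.Agent.W6h79.LD.Defs2

/-!
# (P5): scaling a measure
-/

open MeasureTheory Set Filter
open scoped ENNReal NNReal Topology

noncomputable section

namespace Pool.Agent.W6h79.LD

theorem sP5.{u} : S_P5.{u} := by
  intro Ω _ μ c hc0 hc
  have hcr : 0 < c.toReal := ENNReal.toReal_pos hc0 hc
  have hae : ∀ {f g : Ω → ℝ}, f =ᵐ[μ] g → f =ᵐ[c • μ] g := fun h => Measure.ae_smul_measure h c
  have hm : ∀ f : Lp ℝ 1 μ, MemLp f 1 (c • μ) := fun f => (Lp.memLp f).smul_measure hc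
  let T₀ : Lp ℝ 1 μ →ₗ[ℝ] Lp ℝ 1 (c • μ) :=
    { toFun := fun f => (hm f).toLp
      map_add' := fun f g => by
        rw [← MemLp.toLp_add]
        exact MemLp.toLp_congr _ _ (hae (Lp.coeFn_add f g))
      map_smul' := fun r f => by
        rw [RingHom.id_apply, ← MemLp.toLp_const_smul]
        exact MemLp.toLp_congr _ _ (hae (Lp.coeFn_smul r f)) }
  have hT₀ : ∀ f, ‖T₀ f‖ = c.toReal * ‖f‖ := by
    intro f
    show ‖(hm f).toLp‖ = _
    rw [Lp.norm_toLp, eLpNorm_one_smul_measure, ENNReal.toReal_mul, Lp.norm_def]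
  let T : Lp ℝ 1 μ →ₗᵢ[ℝ] Lp ℝ 1 (c • μ) :=
    { toLinearMap := (c.toReal)⁻¹ • T₀
      norm_map' := fun f => by
        rw [LinearMap.smul_apply, norm_smul, hT₀, norm_inv, Real.norm_eq_abs, abs_of_pos hcr,
          ← mul_assoc, inv_mul_cancel₀ hcr.ne', one_mul] }
  have hsurj : Function.Surjective T := by
    intro g
    have hg : MemLp g 1 μ := by
      have h1 := (Lp.memLp g).smul_measure (ENNReal.inv_ne_top.2 hc0)
      rwa [smul_smul, ENNReal.inv_mul_cancel hc0 hc, one_smul] at h1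
    refine ⟨c.toReal • hg.toLp, ?_⟩
    have h1 : T₀ hg.toLp = g := by
      refine Lp.ext ?_
      exact (MemLp.coeFn_toLp (hm hg.toLp)).trans (hae (MemLp.coeFn_toLp hg))
    show (c.toReal)⁻¹ • T₀ (c.toReal • hg.toLp) = g
    rw [map_smul, smul_smul, inv_mul_cancel₀ hcr.ne', one_smul, h1]
  exact ⟨LinearIsometryEquiv.ofSurjective T hsurj⟩

end Pool.Agent.W6h79.LD
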