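import Pool.Agent.W6h79.LD.Defs7
import Pool.Agent.W6h79.LD.Ind
import Pool.Agent.W6h79.LD.P5

/-! (T12) of MP_3844f5_an, part 5. -/

open MeasureTheory Set Filter
open scoped ENNReal NNReal Topology

noncomputable section

namespace Pool.Agent.W6h79.LD

namespace T12

theorem CE.trans.{u, v, w} {X : Type u} {Y : Type v} {Z : Type w} [NormedAddCommGroup X]
    [NormedSpace ℝ X] [NormedAddCommGroup Y] [NormedSpace ℝ Y] [NormedAddCommGroup Z]
    [NormedSpace ℝ Z] (h1 : CE X Y) (h2 : CE Y Z) : CE X Z := by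
  obtain ⟨i, P, hP, hi1, hP1⟩ := h1
  obtain ⟨j, Q, hQ, hj1, hQ1⟩ := h2
  refine ⟨j.comp i, P.comp Q, fun x => by simp [hQ, hP], ?_, ?_⟩
  · exact (ContinuousLinearMap.opNorm_comp_le j i).trans
      (mul_le_one₀ hj1 (norm_nonneg _) hi1)
  · exact (ContinuousLinearMap.opNorm_comp_le P Q).trans
      (mul_le_one₀ hP1 (norm_nonneg _) hQ1)

theorem CE.of_equiv.{u, v} {X : Type u} {Y : Type v} [NormedAddCommGroup X]
    [NormedSpace ℝ X] [NormedAddCommGroup Y] [NormedSpace ℝ Y] (e : X ≃ₗᵢ[ℝ] Y) : CE X Y := by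
  refine ⟨(e : X →L[ℝ] Y), (e.symm : Y →L[ℝ] X), fun x => by simp, ?_, ?_⟩
  · refine ContinuousLinearMap.opNorm_le_bound _ zero_le_one fun x => ?_
    simp
  · refine ContinuousLinearMap.opNorm_le_bound _ zero_le_one fun x => ?_
    simp

theorem CE.restrict.{u} {Ω : Type u} [MeasurableSpace Ω] (ν : Measure Ω) {S : Set Ω}
    (hS : MeasurableSet S) : CE (Lp ℝ 1 (ν.restrict S)) (Lp ℝ 1 ν) := by
  have hnorm : ∀ f : Lp ℝ 1 (ν.restrict S), eLpNorm (S.indicator f) 1 ν =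
      eLpNorm f 1 (ν.restrict S) := fun f => by
    rw [eLpNorm_indicator_eq_eLpNorm_restrict hS]
  have hmem : ∀ f : Lp ℝ 1 (ν.restrict S), MemLp (S.indicator f) 1 ν := fun f => by
    refine ⟨?_, ?_⟩
    · rw [aestronglyMeasurable_indicator_iff hS]
      exact Lp.aestronglyMeasurable f
    · rw [hnorm f]
      exact (Lp.memLp f).2
  have hae : ∀ {f g : Ω → ℝ}, f =ᵐ[ν.restrict S] g → S.indicator f =ᵐ[ν] S.indicator g :=
    fun {f g} hfg => by
      rwa [← ae_eq_restrict_iff_indicator_ae_eq hS]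
  let V0 : Lp ℝ 1 (ν.restrict S) →ₗ[ℝ] Lp ℝ 1 ν :=
    { toFun := fun f => (hmem f).toLp _
      map_add' := by
        intro f g
        rw [← MemLp.toLp_add]
        refine MemLp.toLp_congr _ _ ?_
        refine (hae (Lp.coeFn_add f g)).trans (Eventually.of_forall fun ω => ?_)
        by_cases hω : ω ∈ S <;> simp [hω]
      map_smul' := by
        intro c f
        simp only [RingHom.id_apply]
        rw [← MemLp.toLp_const_smul]
        refine MemLp.toLp_congr _ _ ?_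
        refine (hae (Lp.coeFn_smul c f)).trans (Eventually.of_forall fun ω => ?_)
        by_cases hω : ω ∈ S <;> simp [hω] }
  have hV : ∀ f, ‖V0 f‖ = ‖f‖ := by
    intro f
    change ‖(hmem f).toLp _‖ = _
    rw [Lp.norm_toLp, hnorm f, Lp.norm_def]
  refine ⟨V0.mkContinuous 1 fun f => by rw [hV f, one_mul],
    LpToLpRestrictCLM Ω ℝ ℝ ν 1 S, fun f => ?_, ?_, ?_⟩
  · refine Lp.ext ?_
    refine (LpToLpRestrictCLM_coeFn ℝ S _).trans ?_
    have h1 : ((V0 f : Lp ℝ 1 ν) : Ω → ℝ) =ᵐ[ν.restrict S] S.indicator f :=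
      ae_restrict_of_ae (MemLp.coeFn_toLp (hmem f))
    refine h1.trans ?_
    filter_upwards [ae_restrict_mem hS] with ω hω
    simp [hω]
  · exact V0.mkContinuous_norm_le zero_le_one _
  · refine ContinuousLinearMap.opNorm_le_bound _ zero_le_one fun f => ?_
    rw [one_mul]
    exact norm_Lp_toLp_restrict_le S f

end T12

open T12 in
/-- (T12) -/
theorem sT12.{u} (h3 : S_T3.{u, u}) (hM : S_Mah.{u}) : S_T12.{u} := by
  intro A hA hA0 Ω _ μ E hE hE1 hden
  obtain ⟨E', hE'E, hH⟩ := hM A hA hA0 Ω μ E hE hE1 hden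
  obtain ⟨hE', h0, h1, R, hR, hI⟩ := hH
  have hφ := IndAux.phi_measurable R hR
  have hmap := IndAux.map_phi μ E' hE' h0 h1 R hR hI
  have hc0 : (μ E')⁻¹ ≠ 0 := ENNReal.inv_ne_zero.2 h1.ne
  have hc1 : (μ E')⁻¹ ≠ ∞ := ENNReal.inv_ne_top.2 h0.ne'
  have hmp : MeasurePreserving (IndAux.phi R) ((μ E')⁻¹ • μ.restrict E') (coins A) := by
    refine ⟨hφ, ?_⟩
    rw [Measure.map_smul, hmap, smul_smul, ENNReal.inv_mul_cancel h0.ne' h1.ne, one_smul]
  have hfin : IsFiniteMeasure ((μ E')⁻¹ • μ.restrict E') := by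
    refine ⟨?_⟩
    rw [Measure.smul_apply, Measure.restrict_apply_univ, smul_eq_mul]
    exact ENNReal.mul_lt_top hc1.lt_top h1
  have c1 := h3 Ω (A → Bool) _ (coins A) (IndAux.phi R) hfin hmp
  obtain ⟨e⟩ := sP5 Ω (μ.restrict E') (μ E')⁻¹ hc0 hc1
  have c2 := CE.of_equiv e.symm
  have c3 := CE.restrict (μ.restrict E) hE'
  have hres : (μ.restrict E).restrict E' = μ.restrict E' := by
    rw [Measure.restrict_restrict hE', inter_eq_self_of_subset_left hE'E]
  rw [hres] at c3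
  exact CE.trans (CE.trans c1 c2) c3

end Pool.Agent.W6h79.LD
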