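import Pool.Agent.W6h79.LD.Defs7
import Pool.Agent.W6h79.LD.K1

/-!
# (T13) Purely atomic finite measures have separable `L¹`
-/

open MeasureTheory Set Filter
open scoped ENNReal NNReal Topology

noncomputable section

namespace Pool.Agent.W6h79.LD

namespace T13P

open K1 in
/-- (K1) with a countable index set for finite measures -/
theorem k1c.{u} (Ω : Type u) [MeasurableSpace Ω] (μ : Measure Ω) [IsFiniteMeasure μ]
    (hE : ∀ E : Set Ω, MeasurableSet E → 0 < μ E → μ E < ∞ → ∃ A ⊆ E, AtomSet μ A) :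
    ∃ 𝒜 : Set (Set Ω), Countable 𝒜 ∧ Nonempty (Lp ℝ 1 μ ≃ₗᵢ[ℝ] lp (fun _ : 𝒜 => ℝ) 1) := by
  obtain ⟨𝒜, h1, h2, h3⟩ := exists_family μ
  refine ⟨𝒜, ?_, ?_⟩
  · have hdis : Pairwise (Function.onFun (AEDisjoint μ) (fun A : 𝒜 => A.1)) := by
      intro A B hAB
      exact h2 A.1 A.2 B.1 B.2 (fun h => hAB (Subtype.ext h))
    have hcount : Set.Countable {A : 𝒜 | 0 < μ A.1} :=
      Measure.countable_meas_pos_of_disjoint_iUnion₀
        (fun A => ((h1 A.1 A.2).1.1).nullMeasurableSet) hdis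
    have hall : {A : 𝒜 | 0 < μ A.1} = Set.univ := by
      ext A
      simp only [Set.mem_ofPred_eq, Set.mem_univ, iff_true]
      exact (h1 A.1 A.2).1.2.1
    rw [hall] at hcount
    exact Set.countable_univ_iff.1 hcount
  -- the coordinates
  have hint : ∀ (f : Lp ℝ 1 μ), Integrable f μ := fun f => L1.integrable_coeFn f
  have hsm : ∀ (f : Lp ℝ 1 μ), StronglyMeasurable f := fun f => Lp.stronglyMeasurable f
  have hen : ∀ (f : Lp ℝ 1 μ) (A : 𝒜), ‖∫ x in A.1, f x ∂μ‖ₑ = ∫⁻ x in A.1, ‖f x‖ₑ ∂μ := by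
    intro f A
    rw [← ofReal_norm, norm_integral_atom (h1 A.1 A.2).1 (hsm f),
      ofReal_integral_norm_eq_lintegral_enorm (hint f).integrableOn]
  have htsum : ∀ (f : Lp ℝ 1 μ), ∑' A : 𝒜, ‖∫ x in A.1, f x ∂μ‖ₑ = ENNReal.ofReal ‖f‖ := by
    intro f
    simp_rw [hen f]
    rw [tsum_lintegral hE h1 h2 h3 (hsm f) (hint f), L1.norm_eq_integral_norm,
      ofReal_integral_norm_eq_lintegral_enorm (hint f)]
  have hsumm : ∀ (f : Lp ℝ 1 μ), Summable (fun A : 𝒜 => ‖∫ x in A.1, f x ∂μ‖) := by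
    intro f
    have hne : ∑' A : 𝒜, ‖∫ x in A.1, f x ∂μ‖ₑ ≠ ∞ := by rw [htsum]; exact ENNReal.ofReal_ne_top
    have := ENNReal.summable_toReal hne
    simpa using this
  have hnorm : ∀ (f : Lp ℝ 1 μ), ∑' A : 𝒜, ‖∫ x in A.1, f x ∂μ‖ = ‖f‖ := by
    intro f
    have h := htsum f
    have h' : ENNReal.ofReal (∑' A : 𝒜, ‖∫ x in A.1, f x ∂μ‖) = ENNReal.ofReal ‖f‖ := by
      rw [ENNReal.ofReal_tsum_of_nonneg (fun A => norm_nonneg _) (hsumm f), ← h]
      congr 1; funext A; rw [ofReal_norm]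
    have h5 := (ENNReal.ofReal_eq_ofReal_iff (tsum_nonneg fun A => norm_nonneg _)
      (norm_nonneg _)).1 h'
    exact h5
  have hmem : ∀ (f : Lp ℝ 1 μ), Memℓp (fun A : 𝒜 => ∫ x in A.1, f x ∂μ) 1 := by
    intro f
    apply memℓp_gen
    simpa using hsumm f
  let T : Lp ℝ 1 μ →ₗᵢ[ℝ] lp (fun _ : 𝒜 => ℝ) 1 :=
    { toFun := fun f => ⟨fun A : 𝒜 => ∫ x in A.1, f x ∂μ, hmem f⟩
      map_add' := by
        intro f g
        apply lp.ext
        funext A
        simp only [lp.coeFn_add, Pi.add_apply]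
        rw [← integral_add (hint f).integrableOn (hint g).integrableOn]
        apply integral_congr_ae
        exact ae_restrict_of_ae (Lp.coeFn_add f g)
      map_smul' := by
        intro c f
        apply lp.ext
        funext A
        simp only [lp.coeFn_smul, Pi.smul_apply, RingHom.id_apply]
        rw [← integral_smul]
        apply integral_congr_ae
        exact ae_restrict_of_ae (Lp.coeFn_smul c f)
      norm_map' := by
        intro f
        rw [lp.norm_eq_tsum_rpow (by norm_num)]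
        simpa using hnorm f }
  refine ⟨LinearIsometryEquiv.ofSurjective T ?_⟩
  -- surjectivity
  classical
  have hTA : ∀ A : 𝒜, ∃ g : Lp ℝ 1 μ, T g = lp.single 1 A (1 : ℝ) := by
    intro A
    have hA := h1 A.1 A.2
    refine ⟨(μ A.1).toReal⁻¹ • indicatorConstLp 1 hA.1.1 hA.2.ne (1 : ℝ), ?_⟩
    rw [map_smul]
    apply lp.ext
    funext B
    simp only [lp.coeFn_smul, Pi.smul_apply, smul_eq_mul]
    have hval : T (indicatorConstLp 1 hA.1.1 hA.2.ne (1 : ℝ)) B = (μ (A.1 ∩ B.1)).toReal := by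
      show ∫ x in B.1, (indicatorConstLp 1 hA.1.1 hA.2.ne (1 : ℝ)) x ∂μ = _
      rw [integral_congr_ae (ae_restrict_of_ae indicatorConstLp_coeFn),
        integral_indicator hA.1.1, Measure.restrict_restrict hA.1.1]
      simp [Measure.real]
    rw [hval]
    by_cases hAB : A = B
    · subst hAB
      rw [inter_self, lp.single_apply_self]
      apply inv_mul_cancel₀
      exact (ENNReal.toReal_pos hA.1.2.1.ne' hA.2.ne).ne'
    · rw [h2 A.1 A.2 B.1 B.2 (fun h => hAB (Subtype.ext h)), lp.single_apply_ne _ _ _ (Ne.symm hAB)]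
      simp
  intro c
  have hclosed : IsClosed (Set.range T) := T.isometry.isClosedEmbedding.isClosed_range
  have hs : HasSum (fun A : 𝒜 => lp.single 1 A (c A)) c := lp.hasSum_single (by norm_num) c
  have hmemF : ∀ F : Finset 𝒜, ∑ A ∈ F, lp.single (E := fun _ : 𝒜 => ℝ) 1 A (c A) ∈ Set.range T := by
    intro F
    have : ∀ A ∈ F, lp.single (E := fun _ : 𝒜 => ℝ) 1 A (c A) ∈ LinearMap.range T.toLinearMap := by
      intro A _
      obtain ⟨g, hg⟩ := hTA A
      refine ⟨c A • g, ?_⟩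
      show T (c A • g) = _
      rw [map_smul, hg, ← lp.single_smul]
      simp
    have h5 := Submodule.sum_mem _ this
    exact h5
  exact hclosed.mem_of_tendsto hs (Filter.Eventually.of_forall hmemF)

/-- `ℓ¹` of a countable set is separable -/
theorem sep_l1.{u} (Γ : Type u) [Countable Γ] :
    TopologicalSpace.SeparableSpace (lp (fun _ : Γ => ℝ) 1) := by
  classical
  set S : Set (lp (fun _ : Γ => ℝ) 1) :=
    Set.range (fun A : Γ => lp.single (E := fun _ : Γ => ℝ) 1 A (1 : ℝ)) with hS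
  have h1 : TopologicalSpace.IsSeparable S := (Set.countable_range _).isSeparable
  have h2 : TopologicalSpace.IsSeparable (closure (Submodule.span ℝ S : Set (lp (fun _ : Γ => ℝ) 1))) :=
    (TopologicalSpace.IsSeparable.span (R := ℝ) h1).closure
  have h3 : closure (Submodule.span ℝ S : Set (lp (fun _ : Γ => ℝ) 1)) = Set.univ := by
    rw [Set.eq_univ_iff_forall]
    intro c
    have hs : HasSum (fun A : Γ => lp.single 1 A (c A)) c := lp.hasSum_single (by norm_num) c
    refine mem_closure_of_tendsto hs (Filter.Eventually.of_forall ?_)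
    intro F
    apply Submodule.sum_mem
    intro A _
    have : lp.single (E := fun _ : Γ => ℝ) 1 A (c A) =
        c A • lp.single (E := fun _ : Γ => ℝ) 1 A (1 : ℝ) := by
      rw [← lp.single_smul]
      simp
    rw [this]
    exact Submodule.smul_mem _ _ (Submodule.subset_span ⟨A, rfl⟩)
  rw [h3] at h2
  exact TopologicalSpace.isSeparable_univ_iff.1 h2

end T13P

theorem sT13.{u} : S_T13.{u} := by
  intro Ω _ μ hfin hF
  obtain ⟨𝒜, hc, ⟨e⟩⟩ := T13P.k1c Ω μ (fun E hE h _ => hF E hE h)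
  have := T13P.sep_l1 𝒜
  exact (e.symm.surjective.denseRange).separableSpace e.symm.continuous

end Pool.Agent.W6h79.LD
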