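import Pool.Agent.W6h79.LD.Defs7
import Pool.Agent.W6h79.LD.L1p
import Pool.Agent.W6h79.LD.L2
import Pool.Agent.W6h79.LD.L4
import Pool.Agent.W6h79.LD.L5

/-!
# (T2) Pelczynski decomposition
-/

set_option autoImplicit false

open MeasureTheory Set Filter
open scoped ENNReal NNReal Topology

noncomputable section

universe u v

namespace Pool.Agent.W6h79.LD

namespace T2P

/-- a complemented subspace splits off -/
def split {X : Type u} {Y : Type v} [NormedAddCommGroup X] [NormedSpace ℝ X]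
    [NormedAddCommGroup Y] [NormedSpace ℝ Y] (i : X →L[ℝ] Y) (P : Y →L[ℝ] X)
    (h : ∀ x, P (i x) = x) : Y ≃L[ℝ] X × (LinearMap.ker P.toLinearMap) :=
  ContinuousLinearEquiv.equivOfInverse
    (P.prod ((ContinuousLinearMap.id ℝ Y - i.comp P).codRestrict (LinearMap.ker P.toLinearMap)
      (by intro y; simp [h])))
    (i.coprod (LinearMap.ker P.toLinearMap).subtypeL)
    (by intro y; simp)
    (by
      rintro ⟨x, w, hw⟩
      have hw' : P w = 0 := hw
      ext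
      · simp [h, hw']
      · simp [h, hw'])

/-- a sum over one point -/
def one (A : Type u) [NormedAddCommGroup A] [NormedSpace ℝ A] :
    lp (fun _ : Unit => A) 1 ≃ₗᵢ[ℝ] A where
  toFun f := f ()
  invFun a := lp.single 1 () a
  map_add' f g := rfl
  map_smul' c f := rfl
  left_inv f := by
    ext i
    cases i
    simp
  right_inv a := by simp
  norm_map' f := by
    show ‖f ()‖ = ‖f‖
    rw [LM.norm1]
    simp

/-- `ℓ¹(A) = A × ℓ¹(A)` -/
theorem head (A : Type u) [NormedAddCommGroup A] [NormedSpace ℝ A] :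
    Nonempty (lp (fun _ : ℕ => A) 1 ≃L[ℝ] A × lp (fun _ : ℕ => A) 1) := by
  have e : ℕ ≃ Unit ⊕ ℕ := (Equiv.optionEquivSumPUnit ℕ |>.symm.trans
    (Denumerable.eqv (Option ℕ))).symm.trans (Equiv.sumComm ℕ Unit)
  obtain ⟨f⟩ := sL4.{0, 0, u} ℕ (Unit ⊕ ℕ) e A
  obtain ⟨g⟩ := sL5.{0, 0, u} Unit ℕ A
  exact ⟨(f.trans g).trans ((one A).toContinuousLinearEquiv.prodCongr
    (ContinuousLinearEquiv.refl ℝ _))⟩

end T2P

open T2P in
/-- (T2) -/
theorem sT2 : S_T2.{u, v} := by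
  rintro X Y _ _ _ _ _ _ ⟨i, P, hP⟩ ⟨j, Q, hQ⟩ ⟨e⟩
  -- `Y = X × W`, `X = Y × V`
  let eY := split i P hP
  let eX := split j Q hQ
  obtain ⟨a⟩ := sL1p.{0, u, max v u} ℕ X (Y × LinearMap.ker Q.toLinearMap) ⟨eX⟩
  obtain ⟨b⟩ := sL2.{0, v, u} ℕ Y (LinearMap.ker Q.toLinearMap)
  obtain ⟨c⟩ := head Y
  obtain ⟨d⟩ := head X
  -- `X = X × X`
  have hXX : X ≃L[ℝ] X × X :=
    (e.symm.trans d).trans ((ContinuousLinearEquiv.refl ℝ X).prodCongr e)
  -- `X = ℓ¹(Y) × ℓ¹(V)`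
  have f : X ≃L[ℝ] lp (fun _ : ℕ => Y) 1 × lp (fun _ : ℕ => LinearMap.ker Q.toLinearMap) 1 :=
    e.symm.trans (a.trans b)
  -- `X = Y × X`
  have hYX : X ≃L[ℝ] Y × X :=
    (f.trans (c.prodCongr (ContinuousLinearEquiv.refl ℝ _))).trans
      ((ContinuousLinearEquiv.prodAssoc ℝ _ _ _).trans
        ((ContinuousLinearEquiv.refl ℝ Y).prodCongr f.symm))
  -- `X × Y = Y`
  have hXY : (X × Y) ≃L[ℝ] Y :=
    (((ContinuousLinearEquiv.refl ℝ X).prodCongr eY).trans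
      (ContinuousLinearEquiv.prodAssoc ℝ _ _ _).symm).trans
        ((hXX.symm.prodCongr (ContinuousLinearEquiv.refl ℝ _)).trans eY.symm)
  exact ⟨hYX.trans ((ContinuousLinearEquiv.prodComm ℝ _ _).trans hXY)⟩

end Pool.Agent.W6h79.LD

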