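import Pool.Agent.W6h79.LD.Defs7

/-!
# MP_3844f5_an, part 5, (T3): measure preserving maps
-/

open MeasureTheory Set Filter
open scoped ENNReal NNReal Topology

noncomputable section

namespace Pool.Agent.W6h79.LD

namespace PT3

universe u v

variable {Ω : Type u} {Ω' : Type v} [MeasurableSpace Ω] [MeasurableSpace Ω'] {μ : Measure Ω}
  {ν : Measure Ω'} {φ : Ω → Ω'}

theorem exists_h [IsFiniteMeasure μ] (hφ : MeasurePreserving φ μ ν) {g : Ω → ℝ}
    (hg : Integrable g μ) : ∃ h : Ω' → ℝ, Integrable h ν ∧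
      ∀ B, MeasurableSet B → ∫ y in B, h y ∂ν = ∫ x in φ ⁻¹' B, g x ∂μ := by
  have hm := hφ.measurable.comap_le
  obtain ⟨h, hh, he⟩ := (stronglyMeasurable_condExp (μ := μ) (f := g)
    (m := MeasurableSpace.comap φ inferInstance)).exists_eq_measurable_comp
  have hi : Integrable h ν := by
    rw [← hφ.integrable_comp hh.aestronglyMeasurable, ← he]
    exact integrable_condExp
  refine ⟨h, hi, fun B hB => ?_⟩
  have h1 : ∫ y in B, h y ∂ν = ∫ x in φ ⁻¹' B, h (φ x) ∂μ := by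
    conv_lhs => rw [← hφ.map_eq]
    refine setIntegral_map hB ?_ hφ.measurable.aemeasurable
    exact hh.aestronglyMeasurable
  rw [h1, ← setIntegral_condExp hm hg ⟨B, hB, rfl⟩]
  refine setIntegral_congr_fun (hφ.measurable hB) fun x _ => ?_
  exact (congrFun he x).symm

theorem uniq {f g : Ω' → ℝ} (hf : Integrable f ν) (hg : Integrable g ν)
    (h : ∀ B, MeasurableSet B → ∫ y in B, f y ∂ν = ∫ y in B, g y ∂ν) : f =ᵐ[ν] g :=
  Integrable.ae_eq_of_forall_setIntegral_eq f g hf hg fun B hB _ => h B hB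

/-- the projection -/
def pr [IsFiniteMeasure μ] (hφ : MeasurePreserving φ μ ν) (g : Lp ℝ 1 μ) : Lp ℝ 1 ν :=
  (exists_h hφ (L1.integrable_coeFn g)).choose_spec.1.toL1 _

theorem pr_spec [IsFiniteMeasure μ] (hφ : MeasurePreserving φ μ ν) (g : Lp ℝ 1 μ) {B : Set Ω'}
    (hB : MeasurableSet B) : ∫ y in B, pr hφ g y ∂ν = ∫ x in φ ⁻¹' B, g x ∂μ := by
  have h := (exists_h hφ (L1.integrable_coeFn g)).choose_spec
  rw [← h.2 B hB]
  refine setIntegral_congr_ae hB ?_
  filter_upwards [h.1.coeFn_toL1] with x hx _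
  exact hx

theorem ext_L1 {f g : Lp ℝ 1 ν}
    (h : ∀ B, MeasurableSet B → ∫ y in B, f y ∂ν = ∫ y in B, g y ∂ν) : f = g :=
  Lp.ext (uniq (L1.integrable_coeFn f) (L1.integrable_coeFn g) h)

theorem pr_add [IsFiniteMeasure μ] (hφ : MeasurePreserving φ μ ν) (g g' : Lp ℝ 1 μ) :
    pr hφ (g + g') = pr hφ g + pr hφ g' := by
  refine ext_L1 fun B hB => ?_
  have e1 : ∫ y in B, (pr hφ g + pr hφ g' : Lp ℝ 1 ν) y ∂ν =
      ∫ y in B, pr hφ g y ∂ν + ∫ y in B, pr hφ g' y ∂ν := by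
    rw [← integral_add (L1.integrable_coeFn _).integrableOn (L1.integrable_coeFn _).integrableOn]
    refine setIntegral_congr_ae hB ?_
    filter_upwards [Lp.coeFn_add (pr hφ g) (pr hφ g')] with x hx _
    exact hx
  have e2 : ∫ x in φ ⁻¹' B, (g + g' : Lp ℝ 1 μ) x ∂μ =
      ∫ x in φ ⁻¹' B, g x ∂μ + ∫ x in φ ⁻¹' B, g' x ∂μ := by
    rw [← integral_add (L1.integrable_coeFn _).integrableOn (L1.integrable_coeFn _).integrableOn]
    refine setIntegral_congr_ae (hφ.measurable hB) ?_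
    filter_upwards [Lp.coeFn_add g g'] with x hx _
    exact hx
  rw [e1, pr_spec hφ _ hB, pr_spec hφ _ hB, pr_spec hφ _ hB, e2]

theorem pr_smul [IsFiniteMeasure μ] (hφ : MeasurePreserving φ μ ν) (c : ℝ) (g : Lp ℝ 1 μ) :
    pr hφ (c • g) = c • pr hφ g := by
  refine ext_L1 fun B hB => ?_
  have e1 : ∫ y in B, (c • pr hφ g : Lp ℝ 1 ν) y ∂ν = c * ∫ y in B, pr hφ g y ∂ν := by
    rw [← integral_const_mul]
    refine setIntegral_congr_ae hB ?_
    filter_upwards [Lp.coeFn_smul c (pr hφ g)] with x hx _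
    exact hx
  have e2 : ∫ x in φ ⁻¹' B, (c • g : Lp ℝ 1 μ) x ∂μ = c * ∫ x in φ ⁻¹' B, g x ∂μ := by
    rw [← integral_const_mul]
    refine setIntegral_congr_ae (hφ.measurable hB) ?_
    filter_upwards [Lp.coeFn_smul c g] with x hx _
    exact hx
  rw [e1, pr_spec hφ _ hB, pr_spec hφ _ hB, e2]

theorem pr_norm [IsFiniteMeasure μ] (hφ : MeasurePreserving φ μ ν) (g : Lp ℝ 1 μ) :
    ‖pr hφ g‖ ≤ ‖g‖ := by
  set f := pr hφ g with hf
  have hfi : Integrable f ν := L1.integrable_coeFn f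
  have hgi : Integrable g μ := L1.integrable_coeFn g
  rw [L1.norm_eq_integral_norm, L1.norm_eq_integral_norm]
  set S : Set Ω' := {y | 0 ≤ f y} with hS
  have hSm : MeasurableSet S := measurableSet_le measurable_const (Lp.stronglyMeasurable f).measurable
  have hTm : MeasurableSet (φ ⁻¹' S) := hφ.measurable hSm
  rw [← integral_add_compl hSm hfi.norm, ← integral_add_compl hTm hgi.norm]
  have e1 : ∫ y in S, ‖f y‖ ∂ν = ∫ x in φ ⁻¹' S, g x ∂μ := by
    rw [← pr_spec hφ g hSm]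
    refine setIntegral_congr_fun hSm fun y hy => ?_
    exact abs_of_nonneg hy
  have e2 : ∫ y in Sᶜ, ‖f y‖ ∂ν = -∫ x in (φ ⁻¹' S)ᶜ, g x ∂μ := by
    rw [← preimage_compl, ← pr_spec hφ g hSm.compl, ← integral_neg]
    refine setIntegral_congr_fun hSm.compl fun y hy => ?_
    exact abs_of_neg (not_le.1 hy)
  rw [e1, e2]
  refine add_le_add ?_ ?_
  · exact integral_mono hgi.integrableOn hgi.norm.integrableOn fun x => le_abs_self _
  · rw [← integral_neg]
    exact integral_mono hgi.neg.integrableOn hgi.norm.integrableOn fun x => neg_le_abs _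

end PT3

open PT3 in
theorem sT3.{u, v} : S_T3.{u, v} := by
  intro Ω Ω' _ _ μ ν φ hfin hφ
  let i : Lp ℝ 1 ν →L[ℝ] Lp ℝ 1 μ :=
    (Lp.compMeasurePreservingₗᵢ ℝ φ hφ).toContinuousLinearMap
  let P0 : Lp ℝ 1 μ →ₗ[ℝ] Lp ℝ 1 ν :=
    { toFun := pr hφ
      map_add' := pr_add hφ
      map_smul' := fun c g => pr_smul hφ c g }
  let P : Lp ℝ 1 μ →L[ℝ] Lp ℝ 1 ν := P0.mkContinuous 1 fun g => by
    rw [one_mul]
    exact pr_norm hφ g
  refine ⟨i, P, fun f => ?_, LinearIsometry.norm_toContinuousLinearMap_le _,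
    LinearMap.mkContinuous_norm_le _ zero_le_one _⟩
  change pr hφ (Lp.compMeasurePreserving φ hφ f) = f
  refine ext_L1 fun B hB => ?_
  rw [pr_spec hφ _ hB]
  have h1 : ∫ y in B, f y ∂ν = ∫ x in φ ⁻¹' B, f (φ x) ∂μ := by
    have hae : AEStronglyMeasurable (f : Ω' → ℝ) (Measure.map φ μ) := by
      rw [hφ.map_eq]
      exact Lp.aestronglyMeasurable f
    have := setIntegral_map hB hae hφ.measurable.aemeasurable
    rwa [hφ.map_eq] at this
  rw [h1]
  refine setIntegral_congr_ae (hφ.measurable hB) ?_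
  filter_upwards [Lp.coeFn_compMeasurePreserving f hφ] with x hx _
  exact hx

end Pool.Agent.W6h79.LD
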