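import Pool.Agent.W6h79.LD.Defs7
import Pool.Agent.W6h79.LD.P3

/-!
# (T4): coin tosses to the uniform distribution
-/

open MeasureTheory Set Filter ProbabilityTheory
open scoped ENNReal NNReal Topology

noncomputable section

namespace Pool.Agent.W6h79.LD

theorem T4.coin_one (b : Bool) : coin {b} = (2⁻¹ : ℝ≥0∞) := by
  rw [coin, Measure.smul_apply, Measure.count_singleton]
  simp

theorem T4.coins_singleton (z : ℕ → Bool) : coins ℕ {z} = 0 := by
  have h1 : ∀ n : ℕ, coins ℕ {z} ≤ (2⁻¹ : ℝ≥0∞) ^ n := by
    intro n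
    have h2 : coins ℕ (Set.pi (Finset.range n : Set ℕ) (fun i => {z i})) =
        ∏ i ∈ Finset.range n, coin {z i} :=
      Measure.infinitePi_pi (fun _ : ℕ => coin) (fun i _ => measurableSet_singleton _)
    calc coins ℕ {z} ≤ coins ℕ (Set.pi (Finset.range n : Set ℕ) (fun i => {z i})) :=
          measure_mono (by
            intro x hx i _
            rw [Set.mem_singleton_iff.1 hx]
            exact Set.mem_singleton _)
      _ = ∏ i ∈ Finset.range n, coin {z i} := h2
      _ = (2⁻¹ : ℝ≥0∞) ^ n := by
          simp_rw [T4.coin_one]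
          rw [Finset.prod_const, Finset.card_range]
  have h3 : Tendsto (fun n : ℕ => (2⁻¹ : ℝ≥0∞) ^ n) atTop (𝓝 0) :=
    ENNReal.tendsto_pow_atTop_nhds_zero_of_lt_one (by
      rw [ENNReal.inv_lt_one]; exact ENNReal.one_lt_two)
  exact le_antisymm (ge_of_tendsto' h3 h1) zero_le

theorem sT4 : S_T4 := by
  obtain ⟨e, he⟩ := exists_measurableEmbedding_real (ℕ → Bool)
  have hp : IsProbabilityMeasure ((coins ℕ).map e) :=
    Measure.isProbabilityMeasure_map he.measurable.aemeasurable
  have h0 : ∀ x, (coins ℕ).map e {x} = 0 := by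
    intro x
    rw [Measure.map_apply he.measurable (measurableSet_singleton x)]
    by_cases hx : ∃ z, e z = x
    · obtain ⟨z, rfl⟩ := hx
      refine le_antisymm ((measure_mono ?_).trans (T4.coins_singleton z).le) zero_le
      intro y hy
      exact he.injective hy
    · have : e ⁻¹' {x} = ∅ := by
        ext y
        simp only [mem_preimage, mem_singleton_iff, mem_empty_iff_false, iff_false]
        exact fun h => hx ⟨y, h⟩
      rw [this, measure_empty]
  exact ⟨cdf ((coins ℕ).map e) ∘ e,
    (P3.mp_cdf _ h0).comp ⟨he.measurable, rfl⟩⟩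

end Pool.Agent.W6h79.LD
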