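import Pool.Agent.W6h79.LD.Defs7

open MeasureTheory Set Filter
open scoped ENNReal NNReal Topology

noncomputable section

namespace Pool.Agent.W6h79.LD.T5x

variable {A : Type*}

/-- restriction to `S` -/
def rS (S : Set A) (x : A → Bool) : S → Bool := fun b => x b

open Classical in
/-- extension by `false` -/
def sS (S : Set A) (y : S → Bool) : A → Bool := fun b => if h : b ∈ S then y ⟨b, h⟩ else false

theorem meas_rS (S : Set A) : Measurable (rS S) := by unfold rS; fun_prop

theorem meas_sS (S : Set A) : Measurable (sS S) := by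
  refine measurable_pi_lambda _ fun b => ?_
  by_cases h : b ∈ S
  · simp only [sS, h, dif_pos]
    exact measurable_pi_apply _
  · simp only [sS, h, dif_neg, not_false_iff]
    exact measurable_const

theorem sr (S : Set A) (x : A → Bool) (b : A) (hb : b ∈ S) : sS S (rS S x) b = x b := by
  simp [sS, rS, hb]

theorem lint_eq {S : Set A} {Q ν : Measure (A → Bool)} (hP : Q.map (rS S) = ν.map (rS S))
    (g : (A → Bool) → ℝ≥0∞) (hg : Measurable g)
    (hloc : ∀ x y, (∀ b ∈ S, x b = y b) → g x = g y) : ∫⁻ x, g x ∂Q = ∫⁻ x, g x ∂ν := by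
  have e : ∀ μ : Measure (A → Bool), ∫⁻ x, g x ∂μ = ∫⁻ y, g (sS S y) ∂(μ.map (rS S)) := by
    intro μ
    rw [lintegral_map (f := fun y => g (sS S y)) (hg.comp (meas_sS S)) (meas_rS S)]
    exact lintegral_congr fun x => hloc _ _ fun b hb => (sr S x b hb).symm
  rw [e Q, e ν, hP]

theorem ext_of_cyl {S : Set A} {Q ν : Measure (A → Bool)} [IsProbabilityMeasure Q]
    [IsProbabilityMeasure ν]
    (h : ∀ F : Finset A, (∀ b ∈ F, b ∈ S) → ∀ t : A → Set Bool,
      Q (Set.pi F t) = ν (Set.pi F t)) : Q.map (rS S) = ν.map (rS S) := by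
  classical
  have : IsProbabilityMeasure (Q.map (rS S)) :=
    Measure.isProbabilityMeasure_map (meas_rS S).aemeasurable
  have : IsProbabilityMeasure (ν.map (rS S)) :=
    Measure.isProbabilityMeasure_map (meas_rS S).aemeasurable
  refine ext_of_generate_finite _ generateFrom_squareCylinders.symm
    (isPiSystem_squareCylinders (fun i => MeasurableSpace.isPiSystem_measurableSet) (by simp)) ?_
    (by simp)
  intro D hD
  obtain ⟨F, t, ht, rfl⟩ := hD
  have hm : MeasurableSet (Set.pi (F : Set S) t) :=
    MeasurableSet.pi (Finset.countable_toSet F) fun i _ => by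
      have := ht i (mem_univ i)
      exact this
  rw [Measure.map_apply (meas_rS S) hm, Measure.map_apply (meas_rS S) hm]
  have e : rS S ⁻¹' (Set.pi (F : Set S) t) = Set.pi ((F.map (Function.Embedding.subtype _) : Finset A) : Set A)
      (fun b => if h : b ∈ S then t ⟨b, h⟩ else univ) := by
    ext x
    simp only [mem_preimage, Set.mem_pi, Finset.mem_coe, rS, Finset.mem_map,
      Function.Embedding.coe_subtype]
    constructor
    · rintro hx _ ⟨b, hb, rfl⟩
      simp only [Subtype.coe_prop, dif_pos]
      exact hx b hb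
    · intro hx b hb
      have := hx b ⟨b, hb, rfl⟩
      simpa only [Subtype.coe_prop, dif_pos] using this
  rw [e]
  refine h _ (fun b hb => ?_) _
  obtain ⟨c, -, rfl⟩ := Finset.mem_map.1 hb
  exact c.2

section

variable [LinearOrder A] [WellFoundedLT A]

/-- the recursion -/
def Phi (p : A → (A → Bool) → ℝ) (t : A → ℝ) : A → Bool :=
  (wellFounded_lt (α := A)).fix (C := fun _ => Bool) fun a rec =>
    open Classical in decide (t a ≤ p a (fun b => if h : b < a then rec b h else false))

variable {p : A → (A → Bool) → ℝ} (hp : ∀ a, Measurable (p a))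
  (hp1 : ∀ a x, 0 ≤ p a x ∧ p a x ≤ 1)
  (hp2 : ∀ a x y, (∀ b < a, x b = y b) → p a x = p a y)

theorem Phi_eq (t : A → ℝ) (a : A) : Phi p t a =
    open Classical in decide (t a ≤ p a (fun b => if b < a then Phi p t b else false)) := by
  rw [Phi, WellFounded.fix_eq]
  rfl

include hp2 in
theorem Phi_true (t : A → ℝ) (a : A) : Phi p t a = true ↔ t a ≤ p a (Phi p t) := by
  classical
  rw [Phi_eq, decide_eq_true_iff, hp2 a _ (Phi p t)]
  intro b hb
  simp [hb]

include hp in
theorem meas_Phi_coord (a : A) : Measurable fun t => Phi p t a := by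
  classical
  induction a using (wellFounded_lt (α := A)).induction with
  | _ a ih =>
    refine measurable_to_bool ?_
    have e : (fun t => Phi p t a) ⁻¹' {true} =
        {t : A → ℝ | t a ≤ p a (fun b => if b < a then Phi p t b else false)} := by
      ext t
      simp only [mem_preimage, mem_singleton_iff]
      rw [Phi_eq, decide_eq_true_iff]
      rfl
    rw [e]
    refine measurableSet_le (measurable_pi_apply a) ((hp a).comp (measurable_pi_lambda _ fun b => ?_))
    by_cases hb : b < a
    · simp only [hb, if_true]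
      exact ih b hb
    · simp only [hb, if_false]
      exact measurable_const

include hp in
theorem meas_Phi : Measurable (Phi p) := measurable_pi_lambda _ fun a => meas_Phi_coord hp a

theorem Phi_local (t t' : A → ℝ) (a : A) (h : ∀ b ≤ a, t b = t' b) : Phi p t a = Phi p t' a := by
  classical
  induction a using (wellFounded_lt (α := A)).induction with
  | _ a ih =>
    rw [Phi_eq, Phi_eq, h a le_rfl]
    have : (fun b => if b < a then Phi p t b else false) =
        fun b => if b < a then Phi p t' b else false := by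
      funext b
      by_cases hb : b < a
      · simp only [hb, if_true]
        exact ih b hb fun c hc => h c (hc.trans hb.le)
      · simp only [hb, if_false]
    rw [this]

end

/-- independent uniform variables -/
def Lam (A : Type*) : Measure (A → ℝ) := Measure.infinitePi (fun _ : A => lam)

instance : IsProbabilityMeasure lam := ⟨by simp [lam]⟩

instance : IsProbabilityMeasure (Lam A) := by unfold Lam; infer_instance

theorem mp_update [DecidableEq A] (a : A) : MeasurePreserving (fun q : (A → ℝ) × ℝ => Function.update q.1 a q.2)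
    ((Lam A).prod lam) (Lam A) := by
  have hm : Measurable (fun q : (A → ℝ) × ℝ => Function.update q.1 a q.2) := by
    refine measurable_pi_lambda _ fun b => ?_
    by_cases hb : b = a
    · subst hb
      simp only [Function.update_self]
      exact measurable_snd
    · simp only [Function.update_of_ne hb]
      exact (measurable_pi_apply b).comp measurable_fst
  refine ⟨hm, ?_⟩
  refine Measure.eq_infinitePi _ fun s t ht => ?_
  have hpi : MeasurableSet (Set.pi (s : Set A) t) :=
    MeasurableSet.pi (Finset.countable_toSet s) fun i hi => ht i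
  rw [Measure.map_apply hm hpi]
  by_cases ha : a ∈ s
  · have e : (fun q : (A → ℝ) × ℝ => Function.update q.1 a q.2) ⁻¹' (Set.pi (s : Set A) t) =
        (Set.pi ((s.erase a : Finset A) : Set A) t) ×ˢ (t a) := by
      ext ⟨x, y⟩
      simp only [mem_preimage, Set.mem_pi, Finset.mem_coe, mem_prod, Finset.mem_erase]
      constructor
      · intro h
        refine ⟨fun i hi => ?_, ?_⟩
        · have := h i hi.2
          rwa [Function.update_of_ne hi.1] at this
        · have := h a ha
          rwa [Function.update_self] at this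
      · rintro ⟨h1, h2⟩ i hi
        by_cases hia : i = a
        · subst hia
          rwa [Function.update_self]
        · rw [Function.update_of_ne hia]
          exact h1 i ⟨hia, hi⟩
    rw [e, Measure.prod_prod, Lam, Measure.infinitePi_pi _ (fun i _ => ht i), mul_comm,
      Finset.mul_prod_erase s (fun i => lam (t i)) ha]
  · have e : (fun q : (A → ℝ) × ℝ => Function.update q.1 a q.2) ⁻¹' (Set.pi (s : Set A) t) =
        (Set.pi (s : Set A) t) ×ˢ univ := by
      ext ⟨x, y⟩
      simp only [mem_preimage, Set.mem_pi, Finset.mem_coe, mem_prod, mem_univ, and_true]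
      refine forall₂_congr fun i hi => ?_
      rw [Function.update_of_ne (by rintro rfl; exact ha hi)]
    rw [e, Measure.prod_prod, measure_univ, mul_one, Lam, Measure.infinitePi_pi _ (fun i _ => ht i)]

theorem lam_Iic {c : ℝ} (_h0 : 0 ≤ c) (h1 : c ≤ 1) : lam (Iic c) = ENNReal.ofReal c := by
  rw [lam, Measure.restrict_apply measurableSet_Iic]
  have : Iic c ∩ Icc 0 1 = Icc 0 c := by
    ext x
    simp only [mem_inter_iff, mem_Iic, mem_Icc]
    constructor
    · rintro ⟨a, b, -⟩; exact ⟨b, a⟩
    · rintro ⟨a, b⟩; exact ⟨b, a, b.trans h1⟩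
  rw [this, Real.volume_Icc, sub_zero]

section

variable [LinearOrder A] [WellFoundedLT A]

variable {p : A → (A → Bool) → ℝ} (hp : ∀ a, Measurable (p a))
  (hp1 : ∀ a x, 0 ≤ p a x ∧ p a x ≤ 1)
  (hp2 : ∀ a x y, (∀ b < a, x b = y b) → p a x = p a y)
  {ν : Measure (A → Bool)} [IsProbabilityMeasure ν]
  (hν : ∀ (a : A) (C : Set (A → Bool)), MeasurableSet C →
    (∀ x y, (∀ b < a, x b = y b) → (x ∈ C ↔ y ∈ C)) →
    (ν (C ∩ {x | x a = true})).toReal = ∫ x in C, p a x ∂ν)

theorem measC {S : Set A} {Q ν : Measure (A → Bool)} (hP : Q.map (rS S) = ν.map (rS S))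
    (C : Set (A → Bool)) (hC : MeasurableSet C)
    (hloc : ∀ x y, (∀ b ∈ S, x b = y b) → (x ∈ C ↔ y ∈ C)) : Q C = ν C := by
  have h := lint_eq hP (C.indicator 1) (measurable_one.indicator hC) (by
    intro x y h
    have h1 := hloc x y h
    by_cases hx : x ∈ C
    · rw [indicator_of_mem hx, indicator_of_mem (h1.1 hx)]; rfl
    · rw [indicator_of_notMem hx, indicator_of_notMem (fun h => hx (h1.2 h))])
  rwa [lintegral_indicator_one hC, lintegral_indicator_one hC] at h

theorem measT (a : A) : MeasurableSet {x : A → Bool | x a = true} := by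
  have h : Measurable (fun x : A → Bool => x a) := measurable_pi_apply a
  exact h (measurableSet_singleton true)

include hp hp1 hp2 hν in
theorem main_step (a : A)
    (hP : ((Lam A).map (Phi p)).map (rS (Iio a)) = ν.map (rS (Iio a)))
    (C : Set (A → Bool)) (hC : MeasurableSet C)
    (hloc : ∀ x y, (∀ b < a, x b = y b) → (x ∈ C ↔ y ∈ C)) :
    ((Lam A).map (Phi p)) (C ∩ {x | x a = true}) = ν (C ∩ {x | x a = true}) := by
  have hT := measT (A := A) a
  have hΦ := meas_Phi hp
  have hg : Measurable (C.indicator (fun x => ENNReal.ofReal (p a x))) :=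
    (ENNReal.measurable_ofReal.comp (hp a)).indicator hC
  have hgloc : ∀ x y, (∀ b ∈ Iio a, x b = y b) →
      C.indicator (fun x => ENNReal.ofReal (p a x)) x =
        C.indicator (fun x => ENNReal.ofReal (p a x)) y := by
    intro x y h
    have h1 := hloc x y h
    have h2 := hp2 a x y h
    by_cases hx : x ∈ C
    · rw [indicator_of_mem hx, indicator_of_mem (h1.1 hx), h2]
    · rw [indicator_of_notMem hx, indicator_of_notMem (fun h => hx (h1.2 h))]
  have hmu := mp_update (A := A) a
  have e1 : (fun q : (A → ℝ) × ℝ => Function.update q.1 a q.2) ⁻¹'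
      (Phi p ⁻¹' (C ∩ {x | x a = true})) =
      {q : (A → ℝ) × ℝ | Phi p q.1 ∈ C ∧ q.2 ≤ p a (Phi p q.1)} := by
    ext ⟨t, s⟩
    have hl : ∀ b < a, Phi p (Function.update t a s) b = Phi p t b := by
      intro b hb
      refine Phi_local _ _ b fun c hc => ?_
      rw [Function.update_of_ne]
      exact (hc.trans_lt hb).ne
    show (Phi p (Function.update t a s) ∈ C ∧ Phi p (Function.update t a s) a = true) ↔
      (Phi p t ∈ C ∧ s ≤ p a (Phi p t))
    rw [hloc _ _ hl, Phi_true hp2, Function.update_self, hp2 a _ _ hl]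
  have hG : MeasurableSet {q : (A → ℝ) × ℝ | Phi p q.1 ∈ C ∧ q.2 ≤ p a (Phi p q.1)} := by
    rw [← e1]
    exact hmu.measurable (hΦ (hC.inter hT))
  calc ((Lam A).map (Phi p)) (C ∩ {x | x a = true})
      = (Lam A) (Phi p ⁻¹' (C ∩ {x | x a = true})) := Measure.map_apply hΦ (hC.inter hT)
    _ = ((Lam A).prod lam) {q : (A → ℝ) × ℝ | Phi p q.1 ∈ C ∧ q.2 ≤ p a (Phi p q.1)} := by
        rw [← e1, hmu.measure_preimage (hΦ (hC.inter hT)).nullMeasurableSet]
    _ = ∫⁻ t, C.indicator (fun x => ENNReal.ofReal (p a x)) (Phi p t) ∂(Lam A) := by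
        rw [Measure.prod_apply hG]
        refine lintegral_congr fun t => ?_
        by_cases ht : Phi p t ∈ C
        · have : Prod.mk t ⁻¹' {q : (A → ℝ) × ℝ | Phi p q.1 ∈ C ∧ q.2 ≤ p a (Phi p q.1)} =
              Iic (p a (Phi p t)) := by
            ext s
            simp [ht]
          rw [this, lam_Iic (hp1 a _).1 (hp1 a _).2, indicator_of_mem ht]
        · have : Prod.mk t ⁻¹' {q : (A → ℝ) × ℝ | Phi p q.1 ∈ C ∧ q.2 ≤ p a (Phi p q.1)} = ∅ := by
            ext s
            simp [ht]
          rw [this, indicator_of_notMem ht, measure_empty]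
    _ = ∫⁻ x, C.indicator (fun x => ENNReal.ofReal (p a x)) x ∂((Lam A).map (Phi p)) :=
        (lintegral_map hg hΦ).symm
    _ = ∫⁻ x, C.indicator (fun x => ENNReal.ofReal (p a x)) x ∂ν := lint_eq hP _ hg hgloc
    _ = ∫⁻ x in C, ENNReal.ofReal (p a x) ∂ν := lintegral_indicator hC _
    _ = ENNReal.ofReal (∫ x in C, p a x ∂ν) := by
        refine (ofReal_integral_eq_lintegral_ofReal ?_ ?_).symm
        · refine Integrable.of_bound (hp a).aestronglyMeasurable 1 ?_
          exact Eventually.of_forall fun x => by
            rw [Real.norm_eq_abs, abs_of_nonneg (hp1 a x).1]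
            exact (hp1 a x).2
        · exact Eventually.of_forall fun x => (hp1 a x).1
    _ = ν (C ∩ {x | x a = true}) := by
        rw [← hν a C hC hloc, ENNReal.ofReal_toReal (measure_ne_top _ _)]

include hp hp1 hp2 hν in
theorem step_all (a : A)
    (hP : ((Lam A).map (Phi p)).map (rS (Iio a)) = ν.map (rS (Iio a)))
    (C : Set (A → Bool)) (hC : MeasurableSet C)
    (hloc : ∀ x y, (∀ b < a, x b = y b) → (x ∈ C ↔ y ∈ C)) (T : Set Bool) :
    ((Lam A).map (Phi p)) (C ∩ {x | x a ∈ T}) = ν (C ∩ {x | x a ∈ T}) := by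
  have hΦ := meas_Phi hp
  have : IsProbabilityMeasure ((Lam A).map (Phi p)) :=
    Measure.isProbabilityMeasure_map hΦ.aemeasurable
  have h0 : ((Lam A).map (Phi p)) C = ν C := measC hP C hC hloc
  have h1 := main_step hp hp1 hp2 hν a hP C hC hloc
  by_cases ht : true ∈ T <;> by_cases hf : false ∈ T
  · have e : C ∩ {x | x a ∈ T} = C := by
      ext x
      simp only [mem_inter_iff, mem_setOf_eq, and_iff_left_iff_imp]
      intro _
      cases h : x a <;> assumption
    rw [e, h0]
  · have e : C ∩ {x | x a ∈ T} = C ∩ {x | x a = true} := by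
      ext x
      simp only [mem_inter_iff, mem_setOf_eq, and_congr_right_iff]
      intro _
      cases h : x a <;> simp [ht, hf]
    rw [e, h1]
  · have e : C ∩ {x | x a ∈ T} = C \ (C ∩ {x | x a = true}) := by
      ext x
      simp only [mem_inter_iff, mem_setOf_eq, mem_diff, not_and]
      constructor
      · rintro ⟨hx, hx2⟩
        refine ⟨hx, fun _ h => ht (h ▸ hx2)⟩
      · rintro ⟨hx, hx2⟩
        refine ⟨hx, ?_⟩
        have := hx2 hx
        cases h : x a
        · exact hf
        · exact absurd h this
    have hm := hC.inter (measT (A := A) a)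
    rw [e, measure_sdiff inter_subset_left hm.nullMeasurableSet (measure_ne_top _ _),
      measure_sdiff inter_subset_left hm.nullMeasurableSet (measure_ne_top _ _), h0, h1]
  · have e : C ∩ {x | x a ∈ T} = ∅ := by
      ext x
      simp only [mem_inter_iff, mem_setOf_eq, mem_empty_iff_false, iff_false, not_and]
      intro _
      cases h : x a <;> assumption
    rw [e, measure_empty, measure_empty]

include hp hp1 hp2 hν in
theorem cyl (F : Finset A)
    (hP : ∀ b ∈ F, ((Lam A).map (Phi p)).map (rS (Iio b)) = ν.map (rS (Iio b)))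
    (t : A → Set Bool) :
    ((Lam A).map (Phi p)) (Set.pi (F : Set A) t) = ν (Set.pi (F : Set A) t) := by
  have hΦ := meas_Phi hp
  have : IsProbabilityMeasure ((Lam A).map (Phi p)) :=
    Measure.isProbabilityMeasure_map hΦ.aemeasurable
  rcases F.eq_empty_or_nonempty with rfl | hF
  · simp
  · have e : Set.pi (F : Set A) t = Set.pi ((F.erase (F.max' hF) : Finset A) : Set A) t ∩
        {x | x (F.max' hF) ∈ t (F.max' hF)} := by
      ext x
      simp only [Set.mem_pi, Finset.mem_coe, mem_inter_iff, mem_setOf_eq, Finset.mem_erase]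
      constructor
      · intro h
        exact ⟨fun i hi => h i hi.2, h _ (F.max'_mem hF)⟩
      · rintro ⟨h1, h2⟩ i hi
        by_cases hia : i = F.max' hF
        · rw [hia]; exact h2
        · exact h1 i ⟨hia, hi⟩
    rw [e]
    refine step_all hp hp1 hp2 hν _ (hP _ (F.max'_mem hF)) _
      (MeasurableSet.pi (Finset.countable_toSet _) fun i _ => MeasurableSet.of_discrete) ?_ _
    intro x y h
    simp only [Set.mem_pi, Finset.mem_coe]
    refine forall₂_congr fun i hi => ?_
    rw [h i (Finset.lt_max'_of_mem_erase_max' _ _ hi)]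

include hp hp1 hp2 hν in
theorem law_eq : (Lam A).map (Phi p) = ν := by
  have hΦ := meas_Phi hp
  have : IsProbabilityMeasure ((Lam A).map (Phi p)) :=
    Measure.isProbabilityMeasure_map hΦ.aemeasurable
  have hP : ∀ a : A, ((Lam A).map (Phi p)).map (rS (Iio a)) = ν.map (rS (Iio a)) := by
    intro a
    induction a using (wellFounded_lt (α := A)).induction with
    | _ a ih =>
      exact ext_of_cyl fun F hF t => cyl hp hp1 hp2 hν F (fun b hb => ih b (hF b hb)) t
  have hU : ((Lam A).map (Phi p)).map (rS univ) = ν.map (rS univ) :=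
    ext_of_cyl fun F _ t => cyl hp hp1 hp2 hν F (fun b _ => hP b) t
  refine Measure.ext fun C hC => measC hU C hC ?_
  intro x y h
  rw [show x = y from funext fun b => h b (mem_univ b)]

end

end Pool.Agent.W6h79.LD.T5x

open Pool.Agent.W6h79.LD.T5x in
theorem Pool.Agent.W6h79.LD.sT5.{u} (h4 : S_T4) (ha : S_T5a.{u}) (_hm : S_D4m.{u}) : S_T5.{u} := by
  intro A ν hν
  have := hν
  obtain ⟨u, hu⟩ := h4
  obtain ⟨_, _⟩ := exists_wellFoundedLT A
  choose p hp hp1 hp2 hp3 using fun a => ha A ν hν a
  have hlaw : (Lam A).map (Phi p) = ν := law_eq hp hp1 hp2 hp3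
  have hΦ := meas_Phi hp
  have hUm : Measurable (fun (x : A × ℕ → Bool) (a : A) => u (fun n => x (a, n))) := by
    refine measurable_pi_lambda _ fun a => hu.measurable.comp ?_
    exact measurable_pi_lambda _ fun n => measurable_pi_apply _
  have hUlaw : (coins (A × ℕ)).map (fun (x : A × ℕ → Bool) (a : A) => u (fun n => x (a, n))) =
      Lam A := by
    have h1 := Measure.infinitePi_map_curry (ι := A) (κ := ℕ) (X := Bool) (fun _ _ => coin)
    have h2 := Measure.infinitePi_map_pi (μ := fun _ : A => coins ℕ) (f := fun _ => u)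
      (fun _ => hu.measurable)
    rw [show (fun _ : A => (coins ℕ).map u) = fun _ => lam from funext fun _ => hu.map_eq] at h2
    have h3 : (coins (A × ℕ)).map (MeasurableEquiv.curry A ℕ Bool) =
        Measure.infinitePi (fun _ : A => coins ℕ) := h1
    rw [Lam, ← h2, ← h3, Measure.map_map]
    · rfl
    · exact measurable_pi_lambda _ fun a => hu.measurable.comp (measurable_pi_apply a)
    · exact (MeasurableEquiv.curry A ℕ Bool).measurable
  refine ⟨fun x => Phi p (fun a => u (fun n => x (a, n))), hΦ.comp hUm, ?_⟩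
  rw [← hlaw, ← hUlaw, Measure.map_map hΦ hUm]
  rfl
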