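import Pool.Agent.W6h79.LD.Defs7

open MeasureTheory Set Filter
open scoped ENNReal NNReal Topology

namespace Pool.Agent.W6h79.LD

theorem t5a_aux {Ω : Type*} {m m0 : MeasurableSpace Ω} (hm : m ≤ m0) (ν : Measure Ω)
    [IsProbabilityMeasure ν] (T : Set Ω) (hT : MeasurableSet[m0] T) :
    ∃ p : Ω → ℝ, Measurable[m] p ∧ (∀ x, 0 ≤ p x ∧ p x ≤ 1) ∧
      ∀ C, MeasurableSet[m] C → (ν (C ∩ T)).toReal = ∫ x in C, p x ∂ν := by
  set f : Ω → ℝ := T.indicator (fun _ => (1 : ℝ)) with hf
  have hfi : Integrable f ν := (integrable_const (1 : ℝ)).indicator hT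
  have hsm : StronglyMeasurable[m] (ν[f | m]) := stronglyMeasurable_condExp
  have h0 : ∀ᵐ x ∂ν, 0 ≤ (ν[f | m]) x := by
    have := condExp_nonneg (m := m) (μ := ν) (f := f)
      (Eventually.of_forall fun x => indicator_nonneg (fun _ _ => zero_le_one) x)
    exact this
  have h1 : ∀ᵐ x ∂ν, (ν[f | m]) x ≤ 1 := by
    have h2 := condExp_mono (m := m) (μ := ν) hfi (integrable_const (1 : ℝ))
      (Eventually.of_forall fun x => indicator_le_self' (fun _ _ => zero_le_one) x)
    rw [condExp_const hm (1 : ℝ)] at h2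
    exact h2
  refine ⟨fun x => max 0 (min 1 ((ν[f | m]) x)), ?_, fun x => ⟨le_max_left _ _, ?_⟩, ?_⟩
  · exact Measurable.max (@measurable_const _ _ _ m _) (Measurable.min (@measurable_const _ _ _ m _) hsm.measurable)
  · exact max_le zero_le_one (min_le_left _ _)
  · intro C hC
    have e1 : ∫ x in C, max 0 (min 1 ((ν[f | m]) x)) ∂ν = ∫ x in C, (ν[f | m]) x ∂ν := by
      refine setIntegral_congr_ae (hm _ hC) ?_
      filter_upwards [h0, h1] with x hx0 hx1 _
      rw [min_eq_right hx1, max_eq_right hx0]
    rw [e1, setIntegral_condExp hm hfi hC, hf, setIntegral_indicator hT]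
    simp [Measure.real]

theorem sT5a.{u} : S_T5a.{u} := by
  intro A _ ν hν a
  have := hν
  have hπ : Measurable (fun (x : A → Bool) (b : {b // b < a}) => x b) := by
    fun_prop
  have hT : MeasurableSet {x : A → Bool | x a = true} := by
    have h : Measurable (fun x : A → Bool => x a) := measurable_pi_apply a
    exact h (measurableSet_singleton true)
  obtain ⟨p, hp, hp1, hp2⟩ := t5a_aux (m := MeasurableSpace.comap
    (fun (x : A → Bool) (b : {b // b < a}) => x b) inferInstance) hπ.comap_le ν _ hT
  refine ⟨p, hp.mono hπ.comap_le le_rfl, hp1, ?_, ?_⟩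
  · intro x y hxy
    obtain ⟨D, -, hD⟩ := hp (measurableSet_singleton (p x))
    have hx : x ∈ p ⁻¹' {p x} := rfl
    rw [← hD] at hx
    have e : (fun b : {b // b < a} => x b) = fun b : {b // b < a} => y b :=
      funext fun b => hxy b b.2
    have hy : y ∈ (fun (x : A → Bool) (b : {b // b < a}) => x b) ⁻¹' D := by
      rw [mem_preimage] at hx ⊢
      rwa [← e]
    rw [hD] at hy
    exact (show p y = p x from hy).symm
  · intro C hC hC2
    classical
    refine hp2 C ⟨(fun y : {b // b < a} → Bool => fun b : A => if h : b < a then y ⟨b, h⟩ else false) ⁻¹' C,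
      ?_, ?_⟩
    · refine hC.preimage (measurable_pi_lambda _ fun b => ?_)
      by_cases h : b < a
      · simp only [h, dif_pos]
        exact measurable_pi_apply _
      · simp only [h, dif_neg, not_false_iff]
        exact measurable_const
    · ext x
      simp only [mem_preimage]
      refine hC2 _ _ fun b hb => ?_
      simp [hb]

end Pool.Agent.W6h79.LD
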