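import Pool.Agent.W6h79.LD.Defs7

/-!
# (T5'): every `L¹(ν)`, `ν` on `{0,1}^A`, is complemented in `L¹` of the coins
-/

open MeasureTheory Set Filter
open scoped ENNReal NNReal Topology

noncomputable section

namespace Pool.Agent.W6h79.LD

universe u

theorem T5p.CE_trans_iso {X : Type*} {Y : Type*} {Z : Type*} [NormedAddCommGroup X]
    [NormedSpace ℝ X] [NormedAddCommGroup Y] [NormedSpace ℝ Y] [NormedAddCommGroup Z]
    [NormedSpace ℝ Z] (h : CE X Y) (e : Y ≃ₗᵢ[ℝ] Z) : CE X Z := by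
  obtain ⟨i, P, hPi, hi, hP⟩ := h
  refine ⟨(e : Y →L[ℝ] Z).comp i, P.comp (e.symm : Z →L[ℝ] Y), fun x => ?_, ?_, ?_⟩
  · show P (e.symm (e (i x))) = x
    rw [e.symm_apply_apply, hPi]
  · refine ContinuousLinearMap.opNorm_le_bound _ zero_le_one fun x => ?_
    show ‖e (i x)‖ ≤ 1 * ‖x‖
    rw [e.norm_map]
    exact (i.le_opNorm x).trans (mul_le_mul_of_nonneg_right hi (norm_nonneg _))
  · refine ContinuousLinearMap.opNorm_le_bound _ zero_le_one fun x => ?_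
    show ‖P (e.symm x)‖ ≤ 1 * ‖x‖
    refine (P.le_opNorm _).trans ?_
    rw [e.symm.norm_map]
    exact mul_le_mul_of_nonneg_right hP (norm_nonneg _)

theorem sT5p (h3 : S_T3.{u, u}) (h5 : S_T5.{u}) (h7 : S_T7.{u, u}) : S_T5'.{u} := by
  intro A hA ν hν
  obtain ⟨Ψ, hΨ⟩ := h5 A ν hν
  have h1 : CE (Lp ℝ 1 ν) (Lp ℝ 1 (coins (A × ℕ))) :=
    h3 (A × ℕ → Bool) (A → Bool) (coins (A × ℕ)) ν Ψ inferInstance hΨ
  have h2 : Cardinal.mk (A × ℕ) = Cardinal.mk A := by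
    rw [Cardinal.mk_prod, Cardinal.mk_nat, Cardinal.lift_aleph0, Cardinal.lift_uzero]
    exact Cardinal.mul_aleph0_eq (Cardinal.aleph0_le_mk A)
  obtain ⟨e⟩ := Cardinal.eq.1 h2
  obtain ⟨f⟩ := h7 (A × ℕ) A e
  exact T5p.CE_trans_iso h1 f

end Pool.Agent.W6h79.LD
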