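import Pool.Agent.W6h79.LD.Defs7
import Pool.Agent.W6h79.LD.P5

/-!
# MP_3844f5_an : piece (T6)

Reduction to a probability measure on `{0,1}^A`.
-/

open MeasureTheory Set Filter
open scoped ENNReal NNReal Topology

noncomputable section

namespace Pool.Agent.W6h79.LD

namespace T6

universe u v

variable {Ω : Type u} [MeasurableSpace Ω] (μ : Measure Ω) [IsFiniteMeasure μ] {I : Type v}

/-- Indicator of a measurable set in `L¹`. -/
def ic (A : {A : Set Ω // MeasurableSet A}) : Lp ℝ 1 μ :=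
  indicatorConstLp 1 A.2 (measure_ne_top μ A.1) (1 : ℝ)

open Classical in
theorem exists_fam (D : Set (Lp ℝ 1 μ)) (hD : Dense D) (e : D × ℕ ↪ I) :
    ∃ A : I → {A : Set Ω // MeasurableSet A},
      Set.range (ic μ) ⊆ closure (Set.range fun n => ic μ (A n)) := by
  have h1 : ∀ q : D × ℕ, ∃ A : {A : Set Ω // MeasurableSet A},
      (∃ A' : {A : Set Ω // MeasurableSet A}, dist (ic μ A') q.1 < 1 / ((q.2 : ℝ) + 1)) →
        dist (ic μ A) q.1 < 1 / ((q.2 : ℝ) + 1) := by
    intro q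
    by_cases h : ∃ A' : {A : Set Ω // MeasurableSet A}, dist (ic μ A') q.1 < 1 / ((q.2 : ℝ) + 1)
    · obtain ⟨A', hA'⟩ := h
      exact ⟨A', fun _ => hA'⟩
    · exact ⟨⟨∅, MeasurableSet.empty⟩, fun h' => absurd h' h⟩
  choose A hA using h1
  refine ⟨fun i => if h : ∃ q, e q = i then A h.choose else ⟨∅, MeasurableSet.empty⟩, ?_⟩
  rintro _ ⟨A', rfl⟩
  rw [Metric.mem_closure_iff]
  intro ε hε
  obtain ⟨n, hn⟩ := exists_nat_one_div_lt (half_pos hε)
  have hpos : (0 : ℝ) < 1 / ((n : ℝ) + 1) := by positivity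
  obtain ⟨d, hdD, hd⟩ := hD.exists_dist_lt (ic μ A') hpos
  refine ⟨_, ⟨e (⟨d, hdD⟩, n), rfl⟩, ?_⟩
  have hex : ∃ q, e q = e (⟨d, hdD⟩, n) := ⟨_, rfl⟩
  have hch : hex.choose = (⟨d, hdD⟩, n) := e.injective hex.choose_spec
  simp only [dif_pos hex, hch]
  have h2 := hA (⟨d, hdD⟩, n) ⟨A', hd⟩
  calc dist (ic μ A') (ic μ (A (⟨d, hdD⟩, n)))
      ≤ dist (ic μ A') d + dist (ic μ (A (⟨d, hdD⟩, n))) d := dist_triangle_right _ _ _
    _ < ε / 2 + ε / 2 := add_lt_add (hd.trans hn) (h2.trans hn)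
    _ = ε := by ring

/-- The coding map. -/
def code (A : I → {A : Set Ω // MeasurableSet A}) (ω : Ω) : I → Bool :=
  open Classical in fun n => decide (ω ∈ (A n).1)

theorem measurable_code (A : I → {A : Set Ω // MeasurableSet A}) : Measurable (code A) := by
  classical
  rw [measurable_pi_iff]
  intro n
  refine measurable_to_bool ?_
  convert (A n).2 using 1
  ext ω
  simp [code]

theorem exists_preimage (A : I → {A : Set Ω // MeasurableSet A}) (n : I) :
    ∃ B : Set (I → Bool), MeasurableSet B ∧ code A ⁻¹' B = (A n).1 := by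
  classical
  refine ⟨{s | s n = true}, ?_, ?_⟩
  · have h : MeasurableSet ((fun s : I → Bool => s n) ⁻¹' {true}) :=
      (measurable_pi_apply n) (measurableSet_singleton true)
    exact h
  · ext ω
    simp [code]

theorem surj (A : I → {A : Set Ω // MeasurableSet A})
    (hA : Set.range (ic μ) ⊆ closure (Set.range fun n => ic μ (A n)))
    (hp : MeasurePreserving (code A) μ (μ.map (code A))) :
    Function.Surjective (Lp.compMeasurePreservingₗᵢ (E := ℝ) (p := 1) ℝ (code A) hp) := by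
  set T := Lp.compMeasurePreservingₗᵢ (E := ℝ) (p := 1) ℝ (code A) hp with hT
  have hcl : IsClosed (Set.range T) := T.isometry.isClosedEmbedding.isClosed_range
  have h1 : ∀ n, ic μ (A n) ∈ Set.range T := by
    intro n
    obtain ⟨B, hB, hB'⟩ := exists_preimage A n
    refine ⟨indicatorConstLp 1 hB (measure_ne_top _ _) (1 : ℝ), ?_⟩
    refine Lp.ext ?_
    have e1 : T (indicatorConstLp 1 hB (measure_ne_top _ _) (1 : ℝ)) =ᵐ[μ]
        (indicatorConstLp 1 hB (measure_ne_top (μ.map (code A)) B) (1 : ℝ)) ∘ code A :=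
      Lp.coeFn_compMeasurePreserving _ hp
    have e2 : (indicatorConstLp 1 hB (measure_ne_top (μ.map (code A)) B) (1 : ℝ))
        =ᵐ[μ.map (code A)] B.indicator (fun _ => (1 : ℝ)) := indicatorConstLp_coeFn
    have e3 := hp.quasiMeasurePreserving.ae_eq_comp e2
    have e4 : ic μ (A n) =ᵐ[μ] (A n).1.indicator (fun _ => (1 : ℝ)) := indicatorConstLp_coeFn
    filter_upwards [e1, e3, e4] with ω a1 a3 a4
    rw [a1, a3, a4]
    have hmem : ω ∈ (A n).1 ↔ code A ω ∈ B := by rw [← hB']; rfl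
    rw [Function.comp_apply]
    by_cases hB2 : code A ω ∈ B
    · rw [Set.indicator_of_mem hB2, Set.indicator_of_mem (hmem.2 hB2)]
    · rw [Set.indicator_of_notMem hB2, Set.indicator_of_notMem (fun h => hB2 (hmem.1 h))]
  have h2 : ∀ A', ic μ A' ∈ Set.range T := by
    intro A'
    have : closure (Set.range fun n => ic μ (A n)) ⊆ Set.range T := by
      refine closure_minimal ?_ hcl
      rintro _ ⟨n, rfl⟩
      exact h1 n
    exact this (hA ⟨A', rfl⟩)
  intro f
  change f ∈ Set.range T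
  refine Lp.induction (by simp) (motive := fun f => f ∈ Set.range T) ?_ ?_ hcl f
  · intro c s hs hμs
    obtain ⟨g, hg⟩ := h2 ⟨s, hs⟩
    refine ⟨c • g, ?_⟩
    rw [map_smul, hg, Lp.simpleFunc.coe_indicatorConst]
    refine Lp.ext ?_
    have e1 := Lp.coeFn_smul c (ic μ ⟨s, hs⟩)
    have e2 : ic μ ⟨s, hs⟩ =ᵐ[μ] s.indicator (fun _ => (1 : ℝ)) := indicatorConstLp_coeFn
    have e3 : indicatorConstLp 1 hs hμs.ne c =ᵐ[μ] s.indicator (fun _ => c) :=
      indicatorConstLp_coeFn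
    filter_upwards [e1, e2, e3] with ω a1 a2 a3
    rw [a1, a3, Pi.smul_apply, a2]
    by_cases h : ω ∈ s <;> simp [h]
  · rintro f g hf hg - ⟨f', hf'⟩ ⟨g', hg'⟩
    exact ⟨f' + g', by rw [map_add, hf', hg']⟩

end T6

open T6 in
theorem sT6.{u} : S_T6.{u} := by
  intro A hA Ω _ μ hfin hne hD
  obtain ⟨D, hD1, hD2⟩ := hD
  have hcard : Cardinal.mk (D × ℕ) ≤ Cardinal.mk A := by
    rw [Cardinal.mk_prod, Cardinal.lift_uzero, Cardinal.mk_nat, Cardinal.lift_aleph0]
    exact Cardinal.mul_le_of_le (Cardinal.aleph0_le_mk A) hD2 (Cardinal.aleph0_le_mk A)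
  obtain ⟨e⟩ := Cardinal.le_def _ _ |>.1 hcard
  obtain ⟨S, hS⟩ := exists_fam μ D hD1 e
  have hm := measurable_code S
  have hp : MeasurePreserving (code S) μ (μ.map (code S)) := ⟨hm, rfl⟩
  have hs := surj μ S hS hp
  have hu : (μ.map (code S)) univ = μ univ := by
    rw [Measure.map_apply hm MeasurableSet.univ, preimage_univ]
  have h0 : μ univ ≠ 0 := by
    rwa [Ne, Measure.measure_univ_eq_zero]
  have ht : μ univ ≠ ∞ := measure_ne_top μ univ
  obtain ⟨g⟩ := sP5 _ (μ.map (code S)) (μ univ)⁻¹ (ENNReal.inv_ne_zero.2 ht)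
    (ENNReal.inv_ne_top.2 h0)
  refine ⟨(μ univ)⁻¹ • μ.map (code S), ⟨?_⟩, ⟨?_⟩⟩
  · rw [Measure.smul_apply, hu, smul_eq_mul, ENNReal.inv_mul_cancel h0 ht]
  · exact ((LinearIsometryEquiv.ofSurjective _ hs).symm).trans g

end Pool.Agent.W6h79.LD
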