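import Pool.Agent.W6h79.LD.Defs7

/-!
# Piece (T7): reindexing coins
-/

open MeasureTheory Set Filter
open scoped ENNReal NNReal Topology

noncomputable section

universe u v

namespace Pool.Agent.W6h79.LD

namespace PT7

theorem mp {A : Type u} {A' : Type v} (e : A → A') (he : Function.Injective e) :
    MeasurePreserving (fun (ω : A' → Bool) (a : A) => ω (e a)) (coins A') (coins A) := by
  refine ⟨by fun_prop, ?_⟩
  unfold coins
  exact Measure.map_infinitePi_infinitePi_of_inj (P := fun _ : A' => coin) he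

theorem iso {Ω : Type u} {Ω' : Type v} [MeasurableSpace Ω] [MeasurableSpace Ω'] {μ : Measure Ω}
    {ν : Measure Ω'} (φ : Ω' → Ω) (ψ : Ω → Ω') (hφ : MeasurePreserving φ ν μ)
    (hψ : MeasurePreserving ψ μ ν) (h : ∀ x, ψ (φ x) = x) :
    Nonempty (Lp ℝ 1 μ ≃ₗᵢ[ℝ] Lp ℝ 1 ν) := by
  refine ⟨LinearIsometryEquiv.ofSurjective (Lp.compMeasurePreservingₗᵢ ℝ φ hφ) ?_⟩
  intro g
  refine ⟨Lp.compMeasurePreserving ψ hψ g, ?_⟩
  apply Lp.ext
  have h1 := Lp.coeFn_compMeasurePreserving (Lp.compMeasurePreserving ψ hψ g) hφ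
  have h2 := hφ.quasiMeasurePreserving.ae_eq_comp (Lp.coeFn_compMeasurePreserving g hψ)
  refine (h1.trans h2).trans (Filter.EventuallyEq.of_eq ?_)
  funext x
  simp [Function.comp, h]

end PT7

/-- (T7) -/
theorem sT7 : S_T7.{u, v} := by
  intro A A' e
  exact PT7.iso (fun (ω : A' → Bool) (a : A) => ω (e a)) (fun (ω : A → Bool) (a : A') => ω (e.symm a))
    (PT7.mp e e.injective) (PT7.mp e.symm e.symm.injective) (fun x => by simp)

end Pool.Agent.W6h79.LD
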