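import Pool.Agent.W6h79.LD.Defs7
import Pool.Agent.H731R2.Riesz

/-!
# (T8a) Riesz representation on `C({0,1}^A)` by differences of two measures for the product
sigma-algebra
-/

open MeasureTheory Set Filter
open scoped ENNReal NNReal Topology

namespace Pool.Agent.W6h79.LD

namespace T8aAux

theorem riesz_two.{u} {X : Type u} [TopologicalSpace X] [CompactSpace X] [T2Space X]
    [MeasurableSpace X] [BorelSpace X] (φ : StrongDual ℝ C(X, ℝ)) :
    ∃ m₁ m₂ : Measure X, IsFiniteMeasure m₁ ∧ IsFiniteMeasure m₂ ∧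
      ∀ g : C(X, ℝ), φ g = ∫ x, g x ∂m₁ - ∫ x, g x ∂m₂ := by
  let R : C(X, ℂ) →L[ℝ] C(X, ℝ) := Complex.reCLM.compLeftContinuous ℝ X
  let Φ : StrongDual ℂ C(X, ℂ) := StrongDual.extendRCLike (φ ∘L R)
  obtain ⟨μ, hμ, -, u, hu⟩ := Pool.Agent.H731R2.exists_density Φ
  have hum : Measurable fun x => (u x).re :=
    Complex.measurable_re.comp (Lp.stronglyMeasurable u).measurable
  have hui : Integrable (fun x => u x) μ :=
    MemLp.integrable (q := 2) (by norm_num) (Lp.memLp u)
  have hvi : Integrable (fun x => (u x).re) μ := hui.re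
  have hbd : ∀ g : C(X, ℝ), ∀ᵐ x ∂μ, ‖g x‖ ≤ ‖g‖ := fun g =>
    ae_of_all _ fun x => g.norm_coe_le_norm x
  have hgm : ∀ g : C(X, ℝ), AEStronglyMeasurable (fun x => g x) μ := fun g =>
    g.continuous.aestronglyMeasurable
  have hrep : ∀ g : C(X, ℝ), φ g = ∫ x, g x * (u x).re ∂μ := by
    intro g
    let gc : C(X, ℂ) := ⟨fun x => (g x : ℂ), by fun_prop⟩
    have hR : R gc = g := by
      ext x
      simp [R, gc]
    have h1 : (Φ gc).re = φ g := by
      have h2 := StrongDual.re_extendRCLike_apply (𝕜 := ℂ) (φ ∘L R) gc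
      have h3 : (φ ∘L R) gc = φ g := by
        rw [ContinuousLinearMap.comp_apply, hR]
      rw [h3] at h2
      exact h2
    rw [← h1, hu gc]
    have h4 : Integrable (fun x => gc x * u x) μ := by
      refine hui.bdd_mul (c := ‖g‖) gc.continuous.aestronglyMeasurable ?_
      filter_upwards [hbd g] with x hx
      simpa [gc] using hx
    have h5 : (∫ x, gc x * u x ∂μ).re = ∫ x, (gc x * u x).re ∂μ :=
      (integral_re h4).symm
    rw [h5]
    refine integral_congr_ae (ae_of_all _ fun x => ?_)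
    simp [gc]
  refine ⟨μ.withDensity fun x => ENNReal.ofReal (u x).re,
    μ.withDensity fun x => ENNReal.ofReal (-(u x).re),
    isFiniteMeasure_withDensity_ofReal hvi.2, isFiniteMeasure_withDensity_ofReal hvi.neg.2, ?_⟩
  intro g
  rw [hrep g, integral_withDensity_eq_integral_toReal_smul (by fun_prop)
    (ae_of_all _ fun x => ENNReal.ofReal_lt_top),
    integral_withDensity_eq_integral_toReal_smul (by fun_prop)
    (ae_of_all _ fun x => ENNReal.ofReal_lt_top), ← integral_sub]
  · refine integral_congr_ae (ae_of_all _ fun x => ?_)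
    simp only [ENNReal.toReal_ofReal', smul_eq_mul]
    rcases le_total 0 (u x).re with h | h
    · rw [max_eq_left h, max_eq_right (by linarith)]
      ring
    · rw [max_eq_right h, max_eq_left (by linarith)]
      ring
  · simp only [ENNReal.toReal_ofReal', smul_eq_mul]
    exact hvi.pos_part.mul_bdd (c := ‖g‖) (hgm g) (hbd g)
  · simp only [ENNReal.toReal_ofReal', smul_eq_mul]
    exact hvi.neg_part.mul_bdd (c := ‖g‖) (hgm g) (hbd g)

theorem meas_of_cont.{u} {A : Type u} (g : C(A → Bool, ℝ)) :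
    Measurable (g : (A → Bool) → ℝ) := by
  refine measurable_of_Ioi fun a => ?_
  have hU : IsOpen (g ⁻¹' Ioi a) := isOpen_Ioi.preimage g.continuous
  have key : ∀ n : ℕ, ∃ V : Set (A → Bool), MeasurableSet V ∧
      g ⁻¹' (Ici (a + 1 / ((n : ℝ) + 1))) ⊆ V ∧ V ⊆ g ⁻¹' Ioi a := by
    intro n
    have hpos : (0 : ℝ) < 1 / ((n : ℝ) + 1) := by positivity
    have hK : IsCompact (g ⁻¹' (Ici (a + 1 / ((n : ℝ) + 1)))) :=
      (isClosed_Ici.preimage g.continuous).isCompact
    have hsub : g ⁻¹' (Ici (a + 1 / ((n : ℝ) + 1))) ⊆ g ⁻¹' Ioi a := by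
      intro x hx
      simp only [mem_preimage, mem_Ici, mem_Ioi] at hx ⊢
      linarith
    rw [isOpen_pi_iff] at hU
    choose! I u h1 h2 using hU
    obtain ⟨t, ht, htc⟩ := hK.elim_nhds_subcover (fun x => (I x : Set A).pi (u x))
      (fun x hx => set_pi_mem_nhds (I x).finite_toSet fun i hi =>
        (h1 x (hsub hx) i hi).1.mem_nhds (h1 x (hsub hx) i hi).2)
    refine ⟨⋃ x ∈ t, (I x : Set A).pi (u x), ?_, htc, ?_⟩
    · refine t.measurableSet_biUnion fun x _ => ?_
      exact MeasurableSet.pi (I x).countable_toSet fun i _ => MeasurableSet.of_discrete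
    · exact iUnion₂_subset fun x hx => h2 x (hsub (ht x hx))
  choose V hV1 hV2 hV3 using key
  have hEq : g ⁻¹' Ioi a = ⋃ n, V n := by
    apply Subset.antisymm
    · intro x hx
      simp only [mem_preimage, mem_Ioi] at hx
      obtain ⟨n, hn⟩ := exists_nat_one_div_lt (sub_pos.2 hx)
      refine mem_iUnion.2 ⟨n, hV2 n ?_⟩
      simp only [mem_preimage, mem_Ici]
      linarith
    · exact iUnion_subset hV3
  rw [hEq]
  exact MeasurableSet.iUnion hV1

theorem pi_le_borel.{u} (A : Type u) :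
    (MeasurableSpace.pi : MeasurableSpace (A → Bool)) ≤ borel (A → Bool) := by
  refine iSup_le fun a => ?_
  rintro s ⟨t, -, rfl⟩
  exact MeasurableSpace.measurableSet_generateFrom
    ((isOpen_discrete t).preimage (continuous_apply a))

end T8aAux

theorem sT8a.{u} : S_T8a.{u} := by
  intro A φ
  have h := @T8aAux.riesz_two (A → Bool) _ _ _ (borel (A → Bool))
    (@BorelSpace.mk (A → Bool) _ (borel (A → Bool)) rfl) φ
  obtain ⟨m₁, m₂, h1, h2, h3⟩ := h
  have hle := T8aAux.pi_le_borel A
  refine ⟨m₁.trim hle, m₂.trim hle, isFiniteMeasure_trim hle, isFiniteMeasure_trim hle, ?_⟩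
  intro g
  rw [h3 g, ← integral_trim hle (T8aAux.meas_of_cont g).stronglyMeasurable,
    ← integral_trim hle (T8aAux.meas_of_cont g).stronglyMeasurable]

end Pool.Agent.W6h79.LD
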