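import Pool.Agent.W6h79.LD.Defs7

/-!
# (T8c) A maximal family of pairwise singular probability measures on `{0,1}^A` with `2 ^ κ`
members like the coins
-/

open MeasureTheory Set Filter
open scoped ENNReal NNReal Topology

noncomputable section

namespace Pool.Agent.W6h79.LD

namespace PT8c

theorem max_of.{u} (A : Type u) (P0 : Set (Measure (A → Bool)))
    (hP : ∀ ν ∈ P0, IsProbabilityMeasure ν)
    (hS : ∀ ν ∈ P0, ∀ ν' ∈ P0, ν ≠ ν' → ν ⟂ₘ ν') : ∃ 𝓕, P0 ⊆ 𝓕 ∧ MaxFamK A 𝓕 := by
  let P : Set (Set (Measure (A → Bool))) := {𝓕 |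
      (∀ ν ∈ 𝓕, IsProbabilityMeasure ν) ∧
      (∀ ν ∈ 𝓕, ∀ ν' ∈ 𝓕, ν ≠ ν' → ν ⟂ₘ ν')}
  have h0 : P0 ∈ P := ⟨hP, hS⟩
  obtain ⟨𝓕, hsub, h𝓕⟩ := zorn_subset_nonempty P (by
    intro c hc hchain _
    refine ⟨⋃₀ c, ⟨?_, ?_⟩, fun s hs => subset_sUnion_of_mem hs⟩
    · rintro ν ⟨t, ht, hν⟩
      exact (hc ht).1 ν hν
    · rintro ν ⟨t, ht, hν⟩ ν' ⟨t', ht', hν'⟩ hne
      rcases hchain.total ht ht' with h | h
      · exact (hc ht').2 ν (h hν) ν' hν' hne
      · exact (hc ht).2 ν hν ν' (h hν') hne) _ h0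
  have hins : ∀ ρ : Measure (A → Bool), IsProbabilityMeasure ρ → (∀ ν ∈ 𝓕, ρ ⟂ₘ ν) →
      ρ ∈ 𝓕 := by
    intro ρ hρ hρs
    have hmem : insert ρ 𝓕 ∈ P := by
      refine ⟨?_, ?_⟩
      · intro ν hν
        rcases mem_insert_iff.1 hν with rfl | hν
        · exact hρ
        · exact h𝓕.prop.1 ν hν
      · intro ν hν ν' hν' hne
        rcases mem_insert_iff.1 hν with h1 | h1
        · rcases mem_insert_iff.1 hν' with h2 | h2
          · exact absurd (h1.trans h2.symm) hne
          · rw [h1]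
            exact hρs ν' h2
        · rcases mem_insert_iff.1 hν' with h2 | h2
          · rw [h2]
            exact (hρs ν h1).symm
          · exact h𝓕.prop.2 ν h1 ν' h2 hne
    exact h𝓕.le_of_ge hmem (subset_insert _ _) (mem_insert _ _)
  refine ⟨𝓕, hsub, h𝓕.prop.1, h𝓕.prop.2, ?_⟩
  intro m hm hms
  by_contra hm0
  have hmu : m univ ≠ 0 := by
    intro h
    exact hm0 (Measure.measure_univ_eq_zero.1 h)
  have h1 : (m univ)⁻¹ • m ∈ 𝓕 := by
    apply hins
    · refine ⟨?_⟩
      rw [Measure.smul_apply, smul_eq_mul]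
      exact ENNReal.inv_mul_cancel hmu (measure_ne_top m univ)
    · intro ν hν
      exact (hms ν hν).smul _
  obtain ⟨s, hs, hs1, hs2⟩ := hms _ h1
  rw [Measure.smul_apply, smul_eq_mul, mul_eq_zero] at hs2
  have h2 : m sᶜ = 0 := hs2.resolve_left (ENNReal.inv_ne_zero.2 (measure_ne_top m univ))
  apply hmu
  rw [← union_compl_self s]
  exact measure_union_null hs1 h2

theorem iso_of.{u, v} {Ω : Type u} {Ω' : Type v} [MeasurableSpace Ω] [MeasurableSpace Ω']
    {μ : Measure Ω} {ν : Measure Ω'} (φ : Ω → Ω') (r : Ω' → Ω) (hφ : MeasurePreserving φ μ ν)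
    (hr : MeasurePreserving r ν μ) (h : ∀ x, r (φ x) = x) :
    Nonempty (Lp ℝ 1 μ ≃ₗᵢ[ℝ] Lp ℝ 1 ν) := by
  have hsurj : Function.Surjective (Lp.compMeasurePreservingₗᵢ (p := 1) (E := ℝ) ℝ φ hφ) := by
    intro f
    refine ⟨Lp.compMeasurePreserving r hr f, ?_⟩
    apply Lp.ext
    have h1 := Lp.coeFn_compMeasurePreserving (Lp.compMeasurePreserving r hr f) hφ
    have h2 := Lp.coeFn_compMeasurePreserving f hr
    have h3 := hφ.quasiMeasurePreserving.ae_eq_comp h2
    refine h1.trans (h3.trans ?_)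
    filter_upwards with x
    simp only [Function.comp_apply, h]
  exact ⟨(LinearIsometryEquiv.ofSurjective _ hsurj).symm⟩

end PT8c

/-- **(T8c)** -/
theorem sT8c.{u} : S_T8c.{u} := by
  intro A hA
  have hc : Cardinal.mk A = Cardinal.mk (A ⊕ A) := by
    rw [← Cardinal.add_def, Cardinal.add_eq_self (Cardinal.aleph0_le_mk A)]
  obtain ⟨e⟩ := Cardinal.eq.mp hc
  let φ : (A → Bool) → (A → Bool) → (A → Bool) := fun α x c => Sum.elim α x (e c)
  let r : (A → Bool) → (A → Bool) := fun y a => y (e.symm (Sum.inr a))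
  have hφ : ∀ α, Measurable (φ α) := by
    intro α
    refine measurable_pi_iff.mpr fun c => ?_
    show Measurable fun x : A → Bool => Sum.elim α x (e c)
    rcases e c with a | a
    · exact measurable_const
    · exact measurable_pi_apply a
  have hr : Measurable r := measurable_pi_iff.mpr fun a => measurable_pi_apply _
  have hrφ : ∀ α x, r (φ α x) = x := by
    intro α x
    funext a
    show Sum.elim α x (e (e.symm (Sum.inr a))) = x a
    rw [Equiv.apply_symm_apply]
    rfl
  let m : (A → Bool) → Measure (A → Bool) := fun α => (coins A).map (φ α)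
  have hm : ∀ α, IsProbabilityMeasure (m α) := fun α =>
    Measure.isProbabilityMeasure_map (hφ α).aemeasurable
  have hsing : ∀ α β, α ≠ β → m α ⟂ₘ m β := by
    intro α β hne
    obtain ⟨a, ha⟩ := Function.ne_iff.mp hne
    have hms : MeasurableSet {y : A → Bool | y (e.symm (Sum.inl a)) = β a} :=
      (measurable_pi_apply (X := fun _ : A => Bool) (e.symm (Sum.inl a)))
        (t := {β a}) (measurableSet_singleton (β a))
    have key : ∀ (γ x : A → Bool), φ γ x (e.symm (Sum.inl a)) = γ a := by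
      intro γ x
      show Sum.elim γ x (e (e.symm (Sum.inl a))) = γ a
      rw [Equiv.apply_symm_apply]
      rfl
    refine ⟨{y | y (e.symm (Sum.inl a)) = β a}, hms, ?_, ?_⟩
    · rw [Measure.map_apply (hφ α) hms]
      have : φ α ⁻¹' {y | y (e.symm (Sum.inl a)) = β a} = ∅ := by
        ext x
        simp only [mem_preimage, mem_ofPred_eq, key, mem_empty_iff_false, iff_false]
        exact ha
      rw [this, measure_empty]
    · rw [Measure.map_apply (hφ β) hms.compl]
      have : φ β ⁻¹' {y | y (e.symm (Sum.inl a)) = β a}ᶜ = ∅ := by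
        ext x
        simp only [mem_preimage, mem_compl_iff, mem_ofPred_eq, key, mem_empty_iff_false,
          iff_false, not_not]
      rw [this, measure_empty]
  have hinj : Function.Injective m := by
    intro α β h
    by_contra hne
    have h1 := hsing α β hne
    rw [← h, Measure.MutuallySingular.self_iff] at h1
    have h2 := (hm α).measure_univ
    rw [h1] at h2
    exact zero_ne_one h2
  obtain ⟨𝓕, hsub, h𝓕⟩ := PT8c.max_of A (Set.range m) (by
    rintro ν ⟨α, rfl⟩
    exact hm α) (by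
    rintro ν ⟨α, rfl⟩ ν' ⟨β, rfl⟩ hne
    exact hsing α β fun h => hne (by rw [h]))
  refine ⟨𝓕, h𝓕, fun α => ⟨m α, hsub ⟨α, rfl⟩⟩, ?_, ?_⟩
  · intro α β h
    exact hinj (congrArg Subtype.val h)
  · intro α
    refine PT8c.iso_of (φ α) r ⟨hφ α, rfl⟩ ⟨hr, ?_⟩ (hrφ α)
    show Measure.map r ((coins A).map (φ α)) = coins A
    rw [Measure.map_map hr (hφ α)]
    have : r ∘ φ α = id := by
      funext x
      exact hrφ α x
    rw [this, Measure.map_id]

end Pool.Agent.W6h79.LD
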