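import Pool.Agent.W6h79.LD.Defs7

/-!
# (T8d) Decomposition of a finite measure along a maximal family of singular measures
-/

open MeasureTheory Set Filter
open scoped ENNReal NNReal Topology

noncomputable section

namespace Pool.Agent.W6h79.LD.T8d

open Measure

theorem add_le_of_singular {α : Type*} [MeasurableSpace α] {a b m : Measure α}
    (h : a ⟂ₘ b) (ha : a ≤ m) (hb : b ≤ m) : a + b ≤ m := by
  obtain ⟨s, hs, h1, h2⟩ := h
  refine Measure.le_iff.2 fun A hA => ?_
  have e1 : a A = a (A ∩ sᶜ) := by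
    rw [← measure_inter_add_sdiff A hs.compl, ← Set.sdiff_eq]
    have : a (A \ sᶜ) = 0 := measure_mono_null (by intro x hx; simpa using hx.2) h1
    rw [this, add_zero, Set.sdiff_eq]
  have e2 : b A = b (A ∩ s) := by
    rw [← measure_inter_add_sdiff A hs]
    have : b (A \ s) = 0 := measure_mono_null (by intro x hx; exact hx.2) h2
    rw [this, add_zero]
  calc (a + b) A = a (A ∩ sᶜ) + b (A ∩ s) := by
        rw [Measure.add_apply, e1, e2]
    _ ≤ m (A ∩ sᶜ) + m (A ∩ s) := add_le_add (ha _) (hb _)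
    _ = m A := by
        rw [add_comm, ← Set.sdiff_eq]
        exact measure_inter_add_sdiff A hs

theorem main {α : Type*} [MeasurableSpace α] (𝓕 : Set (Measure α))
    (h1 : ∀ ν ∈ 𝓕, IsProbabilityMeasure ν)
    (h2 : ∀ ν ∈ 𝓕, ∀ ν' ∈ 𝓕, ν ≠ ν' → ν ⟂ₘ ν')
    (h3 : ∀ m : Measure α, IsFiniteMeasure m → (∀ ν ∈ 𝓕, m ⟂ₘ ν) → m = 0)
    (m : Measure α) (hm : IsFiniteMeasure m) :
    ∃ f : 𝓕 → α → ℝ≥0∞, (∀ ν, Measurable (f ν)) ∧
      m = Measure.sum (fun ν : 𝓕 => (ν : Measure α).withDensity (f ν)) := by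
  classical
  have _ := hm
  have hP : ∀ ν : 𝓕, IsProbabilityMeasure (ν : Measure α) := fun ν => h1 ν ν.2
  set w : 𝓕 → Measure α := fun ν => (ν : Measure α).withDensity (m.rnDeriv ν) with hw
  have hwm : ∀ ν : 𝓕, w ν ≤ m := fun ν => withDensity_rnDeriv_le m ν
  have hac : ∀ ν : 𝓕, w ν ≪ (ν : Measure α) := fun ν => withDensity_absolutelyContinuous _ _
  have hfin : ∀ J : Finset 𝓕, ∑ ν ∈ J, w ν ≤ m := by
    intro J
    induction J using Finset.induction_on with
    | empty => simpa using Measure.zero_le m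
    | insert ν J hν ih =>
      rw [Finset.sum_insert hν]
      refine add_le_of_singular ?_ (hwm ν) ih
      have : ∀ ν' ∈ J, w ν ⟂ₘ w ν' := by
        intro ν' hν'
        have hne : (ν : Measure α) ≠ ν' := by
          intro h
          exact hν (by rw [Subtype.ext h]; exact hν')
        exact (h2 ν ν.2 ν' ν'.2 hne).mono_ac (hac ν) (hac ν')
      clear ih hν
      induction J using Finset.induction_on with
      | empty => simp
      | insert ν' J hν' ih =>
        rw [Finset.sum_insert hν']
        exact (this ν' (Finset.mem_insert_self _ _)).add_right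
          (ih fun x hx => this x (Finset.mem_insert_of_mem hx))
  set M : Measure α := Measure.sum w with hM
  have hMm : M ≤ m := by
    refine Measure.le_iff.2 fun A hA => ?_
    rw [hM, Measure.sum_apply _ hA, ENNReal.tsum_eq_iSup_sum]
    refine iSup_le fun J => ?_
    have := hfin J A
    simpa using this
  have hMf : IsFiniteMeasure M := ⟨lt_of_le_of_lt (hMm univ) (measure_lt_top m univ)⟩
  have hadd : m - M + M = m := Measure.sub_add_cancel_of_le hMm
  have hz : m - M = 0 := by
    have hmM : IsFiniteMeasure (m - M) := inferInstance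
    refine h3 _ hmM ?_
    intro ν hν
    have hs : m - M ≤ m.singularPart ν := by
      refine Measure.le_iff.2 fun A hA => ?_
      have e1 : (m - M) A + M A = m A := by
        rw [← Measure.add_apply, hadd]
      have hpν : IsProbabilityMeasure ν := h1 ν hν
      have e2 : m.singularPart ν A + w ⟨ν, hν⟩ A = m A := by
        have := congrArg (fun x : Measure α => x A) (singularPart_add_rnDeriv m ν)
        simpa [hw] using this
      have e3 : w ⟨ν, hν⟩ A ≤ M A := by
        rw [hM, Measure.sum_apply _ hA]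
        exact ENNReal.le_tsum (⟨ν, hν⟩ : 𝓕)
      have e4 : w ⟨ν, hν⟩ A ≠ ∞ := ne_top_of_le_ne_top (measure_ne_top m A) (hwm ⟨ν, hν⟩ A)
      have e5 : (m - M) A + w ⟨ν, hν⟩ A ≤ m.singularPart ν A + w ⟨ν, hν⟩ A := by
        rw [e2, ← e1]
        gcongr
      exact (ENNReal.add_le_add_iff_right e4).1 e5
    exact (mutuallySingular_singularPart m ν).mono_ac hs.absolutelyContinuous
      AbsolutelyContinuous.rfl
  refine ⟨fun ν => m.rnDeriv ν, fun ν => measurable_rnDeriv m ν, ?_⟩
  rw [hz, zero_add] at hadd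
  exact hadd.symm

end Pool.Agent.W6h79.LD.T8d

namespace Pool.Agent.W6h79.LD

theorem sT8d.{u} : S_T8d.{u} := by
  intro A 𝓕 hF m hm
  obtain ⟨h1, h2, h3⟩ := hF
  exact T8d.main 𝓕 h1 h2 h3 m hm

end Pool.Agent.W6h79.LD
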