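import Pool.Agent.W6h79.LD.Defs7

/-!
# Cardinality of families of probability measures on `{0,1}^A` (piece (T8f)), written by helper8
-/

open MeasureTheory Set Filter
open scoped ENNReal NNReal Topology

noncomputable section

namespace Pool.Agent.W6h79.LD

/-- The cylinder of a finite set of coordinates. -/
def cylT.{u} {A : Type u} (s : Finset A) : Set (A → Bool) := {x | ∀ a ∈ s, x a = true}

theorem measurableSet_cylT.{u} {A : Type u} (s : Finset A) :
    MeasurableSet (cylT s : Set (A → Bool)) := by
  have h : (cylT s : Set (A → Bool)) = ⋂ a ∈ s, (fun x : A → Bool => x a) ⁻¹' {true} := by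
    ext x
    simp [cylT]
  rw [h]
  exact Finset.measurableSet_biInter s fun a _ => measurable_pi_apply a (measurableSet_singleton _)

theorem generateFrom_cylT.{u} (A : Type u) :
    (MeasurableSpace.pi : MeasurableSpace (A → Bool)) =
      MeasurableSpace.generateFrom (range (cylT : Finset A → Set (A → Bool))) := by
  classical
  apply le_antisymm
  · refine iSup_le fun a => ?_
    rw [← measurable_iff_comap_le]
    refine @measurable_to_bool _ (MeasurableSpace.generateFrom (range (cylT : Finset A → Set (A → Bool))))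
      _ ?_
    apply MeasurableSpace.measurableSet_generateFrom
    refine ⟨{a}, ?_⟩
    ext x
    simp [cylT]
  · apply MeasurableSpace.generateFrom_le
    rintro _ ⟨s, rfl⟩
    exact measurableSet_cylT s

theorem isPiSystem_cylT.{u} (A : Type u) :
    IsPiSystem (range (cylT : Finset A → Set (A → Bool))) := by
  classical
  rintro _ ⟨s, rfl⟩ _ ⟨t, rfl⟩ _
  refine ⟨s ∪ t, ?_⟩
  ext x
  simp only [cylT, Finset.mem_union, mem_ofPred_eq, mem_inter_iff]
  constructor
  · intro h
    exact ⟨fun a ha => h a (Or.inl ha), fun a ha => h a (Or.inr ha)⟩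
  · rintro ⟨h1, h2⟩ a (ha | ha)
    · exact h1 a ha
    · exact h2 a ha

theorem sT8f.{u} : S_T8f.{u} := by
  intro A hA 𝓕 h𝓕
  let φ : 𝓕 → (Finset A → ℝ) := fun ν s => ((ν : Measure (A → Bool)) (cylT s)).toReal
  have hinj : Function.Injective φ := by
    rintro ⟨ν, hν⟩ ⟨ν', hν'⟩ h
    have h1 : IsProbabilityMeasure ν := h𝓕 ν hν
    have h2 : IsProbabilityMeasure ν' := h𝓕 ν' hν'
    refine Subtype.ext ?_
    refine ext_of_generate_finite _ (generateFrom_cylT A) (isPiSystem_cylT A) ?_ ?_
    · rintro _ ⟨s, rfl⟩
      have h6 := congrFun h s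
      exact (ENNReal.toReal_eq_toReal_iff' (measure_ne_top _ _) (measure_ne_top _ _)).1 h6
    · change ν univ = ν' univ
      rw [measure_univ, measure_univ]
  have hle : Cardinal.aleph0 ≤ Cardinal.mk A := Cardinal.aleph0_le_mk A
  have key : Cardinal.mk (Finset A → ℝ) = 2 ^ Cardinal.mk A := by
    rw [Cardinal.mk_pi, Cardinal.prod_const, Cardinal.mk_real, Cardinal.mk_finset_of_infinite,
      Cardinal.lift_uzero, Cardinal.lift_continuum, ← Cardinal.two_power_aleph0, ← Cardinal.power_mul,
      Cardinal.aleph0_mul_eq hle]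
  have h3 := Cardinal.mk_le_of_injective hinj
  rw [key] at h3
  exact h3

end Pool.Agent.W6h79.LD
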