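import Pool.Agent.W6h79.LD.Defs8
import Pool.Agent.W6h79.LD.T8e

/-!
# MP_3844f5_an : piece (W1)

The dual of `C({0,1}^A)`, isometric version.
-/

open MeasureTheory Set Filter
open scoped ENNReal NNReal Topology

noncomputable section

namespace Pool.Agent.W6h79.LD

namespace W1

/-- The abstract step, isometric. -/
theorem gen.{u1, v1} {E : Type u1} {X : Type v1} [NormedAddCommGroup E] [NormedSpace ℝ E]
    [NormedAddCommGroup X] [NormedSpace ℝ X]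
    (B : X →ₗ[ℝ] E →ₗ[ℝ] ℝ) (hB : ∀ x e, ‖B x e‖ ≤ 1 * ‖x‖ * ‖e‖)
    (hlow : ∀ x, ∀ ε : ℝ, 0 < ε → ∃ g : E, ‖g‖ ≤ 1 ∧ ‖x‖ - ε ≤ B x g)
    (hsurj : ∀ φ : StrongDual ℝ E, ∃ x, ∀ g, B x g = φ g) :
    Nonempty (X ≃ₗᵢ[ℝ] StrongDual ℝ E) := by
  let T : X →L[ℝ] StrongDual ℝ E := B.mkContinuous₂ 1 hB
  have hT : ∀ x g, T x g = B x g := fun x g => rfl
  have hlow' : ∀ x, ‖x‖ ≤ ‖T x‖ := by
    intro x
    refine le_of_forall_pos_le_add fun ε hε => ?_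
    obtain ⟨g, hg, h⟩ := hlow x ε hε
    have h1 : B x g ≤ ‖T x‖ := by
      rw [← hT]
      refine (le_abs_self _).trans (((T x).le_opNorm g).trans ?_)
      exact mul_le_of_le_one_right (norm_nonneg _) hg
    linarith
  have hup : ∀ x, ‖T x‖ ≤ ‖x‖ := by
    intro x
    refine ContinuousLinearMap.opNorm_le_bound _ (norm_nonneg _) fun e => ?_
    rw [hT]
    have := hB x e
    rwa [one_mul] at this
  have hs : Function.Surjective T := by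
    intro φ
    obtain ⟨x, hx⟩ := hsurj φ
    exact ⟨x, ContinuousLinearMap.ext fun g => by rw [hT, hx]⟩
  let L : X →ₗᵢ[ℝ] StrongDual ℝ E :=
    { toLinearMap := T.toLinearMap
      norm_map' := fun x => le_antisymm (hup x) (hlow' x) }
  exact ⟨LinearIsometryEquiv.ofSurjective L hs⟩

end W1

open T8e in
/-- (W1) -/
theorem sW1.{u} (ha : S_T8a.{u}) (hb : S_T8b.{u}) (hd : S_T8d.{u}) : S_W1.{u} := by
  intro A 𝓕 h𝓕
  obtain ⟨hc, h2⟩ := hb A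
  have hsurj : ∀ φ : StrongDual ℝ C(A → Bool, ℝ), ∃ F : XX 𝓕, ∀ g, B hc 𝓕 F g = φ g := by
    intro φ
    obtain ⟨m₁, m₂, hm₁, hm₂, h⟩ := ha A φ
    obtain ⟨F₁, hF₁⟩ := range_meas hc hd h𝓕 m₁ hm₁
    obtain ⟨F₂, hF₂⟩ := range_meas hc hd h𝓕 m₂ hm₂
    refine ⟨F₁ - F₂, fun g => ?_⟩
    rw [map_sub, LinearMap.sub_apply, hF₁, hF₂, h]
  exact W1.gen (E := C(A → Bool, ℝ)) (X := XX 𝓕) (B hc 𝓕) (B_bound hc) (lower hc h2 h𝓕) hsurj

end Pool.Agent.W6h79.LD
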