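import Pool.Agent.W6h79.LD.Defs8
import Pool.Agent.W6h79.LD.Mh1
import Pool.Agent.W6h79.LD.R3

/-!
# (W11) Counting pieces
-/

open MeasureTheory Set Filter
open scoped ENNReal NNReal Topology

noncomputable section

namespace Pool.Agent.W6h79.LD

namespace PW11

universe u

theorem aleph0_lt {κ : Cardinal.{u}} (h : CInacc κ) : Cardinal.aleph0 < κ := by
  refine lt_of_le_of_ne h.1.aleph0_le ?_
  intro he
  have h2 := h.2 2 (by rw [← he]; exact Cardinal.natCast_lt_aleph0 (n := 2))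
  rw [← he] at h2
  exact absurd h2 (not_lt.2 (Cardinal.cantor _).le)

theorem densLt_of_separable {κ : Cardinal.{u}} (hκ : Cardinal.aleph0 < κ) {X : Type u}
    [TopologicalSpace X] (h : TopologicalSpace.SeparableSpace X) : DensLt κ X := by
  obtain ⟨s, hs, hd⟩ := TopologicalSpace.exists_countable_dense X
  exact ⟨s, hd, hs.le_aleph0.trans_lt hκ⟩

variable {Ω : Type u} [MeasurableSpace Ω] {μ : Measure Ω}

theorem atom_inter {E D : Set Ω} (hE : MeasurableSet E) (hD : AtomSet μ D)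
    (hpos : 0 < μ (E ∩ D)) : AtomSet μ (E ∩ D) := by
  refine ⟨hE.inter hD.1, hpos, ?_⟩
  intro B hB hBm
  rcases hD.2.2 B (hB.trans inter_subset_right) hBm with h | h
  · exact Or.inl h
  · right
    refine measure_mono_null ?_ h
    rintro x ⟨hx, hxB⟩
    exact ⟨hx.2, hxB⟩

theorem densLt_atom {κ : Cardinal.{u}} (hκ : Cardinal.aleph0 < κ) {E : Set Ω}
    (hE : AtomSet μ E) (hfin : μ E < ∞) : DensLt κ (Lp ℝ 1 (μ.restrict E)) := by
  obtain ⟨e⟩ := sR3 Ω μ E hE hfin
  apply densLt_of_separable hκ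
  exact e.symm.surjective.denseRange.separableSpace e.symm.continuous

/-- A set of finite measure all of whose pieces are small is small. -/
theorem small {𝓔 : Set (Set Ω)} (hM : MaxDec μ 𝓔) {κ : Cardinal.{u}} (hκ : Cardinal.aleph0 < κ)
    (hr : κ.IsRegular) {E : Set Ω} (hE : MeasurableSet E) (hfin : μ E < ∞)
    (hs : ∀ D ∈ 𝓔, 0 < μ (E ∩ D) → DensLt κ (Lp ℝ 1 (μ.restrict (E ∩ D)))) :
    DensLt κ (Lp ℝ 1 (μ.restrict E)) := by
  obtain ⟨h1, h2, h3⟩ := hM
  have hf : IsFiniteMeasure (μ.restrict E) := ⟨by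
    rw [Measure.restrict_apply_univ]; exact hfin⟩
  have hcount : Set.Countable {D : 𝓔 | 0 < (μ.restrict E) D.1} :=
    Measure.countable_meas_pos_of_disjoint_iUnion₀
      (fun D => (h1 D.1 D.2).1.nullMeasurableSet) (by
        intro A B hAB
        exact Measure.absolutelyContinuous_of_le Measure.restrict_le_self
          (h2 A.1 A.2 B.1 B.2 (fun h => hAB (Subtype.ext h))))
  set C : Set (Set Ω) := (fun D : 𝓔 => D.1) '' {D : 𝓔 | 0 < (μ.restrict E) D.1} with hC
  have hCc : C.Countable := hcount.image _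
  have hC1 : ∀ D ∈ C, D ∈ 𝓔 ∧ 0 < μ (E ∩ D) := by
    rintro _ ⟨D, hD, rfl⟩
    refine ⟨D.2, ?_⟩
    have hD' : 0 < (μ.restrict E) D.1 := hD
    rwa [Measure.restrict_apply (h1 D.1 D.2).1, inter_comm] at hD'
  have hC2 : ∀ D ∈ 𝓔, 0 < μ (E ∩ D) → D ∈ C := by
    intro D hD hpos
    refine ⟨⟨D, hD⟩, ?_, rfl⟩
    show 0 < (μ.restrict E) D
    rwa [Measure.restrict_apply (h1 D hD).1, inter_comm]
  obtain ⟨f, hf'⟩ := (hCc.union (countable_singleton (∅ : Set Ω))).exists_eq_range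
    ⟨∅, Or.inr rfl⟩
  have hfm : ∀ n, f n ∈ C ∪ {∅} := fun n => by rw [hf']; exact mem_range_self n
  have hfmeas : ∀ n, MeasurableSet (f n) := by
    intro n
    rcases hfm n with h | h
    · exact (h1 _ (hC1 _ h).1).1
    · rw [mem_singleton_iff.1 h]; exact MeasurableSet.empty
  have hpfn : ∀ n, PMh1.Pf κ μ (E ∩ f n) := by
    intro n
    rcases hfm n with h | h
    · exact PMh1.dens_pf (hE.inter (hfmeas n)) (hs _ (hC1 _ h).1 (hC1 _ h).2)
    · apply PMh1.pf_null hκ
      rw [mem_singleton_iff.1 h]; simp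
  set R : Set Ω := E \ ⋃ n, f n with hR
  have hRm : MeasurableSet R := hE.diff (MeasurableSet.iUnion hfmeas)
  have hR0 : μ R = 0 := by
    by_contra hne
    have hRfin : μ R < ∞ := lt_of_le_of_lt (measure_mono sdiff_subset) hfin
    obtain ⟨D, hD, hpos⟩ := h3 R hRm (pos_iff_ne_zero.2 hne) hRfin
    have hDC : D ∈ C := hC2 D hD
      (lt_of_lt_of_le hpos (measure_mono (inter_subset_inter_left _ sdiff_subset)))
    have hDr : D ∈ range f := by rw [← hf']; exact Or.inl hDC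
    obtain ⟨n, rfl⟩ := hDr
    have : R ∩ f n = ∅ := by
      rw [Set.eq_empty_iff_forall_notMem]
      rintro x ⟨hxR, hx⟩
      exact hxR.2 (mem_iUnion.2 ⟨n, hx⟩)
    rw [this] at hpos
    simp at hpos
  let G : ℕ → Set Ω := fun n => Nat.rec R (fun k s => s ∪ (E ∩ f k)) n
  have hG0 : G 0 = R := rfl
  have hGs : ∀ n, G (n + 1) = G n ∪ (E ∩ f n) := fun _ => rfl
  have hGm : ∀ n, MeasurableSet (G n) := by
    intro n
    induction n with
    | zero => exact hRm
    | succ n ih => rw [hGs]; exact ih.union (hE.inter (hfmeas n))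
  have hGp : ∀ n, PMh1.Pf κ μ (G n) := by
    intro n
    induction n with
    | zero => exact PMh1.pf_null hκ hR0
    | succ n ih =>
      rw [hGs]
      exact PMh1.pf_union hκ (hGm n) (hE.inter (hfmeas n)) ih (hpfn n)
  have hGmono : Monotone G := monotone_nat_of_le_succ fun n => by
    rw [hGs]; exact subset_union_left
  have hGE : ⋃ n, G n = E := by
    apply Subset.antisymm
    · refine iUnion_subset fun n => ?_
      induction n with
      | zero => exact sdiff_subset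
      | succ n ih => rw [hGs]; exact union_subset ih inter_subset_left
    · intro x hx
      by_cases hxU : x ∈ ⋃ n, f n
      · obtain ⟨n, hn⟩ := mem_iUnion.1 hxU
        refine mem_iUnion.2 ⟨n + 1, ?_⟩
        rw [hGs]
        exact Or.inr ⟨hx, hn⟩
      · exact mem_iUnion.2 ⟨0, ⟨hx, hxU⟩⟩
  have hfinal := PMh1.pf_inc hκ hr hGm hGmono hGp
  rw [hGE] at hfinal
  exact PMh1.pf_dens hE hfinal

end PW11

open PW11 in
theorem sW11.{u} : S_W11.{u} := by
  intro Ω _ μ 𝓔 hM t ht hg h0 hc p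
  have hM' := hM
  obtain ⟨h1, h2, h3⟩ := hM'
  have hnat : ∀ q : {E : 𝓔 // ¬ AtomSet μ (E : Set Ω)}, ∀ A ⊆ (q.1 : Set Ω), ¬ AtomSet μ A := by
    intro q
    rcases (h1 q.1.1 q.1.2).2.2.2 with h | h
    · exact absurd h q.2
    · exact h
  rcases hg p with hp | hp
  · -- the separable type
    rcases h0 with h0 | h0
    · have hcov : Covers μ {E | E ∈ 𝓔 ∧ ¬ AtomSet μ E} := by
        refine ⟨fun S hS => ⟨(h1 S hS.1).1, (h1 S hS.1).2.2.1⟩, ?_⟩
        intro F hF hF0 hF1 hn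
        obtain ⟨D, hD, hpos⟩ := h3 F hF hF0 hF1
        have hDat : AtomSet μ D := by
          by_contra hc
          exact hpos.ne' (hn D ⟨hD, hc⟩)
        exact ⟨F ∩ D, inter_subset_left, atom_inter hF hDat hpos⟩
      have hle := h0 _ hcov
      rw [hp, Cardinal.two_power_aleph0]
      refine hle.trans ?_
      refine Cardinal.mk_le_of_injective
        (f := fun E : {E | E ∈ 𝓔 ∧ ¬ AtomSet μ E} =>
          (⟨⟨⟨E.1, E.2.1⟩, E.2.2⟩, ?_⟩ :
            {q : {E : 𝓔 // ¬ AtomSet μ (E : Set Ω)} // Cardinal.aleph0 ≤ t q})) ?_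
      · rcases hg ⟨⟨E.1, E.2.1⟩, E.2.2⟩ with h | h
        · exact h.ge
        · exact h.1.aleph0_le
      · intro E E' h
        apply Subtype.ext
        have := congrArg (fun q => ((q.1 : {E : 𝓔 // ¬ AtomSet μ (E : Set Ω)}).1 : Set Ω)) h
        exact this
    · exfalso
      obtain ⟨A, hA, hAt⟩ := h0 p.1.1 (h1 p.1.1 p.1.2).1 (h1 p.1.1 p.1.2).2.1
        (h1 p.1.1 p.1.2).2.2.1
      exact hnat p A hA hAt
  · -- higher types
    have hκ := aleph0_lt hp
    rcases hc (t p) hp with h | h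
    · exfalso
      exact (ht p p.1.1 Subset.rfl (h1 p.1.1 p.1.2).1 (h1 p.1.1 p.1.2).2.1).2
        (h p.1.1 (h1 p.1.1 p.1.2).1 (h1 p.1.1 p.1.2).2.2.1)
    · have hcov : CoversK (t p) μ (range fun q : {q : {E : 𝓔 // ¬ AtomSet μ (E : Set Ω)} //
          t p ≤ t q} => (q.1.1 : Set Ω)) := by
        refine ⟨?_, ?_⟩
        · rintro _ ⟨q, rfl⟩
          exact ⟨(h1 _ q.1.1.2).1, (h1 _ q.1.1.2).2.2.1⟩
        · intro E hE hfin hn
          refine small hM hκ hp.1 hE hfin ?_
          intro D hD hpos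
          by_cases hDat : AtomSet μ D
          · exact densLt_atom hκ (atom_inter hE hDat hpos)
              (lt_of_le_of_lt (measure_mono inter_subset_left) hfin)
          · have hlt : t ⟨⟨D, hD⟩, hDat⟩ < t p := by
              by_contra hge
              exact hpos.ne' (hn D ⟨⟨⟨⟨D, hD⟩, hDat⟩, not_lt.1 hge⟩, rfl⟩)
            obtain ⟨S, hS, hSc⟩ := (ht ⟨⟨D, hD⟩, hDat⟩ (E ∩ D) inter_subset_right
              (hE.inter (h1 D hD).1) hpos).1
            exact ⟨S, hS, hSc.trans_lt hlt⟩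
      exact (h _ hcov).trans Cardinal.mk_range_le

end Pool.Agent.W6h79.LD
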