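import Pool.Agent.W6h79.LD.Defs8

/-!
# (W2) the dual of `C({0,1}^A)` against `2 ^ κ` copies of `L¹` of the coins
-/

open MeasureTheory Set Filter
open scoped ENNReal NNReal Topology

noncomputable section

namespace Pool.Agent.W6h79.LD

namespace PW2

theorem ce_trans.{u, v, w} {X : Type u} {Y : Type v} {Z : Type w} [NormedAddCommGroup X]
    [NormedSpace ℝ X] [NormedAddCommGroup Y] [NormedSpace ℝ Y] [NormedAddCommGroup Z]
    [NormedSpace ℝ Z] (h1 : CE X Y) (h2 : CE Y Z) : CE X Z := by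
  obtain ⟨i, P, hiP, hi, hP⟩ := h1
  obtain ⟨j, Q, hjQ, hj, hQ⟩ := h2
  refine ⟨j.comp i, P.comp Q, fun x => ?_, ?_, ?_⟩
  · simp [hjQ, hiP]
  · exact (ContinuousLinearMap.opNorm_comp_le _ _).trans
      (mul_le_one₀ hj (norm_nonneg _) hi)
  · exact (ContinuousLinearMap.opNorm_comp_le _ _).trans
      (mul_le_one₀ hP (norm_nonneg _) hQ)

theorem ce_equiv.{u, v} {X : Type u} {Y : Type v} [NormedAddCommGroup X] [NormedSpace ℝ X]
    [NormedAddCommGroup Y] [NormedSpace ℝ Y] (e : X ≃ₗᵢ[ℝ] Y) : CE X Y :=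
  ⟨e.toLinearIsometry.toContinuousLinearMap, e.symm.toLinearIsometry.toContinuousLinearMap,
    fun x => by simp, e.toLinearIsometry.norm_toContinuousLinearMap_le,
    e.symm.toLinearIsometry.norm_toContinuousLinearMap_le⟩

end PW2

open PW2 in
/-- **(W2)** -/
theorem sW2.{u} (w1 : S_W1.{u}) (w3 : S_W3.{u, u, u, u}) (t5 : S_T5'.{u}) (tc : S_T8c.{u})
    (tf : S_T8f.{u}) : S_W2.{u} := by
  intro A hA
  obtain ⟨𝓕, h𝓕, g, hg, hiso⟩ := tc A hA
  obtain ⟨e⟩ := w1 A 𝓕 h𝓕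
  constructor
  · have hcard : Cardinal.mk 𝓕 ≤ Cardinal.mk (A → Bool) := by
      have h1 := tf A hA 𝓕 h𝓕.1
      have h2 : Cardinal.mk (A → Bool) = 2 ^ Cardinal.mk A := by simp
      rw [h2]
      exact h1
    obtain ⟨g'⟩ := Cardinal.le_def _ _ |>.mp hcard
    refine ce_trans (ce_equiv e.symm) ?_
    exact w3 𝓕 (A → Bool) (fun ν : 𝓕 => Lp ℝ 1 (ν : Measure (A → Bool)))
      (fun _ : A → Bool => XC A) g' g'.injective fun ν => t5 A hA ν (h𝓕.1 ν ν.2)
  · refine ce_trans ?_ (ce_equiv e)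
    exact w3 (A → Bool) 𝓕 (fun _ : A → Bool => XC A)
      (fun ν : 𝓕 => Lp ℝ 1 (ν : Measure (A → Bool))) g hg fun α => ce_equiv (hiso α).some

end Pool.Agent.W6h79.LD
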