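import Pool.Agent.W6h79.LD.Defs8
import Pool.Agent.W6h79.LD.L1

/-!
# Piece (W3): `ℓ¹`-sums along an injection
-/

open MeasureTheory Set Filter
open scoped ENNReal NNReal Topology

noncomputable section

universe u v w x

namespace Pool.Agent.W6h79.LD

open LM in
/-- (W3) -/
theorem sW3 : S_W3.{u, v, w, x} := by
  intro P Q X Y _ _ _ _ g hg h
  let i : ∀ k, X k →L[ℝ] Y (g k) := fun k => (h k).choose
  have hi : ∀ k, ∃ P : Y (g k) →L[ℝ] X k, (∀ x, P (i k x) = x) ∧ ‖i k‖ ≤ 1 ∧ ‖P‖ ≤ 1 :=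
    fun k => (h k).choose_spec
  let R : ∀ k, Y (g k) →L[ℝ] X k := fun k => (hi k).choose
  have hR : ∀ k, (∀ x, R k (i k x) = x) ∧ ‖i k‖ ≤ 1 ∧ ‖R k‖ ≤ 1 := fun k => (hi k).choose_spec
  have h1 : ∀ k x, ‖i k x‖ ≤ ‖x‖ := fun k x => by
    simpa using (i k).le_of_opNorm_le (hR k).2.1 x
  have h2 : ∀ k x, ‖R k x‖ ≤ ‖x‖ := fun k x => by
    simpa using (R k).le_of_opNorm_le (hR k).2.2 x
  -- the coordinates of the embedding
  have hL : ∀ q : Q, ∃ L : (∀ p, X p) →ₗ[ℝ] Y q,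
      (∀ p, g p = q → ∀ f, HEq (L f) (i p (f p))) ∧ (q ∉ range g → L = 0) := by
    intro q
    by_cases hq : q ∈ range g
    · obtain ⟨p, rfl⟩ := hq
      refine ⟨(i p : X p →ₗ[ℝ] Y (g p)).comp (LinearMap.proj p), ?_, ?_⟩
      · intro p' hp' f
        have := hg hp'
        subst this
        rfl
      · intro hc
        exact absurd ⟨p, rfl⟩ hc
    · exact ⟨0, fun p hp => absurd ⟨p, hp⟩ hq, fun _ => rfl⟩
  choose L hL1 hL2 using hL
  have hL3 : ∀ p f, L (g p) f = i p (f p) := fun p f => eq_of_heq (hL1 (g p) p rfl f)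
  have hsupp : ∀ f : ∀ p, X p, ∀ q, q ∉ range g → ‖L q f‖ = 0 := fun f q hq => by
    rw [hL2 q hq]
    simp
  have hsum : ∀ f : lp X 1, Summable fun q => ‖L q f‖ := by
    intro f
    rw [← hg.summable_iff (fun q hq => hsupp f q hq)]
    refine Summable.of_nonneg_of_le (fun _ => norm_nonneg _) (fun p => ?_) (summ1 f)
    simp only [Function.comp_apply, hL3]
    exact h1 p _
  let I : lp X 1 →ₗ[ℝ] lp Y 1 :=
    ⟨⟨fun f => ⟨fun q => L q f, mem1.2 (hsum f)⟩, fun a b => by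
      ext q
      exact (L q).map_add (fun p => a p) (fun p => b p)⟩, fun c a => by
      ext q
      exact (L q).map_smul c (fun p => a p)⟩
  have hIn : ∀ f, ‖I f‖ ≤ 1 * ‖f‖ := by
    intro f
    rw [one_mul, norm1, norm1]
    have h3 : ∑' q, ‖I f q‖ = ∑' p, ‖L (g p) f‖ := by
      refine (hg.tsum_eq (f := fun q => ‖L q f‖) ?_).symm
      intro q hq
      by_contra hc
      exact hq (hsupp f q hc)
    rw [h3]
    refine Summable.tsum_le_tsum (fun p => ?_) ((hsum f).comp_injective hg) (summ1 f)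
    rw [hL3]
    exact h1 p _
  have hsumR : ∀ f : lp Y 1, Summable fun p => ‖R p (f (g p))‖ := fun f =>
    Summable.of_nonneg_of_le (fun _ => norm_nonneg _) (fun p => h2 p _)
      ((summ1 f).comp_injective hg)
  let J : lp Y 1 →ₗ[ℝ] lp X 1 :=
    ⟨⟨fun f => ⟨fun p => R p (f (g p)), mem1.2 (hsumR f)⟩, fun a b => by
      ext q
      simp⟩, fun c a => by
      ext q
      simp⟩
  have hJn : ∀ f, ‖J f‖ ≤ 1 * ‖f‖ := by
    intro f
    rw [one_mul, norm1, norm1]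
    have h3 : ∑' p, ‖J f p‖ ≤ ∑' p, ‖f (g p)‖ :=
      Summable.tsum_le_tsum (fun p => h2 p _) (hsumR f) ((summ1 f).comp_injective hg)
    exact h3.trans (tsum_comp_le_tsum_of_inj (summ1 f) (fun _ => norm_nonneg _) hg)
  refine ⟨I.mkContinuous 1 hIn, J.mkContinuous 1 hJn, ?_, ?_, ?_⟩
  · intro f
    ext p
    change R p (L (g p) f) = f p
    rw [hL3, (hR p).1]
  · exact LinearMap.mkContinuous_norm_le _ zero_le_one _
  · exact LinearMap.mkContinuous_norm_le _ zero_le_one _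

end Pool.Agent.W6h79.LD
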