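import Pool.Agent.W6h79.LD.Defs8

/-! (W6) fewer coins. -/

open MeasureTheory Set Filter
open scoped ENNReal NNReal Topology

noncomputable section

namespace Pool.Agent.W6h79.LD

universe u

theorem W6x.mp {A B : Type u} (e : A ↪ B) :
    MeasurePreserving (fun x : B → Bool => fun a => x (e a)) (coins B) (coins A) := by
  have hm : Measurable (fun x : B → Bool => fun a : A => x (e a)) :=
    measurable_pi_lambda _ fun a => measurable_pi_apply (e a)
  refine ⟨hm, ?_⟩
  unfold coins
  apply Measure.eq_infinitePi
  intro s t ht
  rw [Measure.map_apply hm (MeasurableSet.pi s.countable_toSet fun i _ => ht i)]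
  have h1 : (fun x : B → Bool => fun a : A => x (e a)) ⁻¹' (Set.pi (↑s) t) =
      Set.pi (↑(s.map e)) (Function.extend e t (fun _ => Set.univ)) := by
    ext x
    simp only [mem_preimage, Set.mem_pi, Finset.coe_map, mem_image, forall_exists_index, and_imp,
      forall_apply_eq_imp_iff₂]
    constructor
    · intro h a ha
      rw [e.injective.extend_apply]
      exact h a ha
    · intro h a ha
      have := h a ha
      rwa [e.injective.extend_apply] at this
  rw [h1, Measure.infinitePi_pi _ (fun i _ => MeasurableSet.of_discrete), Finset.prod_map]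
  refine Finset.prod_congr rfl fun a _ => ?_
  rw [e.injective.extend_apply]

theorem sW6 (h3 : S_T3.{u, u}) : S_W6.{u} := by
  intro A B hAB
  obtain ⟨e⟩ := (Cardinal.le_def A B).1 hAB
  exact h3 _ _ (coins B) (coins A) _ inferInstance (W6x.mp e)

end Pool.Agent.W6h79.LD
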