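import Pool.Agent.W6h79.LD.Defs8

/-!
# (W7): a maximal decomposition into atoms and homogeneous atomless sets
-/

open MeasureTheory Set Filter
open scoped ENNReal NNReal Topology

noncomputable section

namespace Pool.Agent.W6h79.LD

universe u

namespace W7

theorem dens_restrict {Ω : Type u} [MeasurableSpace Ω] (ν : Measure Ω) {s : Set Ω}
    (hs : MeasurableSet s) (D : Set (Lp ℝ 1 ν)) (hD : Dense D) :
    ∃ D' : Set (Lp ℝ 1 (ν.restrict s)), Dense D' ∧ Cardinal.mk D' ≤ Cardinal.mk D := by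
  let R := LpToLpRestrictCLM Ω ℝ ℝ ν 1 s
  have hsurj : Function.Surjective R := by
    intro g
    have hg : MemLp (s.indicator g) 1 ν := (memLp_indicator_iff_restrict hs).2 (Lp.memLp g)
    refine ⟨hg.toLp _, Lp.ext ?_⟩
    refine (LpToLpRestrictCLM_coeFn ℝ s _).trans ?_
    have h1 : (hg.toLp _ : Ω → ℝ) =ᵐ[ν.restrict s] s.indicator g :=
      ae_restrict_of_ae hg.coeFn_toLp
    exact h1.trans (indicator_ae_eq_restrict hs)
  exact ⟨R '' D, hsurj.denseRange.dense_image R.continuous hD, Cardinal.mk_image_le⟩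

theorem dens_mono {Ω : Type u} [MeasurableSpace Ω] (μ : Measure Ω) {G F : Set Ω}
    (hF : MeasurableSet F) (hFG : F ⊆ G) (D : Set (Lp ℝ 1 (μ.restrict G))) (hD : Dense D) :
    ∃ D' : Set (Lp ℝ 1 (μ.restrict F)), Dense D' ∧ Cardinal.mk D' ≤ Cardinal.mk D := by
  have h := dens_restrict (μ.restrict G) hF D hD
  rwa [Measure.restrict_restrict hF, inter_eq_self_of_subset_left hFG] at h

theorem infinite_dense {Ω : Type u} [MeasurableSpace Ω] (ν : Measure Ω) (h0 : 0 < ν univ)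
    (h1 : ν univ < ∞) (D : Set (Lp ℝ 1 ν)) (hD : Dense D) :
    Cardinal.aleph0 ≤ Cardinal.mk D := by
  rw [← not_lt, Cardinal.lt_aleph0_iff_set_finite]
  intro hfin
  have h2 : D = univ := by rw [← hD.closure_eq, hfin.isClosed.closure_eq]
  rw [h2, Set.finite_univ_iff] at hfin
  let x : Lp ℝ 1 ν := indicatorConstLp 1 MeasurableSet.univ h1.ne (1 : ℝ)
  have hx : x ≠ 0 := by
    intro hx
    have h3 : ‖x‖ = 0 := by rw [hx, norm_zero]
    rw [norm_indicatorConstLp one_ne_zero ENNReal.one_ne_top] at h3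
    have h4 : 0 < ν.real univ := ENNReal.toReal_pos h0.ne' h1.ne
    simp at h3
    exact h4.ne' h3
  exact not_finite_iff_infinite.2 (Infinite.of_injective _ (smul_left_injective ℝ hx)) hfin

/-- a homogeneous subset -/
theorem exists_hom {Ω : Type u} [MeasurableSpace Ω] (μ : Measure Ω) {F : Set Ω}
    (hF : MeasurableSet F) (hF0 : 0 < μ F) (hFt : μ F < ∞) :
    ∃ E ⊆ F, MeasurableSet E ∧ 0 < μ E ∧ ∃ κ : Cardinal.{u}, Cardinal.aleph0 ≤ κ ∧
      HomOn κ μ E := by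
  set S : Set Cardinal.{u} := {κ | ∃ G ⊆ F, MeasurableSet G ∧ 0 < μ G ∧
    ∃ D : Set (Lp ℝ 1 (μ.restrict G)), Dense D ∧ Cardinal.mk D = κ} with hS
  have hne : S.Nonempty := ⟨_, F, Subset.rfl, hF, hF0, univ, dense_univ, rfl⟩
  obtain ⟨G, hGF, hG, hG0, D, hD, hDk⟩ := csInf_mem hne
  refine ⟨G, hGF, hG, hG0, sInf S, ?_, ?_⟩
  · rw [← hDk]
    refine infinite_dense _ ?_ ?_ D hD
    · rwa [Measure.restrict_apply_univ]
    · rw [Measure.restrict_apply_univ]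
      exact (measure_mono hGF).trans_lt hFt
  · intro F' hF'G hF' hF'0
    refine ⟨?_, ?_⟩
    · obtain ⟨D', hD', hle⟩ := dens_mono μ hF' hF'G D hD
      exact ⟨D', hD', hle.trans hDk.le⟩
    · rintro ⟨D', hD', hlt⟩
      have : sInf S ≤ Cardinal.mk D' :=
        csInf_le' ⟨F', hF'G.trans hGF, hF', hF'0, D', hD', rfl⟩
      exact absurd hlt (not_lt.2 this)

end W7

theorem sW7 : S_W7.{u} := by
  intro Ω _ μ
  let T : Set (Set (Set Ω)) := {𝓔 : Set (Set Ω) |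
      (∀ E ∈ 𝓔, MeasurableSet E ∧ 0 < μ E ∧ μ E < ∞ ∧
        (AtomSet μ E ∨ ((∀ A ⊆ E, ¬ AtomSet μ A) ∧
          ∃ κ : Cardinal.{u}, Cardinal.aleph0 ≤ κ ∧ HomOn κ μ E))) ∧
      (∀ E ∈ 𝓔, ∀ E' ∈ 𝓔, E ≠ E' → μ (E ∩ E') = 0)}
  obtain ⟨𝓔, h𝓔⟩ := zorn_subset T (by
    intro c hc hchain
    refine ⟨⋃₀ c, ⟨?_, ?_⟩, fun s hs => subset_sUnion_of_mem hs⟩
    · rintro E ⟨t, ht, hE⟩
      exact (hc ht).1 E hE
    · rintro E ⟨t, ht, hE⟩ E' ⟨t', ht', hE'⟩ hne
      rcases hchain.total ht ht' with h | h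
      · exact (hc ht').2 E (h hE) E' hE' hne
      · exact (hc ht).2 E hE E' (h hE') hne)
  refine ⟨𝓔, ⟨fun E hE => ?_, h𝓔.prop.2, ?_⟩, fun E hE hna => ?_⟩
  · obtain ⟨h1, h2, h3, h4⟩ := h𝓔.prop.1 E hE
    exact ⟨h1, h2, h3, h4.imp id fun h => h.1⟩
  · intro F hF hF0 hFt
    by_contra hcon
    push Not at hcon
    have hnull : ∀ E ∈ 𝓔, μ (F ∩ E) = 0 := fun E hE => nonpos_iff_eq_zero.1 (hcon E hE)
    obtain ⟨E', hE'F, hE'm, hE'0, hE'a⟩ : ∃ E' ⊆ F, MeasurableSet E' ∧ 0 < μ E' ∧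
        (AtomSet μ E' ∨ ((∀ A ⊆ E', ¬ AtomSet μ A) ∧
          ∃ κ : Cardinal.{u}, Cardinal.aleph0 ≤ κ ∧ HomOn κ μ E')) := by
      by_cases h : ∃ A ⊆ F, AtomSet μ A
      · obtain ⟨A, hAF, hA⟩ := h
        exact ⟨A, hAF, hA.1, hA.2.1, Or.inl hA⟩
      · push Not at h
        obtain ⟨E, hEF, hE, hE0, hκ⟩ := W7.exists_hom μ hF hF0 hFt
        exact ⟨E, hEF, hE, hE0, Or.inr ⟨fun A hA => h A (hA.trans hEF), hκ⟩⟩
    have hmem : insert E' 𝓔 ∈ T := by
      refine ⟨?_, ?_⟩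
      · intro E hE
        rcases mem_insert_iff.1 hE with rfl | hE
        · exact ⟨hE'm, hE'0, lt_of_le_of_lt (measure_mono hE'F) hFt, hE'a⟩
        · exact h𝓔.prop.1 E hE
      · intro E hE E₂ hE₂ hne
        rcases mem_insert_iff.1 hE with h1 | h1
        · rcases mem_insert_iff.1 hE₂ with h2 | h2
          · exact absurd (h1.trans h2.symm) hne
          · rw [h1]
            exact measure_mono_null (inter_subset_inter_left _ hE'F) (hnull E₂ h2)
        · rcases mem_insert_iff.1 hE₂ with h2 | h2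
          · rw [h2, inter_comm]
            exact measure_mono_null (inter_subset_inter_left _ hE'F) (hnull E h1)
          · exact h𝓔.prop.2 E h1 E₂ h2 hne
    have hin : E' ∈ 𝓔 := h𝓔.le_of_ge hmem (subset_insert _ _) (mem_insert _ _)
    have h1 := hnull E' hin
    rw [inter_eq_self_of_subset_right hE'F] at h1
    exact hE'0.ne' h1
  · obtain ⟨-, -, -, h4⟩ := h𝓔.prop.1 E hE
    rcases h4 with h4 | h4
    · exact absurd h4 hna
    · exact h4.2

end Pool.Agent.W6h79.LD
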