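import Pool.Agent.W6h79.LD.Defs8

/-!
# (W8) homogeneous sets against coins
-/

open MeasureTheory Set Filter
open scoped ENNReal NNReal Topology

noncomputable section

namespace Pool.Agent.W6h79.LD

namespace W8

theorem ceTrans.{u, v, w} {X : Type u} {Y : Type v} {Z : Type w} [NormedAddCommGroup X]
    [NormedSpace ℝ X] [NormedAddCommGroup Y] [NormedSpace ℝ Y] [NormedAddCommGroup Z]
    [NormedSpace ℝ Z] (h1 : CE X Y) (h2 : CE Y Z) : CE X Z := by
  obtain ⟨i, P, hP, hi1, hP1⟩ := h1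
  obtain ⟨j, Q, hQ, hj1, hQ1⟩ := h2
  refine ⟨j.comp i, P.comp Q, fun x => by simp [hQ, hP], ?_, ?_⟩
  · exact (ContinuousLinearMap.opNorm_comp_le j i).trans
      (mul_le_one₀ hj1 (norm_nonneg _) hi1)
  · exact (ContinuousLinearMap.opNorm_comp_le P Q).trans
      (mul_le_one₀ hP1 (norm_nonneg _) hQ1)

theorem ceEquiv.{u, v} {X : Type u} {Y : Type v} [NormedAddCommGroup X]
    [NormedSpace ℝ X] [NormedAddCommGroup Y] [NormedSpace ℝ Y] (e : X ≃ₗᵢ[ℝ] Y) : CE X Y := by
  refine ⟨(e : X →L[ℝ] Y), (e.symm : Y →L[ℝ] X), fun x => by simp, ?_, ?_⟩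
  · refine ContinuousLinearMap.opNorm_le_bound _ zero_le_one fun x => ?_
    simp
  · refine ContinuousLinearMap.opNorm_le_bound _ zero_le_one fun x => ?_
    simp

theorem coin_one (b : Bool) : coin {b} = (2⁻¹ : ℝ≥0∞) := by
  rw [coin, Measure.smul_apply, Measure.count_singleton]
  simp

/-- The coins have no atoms. -/
theorem coins_atomless.{u} (A : Type u) [Infinite A] (B : Set (A → Bool)) :
    ¬ AtomSet (coins A) B := by
  classical
  rintro ⟨hB, hpos, hat⟩
  have hm : ∀ (a : A) (b : Bool), MeasurableSet {x : A → Bool | x a = b} := fun a b => by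
    have h1 : Measurable fun x : A → Bool => x a := measurable_pi_apply a
    exact h1 (measurableSet_singleton b)
  have hs : ∀ a : A, ∃ b : Bool, coins A (B ∩ {x | x a ≠ b}) = 0 := by
    intro a
    rcases hat (B ∩ {x | x a = true}) inter_subset_left (hB.inter (hm a true)) with h | h
    · refine ⟨false, ?_⟩
      have e : B ∩ {x : A → Bool | x a ≠ false} = B ∩ {x | x a = true} := by
        ext x
        simp
      rw [e]
      exact h
    · refine ⟨true, ?_⟩
      have e : B ∩ {x : A → Bool | x a ≠ true} = B \ (B ∩ {x | x a = true}) := by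
        ext x
        simp only [mem_inter_iff, Set.mem_sdiff, mem_ofPred_eq]
        tauto
      rw [e]
      exact h
  choose s hs using hs
  have hle : ∀ n : ℕ, coins A B ≤ (2⁻¹ : ℝ≥0∞) ^ n := by
    intro n
    obtain ⟨F, hF⟩ := Infinite.exists_subset_card_eq A n
    have h2 : coins A (Set.pi (F : Set A) (fun i => {s i})) = ∏ i ∈ F, coin {s i} :=
      Measure.infinitePi_pi (fun _ : A => coin) (fun i _ => measurableSet_singleton _)
    have hsub : B ⊆ Set.pi (F : Set A) (fun i => {s i}) ∪ ⋃ a ∈ F, (B ∩ {x | x a ≠ s a}) := by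
      intro x hx
      by_cases h : ∀ a ∈ F, x a = s a
      · exact Or.inl fun a ha => h a ha
      · push Not at h
        obtain ⟨a, ha, hne⟩ := h
        exact Or.inr (mem_biUnion (show a ∈ (F : Set A) from ha) ⟨hx, hne⟩)
    calc coins A B ≤ coins A (Set.pi (F : Set A) (fun i => {s i}) ∪
          ⋃ a ∈ F, (B ∩ {x | x a ≠ s a})) := measure_mono hsub
      _ ≤ coins A (Set.pi (F : Set A) (fun i => {s i})) +
          coins A (⋃ a ∈ F, (B ∩ {x | x a ≠ s a})) := measure_union_le _ _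
      _ ≤ (2⁻¹ : ℝ≥0∞) ^ n + ∑ a ∈ F, coins A (B ∩ {x | x a ≠ s a}) := by
          refine add_le_add (le_of_eq ?_) (measure_biUnion_finset_le _ _)
          rw [h2]
          simp_rw [coin_one]
          rw [Finset.prod_const, hF]
      _ = (2⁻¹ : ℝ≥0∞) ^ n := by
          rw [Finset.sum_eq_zero fun a _ => hs a, add_zero]
  have h3 : Tendsto (fun n : ℕ => (2⁻¹ : ℝ≥0∞) ^ n) atTop (𝓝 0) :=
    ENNReal.tendsto_pow_atTop_nhds_zero_of_lt_one (by
      rw [ENNReal.inv_lt_one]; exact ENNReal.one_lt_two)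
  exact hpos.ne' (le_antisymm (ge_of_tendsto' h3 hle) zero_le)

theorem coins_separable.{u} (A : Type u) [Countable A] :
    TopologicalSpace.SeparableSpace (Lp ℝ 1 (coins A)) := by
  have : Fact ((1 : ℝ≥0∞) ≠ ∞) := ⟨ENNReal.one_ne_top⟩
  infer_instance

theorem restrict_atomless.{u} {Ω : Type u} [MeasurableSpace Ω] {μ : Measure Ω} {E : Set Ω}
    (hE : MeasurableSet E) (hat : ∀ B ⊆ E, ¬ AtomSet μ B) (B : Set Ω) :
    ¬ AtomSet (μ.restrict E) B := by
  rintro ⟨hB, hpos, h⟩
  rw [Measure.restrict_apply hB] at hpos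
  refine hat (B ∩ E) inter_subset_right ⟨hB.inter hE, hpos, fun C hC hCm => ?_⟩
  rcases h C (hC.trans inter_subset_left) hCm with h1 | h1
  · left
    rw [Measure.restrict_apply hCm, inter_eq_left.2 (hC.trans inter_subset_right)] at h1
    exact h1
  · right
    rw [Measure.restrict_apply (hB.diff hCm)] at h1
    refine measure_mono_null ?_ h1
    rintro x ⟨⟨h1, h2⟩, h3⟩
    exact ⟨⟨h1, h3⟩, h2⟩

end W8

open W8

theorem sW8.{u} (hP : S_P7.{u}) (h12 : S_T12.{u}) (h6 : S_T6.{u}) (h5 : S_T5'.{u}) :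
    S_W8.{u} := by
  intro A hA Ω _ μ E hE hE0 hEfin hat hom
  obtain ⟨⟨D, hD, hDc⟩, hdens⟩ := hom E subset_rfl hE hE0
  have hfin : IsFiniteMeasure (μ.restrict E) := ⟨by
    rw [Measure.restrict_apply_univ]
    exact hEfin⟩
  have hne : μ.restrict E ≠ 0 := by
    intro h
    have h1 : μ.restrict E univ = 0 := by rw [h]; rfl
    rw [Measure.restrict_apply_univ] at h1
    exact hE0.ne' h1
  rcases hA with h0 | hreg
  · have : Countable A := Cardinal.mk_le_aleph0_iff.1 h0.le
    have : Infinite A := Cardinal.infinite_iff.2 h0.ge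
    have hsep : TopologicalSpace.SeparableSpace (Lp ℝ 1 (μ.restrict E)) :=
      ⟨⟨D, Cardinal.le_aleph0_iff_set_countable.1 (h0 ▸ hDc), hD⟩⟩
    obtain ⟨e⟩ := hP Ω (μ.restrict E) hfin hne hsep (restrict_atomless hE hat)
    have hc0 : coins A ≠ 0 := IsProbabilityMeasure.ne_zero _
    obtain ⟨f⟩ := hP (A → Bool) (coins A) inferInstance hc0 (coins_separable A)
      (coins_atomless A)
    exact ⟨ceEquiv (f.trans e.symm), ceEquiv (e.trans f.symm)⟩
  · have hlt : Cardinal.aleph0 < Cardinal.mk A := by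
      have h2 : (2 : Cardinal.{u}) < Cardinal.mk A :=
        lt_of_lt_of_le (by exact_mod_cast Cardinal.natCast_lt_aleph0 (n := 2)) hreg.1.aleph0_le
      exact (Cardinal.cantor _).trans (hreg.2 2 h2)
    have : Infinite A := Cardinal.infinite_iff.2 hlt.le
    refine ⟨h12 A hreg.1 hlt Ω μ E hE hEfin hdens, ?_⟩
    obtain ⟨ν, hν, ⟨e⟩⟩ := h6 A inferInstance Ω (μ.restrict E) hfin hne ⟨D, hD, hDc⟩
    exact ceTrans (ceEquiv e) (h5 A inferInstance ν hν)

end Pool.Agent.W6h79.LD
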