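import Pool.Agent.W6h79.LD.Defs8

/-!
# (W9) the injection
-/

open Cardinal

noncomputable section

namespace Pool.Agent.W6h79.LD

theorem W9.greedy.{u} {D P : Type u} (r : D → D → Prop) (hr : WellFounded r)
    (htri : ∀ a b, a ≠ b → r a b ∨ r b a) (S : D → Set P)
    (hS : ∀ d, Cardinal.mk {d' // r d' d} < Cardinal.mk (S d)) :
    ∃ g : D → P, Function.Injective g ∧ ∀ d, g d ∈ S d := by
  classical
  have key : ∀ (d : D) (f : ∀ d', r d' d → P), ∃ q, q ∈ S d ∧ ∀ d' (h : r d' d), f d' h ≠ q := by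
    intro d f
    by_contra hcon
    push Not at hcon
    have h1 : S d ⊆ Set.range (fun x : {d' // r d' d} => f x.1 x.2) := by
      intro q hq
      obtain ⟨d', h, e⟩ := hcon q hq
      exact ⟨⟨d', h⟩, e⟩
    have h2 := (Cardinal.mk_le_mk_of_subset h1).trans Cardinal.mk_range_le
    exact absurd (hS d) (not_lt.2 h2)
  choose F hF1 hF2 using key
  let g : D → P := hr.fix F
  have hg : ∀ d, g d = F d (fun d' _ => g d') := fun d => hr.fix_eq F d
  refine ⟨g, ?_, fun d => by rw [hg]; exact hF1 d _⟩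
  intro a b hab
  by_contra hne
  rcases htri a b hne with h | h
  · have := hF2 b (fun d' _ => g d') a h
    rw [← hg] at this
    exact this hab
  · have := hF2 a (fun d' _ => g d') b h
    rw [← hg] at this
    exact this hab.symm

theorem sW9.{u} : S_W9.{u} := by
  classical
  intro P t ht h2
  let h : P → Cardinal.{u} := fun p => Cardinal.mk {q // t p ≤ t q}
  have hinf : ∀ p, Cardinal.aleph0 ≤ h p := fun p =>
    ((ht p).trans (Cardinal.cantor _).le).trans (h2 p)
  have hmono : ∀ p q, t p ≤ t q → h q ≤ h p := fun p q hpq =>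
    Cardinal.mk_le_of_injective
      (f := fun x : {x // t q ≤ t x} => (⟨x.1, hpq.trans x.2⟩ : {x // t p ≤ t x}))
      (by intro a b hab; have h9 := congrArg Subtype.val hab; exact Subtype.ext h9)
  have hcount : ∀ A : Set P, A.Nonempty → ∃ p0 ∈ A,
      Cardinal.mk {d : (Σ p : P, ((t p).out → Bool)) // d.1 ∈ A} ≤ h p0 := by
    intro A hA
    obtain ⟨p0, hp0, hmin⟩ : ∃ p0 ∈ A, ∀ p ∈ A, t p0 ≤ t p := by
      have hw := (Cardinal.lt_wf.{u}).has_min (t '' A) (hA.image t)
      obtain ⟨c, ⟨p0, hp0, rfl⟩, hc⟩ := hw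
      exact ⟨p0, hp0, fun p hp => not_lt.1 (hc (t p) ⟨p, hp, rfl⟩)⟩
    refine ⟨p0, hp0, ?_⟩
    have hA1 : Cardinal.mk A ≤ h p0 := Cardinal.mk_le_of_injective
      (f := fun x : A => (⟨x.1, hmin x.1 x.2⟩ : {x // t p0 ≤ t x}))
      (by intro a b hab; have h9 := congrArg Subtype.val hab; exact Subtype.ext h9)
    calc Cardinal.mk {d : (Σ p : P, ((t p).out → Bool)) // d.1 ∈ A}
        ≤ Cardinal.mk (Σ p : A, ((t p.1).out → Bool)) := by
          refine Cardinal.mk_le_of_injective (f := fun d => ⟨⟨d.1.1, d.2⟩, d.1.2⟩) ?_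
          rintro ⟨⟨p, x⟩, hp⟩ ⟨⟨q, y⟩, hq⟩ hxy
          simp only [Sigma.mk.injEq, Subtype.mk.injEq] at hxy
          obtain ⟨rfl, hxy⟩ := hxy
          rw [heq_eq_eq] at hxy
          subst hxy
          rfl
      _ = Cardinal.sum (fun p : A => Cardinal.mk ((t p.1).out → Bool)) := Cardinal.mk_sigma _
      _ ≤ Cardinal.sum (fun _ : A => h p0) := by
          refine Cardinal.sum_le_sum _ _ fun p => ?_
          have h3 : Cardinal.mk ((t p.1).out → Bool) = 2 ^ t p.1 := by
            have h4 := Cardinal.mk_arrow ((t p.1).out) Bool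
            rw [h4, Cardinal.mk_bool, Cardinal.mk_out]
            simp
          rw [h3]
          exact (h2 p.1).trans (hmono p0 p.1 (hmin p.1 p.2))
      _ = Cardinal.mk A * h p0 := by rw [Cardinal.sum_const']
      _ ≤ h p0 * h p0 := by gcongr
      _ = h p0 := Cardinal.mul_eq_self (hinf p0)
  -- the rank inside a class
  let Dl : Cardinal.{u} → Type u := fun l =>
    {d : (Σ p : P, ((t p).out → Bool)) // h d.1 = l}
  have hord := fun l : Cardinal.{u} => Cardinal.exists_ord_eq (Dl l)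
  choose R hwo hR using hord
  let ρ' : ∀ (l : Cardinal.{u}) (d : (Σ p : P, ((t p).out → Bool))), h d.1 = l → Ordinal.{u} :=
    fun l d e => @Ordinal.typein (Dl l) (R l) (hwo l) ⟨d, e⟩
  let ρ : (Σ p : P, ((t p).out → Bool)) → Ordinal.{u} := fun d => ρ' (h d.1) d rfl
  have hρ : ∀ (d : (Σ p : P, ((t p).out → Bool))) (l : Cardinal.{u}) (e : h d.1 = l),
      ρ d = ρ' l d e := by
    intro d l e
    subst e
    rfl
  let r : (Σ p : P, ((t p).out → Bool)) → (Σ p : P, ((t p).out → Bool)) → Prop :=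
    fun a b => h a.1 < h b.1 ∨ (h a.1 = h b.1 ∧ ρ a < ρ b)
  have hr : WellFounded r := by
    have hw : WellFounded (InvImage (Prod.Lex ((· < ·) : Cardinal.{u} → Cardinal.{u} → Prop)
        ((· < ·) : Ordinal.{u} → Ordinal.{u} → Prop)) (fun d => (h d.1, ρ d))) :=
      InvImage.wf _ (WellFounded.prod_lex Cardinal.lt_wf Ordinal.lt_wf)
    refine Subrelation.wf (r := InvImage (Prod.Lex (· < ·) (· < ·)) (fun d => (h d.1, ρ d)))
      ?_ hw
    intro a b hab
    rw [InvImage, Prod.lex_def]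
    exact hab
  have htri : ∀ a b, a ≠ b → r a b ∨ r b a := by
    intro a b hab
    rcases lt_trichotomy (h a.1) (h b.1) with h1 | h1 | h1
    · exact Or.inl (Or.inl h1)
    · rcases lt_trichotomy (ρ a) (ρ b) with h3 | h3 | h3
      · exact Or.inl (Or.inr ⟨h1, h3⟩)
      · exfalso
        apply hab
        rw [hρ a _ h1, hρ b _ rfl] at h3
        haveI := hwo (h b.1)
        have h4 := (Ordinal.typein_injective (R (h b.1))) h3
        exact congrArg Subtype.val h4
      · exact Or.inr (Or.inr ⟨h1.symm, h3⟩)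
    · exact Or.inr (Or.inl h1)
  obtain ⟨g, hg1, hg2⟩ := W9.greedy r hr htri (fun d => {q | t d.1 ≤ t q}) (by
    intro d
    change _ < h d.1
    have h3 : Cardinal.mk {d' // r d' d} ≤
        Cardinal.mk {d' : (Σ p : P, ((t p).out → Bool)) // h d'.1 < h d.1} +
          Cardinal.mk {d' : (Σ p : P, ((t p).out → Bool)) // h d'.1 = h d.1 ∧ ρ d' < ρ d} := by
      exact Cardinal.mk_union_le {d' : (Σ p : P, ((t p).out → Bool)) | h d'.1 < h d.1}
        {d' : (Σ p : P, ((t p).out → Bool)) | h d'.1 = h d.1 ∧ ρ d' < ρ d}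
    refine h3.trans_lt (Cardinal.add_lt_of_lt (hinf d.1) ?_ ?_)
    · rcases Set.eq_empty_or_nonempty {p : P | h p < h d.1} with he | hne
      · have : IsEmpty {d' : (Σ p : P, ((t p).out → Bool)) // h d'.1 < h d.1} := by
          refine ⟨fun x => ?_⟩
          have : x.1.1 ∈ {p : P | h p < h d.1} := x.2
          rw [he] at this
          exact this
        rw [Cardinal.mk_eq_zero]
        exact Cardinal.aleph0_pos.trans_le (hinf d.1)
      · obtain ⟨p0, hp0, hle⟩ := hcount _ hne
        exact hle.trans_lt hp0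
    · have h4 : Cardinal.mk (Dl (h d.1)) ≤ h d.1 := by
        obtain ⟨p0, hp0, hle⟩ := hcount {p : P | h p = h d.1} ⟨d.1, rfl⟩
        have hp0' : h p0 = h d.1 := hp0
        rw [hp0'] at hle
        exact hle
      haveI := hwo (h d.1)
      have h5 := Cardinal.card_typein_lt (r := R (h d.1)) ⟨d, rfl⟩ (hR (h d.1))
      rw [Ordinal.card_typein] at h5
      refine lt_of_le_of_lt ?_ (h5.trans_le h4)
      refine Cardinal.mk_le_of_injective
        (f := fun x : {d' : (Σ p : P, ((t p).out → Bool)) // h d'.1 = h d.1 ∧ ρ d' < ρ d} =>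
          (⟨⟨x.1, x.2.1⟩, ?_⟩ : {y : Dl (h d.1) // R (h d.1) y ⟨d, rfl⟩})) ?_
      · have h6 := x.2.2
        have h7 : ρ' (h d.1) x.1 x.2.1 < ρ' (h d.1) d rfl :=
          lt_of_eq_of_lt (hρ x.1 _ x.2.1).symm (h6.trans_eq (hρ d _ rfl))
        exact (Ordinal.typein_lt_typein (R (h d.1))).1 h7
      · intro a b hab
        have := congrArg (fun y => (y.1.1 : (Σ p : P, ((t p).out → Bool)))) hab
        exact Subtype.ext this)
  exact ⟨g, hg1, hg2⟩

end Pool.Agent.W6h79.LD
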