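import Pool.Agent.W6h79.LD.All2
import Pool.Agent.W6h79.LD.All3
import Pool.Agent.W6h79.LD.Fin8
import Pool.Agent.W6h79.LD.T1
import Pool.Agent.W6h79.LD.T2
import Pool.Agent.W6h79.LD.T3
import Pool.Agent.W6h79.LD.T4
import Pool.Agent.W6h79.LD.T5a
import Pool.Agent.W6h79.LD.T5
import Pool.Agent.W6h79.LD.T5p
import Pool.Agent.W6h79.LD.T6
import Pool.Agent.W6h79.LD.T7
import Pool.Agent.W6h79.LD.T8a
import Pool.Agent.W6h79.LD.T8b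
import Pool.Agent.W6h79.LD.T8c
import Pool.Agent.W6h79.LD.T8d
import Pool.Agent.W6h79.LD.T8f
import Pool.Agent.W6h79.LD.T12
import Pool.Agent.W6h79.LD.T13
import Pool.Agent.W6h79.LD.W1
import Pool.Agent.W6h79.LD.W2
import Pool.Agent.W6h79.LD.W3
import Pool.Agent.W6h79.LD.W4
import Pool.Agent.W6h79.LD.W5
import Pool.Agent.W6h79.LD.W6
import Pool.Agent.W6h79.LD.W7
import Pool.Agent.W6h79.LD.W8
import Pool.Agent.W6h79.LD.W9
import Pool.Agent.W6h79.LD.W10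
import Pool.Agent.W6h79.LD.W11

open MeasureTheory

noncomputable section

namespace Pool.Agent.W6h79.LD

theorem hT5.{u} : S_T5.{u} := sT5 sT4 sT5a sD4m

theorem hT5p.{u} : S_T5'.{u} := sT5p sT3 hT5 sT7

theorem hT12.{u} : S_T12.{u} := sT12 sT3 hMah

theorem hW1.{u} : S_W1.{u} := sW1 sT8a sT8b sT8d

theorem hW2.{u} : S_W2.{u} := sW2 hW1 sW3 hT5p sT8c sT8f

theorem hW6.{u} : S_W6.{u} := sW6 sT3

theorem hW8.{u} : S_W8.{u} := sW8 hP7 hT12 sT6 hT5p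

theorem hW10.{u} : S_W10.{u} := sW10 hW2 sW3 sW4 sW5 hW6 sW9 sT2

theorem hNec8.{u} (Ω : Type u) [MeasurableSpace Ω] (μ : Measure Ω)
    (hd : IsoToDual ℝ (Lp ℝ 1 μ) ∨ IsoToDual ℂ (Lp ℂ 1 μ)) : CondAll μ :=
  nec8 main2 (sMain2C main2 sJ) hMainK sJ sKC sInd hMah Ω μ hd

theorem hSuf8.{u} (Ω : Type u) [MeasurableSpace Ω] (μ : Measure Ω) (hg : GoodTypes μ)
    (hc : CondAll μ) : IsoToDual ℝ (Lp ℝ 1 μ) :=
  suf8 sW7 hW8 hW10 sW11 sR2 sR3 sK2 sL1 sL5p Ω μ hg hc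

end Pool.Agent.W6h79.LD
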