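import Pool.Agent.W6h79.LD.Defs9
import Pool.Agent.W6h79.LD.Fin8

open MeasureTheory Set Filter
open scoped ENNReal NNReal Topology

noncomputable section

namespace Pool.Agent.W6h79.LD

universe u v

/-- Necessity for higher types, embedding version, regular types above `ℵ₁`. -/
def S_MainK9.{u1, v1} : Prop := ∀ (A : Type u1), GR (Cardinal.mk A) →
    ∀ (Ω : Type u1) [MeasurableSpace Ω] (μ : Measure Ω) (𝓢 : Set (Set Ω)),
    CoversK (Cardinal.mk A) μ 𝓢 → Cardinal.mk 𝓢 < 2 ^ Cardinal.mk A →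
    ∀ (Y : Type v1) [NormedAddCommGroup Y] [NormedSpace ℝ Y]
      (U : StrongDual ℝ Y →L[ℝ] Lp ℝ 1 μ) (b : ℝ), 0 < b → (∀ x, b * ‖x‖ ≤ ‖U x‖) →
    ∀ (T : Lp ℝ 1 (coins A) →L[ℝ] StrongDual ℝ Y) (c : ℝ), 0 < c →
      ¬ (∀ f, c * ‖f‖ ≤ ‖T f‖)

theorem sMainK9 (h5 : S_X3.{u, v}) (hDA : S_DA.{u, v}) (hEA : S_EA.{u, v}) (hHA : S_HA.{u})
    (hI : S_I.{u}) : S_MainK9.{u, v} := by
  intro A hA Ω _ μ 𝓢 hcov hcard Y _ _ U b hb hU T c hc hT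
  classical
  have hA0 : Cardinal.aleph0 ≤ Cardinal.mk A := hA.1.aleph0_le
  have hAinf : Infinite A := Cardinal.infinite_iff.2 hA0
  set B : ℝ := ‖U‖ + 1 with hBdef
  have hBpos : 0 < B := by positivity
  have hUle : ∀ x, ‖U x‖ ≤ B * ‖x‖ := by
    intro x
    refine (U.le_opNorm x).trans ?_
    gcongr
    linarith
  obtain ⟨y, δ, hδ, hy1, hy⟩ := h5 A hA Y T c hc hT
  have hext := hDA A Y y δ hδ hy
  obtain ⟨w, hw1, hw2⟩ := hEA A hAinf Y y (1 / δ) hy1 hext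
  have hz : ∀ α, ∀ η : ℝ, 0 < η → ∃ (k : A) (F : Finset (Set Ω)) (M : ℕ),
      (↑F : Set (Set Ω)) ⊆ 𝓢 ∧
      ∫ ω in ((⋃₀ (↑F : Set (Set Ω))) ∩ {ω | |(U (w α k)) ω| ≤ (M : ℝ)})ᶜ,
        |(U (w α k)) ω| ∂μ ≤ η := by
    intro α
    refine hHA Ω μ 𝓢 A hA.1 hcov (fun k => U (w α k)) (B * (1 / δ)) ?_
    intro J ε hε
    have h1 : ∑ k ∈ J, ε k • U (w α k) = U (∑ k ∈ J, ε k • w α k) := by
      rw [map_sum]
      simp only [map_smul]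
    rw [h1]
    refine (hUle _).trans ?_
    rw [mul_assoc]
    gcongr
    exact hw1 α J ε hε
  set η : ℝ := b / 2 with hη
  have hηpos : 0 < η := by positivity
  choose k F M hF hint using fun α => hz α η hηpos
  -- fibre
  let f : (A → Bool) → Finset 𝓢 × ℕ := fun α =>
    ((F α).subtype (· ∈ 𝓢), M α)
  have hcard2 : Cardinal.mk (Finset 𝓢 × ℕ) < Cardinal.mk (A → Bool) := by
    have : Cardinal.mk (A → Bool) = 2 ^ Cardinal.mk A := by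
      simp
    rw [this]
    exact card_auxK hA0 hcard
  have hinfty : Infinite (Finset 𝓢 × ℕ) := inferInstance
  obtain ⟨⟨F₀, M₀⟩, hfib⟩ := Cardinal.exists_infinite_fiber f hcard2
  let X : Set (A → Bool) := {α | (F α).subtype (· ∈ 𝓢) = F₀ ∧ M α = M₀}
  have hX : X.Infinite := by
    have h1 : (f ⁻¹' {(F₀, M₀)}).Infinite := Set.infinite_coe_iff.1 hfib
    have h2 : f ⁻¹' {(F₀, M₀)} ⊆ X := by
      intro a ha
      have : f a = (F₀, M₀) := ha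
      simp only [f, Prod.mk.injEq] at this
      exact this
    exact h1.mono h2
  let Fm : Finset (Set Ω) := F₀.map (Function.Embedding.subtype _)
  have hFX : ∀ α ∈ X, F α = Fm := by
    intro α hα
    have : (F α).subtype (· ∈ 𝓢) = F₀ := hα.1
    rw [show Fm = F₀.map (Function.Embedding.subtype _) from rfl, ← this,
      Finset.subtype_map]
    rw [Finset.filter_true_of_mem]
    intro x hx
    exact hF α hx
  set G : Set Ω := ⋃₀ (↑Fm : Set (Set Ω)) with hGdef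
  have hFmS : (↑Fm : Set (Set Ω)) ⊆ 𝓢 := by
    obtain ⟨α, hα⟩ := hX.nonempty
    rw [← hFX α hα]
    exact hF α
  have hGm : MeasurableSet G :=
    MeasurableSet.sUnion (Fm.countable_toSet) (fun S hS' => (hcov.1 S (hFmS hS')).1)
  have hGfin : μ G < ∞ := by
    rw [hGdef, Set.sUnion_eq_biUnion]
    refine (measure_biUnion_lt_top Fm.finite_toSet ?_)
    intro S hS'
    exact (hcov.1 S (hFmS hS')).2
  -- the main estimate
  have main : ∀ m : ℕ, b * (m : ℝ) ≤ (M₀ : ℝ) * (μ G).toReal * Real.sqrt m + m * η := by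
    intro m
    obtain ⟨t, htX, htcard⟩ := hX.exists_subset_card_eq m
    let ι : Fin m ≃ t := (Fintype.equivFinOfCardEq (by simpa using htcard)).symm
    obtain ⟨ε, hε, hle⟩ := sgnsum_est hI μ G hGm hGfin (M₀ : ℝ) (by positivity) m η
      (fun j => U (w (ι j) (k (ι j))))
      (by
        intro j
        have hj : (ι j : A → Bool) ∈ X := htX (ι j).2
        have := hint (ι j)
        rw [hFX _ hj, hj.2] at this
        exact this)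
    have h1 : ∑ j, ε j • U (w (ι j) (k (ι j))) =
        U (∑ j, ε j • w (ι j) (k (ι j))) := by
      rw [map_sum]
      simp only [map_smul]
    have h2 : (m : ℝ) ≤ ‖∑ j, ε j • w (ι j) (k (ι j))‖ := by
      let c : (A → Bool) → ℝ := fun α => if h : α ∈ t then ε (ι.symm ⟨α, h⟩) else 0
      have h3 := hw2 t k c
      have h4 : ∑ α ∈ t, |c α| = m := by
        have : ∀ α ∈ t, |c α| = 1 := by
          intro α hα
          simp only [c, dif_pos hα]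
          rcases hε (ι.symm ⟨α, hα⟩) with h | h <;> rw [h] <;> simp
        rw [Finset.sum_congr rfl this]
        simp [htcard]
      have h5 : ∑ α ∈ t, c α • w α (k α) = ∑ j, ε j • w (ι j) (k (ι j)) := by
        rw [← Finset.sum_coe_sort t (fun α => c α • w α (k α))]
        rw [← ι.sum_comp]
        refine Finset.sum_congr rfl (fun j _ => ?_)
        simp only [c]
        rw [dif_pos (ι j).2]
        simp
      rw [h4, h5] at h3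
      exact h3
    calc b * (m : ℝ) ≤ b * ‖∑ j, ε j • w (ι j) (k (ι j))‖ := by gcongr
      _ ≤ ‖U (∑ j, ε j • w (ι j) (k (ι j)))‖ := hU _
      _ ≤ (M₀ : ℝ) * (μ G).toReal * Real.sqrt m + m * η := by
        rw [← h1]
        exact hle
  -- contradiction
  set Q : ℝ := (M₀ : ℝ) * (μ G).toReal with hQ
  have hQ0 : 0 ≤ Q := by positivity
  obtain ⟨N, hN⟩ := exists_nat_gt (2 * Q / b)
  have hN0 : (0 : ℝ) < N := lt_of_le_of_lt (by positivity) hN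
  have hN' : 2 * Q < N * b := (div_lt_iff₀ hb).1 hN
  have h := main (N ^ 2)
  have hsq : Real.sqrt ((N ^ 2 : ℕ) : ℝ) = N := by
    push_cast
    exact Real.sqrt_sq hN0.le
  rw [hsq] at h
  push_cast at h
  have h' : b / 2 * (N : ℝ) ^ 2 ≤ Q * N := by
    rw [hη] at h
    linarith
  nlinarith


theorem aleph0_lt_of_GR {κ : Cardinal.{u}} (h : GR κ) : Cardinal.aleph0 < κ :=
  Cardinal.aleph0_lt_aleph_one.trans h.2

/-- Real scalars. -/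
theorem finK_real9 (h : S_MainK9.{u, u}) (A : Type u) (hA : GR (Cardinal.mk A))
    (Ω : Type u) [MeasurableSpace Ω] (μ : Measure Ω) (hd : IsoToDual ℝ (Lp ℝ 1 μ))
    (V : Lp ℝ 1 (coins A) →L[ℝ] Lp ℝ 1 μ) (c : ℝ) (hc : 0 < c) (hV : ∀ f, c * ‖f‖ ≤ ‖V f‖)
    (𝓢 : Set (Set Ω)) (hcov : CoversK (Cardinal.mk A) μ 𝓢) :
    2 ^ Cardinal.mk A ≤ Cardinal.mk 𝓢 := by
  by_contra hcard
  rw [not_le] at hcard
  obtain ⟨Z, i1, i2, i3, ⟨e⟩⟩ := hd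
  obtain ⟨b, hb, hb'⟩ := bdd_below e
  obtain ⟨c1, hc1, hc'⟩ := bdd_below e.symm
  refine h A hA Ω μ 𝓢 hcov hcard Z e.symm.toContinuousLinearMap c1 hc1 hc'
    (e.toContinuousLinearMap.comp V) (b * c) (by positivity) ?_
  intro f
  calc b * c * ‖f‖ = b * (c * ‖f‖) := by ring
    _ ≤ b * ‖V f‖ := by gcongr; exact hV f
    _ ≤ ‖e.toContinuousLinearMap (V f)‖ := hb' _

/-- Complex scalars. -/
theorem finK_complex9 (h : S_MainK9.{u, u}) (hJ : S_J.{u}) (hK : S_KC.{u}) (A : Type u)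
    (hA : GR (Cardinal.mk A))
    (Ω : Type u) [MeasurableSpace Ω] (μ : Measure Ω) (hd : IsoToDual ℂ (Lp ℂ 1 μ))
    (V : Lp ℝ 1 (coins A) →L[ℝ] Lp ℝ 1 μ) (c : ℝ) (hc : 0 < c) (hV : ∀ f, c * ‖f‖ ≤ ‖V f‖)
    (𝓢 : Set (Set Ω)) (hcov : CoversK (Cardinal.mk A) μ 𝓢) :
    2 ^ Cardinal.mk A ≤ Cardinal.mk 𝓢 := by
  by_contra hcard
  rw [not_le] at hcard
  have hA0 : Cardinal.aleph0 ≤ Cardinal.mk A := hA.1.aleph0_le
  obtain ⟨Z, i1, i2, i3, ⟨e⟩⟩ := hd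
  obtain ⟨b, hb, hb'⟩ := bdd_below e
  obtain ⟨c1, hc1, hc'⟩ := bdd_below e.symm
  obtain ⟨W⟩ := hJ Ω μ
  obtain ⟨w, hw, hw'⟩ := bdd_below W
  let R : StrongDual ℝ Z ≃ₗᵢ[ℝ] StrongDual ℂ Z := StrongDual.extendRCLikeₗᵢ
  let U' : StrongDual ℝ Z →L[ℝ] Lp ℝ 1 (μ.map (Sum.inl : Ω → Ω ⊕ Ω) +
      μ.map (Sum.inr : Ω → Ω ⊕ Ω)) :=
    (W.toContinuousLinearMap.comp (e.symm.toContinuousLinearMap.restrictScalars ℝ)).comp
      R.toContinuousLinearEquiv.toContinuousLinearMap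
  let T' : Lp ℝ 1 (coins A) →L[ℝ] StrongDual ℝ Z :=
    ((R.symm.toContinuousLinearEquiv.toContinuousLinearMap.comp
      (e.toContinuousLinearMap.restrictScalars ℝ)).comp (Complex.ofRealCLM.compLpL 1 μ)).comp V
  have hcard' : Cardinal.mk (dblCover 𝓢) < 2 ^ Cardinal.mk A := by
    refine (Cardinal.mk_union_le _ _).trans_lt ?_
    refine (add_le_add Cardinal.mk_image_le Cardinal.mk_image_le).trans_lt ?_
    exact Cardinal.add_lt_of_lt (hA0.trans (Cardinal.cantor _).le) hcard hcard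
  refine h A hA (Ω ⊕ Ω) _ (dblCover 𝓢) (hK _ hA0 Ω μ 𝓢 hcov) hcard' Z U'
    (w * c1) (by positivity) ?_ T' (b * c) (by positivity) ?_
  · intro x
    have h1 : w * ‖e.symm (R x)‖ ≤ ‖U' x‖ := hw' (e.symm (R x))
    have h2 : c1 * ‖x‖ ≤ ‖e.symm (R x)‖ := by
      have := hc' (R x)
      rwa [R.norm_map] at this
    calc w * c1 * ‖x‖ = w * (c1 * ‖x‖) := by ring
      _ ≤ w * ‖e.symm (R x)‖ := by gcongr
      _ ≤ _ := h1
  · intro f
    have h1 : ‖T' f‖ = ‖e (Complex.ofRealCLM.compLpL 1 μ (V f))‖ := by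
      show ‖R.symm (e (Complex.ofRealCLM.compLpL 1 μ (V f)))‖ = _
      rw [R.symm.norm_map]
    rw [h1]
    calc b * c * ‖f‖ = b * (c * ‖f‖) := by ring
      _ ≤ b * ‖V f‖ := by gcongr; exact hV f
      _ = b * ‖Complex.ofRealCLM.compLpL 1 μ (V f)‖ := by rw [norm_ofReal_L1]
      _ ≤ _ := hb' _

/-- Final form of the necessary condition for higher types. -/
theorem finM9 (hK : S_MainK9.{u, u}) (hJ : S_J.{u}) (hKC : S_KC.{u}) (hInd : S_Ind.{u})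
    (hMah : S_Mah.{u}) (κ : Cardinal.{u}) (hκ : GR κ) (Ω : Type u) [MeasurableSpace Ω]
    (μ : Measure Ω) (hd : IsoToDual ℝ (Lp ℝ 1 μ) ∨ IsoToDual ℂ (Lp ℂ 1 μ)) :
    (∀ E, MeasurableSet E → μ E < ∞ → DensLt κ (Lp ℝ 1 (μ.restrict E))) ∨
      ∀ 𝓢 : Set (Set Ω), CoversK κ μ 𝓢 → 2 ^ κ ≤ Cardinal.mk 𝓢 := by
  by_contra hcon
  push Not at hcon
  obtain ⟨⟨E, hE, hfin, hdens⟩, 𝓢, hcov, hlt⟩ := hcon
  have hA : Cardinal.mk κ.out = κ := Cardinal.mk_out κ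
  have hκ0 := aleph0_lt_of_GR hκ
  obtain ⟨E', -, hHal⟩ := hMah κ.out (by rw [hA]; exact hκ.1) (by rw [hA]; exact hκ0) Ω μ E hE
    hfin (by rw [hA]; exact hdens)
  obtain ⟨V, c, hc, hV⟩ := hInd Ω μ κ.out E' hHal
  have hcov' : CoversK (Cardinal.mk κ.out) μ 𝓢 := by rw [hA]; exact hcov
  have hCI : GR (Cardinal.mk κ.out) := by rw [hA]; exact hκ
  have key : 2 ^ Cardinal.mk κ.out ≤ Cardinal.mk 𝓢 := by
    rcases hd with hd | hd
    · exact finK_real9 hK κ.out hCI Ω μ hd V c hc hV 𝓢 hcov'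
    · exact finK_complex9 hK hJ hKC κ.out hCI Ω μ hd V c hc hV 𝓢 hcov'
  rw [hA] at key
  exact absurd key (not_le.2 hlt)

/-- The condition of the theorem. -/
def CondAll9 {Ω : Type u} [MeasurableSpace Ω] (μ : Measure Ω) : Prop :=
  (PurelyAtomic μ ∨ ∀ 𝓢 : Set (Set Ω), Covers μ 𝓢 → Cardinal.continuum ≤ Cardinal.mk 𝓢) ∧
  ∀ κ : Cardinal.{u}, GR κ → CondAt κ μ

/-- Necessity for every measure. -/
theorem nec9 (m2 : S_Main2.{u, u, u}) (m2C : S_Main2C.{u, u, u}) (hK : S_MainK9.{u, u})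
    (hJ : S_J.{u}) (hKC : S_KC.{u}) (hInd : S_Ind.{u}) (hMah : S_Mah.{u})
    (Ω : Type u) [MeasurableSpace Ω] (μ : Measure Ω)
    (hd : IsoToDual ℝ (Lp ℝ 1 μ) ∨ IsoToDual ℂ (Lp ℂ 1 μ)) : CondAll9 μ := by
  refine ⟨?_, fun κ hκ => finM9 hK hJ hKC hInd hMah κ hκ Ω μ hd⟩
  by_cases hcov : ∀ 𝓢 : Set (Set Ω), Covers μ 𝓢 → Cardinal.continuum ≤ Cardinal.mk 𝓢
  · exact Or.inr hcov
  · push Not at hcov
    obtain ⟨𝓢, hc, hcard⟩ := hcov
    left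
    rcases hd with ⟨Z, i1, i2, i3, ⟨e⟩⟩ | ⟨Z, i1, i2, i3, ⟨e⟩⟩
    · exact nec_real m2 μ 𝓢 hc hcard Z e
    · exact nec_complex m2C μ 𝓢 hc hcard Z e

/-- Sufficiency when all types are good. -/
theorem suf9 (h7 : S_W7.{u}) (h8 : S_X8.{u}) (h10 : S_W10.{u}) (h11 : S_X11.{u})
    (hR2 : S_R2.{u}) (hR3 : S_R3.{u}) (hK2 : S_K2.{u}) (hL1 : S_L1.{u, u, 0})
    (hL5 : S_L5'.{u, u})
    (Ω : Type u) [MeasurableSpace Ω] (μ : Measure Ω) (hg : GoodTypes9 μ) (hc : CondAll9 μ) :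
    IsoToDual ℝ (Lp ℝ 1 μ) := by
  obtain ⟨𝓔, hM, hhom⟩ := h7 Ω μ
  obtain ⟨e2⟩ := hR2 Ω μ 𝓔 hM
  have hM' := hM
  obtain ⟨hE, hdis, hmax⟩ := hM'
  let p : 𝓔 → Prop := fun E => ¬ AtomSet μ (E : Set Ω)
  obtain ⟨e5⟩ := hL5 𝓔 p (fun E : 𝓔 => Lp ℝ 1 (μ.restrict (E : Set Ω)))
  -- types
  have hex : ∀ i : {E : 𝓔 // ¬ AtomSet μ (E : Set Ω)}, ∃ κ : Cardinal.{u},
      Cardinal.aleph0 ≤ κ ∧ HomOn κ μ (i.1 : Set Ω) := fun i => hhom i.1 i.1.2 i.2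
  choose t ht0 ht using hex
  have hfree : ∀ i : {E : 𝓔 // ¬ AtomSet μ (E : Set Ω)}, ∀ A ⊆ (i.1 : Set Ω), ¬ AtomSet μ A := by
    intro i
    rcases (hE i.1 i.1.2).2.2.2 with h | h
    · exact absurd h i.2
    · exact h
  have hgood : ∀ i, GoodType9 (t i) := fun i =>
    hg (i.1 : Set Ω) (t i) (hE i.1 i.1.2).1 (hE i.1 i.1.2).2.1 (hE i.1 i.1.2).2.2.1
      (hfree i) (ht i)
  have hcount := h11 Ω μ 𝓔 hM t ht hgood (hc.1.symm) hc.2
  have hCE : ∀ i : {E : 𝓔 // ¬ AtomSet μ (E : Set Ω)},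
      CE (XC (t i).out) (Lp ℝ 1 (μ.restrict (i.1 : Set Ω))) ∧
      CE (Lp ℝ 1 (μ.restrict (i.1 : Set Ω))) (XC (t i).out) := by
    intro i
    have hcard : Cardinal.mk (t i).out = t i := Cardinal.mk_out (t i)
    exact h8 (t i).out (by rw [hcard]; exact hgood i) Ω μ (i.1 : Set Ω) (hE i.1 i.1.2).1
      (hE i.1 i.1.2).2.1 (hE i.1 i.1.2).2.2.1 (hfree i) (by rw [hcard]; exact ht i)
  obtain ⟨Z, i1, i2, i3, ⟨eZ⟩⟩ := h10 {E : 𝓔 // ¬ AtomSet μ (E : Set Ω)} t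
    (fun i => Lp ℝ 1 (μ.restrict (i.1 : Set Ω))) ht0 hCE hcount
  -- atoms
  have hat : ∀ i : {E : 𝓔 // ¬ p E}, Nonempty (Lp ℝ 1 (μ.restrict (i.1 : Set Ω)) ≃ₗᵢ[ℝ] ℝ) :=
    fun i => hR3 Ω μ (i.1 : Set Ω) (not_not.1 i.2) (hE i.1 i.1.2).2.2.1
  obtain ⟨eA⟩ := hL1 {E : 𝓔 // ¬ p E} (fun i => Lp ℝ 1 (μ.restrict (i.1 : Set Ω)))
    (fun _ => ℝ) hat
  obtain ⟨Y, j1, j2, j3, ⟨eY⟩⟩ := hK2 {E : 𝓔 // ¬ p E}
  refine ⟨Z × Y, inferInstance, inferInstance, inferInstance, ⟨?_⟩⟩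
  exact ((e2.toContinuousLinearEquiv.trans e5).trans
    (eZ.prodCongr (eA.trans eY).toContinuousLinearEquiv)).trans
    (ContinuousLinearMap.coprodEquivL (𝕜 := ℝ) (E := Z) (F := Y) (G := ℝ) ℝ)


end Pool.Agent.W6h79.LD
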