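import Pool.Agent.W6h79.LD.Defs9

/-!
# (X1) Free sets for countable set mappings
-/

open MeasureTheory Set Filter
open scoped ENNReal NNReal Topology

noncomputable section

namespace Pool.Agent.W6h79.LD

namespace PX1

/-- free sets -/
def Free.{u} {A : Type u} (I : A → Set A) (B : Set A) : Prop :=
  ∀ a ∈ B, ∀ b ∈ B, a ≠ b → a ∉ I b

/-- a maximal free subset of the complement of `S` -/
theorem ex_max.{u} {A : Type u} (I : A → Set A) (S : Set A) : ∃ M : Set A, Free I M ∧ M ⊆ Sᶜ ∧
    ∀ a, a ∉ S → a ∉ M → ¬ Free I (insert a M) := by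
  obtain ⟨M, hM⟩ := zorn_subset {M : Set A | Free I M ∧ M ⊆ Sᶜ} (by
    intro c hc hchain
    refine ⟨⋃₀ c, ⟨?_, ?_⟩, fun s hs => subset_sUnion_of_mem hs⟩
    · rintro a ⟨t, ht, ha⟩ b ⟨t', ht', hb⟩ hne
      rcases hchain.total ht ht' with h | h
      · exact (hc ht').1 a (h ha) b hb hne
      · exact (hc ht).1 a ha b (h hb) hne
    · exact sUnion_subset fun t ht => (hc ht).2)
  refine ⟨M, hM.prop.1, hM.prop.2, fun a haS haM hf => haM ?_⟩
  have h1 : insert a M ∈ {M : Set A | Free I M ∧ M ⊆ Sᶜ} :=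
    ⟨hf, insert_subset haS hM.prop.2⟩
  exact hM.le_of_ge h1 (subset_insert a M) (mem_insert a M)

/-- the maximal free subset of the complement of `S` -/
def mx.{u} {A : Type u} (I : A → Set A) (S : Set A) : Set A := (ex_max I S).choose

theorem mx_spec.{u} {A : Type u} (I : A → Set A) (S : Set A) :
    Free I (mx I S) ∧ mx I S ⊆ Sᶜ ∧ ∀ a, a ∉ S → a ∉ mx I S → ¬ Free I (insert a (mx I S)) :=
  (ex_max I S).choose_spec

/-- the iteration -/
def it.{u} {A W : Type u} [LinearOrder W] [WellFoundedLT W] (I : A → Set A) : W → Set A :=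
  wellFounded_lt.fix fun i ih => mx I (⋃ j : Iio i, ih j.1 j.2)

theorem it_eq.{u} {A W : Type u} [LinearOrder W] [WellFoundedLT W] (I : A → Set A) (i : W) :
    it I i = mx I (⋃ j : Iio i, it I j.1) := by
  conv_lhs => rw [it, WellFounded.fix_eq]
  rfl

theorem main.{u} {A W : Type u} [LinearOrder W] [WellFoundedLT W] [Uncountable W]
    (I : A → Set A) (hI : ∀ a, (I a).Countable) (hκ : (Cardinal.mk A).IsRegular)
    (hω : Cardinal.aleph0 < Cardinal.mk A) (hW : Cardinal.mk W < Cardinal.mk A) :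
    ∃ B : Set A, Cardinal.mk B = Cardinal.mk A ∧ Free I B := by
  by_contra hcon
  push Not at hcon
  have hsmall : ∀ B : Set A, Free I B → Cardinal.mk B < Cardinal.mk A := fun B hB =>
    lt_of_le_of_ne (Cardinal.mk_set_le B) fun h => hcon B h hB
  let B : W → Set A := it I
  have hB : ∀ i, B i = mx I (⋃ j : Iio i, B j.1) := it_eq I
  have hfree : ∀ i, Free I (B i) := fun i => by rw [hB]; exact (mx_spec I _).1
  have hdisj : ∀ i j, j < i → Disjoint (B j) (B i) := by
    intro i j hji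
    rw [Set.disjoint_left]
    intro x hx hx'
    rw [hB i] at hx'
    exact (mx_spec I _).2.1 hx' (mem_iUnion.mpr ⟨⟨j, hji⟩, hx⟩)
  let C : Set A := ⋃ i : W, (B i ∪ ⋃ b : B i, I b.1)
  have hC : Cardinal.mk C < Cardinal.mk A := by
    rw [Cardinal.card_iUnion_lt_iff_forall_of_isRegular hκ hW]
    intro i
    refine (Cardinal.mk_union_le _ _).trans_lt (Cardinal.add_lt_of_lt hω.le ?_ ?_)
    · exact hsmall _ (hfree i)
    · rw [Cardinal.card_iUnion_lt_iff_forall_of_isRegular hκ (hsmall _ (hfree i))]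
      exact fun b => (Cardinal.mk_le_aleph0_iff.mpr (hI b.1).to_subtype).trans_lt hω
  obtain ⟨a, ha⟩ : ∃ a, a ∉ C := by
    by_contra h
    push Not at h
    have : C = univ := eq_univ_of_forall h
    rw [this, Cardinal.mk_univ] at hC
    exact lt_irrefl _ hC
  have hx : ∀ i, ∃ x ∈ B i, x ∈ I a := by
    intro i
    have h1 : a ∉ B i := fun h => ha (mem_iUnion.mpr ⟨i, Or.inl h⟩)
    have h2 : ∀ b ∈ B i, a ∉ I b := fun b hb h =>
      ha (mem_iUnion.mpr ⟨i, Or.inr (mem_iUnion.mpr ⟨⟨b, hb⟩, h⟩)⟩)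
    have h3 : a ∉ ⋃ j : Iio i, B j.1 := by
      intro h
      obtain ⟨j, hj⟩ := mem_iUnion.mp h
      exact ha (mem_iUnion.mpr ⟨j.1, Or.inl hj⟩)
    have h4 : ¬ Free I (insert a (B i)) := by
      have := (mx_spec I (⋃ j : Iio i, B j.1)).2.2 a h3
      rw [← hB i] at this
      exact this h1
    by_contra hno
    push Not at hno
    apply h4
    intro x hx y hy hne
    rcases mem_insert_iff.mp hx with hx1 | hx1
    · rcases mem_insert_iff.mp hy with hy1 | hy1
      · exact absurd (hx1.trans hy1.symm) hne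
      · rw [hx1]
        exact h2 y hy1
    · rcases mem_insert_iff.mp hy with hy1 | hy1
      · rw [hy1]
        exact hno x hx1
      · exact hfree i x hx1 y hy1 hne
  choose x hxB hxI using hx
  have hinj : Function.Injective (fun i => (⟨x i, hxI i⟩ : I a)) := by
    intro i j hij
    have hij' : x i = x j := congrArg Subtype.val hij
    rcases lt_trichotomy i j with h | h | h
    · exact absurd (hij' ▸ hxB i) (fun h' => Set.disjoint_left.mp (hdisj j i h) h' (hxB j))
    · exact h
    · exact absurd (hij'.symm ▸ hxB j) (fun h' => Set.disjoint_left.mp (hdisj i j h) h' (hxB i))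
  have : Countable (I a) := (hI a).to_subtype
  exact (not_countable (α := W)) hinj.countable

end PX1

/-- **(X1)** -/
theorem sX1.{u} : S_X1.{u} := by
  intro A hA I hI
  have h1 : Cardinal.mk (Cardinal.aleph.{u} 1).ord.ToType = Cardinal.aleph 1 :=
    Cardinal.mk_ord_toType _
  have hunc : Uncountable (Cardinal.aleph.{u} 1).ord.ToType := by
    rw [← Cardinal.aleph0_lt_mk_iff, h1]
    exact Cardinal.aleph0_lt_aleph_one
  have hω : Cardinal.aleph0 < Cardinal.mk A := Cardinal.aleph0_lt_aleph_one.trans hA.2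
  obtain ⟨B, hB, hB'⟩ := PX1.main (W := (Cardinal.aleph.{u} 1).ord.ToType) I hI hA.1 hω
    (by rw [h1]; exact hA.2)
  exact ⟨B, hB, hB'⟩

end Pool.Agent.W6h79.LD
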