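import Pool.Agent.W6h79.LD.Defs9
import Pool.Agent.W6h79.LD.W11

/-!
# (X11) Counting pieces, regular types above the first uncountable cardinal
-/

open MeasureTheory Set Filter
open scoped ENNReal NNReal Topology

noncomputable section

namespace Pool.Agent.W6h79.LD

open PW11 in
theorem sX11.{u} : S_X11.{u} := by
  intro Ω _ μ 𝓔 hM t ht hg h0 hc p
  have hM' := hM
  obtain ⟨h1, h2, h3⟩ := hM'
  have hnat : ∀ q : {E : 𝓔 // ¬ AtomSet μ (E : Set Ω)}, ∀ A ⊆ (q.1 : Set Ω), ¬ AtomSet μ A := by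
    intro q
    rcases (h1 q.1.1 q.1.2).2.2.2 with h | h
    · exact absurd h q.2
    · exact h
  rcases hg p with hp | hp
  · -- the separable type
    rcases h0 with h0 | h0
    · have hcov : Covers μ {E | E ∈ 𝓔 ∧ ¬ AtomSet μ E} := by
        refine ⟨fun S hS => ⟨(h1 S hS.1).1, (h1 S hS.1).2.2.1⟩, ?_⟩
        intro F hF hF0 hF1 hn
        obtain ⟨D, hD, hpos⟩ := h3 F hF hF0 hF1
        have hDat : AtomSet μ D := by
          by_contra hc
          exact hpos.ne' (hn D ⟨hD, hc⟩)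
        exact ⟨F ∩ D, inter_subset_left, atom_inter hF hDat hpos⟩
      have hle := h0 _ hcov
      rw [hp, Cardinal.two_power_aleph0]
      refine hle.trans ?_
      refine Cardinal.mk_le_of_injective
        (f := fun E : {E | E ∈ 𝓔 ∧ ¬ AtomSet μ E} =>
          (⟨⟨⟨E.1, E.2.1⟩, E.2.2⟩, ?_⟩ :
            {q : {E : 𝓔 // ¬ AtomSet μ (E : Set Ω)} // Cardinal.aleph0 ≤ t q})) ?_
      · rcases hg ⟨⟨E.1, E.2.1⟩, E.2.2⟩ with h | h
        · exact h.ge
        · exact h.1.aleph0_le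
      · intro E E' h
        apply Subtype.ext
        have := congrArg (fun q => ((q.1 : {E : 𝓔 // ¬ AtomSet μ (E : Set Ω)}).1 : Set Ω)) h
        exact this
    · exfalso
      obtain ⟨A, hA, hAt⟩ := h0 p.1.1 (h1 p.1.1 p.1.2).1 (h1 p.1.1 p.1.2).2.1
        (h1 p.1.1 p.1.2).2.2.1
      exact hnat p A hA hAt
  · -- higher types
    have hκ : Cardinal.aleph0 < t p := Cardinal.aleph0_lt_aleph_one.trans hp.2
    rcases hc (t p) hp with h | h
    · exfalso
      exact (ht p p.1.1 Subset.rfl (h1 p.1.1 p.1.2).1 (h1 p.1.1 p.1.2).2.1).2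
        (h p.1.1 (h1 p.1.1 p.1.2).1 (h1 p.1.1 p.1.2).2.2.1)
    · have hcov : CoversK (t p) μ (range fun q : {q : {E : 𝓔 // ¬ AtomSet μ (E : Set Ω)} //
          t p ≤ t q} => (q.1.1 : Set Ω)) := by
        refine ⟨?_, ?_⟩
        · rintro _ ⟨q, rfl⟩
          exact ⟨(h1 _ q.1.1.2).1, (h1 _ q.1.1.2).2.2.1⟩
        · intro E hE hfin hn
          refine small hM hκ hp.1 hE hfin ?_
          intro D hD hpos
          by_cases hDat : AtomSet μ D
          · exact densLt_atom hκ (atom_inter hE hDat hpos)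
              (lt_of_le_of_lt (measure_mono inter_subset_left) hfin)
          · have hlt : t ⟨⟨D, hD⟩, hDat⟩ < t p := by
              by_contra hge
              exact hpos.ne' (hn D ⟨⟨⟨⟨D, hD⟩, hDat⟩, not_lt.1 hge⟩, rfl⟩)
            obtain ⟨S, hS, hSc⟩ := (ht ⟨⟨D, hD⟩, hDat⟩ (E ∩ D) inter_subset_right
              (hE.inter (h1 D hD).1) hpos).1
            exact ⟨S, hS, hSc.trans_lt hlt⟩
      exact (h _ hcov).trans Cardinal.mk_range_le

end Pool.Agent.W6h79.LD
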