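import Pool.Agent.W6h79.LD.Defs9
import Pool.Agent.W6h79.LD.D4m

/-!
# (X2) integrals over cylinders of a function that depends on one coordinate only
(written by helper74)
-/

open MeasureTheory Set Filter
open scoped ENNReal NNReal Topology

noncomputable section

namespace Pool.Agent.W6h79.LD

namespace X2x

theorem coin_single (b : Bool) : coin {b} = 2⁻¹ := by
  rw [coin, Measure.smul_apply, Measure.count_singleton, smul_eq_mul, mul_one]

theorem cyl {A : Type*} (F : Finset A) (s : A → Bool) :
    coins A {y | ∀ b ∈ F, y b = s b} = (2⁻¹ : ℝ≥0∞) ^ F.card := by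
  have e : {y : A → Bool | ∀ b ∈ F, y b = s b} = Set.pi (F : Set A) (fun i => {s i}) := by
    ext y; simp [Set.pi]
  rw [e, coins, Measure.infinitePi_pi _ (fun i _ => measurableSet_singleton _)]
  simp [coin_single]

theorem meas_cyl {A : Type*} (F : Finset A) (s : A → Bool) :
    MeasurableSet {y : A → Bool | ∀ b ∈ F, y b = s b} := by
  have e : {y : A → Bool | ∀ b ∈ F, y b = s b} = Set.pi (F : Set A) (fun i => {s i}) := by
    ext y; simp [Set.pi]
  rw [e]
  exact MeasurableSet.pi F.countable_toSet fun i _ => measurableSet_singleton _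

theorem sgn_mul (b c : Bool) : (if b = c then (1 : ℝ) else 0) = (1 + sgn c * sgn b) / 2 := by
  cases b <;> cases c <;> simp [sgn] <;> norm_num

theorem meas_sgn {A : Type*} (a : A) : Measurable fun x : A → Bool => sgn (x a) :=
  (Measurable.of_discrete (f := sgn)).comp (measurable_pi_apply a)

end X2x

open X2x in
theorem sX2.{u} : S_X2.{u} := by
  classical
  intro A f I hfm hfb hdep F a s haF hFI
  obtain ⟨C, hC⟩ := hfb
  have hfi : Integrable f (coins A) :=
    Integrable.of_bound hfm.aestronglyMeasurable C (ae_of_all _ hC)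
  have hfs : Integrable (fun x => f x * sgn (x a)) (coins A) := by
    refine Integrable.of_bound (hfm.mul (meas_sgn a)).aestronglyMeasurable C (ae_of_all _ fun x => ?_)
    have h1 : |sgn (x a)| = 1 := by unfold sgn; split_ifs <;> simp
    rw [Real.norm_eq_abs, abs_mul, h1, mul_one]
    exact hC x
  set J : Set A := ↑(F.erase a) with hJ
  have hmp := sD4m A J
  have key : ∀ g : (A → Bool) → ℝ, Measurable g →
      ∫ x, g x ∂(coins A) = ∫ p, g (mrg J p.1 p.2) ∂((coins A).prod (coins A)) := by
    intro g hg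
    conv_lhs => rw [← hmp.map_eq]
    exact integral_map hmp.measurable.aemeasurable hg.aestronglyMeasurable
  have hEm := meas_cyl F s
  have hGm := meas_cyl (F.erase a) s
  have haJ : a ∉ J := by simp [hJ]
  have hmem : ∀ x y : A → Bool, mrg J x y ∈ {x : A → Bool | ∀ b ∈ F, x b = s b} ↔
      x a = s a ∧ y ∈ {y : A → Bool | ∀ b ∈ F.erase a, y b = s b} := by
    intro x y
    simp only [Set.mem_ofPred_eq]
    constructor
    · intro h
      refine ⟨?_, fun b hb => ?_⟩
      · have := h a haF
        rwa [mrg, if_neg haJ] at this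
      · have := h b (Finset.mem_of_mem_erase hb)
        rwa [mrg, if_pos (show b ∈ J from hb)] at this
    · rintro ⟨h1, h2⟩ b hb
      by_cases hba : b = a
      · subst hba
        rw [mrg, if_neg haJ]; exact h1
      · have hbJ : b ∈ J := Finset.mem_erase.2 ⟨hba, hb⟩
        rw [mrg, if_pos hbJ]
        exact h2 b (Finset.mem_erase.2 ⟨hba, hb⟩)
  have hfd : ∀ x y : A → Bool, f (mrg J x y) = f x := by
    intro x y
    refine hdep _ _ fun i hi => ?_
    have hiJ : i ∉ J := fun h => by
      have h' := Finset.mem_erase.1 h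
      exact hFI i h'.2 h'.1 hi
    rw [mrg, if_neg hiJ]
  have hpt : ∀ p : (A → Bool) × (A → Bool),
      ({x : A → Bool | ∀ b ∈ F, x b = s b}).indicator f (mrg J p.1 p.2) =
      (f p.1 * (if p.1 a = s a then (1 : ℝ) else 0)) *
        ({y : A → Bool | ∀ b ∈ F.erase a, y b = s b}).indicator (fun _ => (1 : ℝ)) p.2 := by
    rintro ⟨x, y⟩
    simp only
    by_cases h1 : x a = s a <;> by_cases h2 : y ∈ {y : A → Bool | ∀ b ∈ F.erase a, y b = s b}
    · rw [indicator_of_mem ((hmem x y).2 ⟨h1, h2⟩), indicator_of_mem h2, hfd, if_pos h1]; ring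
    · rw [indicator_of_notMem (fun h => h2 ((hmem x y).1 h).2), indicator_of_notMem h2]; ring
    · rw [indicator_of_notMem (fun h => h1 ((hmem x y).1 h).1), if_neg h1]; ring
    · rw [indicator_of_notMem (fun h => h1 ((hmem x y).1 h).1), if_neg h1]; ring
  rw [← integral_indicator hEm, key _ (hfm.indicator hEm)]
  simp_rw [hpt]
  rw [integral_prod_mul (fun x : A → Bool => f x * (if x a = s a then (1 : ℝ) else 0))
    (({y : A → Bool | ∀ b ∈ F.erase a, y b = s b}).indicator (fun _ => (1 : ℝ))),
    integral_indicator hGm, setIntegral_const, smul_eq_mul, mul_one]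
  have hreal : (coins A).real {y : A → Bool | ∀ b ∈ F.erase a, y b = s b} =
      (2⁻¹ : ℝ) ^ (F.erase a).card := by
    rw [Measure.real, cyl, ENNReal.toReal_pow, ENNReal.toReal_inv]
    simp
  rw [hreal]
  have hhalf : ∫ x, f x * (if x a = s a then (1 : ℝ) else 0) ∂(coins A) =
      (∫ x, f x ∂(coins A) + sgn (s a) * ∫ x, f x * sgn (x a) ∂(coins A)) / 2 := by
    rw [← integral_const_mul, ← integral_add hfi (hfs.const_mul _), ← integral_div]
    refine integral_congr_ae (ae_of_all _ fun x => ?_)
    show f x * (if x a = s a then (1 : ℝ) else 0) = _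
    rw [sgn_mul]
    ring
  rw [hhalf]
  have hcard : F.card = (F.erase a).card + 1 := by
    rw [Finset.card_erase_of_mem haF]
    have : 0 < F.card := Finset.card_pos.2 ⟨a, haF⟩
    omega
  rw [hcard, pow_succ]
  have h2 : (2 : ℝ) ^ (F.erase a).card * (2⁻¹ : ℝ) ^ (F.erase a).card = 1 := by
    rw [← mul_pow]; norm_num
  calc (2 : ℝ) ^ (F.erase a).card * 2 *
        ((∫ x, f x ∂(coins A) + sgn (s a) * ∫ x, f x * sgn (x a) ∂(coins A)) / 2 *
          (2⁻¹ : ℝ) ^ (F.erase a).card)
      = ((2 : ℝ) ^ (F.erase a).card * (2⁻¹ : ℝ) ^ (F.erase a).card) *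
        (∫ x, f x ∂(coins A) + sgn (s a) * ∫ x, f x * sgn (x a) ∂(coins A)) := by ring
    _ = _ := by rw [h2, one_mul]

end Pool.Agent.W6h79.LD
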