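import Pool.Agent.W6h79.LD.Defs9
import Pool.Agent.W6h79.LD.D5

/-!
# (X3) `L¹({0,1}^κ) ⊂ Y*` implies `ℓ¹(κ) ⊂ Y`, `κ` regular above `ℵ₁`
-/

set_option autoImplicit false

open MeasureTheory Set Filter
open scoped ENNReal NNReal Topology

noncomputable section

namespace Pool.Agent.W6h79.LD

namespace PX3c

open PD5

theorem norm_sgn {A : Type*} (a : A) : ‖(memLp_sgn a).toLp (fun x : A → Bool => sgn (x a))‖ = 1 := by
  rw [Lp.norm_toLp, eLpNorm_one_eq_lintegral_enorm]
  have : ∀ x : A → Bool, ‖sgn (x a)‖ₑ = 1 := by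
    intro x
    rw [← ofReal_norm, Real.norm_eq_abs, abs_sgn, ENNReal.ofReal_one]
  simp only [this]
  simp

/-- a vector of the ball on which `T r_a` is large -/
theorem exists_y {A : Type*} {Y : Type*} [NormedAddCommGroup Y] [NormedSpace ℝ Y]
    (T : Lp ℝ 1 (coins A) →L[ℝ] StrongDual ℝ Y) (c : ℝ) (hc : 0 < c)
    (hT : ∀ f, c * ‖f‖ ≤ ‖T f‖) (a : A) :
    ∃ y : Y, ‖y‖ ≤ 1 ∧ c / 2 ≤ T ((memLp_sgn a).toLp _) y := by
  have h1 : c ≤ ‖T ((memLp_sgn a).toLp (fun x : A → Bool => sgn (x a)))‖ := by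
    have := hT ((memLp_sgn a).toLp (fun x : A → Bool => sgn (x a)))
    rwa [norm_sgn, mul_one] at this
  by_contra hno
  push Not at hno
  have h2 : ‖T ((memLp_sgn a).toLp (fun x : A → Bool => sgn (x a)))‖ ≤ c / 2 := by
    refine ContinuousLinearMap.opNorm_le_of_unit_norm (by positivity) fun y hy => ?_
    rw [Real.norm_eq_abs, abs_le]
    constructor
    · have h3 := hno (-y) (by rw [norm_neg, hy])
      rw [map_neg] at h3
      linarith
    · exact (hno y hy.le).le
  linarith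

/-- cylinders -/
def CY {A : Type*} (F : Finset A) (s : A → Bool) : Set (A → Bool) := {x | ∀ b ∈ F, x b = s b}

theorem CY_eq {A : Type*} (F : Finset A) (s : A → Bool) :
    CY F s = Set.pi (F : Set A) (fun b => {s b}) := by
  ext x
  simp [CY]

theorem meas_CY {A : Type*} (F : Finset A) (s : A → Bool) : MeasurableSet (CY F s) := by
  rw [CY_eq]
  exact MeasurableSet.pi F.countable_toSet fun b _ => measurableSet_singleton _

theorem coins_CY {A : Type*} (F : Finset A) (s : A → Bool) :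
    coins A (CY F s) = (2⁻¹ : ℝ≥0∞) ^ F.card := by
  rw [CY_eq, coins, Measure.infinitePi_pi _ (fun i _ => measurableSet_singleton _)]
  have : ∀ b : Bool, coin {b} = 2⁻¹ := by
    intro b
    rw [coin, Measure.smul_apply, Measure.count_singleton]
    simp
  simp [this]

theorem real_CY {A : Type*} (F : Finset A) (s : A → Bool) :
    ((coins A).real (CY F s))⁻¹ = (2 : ℝ) ^ F.card := by
  rw [Measure.real, coins_CY]
  simp

end PX3c

open PD5 PX3c in
theorem sX3.{u, v} (h1 : S_X1.{u}) (h2 : S_D2.{u}) (h3 : S_D3.{u}) (hx : S_X2.{u}) :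
    S_X3.{u, v} := by
  classical
  intro A hA Y _ _ T c hc hT
  choose y hy1 hy2 using PX3c.exists_y T c hc hT
  let L : A → Lp ℝ 1 (coins A) →L[ℝ] ℝ := fun a =>
    (ContinuousLinearMap.apply ℝ ℝ (y a)).comp T
  have hL : ∀ a g, L a g = T g (y a) := fun a g => rfl
  choose f hfm hfb hfi using fun a => h3 (A → Bool) (coins A) inferInstance (L a)
  have hne : ∀ a, c / 2 ≤ ∫ x, f a x * sgn (x a) ∂(coins A) := by
    intro a
    have h5 := hfi a ((memLp_sgn a).toLp _)
    have h6 : ∫ x, f a x * ((memLp_sgn a).toLp _ : Lp ℝ 1 (coins A)) x ∂(coins A) =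
        ∫ x, f a x * sgn (x a) ∂(coins A) := by
      refine integral_congr_ae ?_
      filter_upwards [(memLp_sgn a).coeFn_toLp] with x hx
      rw [hx]
    rw [← h6, ← h5, hL]
    exact hy2 a
  choose I hIc hId using fun a => h2 A (f a) (hfm a)
  obtain ⟨B, hB, hfree⟩ := h1 A hA I hIc
  obtain ⟨e⟩ := Cardinal.eq.1 hB.symm
  have hinj : Function.Injective fun i => (e i : A) :=
    Subtype.val_injective.comp e.injective
  have hTn : 0 ≤ ‖T‖ := norm_nonneg T
  refine ⟨fun i => y (e i), c / (2 * ‖T‖ + 1), by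
    apply div_pos hc (by linarith), fun i => hy1 _, fun J a => ?_⟩
  let s : A → Bool := Function.extend (fun i => (e i : A)) (fun i => decide (0 ≤ a i))
    (fun _ => false)
  have hs : ∀ i, s (e i) = decide (0 ≤ a i) := fun i =>
    hinj.extend_apply (fun i => decide (0 ≤ a i)) (fun _ => false) i
  let F : Finset A := J.image fun i => (e i : A)
  have hF : (↑F : Set A) ⊆ B := by
    intro b hb
    obtain ⟨i, -, rfl⟩ := Finset.mem_image.1 (Finset.mem_coe.1 hb)
    exact (e i).2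
  have hm1 := meas_CY F s
  have hm2 := meas_CY F fun b => !s b
  have hp1 : 0 < coins A (CY F s) := by
    rw [coins_CY]
    exact ENNReal.pow_pos (ENNReal.inv_pos.2 ENNReal.ofNat_ne_top) _
  have hp2 : 0 < coins A (CY F fun b => !s b) := by
    rw [coins_CY]
    exact ENNReal.pow_pos (ENNReal.inv_pos.2 ENNReal.ofNat_ne_top) _
  let g : Lp ℝ 1 (coins A) := nu (coins A) _ hm1 - nu (coins A) _ hm2
  have hg : ‖g‖ ≤ 2 := by
    calc ‖g‖ ≤ ‖nu (coins A) _ hm1‖ + ‖nu (coins A) _ hm2‖ := norm_sub_le _ _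
      _ ≤ 1 + 1 := add_le_add (norm_nu _ _ _ hp1) (norm_nu _ _ _ hp2)
      _ = 2 := by norm_num
  have hval : ∀ i ∈ J, c * |a i| ≤ a i * T g (y (e i)) := by
    intro i hi
    have hiF : (e i : A) ∈ F := Finset.mem_image_of_mem _ hi
    have hfr : ∀ b ∈ F, b ≠ (e i : A) → b ∉ I (e i) := fun b hb hbe =>
      hfree b (hF (Finset.mem_coe.2 hb)) (e i) (e i).2 hbe
    have k1 := hx A (f (e i)) (I (e i)) (hfm _) ⟨_, hfb _⟩ (hId _) F (e i) s hiF hfr
    have k2 := hx A (f (e i)) (I (e i)) (hfm _) ⟨_, hfb _⟩ (hId _) F (e i) (fun b => !s b) hiF hfr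
    have h7 : T g (y (e i)) = 2 * (sgn (s (e i)) * ∫ x, f (e i) x * sgn (x (e i)) ∂(coins A)) := by
      rw [← hL, show g = nu (coins A) _ hm1 - nu (coins A) _ hm2 from rfl, map_sub, hfi, hfi,
        int_nu, int_nu, real_CY, real_CY]
      change 2 ^ F.card * ∫ x in {x : A → Bool | ∀ b ∈ F, x b = s b}, f (e i) x ∂(coins A) -
        2 ^ F.card * ∫ x in {x : A → Bool | ∀ b ∈ F, x b = !s b}, f (e i) x ∂(coins A) = _
      rw [k1, k2]
      have h8 : sgn (!s (e i)) = - sgn (s (e i)) := by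
        cases s (e i) <;> simp [sgn]
      rw [h8]
      ring
    rw [h7]
    have h9 := hne (e i)
    by_cases h0 : 0 ≤ a i
    · have hsi : s (e i) = true := by rw [hs]; simpa using h0
      rw [hsi, abs_of_nonneg h0]
      have : sgn true = 1 := by simp [sgn]
      rw [this]
      nlinarith
    · have hsi : s (e i) = false := by rw [hs]; simpa using h0
      push Not at h0
      rw [hsi, abs_of_neg h0]
      have : sgn false = -1 := by simp [sgn]
      rw [this]
      nlinarith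
  have hsum : c * ∑ i ∈ J, |a i| ≤ T g (∑ i ∈ J, a i • y (e i)) := by
    rw [map_sum, Finset.mul_sum]
    refine Finset.sum_le_sum fun i hi => ?_
    rw [map_smul, smul_eq_mul]
    exact hval i hi
  have hup : T g (∑ i ∈ J, a i • y (e i)) ≤ (2 * ‖T‖ + 1) * ‖∑ i ∈ J, a i • y (e i)‖ := by
    calc T g (∑ i ∈ J, a i • y (e i)) ≤ ‖T g (∑ i ∈ J, a i • y (e i))‖ := le_abs_self _
      _ ≤ ‖T g‖ * ‖∑ i ∈ J, a i • y (e i)‖ := (T g).le_opNorm _
      _ ≤ (2 * ‖T‖ + 1) * ‖∑ i ∈ J, a i • y (e i)‖ := by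
        refine mul_le_mul_of_nonneg_right ?_ (norm_nonneg _)
        calc ‖T g‖ ≤ ‖T‖ * ‖g‖ := T.le_opNorm _
          _ ≤ ‖T‖ * 2 := mul_le_mul_of_nonneg_left hg hTn
          _ ≤ 2 * ‖T‖ + 1 := by linarith
  rw [div_mul_eq_mul_div, div_le_iff₀ (by linarith : (0:ℝ) < 2 * ‖T‖ + 1)]
  calc c * ∑ i ∈ J, |a i| ≤ _ := hsum
    _ ≤ _ := hup
    _ = _ := by ring

end Pool.Agent.W6h79.LD
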