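import Pool.Agent.W6h79.LD.Defs9
import Pool.Agent.W6h79.LD.W8

open MeasureTheory Set Filter
open scoped ENNReal NNReal Topology

noncomputable section

namespace Pool.Agent.W6h79.LD



open W8

theorem sX8h.{u} (hP : S_P7.{u}) (h12 : S_T12.{u}) (h6 : S_T6.{u}) (h5 : S_T5'.{u}) :
    S_X8.{u} := by
  intro A hA Ω _ μ E hE hE0 hEfin hat hom
  obtain ⟨⟨D, hD, hDc⟩, hdens⟩ := hom E subset_rfl hE hE0
  have hfin : IsFiniteMeasure (μ.restrict E) := ⟨by
    rw [Measure.restrict_apply_univ]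
    exact hEfin⟩
  have hne : μ.restrict E ≠ 0 := by
    intro h
    have h1 : μ.restrict E univ = 0 := by rw [h]; rfl
    rw [Measure.restrict_apply_univ] at h1
    exact hE0.ne' h1
  rcases hA with h0 | hreg
  · have : Countable A := Cardinal.mk_le_aleph0_iff.1 h0.le
    have : Infinite A := Cardinal.infinite_iff.2 h0.ge
    have hsep : TopologicalSpace.SeparableSpace (Lp ℝ 1 (μ.restrict E)) :=
      ⟨⟨D, Cardinal.le_aleph0_iff_set_countable.1 (h0 ▸ hDc), hD⟩⟩
    obtain ⟨e⟩ := hP Ω (μ.restrict E) hfin hne hsep (restrict_atomless hE hat)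
    have hc0 : coins A ≠ 0 := IsProbabilityMeasure.ne_zero _
    obtain ⟨f⟩ := hP (A → Bool) (coins A) inferInstance hc0 (coins_separable A)
      (coins_atomless A)
    exact ⟨ceEquiv (f.trans e.symm), ceEquiv (e.trans f.symm)⟩
  · have hlt : Cardinal.aleph0 < Cardinal.mk A :=
      Cardinal.aleph0_lt_aleph_one.trans hreg.2
    have : Infinite A := Cardinal.infinite_iff.2 hlt.le
    refine ⟨h12 A hreg.1 hlt Ω μ E hE hEfin hdens, ?_⟩
    obtain ⟨ν, hν, ⟨e⟩⟩ := h6 A inferInstance Ω (μ.restrict E) hfin hne ⟨D, hD, hDc⟩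
    exact ceTrans (ceEquiv e) (h5 A inferInstance ν hν)

end Pool.Agent.W6h79.LD
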