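import Pool.Agent.W6h79.LD.All8
import Pool.Agent.W6h79.LD.Fin9
import Pool.Agent.W6h79.LD.X1
import Pool.Agent.W6h79.LD.X2
import Pool.Agent.W6h79.LD.X3
import Pool.Agent.W6h79.LD.X8h
import Pool.Agent.W6h79.LD.X11

open MeasureTheory

noncomputable section

namespace Pool.Agent.W6h79.LD

theorem hMainK9.{u, v} : S_MainK9.{u, v} :=
  sMainK9 (sX3 sX1 sD2 sD3 sX2) sDA (sEA sE1A) (sHA sHA0 sHA1) sI

theorem hX8.{u} : S_X8.{u} := sX8h hP7 hT12 sT6 hT5p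

theorem hNec9.{u} (Ω : Type u) [MeasurableSpace Ω] (μ : Measure Ω)
    (hd : IsoToDual ℝ (Lp ℝ 1 μ) ∨ IsoToDual ℂ (Lp ℂ 1 μ)) : CondAll9 μ :=
  nec9 main2 (sMain2C main2 sJ) hMainK9 sJ sKC sInd hMah Ω μ hd

theorem hSuf9.{u} (Ω : Type u) [MeasurableSpace Ω] (μ : Measure Ω) (hg : GoodTypes9 μ)
    (hc : CondAll9 μ) : IsoToDual ℝ (Lp ℝ 1 μ) :=
  suf9 sW7 hX8 hW10 sX11 sR2 sR3 sK2 sL1 sL5p Ω μ hg hc

end Pool.Agent.W6h79.LD
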