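import Mathlib

/-!
# MP_3844f5_an : `L¹(μ)` isomorphic to a dual space (necessity)

Definitions and the statements (as `Prop`s) of the pieces of the proof.
-/

open MeasureTheory Set Filter
open scoped ENNReal NNReal Topology

noncomputable section

namespace Pool.Agent.W6h79.LD

/-- `A` is an atom of the measure `μ`. -/
def AtomSet.{u} {Ω : Type u} [MeasurableSpace Ω] (μ : Measure Ω) (A : Set Ω) : Prop :=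
  MeasurableSet A ∧ 0 < μ A ∧ ∀ B ⊆ A, MeasurableSet B → μ B = 0 ∨ μ (A \ B) = 0

/-- `𝓢` consists of measurable sets of finite measure, and every measurable set of finite positive
measure that meets every member of `𝓢` in a null set contains an atom (the nonatomic part of `μ`
is covered by `𝓢`). -/
def Covers.{u} {Ω : Type u} [MeasurableSpace Ω] (μ : Measure Ω) (𝓢 : Set (Set Ω)) : Prop :=
  (∀ S ∈ 𝓢, MeasurableSet S ∧ μ S < ∞) ∧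
  ∀ E : Set Ω, MeasurableSet E → 0 < μ E → μ E < ∞ → (∀ S ∈ 𝓢, μ (E ∩ S) = 0) →
    ∃ A ⊆ E, AtomSet μ A

open Classical in
/-- Indicator of `A` as an element of `L¹` (zero if `A` is not measurable of finite measure). -/
def ind.{u} {Ω : Type u} [MeasurableSpace Ω] (μ : Measure Ω) (A : Set Ω) : Lp ℝ 1 μ :=
  if h : MeasurableSet A ∧ μ A ≠ ∞ then indicatorConstLp 1 h.1 h.2 (1 : ℝ) else 0

/-- The sign of a bit. -/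
def sgn (b : Bool) : ℝ := if b then 1 else -1

/-- (A) Finite-dimensional separation. -/
def S_A.{v} : Prop := ∀ (Y : Type v) [NormedAddCommGroup Y] [NormedSpace ℝ Y]
    (ι : Type) [Fintype ι] (φ : ι → StrongDual ℝ Y) (c : ℝ), 0 < c →
    (∀ a : ι → ℝ, c * ∑ i, |a i| ≤ ‖∑ i, a i • φ i‖) →
    ∃ y : Y, ‖y‖ ≤ 1 ∧ ∀ i, c / 2 ≤ φ i y

/-- (B) Hahn decomposition. -/
def S_B.{u} : Prop := ∀ (Ω : Type u) [MeasurableSpace Ω] (μ : Measure Ω)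
    (L : Lp ℝ 1 μ →L[ℝ] ℝ) (A : Set Ω) (t : ℝ),
    MeasurableSet A → μ A ≠ ∞ → t * (μ A).toReal < L (ind μ A) →
    ∃ P : Set Ω, P ⊆ A ∧ MeasurableSet P ∧ 0 < μ P ∧
      ∀ B ⊆ P, MeasurableSet B → t * (μ B).toReal ≤ L (ind μ B)

/-- (C1) One step of the tree construction. -/
def S_C1.{u, v} : Prop := ∀ (Ω : Type u) [MeasurableSpace Ω] (μ : Measure Ω)
    (Y : Type v) [NormedAddCommGroup Y] [NormedSpace ℝ Y]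
    (T : Lp ℝ 1 μ →L[ℝ] StrongDual ℝ Y) (c : ℝ), 0 < c → (∀ f, c * ‖f‖ ≤ ‖T f‖) →
    ∀ (ι : Type) [Fintype ι] (A : ι → Set Ω),
    (∀ i, MeasurableSet (A i) ∧ 0 < μ (A i) ∧ μ (A i) < ∞ ∧ ¬ AtomSet μ (A i)) →
    (∀ i j, i ≠ j → Disjoint (A i) (A j)) →
    ∃ (y : Y) (P : ι → Bool → Set Ω), ‖y‖ ≤ 1 ∧
      (∀ i b, P i b ⊆ A i ∧ MeasurableSet (P i b) ∧ 0 < μ (P i b)) ∧
      (∀ i, Disjoint (P i true) (P i false)) ∧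
      ∀ i b, ∀ B ⊆ P i b, MeasurableSet B →
        c / 4 * (μ B).toReal ≤ sgn b * (T (ind μ B)) y

/-- (C) From an isomorphic embedding of `L¹` of a nonatomic set in `Y*` to an `ℓ¹`-sequence
in `Y`. -/
def S_C.{u, v} : Prop := ∀ (Ω : Type u) [MeasurableSpace Ω] (μ : Measure Ω)
    (Y : Type v) [NormedAddCommGroup Y] [NormedSpace ℝ Y]
    (T : Lp ℝ 1 μ →L[ℝ] StrongDual ℝ Y) (c : ℝ), 0 < c → (∀ f, c * ‖f‖ ≤ ‖T f‖) →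
    ∀ E : Set Ω, MeasurableSet E → 0 < μ E → μ E < ∞ → (∀ A ⊆ E, ¬ AtomSet μ A) →
    ∃ (y : ℕ → Y) (δ : ℝ), 0 < δ ∧ (∀ i, ‖y i‖ ≤ 1) ∧
      ∀ (J : Finset ℕ) (a : ℕ → ℝ), δ * ∑ i ∈ J, |a i| ≤ ‖∑ i ∈ J, a i • y i‖

/-- (D) Hahn-Banach extension. -/
def S_D.{v} : Prop := ∀ (Y : Type v) [NormedAddCommGroup Y] [NormedSpace ℝ Y]
    (y : ℕ → Y) (δ : ℝ), 0 < δ →
    (∀ (J : Finset ℕ) (a : ℕ → ℝ), δ * ∑ i ∈ J, |a i| ≤ ‖∑ i ∈ J, a i • y i‖) →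
    ∀ φ : ℕ → ℝ, (∀ i, |φ i| ≤ 1) →
      ∃ x : StrongDual ℝ Y, ‖x‖ ≤ 1 / δ ∧ ∀ i, x (y i) = φ i

/-- (E1) Rademacher averages of a bounded family in a dual space. -/
def S_E1.{v} : Prop := ∀ (Y : Type v) [NormedAddCommGroup Y] [NormedSpace ℝ Y]
    (x : (ℕ → Bool) → StrongDual ℝ Y) (K : ℝ), (∀ β, ‖x β‖ ≤ K) →
    ∃ v : ℕ → StrongDual ℝ Y,
      (∀ (J : Finset ℕ) (ε : ℕ → ℝ), (∀ k, |ε k| ≤ 1) →
        ‖∑ k ∈ J, ε k • v k‖ ≤ K * Real.sqrt J.card) ∧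
      ∀ (y : Y) (s : ℝ) (m : ℕ), (∀ β, x β y = s * sgn (β m)) →
        ∀ k, v k y = if k = m then s else 0

/-- (E) The family `v α k`. -/
def S_E.{v} : Prop := ∀ (Y : Type v) [NormedAddCommGroup Y] [NormedSpace ℝ Y]
    (y : ℕ → Y) (K : ℝ), (∀ i, ‖y i‖ ≤ 1) →
    (∀ φ : ℕ → ℝ, (∀ i, |φ i| ≤ 1) →
      ∃ x : StrongDual ℝ Y, ‖x‖ ≤ K ∧ ∀ i, x (y i) = φ i) →
    ∃ v : (ℕ → Bool) → ℕ → StrongDual ℝ Y,
      (∀ (α : ℕ → Bool) (J : Finset ℕ) (ε : ℕ → ℝ), (∀ k, |ε k| ≤ 1) →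
        ‖∑ k ∈ J, ε k • v α k‖ ≤ K * Real.sqrt J.card) ∧
      (∀ (A : Finset (ℕ → Bool)) (k : (ℕ → Bool) → ℕ) (c : (ℕ → Bool) → ℝ),
        ∑ α ∈ A, |c α| ≤ ‖∑ α ∈ A, c α • v α (k α)‖)

/-- (F) Schur-type lemma in `ℓ¹`. -/
def S_F : Prop := ∀ (a : ℕ → ℕ → ℝ) (C : ℝ), (∀ k, Summable fun i => |a k i|) →
    (∀ (J : Finset ℕ) (ε : ℕ → ℝ), (∀ k, |ε k| ≤ 1) →
      ∑' i, |∑ k ∈ J, ε k * a k i| ≤ C * Real.sqrt J.card) →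
    ∀ η : ℝ, 0 < η → ∃ k, ∑' i, |a k i| ≤ η

/-- (G) Exhaustion. -/
def S_G.{u} : Prop := ∀ (Ω : Type u) [MeasurableSpace Ω] (μ : Measure Ω) (𝓢 : Set (Set Ω)),
    Covers μ 𝓢 →
    ∀ z : ℕ → Lp ℝ 1 μ, ∃ (𝓣 : Set (Set Ω)) (A : ℕ → Set Ω), 𝓣.Countable ∧ 𝓣 ⊆ 𝓢 ∧
      (∀ i j, i ≠ j → Disjoint (A i) (A j)) ∧
      (∀ i, MeasurableSet (A i) ∧ (A i = ∅ ∨ (AtomSet μ (A i) ∧ μ (A i) < ∞)) ∧
        Disjoint (A i) (⋃₀ 𝓣)) ∧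
      ∀ k, ∀ᵐ ω ∂μ, z k ω ≠ 0 → ω ∈ (⋃₀ 𝓣) ∪ ⋃ i, A i

/-- (H) One element of a sequence with a square-root estimate lives essentially on finitely many
members of `𝓢` and is essentially bounded. -/
def S_H.{u} : Prop := ∀ (Ω : Type u) [MeasurableSpace Ω] (μ : Measure Ω) (𝓢 : Set (Set Ω)),
    Covers μ 𝓢 →
    ∀ (z : ℕ → Lp ℝ 1 μ) (C : ℝ),
    (∀ (J : Finset ℕ) (ε : ℕ → ℝ), (∀ k, |ε k| ≤ 1) →
      ‖∑ k ∈ J, ε k • z k‖ ≤ C * Real.sqrt J.card) →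
    ∀ η : ℝ, 0 < η → ∃ (k : ℕ) (F : Finset (Set Ω)) (M : ℕ), (↑F : Set (Set Ω)) ⊆ 𝓢 ∧
      ∫ ω in ((⋃₀ (↑F : Set (Set Ω))) ∩ {ω | |z k ω| ≤ (M : ℝ)})ᶜ, |z k ω| ∂μ ≤ η

/-- (I) Random signs. -/
def S_I.{u} : Prop := ∀ (Ω : Type u) [MeasurableSpace Ω] (μ : Measure Ω) (G : Set Ω),
    MeasurableSet G → μ G < ∞ →
    ∀ (M : ℝ) (m : ℕ) (g : Fin m → Ω → ℝ), (∀ j, Measurable (g j)) →
    (∀ j ω, |g j ω| ≤ M) → (∀ j ω, ω ∉ G → g j ω = 0) →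
    ∃ ε : Fin m → ℝ, (∀ j, ε j = 1 ∨ ε j = -1) ∧
      ∫ ω, |∑ j, ε j * g j ω| ∂μ ≤ M * (μ G).toReal * Real.sqrt m

/-- The main theorem (necessity). -/
def S_Main.{u, v} : Prop := ∀ (Ω : Type u) [MeasurableSpace Ω] (μ : Measure Ω) (𝓢 : Set (Set Ω)),
    Covers μ 𝓢 → Cardinal.mk 𝓢 < Cardinal.continuum →
    ∀ (Y : Type v) [NormedAddCommGroup Y] [NormedSpace ℝ Y]
      (_e : Lp ℝ 1 μ ≃L[ℝ] StrongDual ℝ Y),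
    ∀ E : Set Ω, MeasurableSet E → 0 < μ E → μ E < ∞ → ∃ A ⊆ E, AtomSet μ A

/-- (K1) If every set of finite positive measure contains an atom, `L¹(μ)` is `ℓ¹(Γ)`. -/
def S_K1.{u} : Prop := ∀ (Ω : Type u) [MeasurableSpace Ω] (μ : Measure Ω),
    (∀ E : Set Ω, MeasurableSet E → 0 < μ E → μ E < ∞ → ∃ A ⊆ E, AtomSet μ A) →
    ∃ Γ : Type u, Nonempty (Lp ℝ 1 μ ≃ₗᵢ[ℝ] lp (fun _ : Γ => ℝ) 1)

/-- (K2) `ℓ¹(Γ)` is a dual space. -/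
def S_K2.{u} : Prop := ∀ (Γ : Type u), ∃ (Y : Type u) (_ : NormedAddCommGroup Y)
    (_ : NormedSpace ℝ Y) (_ : CompleteSpace Y),
    Nonempty (lp (fun _ : Γ => ℝ) 1 ≃ₗᵢ[ℝ] StrongDual ℝ Y)

/-- (J) Complex `L¹` over `μ` is real `L¹` over two copies of `μ`. -/
def S_J.{u} : Prop := ∀ (Ω : Type u) [MeasurableSpace Ω] (μ : Measure Ω),
    Nonempty (Lp ℂ 1 μ ≃L[ℝ] Lp ℝ 1 (μ.map (Sum.inl : Ω → Ω ⊕ Ω) + μ.map (Sum.inr : Ω → Ω ⊕ Ω)))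

end Pool.Agent.W6h79.LD
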