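import Pool.Agent.W6h79.LD.Defs

/-!
# MP_3844f5_an, part 2: the complete characterisation for locally separable measures

`L¹(μ)`, with `L¹(μ|E)` separable for every `E` of finite measure, is isomorphic to a dual
space iff `μ` is purely atomic or its nonatomic part cannot be covered by fewer than
continuum many sets of finite measure.
-/

open MeasureTheory Set Filter
open scoped ENNReal NNReal Topology

noncomputable section

namespace Pool.Agent.W6h79.LD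

/-- Lebesgue measure on `[0,1]`, as a measure on `ℝ`. -/
abbrev lam : Measure ℝ := (volume : Measure ℝ).restrict (Icc 0 1)

/-- The space `L¹[0,1]`. -/
abbrev LL : Type := Lp ℝ 1 lam

/-- The unit interval. -/
abbrev UI : Type := unitInterval

/-! ### Algebra of `ℓ¹`-sums -/

/-- (L1) isometries of the summands. -/
def S_L1.{u, v, w} : Prop := ∀ (K : Type u) (A : K → Type v) (B : K → Type w)
    [∀ i, NormedAddCommGroup (A i)] [∀ i, NormedSpace ℝ (A i)]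
    [∀ i, NormedAddCommGroup (B i)] [∀ i, NormedSpace ℝ (B i)],
    (∀ i, Nonempty (A i ≃ₗᵢ[ℝ] B i)) → Nonempty (lp A 1 ≃ₗᵢ[ℝ] lp B 1)

/-- (L1') isomorphism of a constant summand. -/
def S_L1'.{u, v, w} : Prop := ∀ (K : Type u) (A : Type v) (B : Type w)
    [NormedAddCommGroup A] [NormedSpace ℝ A] [NormedAddCommGroup B] [NormedSpace ℝ B],
    Nonempty (A ≃L[ℝ] B) → Nonempty (lp (fun _ : K => A) 1 ≃L[ℝ] lp (fun _ : K => B) 1)

/-- (L2) products. -/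
def S_L2.{u, v, w} : Prop := ∀ (K : Type u) (A : Type v) (B : Type w)
    [NormedAddCommGroup A] [NormedSpace ℝ A] [NormedAddCommGroup B] [NormedSpace ℝ B],
    Nonempty (lp (fun _ : K => A × B) 1 ≃L[ℝ] (lp (fun _ : K => A) 1 × lp (fun _ : K => B) 1))

/-- (L3) iterated sums. -/
def S_L3.{u, v, w} : Prop := ∀ (K : Type u) (I : Type v) (A : Type w)
    [NormedAddCommGroup A] [NormedSpace ℝ A],
    Nonempty (lp (fun _ : K => lp (fun _ : I => A) 1) 1 ≃L[ℝ] lp (fun _ : K × I => A) 1)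

/-- (L4) reindexing. -/
def S_L4.{u, v, w} : Prop := ∀ (K : Type u) (K' : Type v) (_ : K ≃ K') (A : Type w)
    [NormedAddCommGroup A] [NormedSpace ℝ A],
    Nonempty (lp (fun _ : K => A) 1 ≃L[ℝ] lp (fun _ : K' => A) 1)

/-- (L5) sum over a disjoint union, constant summand. -/
def S_L5.{u, v, w} : Prop := ∀ (K : Type u) (K' : Type v) (A : Type w)
    [NormedAddCommGroup A] [NormedSpace ℝ A],
    Nonempty (lp (fun _ : K ⊕ K' => A) 1 ≃L[ℝ]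
      (lp (fun _ : K => A) 1 × lp (fun _ : K' => A) 1))

/-- (L5') splitting the index set, dependent summands. -/
def S_L5'.{u, v} : Prop := ∀ (K : Type u) (p : K → Prop) (A : K → Type v)
    [∀ i, NormedAddCommGroup (A i)] [∀ i, NormedSpace ℝ (A i)],
    Nonempty (lp A 1 ≃L[ℝ]
      (lp (fun i : {i // p i} => A i) 1 × lp (fun i : {i // ¬ p i} => A i) 1))

/-- (L6) `L¹[0,1]` has a one-dimensional summand. -/
def S_L6 : Prop := ∃ (A : Type) (_ : NormedAddCommGroup A) (_ : NormedSpace ℝ A),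
    Nonempty (LL ≃L[ℝ] (ℝ × A))

/-- (L7) absorption of an `ℓ¹`-sum of lines. -/
def S_L7.{u} : Prop := ∀ (K G : Type u), Infinite K → Cardinal.mk G ≤ Cardinal.mk K →
    Nonempty ((lp (fun _ : K => LL) 1 × lp (fun _ : G => ℝ) 1) ≃L[ℝ] lp (fun _ : K => LL) 1)

/-! ### Nonatomic separable measures -/

/-- (P3) a nonatomic probability measure on the line. -/
def S_P3 : Prop := ∀ (ν : Measure ℝ), IsProbabilityMeasure ν → (∀ x, ν {x} = 0) →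
    Nonempty (Lp ℝ 1 ν ≃ₗᵢ[ℝ] LL)

/-- (P4) reduction of a separable nonatomic finite measure to the line. -/
def S_P4.{u} : Prop := ∀ (Ω : Type u) [MeasurableSpace Ω] (μ : Measure Ω),
    IsFiniteMeasure μ → μ ≠ 0 → TopologicalSpace.SeparableSpace (Lp ℝ 1 μ) →
    (∀ A, ¬ AtomSet μ A) →
    ∃ ν : Measure ℝ, IsFiniteMeasure ν ∧ ν ≠ 0 ∧ (∀ x, ν {x} = 0) ∧
      Nonempty (Lp ℝ 1 μ ≃ₗᵢ[ℝ] Lp ℝ 1 ν)

/-- (P5) scaling a measure. -/
def S_P5.{u} : Prop := ∀ (Ω : Type u) [MeasurableSpace Ω] (μ : Measure Ω) (c : ℝ≥0∞),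
    c ≠ 0 → c ≠ ∞ → Nonempty (Lp ℝ 1 μ ≃ₗᵢ[ℝ] Lp ℝ 1 (c • μ))

/-- (P6) nonatomic probability measures on the unit interval. -/
def S_P6 : Prop := ∀ (ν : Measure UI), IsProbabilityMeasure ν → (∀ x, ν {x} = 0) →
    Nonempty (Lp ℝ 1 ν ≃ₗᵢ[ℝ] LL)

/-- (P7) separable nonatomic finite measures: `L¹` is `L¹[0,1]`. -/
def S_P7.{u} : Prop := ∀ (Ω : Type u) [MeasurableSpace Ω] (μ : Measure Ω),
    IsFiniteMeasure μ → μ ≠ 0 → TopologicalSpace.SeparableSpace (Lp ℝ 1 μ) →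
    (∀ A, ¬ AtomSet μ A) → Nonempty (Lp ℝ 1 μ ≃ₗᵢ[ℝ] LL)

/-! ### The dual of `C[0,1]` -/

/-- (M1) Riesz representation with Jordan decomposition. -/
def S_M1 : Prop := ∀ φ : StrongDual ℝ C(UI, ℝ), ∃ m₁ m₂ : Measure UI,
    IsFiniteMeasure m₁ ∧ IsFiniteMeasure m₂ ∧
    ∀ g : C(UI, ℝ), φ g = ∫ x, g x ∂m₁ - ∫ x, g x ∂m₂

/-- (M2) the norm of a density. -/
def S_M2 : Prop := ∀ (m : Measure UI), IsFiniteMeasure m → ∀ f : UI → ℝ, Integrable f m →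
    ∀ ε : ℝ, 0 < ε → ∃ g : C(UI, ℝ), ‖g‖ ≤ 1 ∧ ∫ x, |f x| ∂m - ε ≤ ∫ x, g x * f x ∂m

/-- A maximal family of pairwise singular probability measures on `[0,1]`, each a Dirac measure
or a nonatomic measure. -/
def MaxFam (𝓕 : Set (Measure UI)) : Prop :=
  (∀ ν ∈ 𝓕, IsProbabilityMeasure ν ∧ ((∃ x, ν = Measure.dirac x) ∨ ∀ x, ν {x} = 0)) ∧
  (∀ ν ∈ 𝓕, ∀ ν' ∈ 𝓕, ν ≠ ν' → ν ⟂ₘ ν') ∧
  (∀ m : Measure UI, IsFiniteMeasure m → (∀ ν ∈ 𝓕, m ⟂ₘ ν) → m = 0)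

/-- (M3) existence. -/
def S_M3 : Prop := ∃ 𝓕 : Set (Measure UI), MaxFam 𝓕 ∧ ∃ ν ∈ 𝓕, ∀ x, ν {x} = 0

/-- (M4) decomposition of a measure along a maximal family. -/
def S_M4 : Prop := ∀ 𝓕 : Set (Measure UI), MaxFam 𝓕 → ∀ m : Measure UI, IsFiniteMeasure m →
    ∃ f : 𝓕 → UI → ℝ≥0∞, (∀ ν, Measurable (f ν)) ∧
      m = Measure.sum (fun ν : 𝓕 => (ν : Measure UI).withDensity (f ν))

/-- (M5) the dual of `C[0,1]` is the `ℓ¹`-sum. -/
def S_M5 : Prop := ∀ 𝓕 : Set (Measure UI), MaxFam 𝓕 →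
    Nonempty (lp (fun ν : 𝓕 => Lp ℝ 1 (ν : Measure UI)) 1 ≃L[ℝ] StrongDual ℝ C(UI, ℝ))

/-- (M6) final form. -/
def S_M6 : Prop := ∃ I Γ : Type, Nonempty I ∧ Cardinal.mk I ≤ Cardinal.continuum ∧
    Cardinal.mk Γ ≤ Cardinal.continuum ∧
    Nonempty (StrongDual ℝ C(UI, ℝ) ≃L[ℝ] (lp (fun _ : I => LL) 1 × lp (fun _ : Γ => ℝ) 1))

/-- (M7) cardinality. -/
def S_M7 : Prop := ∀ 𝓕 : Set (Measure UI), (∀ ν ∈ 𝓕, IsProbabilityMeasure ν) →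
    Cardinal.mk 𝓕 ≤ Cardinal.continuum

/-- (N) the dual of a `c₀`-sum. -/
def S_N.{u, v} : Prop := ∀ (K : Type u) (Y : Type v) [NormedAddCommGroup Y] [NormedSpace ℝ Y]
    [CompleteSpace Y], ∃ (Z : Type (max u v)) (_ : NormedAddCommGroup Z)
    (_ : NormedSpace ℝ Z) (_ : CompleteSpace Z),
    Nonempty (StrongDual ℝ Z ≃L[ℝ] lp (fun _ : K => StrongDual ℝ Y) 1)

/-- (Dual) sums of continuum many or more copies of `L¹[0,1]` are dual spaces. -/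
def S_Dual.{u} : Prop := ∀ (K Γ : Type u), Cardinal.continuum ≤ Cardinal.mk K →
    ∃ (Z : Type u) (_ : NormedAddCommGroup Z) (_ : NormedSpace ℝ Z) (_ : CompleteSpace Z),
    Nonempty ((lp (fun _ : K => LL) 1 × lp (fun _ : Γ => ℝ) 1) ≃L[ℝ] StrongDual ℝ Z)

/-! ### Decomposition of `L¹(μ)` -/

/-- A maximal almost disjoint family of sets of finite positive measure, each an atom or free of
atoms. -/
def MaxDec.{u} {Ω : Type u} [MeasurableSpace Ω] (μ : Measure Ω) (𝓔 : Set (Set Ω)) : Prop :=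
  (∀ E ∈ 𝓔, MeasurableSet E ∧ 0 < μ E ∧ μ E < ∞ ∧ (AtomSet μ E ∨ ∀ A ⊆ E, ¬ AtomSet μ A)) ∧
  (∀ E ∈ 𝓔, ∀ E' ∈ 𝓔, E ≠ E' → μ (E ∩ E') = 0) ∧
  (∀ F, MeasurableSet F → 0 < μ F → μ F < ∞ → ∃ E ∈ 𝓔, 0 < μ (F ∩ E))

/-- (R1) existence. -/
def S_R1.{u} : Prop := ∀ (Ω : Type u) [MeasurableSpace Ω] (μ : Measure Ω),
    ∃ 𝓔 : Set (Set Ω), MaxDec μ 𝓔

/-- (R2) the isometry. -/
def S_R2.{u} : Prop := ∀ (Ω : Type u) [MeasurableSpace Ω] (μ : Measure Ω) (𝓔 : Set (Set Ω)),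
    MaxDec μ 𝓔 →
    Nonempty (Lp ℝ 1 μ ≃ₗᵢ[ℝ] lp (fun E : 𝓔 => Lp ℝ 1 (μ.restrict (E : Set Ω))) 1)

/-- (R3) atoms. -/
def S_R3.{u} : Prop := ∀ (Ω : Type u) [MeasurableSpace Ω] (μ : Measure Ω) (E : Set Ω),
    AtomSet μ E → μ E < ∞ → Nonempty (Lp ℝ 1 (μ.restrict E) ≃ₗᵢ[ℝ] ℝ)

/-- (R5) `L¹(μ)` for a locally separable measure. -/
def S_R5.{u} : Prop := ∀ (Ω : Type u) [MeasurableSpace Ω] (μ : Measure Ω),
    (∀ E, MeasurableSet E → μ E < ∞ →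
      TopologicalSpace.SeparableSpace (Lp ℝ 1 (μ.restrict E))) →
    ∃ (𝓢 : Set (Set Ω)) (Γ : Type u), Covers μ 𝓢 ∧
      Nonempty (Lp ℝ 1 μ ≃L[ℝ] (lp (fun _ : 𝓢 => LL) 1 × lp (fun _ : Γ => ℝ) 1))

end Pool.Agent.W6h79.LD
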