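import Pool.Agent.W6h79.LD.Defs2

open MeasureTheory Set Filter
open scoped ENNReal NNReal Topology

noncomputable section

namespace Pool.Agent.W6h79.LD

/-- (CX) Complexification: if real `L¹(μ)` is a dual then so is complex `L¹(μ)`. -/
def S_CX.{u, v} : Prop := ∀ (Ω : Type u) [MeasurableSpace Ω] (μ : Measure Ω) (Z : Type v)
    [NormedAddCommGroup Z] [NormedSpace ℝ Z] [CompleteSpace Z],
    Nonempty (Lp ℝ 1 μ ≃L[ℝ] StrongDual ℝ Z) →
    ∃ (Z' : Type v) (_ : NormedAddCommGroup Z') (_ : NormedSpace ℂ Z') (_ : CompleteSpace Z'),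
      Nonempty (Lp ℂ 1 μ ≃L[ℂ] StrongDual ℂ Z')

end Pool.Agent.W6h79.LD
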