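import Pool.Agent.W6h79.LD.Defs

/-!
# MP_3844f5_an, part 3: higher types

Let `κ` be a regular cardinal with `τ ^ ℵ₀ < κ` for all `τ < κ`.  If `L¹(μ)` is isomorphic to a
dual space and all of `μ` except fewer than `2 ^ κ` sets of finite measure has density character
less than `κ`, then no set of finite measure carries `κ` independent halving sets.
-/

open MeasureTheory Set Filter
open scoped ENNReal NNReal Topology

noncomputable section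

namespace Pool.Agent.W6h79.LD

/-- `κ` is regular and `τ ^ ℵ₀ < κ` for all `τ < κ`. -/
def CInacc.{u} (κ : Cardinal.{u}) : Prop :=
  κ.IsRegular ∧ ∀ τ < κ, τ ^ Cardinal.aleph0.{u} < κ

/-- The fair coin. -/
def coin : Measure Bool := (2⁻¹ : ℝ≥0∞) • Measure.count

instance : IsProbabilityMeasure coin := by
  constructor
  rw [coin, Measure.smul_apply, Measure.count_apply_finite _ Set.finite_univ]
  simp [ENNReal.inv_mul_cancel]

/-- The product of fair coins. -/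
def coins.{u} (A : Type u) : Measure (A → Bool) := Measure.infinitePi (fun _ : A => coin)

instance (A : Type*) : IsProbabilityMeasure (coins A) := by
  unfold coins; infer_instance

open Classical in
/-- Replace the coordinates in `J` of `x` by those of `y`. -/
def mrg.{u} {A : Type u} (J : Set A) (x y : A → Bool) : A → Bool :=
  fun i => if i ∈ J then y i else x i

/-- Density character less than `κ`. -/
def DensLt.{u} (κ : Cardinal.{u}) (X : Type u) [TopologicalSpace X] : Prop :=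
  ∃ D : Set X, Dense D ∧ Cardinal.mk D < κ

/-- The members of `𝓢` have finite measure, and `L¹` of every set of finite measure that is almost
disjoint from all of them has density character less than `κ`. -/
def CoversK.{u} (κ : Cardinal.{u}) {Ω : Type u} [MeasurableSpace Ω] (μ : Measure Ω)
    (𝓢 : Set (Set Ω)) : Prop :=
  (∀ S ∈ 𝓢, MeasurableSet S ∧ μ S < ∞) ∧
  ∀ E : Set Ω, MeasurableSet E → μ E < ∞ → (∀ S ∈ 𝓢, μ (E ∩ S) = 0) →
    DensLt κ (Lp ℝ 1 (μ.restrict E))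

open Classical in
/-- `E` (of finite positive measure) carries a family of independent halving sets indexed
by `A`. -/
def Halving.{u} (A : Type u) {Ω : Type u} [MeasurableSpace Ω] (μ : Measure Ω) (E : Set Ω) :
    Prop :=
  MeasurableSet E ∧ 0 < μ E ∧ μ E < ∞ ∧ ∃ R : A → Set Ω, (∀ a, MeasurableSet (R a)) ∧
    ∀ (F : Finset A) (s : A → Bool),
      μ (E ∩ ⋂ a ∈ F, if s a = true then R a else (R a)ᶜ) = (2⁻¹ : ℝ≥0∞) ^ F.card * μ E

/-- (D1) A Delta-system lemma for countable sets. -/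
def S_D1.{u} : Prop := ∀ (A : Type u), CInacc (Cardinal.mk A) → ∀ I : A → Set A,
    (∀ a, (I a).Countable ∧ a ∈ I a) →
    ∃ (R B : Set A), R.Countable ∧ Cardinal.mk B = Cardinal.mk A ∧
      (∀ a ∈ B, R ⊆ I a ∧ a ∉ R) ∧ (∀ a ∈ B, ∀ b ∈ B, a ≠ b → I a ∩ I b ⊆ R)

/-- (D2) Measurable functions depend on countably many coordinates. -/
def S_D2.{u} : Prop := ∀ (A : Type u) (f : (A → Bool) → ℝ), Measurable f →
    ∃ I : Set A, I.Countable ∧ ∀ x y : A → Bool, (∀ i ∈ I, x i = y i) → f x = f y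

/-- (D3) Density of a functional on `L¹`. -/
def S_D3.{u} : Prop := ∀ (Ω : Type u) [MeasurableSpace Ω] (μ : Measure Ω), IsFiniteMeasure μ →
    ∀ L : Lp ℝ 1 μ →L[ℝ] ℝ, ∃ f : Ω → ℝ, Measurable f ∧ (∀ ω, |f ω| ≤ ‖L‖) ∧
      ∀ g : Lp ℝ 1 μ, L g = ∫ ω, f ω * g ω ∂μ

/-- (D4m) Resampling is measure preserving. -/
def S_D4m.{u} : Prop := ∀ (A : Type u) (J : Set A),
    MeasurePreserving (fun p : (A → Bool) × (A → Bool) => mrg J p.1 p.2)
      ((coins A).prod (coins A)) (coins A)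

/-- (D4n) A function correlated with the coordinate `a` is not degenerate. -/
def S_D4n.{u} : Prop := ∀ (A : Type u) (J : Set A) (a : A) (f : (A → Bool) → ℝ), a ∈ J →
    Measurable f → (∃ C, ∀ x, |f x| ≤ C) → ∫ x, f x * sgn (x a) ∂(coins A) ≠ 0 →
    ∃ p q : ℚ, p < q ∧ 0 < coins A {x | 0 < coins A {y | (q : ℝ) < f (mrg J x y)} ∧
      0 < coins A {y | f (mrg J x y) < (p : ℝ)}}

/-- (D4i) Induction step. -/
def S_D4i.{u} : Prop := ∀ (A : Type u) (J : Set A) (E G : Set (A → Bool)),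
    MeasurableSet E → MeasurableSet G → (∀ x y, mrg J x y ∈ E ↔ x ∈ E) →
    (∀ x ∈ E, 0 < coins A {y | mrg J x y ∈ G}) → 0 < coins A E → 0 < coins A (E ∩ G)

/-- (D4) Independence up to a set of positive measure. -/
def S_D4.{u} : Prop := ∀ (A : Type u), CInacc (Cardinal.mk A) →
    ∀ f : A → (A → Bool) → ℝ, (∀ a, Measurable (f a)) → (∀ a, ∃ C, ∀ x, |f a x| ≤ C) →
    (∀ a, ∫ x, f a x * sgn (x a) ∂(coins A) ≠ 0) →
    ∃ (B : Set A) (p q : ℝ), Cardinal.mk B = Cardinal.mk A ∧ p < q ∧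
      ∀ (F : Finset A) (s : A → Bool), (↑F : Set A) ⊆ B →
        0 < coins A {x | ∀ a ∈ F, (s a = true → q < f a x) ∧ (s a = false → f a x < p)}

/-- (D5) `L¹({0,1}^κ) ⊂ Y*` implies `ℓ¹(κ) ⊂ Y`. -/
def S_D5.{u, v} : Prop := ∀ (A : Type u), CInacc (Cardinal.mk A) →
    ∀ (Y : Type v) [NormedAddCommGroup Y] [NormedSpace ℝ Y]
    (T : Lp ℝ 1 (coins A) →L[ℝ] StrongDual ℝ Y) (c : ℝ), 0 < c → (∀ f, c * ‖f‖ ≤ ‖T f‖) →
    ∃ (y : A → Y) (δ : ℝ), 0 < δ ∧ (∀ i, ‖y i‖ ≤ 1) ∧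
      ∀ (J : Finset A) (a : A → ℝ), δ * ∑ i ∈ J, |a i| ≤ ‖∑ i ∈ J, a i • y i‖

/-- (DA) Hahn-Banach extension, arbitrary index type. -/
def S_DA.{u, v} : Prop := ∀ (A : Type u) (Y : Type v) [NormedAddCommGroup Y] [NormedSpace ℝ Y]
    (y : A → Y) (δ : ℝ), 0 < δ →
    (∀ (J : Finset A) (a : A → ℝ), δ * ∑ i ∈ J, |a i| ≤ ‖∑ i ∈ J, a i • y i‖) →
    ∀ φ : A → ℝ, (∀ i, |φ i| ≤ 1) →
      ∃ x : StrongDual ℝ Y, ‖x‖ ≤ 1 / δ ∧ ∀ i, x (y i) = φ i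

open Classical in
/-- (E1A) Rademacher averages, arbitrary index type. -/
def S_E1A.{u, v} : Prop := ∀ (A : Type u) (Y : Type v) [NormedAddCommGroup Y]
    [NormedSpace ℝ Y] (x : (A → Bool) → StrongDual ℝ Y) (K : ℝ), (∀ β, ‖x β‖ ≤ K) →
    ∃ v : A → StrongDual ℝ Y,
      (∀ (J : Finset A) (ε : A → ℝ), (∀ k, |ε k| ≤ 1) →
        ‖∑ k ∈ J, ε k • v k‖ ≤ K * Real.sqrt J.card) ∧
      ∀ (y : Y) (s : ℝ) (m : A), (∀ β, x β y = s * sgn (β m)) →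
        ∀ k, v k y = if k = m then s else 0

/-- (EA) The family `v α k`, arbitrary infinite index type. -/
def S_EA.{u, v} : Prop := ∀ (A : Type u), Infinite A → ∀ (Y : Type v) [NormedAddCommGroup Y]
    [NormedSpace ℝ Y] (y : A → Y) (K : ℝ), (∀ i, ‖y i‖ ≤ 1) →
    (∀ φ : A → ℝ, (∀ i, |φ i| ≤ 1) →
      ∃ x : StrongDual ℝ Y, ‖x‖ ≤ K ∧ ∀ i, x (y i) = φ i) →
    ∃ v : (A → Bool) → A → StrongDual ℝ Y,
      (∀ (α : A → Bool) (J : Finset A) (ε : A → ℝ), (∀ k, |ε k| ≤ 1) →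
        ‖∑ k ∈ J, ε k • v α k‖ ≤ K * Real.sqrt J.card) ∧
      (∀ (F : Finset (A → Bool)) (k : (A → Bool) → A) (c : (A → Bool) → ℝ),
        ∑ α ∈ F, |c α| ≤ ‖∑ α ∈ F, c α • v α (k α)‖)

/-- (HA0) Exhaustion of one function. -/
def S_HA0.{u} : Prop := ∀ (Ω : Type u) [MeasurableSpace Ω] (μ : Measure Ω) (𝓢 : Set (Set Ω)),
    (∀ S ∈ 𝓢, MeasurableSet S ∧ μ S < ∞) → ∀ z : Lp ℝ 1 μ,
    ∃ 𝓣 : Set (Set Ω), 𝓣.Countable ∧ 𝓣 ⊆ 𝓢 ∧
      ∀ S ∈ 𝓢, μ (({ω | z ω ≠ 0} \ ⋃₀ 𝓣) ∩ S) = 0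

/-- (HA1) On a set of small density most members of the sequence are small. -/
def S_HA1.{u} : Prop := ∀ (Ω : Type u) [MeasurableSpace Ω] (μ : Measure Ω) (A : Type u),
    (Cardinal.mk A).IsRegular → ∀ G : Set Ω, MeasurableSet G → μ G < ∞ →
    DensLt (Cardinal.mk A) (Lp ℝ 1 (μ.restrict G)) →
    ∀ (z : A → Lp ℝ 1 μ) (C : ℝ),
    (∀ (J : Finset A) (ε : A → ℝ), (∀ k, |ε k| ≤ 1) →
      ‖∑ k ∈ J, ε k • z k‖ ≤ C * Real.sqrt J.card) →
    ∀ ρ : ℝ, 0 < ρ → Cardinal.mk {k | ρ < ∫ ω in G, |z k ω| ∂μ} < Cardinal.mk A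

/-- (HA) One member lives essentially on finitely many members of `𝓢` and is bounded there. -/
def S_HA.{u} : Prop := ∀ (Ω : Type u) [MeasurableSpace Ω] (μ : Measure Ω) (𝓢 : Set (Set Ω))
    (A : Type u), (Cardinal.mk A).IsRegular → CoversK (Cardinal.mk A) μ 𝓢 →
    ∀ (z : A → Lp ℝ 1 μ) (C : ℝ),
    (∀ (J : Finset A) (ε : A → ℝ), (∀ k, |ε k| ≤ 1) →
      ‖∑ k ∈ J, ε k • z k‖ ≤ C * Real.sqrt J.card) →
    ∀ η : ℝ, 0 < η → ∃ (k : A) (F : Finset (Set Ω)) (M : ℕ), (↑F : Set (Set Ω)) ⊆ 𝓢 ∧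
      ∫ ω in ((⋃₀ (↑F : Set (Set Ω))) ∩ {ω | |z k ω| ≤ (M : ℝ)})ᶜ, |z k ω| ∂μ ≤ η

/-- (Ind) Independent halving sets give a copy of `L¹({0,1}^A)`. -/
def S_Ind.{u} : Prop := ∀ (Ω : Type u) [MeasurableSpace Ω] (μ : Measure Ω) (A : Type u)
    (E : Set Ω), Halving A μ E →
    ∃ (V : Lp ℝ 1 (coins A) →L[ℝ] Lp ℝ 1 μ) (c : ℝ), 0 < c ∧ ∀ f, c * ‖f‖ ≤ ‖V f‖

/-- (MainK) Necessity for higher types, embedding version. -/
def S_MainK.{u, v} : Prop := ∀ (A : Type u), CInacc (Cardinal.mk A) →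
    ∀ (Ω : Type u) [MeasurableSpace Ω] (μ : Measure Ω) (𝓢 : Set (Set Ω)),
    CoversK (Cardinal.mk A) μ 𝓢 → Cardinal.mk 𝓢 < 2 ^ Cardinal.mk A →
    ∀ (Y : Type v) [NormedAddCommGroup Y] [NormedSpace ℝ Y]
      (U : StrongDual ℝ Y →L[ℝ] Lp ℝ 1 μ) (b : ℝ), 0 < b → (∀ x, b * ‖x‖ ≤ ‖U x‖) →
    ∀ (T : Lp ℝ 1 (coins A) →L[ℝ] StrongDual ℝ Y) (c : ℝ), 0 < c →
      ¬ (∀ f, c * ‖f‖ ≤ ‖T f‖)

end Pool.Agent.W6h79.LD
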