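import Pool.Agent.W6h79.LD.Defs4
import Pool.Agent.W6h79.LD.Cplx

open MeasureTheory Set Filter
open scoped ENNReal NNReal Topology

noncomputable section

namespace Pool.Agent.W6h79.LD

/-- (KC) Doubling a cover. -/
def S_KC.{u} : Prop := ∀ (κ : Cardinal.{u}), Cardinal.aleph0 ≤ κ →
    ∀ (Ω : Type u) [MeasurableSpace Ω] (μ : Measure Ω) (𝓢 : Set (Set Ω)), CoversK κ μ 𝓢 →
    CoversK κ (μ.map (Sum.inl : Ω → Ω ⊕ Ω) + μ.map (Sum.inr : Ω → Ω ⊕ Ω)) (dblCover 𝓢)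

end Pool.Agent.W6h79.LD
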