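import Pool.Agent.W6h79.LD.Defs4

/-!
# MP_3844f5_an, part 4: Maharam's lemma

A finite measure space `E` with density character of `L¹(μ|E)` at least `κ` (regular, uncountable)
contains a set carrying `κ` independent halving sets.
-/

open MeasureTheory Set Filter
open scoped ENNReal NNReal Topology

noncomputable section

namespace Pool.Agent.W6h79.LD

/-- (Mh1) The thick part. -/
def S_Mh1.{u} : Prop := ∀ (κ : Cardinal.{u}), κ.IsRegular → Cardinal.aleph0 < κ →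
    ∀ (Ω : Type u) [MeasurableSpace Ω] (μ : Measure Ω) (E : Set Ω),
    MeasurableSet E → μ E < ∞ → ¬ DensLt κ (Lp ℝ 1 (μ.restrict E)) →
    ∃ E' ⊆ E, MeasurableSet E' ∧ 0 < μ E' ∧
      ∀ F ⊆ E', MeasurableSet F → 0 < μ F → ¬ DensLt κ (Lp ℝ 1 (μ.restrict F))

/-- `μ` is nowhere generated by the sub-sigma-algebra `m`: every set of positive measure has a
measurable subset that is not, up to a null set, the trace of a member of `m`. -/
def Nowhere.{u} {Ω : Type u} (m m0 : MeasurableSpace Ω) (μ : @Measure Ω m0) : Prop :=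
  ∀ F : Set Ω, MeasurableSet[m0] F → 0 < μ F →
    ∃ C ⊆ F, MeasurableSet[m0] C ∧ ∀ B, MeasurableSet[m] B → 0 < μ (symmDiff C (B ∩ F))

/-- (Mh2a) Small pieces. -/
def S_Mh2a.{u} : Prop := ∀ (Ω : Type u) (m m0 : MeasurableSpace Ω) (μ : @Measure Ω m0),
    m ≤ m0 → @IsFiniteMeasure Ω m0 μ → Nowhere m m0 μ →
    ∀ F : Set Ω, MeasurableSet[m0] F → 0 < μ F → ∀ n : ℕ,
    ∃ C ⊆ F, MeasurableSet[m0] C ∧ 0 < μ C ∧
      ∀ B, MeasurableSet[m] B → μ (C ∩ B) ≤ (2⁻¹ : ℝ≥0∞) ^ n * μ B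

/-- (Mh2) Maharam's lemma: a halving set independent of `m`. -/
def S_Mh2.{u} : Prop := ∀ (Ω : Type u) (m m0 : MeasurableSpace Ω) (μ : @Measure Ω m0),
    m ≤ m0 → @IsFiniteMeasure Ω m0 μ → Nowhere m m0 μ →
    ∃ R : Set Ω, MeasurableSet[m0] R ∧
      ∀ B, MeasurableSet[m] B → μ (R ∩ B) = (2⁻¹ : ℝ≥0∞) * μ B

/-- (Mh3) A sigma-algebra generated by fewer than `κ` sets is nowhere everything in a thick
measure. -/
def S_Mh3.{u} : Prop := ∀ (κ : Cardinal.{u}), Cardinal.aleph0 < κ →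
    ∀ (Ω : Type u) [m0 : MeasurableSpace Ω] (μ : Measure Ω), IsFiniteMeasure μ →
    (∀ F, MeasurableSet F → 0 < μ F → ¬ DensLt κ (Lp ℝ 1 (μ.restrict F))) →
    ∀ 𝒞 : Set (Set Ω), (∀ C ∈ 𝒞, MeasurableSet C) → Cardinal.mk 𝒞 < κ →
    Nowhere (MeasurableSpace.generateFrom 𝒞) m0 μ

open Classical in
/-- (Mh4) The transfinite recursion. -/
def S_Mh4.{u} : Prop := ∀ (A : Type u), (Cardinal.mk A).IsRegular →
    Cardinal.aleph0 < Cardinal.mk A →
    ∀ (Ω : Type u) [MeasurableSpace Ω] (μ : Measure Ω), IsFiniteMeasure μ →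
    (∀ 𝒞 : Set (Set Ω), (∀ C ∈ 𝒞, MeasurableSet C) → Cardinal.mk 𝒞 < Cardinal.mk A →
      ∃ R : Set Ω, MeasurableSet R ∧
        ∀ B, MeasurableSet[MeasurableSpace.generateFrom 𝒞] B →
          μ (R ∩ B) = (2⁻¹ : ℝ≥0∞) * μ B) →
    ∃ R : A → Set Ω, (∀ a, MeasurableSet (R a)) ∧
      ∀ (F : Finset A) (s : A → Bool),
        μ (⋂ a ∈ F, if s a = true then R a else (R a)ᶜ) = (2⁻¹ : ℝ≥0∞) ^ F.card * μ univ

/-- (Mah) Density at least `κ` gives `κ` independent halving sets. -/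
def S_Mah.{u} : Prop := ∀ (A : Type u), (Cardinal.mk A).IsRegular →
    Cardinal.aleph0 < Cardinal.mk A →
    ∀ (Ω : Type u) [MeasurableSpace Ω] (μ : Measure Ω) (E : Set Ω),
    MeasurableSet E → μ E < ∞ → ¬ DensLt (Cardinal.mk A) (Lp ℝ 1 (μ.restrict E)) →
    ∃ E' ⊆ E, Halving A μ E'

end Pool.Agent.W6h79.LD
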