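import Pool.Agent.W6h79.LD.Defs2
import Pool.Agent.W6h79.LD.Defs6

/-!
# MP_3844f5_an, part 5: sufficiency for homogeneous measures of type `κ`
-/

open MeasureTheory Set Filter
open scoped ENNReal NNReal Topology

noncomputable section

namespace Pool.Agent.W6h79.LD

/-- `X` is contractively complemented in `Y`. -/
def CE.{u, v} (X : Type u) (Y : Type v) [NormedAddCommGroup X] [NormedSpace ℝ X]
    [NormedAddCommGroup Y] [NormedSpace ℝ Y] : Prop :=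
  ∃ (i : X →L[ℝ] Y) (P : Y →L[ℝ] X), (∀ x, P (i x) = x) ∧ ‖i‖ ≤ 1 ∧ ‖P‖ ≤ 1

/-- `X` is complemented in `Y`. -/
def CB.{u, v} (X : Type u) (Y : Type v) [NormedAddCommGroup X] [NormedSpace ℝ X]
    [NormedAddCommGroup Y] [NormedSpace ℝ Y] : Prop :=
  ∃ (i : X →L[ℝ] Y) (P : Y →L[ℝ] X), ∀ x, P (i x) = x

/-- (T1) sums of contractively complemented subspaces. -/
def S_T1.{u, v, w} : Prop := ∀ (K : Type u) (X : K → Type v) (Y : K → Type w)
    [∀ k, NormedAddCommGroup (X k)] [∀ k, NormedSpace ℝ (X k)]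
    [∀ k, NormedAddCommGroup (Y k)] [∀ k, NormedSpace ℝ (Y k)],
    (∀ k, CE (X k) (Y k)) → CE (lp X 1) (lp Y 1)

/-- (T2) Pelczynski decomposition. -/
def S_T2.{u, v} : Prop := ∀ (X : Type u) (Y : Type v)
    [NormedAddCommGroup X] [NormedSpace ℝ X] [CompleteSpace X]
    [NormedAddCommGroup Y] [NormedSpace ℝ Y] [CompleteSpace Y],
    CB X Y → CB Y X → Nonempty (lp (fun _ : ℕ => X) 1 ≃L[ℝ] X) → Nonempty (X ≃L[ℝ] Y)

/-- (T3) measure preserving maps give contractively complemented `L¹`. -/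
def S_T3.{u, v} : Prop := ∀ (Ω : Type u) (Ω' : Type v) [MeasurableSpace Ω] [MeasurableSpace Ω']
    (μ : Measure Ω) (ν : Measure Ω') (φ : Ω → Ω'), IsFiniteMeasure μ →
    MeasurePreserving φ μ ν → CE (Lp ℝ 1 ν) (Lp ℝ 1 μ)

/-- (T4) coin tosses to the uniform distribution. -/
def S_T4 : Prop := ∃ u : (ℕ → Bool) → ℝ, MeasurePreserving u (coins ℕ) lam

/-- (T5a) conditional probabilities of the coordinate `a` given the earlier ones. -/
def S_T5a.{u} : Prop := ∀ (A : Type u) [LinearOrder A] (ν : Measure (A → Bool)),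
    IsProbabilityMeasure ν → ∀ a : A, ∃ p : (A → Bool) → ℝ, Measurable p ∧
      (∀ x, 0 ≤ p x ∧ p x ≤ 1) ∧ (∀ x y, (∀ b < a, x b = y b) → p x = p y) ∧
      ∀ C : Set (A → Bool), MeasurableSet C →
        (∀ x y, (∀ b < a, x b = y b) → (x ∈ C ↔ y ∈ C)) →
        (ν (C ∩ {x | x a = true})).toReal = ∫ x in C, p x ∂ν

/-- (T5) every probability measure on `{0,1}^A` is an image of the coins on `A × ℕ`. -/
def S_T5.{u} : Prop := ∀ (A : Type u) (ν : Measure (A → Bool)), IsProbabilityMeasure ν →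
    ∃ Ψ : (A × ℕ → Bool) → (A → Bool), MeasurePreserving Ψ (coins (A × ℕ)) ν

/-- (T6) reduction to a probability measure on `{0,1}^A`. -/
def S_T6.{u} : Prop := ∀ (A : Type u), Infinite A → ∀ (Ω : Type u) [MeasurableSpace Ω]
    (μ : Measure Ω), IsFiniteMeasure μ → μ ≠ 0 →
    (∃ D : Set (Lp ℝ 1 μ), Dense D ∧ Cardinal.mk D ≤ Cardinal.mk A) →
    ∃ ν : Measure (A → Bool), IsProbabilityMeasure ν ∧ Nonempty (Lp ℝ 1 μ ≃ₗᵢ[ℝ] Lp ℝ 1 ν)

/-- (T7) reindexing coins. -/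
def S_T7.{u, v} : Prop := ∀ (A : Type u) (A' : Type v) (_ : A ≃ A'),
    Nonempty (Lp ℝ 1 (coins A) ≃ₗᵢ[ℝ] Lp ℝ 1 (coins A'))

/-- (T8a) functionals on `C({0,1}^A)`. -/
def S_T8a.{u} : Prop := ∀ (A : Type u) (φ : StrongDual ℝ C(A → Bool, ℝ)),
    ∃ m₁ m₂ : Measure (A → Bool), IsFiniteMeasure m₁ ∧ IsFiniteMeasure m₂ ∧
      ∀ g : C(A → Bool, ℝ), φ g = ∫ x, g x ∂m₁ - ∫ x, g x ∂m₂

/-- (T8b) the norm of a density; continuous functions are measurable for the product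
sigma-algebra. -/
def S_T8b.{u} : Prop := ∀ (A : Type u),
    (∀ g : C(A → Bool, ℝ), Measurable (g : (A → Bool) → ℝ)) ∧
    ∀ (m : Measure (A → Bool)), IsFiniteMeasure m → ∀ f : (A → Bool) → ℝ, Integrable f m →
    ∀ ε : ℝ, 0 < ε →
      ∃ g : C(A → Bool, ℝ), ‖g‖ ≤ 1 ∧ ∫ x, |f x| ∂m - ε ≤ ∫ x, g x * f x ∂m

/-- A maximal family of pairwise singular probability measures on `{0,1}^A`. -/
def MaxFamK.{u} (A : Type u) (𝓕 : Set (Measure (A → Bool))) : Prop :=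
  (∀ ν ∈ 𝓕, IsProbabilityMeasure ν) ∧
  (∀ ν ∈ 𝓕, ∀ ν' ∈ 𝓕, ν ≠ ν' → ν ⟂ₘ ν') ∧
  (∀ m : Measure (A → Bool), IsFiniteMeasure m → (∀ ν ∈ 𝓕, m ⟂ₘ ν) → m = 0)

/-- (T8c) existence, with `2 ^ κ` members like the coins. -/
def S_T8c.{u} : Prop := ∀ (A : Type u), Infinite A → ∃ 𝓕 : Set (Measure (A → Bool)),
    MaxFamK A 𝓕 ∧ ∃ g : (A → Bool) → 𝓕, Function.Injective g ∧
      ∀ α, Nonempty (Lp ℝ 1 (coins A) ≃ₗᵢ[ℝ] Lp ℝ 1 (g α : Measure (A → Bool)))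

/-- (T8d) decomposition along a maximal family. -/
def S_T8d.{u} : Prop := ∀ (A : Type u) (𝓕 : Set (Measure (A → Bool))), MaxFamK A 𝓕 →
    ∀ m : Measure (A → Bool), IsFiniteMeasure m →
    ∃ f : 𝓕 → (A → Bool) → ℝ≥0∞, (∀ ν, Measurable (f ν)) ∧
      m = Measure.sum (fun ν : 𝓕 => (ν : Measure (A → Bool)).withDensity (f ν))

/-- (T8e) the dual of `C({0,1}^A)`. -/
def S_T8e.{u} : Prop := ∀ (A : Type u) (𝓕 : Set (Measure (A → Bool))), MaxFamK A 𝓕 →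
    Nonempty (lp (fun ν : 𝓕 => Lp ℝ 1 (ν : Measure (A → Bool))) 1 ≃L[ℝ]
      StrongDual ℝ C(A → Bool, ℝ))

/-- (T8f) cardinality. -/
def S_T8f.{u} : Prop := ∀ (A : Type u), Infinite A → ∀ 𝓕 : Set (Measure (A → Bool)),
    (∀ ν ∈ 𝓕, IsProbabilityMeasure ν) → Cardinal.mk 𝓕 ≤ 2 ^ Cardinal.mk A

/-- (T5') every `L¹(ν)`, `ν` on `{0,1}^A`, is complemented in `L¹` of the coins. -/
def S_T5'.{u} : Prop := ∀ (A : Type u), Infinite A → ∀ (ν : Measure (A → Bool)),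
    IsProbabilityMeasure ν → CE (Lp ℝ 1 ν) (Lp ℝ 1 (coins A))

/-- (T9) the dual of `C({0,1}^A)`, final form. -/
def S_T9.{u} : Prop := ∀ (A : Type u), Infinite A → ∃ I : Type u,
    Cardinal.mk I = 2 ^ Cardinal.mk A ∧
    Nonempty (StrongDual ℝ C(A → Bool, ℝ) ≃L[ℝ] lp (fun _ : I => Lp ℝ 1 (coins A)) 1)

/-- (T10) at least `2 ^ κ` copies of `L¹({0,1}^κ)` form a dual space. -/
def S_T10.{u} : Prop := ∀ (A K Γ : Type u), Infinite A →
    2 ^ Cardinal.mk A ≤ Cardinal.mk K →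
    ∃ (Z : Type u) (_ : NormedAddCommGroup Z) (_ : NormedSpace ℝ Z) (_ : CompleteSpace Z),
    Nonempty ((lp (fun _ : K => Lp ℝ 1 (coins A)) 1 × lp (fun _ : Γ => ℝ) 1) ≃L[ℝ]
      StrongDual ℝ Z)

/-- (T12) `L¹` of the coins is complemented in `L¹` of a set of density at least `κ`. -/
def S_T12.{u} : Prop := ∀ (A : Type u), (Cardinal.mk A).IsRegular →
    Cardinal.aleph0 < Cardinal.mk A →
    ∀ (Ω : Type u) [MeasurableSpace Ω] (μ : Measure Ω) (E : Set Ω),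
    MeasurableSet E → μ E < ∞ → ¬ DensLt (Cardinal.mk A) (Lp ℝ 1 (μ.restrict E)) →
    CE (Lp ℝ 1 (coins A)) (Lp ℝ 1 (μ.restrict E))

/-- The atomless part of `μ` is homogeneous of type `κ`: `L¹(μ|E)` has density character exactly
`κ` for every atomless `E` of finite positive measure. -/
def Homog.{u} (κ : Cardinal.{u}) {Ω : Type u} [MeasurableSpace Ω] (μ : Measure Ω) : Prop :=
  ∀ E : Set Ω, MeasurableSet E → 0 < μ E → μ E < ∞ → (∀ A ⊆ E, ¬ AtomSet μ A) →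
    (∃ D : Set (Lp ℝ 1 (μ.restrict E)), Dense D ∧ Cardinal.mk D ≤ κ) ∧
    ¬ DensLt κ (Lp ℝ 1 (μ.restrict E))

/-- (T11) `L¹(μ)` for a homogeneous measure with infinitely many pieces. -/
def S_T11.{u} : Prop := ∀ (A : Type u), (Cardinal.mk A).IsRegular →
    Cardinal.aleph0 < Cardinal.mk A →
    ∀ (Ω : Type u) [MeasurableSpace Ω] (μ : Measure Ω), Homog (Cardinal.mk A) μ →
    ∃ (𝓢 : Set (Set Ω)) (Γ : Type u), Covers μ 𝓢 ∧
      (Infinite 𝓢 → Nonempty (Lp ℝ 1 μ ≃L[ℝ]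
        (lp (fun _ : 𝓢 => Lp ℝ 1 (coins A)) 1 × lp (fun _ : Γ => ℝ) 1)))

/-- (T13) purely atomic finite measures have separable `L¹`. -/
def S_T13.{u} : Prop := ∀ (Ω : Type u) [MeasurableSpace Ω] (μ : Measure Ω), IsFiniteMeasure μ →
    (∀ F, MeasurableSet F → 0 < μ F → ∃ A ⊆ F, AtomSet μ A) →
    TopologicalSpace.SeparableSpace (Lp ℝ 1 μ)

end Pool.Agent.W6h79.LD
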