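import Pool.Agent.W6h79.LD.Defs7

/-!
# MP_3844f5_an, part 6: all measures whose types are `ℵ₀` or countably inaccessible regular
-/

open MeasureTheory Set Filter
open scoped ENNReal NNReal Topology

noncomputable section

namespace Pool.Agent.W6h79.LD

/-- `L¹` of the coins. -/
abbrev XC.{u} (A : Type u) : Type u := Lp ℝ 1 (coins A)

/-- (W1) the dual of `C({0,1}^A)`, isometric version. -/
def S_W1.{u} : Prop := ∀ (A : Type u) (𝓕 : Set (Measure (A → Bool))), MaxFamK A 𝓕 →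
    Nonempty (lp (fun ν : 𝓕 => Lp ℝ 1 (ν : Measure (A → Bool))) 1 ≃ₗᵢ[ℝ]
      StrongDual ℝ C(A → Bool, ℝ))

/-- (W2) the dual of `C({0,1}^A)` against `2 ^ κ` copies of `L¹` of the coins. -/
def S_W2.{u} : Prop := ∀ (A : Type u), Infinite A →
    CE (StrongDual ℝ C(A → Bool, ℝ)) (lp (fun _ : A → Bool => XC A) 1) ∧
    CE (lp (fun _ : A → Bool => XC A) 1) (StrongDual ℝ C(A → Bool, ℝ))

/-- (W3) sums along an injection. -/
def S_W3.{u, v, w, x} : Prop := ∀ (P : Type u) (Q : Type v) (X : P → Type w) (Y : Q → Type x)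
    [∀ k, NormedAddCommGroup (X k)] [∀ k, NormedSpace ℝ (X k)]
    [∀ k, NormedAddCommGroup (Y k)] [∀ k, NormedSpace ℝ (Y k)] (g : P → Q),
    Function.Injective g → (∀ p, CE (X p) (Y (g p))) → CE (lp X 1) (lp Y 1)

/-- (W4) iterated sums, dependent. -/
def S_W4.{u, v, w} : Prop := ∀ (P : Type u) (B : P → Type v) (Y : P → Type w)
    [∀ p, NormedAddCommGroup (Y p)] [∀ p, NormedSpace ℝ (Y p)],
    Nonempty (lp (fun p : P => lp (fun _ : B p => Y p) 1) 1 ≃ₗᵢ[ℝ]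
      lp (fun q : (Σ p : P, B p) => Y q.1) 1)

/-- (W5) the dual of a dependent `c₀`-sum. -/
def S_W5.{u, v} : Prop := ∀ (K : Type u) (Y : K → Type v) [∀ k, NormedAddCommGroup (Y k)]
    [∀ k, NormedSpace ℝ (Y k)] [∀ k, CompleteSpace (Y k)], ∃ (Z : Type (max u v))
    (_ : NormedAddCommGroup Z) (_ : NormedSpace ℝ Z) (_ : CompleteSpace Z),
    Nonempty (StrongDual ℝ Z ≃L[ℝ] lp (fun k : K => StrongDual ℝ (Y k)) 1)

/-- (W6) fewer coins. -/
def S_W6.{u} : Prop := ∀ (A B : Type u), Cardinal.mk A ≤ Cardinal.mk B → CE (XC A) (XC B)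

/-- `μ` is homogeneous of type `κ` on `E`. -/
def HomOn.{u} (κ : Cardinal.{u}) {Ω : Type u} [MeasurableSpace Ω] (μ : Measure Ω)
    (E : Set Ω) : Prop :=
  ∀ F ⊆ E, MeasurableSet F → 0 < μ F →
    (∃ D : Set (Lp ℝ 1 (μ.restrict F)), Dense D ∧ Cardinal.mk D ≤ κ) ∧
    ¬ DensLt κ (Lp ℝ 1 (μ.restrict F))

/-- (W7) a maximal decomposition into atoms and homogeneous atomless sets. -/
def S_W7.{u} : Prop := ∀ (Ω : Type u) [MeasurableSpace Ω] (μ : Measure Ω),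
    ∃ 𝓔 : Set (Set Ω), MaxDec μ 𝓔 ∧
      ∀ E ∈ 𝓔, ¬ AtomSet μ E → ∃ κ : Cardinal.{u}, Cardinal.aleph0 ≤ κ ∧ HomOn κ μ E

/-- The types considered: `ℵ₀` or countably inaccessible regular. -/
def GoodType.{u} (κ : Cardinal.{u}) : Prop := κ = Cardinal.aleph0 ∨ CInacc κ

/-- (W8) homogeneous sets against coins. -/
def S_W8.{u} : Prop := ∀ (A : Type u), GoodType (Cardinal.mk A) →
    ∀ (Ω : Type u) [MeasurableSpace Ω] (μ : Measure Ω) (E : Set Ω),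
    MeasurableSet E → 0 < μ E → μ E < ∞ → (∀ B ⊆ E, ¬ AtomSet μ B) →
    HomOn (Cardinal.mk A) μ E →
    CE (XC A) (Lp ℝ 1 (μ.restrict E)) ∧ CE (Lp ℝ 1 (μ.restrict E)) (XC A)

/-- (W9) the injection. -/
def S_W9.{u} : Prop := ∀ (P : Type u) (t : P → Cardinal.{u}), (∀ p, Cardinal.aleph0 ≤ t p) →
    (∀ p, (2 : Cardinal.{u}) ^ t p ≤ Cardinal.mk {q // t p ≤ t q}) →
    ∃ g : (Σ p : P, ((t p).out → Bool)) → P, Function.Injective g ∧ ∀ q, t q.1 ≤ t (g q)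

/-- (W10) the abstract comparison: from the injection to the dual space. -/
def S_W10.{u} : Prop := ∀ (P : Type u) (t : P → Cardinal.{u}) (X : P → Type u)
    [∀ p, NormedAddCommGroup (X p)] [∀ p, NormedSpace ℝ (X p)] [∀ p, CompleteSpace (X p)],
    (∀ p, Cardinal.aleph0 ≤ t p) →
    (∀ p, CE (XC (t p).out) (X p) ∧ CE (X p) (XC (t p).out)) →
    (∀ p, (2 : Cardinal.{u}) ^ t p ≤ Cardinal.mk {q // t p ≤ t q}) →
    ∃ (Z : Type u) (_ : NormedAddCommGroup Z) (_ : NormedSpace ℝ Z) (_ : CompleteSpace Z),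
      Nonempty (lp X 1 ≃L[ℝ] StrongDual ℝ Z)

/-- Every homogeneous set of finite positive measure has good type. -/
def GoodTypes.{u} {Ω : Type u} [MeasurableSpace Ω] (μ : Measure Ω) : Prop :=
  ∀ (E : Set Ω) (κ : Cardinal.{u}), MeasurableSet E → 0 < μ E → μ E < ∞ →
    (∀ B ⊆ E, ¬ AtomSet μ B) → HomOn κ μ E → GoodType κ

/-- The condition at the type `κ`. -/
def CondAt.{u} (κ : Cardinal.{u}) {Ω : Type u} [MeasurableSpace Ω] (μ : Measure Ω) : Prop :=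
  (∀ E, MeasurableSet E → μ E < ∞ → DensLt κ (Lp ℝ 1 (μ.restrict E))) ∨
    ∀ 𝓢 : Set (Set Ω), CoversK κ μ 𝓢 → 2 ^ κ ≤ Cardinal.mk 𝓢

/-- (W11) counting pieces: the condition of the theorem gives the hypothesis of (W9). -/
def S_W11.{u} : Prop := ∀ (Ω : Type u) [MeasurableSpace Ω] (μ : Measure Ω)
    (𝓔 : Set (Set Ω)), MaxDec μ 𝓔 →
    ∀ t : {E : 𝓔 // ¬ AtomSet μ (E : Set Ω)} → Cardinal.{u},
    (∀ p, HomOn (t p) μ (p.1 : Set Ω)) → (∀ p, GoodType (t p)) →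
    ((∀ 𝓢 : Set (Set Ω), Covers μ 𝓢 → Cardinal.continuum ≤ Cardinal.mk 𝓢) ∨
      (∀ E : Set Ω, MeasurableSet E → 0 < μ E → μ E < ∞ → ∃ A ⊆ E, AtomSet μ A)) →
    (∀ κ, CInacc κ → CondAt κ μ) →
    ∀ p, (2 : Cardinal.{u}) ^ t p ≤ Cardinal.mk {q // t p ≤ t q}

end Pool.Agent.W6h79.LD
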