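import Pool.Agent.W6h79.LD.Defs8

/-!
# MP_3844f5_an, part 7: all regular types above `ℵ₁`
-/

open MeasureTheory Set Filter
open scoped ENNReal NNReal Topology

noncomputable section

namespace Pool.Agent.W6h79.LD

/-- `κ` is regular and larger than `ℵ₁`. -/
def GR.{u} (κ : Cardinal.{u}) : Prop := κ.IsRegular ∧ Cardinal.aleph 1 < κ

/-- (X1) Hajnal's free set theorem, regular case, countable set mappings. -/
def S_X1.{u} : Prop := ∀ (A : Type u), GR (Cardinal.mk A) → ∀ I : A → Set A,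
    (∀ a, (I a).Countable) →
    ∃ B : Set A, Cardinal.mk B = Cardinal.mk A ∧ ∀ a ∈ B, ∀ b ∈ B, a ≠ b → a ∉ I b

/-- (X2) Integrals over cylinders of a function that depends on one coordinate only. -/
def S_X2.{u} : Prop := ∀ (A : Type u) (f : (A → Bool) → ℝ) (I : Set A), Measurable f →
    (∃ C, ∀ x, |f x| ≤ C) → (∀ x y : A → Bool, (∀ i ∈ I, x i = y i) → f x = f y) →
    ∀ (F : Finset A) (a : A) (s : A → Bool), a ∈ F → (∀ b ∈ F, b ≠ a → b ∉ I) →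
      (2 : ℝ) ^ F.card * ∫ x in {x : A → Bool | ∀ b ∈ F, x b = s b}, f x ∂(coins A) =
        ∫ x, f x ∂(coins A) + sgn (s a) * ∫ x, f x * sgn (x a) ∂(coins A)

/-- (X3) `L¹({0,1}^κ) ⊂ Y*` implies `ℓ¹(κ) ⊂ Y`, for `κ` regular above `ℵ₁`. -/
def S_X3.{u, v} : Prop := ∀ (A : Type u), GR (Cardinal.mk A) →
    ∀ (Y : Type v) [NormedAddCommGroup Y] [NormedSpace ℝ Y]
    (T : Lp ℝ 1 (coins A) →L[ℝ] StrongDual ℝ Y) (c : ℝ), 0 < c → (∀ f, c * ‖f‖ ≤ ‖T f‖) →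
    ∃ (y : A → Y) (δ : ℝ), 0 < δ ∧ (∀ i, ‖y i‖ ≤ 1) ∧
      ∀ (J : Finset A) (a : A → ℝ), δ * ∑ i ∈ J, |a i| ≤ ‖∑ i ∈ J, a i • y i‖

/-- The types considered: `ℵ₀` or regular above `ℵ₁`. -/
def GoodType9.{u} (κ : Cardinal.{u}) : Prop := κ = Cardinal.aleph0 ∨ GR κ

/-- (X8) homogeneous sets against coins. -/
def S_X8.{u} : Prop := ∀ (A : Type u), GoodType9 (Cardinal.mk A) →
    ∀ (Ω : Type u) [MeasurableSpace Ω] (μ : Measure Ω) (E : Set Ω),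
    MeasurableSet E → 0 < μ E → μ E < ∞ → (∀ B ⊆ E, ¬ AtomSet μ B) →
    HomOn (Cardinal.mk A) μ E →
    CE (XC A) (Lp ℝ 1 (μ.restrict E)) ∧ CE (Lp ℝ 1 (μ.restrict E)) (XC A)

/-- Every homogeneous set of finite positive measure has good type. -/
def GoodTypes9.{u} {Ω : Type u} [MeasurableSpace Ω] (μ : Measure Ω) : Prop :=
  ∀ (E : Set Ω) (κ : Cardinal.{u}), MeasurableSet E → 0 < μ E → μ E < ∞ →
    (∀ B ⊆ E, ¬ AtomSet μ B) → HomOn κ μ E → GoodType9 κ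

/-- (X11) counting pieces. -/
def S_X11.{u} : Prop := ∀ (Ω : Type u) [MeasurableSpace Ω] (μ : Measure Ω)
    (𝓔 : Set (Set Ω)), MaxDec μ 𝓔 →
    ∀ t : {E : 𝓔 // ¬ AtomSet μ (E : Set Ω)} → Cardinal.{u},
    (∀ p, HomOn (t p) μ (p.1 : Set Ω)) → (∀ p, GoodType9 (t p)) →
    ((∀ 𝓢 : Set (Set Ω), Covers μ 𝓢 → Cardinal.continuum ≤ Cardinal.mk 𝓢) ∨
      (∀ E : Set Ω, MeasurableSet E → 0 < μ E → μ E < ∞ → ∃ A ⊆ E, AtomSet μ A)) →
    (∀ κ, GR κ → CondAt κ μ) →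
    ∀ p, (2 : Cardinal.{u}) ^ t p ≤ Cardinal.mk {q // t p ≤ t q}

end Pool.Agent.W6h79.LD
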