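import Pool.Agent.W6h79.LD.Defs4
import Pool.Agent.W6h79.LD.G

/-!
# (HA0) Exhaustion of one function
-/

open MeasureTheory Set Filter
open scoped ENNReal NNReal Topology

noncomputable section

namespace Pool.Agent.W6h79.LD

universe u

theorem sHA0 : S_HA0.{u} := by
  intro Ω _ μ 𝓢 h𝓢 z
  have hzm : Measurable (z : Ω → ℝ) := (Lp.stronglyMeasurable z).measurable
  have hzi : Integrable (z : Ω → ℝ) μ := L1.integrable_coeFn z
  set D : ℕ → Set Ω := fun p => {ω | (1:ℝ) / ((p : ℝ) + 1) ≤ ‖z ω‖} with hD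
  have hDm : ∀ p, MeasurableSet (D p) := fun p => measurableSet_le measurable_const hzm.norm
  have hDf : ∀ p, μ (D p) < ∞ := fun p => hzi.measure_norm_ge_lt_top (by positivity)
  have hZz : {ω | z ω ≠ 0} ⊆ ⋃ p, D p := by
    intro ω h
    obtain ⟨n, hn⟩ := exists_nat_one_div_lt (norm_pos_iff.2 h)
    exact mem_iUnion.2 ⟨n, hn.le⟩
  haveI : ∀ p, IsFiniteMeasure (μ.restrict (D p)) := fun p =>
    ⟨by rw [Measure.restrict_apply_univ]; exact hDf p⟩
  set κ : Measure Ω := Measure.sum fun p : ℕ => μ.restrict (D p) with hκ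
  set ν : Measure Ω := κ.toFinite with hν
  have hν0 : ∀ E, MeasurableSet E → ν E = 0 → ∀ p, μ (E ∩ D p) = 0 := by
    intro E hE h
    have e1 : κ E = 0 := absolutelyContinuous_toFinite κ h
    rw [hκ, Measure.sum_apply_eq_zero' hE] at e1
    intro p
    have := e1 p
    rwa [Measure.restrict_apply hE] at this
  obtain ⟨𝓣, h𝓣, hcT, hST⟩ := GG.exists_countable ν 𝓢 (fun S hS => (h𝓢 S hS).1)
  have hTm : MeasurableSet (⋃₀ 𝓣) := MeasurableSet.sUnion hcT fun t ht => (h𝓢 t (h𝓣 ht)).1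
  refine ⟨𝓣, hcT, h𝓣, fun S hS => ?_⟩
  have h1 := hν0 (S \ ⋃₀ 𝓣) ((h𝓢 S hS).1.diff hTm) (hST S hS)
  refine measure_mono_null ?_ (measure_iUnion_null h1)
  rintro ω ⟨⟨hω1, hω2⟩, hω3⟩
  obtain ⟨p, hp⟩ := mem_iUnion.1 (hZz hω1)
  exact mem_iUnion.2 ⟨p, ⟨hω3, hω2⟩, hp⟩

end Pool.Agent.W6h79.LD
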