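import Pool.Agent.W6h79.LD.Defs2

/-!
# (R5) `L¹(μ)` for a locally separable measure
-/

open MeasureTheory Set Filter
open scoped ENNReal NNReal Topology

noncomputable section

namespace Pool.Agent.W6h79.LD

theorem sR5.{u} (h1 : S_R1.{u}) (h2 : S_R2.{u}) (h3 : S_R3.{u}) (hP : S_P7.{u})
    (hL : S_L1.{u, u, 0}) (hL4 : S_L4.{u, u, 0}) (hL5 : S_L5'.{u, u}) : S_R5.{u} := by
  intro Ω _ μ hsep
  obtain ⟨𝓔, hM⟩ := h1 Ω μ
  obtain ⟨e2⟩ := h2 Ω μ 𝓔 hM
  obtain ⟨hE, hdis, hmax⟩ := hM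
  let p : 𝓔 → Prop := fun E => ¬ AtomSet μ E.1
  obtain ⟨e5⟩ := hL5 𝓔 p (fun E : 𝓔 => Lp ℝ 1 (μ.restrict (E : Set Ω)))
  let 𝓢 : Set (Set Ω) := {E | E ∈ 𝓔 ∧ ¬ AtomSet μ E}
  let K : Type u := {i : 𝓔 // p i}
  let Γ : Type u := {i : 𝓔 // ¬ p i}
  have eK : K ≃ 𝓢 :=
    { toFun := fun i => ⟨i.1.1, i.1.2, i.2⟩
      invFun := fun i => ⟨⟨i.1, i.2.1⟩, i.2.2⟩
      left_inv := fun _ => rfl
      right_inv := fun _ => rfl }
  refine ⟨𝓢, Γ, ⟨?_, ?_⟩, ?_⟩
  · intro S hS
    exact ⟨(hE S hS.1).1, (hE S hS.1).2.2.1⟩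
  · intro F hF hF0 hF1 hn
    obtain ⟨D, hD, hpos⟩ := hmax F hF hF0 hF1
    have hDat : AtomSet μ D := by
      by_contra hc
      exact hpos.ne' (hn D ⟨hD, hc⟩)
    refine ⟨F ∩ D, inter_subset_left, hF.inter (hE D hD).1, hpos, ?_⟩
    intro B hB hBm
    rcases hDat.2.2 B (hB.trans inter_subset_right) hBm with h | h
    · exact Or.inl h
    · right
      refine measure_mono_null ?_ h
      rintro x ⟨hx, hxB⟩
      exact ⟨hx.2, hxB⟩
  · -- the nonatomic members
    have hA : ∀ i : K, Nonempty (Lp ℝ 1 (μ.restrict (i.1 : Set Ω)) ≃ₗᵢ[ℝ] LL) := by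
      intro i
      obtain ⟨hm, h0, hfin, hor⟩ := hE i.1.1 i.1.2
      have hna : ∀ A ⊆ i.1.1, ¬ AtomSet μ A := by
        rcases hor with h | h
        · exact absurd h i.2
        · exact h
      apply hP Ω (μ.restrict (i.1 : Set Ω))
      · exact ⟨by rw [Measure.restrict_apply_univ]; exact hfin⟩
      · intro hz
        have := congrArg (fun m => m univ) hz
        simp only [Measure.restrict_apply_univ, Measure.coe_zero, Pi.zero_apply] at this
        exact h0.ne' this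
      · exact hsep _ hm hfin
      · intro A hA
        apply hna (A ∩ i.1.1) inter_subset_right
        refine ⟨hA.1.inter hm, ?_, ?_⟩
        · have := hA.2.1
          rwa [Measure.restrict_apply hA.1] at this
        · intro B hB hBm
          rcases hA.2.2 B (hB.trans inter_subset_left) hBm with h | h
          · left
            rw [Measure.restrict_apply hBm] at h
            rwa [inter_eq_left.2 (hB.trans inter_subset_right)] at h
          · right
            rw [Measure.restrict_apply (hA.1.diff hBm)] at h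
            refine measure_mono_null ?_ h
            rintro x ⟨hx, hxB⟩
            exact ⟨⟨hx.1, hxB⟩, hx.2⟩
    have hB : ∀ i : Γ, Nonempty (Lp ℝ 1 (μ.restrict (i.1 : Set Ω)) ≃ₗᵢ[ℝ] ℝ) := by
      intro i
      have hat : AtomSet μ i.1.1 := not_not.1 i.2
      exact h3 Ω μ i.1.1 hat (hE i.1.1 i.1.2).2.2.1
    obtain ⟨eA⟩ := hL K (fun i => Lp ℝ 1 (μ.restrict (i.1 : Set Ω))) (fun _ => LL) hA
    obtain ⟨eB⟩ := hL Γ (fun i => Lp ℝ 1 (μ.restrict (i.1 : Set Ω))) (fun _ => ℝ) hB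
    obtain ⟨eR⟩ := hL4 K 𝓢 eK LL
    exact ⟨e2.toContinuousLinearEquiv.trans (e5.trans
      (ContinuousLinearEquiv.prodCongr (eA.toContinuousLinearEquiv.trans eR)
        eB.toContinuousLinearEquiv))⟩

end Pool.Agent.W6h79.LD
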