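import Pool.Agent.W6h79.LD.Defs7

/-! (T10) of MP_3844f5_an, part 5: adapted from `Dual.lean` (helper74). -/

open MeasureTheory Set Filter
open scoped ENNReal NNReal Topology

noncomputable section

namespace Pool.Agent.W6h79.LD

/-- (T10) -/
theorem sT10.{u} (h9 : S_T9.{u}) (hN : S_N.{u, u}) (hK2 : S_K2.{u}) (hL1' : S_L1'.{u, u, u})
    (hL3 : S_L3.{u, u, u}) (hL4 : S_L4.{u, u, u}) : S_T10.{u} := by
  intro A K Γ hA hK
  obtain ⟨I, hI, ⟨eM⟩⟩ := h9 A hA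
  obtain ⟨Z, i1, i2, i3, ⟨eN⟩⟩ := hN K C(A → Bool, ℝ)
  obtain ⟨e1⟩ := hL1' K (StrongDual ℝ C(A → Bool, ℝ))
    (lp (fun _ : I => Lp ℝ 1 (coins A)) 1) ⟨eM⟩
  obtain ⟨e3⟩ := hL3 K I (Lp ℝ 1 (coins A))
  have hA0 : Cardinal.aleph0 ≤ Cardinal.mk A := Cardinal.infinite_iff.1 hA
  have hK0 : Cardinal.aleph0 ≤ Cardinal.mk K :=
    (hA0.trans (Cardinal.cantor _).le).trans hK
  have hne : Cardinal.mk I ≠ 0 := by
    rw [hI]
    exact (Cardinal.aleph0_pos.trans_le (hA0.trans (Cardinal.cantor _).le)).ne'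
  have hKI : Nonempty (K × I ≃ K) := by
    rw [← Cardinal.eq, Cardinal.mk_prod, Cardinal.lift_id, Cardinal.lift_id]
    exact Cardinal.mul_eq_left hK0 (hI.le.trans hK) hne
  obtain ⟨eKI⟩ := hKI
  obtain ⟨e5⟩ := hL4 (K × I) K eKI (Lp ℝ 1 (coins A))
  let E : StrongDual ℝ Z ≃L[ℝ] lp (fun _ : K => Lp ℝ 1 (coins A)) 1 :=
    ((eN.trans e1).trans e3).trans e5
  obtain ⟨Y, j1, j2, j3, ⟨eY⟩⟩ := hK2 Γ
  refine ⟨Z × Y, inferInstance, inferInstance, inferInstance, ⟨?_⟩⟩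
  exact (E.symm.prodCongr eY.toContinuousLinearEquiv).trans
    (ContinuousLinearMap.coprodEquivL (𝕜 := ℝ) (E := Z) (F := Y) (G := ℝ) ℝ)

end Pool.Agent.W6h79.LD
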