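import Pool.Agent.W6h79.LD.Defs7

/-!
# (T11) `L¹(μ)` for a homogeneous measure with infinitely many pieces
-/

open MeasureTheory Set Filter
open scoped ENNReal NNReal Topology

noncomputable section

namespace Pool.Agent.W6h79.LD

namespace PT11

theorem CE_congr.{u, v, w} {X : Type u} {X' : Type v} {Y : Type w}
    [NormedAddCommGroup X] [NormedSpace ℝ X] [NormedAddCommGroup X'] [NormedSpace ℝ X']
    [NormedAddCommGroup Y] [NormedSpace ℝ Y] (e : X ≃ₗᵢ[ℝ] X') (h : CE X' Y) : CE X Y := by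
  obtain ⟨i, P, hiP, hi, hP⟩ := h
  refine ⟨i.comp (e.toContinuousLinearEquiv : X →L[ℝ] X'),
    (e.symm.toContinuousLinearEquiv : X' →L[ℝ] X).comp P, ?_, ?_, ?_⟩
  · intro x
    show e.symm (P (i (e x))) = x
    rw [hiP, e.symm_apply_apply]
  · apply ContinuousLinearMap.opNorm_le_bound _ zero_le_one
    intro x
    show ‖i (e x)‖ ≤ 1 * ‖x‖
    calc ‖i (e x)‖ ≤ ‖i‖ * ‖e x‖ := i.le_opNorm _
      _ ≤ 1 * ‖e x‖ := by gcongr
      _ = 1 * ‖x‖ := by rw [e.norm_map]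
  · apply ContinuousLinearMap.opNorm_le_bound _ zero_le_one
    intro y
    show ‖e.symm (P y)‖ ≤ 1 * ‖y‖
    rw [e.symm.norm_map]
    calc ‖P y‖ ≤ ‖P‖ * ‖y‖ := P.le_opNorm _
      _ ≤ 1 * ‖y‖ := by gcongr

theorem cb_of_CE.{u, v} {X : Type u} {Y : Type v}
    [NormedAddCommGroup X] [NormedSpace ℝ X]
    [NormedAddCommGroup Y] [NormedSpace ℝ Y] (h : CE X Y) : CB X Y := by
  obtain ⟨i, P, hiP, _, _⟩ := h
  exact ⟨i, P, hiP⟩

theorem nat_prod.{u} (K : Type u) [Infinite K] : Nonempty (ℕ × K ≃ K) := by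
  have h : Cardinal.lift.{u} (Cardinal.mk (ℕ × K)) = Cardinal.lift.{u} (Cardinal.mk K) := by
    rw [Cardinal.mk_prod, Cardinal.mk_nat]
    simp only [Cardinal.lift_aleph0, Cardinal.lift_uzero]
    rw [Cardinal.aleph0_mul_eq (Cardinal.aleph0_le_mk K)]
  exact Cardinal.lift_mk_eq'.1 h

end PT11

open PT11 in
theorem sT11.{u} (h1 : S_R1.{u}) (h2 : S_R2.{u}) (h3 : S_R3.{u}) (hT1 : S_T1.{u, u, u})
    (hT2 : S_T2.{u, u}) (hT5 : S_T5'.{u}) (hT6 : S_T6.{u}) (hT12 : S_T12.{u})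
    (hL : S_L1.{u, u, 0}) (hL3 : S_L3.{0, u, u}) (hL4 : S_L4.{u, u, u}) (hL5 : S_L5'.{u, u}) :
    S_T11.{u} := by
  intro A hreg hunc Ω _ μ hhom
  have hAinf : Infinite A := Cardinal.infinite_iff.2 hunc.le
  obtain ⟨𝓔, hM⟩ := h1 Ω μ
  obtain ⟨e2⟩ := h2 Ω μ 𝓔 hM
  obtain ⟨hE, hdis, hmax⟩ := hM
  let p : 𝓔 → Prop := fun E => ¬ AtomSet μ E.1
  obtain ⟨e5⟩ := hL5 𝓔 p (fun E : 𝓔 => Lp ℝ 1 (μ.restrict (E : Set Ω)))
  let 𝓢 : Set (Set Ω) := {E | E ∈ 𝓔 ∧ ¬ AtomSet μ E}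
  let K : Type u := {i : 𝓔 // p i}
  let Γ : Type u := {i : 𝓔 // ¬ p i}
  have eK : K ≃ 𝓢 :=
    { toFun := fun i => ⟨i.1.1, i.1.2, i.2⟩
      invFun := fun i => ⟨⟨i.1, i.2.1⟩, i.2.2⟩
      left_inv := fun _ => rfl
      right_inv := fun _ => rfl }
  refine ⟨𝓢, Γ, ⟨?_, ?_⟩, ?_⟩
  · intro S hS
    exact ⟨(hE S hS.1).1, (hE S hS.1).2.2.1⟩
  · intro F hF hF0 hF1 hn
    obtain ⟨D, hD, hpos⟩ := hmax F hF hF0 hF1
    have hDat : AtomSet μ D := by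
      by_contra hc
      exact hpos.ne' (hn D ⟨hD, hc⟩)
    refine ⟨F ∩ D, inter_subset_left, hF.inter (hE D hD).1, hpos, ?_⟩
    intro B hB hBm
    rcases hDat.2.2 B (hB.trans inter_subset_right) hBm with h | h
    · exact Or.inl h
    · right
      refine measure_mono_null ?_ h
      rintro x ⟨hx, hxB⟩
      exact ⟨hx.2, hxB⟩
  · intro hinf
    have hKinf : Infinite K := eK.infinite_iff.2 hinf
    -- the nonatomic members
    have hmem : ∀ i : K, CE (Lp ℝ 1 (μ.restrict (i.1 : Set Ω))) (Lp ℝ 1 (coins A)) ∧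
        CE (Lp ℝ 1 (coins A)) (Lp ℝ 1 (μ.restrict (i.1 : Set Ω))) := by
      intro i
      obtain ⟨hm, h0, hfin, hor⟩ := hE i.1.1 i.1.2
      have hna : ∀ B ⊆ i.1.1, ¬ AtomSet μ B := by
        rcases hor with h | h
        · exact absurd h i.2
        · exact h
      obtain ⟨hd1, hd2⟩ := hhom i.1.1 hm h0 hfin hna
      refine ⟨?_, hT12 A hreg hunc Ω μ i.1.1 hm hfin hd2⟩
      have hne : μ.restrict (i.1 : Set Ω) ≠ 0 := by
        intro hz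
        have := congrArg (fun m => m univ) hz
        simp only [Measure.restrict_apply_univ, Measure.coe_zero, Pi.zero_apply] at this
        exact h0.ne' this
      obtain ⟨ν, hν, ⟨e⟩⟩ := hT6 A hAinf Ω (μ.restrict (i.1 : Set Ω))
        ⟨by rw [Measure.restrict_apply_univ]; exact hfin⟩ hne hd1
      exact CE_congr e (hT5 A hAinf ν hν)
    have hB : ∀ i : Γ, Nonempty (Lp ℝ 1 (μ.restrict (i.1 : Set Ω)) ≃ₗᵢ[ℝ] ℝ) := by
      intro i
      have hat : AtomSet μ i.1.1 := not_not.1 i.2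
      exact h3 Ω μ i.1.1 hat (hE i.1.1 i.1.2).2.2.1
    obtain ⟨eB⟩ := hL Γ (fun i => Lp ℝ 1 (μ.restrict (i.1 : Set Ω))) (fun _ => ℝ) hB
    have c1 : CE (lp (fun _ : K => Lp ℝ 1 (coins A)) 1)
        (lp (fun i : K => Lp ℝ 1 (μ.restrict (i.1 : Set Ω))) 1) :=
      hT1 K (fun _ => Lp ℝ 1 (coins A)) (fun i => Lp ℝ 1 (μ.restrict (i.1 : Set Ω)))
        (fun i => (hmem i).2)
    have c2 : CE (lp (fun i : K => Lp ℝ 1 (μ.restrict (i.1 : Set Ω))) 1)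
        (lp (fun _ : K => Lp ℝ 1 (coins A)) 1) :=
      hT1 K (fun i => Lp ℝ 1 (μ.restrict (i.1 : Set Ω))) (fun _ => Lp ℝ 1 (coins A))
        (fun i => (hmem i).1)
    obtain ⟨e3⟩ := hL3 ℕ K (Lp ℝ 1 (coins A))
    obtain ⟨en⟩ := nat_prod K
    obtain ⟨e4⟩ := hL4 (ℕ × K) K en (Lp ℝ 1 (coins A))
    obtain ⟨eX⟩ := hT2 (lp (fun _ : K => Lp ℝ 1 (coins A)) 1)
      (lp (fun i : K => Lp ℝ 1 (μ.restrict (i.1 : Set Ω))) 1) (cb_of_CE c1) (cb_of_CE c2) ⟨e3.trans e4⟩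
    obtain ⟨eR⟩ := hL4 K 𝓢 eK (Lp ℝ 1 (coins A))
    exact ⟨e2.toContinuousLinearEquiv.trans (e5.trans
      (ContinuousLinearEquiv.prodCongr (eX.symm.trans eR) eB.toContinuousLinearEquiv))⟩

end Pool.Agent.W6h79.LD
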