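import Pool.Agent.W6h79.LD.Defs7

/-!
# (T8b) continuous functions on `{0,1}^A` are measurable for the product sigma-algebra, and the
norm of a density (written by helper74)
-/

open MeasureTheory Set Filter
open scoped ENNReal NNReal Topology

noncomputable section

namespace Pool.Agent.W6h79.LD

namespace T8bx

variable {A : Type*}

theorem meas_cont (g : C(A → Bool, ℝ)) : Measurable (g : (A → Bool) → ℝ) := by
  let S : Subalgebra ℝ C(A → Bool, ℝ) :=
    { carrier := {g | Measurable (g : (A → Bool) → ℝ)}
      mul_mem' := fun {a b} ha hb => by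
        have ha' : Measurable (a : (A → Bool) → ℝ) := ha
        have hb' : Measurable (b : (A → Bool) → ℝ) := hb
        exact ha'.mul hb'
      add_mem' := fun {a b} ha hb => by
        have ha' : Measurable (a : (A → Bool) → ℝ) := ha
        have hb' : Measurable (b : (A → Bool) → ℝ) := hb
        exact ha'.add hb'
      algebraMap_mem' := fun r => (measurable_const : Measurable fun _ : A → Bool => r) }
  have hS : S.SeparatesPoints := by
    intro x y hxy
    obtain ⟨a, ha⟩ := Function.ne_iff.1 hxy
    let c : C(A → Bool, ℝ) := ⟨fun z => (fun b : Bool => if b then (1 : ℝ) else 0) (z a),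
      (continuous_of_discreteTopology (f := fun b : Bool => if b then (1 : ℝ) else 0)).comp
        (continuous_apply a)⟩
    have hc : Measurable (c : (A → Bool) → ℝ) :=
      (Measurable.of_discrete (f := fun b : Bool => if b then (1 : ℝ) else 0)).comp
        (measurable_pi_apply a)
    refine ⟨c, ⟨c, hc, rfl⟩, ?_⟩
    show (if x a then (1 : ℝ) else 0) ≠ (if y a then (1 : ℝ) else 0)
    cases h1 : x a <;> cases h2 : y a <;> simp_all
  have htop := ContinuousMap.subalgebra_topologicalClosure_eq_top_of_separatesPoints S hS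
  have hg : g ∈ S.topologicalClosure := by rw [htop]; trivial
  have hg' : g ∈ closure (S : Set C(A → Bool, ℝ)) := hg
  obtain ⟨u, hu, hlim⟩ := mem_closure_iff_seq_limit.1 hg'
  refine measurable_of_tendsto_metrizable (f := fun n x => u n x) (fun n => hu n) ?_
  rw [tendsto_pi_nhds]
  intro x
  exact ((ContinuousEvalConst.continuous_eval_const x).tendsto g).comp hlim

theorem int_cont (m : Measure (A → Bool)) [IsFiniteMeasure m] (g : C(A → Bool, ℝ)) :
    Integrable (g : (A → Bool) → ℝ) m :=
  Integrable.of_bound (meas_cont g).aestronglyMeasurable ‖g‖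
    (Eventually.of_forall fun x => g.norm_coe_le_norm x)

theorem approx_ind (m : Measure (A → Bool)) [IsFiniteMeasure m] (c : ℝ) (s : Set (A → Bool))
    (hs : MeasurableSet s) (ε : ℝ) (hε : 0 < ε) :
    ∃ h : C(A → Bool, ℝ), ∫ x, |s.indicator (fun _ => c) x - h x| ∂m ≤ ε := by
  have hd := Measure.MeasureDense.of_generateFrom_isSetAlgebra_finite (μ := m)
    (isSetAlgebra_measurableCylinders (α := fun _ : A => Bool))
    (generateFrom_measurableCylinders (α := fun _ : A => Bool)).symm
  obtain ⟨t, ht, hst⟩ := hd.approx s hs (measure_ne_top m s) (ε / (|c| + 1)) (by positivity)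
  have htm : MeasurableSet t := hd.measurable t ht
  obtain ⟨F, S, _, rfl⟩ := (mem_measurableCylinders t).1 ht
  let h : C(A → Bool, ℝ) := ⟨fun x => S.indicator (fun _ => c) (F.restrict x),
    (continuous_of_discreteTopology (f := S.indicator fun _ => c)).comp
      (Finset.continuous_restrict F)⟩
  have hh : ∀ x, h x = (cylinder F S).indicator (fun _ => c) x := fun x => rfl
  refine ⟨h, ?_⟩
  have e : ∀ x, |s.indicator (fun _ => c) x - h x| =
      (symmDiff s (cylinder F S)).indicator (fun _ => |c|) x := by
    intro x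
    rw [hh]
    by_cases h1 : x ∈ s <;> by_cases h2 : x ∈ cylinder F S <;>
      simp [Set.indicator, h1, h2, Set.mem_symmDiff]
  simp_rw [e]
  rw [integral_indicator (hs.symmDiff htm), setIntegral_const, smul_eq_mul]
  have h3 : m.real (symmDiff s (cylinder F S)) ≤ ε / (|c| + 1) := by
    rw [Measure.real]
    exact ENNReal.toReal_le_of_le_ofReal (by positivity) hst.le
  calc m.real (symmDiff s (cylinder F S)) * |c| ≤ ε / (|c| + 1) * |c| :=
        mul_le_mul_of_nonneg_right h3 (abs_nonneg c)
    _ ≤ ε := by
        rw [div_mul_eq_mul_div, div_le_iff₀ (by positivity)]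
        nlinarith [abs_nonneg c]

theorem approx (m : Measure (A → Bool)) [IsFiniteMeasure m] ⦃f : (A → Bool) → ℝ⦄
    (hf : Integrable f m) :
    ∀ ε : ℝ, 0 < ε → ∃ h : C(A → Bool, ℝ), ∫ x, |f x - h x| ∂m ≤ ε := by
  refine Integrable.induction (μ := m)
    (fun f => ∀ ε : ℝ, 0 < ε → ∃ h : C(A → Bool, ℝ), ∫ x, |f x - h x| ∂m ≤ ε)
    ?_ ?_ ?_ ?_ hf
  · intro c s hs _ ε hε
    exact approx_ind m c s hs ε hε
  · intro f g _ hf hg h1 h2 ε hε
    obtain ⟨a, ha⟩ := h1 (ε / 2) (by positivity)
    obtain ⟨b, hb⟩ := h2 (ε / 2) (by positivity)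
    refine ⟨a + b, ?_⟩
    have i1 : Integrable (fun x => |f x - a x|) m := (hf.sub (int_cont m a)).abs
    have i2 : Integrable (fun x => |g x - b x|) m := (hg.sub (int_cont m b)).abs
    have hle : ∫ x, |(f + g) x - (a + b) x| ∂m ≤ ∫ x, (|f x - a x| + |g x - b x|) ∂m := by
      refine integral_mono ((hf.add hg).sub (int_cont m (a + b))).abs (i1.add i2) fun x => ?_
      show |f x + g x - (a x + b x)| ≤ |f x - a x| + |g x - b x|
      have := abs_add_le (f x - a x) (g x - b x)
      rw [show f x + g x - (a x + b x) = f x - a x + (g x - b x) by ring]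
      exact this
    rw [integral_add i1 i2] at hle
    linarith
  · refine isClosed_of_closure_subset fun f hf ε hε => ?_
    obtain ⟨f', hf', hd⟩ := Metric.mem_closure_iff.1 hf (ε / 2) (by positivity)
    obtain ⟨a, ha⟩ := hf' (ε / 2) (by positivity)
    refine ⟨a, ?_⟩
    rw [dist_eq_norm, L1.norm_eq_integral_norm] at hd
    have e : ∫ x, ‖(f - f') x‖ ∂m = ∫ x, |f x - f' x| ∂m := by
      refine integral_congr_ae ?_
      filter_upwards [Lp.coeFn_sub f f'] with x hx
      rw [hx, Real.norm_eq_abs]; rfl
    rw [e] at hd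
    have i0 : Integrable (fun x => |f x - f' x|) m :=
      ((L1.integrable_coeFn f).sub (L1.integrable_coeFn f')).abs
    have i1 : Integrable (fun x => |f' x - a x|) m :=
      ((L1.integrable_coeFn f').sub (int_cont m a)).abs
    have hle : ∫ x, |f x - a x| ∂m ≤ ∫ x, (|f x - f' x| + |f' x - a x|) ∂m := by
      refine integral_mono ((L1.integrable_coeFn f).sub (int_cont m a)).abs (i0.add i1)
        fun x => ?_
      exact abs_sub_le (f x) (f' x) (a x)
    rw [integral_add i0 i1] at hle
    linarith
  · intro f g hfg _ h1 ε hε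
    obtain ⟨a, ha⟩ := h1 ε hε
    refine ⟨a, le_trans (le_of_eq ?_) ha⟩
    refine integral_congr_ae ?_
    filter_upwards [hfg] with x hx
    rw [hx]

end T8bx

open T8bx in
theorem sT8b.{u} : S_T8b.{u} := by
  intro A
  refine ⟨meas_cont, ?_⟩
  intro m hm f hf ε hε
  obtain ⟨h, hh⟩ := approx m hf (ε / 3) (by positivity)
  have hhi := int_cont m h
  set c : ℝ := m.real univ with hc
  have hc0 : 0 ≤ c := measureReal_nonneg
  set δ : ℝ := ε / (3 * (c + 1)) with hδ
  have hδ0 : 0 < δ := by positivity
  have hδc : δ * c ≤ ε / 3 := by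
    rw [hδ, div_mul_eq_mul_div, div_le_div_iff₀ (by positivity) (by positivity)]
    nlinarith
  let g : C(A → Bool, ℝ) := ⟨fun x => h x / (|h x| + δ), by
    refine h.continuous.div (h.continuous.abs.add continuous_const) fun x => ?_
    have := abs_nonneg (h x)
    positivity⟩
  have hgx : ∀ x, g x = h x / (|h x| + δ) := fun x => rfl
  have hg1 : ∀ x, |g x| ≤ 1 := by
    intro x
    have h1 := abs_nonneg (h x)
    have h2 : 0 < |h x| + δ := by positivity
    rw [hgx, abs_div, abs_of_pos h2, div_le_one h2]
    linarith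
  refine ⟨g, (ContinuousMap.norm_le g zero_le_one).2 fun x => hg1 x, ?_⟩
  have hgm : Integrable (fun x => g x * f x) m := by
    refine hf.bdd_mul (c := 1) (meas_cont g).aestronglyMeasurable ?_
    exact Eventually.of_forall fun x => hg1 x
  have hint : Integrable (fun x => |f x| - 2 * |f x - h x| - δ) m :=
    ((hf.abs).sub ((hf.sub hhi).abs.const_mul 2)).sub (integrable_const δ)
  have hle : ∫ x, (|f x| - 2 * |f x - h x| - δ) ∂m ≤ ∫ x, g x * f x ∂m := by
    refine integral_mono hint hgm fun x => ?_
    have h1 := abs_nonneg (h x)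
    have h2 : 0 < |h x| + δ := by positivity
    -- `g h ≥ |h| - δ`
    have h3 : |h x| - δ ≤ g x * h x := by
      rw [hgx, div_mul_eq_mul_div, le_div_iff₀ h2]
      have h4 : h x * h x = |h x| * |h x| := (abs_mul_abs_self _).symm
      rw [h4]
      nlinarith
    have h5 : -|f x - h x| ≤ g x * (f x - h x) := by
      have h6 : |g x * (f x - h x)| ≤ |f x - h x| := by
        rw [abs_mul]
        calc |g x| * |f x - h x| ≤ 1 * |f x - h x| :=
              mul_le_mul_of_nonneg_right (hg1 x) (abs_nonneg _)
          _ = |f x - h x| := one_mul _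
      linarith [neg_abs_le (g x * (f x - h x))]
    have h7 : |f x| ≤ |h x| + |f x - h x| := by
      have := abs_add_le (h x) (f x - h x)
      rw [add_sub_cancel] at this
      exact this
    have h8 : g x * f x = g x * h x + g x * (f x - h x) := by ring
    change |f x| - 2 * |f x - h x| - δ ≤ g x * f x
    rw [h8]
    linarith
  refine le_trans ?_ hle
  rw [integral_sub, integral_sub, integral_const_mul, integral_const, smul_eq_mul]
  · have h9 : ∫ x, |f x - h x| ∂m ≤ ε / 3 := hh
    have h10 : m.real univ * δ ≤ ε / 3 := by rw [mul_comm]; exact hδc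
    linarith
  · exact hf.abs
  · exact (hf.sub hhi).abs.const_mul 2
  · exact (hf.abs).sub ((hf.sub hhi).abs.const_mul 2)
  · exact integrable_const δ

end Pool.Agent.W6h79.LD
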