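import Pool.Agent.W6h79.LD.Defs7

/-!
# (T9) The dual of `C({0,1}^A)`, final form
-/

open MeasureTheory Set Filter
open scoped ENNReal NNReal Topology

noncomputable section

namespace Pool.Agent.W6h79.LD.T9

universe u v w

theorem mem_iff {K : Type u} {E : K → Type v} [∀ k, NormedAddCommGroup (E k)]
    (f : ∀ k, E k) : Memℓp f 1 ↔ Summable fun k => ‖f k‖ := by
  rw [memℓp_gen_iff (by norm_num)]
  simp

theorem norm_eq {K : Type u} {E : K → Type v} [∀ k, NormedAddCommGroup (E k)]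
    (f : lp E 1) : ‖f‖ = ∑' k, ‖f k‖ := by
  rw [lp.norm_eq_tsum_rpow (by norm_num)]
  simp

section

variable {S : Type u} {I : Type v} {B : Type w} [NormedAddCommGroup B] [NormedSpace ℝ B]
  {E : I → Type w} [∀ k, NormedAddCommGroup (E k)] [∀ k, NormedSpace ℝ (E k)]
  (g : S → I) (hg : Function.Injective g) (e : ∀ s, B ≃ₗᵢ[ℝ] E (g s))

include hg in
theorem res_mem (x : lp E 1) : Memℓp (fun s : S => (e s).symm (x (g s))) 1 := by
  rw [mem_iff]
  have h := ((mem_iff _).1 x.2).comp_injective hg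
  refine h.congr fun s => ?_
  exact ((e s).symm.norm_map _).symm

/-- Restriction along an injection. -/
def res : lp E 1 →L[ℝ] lp (fun _ : S => B) 1 :=
  LinearMap.mkContinuous
    { toFun := fun x => ⟨fun s => (e s).symm (x (g s)), res_mem g hg e x⟩
      map_add' := fun x y => by
        ext s
        exact (e s).symm.map_add _ _
      map_smul' := fun c x => by
        ext s
        exact (e s).symm.map_smul _ _ }
    1 (fun x => by
      rw [one_mul, norm_eq, norm_eq]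
      have h := (mem_iff _).1 x.2
      have h1 := h.comp_injective hg
      calc ∑' s, ‖(e s).symm (x (g s))‖ = ∑' s, ‖x (g s)‖ := by
            refine tsum_congr fun s => ?_
            exact (e s).symm.norm_map _
        _ ≤ ∑' k, ‖x k‖ :=
            Summable.tsum_le_tsum_of_inj g hg (fun _ _ => norm_nonneg _) (fun _ => le_rfl) h1 h)

theorem res_apply (x : lp E 1) (s : S) : res g hg e x s = (e s).symm (x (g s)) := rfl

open Classical in
/-- Extension by zero along an injection. -/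
def exf (f : S → B) (k : I) : E k :=
  if h : ∃ s, g s = k then h.choose_spec ▸ e h.choose (f h.choose) else 0

include hg in
theorem exf_apply (f : S → B) (s : S) : exf g e f (g s) = e s (f s) := by
  have h : ∃ t, g t = g s := ⟨s, rfl⟩
  rw [exf, dif_pos h]
  have key : ∀ (t : S) (ht : g t = g s), (ht ▸ e t (f t) : E (g s)) = e s (f s) := by
    intro t ht
    obtain rfl := hg ht
    rfl
  exact key _ _

theorem exf_not (f : S → B) (k : I) (hk : k ∉ range g) : exf g e f k = 0 := by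
  have h : ¬ ∃ s, g s = k := hk
  rw [exf, dif_neg h]

include hg in
theorem exf_sum (f : lp (fun _ : S => B) 1) : Summable (fun k => ‖exf g e f k‖) ∧
    ∑' k, ‖exf g e f k‖ = ‖f‖ := by
  have h0 : ∀ k, k ∉ range g → ‖exf g e (f : S → B) k‖ = 0 := fun k hk => by
    rw [exf_not g e _ k hk, norm_zero]
  have h1 : ((fun k => ‖exf g e (f : S → B) k‖) ∘ g) = fun s => ‖f s‖ := by
    funext s
    simp only [Function.comp]
    rw [exf_apply g hg e]
    exact (e s).norm_map _
  refine ⟨(hg.summable_iff h0).1 (by rw [h1]; exact (mem_iff _).1 f.2), ?_⟩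
  rw [norm_eq]
  have h2 := hg.tsum_eq (f := fun k => ‖exf g e (f : S → B) k‖) (fun k hk => by
    by_contra h
    exact hk (h0 k h))
  rw [← h2]
  exact congrArg (fun F : S → ℝ => ∑' s, F s) h1

include hg in
theorem exf_add (f f' : S → B) (k : I) : exf g e (f + f') k = exf g e f k + exf g e f' k := by
  by_cases hk : k ∈ range g
  · obtain ⟨s, rfl⟩ := hk
    rw [exf_apply g hg e, exf_apply g hg e, exf_apply g hg e]
    exact (e s).map_add _ _
  · rw [exf_not g e _ k hk, exf_not g e _ k hk, exf_not g e _ k hk, add_zero]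

include hg in
theorem exf_smul (c : ℝ) (f : S → B) (k : I) : exf g e (c • f) k = c • exf g e f k := by
  by_cases hk : k ∈ range g
  · obtain ⟨s, rfl⟩ := hk
    rw [exf_apply g hg e, exf_apply g hg e]
    exact (e s).map_smul _ _
  · rw [exf_not g e _ k hk, exf_not g e _ k hk, smul_zero]

/-- Extension by zero, as an operator. -/
def ex : lp (fun _ : S => B) 1 →L[ℝ] lp E 1 :=
  LinearMap.mkContinuous
    { toFun := fun f => ⟨fun k => exf g e f k, (mem_iff _).2 (exf_sum g hg e f).1⟩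
      map_add' := fun x y => by
        ext k
        exact exf_add g hg e _ _ k
      map_smul' := fun c x => by
        ext k
        exact exf_smul g hg e c _ k }
    1 (fun f => by
      rw [one_mul, norm_eq]
      exact (exf_sum g hg e f).2.le)

theorem ex_apply (f : lp (fun _ : S => B) 1) (k : I) : ex g hg e f k = exf g e f k := rfl

theorem res_ex (f : lp (fun _ : S => B) 1) : res g hg e (ex g hg e f) = f := by
  ext s
  rw [res_apply, ex_apply, exf_apply g hg e]
  exact (e s).symm_apply_apply _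

end

theorem cb_trans {X Y Z : Type u} [NormedAddCommGroup X] [NormedSpace ℝ X]
    [NormedAddCommGroup Y] [NormedSpace ℝ Y] [NormedAddCommGroup Z] [NormedSpace ℝ Z]
    (e : X ≃L[ℝ] Y) (h : CB Y Z) : CB X Z := by
  obtain ⟨i, P, h⟩ := h
  refine ⟨i.comp (e : X →L[ℝ] Y), (e.symm : Y →L[ℝ] X).comp P, fun x => ?_⟩
  simp [h]

end Pool.Agent.W6h79.LD.T9

namespace Pool.Agent.W6h79.LD

theorem sT9.{u} (h1 : S_T1.{u, u, u}) (h2 : S_T2.{u, u}) (h5 : S_T5'.{u}) (hc : S_T8c.{u})
    (he : S_T8e.{u}) (hf : S_T8f.{u}) (h3 : S_L3.{0, u, u}) (h4 : S_L4.{u, u, u}) : S_T9.{u} := by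
  intro A hA
  obtain ⟨𝓕, hM, g, hg, hgi⟩ := hc A hA
  have hcard : Cardinal.mk 𝓕 = 2 ^ Cardinal.mk A := by
    refine le_antisymm (hf A hA 𝓕 hM.1) ?_
    have := Cardinal.mk_le_of_injective hg
    simpa using this
  have hinf : Infinite 𝓕 := by
    rw [Cardinal.infinite_iff, hcard]
    refine le_trans ?_ (Cardinal.cantor _).le
    exact Cardinal.infinite_iff.1 hA
  refine ⟨𝓕, hcard, ?_⟩
  obtain ⟨E⟩ := he A 𝓕 hM
  have hX : CB (lp (fun ν : 𝓕 => Lp ℝ 1 (ν : Measure (A → Bool))) 1)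
      (lp (fun _ : 𝓕 => Lp ℝ 1 (coins A)) 1) := by
    obtain ⟨i, P, hiP, -, -⟩ := h1 𝓕 (fun ν : 𝓕 => Lp ℝ 1 (ν : Measure (A → Bool)))
      (fun _ : 𝓕 => Lp ℝ 1 (coins A)) (fun ν => h5 A hA ν (hM.1 ν ν.2))
    exact ⟨i, P, hiP⟩
  have hY : CB (lp (fun _ : 𝓕 => Lp ℝ 1 (coins A)) 1)
      (lp (fun ν : 𝓕 => Lp ℝ 1 (ν : Measure (A → Bool))) 1) := by
    have hq : Nonempty (𝓕 ≃ (A → Bool)) := by
      rw [← Cardinal.eq, hcard]
      simp
    obtain ⟨q⟩ := hq
    obtain ⟨r⟩ := h4 𝓕 (A → Bool) q (Lp ℝ 1 (coins A))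
    refine T9.cb_trans r ?_
    exact ⟨T9.ex g hg (fun α => (hgi α).some), T9.res g hg (fun α => (hgi α).some),
      T9.res_ex g hg _⟩
  have hN : Nonempty (lp (fun _ : ℕ => lp (fun _ : 𝓕 => Lp ℝ 1 (coins A)) 1) 1 ≃L[ℝ]
      lp (fun _ : 𝓕 => Lp ℝ 1 (coins A)) 1) := by
    obtain ⟨a⟩ := h3 ℕ 𝓕 (Lp ℝ 1 (coins A))
    have hq : Nonempty ((ℕ × 𝓕) ≃ 𝓕) := by
      rw [← Cardinal.eq]
      rw [Cardinal.mk_prod, Cardinal.lift_uzero, Cardinal.mk_nat, Cardinal.lift_aleph0]
      exact Cardinal.aleph0_mul_eq (Cardinal.infinite_iff.1 hinf)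
    obtain ⟨q⟩ := hq
    obtain ⟨b⟩ := h4 (ℕ × 𝓕) 𝓕 q (Lp ℝ 1 (coins A))
    exact ⟨a.trans b⟩
  obtain ⟨F⟩ := h2 _ _ hY hX hN
  exact ⟨E.symm.trans F.symm⟩

end Pool.Agent.W6h79.LD
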