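import Pool.Agent.W6h79.LD.Defs8
import Pool.Agent.W6h79.LD.L3
import Pool.Agent.W6h79.LD.T2

/-!
# (W10) the abstract comparison: from the injection to the dual space
-/

set_option autoImplicit false

open MeasureTheory Set Filter
open scoped ENNReal NNReal Topology

noncomputable section

namespace Pool.Agent.W6h79.LD

namespace W10P

universe u v w x

section rel

variable {X : Type u} {Y : Type v} {Z : Type w} [NormedAddCommGroup X] [NormedSpace ℝ X]
  [NormedAddCommGroup Y] [NormedSpace ℝ Y] [NormedAddCommGroup Z] [NormedSpace ℝ Z]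

theorem ce_refl : CE X X :=
  ⟨ContinuousLinearMap.id ℝ X, ContinuousLinearMap.id ℝ X, fun _ => rfl,
    ContinuousLinearMap.norm_id_le, ContinuousLinearMap.norm_id_le⟩

theorem ce_trans (h1 : CE X Y) (h2 : CE Y Z) : CE X Z := by
  obtain ⟨i, P, h, hi, hP⟩ := h1
  obtain ⟨j, Q, h', hj, hQ⟩ := h2
  refine ⟨j.comp i, P.comp Q, fun x => by simp [h, h'], ?_, ?_⟩
  · calc ‖j.comp i‖ ≤ ‖j‖ * ‖i‖ := j.opNorm_comp_le i
      _ ≤ 1 * 1 := mul_le_mul hj hi (norm_nonneg _) zero_le_one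
      _ = 1 := one_mul 1
  · calc ‖P.comp Q‖ ≤ ‖P‖ * ‖Q‖ := P.opNorm_comp_le Q
      _ ≤ 1 * 1 := mul_le_mul hP hQ (norm_nonneg _) zero_le_one
      _ = 1 := one_mul 1

theorem ce_iso (e : X ≃ₗᵢ[ℝ] Y) : CE X Y := by
  refine ⟨e.toContinuousLinearEquiv.toContinuousLinearMap,
    e.symm.toContinuousLinearEquiv.toContinuousLinearMap, fun x => by simp, ?_, ?_⟩
  · exact ContinuousLinearMap.opNorm_le_bound _ zero_le_one fun x => by simp
  · exact ContinuousLinearMap.opNorm_le_bound _ zero_le_one fun x => by simp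

theorem cb (h : CE X Y) : CB X Y := by
  obtain ⟨i, P, h, -, -⟩ := h
  exact ⟨i, P, h⟩

theorem cb_trans (h1 : CB X Y) (h2 : CB Y Z) : CB X Z := by
  obtain ⟨i, P, h⟩ := h1
  obtain ⟨j, Q, h'⟩ := h2
  exact ⟨j.comp i, P.comp Q, fun x => by simp [h, h']⟩

end rel

section iter

variable {K : Type u} {I : Type v} {Y : I → Type w} [∀ i, NormedAddCommGroup (Y i)]
  [∀ i, NormedSpace ℝ (Y i)]

open L3

theorem fwd_mem (f : lp (fun _ : K => lp Y 1) 1) :
    Memℓp (fun p : K × I => (f p.1 : ∀ i : I, Y i) p.2) 1 := by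
  rw [mem_iff]
  refine (summable_prod_of_nonneg (f := fun p : K × I => ‖(f p.1 : ∀ i : I, Y i) p.2‖)
    (fun _ => norm_nonneg _)).2 ⟨fun k => (mem_iff _).1 (f k).2, ?_⟩
  have := (mem_iff _).1 f.2
  refine this.congr fun k => ?_
  exact norm_eq (f k)

theorem bwd_mem1 (g : lp (fun p : K × I => Y p.2) 1) (k : K) :
    Memℓp (fun i : I => (g : ∀ p : K × I, Y p.2) (k, i)) 1 := by
  rw [mem_iff]
  have := (summable_prod_of_nonneg (f := fun p : K × I => ‖(g : ∀ p : K × I, Y p.2) p‖)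
    (fun _ => norm_nonneg _)).1 ((mem_iff _).1 g.2)
  exact this.1 k

theorem bwd_mem2 (g : lp (fun p : K × I => Y p.2) 1) :
    Memℓp (fun k : K => (⟨fun i : I => (g : ∀ p : K × I, Y p.2) (k, i), bwd_mem1 g k⟩ :
      lp Y 1)) 1 := by
  rw [mem_iff]
  have := (summable_prod_of_nonneg (f := fun p : K × I => ‖(g : ∀ p : K × I, Y p.2) p‖)
    (fun _ => norm_nonneg _)).1 ((mem_iff _).1 g.2)
  refine this.2.congr fun k => ?_
  exact (norm_eq (⟨fun i : I => (g : ∀ p : K × I, Y p.2) (k, i), bwd_mem1 g k⟩ :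
      lp Y 1)).symm

/-- The linear equivalence. -/
def lin : lp (fun _ : K => lp Y 1) 1 ≃ₗ[ℝ] lp (fun p : K × I => Y p.2) 1 where
  toFun f := ⟨fun p => (f p.1 : ∀ i : I, Y i) p.2, fwd_mem f⟩
  invFun g := ⟨fun k => ⟨fun i : I => (g : ∀ p : K × I, Y p.2) (k, i), bwd_mem1 g k⟩, bwd_mem2 g⟩
  left_inv f := by
    ext k i
    rfl
  right_inv g := by
    ext p
    rfl
  map_add' f g := by
    ext p
    rfl
  map_smul' c f := by
    ext p
    rfl

/-- The isometry. -/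
def iso : lp (fun _ : K => lp Y 1) 1 ≃ₗᵢ[ℝ] lp (fun p : K × I => Y p.2) 1 where
  toLinearEquiv := lin
  norm_map' f := by
    rw [norm_eq, norm_eq]
    have h1 : Summable fun p : K × I => ‖(f p.1 : ∀ i : I, Y i) p.2‖ := (mem_iff _).1 (fwd_mem f)
    have h2 := h1.tsum_prod' (fun k => (mem_iff _).1 (f k).2)
    calc ∑' p : K × I, ‖(f p.1 : ∀ i : I, Y i) p.2‖ = _ := h2
      _ = ∑' k, ‖f k‖ := by
        refine tsum_congr fun k => ?_
        exact (norm_eq (f k)).symm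

end iter

/-- `ℓ¹(ℓ¹(W)) = ℓ¹(W)` -/
theorem stable (W : Type u) [NormedAddCommGroup W] [NormedSpace ℝ W] :
    Nonempty (lp (fun _ : ℕ => lp (fun _ : ℕ => W) 1) 1 ≃L[ℝ] lp (fun _ : ℕ => W) 1) := by
  obtain ⟨f⟩ := sL3.{0, 0, u} ℕ ℕ W
  obtain ⟨g⟩ := sL4.{0, 0, u} (ℕ × ℕ) ℕ (Denumerable.eqv (ℕ × ℕ)) W
  exact ⟨f.trans g⟩

theorem cb_l1 (W : Type u) [NormedAddCommGroup W] [NormedSpace ℝ W] :
    CB W (lp (fun _ : ℕ => W) 1) := by
  obtain ⟨e⟩ := T2P.head W
  refine ⟨e.symm.toContinuousLinearMap.comp (ContinuousLinearMap.inl ℝ _ _),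
    (ContinuousLinearMap.fst ℝ _ _).comp e.toContinuousLinearMap, fun x => by simp⟩

theorem exists_inj (B : Type u) [Infinite B] : ∃ ε : ℕ × B → B, Function.Injective ε := by
  have h : Cardinal.mk (ℕ × B) ≤ Cardinal.mk B := by
    rw [Cardinal.mk_prod, Cardinal.mk_nat, Cardinal.lift_aleph0, Cardinal.lift_uzero,
      Cardinal.aleph0_mul_mk_eq]
  obtain ⟨f⟩ := Cardinal.le_def _ _ |>.1 h
  exact ⟨f, f.injective⟩

end W10P

open W10P in
/-- (W10) -/
theorem sW10.{u} (w2 : S_W2.{u}) (w3 : S_W3.{u, u, u, u}) (w4 : S_W4.{u, u, u})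
    (w5 : S_W5.{u, u}) (w6 : S_W6.{u}) (w9 : S_W9.{u}) (t2 : S_T2.{u, u}) : S_W10.{u} := by
  intro P t X _ _ _ ht hX hc
  have hinf : ∀ p, Infinite (t p).out := fun p => by
    rw [Cardinal.infinite_iff, Cardinal.mk_out]
    exact ht p
  obtain ⟨g, hg, hgt⟩ := w9 P t ht hc
  -- comparison with `W`
  have c1 : CE (lp X 1) (lp (fun s : (Σ p : P, ((t p).out → Bool)) => XC (t s.1).out) 1) :=
    w3 P (Σ p : P, ((t p).out → Bool)) X (fun s => XC (t s.1).out)
      (fun p => ⟨p, fun _ => false⟩) (fun p p' h => congrArg Sigma.fst h) (fun p => (hX p).2)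
  have c2 : CE (lp (fun s : (Σ p : P, ((t p).out → Bool)) => XC (t s.1).out) 1) (lp X 1) :=
    w3 (Σ p : P, ((t p).out → Bool)) P (fun s => XC (t s.1).out) X g hg fun s =>
      ce_trans (w6 _ _ (by rw [Cardinal.mk_out, Cardinal.mk_out]; exact hgt s)) (hX (g s)).1
  obtain ⟨e4⟩ := w4 P (fun p => (t p).out → Bool) (fun p => XC (t p).out)
  have d1 : CE (lp (fun p : P => StrongDual ℝ C((t p).out → Bool, ℝ)) 1)
      (lp (fun s : (Σ p : P, ((t p).out → Bool)) => XC (t s.1).out) 1) :=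
    ce_trans (w3 P P (fun p => StrongDual ℝ C((t p).out → Bool, ℝ))
      (fun p => lp (fun _ : (t p).out → Bool => XC (t p).out) 1) id Function.injective_id
      (fun p => (w2 _ (hinf p)).1)) (ce_iso e4)
  have d2 : CE (lp (fun s : (Σ p : P, ((t p).out → Bool)) => XC (t s.1).out) 1)
      (lp (fun p : P => StrongDual ℝ C((t p).out → Bool, ℝ)) 1) :=
    ce_trans (ce_iso e4.symm) (w3 P P
      (fun p => lp (fun _ : (t p).out → Bool => XC (t p).out) 1)
      (fun p => StrongDual ℝ C((t p).out → Bool, ℝ)) id Function.injective_id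
      (fun p => (w2 _ (hinf p)).2))
  -- `ℓ¹(W)` in `W`
  have hinf' : ∀ p, Infinite ((t p).out → Bool) := fun p => by
    have := hinf p
    infer_instance
  choose ε hε using fun p => @exists_inj ((t p).out → Bool) (hinf' p)
  have hl : CE (lp (fun _ : ℕ =>
      lp (fun s : (Σ p : P, ((t p).out → Bool)) => XC (t s.1).out) 1) 1)
      (lp (fun s : (Σ p : P, ((t p).out → Bool)) => XC (t s.1).out) 1) := by
    refine ce_trans (ce_iso iso) (w3 (ℕ × (Σ p : P, ((t p).out → Bool)))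
      (Σ p : P, ((t p).out → Bool)) (fun q => XC (t q.2.1).out) (fun s => XC (t s.1).out)
      (fun q => ⟨q.2.1, ε q.2.1 (q.1, q.2.2)⟩) ?_ (fun q => ce_refl))
    rintro ⟨n, ⟨p, b⟩⟩ ⟨n', ⟨p', b'⟩⟩ h
    have h1 : p = p' := congrArg Sigma.fst h
    subst h1
    have h2 : ε p (n, b) = ε p (n', b') := by
      simpa using h
    have h3 := hε p h2
    rw [Prod.mk.injEq] at h3
    rw [h3.1, h3.2]
  have hl2 := cb_l1 (lp (fun s : (Σ p : P, ((t p).out → Bool)) => XC (t s.1).out) 1)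
  have hst := stable (lp (fun s : (Σ p : P, ((t p).out → Bool)) => XC (t s.1).out) 1)
  obtain ⟨f1⟩ := t2 (lp (fun _ : ℕ =>
      lp (fun s : (Σ p : P, ((t p).out → Bool)) => XC (t s.1).out) 1) 1) (lp X 1)
      (cb_trans (cb hl) (cb c2)) (cb_trans (cb c1) hl2) hst
  obtain ⟨f2⟩ := t2 (lp (fun _ : ℕ =>
      lp (fun s : (Σ p : P, ((t p).out → Bool)) => XC (t s.1).out) 1) 1)
      (lp (fun p : P => StrongDual ℝ C((t p).out → Bool, ℝ)) 1)
      (cb_trans (cb hl) (cb d2)) (cb_trans (cb d1) hl2) hst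
  obtain ⟨Z, i1, i2, i3, ⟨f3⟩⟩ := w5 P (fun p => C((t p).out → Bool, ℝ))
  exact ⟨Z, i1, i2, i3, ⟨(f1.symm.trans f2).trans f3.symm⟩⟩

end Pool.Agent.W6h79.LD

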