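import Pool.Agent.W6h79.LD.Defs8

/-! (W10) of MP_3844f5_an, part 6 (copy of helper34). -/

set_option autoImplicit false

open MeasureTheory Set Filter
open scoped ENNReal NNReal Topology

noncomputable section

namespace Pool.Agent.W6h79.LD.W10b

universe u v w

theorem mem_iff {K : Type u} {E : K → Type v} [∀ k, NormedAddCommGroup (E k)]
    (f : ∀ k, E k) : Memℓp f 1 ↔ Summable fun k => ‖f k‖ := by
  rw [memℓp_gen_iff (by norm_num)]
  simp

theorem norm_eq {K : Type u} {E : K → Type v} [∀ k, NormedAddCommGroup (E k)]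
    (f : lp E 1) : ‖f‖ = ∑' k, ‖f k‖ := by
  rw [lp.norm_eq_tsum_rpow (by norm_num)]
  simp

section iso

variable {P : Type u} {B : P → Type v} {Y : ∀ p, B p → Type w}
  [∀ p b, NormedAddCommGroup (Y p b)] [∀ p b, NormedSpace ℝ (Y p b)]

omit [∀ p b, NormedSpace ℝ (Y p b)] in
theorem fwd_mem (f : lp (fun p : P => lp (fun b : B p => Y p b) 1) 1) :
    Memℓp (fun q : (Σ p : P, B p) => (f q.1 : ∀ b : B q.1, Y q.1 b) q.2) 1 := by
  rw [mem_iff]
  refine (summable_sigma_of_nonneg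
    (f := fun q : (Σ p : P, B p) => ‖(f q.1 : ∀ b : B q.1, Y q.1 b) q.2‖)
    (fun _ => norm_nonneg _)).2 ⟨fun k => (mem_iff _).1 (f k).2, ?_⟩
  have := (mem_iff _).1 f.2
  refine this.congr fun k => ?_
  exact norm_eq (f k)

omit [∀ p b, NormedSpace ℝ (Y p b)] in
theorem bwd_mem1 (g : lp (fun q : (Σ p : P, B p) => Y q.1 q.2) 1) (k : P) :
    Memℓp (fun i : B k => (g : ∀ q : (Σ p : P, B p), Y q.1 q.2) ⟨k, i⟩) 1 := by
  rw [mem_iff]
  have := (summable_sigma_of_nonneg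
    (f := fun q : (Σ p : P, B p) => ‖(g : ∀ q : (Σ p : P, B p), Y q.1 q.2) q‖)
    (fun _ => norm_nonneg _)).1 ((mem_iff _).1 g.2)
  exact this.1 k

theorem bwd_mem2 (g : lp (fun q : (Σ p : P, B p) => Y q.1 q.2) 1) :
    Memℓp (fun k : P => (⟨fun i : B k => (g : ∀ q : (Σ p : P, B p), Y q.1 q.2) ⟨k, i⟩,
      bwd_mem1 g k⟩ : lp (fun b : B k => Y k b) 1)) 1 := by
  rw [mem_iff]
  have := (summable_sigma_of_nonneg
    (f := fun q : (Σ p : P, B p) => ‖(g : ∀ q : (Σ p : P, B p), Y q.1 q.2) q‖)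
    (fun _ => norm_nonneg _)).1 ((mem_iff _).1 g.2)
  refine this.2.congr fun k => ?_
  exact (norm_eq (⟨fun i : B k => (g : ∀ q : (Σ p : P, B p), Y q.1 q.2) ⟨k, i⟩,
    bwd_mem1 g k⟩ : lp (fun b : B k => Y k b) 1)).symm

/-- The linear equivalence. -/
def lin : lp (fun p : P => lp (fun b : B p => Y p b) 1) 1 ≃ₗ[ℝ]
    lp (fun q : (Σ p : P, B p) => Y q.1 q.2) 1 where
  toFun f := ⟨fun q => (f q.1 : ∀ b : B q.1, Y q.1 b) q.2, fwd_mem f⟩
  invFun g := ⟨fun k => ⟨fun i : B k => (g : ∀ q : (Σ p : P, B p), Y q.1 q.2) ⟨k, i⟩,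
    bwd_mem1 g k⟩, bwd_mem2 g⟩
  left_inv f := by
    ext k i
    rfl
  right_inv g := by
    ext p
    rfl
  map_add' f g := by
    ext p
    rfl
  map_smul' c f := by
    ext p
    rfl

/-- The isometry. -/
def iso : lp (fun p : P => lp (fun b : B p => Y p b) 1) 1 ≃ₗᵢ[ℝ]
    lp (fun q : (Σ p : P, B p) => Y q.1 q.2) 1 where
  toLinearEquiv := lin
  norm_map' f := by
    rw [norm_eq, norm_eq]
    have h1 : Summable fun q : (Σ p : P, B p) => ‖(f q.1 : ∀ b : B q.1, Y q.1 b) q.2‖ :=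
      (mem_iff _).1 (fwd_mem f)
    have h0 : ∀ k, Summable fun y : B k => ‖(f k : ∀ b : B k, Y k b) y‖ :=
      fun k => (mem_iff _).1 (f k).2
    have h2 := h1.tsum_sigma' h0
    calc ∑' q : (Σ p : P, B p), ‖(f q.1 : ∀ b : B q.1, Y q.1 b) q.2‖ = _ := h2
      _ = ∑' k, ‖f k‖ := by
        refine tsum_congr fun k => ?_
        exact (norm_eq (f k)).symm

end iso

theorem CEtrans {X : Type u} {Y : Type v} {Z : Type w} [NormedAddCommGroup X]
    [NormedSpace ℝ X] [NormedAddCommGroup Y] [NormedSpace ℝ Y] [NormedAddCommGroup Z]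
    [NormedSpace ℝ Z] (h1 : CE X Y) (h2 : CE Y Z) : CE X Z := by
  obtain ⟨i, P, hP, hi1, hP1⟩ := h1
  obtain ⟨j, Q, hQ, hj1, hQ1⟩ := h2
  refine ⟨j.comp i, P.comp Q, fun x => by simp [hQ, hP], ?_, ?_⟩
  · exact (ContinuousLinearMap.opNorm_comp_le j i).trans
      (mul_le_one₀ hj1 (norm_nonneg _) hi1)
  · exact (ContinuousLinearMap.opNorm_comp_le P Q).trans
      (mul_le_one₀ hP1 (norm_nonneg _) hQ1)

theorem CEequiv {X : Type u} {Y : Type v} [NormedAddCommGroup X]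
    [NormedSpace ℝ X] [NormedAddCommGroup Y] [NormedSpace ℝ Y] (e : X ≃ₗᵢ[ℝ] Y) : CE X Y := by
  refine ⟨(e : X →L[ℝ] Y), (e.symm : Y →L[ℝ] X), fun x => by simp, ?_, ?_⟩
  · refine ContinuousLinearMap.opNorm_le_bound _ zero_le_one fun x => ?_
    simp
  · refine ContinuousLinearMap.opNorm_le_bound _ zero_le_one fun x => ?_
    simp

theorem CErefl {X : Type u} [NormedAddCommGroup X] [NormedSpace ℝ X] : CE X X :=
  CEequiv (LinearIsometryEquiv.refl ℝ X)

theorem CE_CB {X : Type u} {Y : Type v} [NormedAddCommGroup X] [NormedSpace ℝ X]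
    [NormedAddCommGroup Y] [NormedSpace ℝ Y] (h : CE X Y) : CB X Y := by
  obtain ⟨i, P, h, -, -⟩ := h
  exact ⟨i, P, h⟩

end Pool.Agent.W6h79.LD.W10b

namespace Pool.Agent.W6h79.LD

open W10b in
/-- (W10) -/
theorem sW10b.{u} (w2 : S_W2.{u}) (w3 : S_W3.{u, u, u, u}) (w5 : S_W5.{u, u})
    (w6 : S_W6.{u}) (w9 : S_W9.{u}) (t2 : S_T2.{u, u}) (l3 : S_L3.{0, 0, u})
    (l4 : S_L4.{0, 0, u}) : S_W10.{u} := by
  intro P t X _ _ _ ht hX hc
  obtain ⟨g, hg, hgt⟩ := w9 P t ht hc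
  have hinf : ∀ p, Infinite (t p).out := fun p =>
    Cardinal.infinite_iff.2 (by rw [Cardinal.mk_out]; exact ht p)
  -- the universal sum
  let W : Type u := lp (fun q : (Σ p : P, ((t p).out → Bool)) => XC (t q.1).out) 1
  -- `ℓ¹(W)`
  let X0 : Type u := lp (fun _ : ℕ => W) 1
  let D : Type u := lp (fun p : P => StrongDual ℝ C((t p).out → Bool, ℝ)) 1
  have cXW : CE (lp X 1) W :=
    w3 P (Σ p : P, ((t p).out → Bool)) X (fun q => XC (t q.1).out)
      (fun p => ⟨p, fun _ => false⟩) (fun a b h => congrArg Sigma.fst h) (fun p => (hX p).2)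
  have cWX : CE W (lp X 1) :=
    w3 (Σ p : P, ((t p).out → Bool)) P (fun q => XC (t q.1).out) X g hg
      (fun q => CEtrans (w6 _ _ (by rw [Cardinal.mk_out, Cardinal.mk_out]; exact hgt q))
        (hX (g q)).1)
  have eWD : lp (fun p : P => lp (fun _ : ((t p).out → Bool) => XC (t p).out) 1) 1 ≃ₗᵢ[ℝ] W :=
    iso (P := P) (B := fun p => ((t p).out → Bool)) (Y := fun p _ => XC (t p).out)
  have cDW : CE D W := CEtrans
    (w3 P P (fun p : P => StrongDual ℝ C((t p).out → Bool, ℝ))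
      (fun p : P => lp (fun _ : ((t p).out → Bool) => XC (t p).out) 1) id
      Function.injective_id (fun p => (w2 (t p).out (hinf p)).1)) (CEequiv eWD)
  have cWD : CE W D := CEtrans (CEequiv eWD.symm)
    (w3 P P (fun p : P => lp (fun _ : ((t p).out → Bool) => XC (t p).out) 1)
      (fun p : P => StrongDual ℝ C((t p).out → Bool, ℝ)) id
      Function.injective_id (fun p => (w2 (t p).out (hinf p)).2))
  have e0 : X0 ≃ₗᵢ[ℝ] lp (fun x : (Σ _ : ℕ, (Σ p : P, ((t p).out → Bool))) =>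
      XC (t x.2.1).out) 1 :=
    iso (P := ℕ) (B := fun _ => (Σ p : P, ((t p).out → Bool)))
      (Y := fun _ q => XC (t q.1).out)
  have cW0 : CE W X0 := CEtrans
    (w3 (Σ p : P, ((t p).out → Bool)) (Σ _ : ℕ, (Σ p : P, ((t p).out → Bool)))
      (fun q => XC (t q.1).out) (fun x => XC (t x.2.1).out) (fun q => ⟨0, q⟩)
      (fun a b h => by simpa using h) (fun q => CErefl)) (CEequiv e0.symm)
  have hφ : ∀ p : P, ∃ φ : ℕ × ((t p).out → Bool) → ((t p).out → Bool),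
      Function.Injective φ := fun p => by
    have := hinf p
    have h1 : Cardinal.aleph0 ≤ Cardinal.mk ((t p).out → Bool) :=
      Cardinal.infinite_iff.1 inferInstance
    have h2 : Cardinal.mk (ℕ × ((t p).out → Bool)) ≤ Cardinal.mk ((t p).out → Bool) := by
      rw [Cardinal.mk_prod, Cardinal.mk_eq_aleph0, Cardinal.lift_aleph0, Cardinal.lift_uzero]
      exact (mul_le_mul' h1 le_rfl).trans (Cardinal.mul_eq_self h1).le
    obtain ⟨φ⟩ := h2
    exact ⟨φ, φ.injective⟩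
  choose φ hφi using hφ
  have c0W : CE X0 W := CEtrans (CEequiv e0)
    (w3 (Σ _ : ℕ, (Σ p : P, ((t p).out → Bool))) (Σ p : P, ((t p).out → Bool))
      (fun x => XC (t x.2.1).out) (fun q => XC (t q.1).out)
      (fun x => ⟨x.2.1, φ x.2.1 (x.1, x.2.2)⟩)
      (by
        rintro ⟨n, p, b⟩ ⟨n', p', b'⟩ h
        obtain ⟨h1, h2⟩ := Sigma.mk.inj_iff.1 h
        dsimp only at h1
        subst h1
        have h3 := hφi p (eq_of_heq h2)
        have h4 : n = n' := congrArg Prod.fst h3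
        have h5 : b = b' := congrArg Prod.snd h3
        subst h4
        subst h5
        rfl)
      (fun x => CErefl))
  have hsq : Nonempty (lp (fun _ : ℕ => X0) 1 ≃L[ℝ] X0) := by
    obtain ⟨e1⟩ := l3 ℕ ℕ W
    obtain ⟨e2⟩ := l4 (ℕ × ℕ) ℕ (Nat.pairEquiv) W
    exact ⟨e1.trans e2⟩
  obtain ⟨eX⟩ := t2 X0 (lp X 1) (CE_CB (CEtrans c0W cWX)) (CE_CB (CEtrans cXW cW0)) hsq
  obtain ⟨eD⟩ := t2 X0 D (CE_CB (CEtrans c0W cWD)) (CE_CB (CEtrans cDW cW0)) hsq
  obtain ⟨Z, i1, i2, i3, ⟨eZ⟩⟩ := w5 P (fun p => C((t p).out → Bool, ℝ))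
  exact ⟨Z, i1, i2, i3, ⟨(eX.symm.trans eD).trans eZ.symm⟩⟩

end Pool.Agent.W6h79.LD
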