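import Pool.Agent.W6h79.LD.Defs9
import Pool.Agent.W6h79.LD.D4m

/-!
# (X2), second copy
-/

open MeasureTheory Set Filter
open scoped ENNReal NNReal Topology

noncomputable section

namespace Pool.Agent.W6h79.LD

universe u

namespace X2b

theorem coin_one (b : Bool) : coin {b} = (2⁻¹ : ℝ≥0∞) := by
  rw [coin, Measure.smul_apply, Measure.count_singleton]
  simp

theorem cyl_eq {A : Type u} (J : Finset A) (s : A → Bool) :
    {x : A → Bool | ∀ b ∈ J, x b = s b} = Set.pi (J : Set A) (fun b => {s b}) := by
  ext x
  simp [Set.mem_pi]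

theorem cyl_meas {A : Type u} (J : Finset A) (s : A → Bool) :
    MeasurableSet {x : A → Bool | ∀ b ∈ J, x b = s b} := by
  rw [cyl_eq]
  exact MeasurableSet.pi J.countable_toSet fun b _ => measurableSet_singleton _

theorem meas_cyl {A : Type u} (J : Finset A) (s : A → Bool) :
    (coins A).real {x : A → Bool | ∀ b ∈ J, x b = s b} = (2⁻¹ : ℝ) ^ J.card := by
  have h2 : coins A (Set.pi (J : Set A) (fun b => {s b})) = ∏ b ∈ J, coin {s b} :=
    Measure.infinitePi_pi (fun _ : A => coin) (fun i _ => measurableSet_singleton _)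
  rw [Measure.real, cyl_eq, h2]
  simp_rw [coin_one]
  rw [Finset.prod_const, ENNReal.toReal_pow, ENNReal.toReal_inv]
  simp

theorem indep {A : Type u} (J : Finset A) (s : A → Bool) (g : (A → Bool) → ℝ)
    (hg : Measurable g) (hgJ : ∀ x y : A → Bool, (∀ i, i ∉ J → x i = y i) → g x = g y) :
    ∫ x in {x : A → Bool | ∀ b ∈ J, x b = s b}, g x ∂(coins A) =
      (2⁻¹ : ℝ) ^ J.card * ∫ x, g x ∂(coins A) := by
  set E := {x : A → Bool | ∀ b ∈ J, x b = s b} with hE
  have hEm : MeasurableSet E := cyl_meas J s
  have hmp := sD4m A (J : Set A)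
  rw [← integral_indicator hEm]
  have h1 := integral_map (μ := (coins A).prod (coins A)) hmp.measurable.aemeasurable
    (f := E.indicator g) (hg.indicator hEm).aestronglyMeasurable
  rw [hmp.map_eq] at h1
  rw [h1]
  have h2 : ∀ p : (A → Bool) × (A → Bool),
      E.indicator g (mrg (J : Set A) p.1 p.2) = g p.1 * E.indicator 1 p.2 := by
    rintro ⟨x, y⟩
    have h3 : ∀ b ∈ J, mrg (J : Set A) x y b = y b := by
      intro b hb
      exact if_pos hb
    by_cases hy : y ∈ E
    · have h4 : mrg (J : Set A) x y ∈ E := fun b hb => (h3 b hb).trans (hy b hb)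
      show E.indicator g (mrg (J : Set A) x y) = g x * E.indicator 1 y
      rw [indicator_of_mem h4, indicator_of_mem hy, Pi.one_apply, mul_one]
      refine hgJ _ _ fun i hi => ?_
      exact if_neg hi
    · have h4 : mrg (J : Set A) x y ∉ E := fun h => hy fun b hb => (h3 b hb).symm.trans (h b hb)
      show E.indicator g (mrg (J : Set A) x y) = g x * E.indicator 1 y
      rw [indicator_of_notMem h4, indicator_of_notMem hy, mul_zero]
  simp_rw [h2]
  rw [integral_prod_mul (μ := coins A) (ν := coins A) g (E.indicator 1),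
    integral_indicator_one hEm, meas_cyl, mul_comm]

end X2b

theorem sX2b : S_X2.{u} := by
  classical
  intro A f I hf hb hfI F a s haF hFI
  obtain ⟨C, hC⟩ := hb
  set J := F.erase a with hJ
  set t : Set (A → Bool) := {x | x a = s a} with ht
  have htm : MeasurableSet t := measurableSet_eq_fun (measurable_pi_apply a) measurable_const
  have hset : {x : A → Bool | ∀ b ∈ F, x b = s b} = {x : A → Bool | ∀ b ∈ J, x b = s b} ∩ t := by
    ext x
    constructor
    · intro h
      exact ⟨fun b hb => h b (Finset.mem_of_mem_erase hb), h a haF⟩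
    · rintro ⟨h1, h2⟩ b hb
      by_cases hba : b = a
      · rw [hba]; exact h2
      · exact h1 b (Finset.mem_erase.2 ⟨hba, hb⟩)
  have hfi : Integrable f (coins A) :=
    Integrable.of_bound hf.aestronglyMeasurable C (Eventually.of_forall fun x => hC x)
  have hsm : Measurable fun x : A → Bool => sgn (x a) :=
    (measurable_from_top (f := sgn)).comp (measurable_pi_apply a)
  have hs1 : ∀ b, |sgn b| = 1 := by
    intro b
    cases b <;> simp [sgn]
  have hfsi : Integrable (fun x => f x * sgn (x a)) (coins A) := by
    refine Integrable.of_bound (hf.mul hsm).aestronglyMeasurable C (Eventually.of_forall fun x => ?_)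
    rw [Real.norm_eq_abs, abs_mul, hs1, mul_one]
    exact hC x
  have hgm : Measurable (t.indicator f) := hf.indicator htm
  have hgJ : ∀ x y : A → Bool, (∀ i, i ∉ J → x i = y i) → t.indicator f x = t.indicator f y := by
    intro x y h
    have h1 : x a = y a := h a (Finset.notMem_erase a F)
    have h2 : f x = f y := by
      refine hfI x y fun i hi => h i fun hiJ => ?_
      exact hFI i (Finset.mem_of_mem_erase hiJ) (Finset.ne_of_mem_erase hiJ) hi
    by_cases hx : x a = s a
    · have hy : y a = s a := h1.symm.trans hx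
      rw [indicator_of_mem (show x ∈ t from hx), indicator_of_mem (show y ∈ t from hy), h2]
    · have hy : ¬ y a = s a := fun hy => hx (h1.trans hy)
      rw [indicator_of_notMem (show x ∉ t from hx), indicator_of_notMem (show y ∉ t from hy)]
  have h3 : ∫ x, t.indicator f x ∂(coins A) =
      (∫ x, f x ∂(coins A) + sgn (s a) * ∫ x, f x * sgn (x a) ∂(coins A)) / 2 := by
    rw [← integral_const_mul, ← integral_add hfi (hfsi.const_mul _), ← integral_div]
    refine integral_congr_ae (Eventually.of_forall fun x => ?_)
    show t.indicator f x = (f x + sgn (s a) * (f x * sgn (x a))) / 2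
    by_cases hx : x a = s a
    · rw [indicator_of_mem (show x ∈ t from hx), hx]
      cases s a <;> simp [sgn]
    · rw [indicator_of_notMem (show x ∉ t from hx)]
      cases h4 : s a <;> cases h5 : x a <;> simp_all [sgn]
  rw [hset, ← setIntegral_indicator htm, X2b.indep J s _ hgm hgJ, h3]
  have hcard : F.card = J.card + 1 := (Finset.card_erase_add_one haF).symm
  rw [hcard, pow_succ]
  have h6 : (2 : ℝ) ^ J.card * (2⁻¹ : ℝ) ^ J.card = 1 := by
    rw [← mul_pow]
    norm_num
  linear_combination (∫ x, f x ∂(coins A) + sgn (s a) * ∫ x, f x * sgn (x a) ∂(coins A)) * h6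

end Pool.Agent.W6h79.LD
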