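import Pool.Agent.W6h79.LD.Defs9
import Pool.Agent.W6h79.LD.D5

/-!
# (X3) `L¹({0,1}^κ) ⊂ Y*` implies `ℓ¹(κ) ⊂ Y`, regular types above `ℵ₁`
-/

set_option autoImplicit false

open MeasureTheory Set Filter
open scoped ENNReal NNReal Topology

noncomputable section

namespace Pool.Agent.W6h79.LD

namespace PX3b

open PD5

theorem norm_sgn {A : Type*} (a : A) : ‖(memLp_sgn a).toLp _‖ = 1 := by
  rw [L1.norm_eq_integral_norm]
  have : ∀ᵐ x ∂(coins A), ‖((memLp_sgn a).toLp _ : Lp ℝ 1 (coins A)) x‖ = 1 := by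
    filter_upwards [(memLp_sgn a).coeFn_toLp] with x hx
    rw [hx, Real.norm_eq_abs, abs_sgn]
  rw [integral_congr_ae this]
  simp

theorem exists_y' {A : Type*} {Y : Type*} [NormedAddCommGroup Y] [NormedSpace ℝ Y]
    (T : Lp ℝ 1 (coins A) →L[ℝ] StrongDual ℝ Y) (c : ℝ) (hc : 0 < c)
    (hT : ∀ f, c * ‖f‖ ≤ ‖T f‖) (a : A) :
    ∃ y : Y, ‖y‖ ≤ 1 ∧ c / 2 ≤ T ((memLp_sgn a).toLp _) y := by
  have h1 : c / 2 < ‖T ((memLp_sgn a).toLp _)‖ := by
    have := hT ((memLp_sgn a).toLp _)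
    rw [norm_sgn, mul_one] at this
    linarith
  obtain ⟨y, hy1, hy2⟩ := ContinuousLinearMap.exists_lt_apply_of_lt_opNorm _ h1
  rw [Real.norm_eq_abs] at hy2
  rcases le_total 0 (T ((memLp_sgn a).toLp _) y) with h | h
  · rw [abs_of_nonneg h] at hy2
    exact ⟨y, hy1.le, hy2.le⟩
  · rw [abs_of_nonpos h] at hy2
    exact ⟨-y, by rw [norm_neg]; exact hy1.le, by rw [map_neg]; exact hy2.le⟩

/-- a multiple of an indicator -/
def cy {Ω : Type*} [MeasurableSpace Ω] (μ : Measure Ω) [IsFiniteMeasure μ] (S : Set Ω)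
    (hS : MeasurableSet S) (t : ℝ) : Lp ℝ 1 μ :=
  t • indicatorConstLp 1 hS (measure_ne_top μ S) (1 : ℝ)

theorem norm_cy {Ω : Type*} [MeasurableSpace Ω] (μ : Measure Ω) [IsFiniteMeasure μ] (S : Set Ω)
    (hS : MeasurableSet S) (t : ℝ) (ht : 0 ≤ t) : ‖cy μ S hS t‖ = t * μ.real S := by
  rw [cy, norm_smul, norm_indicatorConstLp one_ne_zero ENNReal.one_ne_top,
    Real.norm_of_nonneg ht]
  simp

theorem int_cy {Ω : Type*} [MeasurableSpace Ω] (μ : Measure Ω) [IsFiniteMeasure μ] (S : Set Ω)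
    (hS : MeasurableSet S) (t : ℝ) (f : Ω → ℝ) :
    ∫ ω, f ω * cy μ S hS t ω ∂μ = t * ∫ ω in S, f ω ∂μ := by
  have h1 : (cy μ S hS t : Ω → ℝ) =ᵐ[μ] fun ω => t * S.indicator (fun _ => (1 : ℝ)) ω := by
    filter_upwards [Lp.coeFn_smul t (indicatorConstLp 1 hS (measure_ne_top μ S) (1 : ℝ)),
      indicatorConstLp_coeFn (p := 1) (hs := hS) (hμs := measure_ne_top μ S) (c := (1 : ℝ))]
      with ω h2 h3
    rw [cy, h2, Pi.smul_apply, h3, smul_eq_mul]
  rw [integral_congr_ae (g := fun ω => t * S.indicator f ω)]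
  · rw [integral_const_mul, integral_indicator hS]
  · filter_upwards [h1] with ω h2
    rw [h2]
    by_cases hω : ω ∈ S
    · simp [hω, mul_comm]
    · simp [hω]

/-- cylinders -/
def CS {A : Type*} (F : Finset A) (s : A → Bool) : Set (A → Bool) := {x | ∀ b ∈ F, x b = s b}

theorem meas_CS {A : Type*} (F : Finset A) (s : A → Bool) : MeasurableSet (CS F s) := by
  have : CS F s = ⋂ b ∈ F, {x : A → Bool | x b = s b} := by
    ext x; simp [CS]
  rw [this]
  refine Finset.measurableSet_biInter F fun b _ => ?_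
  exact measurableSet_eq_fun (measurable_pi_apply b) measurable_const

theorem sgn_not (b : Bool) : sgn (!b) = - sgn b := by
  cases b <;> simp [sgn]

end PX3b

open PD5 PX3b in
theorem sX3b.{u, v} (h1 : S_X1.{u}) (h2 : S_D2.{u}) (h3 : S_D3.{u}) (hx : S_X2.{u}) :
    S_X3.{u, v} := by
  classical
  intro A hA Y _ _ T c hc hT
  choose y hy1 hy2 using exists_y' T c hc hT
  let L : A → Lp ℝ 1 (coins A) →L[ℝ] ℝ := fun a =>
    (ContinuousLinearMap.apply ℝ ℝ (y a)).comp T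
  have hL : ∀ a g, L a g = T g (y a) := fun a g => rfl
  choose f hfm hfb hfi using fun a => h3 (A → Bool) (coins A) inferInstance (L a)
  have hd : ∀ a, c / 2 ≤ ∫ x, f a x * sgn (x a) ∂(coins A) := by
    intro a
    have h5 := hfi a ((memLp_sgn a).toLp _)
    have h6 : ∫ x, f a x * ((memLp_sgn a).toLp _ : Lp ℝ 1 (coins A)) x ∂(coins A) =
        ∫ x, f a x * sgn (x a) ∂(coins A) := by
      refine integral_congr_ae ?_
      filter_upwards [(memLp_sgn a).coeFn_toLp] with x hx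
      rw [hx]
    rw [← h6, ← h5, hL]
    exact hy2 a
  choose I hIc hI using fun a => h2 A (f a) (hfm a)
  obtain ⟨B, hB, hfree⟩ := h1 A hA I hIc
  obtain ⟨e⟩ := Cardinal.eq.1 hB.symm
  have hinj : Function.Injective fun i => (e i : A) :=
    Subtype.val_injective.comp e.injective
  have hTn : 0 ≤ ‖T‖ := norm_nonneg T
  refine ⟨fun i => y (e i), c / (2 * (‖T‖ + 1)), by positivity, fun i => hy1 _, fun J a => ?_⟩
  rcases J.eq_empty_or_nonempty with rfl | ⟨i0, hi0⟩
  · simp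
  let s : A → Bool := Function.extend (fun i => (e i : A)) (fun i => decide (0 ≤ a i))
    (fun _ => false)
  have hs : ∀ i, s (e i) = decide (0 ≤ a i) := fun i =>
    hinj.extend_apply (fun i => decide (0 ≤ a i)) (fun _ => false) i
  let F : Finset A := J.image fun i => (e i : A)
  have hF : ∀ b ∈ F, b ∈ B := by
    intro b hb
    obtain ⟨i, -, rfl⟩ := Finset.mem_image.1 hb
    exact (e i).2
  have key : ∀ (s : A → Bool), ∀ b ∈ F, (2 : ℝ) ^ F.card * ∫ x in CS F s, f b x ∂(coins A) =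
      ∫ x, f b x ∂(coins A) + sgn (s b) * ∫ x, f b x * sgn (x b) ∂(coins A) := by
    intro s b hb
    exact hx A (f b) (I b) (hfm b) ⟨‖L b‖, hfb b⟩ (hI b) F b s hb fun b' hb' hne =>
      hfree b' (hF b' hb') b (hF b hb) hne
  have hone : ∀ (s : A → Bool), (2 : ℝ) ^ F.card * (coins A).real (CS F s) =
      1 + sgn (s (e i0)) * ∫ x, sgn (x (e i0)) ∂(coins A) := by
    intro s
    have := hx A (fun _ => 1) ∅ measurable_const ⟨1, fun _ => by simp⟩ (fun _ _ _ => rfl) F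
      (e i0) s (Finset.mem_image_of_mem _ hi0) (fun _ _ _ => Set.notMem_empty _)
    simpa [CS] using this
  let s' : A → Bool := fun b => !s b
  let g : Lp ℝ 1 (coins A) := cy (coins A) _ (meas_CS F s) (2 ^ F.card) -
    cy (coins A) _ (meas_CS F s') (2 ^ F.card)
  have hg : ‖g‖ ≤ 2 := by
    have h7 := norm_sub_le (cy (coins A) _ (meas_CS F s) (2 ^ F.card))
      (cy (coins A) _ (meas_CS F s') (2 ^ F.card))
    rw [norm_cy _ _ _ _ (by positivity), norm_cy _ _ _ _ (by positivity), hone, hone] at h7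
    have h8 : sgn (s' (e i0)) = - sgn (s (e i0)) := sgn_not _
    rw [h8] at h7
    calc ‖g‖ ≤ _ := h7
      _ = 2 := by ring
  have hval : ∀ i ∈ J, c * |a i| ≤ a i * T g (y (e i)) := by
    intro i hi
    have hiF : (e i : A) ∈ F := Finset.mem_image_of_mem _ hi
    have h7 : T g (y (e i)) = 2 * (sgn (s (e i)) * ∫ x, f (e i) x * sgn (x (e i)) ∂(coins A)) := by
      rw [← hL, show g = cy (coins A) _ (meas_CS F s) (2 ^ F.card) -
        cy (coins A) _ (meas_CS F s') (2 ^ F.card) from rfl, map_sub, hfi, hfi,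
        int_cy, int_cy, key s _ hiF, key s' _ hiF]
      have h8 : sgn (s' (e i)) = - sgn (s (e i)) := sgn_not _
      rw [h8]
      ring
    rw [h7]
    have h9 := hd (e i)
    by_cases h0 : 0 ≤ a i
    · have hsi : s (e i) = true := by rw [hs]; simpa using h0
      rw [hsi, abs_of_nonneg h0, show sgn true = 1 by simp [sgn]]
      nlinarith
    · have hsi : s (e i) = false := by rw [hs]; simpa using h0
      push Not at h0
      rw [hsi, abs_of_neg h0, show sgn false = -1 by simp [sgn]]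
      nlinarith
  have hsum : c * ∑ i ∈ J, |a i| ≤ T g (∑ i ∈ J, a i • y (e i)) := by
    rw [map_sum, Finset.mul_sum]
    refine Finset.sum_le_sum fun i hi => ?_
    rw [map_smul, smul_eq_mul]
    exact hval i hi
  have hup : T g (∑ i ∈ J, a i • y (e i)) ≤ (2 * (‖T‖ + 1)) * ‖∑ i ∈ J, a i • y (e i)‖ := by
    calc T g (∑ i ∈ J, a i • y (e i)) ≤ ‖T g (∑ i ∈ J, a i • y (e i))‖ := le_abs_self _
      _ ≤ ‖T g‖ * ‖∑ i ∈ J, a i • y (e i)‖ := (T g).le_opNorm _
      _ ≤ (2 * (‖T‖ + 1)) * ‖∑ i ∈ J, a i • y (e i)‖ := by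
        refine mul_le_mul_of_nonneg_right ?_ (norm_nonneg _)
        calc ‖T g‖ ≤ ‖T‖ * ‖g‖ := T.le_opNorm _
          _ ≤ ‖T‖ * 2 := mul_le_mul_of_nonneg_left hg hTn
          _ ≤ 2 * (‖T‖ + 1) := by linarith
  rw [div_mul_eq_mul_div, div_le_iff₀ (by positivity : (0:ℝ) < 2 * (‖T‖ + 1))]
  calc c * ∑ i ∈ J, |a i| ≤ _ := hsum
    _ ≤ _ := hup
    _ = _ := by ring

end Pool.Agent.W6h79.LD

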